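import Pool.Agent.Lib.MP_343319_al.Basic

namespace Pool.Agent.Lib.MP_343319_al

def force {α : Type} (x : ℕ) (k : ℕ → α) : α :=
  match x with
  | 0 => k 0
  | m + 1 => k (m + 1)

@[simp] lemma force_eq {α : Type} (x : ℕ) (k : ℕ → α) : force x k = k x := by
  cases x <;> rfl

def primesL : List ℕ :=
  [2, 3, 5, 7, 11, 13, 17, 19, 23, 29, 31, 37, 41, 43, 47, 53, 59, 61, 67, 71, 73, 79, 83, 89, 97,
   101, 103, 107, 109, 113, 127, 131, 137, 139, 149, 151, 157, 163, 167, 173, 179, 181, 191, 193,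
   197, 199, 211, 223, 227, 229, 233, 239, 241, 251, 257, 263, 269, 271, 277, 281, 283, 293, 307,
   311, 313, 317, 331, 337, 347, 349, 353, 359, 367, 373, 379, 383, 389, 397, 401, 409, 419, 421,
   431, 433, 439, 443, 449, 457, 461, 463, 467, 479, 487, 491, 499, 503, 509, 521, 523]

lemma primesL_check : ((List.range 530).all fun p => decide (p < 2) || primesL.contains p ||
    [2, 3, 5, 7, 11, 13, 17, 19, 23].any fun d => decide (d < p) && (p % d == 0)) = true := by
  decide +kernel

lemma mem_primesL {p : ℕ} (hp : p.Prime) (h : p < 530) : p ∈ primesL := by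
  have := List.all_eq_true.1 primesL_check p (List.mem_range.2 h)
  have h2 := hp.two_le
  simp only [Bool.or_eq_true, decide_eq_true_eq, List.contains_iff_mem, List.any_eq_true,
    Bool.and_eq_true, beq_iff_eq] at this
  rcases this with (h | h) | ⟨d, hd, h1, h3⟩
  · omega
  · exact h
  · have := (Nat.dvd_prime hp).1 (Nat.dvd_of_mod_eq_zero h3)
    simp only [List.mem_cons, List.not_mem_nil, or_false] at hd
    omega

def primesTo (B : ℕ) : List ℕ := primesL.filter fun p => decide (p ≤ B)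

lemma mem_primesTo {p B : ℕ} (hp : p.Prime) (h : p ≤ B) (hB : B < 530) : p ∈ primesTo B := by
  simp only [primesTo, List.mem_filter, decide_eq_true_eq]
  exact ⟨mem_primesL hp (by omega), h⟩

def valAux (p : ℕ) : ℕ → ℕ → ℕ → ℕ
  | 0, _, acc => acc
  | k + 1, x, acc => if x % p = 0 then force (x / p) fun y => valAux p k y (acc + 1) else acc

lemma le_valAux (p k x acc : ℕ) : acc ≤ valAux p k x acc := by
  induction k generalizing x acc with
  | zero => simp [valAux]
  | succ k ih =>
    simp only [valAux, force_eq]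
    split_ifs
    · exact (Nat.le_succ _).trans (ih _ _)
    · exact le_rfl

lemma valAux_ge {p : ℕ} (hp : 0 < p) (k x acc a : ℕ) (h : p ^ a ∣ x) (ha : a ≤ k) :
    acc + a ≤ valAux p k x acc := by
  induction k generalizing x acc a with
  | zero => simp [valAux]; omega
  | succ k ih =>
    rcases a with _ | a
    · exact le_valAux _ _ _ _
    · obtain ⟨c, rfl⟩ := h
      simp only [valAux, force_eq]
      have e : p ^ (a + 1) * c = p * (p ^ a * c) := by ring
      rw [e, if_pos (Nat.mul_mod_right _ _), Nat.mul_div_cancel_left _ hp]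
      have := ih (p ^ a * c) (acc + 1) a (Dvd.intro _ rfl) (by omega)
      omega

def val (p x : ℕ) : ℕ := valAux p x x 0

def lgAux (x : ℕ) : ℕ → ℕ → ℕ
  | 0, e => e
  | k + 1, e => force (e + 2 ^ k) fun u => if x >>> u = 0 then lgAux x k e else lgAux x k u

def lg (x : ℕ) : ℕ := force (x ||| x % 4294967291) fun z => lgAux z 15 0

lemma le_val {p x a : ℕ} (hp : 2 ≤ p) (hx : 0 < x) (h : p ^ a ∣ x) : a ≤ val p x := by
  have h1 : 2 ^ a ≤ x := (Nat.pow_le_pow_left hp a).trans (Nat.le_of_dvd hx h)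
  have h2 : a ≤ x := Nat.lt_two_pow_self.le.trans h1
  simpa [val] using valAux_ge (by omega) _ x 0 a h h2

def shapes : List (Ty × ℕ) :=
  ((List.range' 2 18).map fun n => (Ty.A, n)) ++ ((List.range' 3 17).map fun n => (Ty.U, n)) ++
  ((List.range' 2 18).map fun n => (Ty.B, n)) ++ ((List.range' 4 16).map fun n => (Ty.D, n)) ++
  ((List.range' 4 16).map fun n => (Ty.E, n)) ++
  [(Ty.G2, 0), (Ty.F4, 0), (Ty.E6, 0), (Ty.U6, 0), (Ty.E7, 0), (Ty.E8, 0), (Ty.T4, 0), (Ty.Sz, 0),
    (Ty.Re, 0), (Ty.V4, 0)]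

lemma mem_shapes {t : Ty} {n : ℕ} (h : vS t n = true) (hn : n < 20) : (t, n) ∈ shapes := by
  cases t <;> simp only [vS, decide_eq_true_eq] at h <;>
    simp [shapes, List.mem_range'_1] <;> omega

lemma lt_of_tN {t : Ty} {n : ℕ} (h : vS t n = true) (hn : tN t n < 190) : n < 20 := by
  by_contra hc
  have h1 : 20 * 19 ≤ n * (n - 1) := Nat.mul_le_mul (by omega) (by omega)
  have h2 : 20 * 20 ≤ n * n := Nat.mul_le_mul (by omega) (by omega)
  cases t <;> simp only [vS, tN, decide_eq_true_eq] at h hn <;> omega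

def enumL (p a : ℕ) (test : ℕ → Bool) : Bool :=
  decide (a < 190) && shapes.all fun s => (List.range (a / tN s.1 s.2)).all fun f =>
    !vQ s.1 s.2 p (f + 1) || force (ord s.1 s.2 (p ^ (f + 1))) test

lemma enumL_sound {p a : ℕ} {test : ℕ → Bool} (h : enumL p a test = true) {t : Ty} {n f : ℕ}
    (hv : Val t n p f) (ha : f * tN t n ≤ a) : test (ord t n (p ^ f)) = true := by
  simp only [enumL, Bool.and_eq_true, decide_eq_true_eq, List.all_eq_true, force_eq] at h
  have hf := hv.hf
  have hN : 1 ≤ tN t n := by have := tr_le_tN hv.hS; omega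
  have h1 : tN t n < 190 := by nlinarith [h.1]
  have h2 := h.2 (t, n) (mem_shapes hv.hS (lt_of_tN hv.hS h1)) (f - 1) (by
    rw [List.mem_range]
    have : f ≤ a / tN t n := (Nat.le_div_iff_mul_le (by omega)).2 ha
    show f - 1 < a / tN t n
    omega)
  have e : f - 1 + 1 = f := by omega
  simp only [e, hv.hQ, Bool.not_true, Bool.false_or] at h2
  exact h2

lemma Val.le_val {t : Ty} {n p f y : ℕ} (hv : Val t n p f) (hy : 0 < y)
    (h : ord t n (p ^ f) ∣ y) : f * tN t n ≤ val p y := by
  refine Pool.Agent.Lib.MP_343319_al.le_val hv.hp.two_le hy ?_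
  rw [pow_mul]; exact (pow_dvd_ord hv.hS).trans h

lemma Val.dvd {t : Ty} {n p f : ℕ} (hv : Val t n p f) : p ∣ ord t n (p ^ f) := by
  refine dvd_trans ?_ (pow_dvd_ord hv.hS)
  have hN : 1 ≤ tN t n := by have := tr_le_tN hv.hS; omega
  have := hv.hf
  rw [← pow_mul]
  exact dvd_pow_self _ (Nat.mul_ne_zero (by omega) (by omega))

/-- `true` certifies that `y` is not the order of a group of Lie type in a characteristic
from `ps` -/
def notLie (ps : List ℕ) (y : ℕ) : Bool :=
  ps.all fun p => y % p != 0 || force (val p y) fun a =>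
    decide (p ^ (3 * a) < y) || enumL p a fun x => x != y

lemma notLie_sound {ps : List ℕ} {y : ℕ} (h : notLie ps y = true)
    (hps : ∀ p, p.Prime → p ∣ y → p ∈ ps) : ¬Lie y := by
  rintro ⟨t, n, p, f, hv, hy⟩
  have hpos : 0 < y := hy ▸ ord_pos hv.two_le hv.hS
  have hd : p ∣ y := hy ▸ hv.dvd
  have h1 := List.all_eq_true.1 h p (hps p hv.hp hd)
  have h2 : f * tN t n ≤ val p y := hv.le_val hpos (hy ▸ dvd_rfl)
  simp only [force_eq, Bool.or_eq_true, bne_iff_ne, ne_eq, decide_eq_true_eq] at h1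
  rcases h1 with h1 | h1 | h1
  · exact h1 (Nat.mod_eq_zero_of_dvd hd)
  · have h3 := ord_le_cube hv.two_le hv.hS
    rw [← hy, ← pow_mul, ← pow_mul] at h3
    have : p ^ (f * tN t n * 3) ≤ p ^ (3 * val p y) :=
      Nat.pow_le_pow_right hv.hp.pos (by omega)
    rw [← mul_assoc] at h3
    omega
  · have := enumL_sound h1 hv h2
    simp [hy] at this

/-- all Lie type orders dividing `Y` pass `test` -/
def allLieDvd (ps : List ℕ) (Y : ℕ) (test : ℕ → Bool) : Bool :=
  ps.all fun p => Y % p != 0 || force (val p Y) fun a => enumL p a fun x => Y % x != 0 || test x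

lemma allLieDvd_sound {ps : List ℕ} {Y : ℕ} {test : ℕ → Bool} (h : allLieDvd ps Y test = true)
    (hY : 0 < Y) (hps : ∀ p, p.Prime → p ∣ Y → p ∈ ps) {x : ℕ} (hx : Lie x) (hxY : x ∣ Y) :
    test x = true := by
  obtain ⟨t, n, p, f, hv, rfl⟩ := hx
  have hd : p ∣ Y := hv.dvd.trans hxY
  have h1 := List.all_eq_true.1 h p (hps p hv.hp hd)
  simp only [force_eq, Bool.or_eq_true, bne_iff_ne, ne_eq] at h1
  rcases h1 with h1 | h1
  · exact absurd (Nat.mod_eq_zero_of_dvd hd) h1
  · have := enumL_sound h1 hv (hv.le_val hY hxY)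
    simp only [Bool.or_eq_true, bne_iff_ne, ne_eq] at this
    rcases this with h2 | h2
    · exact absurd (Nat.mod_eq_zero_of_dvd hxY) h2
    · exact h2

def newt (c : ℕ) : ℕ → ℕ → ℕ
  | 0, x => x
  | k + 1, x => force ((x + c / x) / 2) fun y => if y < x then newt c k y else x

def notPronic (c : ℕ) : Bool :=
  force (newt c 40 (2 ^ (lg c / 2 + 1))) fun s =>
    decide (s * s ≤ c) && decide (c < (s + 1) * (s + 1)) && ((s + 1) * s != c)

lemma notPronic_sound {c m : ℕ} (h : notPronic c = true) : c ≠ (m + 1) * m := by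
  simp only [notPronic, force_eq, Bool.and_eq_true, decide_eq_true_eq, bne_iff_ne] at h
  generalize newt c 40 (2 ^ (lg c / 2 + 1)) = s at h
  rintro rfl
  obtain ⟨⟨h1, h2⟩, h3⟩ := h
  have : s = m := by
    rcases lt_trichotomy s m with h | h | h
    · nlinarith
    · exact h
    · nlinarith
  exact h3 (by rw [this])

def smallQ : List (ℕ × ℕ) :=
  [(2, 1), (2, 2), (2, 3), (3, 1), (3, 2), (5, 1), (7, 1), (11, 1), (13, 1)]

lemma mem_smallQ {p f : ℕ} (hp : p.Prime) (hf : 1 ≤ f) (h : p ^ f < 16) : (p, f) ∈ smallQ := by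
  have h2 := hp.two_le
  have h1 : p ≤ p ^ f := Nat.le_self_pow (by omega) p
  have h3 : 2 ^ f ≤ p ^ f := Nat.pow_le_pow_left h2 f
  have h4 : f < 4 := by
    by_contra hc
    have : 2 ^ 4 ≤ 2 ^ f := Nat.pow_le_pow_right (by norm_num) (by omega)
    omega
  have h5 : p < 16 := by omega
  interval_cases p <;> first | (exfalso; norm_num at hp; done) | (interval_cases f <;> first | decide | omega)

def t2chk (t : Ty) : Bool := (List.range 12).all fun n => !vS t n || smallQ.all fun g =>
    !vQ t n g.1 g.2 || force (ord t n (g.1 ^ g.2)) notPronic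

lemma t2_small_check (t : Ty) : t2chk t = true := by
  cases t <;> decide +kernel

lemma t2_small {t : Ty} {n p f m : ℕ} (hv : Val t n p f) (hn : n ≤ 11) (hq : p ^ f < 16) :
    ord t n (p ^ f) ≠ (m + 1) * m := by
  have h1 := List.all_eq_true.1 (t2_small_check t) n (List.mem_range.2 (by omega))
  simp only [hv.hS, Bool.not_true, Bool.false_or, List.all_eq_true, force_eq] at h1
  have h2 := h1 (p, f) (mem_smallQ hv.hp hv.hf hq)
  simp only [hv.hQ, Bool.not_true, Bool.false_or] at h2
  exact notPronic_sound h2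

end Pool.Agent.Lib.MP_343319_al
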