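import Pool.Agent.Lib.MP_343319_al.T2b
import Pool.Agent.Lib.MP_343319_al.Check

namespace Pool.Agent.Lib.MP_343319_al

lemma t2_A2 {p f m : ℕ} (hv : Val .A 2 p f) (hq : 16 ≤ p ^ f)
    (hm : ord .A 2 (p ^ f) = (m + 1) * m) : False := by
  obtain ⟨b, hb, hb2⟩ := t2_val hv hm
  generalize p ^ f = q at *
  have hd1 : 1 ≤ td .A 2 q := td_pos (t := .A) (n := 2) rfl
  have hd2 : td .A 2 q ≤ 2 := Nat.gcd_le_left _ (by norm_num)
  have e1 : tR .A 2 q = q ^ 2 - 1 := by simp [tR, pA]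
  have e2 : tN .A 2 = 1 := rfl
  rw [e1, e2, pow_one] at hb2
  generalize td .A 2 q = d at *
  obtain ⟨c, hc⟩ : ∃ c, q ^ 2 = c + 1 := 
    ⟨q ^ 2 - 1, by have : 0 < q ^ 2 := (by positivity); omega⟩
  rw [hc, Nat.add_sub_cancel] at hb2
  have hb5 : d * b ≤ q - 2 := by
    by_contra hcon
    have h1 : q - 1 ≤ d * b := by omega
    have h2 : 7 ≤ b := by
      by_contra h; have : d * b ≤ 2 * 6 := Nat.mul_le_mul hd2 (by omega); omega
    obtain ⟨r, rfl⟩ : ∃ r, q = r + 1 := ⟨q - 1, by omega⟩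
    simp only [Nat.add_sub_cancel] at h1
    rcases hb2 with h | h
    · have : d * b * ((r + 1) * b) ≥ d * b * ((r + 1) * 7) := by gcongr
      nlinarith
    · have : d * b * ((r + 1) * b + 1) ≥ r * ((r + 1) * 7) := by
        apply Nat.mul_le_mul h1; nlinarith
      nlinarith
  have hu : 1 ≤ d * b := Nat.mul_pos hd1 hb
  rcases hb2 with h | h
  · have h1 : (q : ℤ) ∣ (d * b : ℕ) - 1 := by
      refine ⟨d * b * b - q, ?_⟩
      have h' : ((c + d * b : ℕ) : ℤ) = (d * b * (q * b) : ℕ) := by rw [h]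
      have hc' : ((q ^ 2 : ℕ) : ℤ) = (c + 1 : ℕ) := by rw [hc]
      push_cast at h' hc' ⊢
      linarith
    have h2 := Int.eq_zero_of_abs_lt_dvd h1 (by rw [abs_of_nonneg] <;> omega)
    have h3 : d * b = 1 := by omega
    have h4 : b = 1 := Nat.eq_one_of_mul_eq_one_left h3
    rw [h3, h4] at h
    nlinarith
  · have h1 : (q : ℤ) ∣ (d * b : ℕ) + 1 := by
      refine ⟨q - d * b * b, ?_⟩
      have h' : ((c : ℕ) : ℤ) = (d * b * (q * b + 1) : ℕ) := by rw [h]
      have hc' : ((q ^ 2 : ℕ) : ℤ) = (c + 1 : ℕ) := by rw [hc]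
      push_cast at h' hc' ⊢
      linarith
    have h2 := Int.eq_zero_of_abs_lt_dvd h1 (by rw [abs_of_nonneg] <;> omega)
    omega

/-- no group of Lie type has order `m(m+1)` -/
theorem lie_not_pronic {x m : ℕ} (hx : Lie x) : x ≠ (m + 1) * m := by
  obtain ⟨t, n, p, f, hv, rfl⟩ := hx
  intro hm
  have hq := hv.two_le
  have hS := hv.hS
  have hT := t2data_of hv hm
  by_cases hn : 12 ≤ n
  · cases t <;> simp only [vS, decide_eq_true_eq] at hS <;> try omega
    · exact t2_AU_big hq hn (Or.inl rfl) hT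
    · exact t2_AU_big hq hn (Or.inr rfl) hT
    · exact t2_B hq (by omega) hT
    · exact t2_DE hq (by omega) (Or.inl rfl) hT
    · exact t2_DE hq (by omega) (Or.inr rfl) hT
  by_cases hq' : p ^ f < 16
  · exact t2_small hv (by omega) hq' hm
  push Not at hq' hn
  cases t <;> simp only [vS, decide_eq_true_eq] at hS
  · by_cases h5 : 5 ≤ n
    · exact t2_AU_mid hq' h5 (by omega) (Or.inl rfl) hT
    · interval_cases n
      · exact t2_A2 hv hq' hm
      · exact ex_A3 _ hq' hT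
      · exact ex_A4 _ hq' hT
      all_goals omega
  · by_cases h5 : 5 ≤ n
    · exact t2_AU_mid hq' h5 (by omega) (Or.inr rfl) hT
    · interval_cases n
      · exact ex_U3 _ hq' hT
      · exact ex_U4 _ hq' hT
      all_goals omega
  · by_cases h5 : 5 ≤ n
    · exact t2_B hq h5 hT
    · interval_cases n
      · exact ex_B2 _ hq' hT
      · exact ex_B3 _ hq' hT
      · exact ex_B4 _ hq' hT
      all_goals omega
  · interval_cases n
    · exact ex_D4 _ hq' hT
    · exact ex_D5 _ hq' hT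
    · exact ex_D6 _ hq' hT
    · exact ex_D7 _ hq' hT
    · exact ex_D8 _ hq' hT
    · exact ex_D9 _ hq' hT
    · exact ex_D10 _ hq' hT
    · exact t2_DE hq le_rfl (Or.inl rfl) hT
  · interval_cases n
    · exact ex_E4 _ hq' hT
    · exact ex_E5 _ hq' hT
    · exact ex_E6 _ hq' hT
    · exact ex_E7 _ hq' hT
    · exact ex_E8 _ hq' hT
    · exact ex_E9 _ hq' hT
    · exact ex_E10 _ hq' hT
    · exact t2_DE hq le_rfl (Or.inr rfl) hT
  all_goals subst hS
  · exact ex_G20 _ hq' hT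
  · exact ex_F40 _ hq' hT
  · exact ex_E60 _ hq' hT
  · exact ex_U60 _ hq' hT
  · exact ex_E70 _ hq' hT
  · exact ex_E80 _ hq' hT
  · exact ex_T40 _ hq' hT
  · exact ex_Sz0 _ hq' hT
  · exact ex_Re0 _ hq' hT
  · exact ex_V40 _ hq' hT

end Pool.Agent.Lib.MP_343319_al
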