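import Pool.Agent.Lib.MP_343319_al.Check2
import Pool.Agent.Lib.MP_343319_al.T2c

namespace Pool.Agent.Lib.MP_343319_al

open Nat

lemma pp_fact {p a t : ℕ} (hp : p.Prime) (ht : 1 ≤ t) (h : p ^ a ∣ t !) : p ^ a ≤ 2 ^ (t - 1) := by
  haveI := Fact.mk hp
  have h1 := sub_one_mul_padicValNat_factorial (p := p) t
  have h2 : a ≤ padicValNat p t ! := (padicValNat_dvd_iff_le (Nat.factorial_ne_zero t)).1 h
  have h3 : 1 ≤ (p.digits t).sum := by
    have hne : p.digits t ≠ [] := Nat.digits_ne_nil_iff_ne_zero.2 (by omega)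
    have := Nat.getLast_digit_ne_zero p (show t ≠ 0 by omega)
    have h4 := List.single_le_sum (l := p.digits t) (fun _ _ => Nat.zero_le _) _
      (List.getLast_mem hne)
    omega
  have h4 : (p - 1) * a ≤ t - 1 := by
    have := Nat.mul_le_mul_left (p - 1) h2
    omega
  have h5 : p ≤ 2 ^ (p - 1) := by
    have := Nat.lt_two_pow_self (n := p - 1)
    have := hp.pos
    omega
  calc p ^ a ≤ (2 ^ (p - 1)) ^ a := Nat.pow_le_pow_left h5 a
    _ = 2 ^ ((p - 1) * a) := by rw [← pow_mul]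
    _ ≤ _ := Nat.pow_le_pow_right (by norm_num) h4

lemma pp_split {p a u v : ℕ} (hp : p.Prime) (h : p ^ a ∣ u * v) :
    ∃ i j, i + j = a ∧ p ^ i ∣ u ∧ p ^ j ∣ v := by
  obtain ⟨d1, d2, h1, h2, h3⟩ := (Nat.dvd_mul).1 h
  obtain ⟨i, hi, rfl⟩ := (Nat.dvd_prime_pow hp).1 (Dvd.intro _ h3)
  obtain ⟨j, hj, rfl⟩ := (Nat.dvd_prime_pow hp).1 (Dvd.intro_left _ h3)
  refine ⟨i, j, ?_, h1, h2⟩
  rw [← pow_add] at h3
  exact Nat.pow_right_injective hp.two_le h3

lemma pp_desc {p a n t : ℕ} (hp : p.Prime) (ht : 1 ≤ t) (htn : t ≤ n)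
    (h : p ^ a ∣ n.descFactorial t) : p ^ a ≤ n * 2 ^ (t - 1) := by
  rw [Nat.descFactorial_eq_factorial_mul_choose] at h
  obtain ⟨i, j, rfl, h1, h2⟩ := pp_split hp h
  have h3 := pp_fact hp ht h1
  have h4 : p ^ j ≤ n := by
    have hc : n.choose t ≠ 0 := (Nat.choose_pos htn).ne'
    have := (hp.pow_dvd_iff_le_factorization hc).1 h2
    exact (Nat.pow_le_pow_right hp.pos this).trans (Nat.pow_factorization_choose_le (by omega))
  rw [pow_add, mul_comm]
  exact Nat.mul_le_mul h4 h3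

lemma pp_three {p a k : ℕ} (hp : p.Prime) (hk : 1 ≤ k) (h : p ^ a ∣ k * ((k + 1) * (k + 2))) :
    p ^ a ≤ 2 * (k + 2) ∧ (p ≠ 2 → p ^ a ≤ k + 2) := by
  have hc : Nat.Coprime (k + 1) (k * (k + 2)) := by
    apply Nat.Coprime.mul_right
    · simp
    · have : Nat.Coprime (k + 1) (k + 1 + 1) := by simp
      exact this
  have h' : p ^ a ∣ (k + 1) * (k * (k + 2)) := by
    have : (k + 1) * (k * (k + 2)) = k * ((k + 1) * (k + 2)) := by ring
    rwa [this]
  rcases Nat.eq_zero_or_pos a with rfl | ha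
  · simp; omega
  rcases (Nat.Coprime.isPrimePow_dvd_mul hc (hp.isPrimePow.pow (by omega))).1 h' with h1 | h1
  · have := Nat.le_of_dvd (by omega) h1
    omega
  · obtain ⟨i, j, rfl, h2, h3⟩ := pp_split hp h1
    have key : ∀ i, p ^ i ∣ k → p ^ i ∣ k + 2 → p ^ i ≤ 2 ∧ (p ≠ 2 → p ^ i = 1) := by
      intro i h2 h3
      have h4 : p ^ i ∣ 2 := (Nat.dvd_add_right h2).1 h3
      refine ⟨Nat.le_of_dvd (by norm_num) h4, fun hp2 => ?_⟩
      rcases i with _ | i
      · rfl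
      · exact absurd ((Nat.prime_dvd_prime_iff_eq hp Nat.prime_two).1
          ((dvd_pow_self p (by omega)).trans h4)) hp2
    have l2 := Nat.le_of_dvd (by omega) h2
    have l3 := Nat.le_of_dvd (by omega) h3
    rw [pow_add]
    rcases le_total i j with hij | hij
    · obtain ⟨k1, k2⟩ := key i h2 ((pow_dvd_pow p hij).trans h3)
      exact ⟨Nat.mul_le_mul k1 l3, fun hp2 => by rw [k2 hp2]; omega⟩
    · obtain ⟨k1, k2⟩ := key j ((pow_dvd_pow p hij).trans h2) h3
      exact ⟨by have := Nat.mul_le_mul l2 k1; omega, fun hp2 => by rw [k2 hp2]; omega⟩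

lemma desc_ge (k a : ℕ) (h : k + 5 ≤ a) : 42 * 8 ^ k ≤ 64 * a.descFactorial k := by
  induction k generalizing a with
  | zero => simp
  | succ k ih =>
    obtain ⟨b, rfl⟩ : ∃ b, a = b + 1 := ⟨a - 1, by omega⟩
    rw [Nat.succ_descFactorial_succ]
    by_cases h8 : 8 ≤ b + 1
    · have := ih b (by omega)
      rw [pow_succ]; nlinarith
    · have h1 : b ≤ 6 := by omega
      have h2 : k ≤ 1 := by omega
      interval_cases k <;> interval_cases b <;> simp_all [Nat.descFactorial]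

lemma desc3 (k : ℕ) : (k + 2).descFactorial 3 = k * ((k + 1) * (k + 2)) := by
  simp [Nat.descFactorial]

lemma desc_big5 {n t : ℕ} (hn : 90 ≤ n) (ht : 5 ≤ t) (h : t + 5 ≤ n) :
    n ^ 3 * 8 ^ (t - 1) < n.descFactorial t := by
  obtain ⟨a, rfl⟩ : ∃ a, n = a + 5 := ⟨n - 5, by omega⟩
  obtain ⟨k, rfl⟩ : ∃ k, t = k + 5 := ⟨t - 5, by omega⟩
  have h1 := desc_ge k a (by omega)
  have e : (a + 5).descFactorial (k + 5) =
      (a + 5) * ((a + 4) * ((a + 3) * ((a + 2) * ((a + 1) * a.descFactorial k)))) := by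
    simp only [← Nat.succ_descFactorial_succ]
  rw [e]
  have e2 : 8 ^ (k + 5 - 1) = 4096 * 8 ^ k := by
    rw [show k + 5 - 1 = k + 4 by omega, pow_add]; ring
  rw [e2]
  have h2 : 64 * 4096 * (a + 5) ^ 2 < 42 * ((a + 4) * (a + 3) * (a + 2) * (a + 1)) := by
    obtain ⟨w, rfl⟩ : ∃ w, a = w + 85 := ⟨a - 85, by omega⟩
    ring_nf
    nlinarith [Nat.zero_le w, Nat.zero_le (w ^ 2), Nat.zero_le (w ^ 3), Nat.zero_le (w ^ 4)]
  have h3 : 0 < 8 ^ k := by positivity
  generalize a.descFactorial k = D at *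
  generalize 8 ^ k = E at *
  have h4 : 64 * 4096 * (a + 5) ^ 2 * E < 42 * ((a + 4) * (a + 3) * (a + 2) * (a + 1)) * E :=
    Nat.mul_lt_mul_of_pos_right h2 h3
  have h5 : ((a + 4) * (a + 3) * (a + 2) * (a + 1)) * (42 * E) ≤
      ((a + 4) * (a + 3) * (a + 2) * (a + 1)) * (64 * D) := Nat.mul_le_mul_left _ h1
  have h6 : 4096 * (a + 5) ^ 2 * E < ((a + 4) * (a + 3) * (a + 2) * (a + 1)) * D := by
    nlinarith
  calc (a + 5) ^ 3 * (4096 * E) = (a + 5) * (4096 * (a + 5) ^ 2 * E) := by ring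
    _ < (a + 5) * (((a + 4) * (a + 3) * (a + 2) * (a + 1)) * D) :=
        Nat.mul_lt_mul_of_pos_left h6 (by omega)
    _ = _ := by ring

lemma desc_big4 {n : ℕ} (hn : 530 ≤ n) : n ^ 3 * 8 ^ (4 - 1) < n.descFactorial 4 := by
  obtain ⟨w, rfl⟩ : ∃ w, n = w + 530 := ⟨n - 530, by omega⟩
  simp only [Nat.descFactorial, Nat.sub_zero, show w + 530 - 1 = w + 529 by omega,
    show w + 530 - 2 = w + 528 by omega, show w + 530 - 3 = w + 527 by omega]
  ring_nf
  nlinarith [Nat.zero_le w, Nat.zero_le (w ^ 2), Nat.zero_le (w ^ 3), Nat.zero_le (w ^ 4)]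

lemma Lie.two_le {x : ℕ} (h : Lie x) : 2 ≤ x := by
  obtain ⟨t, n, p, f, hv, rfl⟩ := h
  exact hv.hp.two_le.trans (Nat.le_of_dvd (ord_pos hv.two_le hv.hS) hv.dvd)

lemma lie_desc_le {n t : ℕ} (ht : 1 ≤ t) (htn : t ≤ n) (h : Lie (n.descFactorial t)) :
    n.descFactorial t ≤ n ^ 3 * 8 ^ (t - 1) := by
  obtain ⟨s, k, p, f, hv, hx⟩ := h
  have h1 := pow_dvd_ord (q := p ^ f) hv.hS
  have h2 := ord_le_cube hv.two_le hv.hS
  rw [← hx] at h1 h2
  rw [← pow_mul p] at h1 h2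
  have h3 := pp_desc hv.hp ht htn h1
  calc _ ≤ _ := h2
    _ ≤ (n * 2 ^ (t - 1)) ^ 3 := Nat.pow_le_pow_left h3 3
    _ = _ := by rw [mul_pow, ← pow_mul, mul_comm (t - 1), pow_mul]; norm_num

lemma ord_A2 (q : ℕ) : ord .A 2 q = q * (q ^ 2 - 1) / Nat.gcd 2 (q - 1) := by
  simp [ord, tN, tR, td, pA]

lemma lie_desc3 {n : ℕ} (hn : 280 ≤ n) (h : Lie (n.descFactorial 3)) :
    ∃ f, 3 ≤ f ∧ n = 2 ^ f + 1 := by
  obtain ⟨s, m, p, f, hv, hx⟩ := h
  obtain ⟨k, rfl⟩ : ∃ k, n = k + 2 := ⟨n - 2, by omega⟩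
  rw [desc3] at hx
  have h1 := pow_dvd_ord (q := p ^ f) hv.hS
  rw [← hx, ← pow_mul] at h1
  obtain ⟨h2, h3⟩ := pp_three hv.hp (by omega) h1
  by_cases hA : s = .A ∧ m = 2
  · obtain ⟨rfl, rfl⟩ := hA
    have h4 := td_mul_ord (q := p ^ f) hv.hS
    have e1 : tR .A 2 (p ^ f) = (p ^ f) ^ 2 - 1 := by simp [tR, pA]
    have e2 : tN .A 2 = 1 := rfl
    rw [← hx, e1, e2, pow_one] at h4
    rw [e2, mul_one] at h2 h3
    have hq := hv.two_le
    obtain ⟨c, hc⟩ : ∃ c, (p ^ f) ^ 2 = c + 1 :=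
      ⟨(p ^ f) ^ 2 - 1, by have : 0 < (p ^ f) ^ 2 := (by positivity); omega⟩
    rw [hc, Nat.add_sub_cancel] at h4
    by_cases hp2 : p = 2
    · subst hp2
      have hf := hv.hf
      have hd : td .A 2 (2 ^ f) = 1 := by
        simp only [td]
        have : 2 ∣ 2 ^ f := dvd_pow_self 2 (by omega)
        apply Nat.Coprime.gcd_eq_one
        rw [Nat.coprime_two_left, Nat.odd_iff]; omega
      rw [hd, one_mul] at h4
      have h5 : 2 ^ f = k + 1 := by
        generalize 2 ^ f = q at *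
        rcases lt_trichotomy q (k + 1) with h | h | h
        · have : q ≤ k := by omega
          have : q ^ 2 ≤ k ^ 2 := Nat.pow_le_pow_left this 2
          nlinarith
        · exact h
        · have : k + 2 ≤ q := by omega
          have : (k + 2) ^ 2 ≤ q ^ 2 := Nat.pow_le_pow_left this 2
          nlinarith
      refine ⟨f, ?_, by omega⟩
      by_contra hcon
      have : 2 ^ f ≤ 2 ^ 2 := Nat.pow_le_pow_right (by norm_num) (by omega)
      omega
    · exfalso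
      have h5 := h3 hp2
      have hd : td .A 2 (p ^ f) = 2 := by
        simp only [td]
        have : Odd (p ^ f) := (hv.hp.odd_of_ne_two hp2).pow
        rw [Nat.odd_iff] at this
        exact Nat.gcd_eq_left (by omega)
      rw [hd] at h4
      generalize p ^ f = q at *
      have : q ^ 2 ≤ (k + 2) ^ 2 := Nat.pow_le_pow_left h5 2
      have : q * c ≤ (k + 2) * (k + 2) ^ 2 := Nat.mul_le_mul h5 (by omega)
      nlinarith
  · exfalso
    have h4 := ord_cube_le hv.two_le hv.hS hA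
    rw [← hx, ← pow_mul p] at h4
    have h5 : (p ^ (f * tN s m)) ^ 8 ≤ (2 * (k + 2)) ^ 8 := Nat.pow_le_pow_left h2 8
    have h6 : (k * k * k) ^ 3 ≤ (k * ((k + 1) * (k + 2))) ^ 3 :=
      Nat.pow_le_pow_left (by nlinarith) 3
    have h7 : (139 * (k + 2)) ^ 8 ≤ (140 * k) ^ 8 := Nat.pow_le_pow_left (by omega) 8
    have h8 : 0 < k ^ 8 := by have : 0 < k := (by omega); positivity
    have h9 : (k * k * k) ^ 3 = k * k ^ 8 := by ring
    rw [mul_pow] at h5 h7
    rw [mul_pow] at h7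
    have h10 : 278 * k ^ 8 ≤ k * k ^ 8 := Nat.mul_le_mul_right _ (by omega)
    generalize k ^ 8 = K at *
    generalize (k + 2) ^ 8 = L at *
    norm_num at h5 h7
    omega

lemma prime_dvd_desc {p n t : ℕ} (hp : p.Prime) (ht : t ≤ n) (h : p ∣ n.descFactorial t) :
    p ≤ n := by
  refine (hp.dvd_factorial).1 (h.trans ?_)
  rw [← Nat.factorial_mul_descFactorial ht]
  exact Dvd.intro_left _ rfl

lemma lie_desc {n t : ℕ} (ht : 2 ≤ t) (htn : t + 5 ≤ n) (h : Lie (n.descFactorial t)) :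
    t = 3 ∧ ∃ f, 3 ≤ f ∧ n = 2 ^ f + 1 := by
  by_cases h2 : t = 2
  · subst h2
    obtain ⟨m, rfl⟩ : ∃ m, n = m + 1 := ⟨n - 1, by omega⟩
    exact absurd (by simp [Nat.descFactorial, mul_comm]) (lie_not_pronic (m := m) h)
  have hle := lie_desc_le (by omega) (by omega) h
  by_cases h5 : 90 ≤ n ∧ 5 ≤ t
  · have := desc_big5 h5.1 h5.2 htn
    omega
  by_cases hn : n < 530
  · have h1 := List.all_eq_true.1 (chk1_all hn) t (by
      rw [List.mem_range]; split_ifs <;> omega)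
    simp only [force_eq, Bool.or_eq_true, decide_eq_true_eq, Bool.and_eq_true, beq_iff_eq,
      List.contains_iff_mem] at h1
    rcases h1 with ((h1 | h1) | ⟨h1, h3⟩) | h1 | h1
    · omega
    · omega
    · refine ⟨h1, ?_⟩
      simp only [List.mem_cons, List.not_mem_nil, or_false] at h3
      rcases h3 with rfl | rfl | rfl | rfl | rfl | rfl | rfl
      exacts [⟨3, by norm_num⟩, ⟨4, by norm_num⟩, ⟨5, by norm_num⟩, ⟨6, by norm_num⟩,
        ⟨7, by norm_num⟩, ⟨8, by norm_num⟩, ⟨9, by norm_num⟩]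
    · omega
    · exact absurd h (notLie_sound h1 fun p hp hd =>
        mem_primesL hp (by have := prime_dvd_desc hp (by omega) hd; omega))
  · by_cases h4 : t = 4
    · subst h4
      have := desc_big4 (n := n) (by omega)
      omega
    · have h3 : t = 3 := by omega
      subst h3
      exact ⟨rfl, lie_desc3 (by omega) h⟩

def Listed (n x y : ℕ) : Prop :=
  (x = (n - 1)! / 2 ∧ y = n) ∨
  (∃ f, 3 ≤ f ∧ n = 2 ^ f + 1 ∧ x = (2 ^ f - 2)! / 2 ∧ y = 2 ^ f * (4 ^ f - 1)) ∨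
  (n = 11 ∧ x = 7 ! / 2 ∧ y = 7920) ∨ (n = 12 ∧ x = 7 ! / 2 ∧ y = 95040) ∨
  (n = 22 ∧ x = 18 ! / 2 ∧ y = 175560) ∨ (n = 57 ∧ x = 54 ! / 2 ∧ y = 175560) ∨
  (∃ k m, 5 ≤ k ∧ k ≤ m ∧ m + 2 ≤ n ∧ x = m ! / 2 ∧ y = k ! / 2 ∧ m ! * k ! = 2 * n !)

lemma spor_ge : ∀ c ∈ sporadicOrders, 2 ≤ c := by decide

lemma half_ge {k : ℕ} (hk : 5 ≤ k) : 60 ≤ k ! / 2 := by
  have : 5 ! ≤ k ! := Nat.factorial_le hk
  have e : 5 ! = 120 := rfl
  omega

lemma SimpleOrder.two_le {x : ℕ} (h : SimpleOrder x) : 2 ≤ x := by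
  rcases simpleOrder_cases h with ⟨k, hk, rfl⟩ | h | h
  · have := half_ge hk; omega
  · exact h.two_le
  · exact spor_ge _ h

lemma quot_desc {m n y : ℕ} (hm : 5 ≤ m) (hn : 5 ≤ n) (hy : 2 ≤ y) (h : m ! / 2 * y = n ! / 2) :
    m < n ∧ y = n.descFactorial (n - m) := by
  have h1 := two_mul_half (show 2 ≤ m by omega)
  have h2 := two_mul_half (show 2 ≤ n by omega)
  have h3 : m ! * y = n ! := by rw [← h1, ← h2, ← h]; ring
  have h4 : m < n := by
    by_contra hc
    have := Nat.factorial_le (show n ≤ m by omega)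
    have := Nat.factorial_pos m
    nlinarith
  refine ⟨h4, ?_⟩
  have h5 := Nat.factorial_mul_descFactorial (show n - m ≤ n by omega)
  rw [show n - (n - m) = m by omega, ← h3] at h5
  exact (Nat.eq_of_mul_eq_mul_left (Nat.factorial_pos m) h5).symm

lemma alt_case {m n y : ℕ} (hm : 5 ≤ m) (hn : 5 ≤ n) (hy : SimpleOrder y)
    (h : m ! / 2 * y = n ! / 2) : Listed n (m ! / 2) y ∨ Listed n y (m ! / 2) := by
  obtain ⟨h1, h2⟩ := quot_desc hm hn hy.two_le h
  by_cases ht : m + 1 = n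
  · subst ht
    exact Or.inl (Or.inl ⟨rfl, by simpa using h2⟩)
  rcases simpleOrder_cases hy with ⟨k, hk, rfl⟩ | hl | hs
  · have a1 := two_mul_half (show 2 ≤ m by omega)
    have a2 := two_mul_half (show 2 ≤ n by omega)
    have a3 := two_mul_half (show 2 ≤ k by omega)
    have a4 : m ! * k ! = 2 * n ! := by rw [← a1, ← a2, ← a3, ← h]; ring
    by_cases hkm : k ≤ m
    · exact Or.inl (Or.inr (Or.inr (Or.inr (Or.inr (Or.inr (Or.inr
        ⟨k, m, hk, hkm, by omega, rfl, rfl, a4⟩))))))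
    · obtain ⟨h3, h4⟩ := quot_desc hk hn (y := m ! / 2) (by have := half_ge hm; omega)
        (by rw [mul_comm]; exact h)
      by_cases ht' : k + 1 = n
      · subst ht'
        exact Or.inr (Or.inl ⟨rfl, by simpa using h4⟩)
      · exact Or.inr (Or.inr (Or.inr (Or.inr (Or.inr (Or.inr (Or.inr
          ⟨m, k, hm, by omega, by omega, rfl, rfl, by rw [mul_comm]; exact a4⟩))))))
  · rw [h2] at hl
    obtain ⟨h3, f, hf, h4⟩ := lie_desc (by omega) (by omega) hl
    refine Or.inl (Or.inr (Or.inl ⟨f, hf, h4, by congr 2; omega, ?_⟩))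
    rw [h2, h3]
    obtain ⟨k, hk⟩ : ∃ k, 2 ^ f = k + 1 := ⟨2 ^ f - 1, by omega⟩
    have e4 : 4 ^ f = (k + 1) ^ 2 := by rw [← hk, ← pow_mul, mul_comm, pow_mul]; norm_num
    rw [h4, hk, desc3, e4]
    have : (k + 1) ^ 2 - 1 = k * (k + 2) := by
      apply Nat.sub_eq_of_eq_add; ring
    rw [this]; ring
  · have h3 := chk4_sound (List.all_eq_true.1 chk4_all y hs) (n := n) (t := n - m) (by omega)
      (by omega) h2
    simp only [listedS, List.contains_iff_mem, List.mem_cons, Prod.mk.injEq, List.not_mem_nil,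
      or_false] at h3
    left
    rcases h3 with ⟨a, b, c⟩ | ⟨a, b, c⟩ | ⟨a, b, c⟩ | ⟨a, b, c⟩
    · exact Or.inr (Or.inr (Or.inl ⟨a, by congr 2; omega, c⟩))
    · exact Or.inr (Or.inr (Or.inr (Or.inl ⟨a, by congr 2; omega, c⟩)))
    · exact Or.inr (Or.inr (Or.inr (Or.inr (Or.inl ⟨a, by congr 2; omega, c⟩))))
    · exact Or.inr (Or.inr (Or.inr (Or.inr (Or.inr (Or.inl ⟨a, by congr 2; omega, c⟩)))))

lemma fact_big {n : ℕ} (hn : 171 ≤ n) : 2 * 64 ^ (n - 1) + 1 < n ! := by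
  induction n, hn using Nat.le_induction with
  | base => decide +kernel
  | succ n hn ih =>
    obtain ⟨k, rfl⟩ : ∃ k, n = k + 1 := ⟨n - 1, by omega⟩
    simp only [Nat.add_sub_cancel] at ih ⊢
    rw [Nat.factorial_succ, pow_succ]
    nlinarith

lemma testX_sound {x y n : ℕ} (h : testX x = true) (hn : 5 ≤ n) (hn2 : n ≤ 170)
    (hxy : x * y = n ! / 2) (hle : y ≤ x) (hy : Lie y ∨ y ∈ sporadicOrders) (hx : 0 < x) :
    n = 9 ∧ x = 504 := by
  simp only [testX, force_eq] at h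
  have h1 := loopF_sound 200 5 (by norm_num) h n hn (Dvd.intro _ hxy)
    (by rw [← hxy]; exact Nat.mul_le_mul_left _ hle)
  rw [← hxy, Nat.mul_div_cancel_left _ hx] at h1
  simp only [Bool.or_eq_true, Bool.and_eq_true, beq_iff_eq, Bool.not_eq_true',
    List.contains_eq_mem, decide_eq_false_iff_not] at h1
  rcases h1 with h1 | ⟨h1, h2⟩
  · exact h1
  · exfalso
    rcases hy with hy | hy
    · refine notLie_sound h2 (fun p hp hd => mem_primesTo hp ?_ (by norm_num)) hy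
      have : p ∣ n ! := by
        rw [← two_mul_half (show 2 ≤ n by omega), ← hxy]
        exact Dvd.dvd.mul_left (Dvd.dvd.mul_left hd _) _
      have := (hp.dvd_factorial).1 this
      omega
    · exact h1 hy

lemma spor_sq : ∀ c ∈ sporadicOrders, c * c < 170 ! / 2 := by decide +kernel

lemma nonalt_case {x y n : ℕ} (hn : 5 ≤ n) (hx : Lie x ∨ x ∈ sporadicOrders)
    (hy : Lie y ∨ y ∈ sporadicOrders) (hle : y ≤ x) (h : x * y = n ! / 2) :
    Listed n y x := by
  have hsq : n ! / 2 ≤ x * x := by rw [← h]; exact Nat.mul_le_mul_left _ hle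
  have hxn : x ∣ n ! := by
    rw [← two_mul_half (show 2 ≤ n by omega), ← h]
    exact Dvd.dvd.mul_left (Dvd.intro _ rfl) _
  have key : n = 9 ∧ x = 504 := by
    rcases hx with hx | hx
    · have hn2 : n ≤ 170 := by
        by_contra hc
        obtain ⟨t, k, p, f, hv, rfl⟩ := hx
        have h1 := (pow_dvd_ord (q := p ^ f) hv.hS).trans hxn
        have h2 := ord_le_cube hv.two_le hv.hS
        rw [← pow_mul p] at h1 h2
        have h3 := pp_fact hv.hp (by omega) h1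
        have h4 := h2.trans (Nat.pow_le_pow_left h3 3)
        have h5 := Nat.mul_le_mul h4 h4
        have h6 : (2 ^ (n - 1)) ^ 3 * (2 ^ (n - 1)) ^ 3 = 64 ^ (n - 1) := by
          rw [← pow_add, ← pow_mul, mul_comm, pow_mul]; norm_num
        have := fact_big (n := n) (by omega)
        omega
      have h1 := allLieDvd_sound chk2_all (Nat.factorial_pos _)
        (fun p hp hd => mem_primesTo hp ((hp.dvd_factorial).1 hd) (by norm_num)) hx
        (hxn.trans (Nat.factorial_dvd_factorial hn2))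
      exact testX_sound h1 hn hn2 h hle hy (by have := hx.two_le; omega)
    · have hn2 : n ≤ 170 := by
        by_contra hc
        have := spor_sq x hx
        have : 170 ! / 2 ≤ n ! / 2 := Nat.div_le_div_right (Nat.factorial_le (by omega))
        omega
      exact testX_sound (List.all_eq_true.1 chk3 x hx) hn hn2 h hle hy
        (by have := spor_ge x hx; omega)
  obtain ⟨rfl, rfl⟩ := key
  have e : 9 ! / 2 = 181440 := rfl
  have : y = 360 := by omega
  exact Or.inr (Or.inl ⟨3, le_rfl, rfl, this, rfl⟩)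

theorem alt_classification {x y n : ℕ} (hx : SimpleOrder x) (hy : SimpleOrder y) (hn : 5 ≤ n)
    (h : x * y = n ! / 2) : Listed n x y ∨ Listed n y x := by
  rcases simpleOrder_cases hx with ⟨m, hm, rfl⟩ | hx'
  · exact alt_case hm hn hy h
  rcases simpleOrder_cases hy with ⟨m, hm, rfl⟩ | hy'
  · exact (alt_case hm hn hx (by rw [mul_comm]; exact h)).symm
  rcases le_total y x with hle | hle
  · exact Or.inr (nonalt_case hn hx' hy' hle h)
  · exact Or.inl (nonalt_case hn hy' hx' hle (by rw [mul_comm]; exact h))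

lemma Listed.mul {x y n : ℕ} (hn : 5 ≤ n) (h : Listed n x y) : x * y = n ! / 2 := by
  rcases h with ⟨rfl, rfl⟩ | ⟨f, hf, rfl, rfl, rfl⟩ | ⟨rfl, rfl, rfl⟩ | ⟨rfl, rfl, rfl⟩ |
    ⟨rfl, rfl, rfl⟩ | ⟨rfl, rfl, rfl⟩ | ⟨k, m, hk, hkm, hmn, rfl, rfl, h⟩
  · obtain ⟨k, rfl⟩ : ∃ k, y = k + 1 := ⟨y - 1, by omega⟩
    rw [half_succ (by omega)]; rfl
  · have h8 : 2 ^ 3 ≤ 2 ^ f := Nat.pow_le_pow_right (by norm_num) hf
    obtain ⟨k, hk⟩ : ∃ k, 2 ^ f = k + 2 := ⟨2 ^ f - 2, by omega⟩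
    have e4 : 4 ^ f = (k + 2) ^ 2 := by rw [← hk, ← pow_mul, mul_comm, pow_mul]; norm_num
    have : (k + 2) ^ 2 - 1 = (k + 1) * (k + 3) := by
      apply Nat.sub_eq_of_eq_add; ring
    rw [e4, hk, this, Nat.add_sub_cancel, half_succ (by omega), half_succ (by omega),
      half_succ (by omega)]
    ring
  · decide +kernel
  · decide +kernel
  · decide +kernel
  · decide +kernel
  · have a1 := two_mul_half (show 2 ≤ m by omega)
    have a2 := two_mul_half (show 2 ≤ n by omega)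
    have a3 := two_mul_half (show 2 ≤ k by omega)
    rw [← a1, ← a2, ← a3] at h
    have : 4 * (m ! / 2 * (k ! / 2)) = 4 * (n ! / 2) := by linarith
    omega

end Pool.Agent.Lib.MP_343319_al
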