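import Pool.Agent.Lib.MP_343319_al.Defs

namespace Pool.Agent.Lib.MP_343319_al

open Finset

inductive Ty : Type
  | A | U | B | D | E | G2 | F4 | E6 | U6 | E7 | E8 | T4 | Sz | Re | V4
  deriving DecidableEq

def pA (q : ℕ) : ℕ → ℕ
  | 0 => 1
  | k + 1 => pA q k * (q ^ (k + 2) - 1)

def pU (q : ℕ) : ℕ → ℕ
  | 0 => 1
  | k + 1 => pU q k * (if k % 2 = 0 then q ^ (k + 2) - 1 else q ^ (k + 2) + 1)

def pB (q : ℕ) : ℕ → ℕ
  | 0 => 1
  | k + 1 => pB q k * (q ^ (2 * (k + 1)) - 1)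

def tN : Ty → ℕ → ℕ
  | .A, n => n * (n - 1) / 2
  | .U, n => n * (n - 1) / 2
  | .B, n => n * n
  | .D, n => n * (n - 1)
  | .E, n => n * (n - 1)
  | .G2, _ => 6
  | .F4, _ => 24
  | .E6, _ => 36
  | .U6, _ => 36
  | .E7, _ => 63
  | .E8, _ => 120
  | .T4, _ => 12
  | .Sz, _ => 2
  | .Re, _ => 3
  | .V4, _ => 12

def tr : Ty → ℕ → ℕ
  | .A, n => n - 1
  | .U, n => n - 1
  | .B, n => n
  | .D, n => n
  | .E, n => n
  | .G2, _ => 2
  | .F4, _ => 4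
  | .E6, _ => 6
  | .U6, _ => 6
  | .E7, _ => 7
  | .E8, _ => 8
  | .T4, _ => 4
  | .Sz, _ => 1
  | .Re, _ => 1
  | .V4, _ => 2

def tR : Ty → ℕ → ℕ → ℕ
  | .A, n, q => pA q (n - 1)
  | .U, n, q => pU q (n - 1)
  | .B, n, q => pB q n
  | .D, n, q => (q ^ n - 1) * pB q (n - 1)
  | .E, n, q => (q ^ n + 1) * pB q (n - 1)
  | .G2, _, q => (q ^ 2 - 1) * (q ^ 6 - 1)
  | .F4, _, q => (q ^ 2 - 1) * (q ^ 6 - 1) * (q ^ 8 - 1) * (q ^ 12 - 1)
  | .E6, _, q => (q ^ 2 - 1) * (q ^ 5 - 1) * (q ^ 6 - 1) * (q ^ 8 - 1) * (q ^ 9 - 1) * (q ^ 12 - 1)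
  | .U6, _, q => (q ^ 2 - 1) * (q ^ 5 + 1) * (q ^ 6 - 1) * (q ^ 8 - 1) * (q ^ 9 + 1) * (q ^ 12 - 1)
  | .E7, _, q => (q ^ 2 - 1) * (q ^ 6 - 1) * (q ^ 8 - 1) * (q ^ 10 - 1) * (q ^ 12 - 1) *
      (q ^ 14 - 1) * (q ^ 18 - 1)
  | .E8, _, q => (q ^ 2 - 1) * (q ^ 8 - 1) * (q ^ 12 - 1) * (q ^ 14 - 1) * (q ^ 18 - 1) *
      (q ^ 20 - 1) * (q ^ 24 - 1) * (q ^ 30 - 1)
  | .T4, _, q => (q ^ 2 - 1) * (q ^ 6 - 1) * (q ^ 8 + q ^ 4 + 1)
  | .Sz, _, q => (q - 1) * (q ^ 2 + 1)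
  | .Re, _, q => (q - 1) * (q ^ 3 + 1)
  | .V4, _, q => (q - 1) * (q ^ 3 + 1) * (q ^ 4 - 1) * (q ^ 6 + 1)

def td : Ty → ℕ → ℕ → ℕ
  | .A, n, q => Nat.gcd n (q - 1)
  | .U, n, q => Nat.gcd n (q + 1)
  | .B, _, q => Nat.gcd 2 (q - 1)
  | .D, n, q => Nat.gcd 4 (q ^ n - 1)
  | .E, n, q => Nat.gcd 4 (q ^ n + 1)
  | .E6, _, q => Nat.gcd 3 (q - 1)
  | .U6, _, q => Nat.gcd 3 (q + 1)
  | .E7, _, q => Nat.gcd 2 (q - 1)
  | _, _, _ => 1

def vS : Ty → ℕ → Bool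
  | .A, n => decide (2 ≤ n)
  | .U, n => decide (3 ≤ n)
  | .B, n => decide (2 ≤ n)
  | .D, n => decide (4 ≤ n)
  | .E, n => decide (4 ≤ n)
  | _, n => decide (n = 0)

def vQ : Ty → ℕ → ℕ → ℕ → Bool
  | .A, n, p, f => !(decide (n = 2) && decide (p ^ f ≤ 3))
  | .U, n, p, f => !(decide (n = 3) && decide (p ^ f = 2))
  | .B, n, p, f => !(decide (n = 2) && decide (p ^ f = 2))
  | .G2, _, p, f => decide (3 ≤ p ^ f)
  | .Sz, _, p, f => decide (p = 2) && decide (f % 2 = 1) && decide (3 ≤ f)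
  | .Re, _, p, f => decide (p = 3) && decide (f % 2 = 1) && decide (3 ≤ f)
  | .V4, _, p, f => decide (p = 2) && decide (f % 2 = 1) && decide (3 ≤ f)
  | _, _, _, _ => true

def ord (t : Ty) (n q : ℕ) : ℕ := q ^ tN t n * tR t n q / td t n q

structure Val (t : Ty) (n p f : ℕ) : Prop where
  hp : p.Prime
  hf : 1 ≤ f
  hS : vS t n = true
  hQ : vQ t n p f = true

def Lie (x : ℕ) : Prop := ∃ t n p f, Val t n p f ∧ x = ord t n (p ^ f)

lemma pA_eq (q k : ℕ) : ∏ i ∈ Icc 2 (k + 1), (q ^ i - 1) = pA q k := by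
  induction k with
  | zero => simp [pA]
  | succ k ih => rw [Finset.prod_Icc_succ_top (by omega), ih, pA]

lemma pU_eq (q k : ℕ) :
    ∏ i ∈ Icc 2 (k + 1), (if Even i then q ^ i - 1 else q ^ i + 1) = pU q k := by
  induction k with
  | zero => simp [pU]
  | succ k ih =>
    rw [Finset.prod_Icc_succ_top (by omega), ih, pU]
    congr 1
    by_cases h : k % 2 = 0
    · rw [if_pos h, if_pos (by rw [Nat.even_iff]; omega)]
    · rw [if_neg h, if_neg (by rw [Nat.even_iff]; omega)]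

lemma pB_eq (q k : ℕ) : ∏ i ∈ Icc 1 k, (q ^ (2 * i) - 1) = pB q k := by
  induction k with
  | zero => simp [pB]
  | succ k ih => rw [Finset.prod_Icc_succ_top (by omega), ih, pB]

lemma lie_of_order {q x : ℕ} (hq : IsPrimePow q)
    (h : ClassicalOrder q x ∨ ExceptionalOrder q x) : Lie x := by
  obtain ⟨p, f, hp, hf, rfl⟩ := (isPrimePow_nat_iff q).1 hq
  rcases h with (⟨n, h1, h2, rfl⟩ | ⟨n, h1, h2, rfl⟩ | ⟨n, h1, h2, rfl⟩ | ⟨n, h1, rfl⟩ |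
    ⟨n, h1, rfl⟩) | (⟨h1, rfl⟩ | rfl | rfl | rfl | rfl | rfl | rfl | ⟨⟨k, h1, h2⟩, rfl⟩ |
    ⟨⟨k, h1, h2⟩, rfl⟩ | ⟨⟨k, h1, h2⟩, rfl⟩)
  · refine ⟨.A, n, p, f, ⟨hp, hf, by simpa [vS], by simp [vQ]; omega⟩, ?_⟩
    obtain ⟨k, rfl⟩ : ∃ k, n = k + 1 := ⟨n - 1, by omega⟩
    rw [pA_eq]; rfl
  · refine ⟨.U, n, p, f, ⟨hp, hf, by simpa [vS], by simp [vQ]; omega⟩, ?_⟩
    obtain ⟨k, rfl⟩ : ∃ k, n = k + 1 := ⟨n - 1, by omega⟩
    rw [pU_eq]; rfl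
  · refine ⟨.B, n, p, f, ⟨hp, hf, by simpa [vS], by simp [vQ]; omega⟩, ?_⟩
    rw [pB_eq]; rfl
  · refine ⟨.D, n, p, f, ⟨hp, hf, by simpa [vS], rfl⟩, ?_⟩
    rw [pB_eq]; rfl
  · refine ⟨.E, n, p, f, ⟨hp, hf, by simpa [vS], rfl⟩, ?_⟩
    rw [pB_eq]; rfl
  · exact ⟨.G2, 0, p, f, ⟨hp, hf, rfl, by simpa [vQ]⟩, by simp [ord, tN, tR, td]⟩
  · exact ⟨.F4, 0, p, f, ⟨hp, hf, rfl, rfl⟩, by simp [ord, tN, tR, td]⟩
  · exact ⟨.E6, 0, p, f, ⟨hp, hf, rfl, rfl⟩, rfl⟩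
  · exact ⟨.U6, 0, p, f, ⟨hp, hf, rfl, rfl⟩, rfl⟩
  · exact ⟨.E7, 0, p, f, ⟨hp, hf, rfl, rfl⟩, rfl⟩
  · exact ⟨.E8, 0, p, f, ⟨hp, hf, rfl, rfl⟩, by simp [ord, tN, tR, td]⟩
  · exact ⟨.T4, 0, p, f, ⟨hp, hf, rfl, rfl⟩, by simp [ord, tN, tR, td]⟩
  · refine ⟨.Sz, 0, 2, 2 * k + 1, ⟨Nat.prime_two, by omega, rfl, by simp [vQ]; omega⟩, ?_⟩
    rw [h2]; simp [ord, tN, tR, td]
  · refine ⟨.Re, 0, 3, 2 * k + 1, ⟨Nat.prime_three, by omega, rfl, by simp [vQ]; omega⟩, ?_⟩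
    rw [h2]; simp [ord, tN, tR, td]
  · refine ⟨.V4, 0, 2, 2 * k + 1, ⟨Nat.prime_two, by omega, rfl, by simp [vQ]; omega⟩, ?_⟩
    rw [h2]; simp [ord, tN, tR, td]

lemma simpleOrder_cases {x : ℕ} (h : SimpleOrder x) :
    (∃ n, 5 ≤ n ∧ x = n.factorial / 2) ∨ Lie x ∨ x ∈ sporadicOrders := by
  rcases h with h | ⟨q, hq, h⟩ | h
  · exact Or.inl h
  · exact Or.inr (Or.inl (lie_of_order hq h))
  · exact Or.inr (Or.inr h)

/-! ### elementary facts -/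

lemma pow_sub_one_pos {q i : ℕ} (hq : 2 ≤ q) (hi : 1 ≤ i) : 0 < q ^ i - 1 := by
  have : 1 < q ^ i := Nat.one_lt_pow (by omega) (by omega)
  omega

lemma pA_pos {q : ℕ} (hq : 2 ≤ q) (k : ℕ) : 0 < pA q k := by
  induction k with
  | zero => simp [pA]
  | succ k ih => exact Nat.mul_pos ih (pow_sub_one_pos hq (by omega))

lemma pU_pos {q : ℕ} (hq : 2 ≤ q) (k : ℕ) : 0 < pU q k := by
  induction k with
  | zero => simp [pU]
  | succ k ih =>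
    refine Nat.mul_pos ih ?_
    split_ifs
    · exact pow_sub_one_pos hq (by omega)
    · omega

lemma pB_pos {q : ℕ} (hq : 2 ≤ q) (k : ℕ) : 0 < pB q k := by
  induction k with
  | zero => simp [pB]
  | succ k ih => exact Nat.mul_pos ih (pow_sub_one_pos hq (by omega))

lemma tR_pos {q : ℕ} (hq : 2 ≤ q) {t : Ty} {n : ℕ} (h : vS t n = true) : 0 < tR t n q := by
  have h1 : ∀ i, 1 ≤ i → 0 < q ^ i - 1 := fun i hi => pow_sub_one_pos hq hi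
  have h2 := h1 2 (by omega)
  have h4 := h1 4 (by omega)
  have h5 := h1 5 (by omega)
  have h6 := h1 6 (by omega)
  have h8 := h1 8 (by omega)
  have h9 := h1 9 (by omega)
  have h10 := h1 10 (by omega)
  have h12 := h1 12 (by omega)
  have h14 := h1 14 (by omega)
  have h18 := h1 18 (by omega)
  have h20 := h1 20 (by omega)
  have h24 := h1 24 (by omega)
  have h30 := h1 30 (by omega)
  have h0 : 0 < q - 1 := by omega
  cases t <;> simp only [tR, vS, decide_eq_true_eq] at h ⊢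
  · exact pA_pos hq _
  · exact pU_pos hq _
  · exact pB_pos hq _
  · exact Nat.mul_pos (h1 n (by omega)) (pB_pos hq _)
  · exact Nat.mul_pos (by omega) (pB_pos hq _)
  all_goals positivity

lemma sq_dvd_pA (q k : ℕ) : q ^ 2 - 1 ∣ pA q (k + 1) := by
  induction k with
  | zero => simp [pA]
  | succ k ih => exact Dvd.dvd.mul_right ih _

lemma sq_dvd_pU (q k : ℕ) : q ^ 2 - 1 ∣ pU q (k + 1) := by
  induction k with
  | zero => simp [pU]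
  | succ k ih => exact Dvd.dvd.mul_right ih _

lemma sq_dvd_pB (q k : ℕ) : q ^ 2 - 1 ∣ pB q (k + 1) := by
  induction k with
  | zero => simp [pB]
  | succ k ih => exact Dvd.dvd.mul_right ih _

lemma sub_dvd_sq (q : ℕ) : q - 1 ∣ q ^ 2 - 1 := by
  simpa using Nat.sub_dvd_pow_sub_pow q 1 2

lemma add_dvd_sq (q : ℕ) : q + 1 ∣ q ^ 2 - 1 := by
  have := Nat.sq_sub_sq q 1
  rw [one_pow] at this
  rw [this]; exact Dvd.intro _ rfl

lemma td_dvd {q : ℕ} {t : Ty} {n : ℕ} (h : vS t n = true) : td t n q ∣ tR t n q := by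
  cases t <;> simp only [tR, td, vS, decide_eq_true_eq, one_dvd] at h ⊢
  · obtain ⟨k, rfl⟩ : ∃ k, n = k + 2 := ⟨n - 2, by omega⟩
    exact (Nat.gcd_dvd_right _ _).trans ((sub_dvd_sq q).trans (sq_dvd_pA q k))
  · obtain ⟨k, rfl⟩ : ∃ k, n = k + 2 := ⟨n - 2, by omega⟩
    exact (Nat.gcd_dvd_right _ _).trans ((add_dvd_sq q).trans (sq_dvd_pU q k))
  · obtain ⟨k, rfl⟩ : ∃ k, n = k + 1 := ⟨n - 1, by omega⟩
    exact (Nat.gcd_dvd_right _ _).trans ((sub_dvd_sq q).trans (sq_dvd_pB q k))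
  · exact (Nat.gcd_dvd_right _ _).trans (Dvd.intro _ rfl)
  · exact (Nat.gcd_dvd_right _ _).trans (Dvd.intro _ rfl)
  · refine (Nat.gcd_dvd_right _ _).trans ((sub_dvd_sq q).trans ?_)
    simp only [mul_assoc]; exact Dvd.intro _ rfl
  · refine (Nat.gcd_dvd_right _ _).trans ((add_dvd_sq q).trans ?_)
    simp only [mul_assoc]; exact Dvd.intro _ rfl
  · refine (Nat.gcd_dvd_right _ _).trans ((sub_dvd_sq q).trans ?_)
    simp only [mul_assoc]; exact Dvd.intro _ rfl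

lemma td_pos {q : ℕ} {t : Ty} {n : ℕ} (h : vS t n = true) : 0 < td t n q := by
  cases t <;> simp only [td, vS, decide_eq_true_eq] at h ⊢ <;>
    first | exact Nat.gcd_pos_of_pos_left _ (by omega) | omega

lemma ord_eq {q : ℕ} {t : Ty} {n : ℕ} (h : vS t n = true) :
    ord t n q = q ^ tN t n * (tR t n q / td t n q) := by
  rw [ord, Nat.mul_div_assoc _ (td_dvd h)]

lemma td_mul_ord {q : ℕ} {t : Ty} {n : ℕ} (h : vS t n = true) :
    td t n q * ord t n q = q ^ tN t n * tR t n q := by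
  rw [ord_eq h, mul_left_comm, Nat.mul_div_cancel' (td_dvd h)]

lemma pow_dvd_ord {q : ℕ} {t : Ty} {n : ℕ} (h : vS t n = true) : q ^ tN t n ∣ ord t n q := by
  rw [ord_eq h]; exact Dvd.intro _ rfl

lemma ord_pos {q : ℕ} (hq : 2 ≤ q) {t : Ty} {n : ℕ} (h : vS t n = true) : 0 < ord t n q := by
  have h1 := td_mul_ord (q := q) h
  have h2 : 0 < q ^ tN t n * tR t n q := Nat.mul_pos (by positivity) (tR_pos hq h)
  rw [← h1] at h2
  exact Nat.pos_of_mul_pos_left h2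

lemma pair_lt {q a b : ℕ} (hq : 2 ≤ q) (ha : 1 ≤ a) (hab : a ≤ b) :
    (q ^ a - 1) * (q ^ b + 1) < q ^ (a + b) := by
  have h1 : 1 < q ^ a := Nat.one_lt_pow (by omega) (by omega)
  have h2 : q ^ a ≤ q ^ b := Nat.pow_le_pow_right (by omega) hab
  obtain ⟨c, hc⟩ : ∃ c, q ^ a = c + 1 := ⟨q ^ a - 1, by omega⟩
  rw [pow_add]
  rw [hc] at h1 h2 ⊢
  simp only [Nat.add_sub_cancel]
  nlinarith

lemma tri_succ (k : ℕ) : (k + 2) * (k + 1) / 2 = (k + 1) * k / 2 + (k + 1) := by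
  have : (k + 2) * (k + 1) = (k + 1) * k + 2 * (k + 1) := by ring
  rw [this, Nat.add_mul_div_left _ _ (by norm_num)]

lemma pA_le {q : ℕ} (hq : 2 ≤ q) (k : ℕ) : pA q k ≤ q ^ ((k + 1) * k / 2 + k) := by
  induction k with
  | zero => simp [pA]
  | succ k ih =>
    rw [pA, tri_succ]
    calc pA q k * (q ^ (k + 2) - 1) ≤ q ^ ((k + 1) * k / 2 + k) * q ^ (k + 2) :=
          Nat.mul_le_mul ih (Nat.sub_le _ _)
      _ = _ := by rw [← pow_add]; congr 1; ring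

lemma pU_le {q : ℕ} (hq : 2 ≤ q) (k : ℕ) : pU q k ≤ q ^ ((k + 1) * k / 2 + k) := by
  have key : ∀ j, pU q (2 * j) ≤ q ^ ((2 * j + 1) * (2 * j) / 2 + 2 * j) := by
    intro j
    induction j with
    | zero => simp [pU]
    | succ j ih =>
      have e : 2 * (j + 1) = 2 * j + 1 + 1 := by ring
      rw [e, pU, pU, if_pos (by omega), if_neg (by omega), tri_succ, tri_succ, mul_assoc]
      have := pair_lt hq (a := 2 * j + 2) (b := 2 * j + 1 + 2) (by omega) (by omega)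
      calc _ ≤ q ^ ((2 * j + 1) * (2 * j) / 2 + 2 * j) * q ^ (2 * j + 2 + (2 * j + 1 + 2)) :=
            Nat.mul_le_mul ih this.le
        _ = _ := by rw [← pow_add]; congr 1; ring
  rcases Nat.even_or_odd' k with ⟨j, rfl | rfl⟩
  · exact key j
  · rw [pU, if_pos (by omega), tri_succ]
    calc _ ≤ q ^ ((2 * j + 1) * (2 * j) / 2 + 2 * j) * q ^ (2 * j + 2) :=
          Nat.mul_le_mul (key j) (Nat.sub_le _ _)
      _ = _ := by rw [← pow_add]; congr 1; ring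

lemma pB_le {q : ℕ} (hq : 2 ≤ q) (k : ℕ) : pB q k ≤ q ^ (k * k + k) := by
  induction k with
  | zero => simp [pB]
  | succ k ih =>
    rw [pB]
    calc _ ≤ q ^ (k * k + k) * q ^ (2 * (k + 1)) := Nat.mul_le_mul ih (Nat.sub_le _ _)
      _ = _ := by rw [← pow_add]; congr 1; ring

lemma pB_le' {q : ℕ} (hq : 2 ≤ q) (k : ℕ) :
    pB q (k + 1) ≤ (q ^ 2 - 1) * q ^ (k * k + 3 * k) := by
  induction k with
  | zero => simp [pB]
  | succ k ih =>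
    rw [pB]
    calc _ ≤ (q ^ 2 - 1) * q ^ (k * k + 3 * k) * q ^ (2 * (k + 1 + 1)) :=
          Nat.mul_le_mul ih (Nat.sub_le _ _)
      _ = _ := by rw [mul_assoc, ← pow_add]; congr 2; ring

lemma tR_le {q : ℕ} (hq : 2 ≤ q) {t : Ty} {n : ℕ} (h : vS t n = true) :
    tR t n q ≤ q ^ (tN t n + tr t n) := by
  have s : ∀ i, q ^ i - 1 ≤ q ^ i := fun i => Nat.sub_le _ _
  cases t <;> simp only [tR, tN, tr, vS, decide_eq_true_eq] at h ⊢
  · obtain ⟨k, rfl⟩ : ∃ k, n = k + 1 := ⟨n - 1, by omega⟩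
    exact pA_le hq k
  · obtain ⟨k, rfl⟩ : ∃ k, n = k + 1 := ⟨n - 1, by omega⟩
    exact pU_le hq k
  · exact pB_le hq n
  · obtain ⟨k, rfl⟩ : ∃ k, n = k + 1 := ⟨n - 1, by omega⟩
    calc _ ≤ q ^ (k + 1) * q ^ (k * k + k) := Nat.mul_le_mul (s _) (pB_le hq k)
      _ = _ := by rw [← pow_add]; congr 1; simp; ring
  · obtain ⟨k, rfl⟩ : ∃ k, n = k + 2 := ⟨n - 2, by omega⟩
    have := pair_lt hq (a := 2) (b := k + 2) (by omega) (by omega)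
    calc _ ≤ (q ^ (k + 2) + 1) * ((q ^ 2 - 1) * q ^ (k * k + 3 * k)) :=
          Nat.mul_le_mul le_rfl (pB_le' hq k)
      _ = (q ^ 2 - 1) * (q ^ (k + 2) + 1) * q ^ (k * k + 3 * k) := by ring
      _ ≤ q ^ (2 + (k + 2)) * q ^ (k * k + 3 * k) := Nat.mul_le_mul this.le le_rfl
      _ = _ := by
        rw [← pow_add]; congr 1
        have : k + 2 - 1 = k + 1 := by omega
        rw [this]; ring
  · calc _ ≤ q ^ 2 * q ^ 6 := by gcongr <;> exact s _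
      _ = _ := by ring
  · calc _ ≤ q ^ 2 * q ^ 6 * q ^ 8 * q ^ 12 := by gcongr <;> exact s _
      _ = _ := by ring
  · calc _ ≤ q ^ 2 * q ^ 5 * q ^ 6 * q ^ 8 * q ^ 9 * q ^ 12 := by gcongr <;> exact s _
      _ = _ := by ring
  · have h1 := pair_lt hq (a := 2) (b := 5) (by omega) (by omega)
    have h2 := pair_lt hq (a := 8) (b := 9) (by omega) (by omega)
    calc _ = ((q ^ 2 - 1) * (q ^ 5 + 1)) * (q ^ 6 - 1) * ((q ^ 8 - 1) * (q ^ 9 + 1)) *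
          (q ^ 12 - 1) := by ring
      _ ≤ q ^ (2 + 5) * q ^ 6 * q ^ (8 + 9) * q ^ 12 := by gcongr <;> exact s _
      _ = _ := by ring
  · calc _ ≤ q ^ 2 * q ^ 6 * q ^ 8 * q ^ 10 * q ^ 12 * q ^ 14 * q ^ 18 := by gcongr <;> exact s _
      _ = _ := by ring
  · calc _ ≤ q ^ 2 * q ^ 8 * q ^ 12 * q ^ 14 * q ^ 18 * q ^ 20 * q ^ 24 * q ^ 30 := by
          gcongr <;> exact s _
      _ = _ := by ring
  · have h1 : (q ^ 2 - 1) * (q ^ 8 + q ^ 4 + 1) ≤ q ^ 10 := by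
      have h1 : 4 ≤ q ^ 2 := by nlinarith
      obtain ⟨c, hc⟩ : ∃ c, q ^ 2 = c + 1 := ⟨q ^ 2 - 1, by omega⟩
      have e4 : q ^ 4 = (c + 1) ^ 2 := by rw [← hc]; ring
      have e8 : q ^ 8 = (c + 1) ^ 4 := by rw [← hc]; ring
      have e10 : q ^ 10 = (c + 1) ^ 5 := by rw [← hc]; ring
      rw [e4, e8, e10, hc, Nat.add_sub_cancel]
      nlinarith [Nat.zero_le c, Nat.zero_le (c ^ 2), Nat.zero_le (c ^ 3), Nat.zero_le (c ^ 4)]
    calc _ = ((q ^ 2 - 1) * (q ^ 8 + q ^ 4 + 1)) * (q ^ 6 - 1) := by ring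
      _ ≤ q ^ 10 * q ^ 6 := by gcongr; exact s _
      _ = _ := by ring
  · have h1 := pair_lt hq (a := 1) (b := 2) (by omega) (by omega)
    rw [pow_one] at h1; exact h1.le
  · have h1 := pair_lt hq (a := 1) (b := 3) (by omega) (by omega)
    rw [pow_one] at h1; exact h1.le
  · have h1 := pair_lt hq (a := 1) (b := 3) (by omega) (by omega)
    have h2 := pair_lt hq (a := 4) (b := 6) (by omega) (by omega)
    rw [pow_one] at h1
    calc _ = ((q - 1) * (q ^ 3 + 1)) * ((q ^ 4 - 1) * (q ^ 6 + 1)) := by ring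
      _ ≤ q ^ (1 + 3) * q ^ (4 + 6) := by gcongr
      _ = _ := by ring

lemma tri_ge (n : ℕ) : n - 1 ≤ n * (n - 1) / 2 := by
  rcases n with _ | _ | k
  · simp
  · simp
  · have := tri_succ k
    show k + 1 ≤ (k + 2) * (k + 1) / 2
    omega

lemma tr_le_tN {t : Ty} {n : ℕ} (h : vS t n = true) : tr t n ≤ tN t n ∧ 1 ≤ tr t n := by
  have h1 := tri_ge n
  have h2 : 1 ≤ n → n ≤ n * n := fun h => by nlinarith
  have h3 : 2 ≤ n → n ≤ n * (n - 1) := fun h => by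
    obtain ⟨k, rfl⟩ : ∃ k, n = k + 1 := ⟨n - 1, by omega⟩
    simp only [Nat.add_sub_cancel]; nlinarith
  cases t <;> simp only [tN, tr, vS, decide_eq_true_eq] at h ⊢ <;> omega

lemma two_tri (n : ℕ) : 2 * (n * (n - 1) / 2) = n * (n - 1) :=
  Nat.mul_div_cancel' (Nat.even_mul_pred_self n).two_dvd

lemma tr_le_tN' {t : Ty} {n : ℕ} (h : vS t n = true) (h2 : ¬(t = .A ∧ n = 2)) :
    3 * tr t n ≤ 2 * tN t n := by
  have := two_tri n
  cases t <;> simp only [tN, tr, vS, decide_eq_true_eq] at h ⊢ <;> try omega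
  · simp only [true_and] at h2
    rw [this]; exact Nat.mul_le_mul (by omega) le_rfl
  · rw [this]; exact Nat.mul_le_mul (by omega) le_rfl
  · nlinarith
  · obtain ⟨k, rfl⟩ : ∃ k, n = k + 1 := ⟨n - 1, by omega⟩
    simp only [Nat.add_sub_cancel]; nlinarith
  · obtain ⟨k, rfl⟩ : ∃ k, n = k + 1 := ⟨n - 1, by omega⟩
    simp only [Nat.add_sub_cancel]; nlinarith

lemma ord_le {q : ℕ} (hq : 2 ≤ q) {t : Ty} {n : ℕ} (h : vS t n = true) :
    ord t n q ≤ q ^ (2 * tN t n + tr t n) := by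
  calc ord t n q ≤ q ^ tN t n * tR t n q := Nat.div_le_self _ _
    _ ≤ q ^ tN t n * q ^ (tN t n + tr t n) := Nat.mul_le_mul le_rfl (tR_le hq h)
    _ = _ := by rw [← pow_add]; congr 1; ring

lemma ord_le_cube {q : ℕ} (hq : 2 ≤ q) {t : Ty} {n : ℕ} (h : vS t n = true) :
    ord t n q ≤ (q ^ tN t n) ^ 3 := by
  refine (ord_le hq h).trans ?_
  rw [← pow_mul]
  exact Nat.pow_le_pow_right (by omega) (by have := tr_le_tN h; omega)

lemma ord_cube_le {q : ℕ} (hq : 2 ≤ q) {t : Ty} {n : ℕ} (h : vS t n = true)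
    (h2 : ¬(t = .A ∧ n = 2)) : ord t n q ^ 3 ≤ (q ^ tN t n) ^ 8 := by
  refine (Nat.pow_le_pow_left (ord_le hq h) 3).trans ?_
  rw [← pow_mul, ← pow_mul]
  exact Nat.pow_le_pow_right (by omega) (by have := tr_le_tN' h h2; omega)

lemma Val.two_le {t : Ty} {n p f : ℕ} (h : Val t n p f) : 2 ≤ p ^ f :=
  Nat.one_lt_pow (by have := h.hf; omega) h.hp.one_lt

end Pool.Agent.Lib.MP_343319_al
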