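import Pool.Agent.Lib.MP_343319_al.Check

namespace Pool.Agent.Lib.MP_343319_al

open Nat

def chk1 (n : ℕ) : Bool :=
  (List.range (if n < 90 then n else 5)).all fun t => decide (t < 3) || decide (n < t + 5) ||
    (t == 3 && [9, 17, 33, 65, 129, 257, 513].contains n) ||
    force (n.descFactorial t) fun y => decide (n ^ 3 * 8 ^ (t - 1) < y) || notLie primesL y

lemma chk1_a : (List.range' 0 45).all chk1 = true := by decide +kernel
lemma chk1_b : (List.range' 45 45).all chk1 = true := by decide +kernel
lemma chk1_c : (List.range' 90 110).all chk1 = true := by decide +kernel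
lemma chk1_d : (List.range' 200 110).all chk1 = true := by decide +kernel
lemma chk1_e : (List.range' 310 110).all chk1 = true := by decide +kernel
lemma chk1_f : (List.range' 420 110).all chk1 = true := by decide +kernel

lemma chk1_all {n : ℕ} (h : n < 530) : chk1 n = true := by
  by_cases h1 : n < 45
  · exact List.all_eq_true.1 chk1_a n (by rw [List.mem_range'_1]; omega)
  by_cases h2 : n < 90
  · exact List.all_eq_true.1 chk1_b n (by rw [List.mem_range'_1]; omega)
  by_cases h3 : n < 200
  · exact List.all_eq_true.1 chk1_c n (by rw [List.mem_range'_1]; omega)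
  by_cases h4 : n < 310
  · exact List.all_eq_true.1 chk1_d n (by rw [List.mem_range'_1]; omega)
  by_cases h5 : n < 420
  · exact List.all_eq_true.1 chk1_e n (by rw [List.mem_range'_1]; omega)
  · exact List.all_eq_true.1 chk1_f n (by rw [List.mem_range'_1]; omega)

def loopF (x x2 : ℕ) (test : ℕ → ℕ → Bool) : ℕ → ℕ → ℕ → Bool
  | 0, _, _ => false
  | k + 1, n, F => decide (x2 < F) || ((F % x != 0 || force (F / x) (test n)) &&
      force (n + 1) fun n' => force (F * n') fun F' => loopF x x2 test k n' F')

lemma two_mul_half {n : ℕ} (hn : 2 ≤ n) : 2 * (n ! / 2) = n ! :=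
  Nat.mul_div_cancel' (Nat.dvd_factorial (by norm_num) hn)

lemma half_succ {n : ℕ} (hn : 2 ≤ n) : (n + 1)! / 2 = n ! / 2 * (n + 1) := by
  have h1 := two_mul_half hn
  have h2 := two_mul_half (show 2 ≤ n + 1 by omega)
  rw [Nat.factorial_succ] at h2 ⊢
  have : 2 * ((n + 1) * n ! / 2) = 2 * (n ! / 2 * (n + 1)) := by rw [h2, ← mul_assoc, h1]; ring
  omega

lemma loopF_sound {x x2 : ℕ} {test : ℕ → ℕ → Bool} (k n : ℕ) (hn : 2 ≤ n)
    (h : loopF x x2 test k n (n ! / 2) = true) (m : ℕ) (hm : n ≤ m) (h1 : x ∣ m ! / 2)
    (h2 : m ! / 2 ≤ x2) : test m (m ! / 2 / x) = true := by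
  induction k generalizing n with
  | zero => simp [loopF] at h
  | succ k ih =>
    simp only [loopF, force_eq, Bool.or_eq_true, decide_eq_true_eq, Bool.and_eq_true, bne_iff_ne,
      ne_eq] at h
    rcases h with h | ⟨ha, hb⟩
    · have : n ! / 2 ≤ m ! / 2 := Nat.div_le_div_right (Nat.factorial_le hm)
      omega
    · rcases Nat.eq_or_lt_of_le hm with rfl | hlt
      · rcases ha with ha | ha
        · exact absurd (Nat.mod_eq_zero_of_dvd h1) ha
        · exact ha
      · rw [← half_succ hn] at hb
        exact ih (n + 1) (by omega) hb hlt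

def ps170 : List ℕ := primesTo 170

def testX (x : ℕ) : Bool :=
  force (x * x) fun x2 => loopF x x2 (fun n y => (n == 9 && x == 504) ||
    (!sporadicOrders.contains y && notLie ps170 y)) 200 5 60

def chk2 (ps : List ℕ) : Bool := force (170 !) fun Y => allLieDvd ps Y testX

lemma chk2_a : chk2 [2] = true := by decide +kernel
lemma chk2_b : chk2 [3, 5] = true := by decide +kernel
lemma chk2_c : chk2 (ps170.drop 3) = true := by decide +kernel
lemma chk3 : sporadicOrders.all testX = true := by decide +kernel

lemma chk2_all : allLieDvd ps170 (170 !) testX = true := by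
  have e : ps170 = [2] ++ [3, 5] ++ ps170.drop 3 := by decide +kernel
  have a := chk2_a
  have b := chk2_b
  have c := chk2_c
  simp only [chk2, force_eq] at a b c
  unfold allLieDvd at a b c ⊢
  rw [e, List.all_append, List.all_append, a, b, c]
  rfl

def bs (c t : ℕ) : ℕ → ℕ → ℕ → ℕ
  | 0, lo, _ => lo
  | k + 1, lo, hi => if hi ≤ lo + 1 then lo else force ((lo + hi) / 2) fun mid =>
      if mid.descFactorial t ≤ c then bs c t k mid hi else bs c t k lo mid

def listedS (n t c : ℕ) : Bool :=
  [(11, 4, 7920), (12, 5, 95040), (22, 4, 175560), (57, 3, 175560)].contains (n, t, c)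

def chk4 (c : ℕ) : Bool :=
  c % 37 ! != 0 && (List.range 37).all fun t => decide (t < 2) || c % t ! != 0 ||
    force (bs c t 200 (2 ^ (lg c / t)) (2 ^ (lg c / t + 1) + t)) fun s =>
      decide (c < (s + 1).descFactorial t) && (decide (s.descFactorial t < c) ||
        (decide ((s - 1).descFactorial t < c) && (decide (s < t + 5) || listedS s t c)))

lemma chk4_all : sporadicOrders.all chk4 = true := by decide +kernel

lemma chk4_sound {c n t : ℕ} (h : chk4 c = true) (ht : 2 ≤ t) (hn : t + 5 ≤ n)
    (hc : c = n.descFactorial t) : listedS n t c = true := by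
  simp only [chk4, Bool.and_eq_true, bne_iff_ne, ne_eq, List.all_eq_true, List.mem_range,
    Bool.or_eq_true, decide_eq_true_eq, force_eq] at h
  have hd : t ! ∣ c := hc ▸ Nat.factorial_dvd_descFactorial n t
  have ht37 : t < 37 := by
    by_contra hcon
    exact h.1 (Nat.mod_eq_zero_of_dvd ((Nat.factorial_dvd_factorial (by omega)).trans hd))
  rcases h.2 t ht37 with (h1 | h1) | h1
  · omega
  · exact absurd (Nat.mod_eq_zero_of_dvd hd) h1
  · generalize bs c t 200 (2 ^ (lg c / t)) (2 ^ (lg c / t + 1) + t) = s at h1
    obtain ⟨h2, h3⟩ := h1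
    have h4 : n ≤ s := by
      by_contra hcon
      have := Nat.descFactorial_le t (show s + 1 ≤ n by omega)
      omega
    rcases h3 with h3 | ⟨h3, h5⟩
    · have := Nat.descFactorial_le t h4
      omega
    · have h6 : n = s := by
        by_contra hcon
        have := Nat.descFactorial_le t (show n ≤ s - 1 by omega)
        omega
      subst h6
      rcases h5 with h5 | h5
      · omega
      · exact h5

end Pool.Agent.Lib.MP_343319_al
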