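import Pool.Agent.Lib.MP_343319_al.Neg

namespace Pool.Agent.Lib.MP_343319_al

def half (k : ℕ) : ℕ := if k % 2 = 0 then k / 2 else k

def hdL (t : Ty) (n : ℕ) : List ℕ := (facs t n).map fun s => half (top s)

lemma half_pos {k : ℕ} (h : 1 ≤ k) : 1 ≤ half k := by
  simp only [half]; split_ifs <;> omega

lemma half_dvd (k : ℕ) : half k ∣ k := by
  simp only [half]; split_ifs with h
  · exact Nat.div_dvd_of_dvd (Nat.dvd_of_mod_eq_zero h)
  · exact dvd_rfl

lemma half_two_mul (k : ℕ) : half (2 * k) = k := by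
  simp only [half]; rw [if_pos (by omega)]; omega

lemma dvd_two_half (k : ℕ) : k ∣ 2 * half k := by
  simp only [half]; split_ifs with h
  · rw [Nat.mul_div_cancel' (Nat.dvd_of_mod_eq_zero h)]
  · exact Dvd.intro_left _ rfl

lemma pow_sub_dvd (q : ℕ) {a b : ℕ} (h : a ∣ b) : q ^ a - 1 ∣ q ^ b - 1 := by
  obtain ⟨c, rfl⟩ := h
  rw [pow_mul]; exact sub_dvd_pow _ _

lemma hdL_pos {t : Ty} {n : ℕ} (h : vS t n = true) : ∀ k ∈ hdL t n, 1 ≤ k := by
  intro k hk
  obtain ⟨s, hs, rfl⟩ := List.mem_map.1 hk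
  exact half_pos (top_pos (facs_prop h hs).1)

lemma tR_dvd_PP {r : ℕ} (hr : 1 ≤ r) {t : Ty} {n : ℕ} (h : vS t n = true) :
    tR t n r ∣ PP (r ^ 2) (hdL t n) := by
  rw [tR_facs, hdL]
  have : ∀ L : List (ℕ × ℕ), (∀ s ∈ L, s.2 ≤ 2) →
      (L.map (ev r)).prod ∣ PP (r ^ 2) (L.map fun s => half (top s)) := by
    intro L hL
    induction L with
    | nil => simp
    | cons s L ih =>
      rw [List.map_cons, List.prod_cons, List.map_cons, PP_cons]
      refine Nat.mul_dvd_mul ?_ (ih fun u hu => hL u (by simp [hu]))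
      rw [← pow_mul]
      exact (ev_dvd hr (hL s (by simp))).trans (pow_sub_dvd _ (dvd_two_half _))
  exact this _ fun s hs => (facs_prop h hs).2.1

lemma pow_dvd_or {p i u v : ℕ} (hp : p.Prime) (h : p ^ i ∣ u * v) (hn : ¬(p ∣ u ∧ p ∣ v)) :
    p ^ i ∣ u ∨ p ^ i ∣ v := by
  by_cases hu : p ∣ u
  · have hv : ¬p ∣ v := fun hv => hn ⟨hu, hv⟩
    exact Or.inl (Nat.Coprime.dvd_of_dvd_mul_right
      (Nat.Coprime.pow_left _ ((Nat.Prime.coprime_iff_not_dvd hp).2 hv)) h)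
  · exact Or.inr (Nat.Coprime.dvd_of_dvd_mul_left
      (Nat.Coprime.pow_left _ ((Nat.Prime.coprime_iff_not_dvd hp).2 hu)) h)

lemma sq_sub_one (x : ℕ) : x ^ 2 - 1 = (x + 1) * (x - 1) := by
  have := Nat.sq_sub_sq x 1
  rwa [one_pow] at this

lemma odd_pow_dvd_sq {p i x : ℕ} (hp : p.Prime) (h2 : p ≠ 2) (hx : 1 ≤ x) (h : p ^ i ∣ x ^ 2 - 1) :
    p ^ i ∣ x + 1 ∨ p ^ i ∣ x - 1 := by
  rw [sq_sub_one] at h
  refine pow_dvd_or hp h fun ⟨a, b⟩ => h2 ?_
  have : p ∣ x + 1 - (x - 1) := Nat.dvd_sub a b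
  rw [show x + 1 - (x - 1) = 2 by omega] at this
  exact (Nat.prime_dvd_prime_iff_eq hp Nat.prime_two).1 this

lemma two_pow_dvd_sq {i x : ℕ} (hx : 1 ≤ x) (h : 2 ^ (i + 1) ∣ x ^ 2 - 1) :
    2 ^ i ∣ x + 1 ∨ 2 ^ i ∣ x - 1 := by
  rw [sq_sub_one] at h
  obtain ⟨a, b, hab, h1, h2⟩ := pp_split Nat.prime_two h
  by_cases ha : a ≤ 1
  · exact Or.inr ((pow_dvd_pow 2 (by omega)).trans h2)
  · by_cases hb : b ≤ 1
    · exact Or.inl ((pow_dvd_pow 2 (by omega)).trans h1)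
    · exfalso
      have h3 : 2 ^ 2 ∣ x + 1 := (pow_dvd_pow 2 (by omega)).trans h1
      have h4 : 2 ^ 2 ∣ x - 1 := (pow_dvd_pow 2 (by omega)).trans h2
      omega

def zb (p2 : Bool) (e r : ℕ) : ℕ :=
  if p2 then 2 * (r + 1) else if e = 3 then r * r + r + 1 else r ^ e + 1

def zw (p2 : Bool) (e : ℕ) : ℕ := if p2 then 1 else if e = 3 then 2 else e

lemma zb_bound {p r e v : ℕ} (hr : 2 ≤ r) (he : 1 ≤ e) (hP : IsPP (r ^ 2) e p)
    (h : p ^ v ∣ (r ^ 2) ^ e - 1) : p ^ v ≤ zb (p == 2) e r := by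
  have hp := hP.1
  have h1 : 1 < r ^ e := Nat.one_lt_pow (by omega) (by omega)
  by_cases h2 : p = 2
  · subst h2
    have := hP.lt (Nat.one_le_pow _ _ (by omega)) he
    obtain rfl : e = 1 := by omega
    simp only [zb, beq_self_eq_true, if_true]
    rw [pow_one] at h
    rcases v with _ | v
    · simp; omega
    · rw [pow_succ]
      rcases two_pow_dvd_sq (by omega) h with h3 | h3 <;>
        have := Nat.le_of_dvd (by omega) h3 <;> omega
  · have hb : (p == 2) = false := by simpa using h2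
    simp only [zb, hb, Bool.false_eq_true, if_false]
    rw [← pow_mul, mul_comm, pow_mul] at h
    split_ifs with h3
    · subst h3
      have h4 : ¬p ∣ r ^ 2 - 1 := fun hd => by
        have := (hP.2 1).1 (by rwa [pow_one])
        omega
      rw [sq_sub_one] at h4
      obtain ⟨c, rfl⟩ : ∃ c, r = c + 1 := ⟨r - 1, by omega⟩
      rcases odd_pow_dvd_sq hp h2 (by omega) h with h5 | h5
      · have e1 : (c + 1) ^ 3 + 1 = (c + 1 + 1) * (c * c + c + 1) := by ring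
        rw [e1] at h5
        have := Nat.le_of_dvd (by omega) (Nat.Coprime.dvd_of_dvd_mul_left
          (Nat.Coprime.pow_left _ ((Nat.Prime.coprime_iff_not_dvd hp).2
            fun hd => h4 (Dvd.dvd.mul_right hd _))) h5)
        nlinarith
      · have e1 : (c + 1) ^ 3 - 1 = (c + 1 - 1) * ((c + 1) * (c + 1) + (c + 1) + 1) := by
          have : (c + 1) ^ 3 = c * ((c + 1) * (c + 1) + (c + 1) + 1) + 1 := by ring
          simp only [Nat.add_sub_cancel]; omega
        rw [e1] at h5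
        exact Nat.le_of_dvd (by omega) (Nat.Coprime.dvd_of_dvd_mul_left
          (Nat.Coprime.pow_left _ ((Nat.Prime.coprime_iff_not_dvd hp).2
            fun hd => h4 (Dvd.dvd.mul_left hd _))) h5)
    · rcases odd_pow_dvd_sq hp h2 (by omega) h with h5 | h5 <;>
        have := Nat.le_of_dvd (by omega) h5 <;> omega

lemma cross_core {p r i : ℕ} (hp : p.Prime) (hr : 2 ≤ r) (hpr : ¬p ∣ r) {t : Ty} {n : ℕ}
    (hS : vS t n = true) (h : p ^ i ∣ tR t n r) :
    ∃ e j, 1 ≤ e ∧ (p = 2 → e = 1) ∧ p ^ j ∣ pr e (hdL t n) ∧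
      p ^ i ≤ zb (p == 2) e r ^ cnt e (hdL t n) * p ^ j := by
  haveI := Fact.mk hp
  have hr2 : 2 ≤ r ^ 2 := by nlinarith
  obtain ⟨e, he, hP⟩ := exists_PP (Q := r ^ 2) hp (by omega) fun hd => hpr (hp.dvd_of_dvd_pow hd)
  have h1 := hP.val_PP hr2 he (by
    by_cases h2 : p = 2
    · subst h2
      exact Or.inr ((show 4 ∣ 8 by norm_num).trans (Nat.eight_dvd_sq_sub_one_of_odd (by
        rwa [← Nat.not_even_iff_odd, even_iff_two_dvd])))
    · exact Or.inl h2) (hdL_pos hS)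
  have h2 : i ≤ padicValNat p (PP (r ^ 2) (hdL t n)) :=
    (padicValNat_dvd_iff_le (PP_pos hr2 (hdL_pos hS)).ne').1 (h.trans (tR_dvd_PP (by omega) hS))
  refine ⟨e, padicValNat p (pr e (hdL t n)), he, fun h2 => ?_, pow_padicValNat_dvd, ?_⟩
  · have := hP.lt (by omega) he
    omega
  · have h3 := zb_bound hr he hP (pow_padicValNat_dvd (p := p) (n := (r ^ 2) ^ e - 1))
    calc p ^ i ≤ p ^ (cnt e (hdL t n) * padicValNat p ((r ^ 2) ^ e - 1) +
          padicValNat p (pr e (hdL t n))) := Nat.pow_le_pow_right hp.pos (by omega)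
      _ = (p ^ padicValNat p ((r ^ 2) ^ e - 1)) ^ cnt e (hdL t n) *
          p ^ padicValNat p (pr e (hdL t n)) := by rw [pow_add, mul_comm (cnt _ _), pow_mul]
      _ ≤ _ := Nat.mul_le_mul_right _ (Nat.pow_le_pow_left h3 _)

lemma zb_hom (p2 : Bool) (e : ℕ) {r0 r : ℕ} (h : r0 ≤ r) :
    zb p2 e r * r0 ^ zw p2 e ≤ zb p2 e r0 * r ^ zw p2 e := by
  simp only [zb, zw]
  split_ifs
  · simp only [pow_one]; nlinarith
  · obtain ⟨c, rfl⟩ := Nat.exists_eq_add_of_le h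
    nlinarith [Nat.zero_le c, Nat.zero_le r0, Nat.zero_le (c * r0), Nat.zero_le (c * c),
      Nat.zero_le (c * c * r0), Nat.zero_le (c * r0 * r0)]
  · have := Nat.pow_le_pow_left h e
    nlinarith

def mx (P : ℕ) : ℕ :=
  max (max (3 ^ val 3 P) (5 ^ val 5 P)) (max (7 ^ val 7 P) (max (11 ^ val 11 P) (13 ^ val 13 P)))

lemma prime_le_of_dvd_pr {p e : ℕ} (hp : p.Prime) (he : 1 ≤ e) {L : List ℕ} (hL : ∀ k ∈ L, 1 ≤ k)
    (h : p ∣ pr e L) : ∃ k ∈ L, p ≤ k := by
  induction L with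
  | nil => simp [pr] at h; exact absurd h hp.one_lt.ne'
  | cons k L ih =>
    rw [pr_cons] at h
    rcases (Nat.Prime.dvd_mul hp).1 h with h1 | h1
    · split_ifs at h1 with h2
      · exact ⟨k, by simp, Nat.le_of_dvd (hL k (by simp)) (h1.trans (Nat.div_dvd_of_dvd h2))⟩
      · exact absurd (Nat.dvd_one.1 h1) hp.one_lt.ne'
    · obtain ⟨j, hj, h2⟩ := ih (fun j hj => hL j (by simp [hj])) h1
      exact ⟨j, by simp [hj], h2⟩

lemma le_mx {p j e : ℕ} (hp : p.Prime) (h2 : p ≠ 2) (he : 1 ≤ e) {L : List ℕ}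
    (hL : ∀ k ∈ L, 1 ≤ k) (hL' : ∀ k ∈ L, k ≤ 16) (h : p ^ j ∣ pr e L) : p ^ j ≤ mx (pr e L) := by
  have hpos := pr_pos he hL
  rcases j with _ | j
  · have : 0 < 3 ^ val 3 (pr e L) := by positivity
    simp only [mx, pow_zero]; omega
  obtain ⟨k, hk, h1⟩ := prime_le_of_dvd_pr hp he hL ((dvd_pow_self p (by omega)).trans h)
  have h3 := hL' k hk
  have h4 := Nat.pow_le_pow_right hp.pos (le_val hp.two_le hpos h)
  have h5 : p ≤ 16 := by omega
  have h6 := hp.two_le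
  simp only [mx]
  interval_cases p <;> first | omega | (exfalso; norm_num at hp)

def boxE (H : List ℕ) (dim r0 d0 : ℕ) (p2 : Bool) (e : ℕ) : Bool :=
  force (cnt e H) fun c => c == 0 || (decide (4 * (zw p2 e * c) ≤ dim) &&
    force (pr e H) fun P => decide ((zb p2 e r0 ^ c * (if p2 then 2 ^ val 2 P else mx P)) ^ 4 *
      (2 * d0) ≤ 2 ^ 11 * r0 ^ dim))

def box (t : Ty) (n r0 d0 : ℕ) (b2 : Bool) : Bool :=
  force (2 * tN t n + tr t n) fun dim =>
    (hdL t n).all (fun k => decide (k ≤ 16)) && (!b2 || boxE (hdL t n) dim r0 d0 true 1) &&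
      (List.range' 1 16).all (boxE (hdL t n) dim r0 d0 false)

lemma cnt_eq_zero {e : ℕ} {L : List ℕ} (hL : ∀ k ∈ L, 1 ≤ k) (hL' : ∀ k ∈ L, k < e) :
    cnt e L = 0 := by
  induction L with
  | nil => rfl
  | cons k L ih =>
    rw [cnt_cons, ih (fun j hj => hL j (by simp [hj])) (fun j hj => hL' j (by simp [hj])),
      if_neg]
    intro hd
    have := Nat.le_of_dvd (hL k (by simp)) hd
    have := hL' k (by simp)
    omega

lemma pr_of_cnt {e : ℕ} {L : List ℕ} (h : cnt e L = 0) : pr e L = 1 := by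
  simp only [cnt, List.length_eq_zero_iff] at h
  simp [pr, h]

lemma box_sound {t : Ty} {n r0 d0 r p i : ℕ} {b2 : Bool} (h : box t n r0 d0 b2 = true)
    (hS : vS t n = true) (hp : p.Prime) (hr0 : 2 ≤ r0) (hr : r0 ≤ r) (hpr : ¬p ∣ r)
    (hd : td t n r ≤ d0) (hb : p = 2 → b2 = true) (hi : p ^ i ∣ tR t n r) :
    (p ^ i) ^ 4 ≤ 2 ^ 11 * ord t n r := by
  simp only [box, force_eq, Bool.and_eq_true, List.all_eq_true, decide_eq_true_eq,
    Bool.or_eq_true, Bool.not_eq_true'] at h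
  obtain ⟨⟨h16, hB2⟩, hB⟩ := h
  obtain ⟨e, j, he, he2, hj, hle⟩ := cross_core hp (by omega) hpr hS hi
  have hx := ord_pos (show 2 ≤ r by omega) hS
  by_cases hc : cnt e (hdL t n) = 0
  · rw [pr_of_cnt hc] at hj
    rw [hc, Nat.dvd_one.1 hj] at hle
    have : (p ^ i) ^ 4 ≤ 1 ^ 4 := Nat.pow_le_pow_left (by simpa using hle) _
    omega
  have he16 : e ≤ 16 := by
    by_contra hcon
    exact hc (cnt_eq_zero (hdL_pos hS) fun k hk => by have := h16 k hk; omega)
  have key : boxE (hdL t n) (2 * tN t n + tr t n) r0 d0 (p == 2) e = true := by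
    by_cases h2 : p = 2
    · rw [he2 h2, h2]
      rcases hB2 with h3 | h3
      · rw [hb h2] at h3; cases h3
      · exact h3
    · have hb : (p == 2) = false := by simpa using h2
      rw [hb]
      exact hB e (by rw [List.mem_range'_1]; omega)
  simp only [boxE, force_eq, Bool.or_eq_true, beq_iff_eq, hc, false_or, Bool.and_eq_true,
    decide_eq_true_eq] at key
  obtain ⟨k1, k2⟩ := key
  have hm : p ^ j ≤ if p = 2 then 2 ^ val 2 (pr e (hdL t n)) else mx (pr e (hdL t n)) := by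
    split_ifs with h2
    · subst h2
      exact Nat.pow_le_pow_right (by norm_num) (le_val le_rfl (pr_pos he (hdL_pos hS)) hj)
    · exact le_mx hp h2 he (hdL_pos hS) h16 hj
  generalize (if p = 2 then 2 ^ val 2 (pr e (hdL t n)) else mx (pr e (hdL t n))) = m at *
  have h1 := Nat.pow_le_pow_left (zb_hom (p == 2) e hr) (cnt e (hdL t n))
  have h2 := ord_ge (show 2 ≤ r by omega) hS
  generalize cnt e (hdL t n) = c at *
  rw [mul_pow, mul_pow, ← pow_mul, ← pow_mul] at h1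
  generalize zw (p == 2) e * c = w at *
  obtain ⟨u, hu⟩ := Nat.exists_eq_add_of_le k1
  rw [hu] at k2 h2
  generalize zb (p == 2) e r ^ c = z at *
  generalize zb (p == 2) e r0 ^ c = z0 at *
  have h3 : p ^ i * r0 ^ w ≤ z0 * m * r ^ w :=
    calc p ^ i * r0 ^ w ≤ z * m * r0 ^ w :=
          Nat.mul_le_mul_right _ (hle.trans (Nat.mul_le_mul_left _ hm))
      _ = z * r0 ^ w * m := by ring
      _ ≤ z0 * r ^ w * m := Nat.mul_le_mul_right _ h1
      _ = _ := by ring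
  have h4 := Nat.pow_le_pow_left h3 4
  have h5 : r0 ^ u ≤ r ^ u := Nat.pow_le_pow_left hr _
  have h6 : 0 < 2 * d0 * (r0 ^ w) ^ 4 := by
    have := td_pos (q := r) hS
    have : 0 < d0 := by omega
    have : 0 < r0 := by omega
    positivity
  refine Nat.le_of_mul_le_mul_right ?_ h6
  calc (p ^ i) ^ 4 * (2 * d0 * (r0 ^ w) ^ 4) = (p ^ i * r0 ^ w) ^ 4 * (2 * d0) := by ring
    _ ≤ (z0 * m * r ^ w) ^ 4 * (2 * d0) := Nat.mul_le_mul_right _ h4
    _ = (z0 * m) ^ 4 * (2 * d0) * (r ^ w) ^ 4 := by ring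
    _ ≤ 2 ^ 11 * r0 ^ (4 * w + u) * (r ^ w) ^ 4 := Nat.mul_le_mul_right _ k2
    _ = 2 ^ 11 * (r0 ^ w) ^ 4 * (r ^ w) ^ 4 * r0 ^ u := by ring
    _ ≤ 2 ^ 11 * (r0 ^ w) ^ 4 * (r ^ w) ^ 4 * r ^ u := Nat.mul_le_mul_left _ h5
    _ = 2 ^ 11 * (r0 ^ w) ^ 4 * r ^ (4 * w + u) := by ring
    _ ≤ 2 ^ 11 * (r0 ^ w) ^ 4 * (2 * td t n r * ord t n r) := Nat.mul_le_mul_left _ h2
    _ ≤ 2 ^ 11 * (r0 ^ w) ^ 4 * (2 * d0 * ord t n r) := by gcongr
    _ = _ := by ring

def boxS (s : Ty × ℕ) : Bool :=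
  decide (16 < s.2) || s == (Ty.A, 2) || s.1 == Ty.Sz || s.1 == Ty.Re ||
    (box s.1 s.2 128 (dmax s.1 s.2) true && (List.range' 2 126).all fun r =>
      decide (ord s.1 s.2 r ≤ 2 ^ 48) || box s.1 s.2 r (td s.1 s.2 r) (r % 2 == 1))

lemma box_a : (shapes.take 18).all boxS = true := by decide +kernel
lemma box_b : ((shapes.drop 18).take 17).all boxS = true := by decide +kernel
lemma box_c : ((shapes.drop 35).take 18).all boxS = true := by decide +kernel
lemma box_d : ((shapes.drop 53).take 16).all boxS = true := by decide +kernel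
lemma box_e : (shapes.drop 69).all boxS = true := by decide +kernel

lemma box_all {s : Ty × ℕ} (h : s ∈ shapes) : boxS s = true := by
  have e : shapes = shapes.take 18 ++ (shapes.drop 18).take 17 ++ (shapes.drop 35).take 18 ++
      (shapes.drop 53).take 16 ++ shapes.drop 69 := by decide +kernel
  rw [e] at h
  simp only [List.mem_append] at h
  rcases h with (((h | h) | h) | h) | h
  · exact List.all_eq_true.1 box_a s h
  · exact List.all_eq_true.1 box_b s h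
  · exact List.all_eq_true.1 box_c s h
  · exact List.all_eq_true.1 box_d s h
  · exact List.all_eq_true.1 box_e s h

lemma cross_box {t : Ty} {n r p i : ℕ} (hS : vS t n = true) (hn : n ≤ 16) (h1 : ¬(t = .A ∧ n = 2))
    (h2 : t ≠ .Sz) (h3 : t ≠ .Re) (hp : p.Prime) (hr : 2 ≤ r) (hpr : ¬p ∣ r)
    (hi : p ^ i ∣ tR t n r) (hx : 2 ^ 48 < ord t n r) : (p ^ i) ^ 4 ≤ 2 ^ 11 * ord t n r := by
  have h := box_all (mem_shapes hS (by omega))
  simp only [boxS, Bool.or_eq_true, decide_eq_true_eq, beq_iff_eq, Prod.mk.injEq,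
    Bool.and_eq_true, List.all_eq_true] at h
  rcases h with (((h | h) | h) | h) | ⟨ha, hb⟩
  · omega
  · exact absurd h h1
  · exact absurd h h2
  · exact absurd h h3
  by_cases hr2 : 128 ≤ r
  · exact box_sound ha hS hp (by norm_num) hr2 hpr (td_le_dmax hS r) (fun _ => rfl) hi
  · rcases hb r (by rw [List.mem_range'_1]; omega) with h | h
    · omega
    · refine box_sound h hS hp hr le_rfl hpr le_rfl (fun h2 => ?_) hi
      subst h2
      simp only [beq_iff_eq]; omega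

end Pool.Agent.Lib.MP_343319_al
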