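import Pool.Agent.Lib.MP_343319_al.Cross1

namespace Pool.Agent.Lib.MP_343319_al

open Nat

lemma cnt_range (e a k : ℕ) (ha : 1 ≤ a) : e * cnt e (List.range' a k) ≤ a + k - 1 := by
  induction k with
  | zero => simp [cnt]
  | succ k ih =>
    have : cnt e (List.range' a (k + 1)) = cnt e (List.range' a k) + if e ∣ a + k then 1 else 0 := by
      rw [List.range'_concat]
      simp only [cnt, List.filter_append, List.length_append, one_mul, List.filter_cons,
        beq_iff_eq, Nat.dvd_iff_mod_eq_zero]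
      split_ifs <;> simp
    rw [this]
    split_ifs with h
    · obtain ⟨c, hc⟩ := h
      have h1 : e * cnt e (List.range' a k) < e * c := by omega
      have h2 := Nat.lt_of_mul_lt_mul_left h1
      have := Nat.mul_le_mul_left e (show cnt e (List.range' a k) + 1 ≤ c from h2)
      omega
    · simp only [add_zero]; omega

lemma cnt_map_le (e : ℕ) (g : ℕ → ℕ) (hg : ∀ i, g i ∣ i) (L : List ℕ) :
    cnt e (L.map g) ≤ cnt e L := by
  induction L with
  | nil => simp
  | cons k L ih =>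
    rw [List.map_cons, cnt_cons, cnt_cons]
    split_ifs with h1 h2
    · omega
    · exact absurd (h1.trans (hg k)) h2
    · omega
    · omega

lemma prod_map_dvd (g : ℕ → ℕ) (hg : ∀ i, g i ∣ i) (L : List ℕ) : (L.map g).prod ∣ L.prod := by
  induction L with
  | nil => simp
  | cons k L ih => simpa using Nat.mul_dvd_mul (hg k) ih

lemma pr_dvd_prod (e : ℕ) (L : List ℕ) : pr e L ∣ L.prod := by
  induction L with
  | nil => simp [pr]
  | cons k L ih =>
    rw [pr_cons, List.prod_cons]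
    refine Nat.mul_dvd_mul ?_ ih
    split_ifs with h
    · exact Nat.div_dvd_of_dvd h
    · exact one_dvd _

lemma prod_range1 (k : ℕ) : (List.range' 1 k).prod = k ! := by
  induction k with
  | zero => rfl
  | succ k ih => rw [List.range'_concat, List.prod_append, ih, Nat.factorial_succ]; simp; ring

lemma prod_range2 (k : ℕ) : (List.range' 2 k).prod = (k + 1)! := by
  rw [← prod_range1, List.range'_succ]; simp

def Cl (t : Ty) : Prop := t = .A ∨ t = .U ∨ t = .B ∨ t = .D ∨ t = .E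

lemma cl_of_pos {t : Ty} {n : ℕ} (h : vS t n = true) (hn : 1 ≤ n) : Cl t := by
  cases t <;> simp only [vS, decide_eq_true_eq, Cl] at h ⊢ <;> first | omega | simp

lemma hdL_cl {t : Ty} {n : ℕ} (ht : Cl t) (hn : 2 ≤ n) (e : ℕ) :
    e * cnt e (hdL t n) ≤ n ∧ (hdL t n).prod ∣ n ! := by
  obtain ⟨k, rfl⟩ : ∃ k, n = k + 1 := ⟨n - 1, by omega⟩
  have hDE : ∀ a, a ∣ k + 1 → e * cnt e (a :: List.range' 1 k) ≤ k + 1 ∧
      (a :: List.range' 1 k).prod ∣ (k + 1)! := by
    intro a ha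
    constructor
    · have h1 := cnt_range e 1 (k + 1) le_rfl
      have : cnt e (a :: List.range' 1 k) ≤ cnt e (List.range' 1 (k + 1)) := by
        rw [List.range'_concat, cnt_cons]
        simp only [cnt, List.filter_append, List.length_append, one_mul, List.filter_cons,
          beq_iff_eq, ← Nat.dvd_iff_mod_eq_zero]
        split_ifs with h2 h3
        · simp
        · exact absurd (h2.trans (by rwa [add_comm])) h3
        · simp
        · simp
      have := Nat.mul_le_mul_left e this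
      omega
    · rw [List.prod_cons, prod_range1, Nat.factorial_succ]
      exact Nat.mul_dvd_mul_right ha _
  have hAU : ∀ g : ℕ → ℕ, (∀ i, g i ∣ i) → e * cnt e ((List.range' 2 k).map g) ≤ k + 1 ∧
      ((List.range' 2 k).map g).prod ∣ (k + 1)! := by
    intro g hg
    constructor
    · have h1 := cnt_range e 2 k (by omega)
      have := Nat.mul_le_mul_left e (cnt_map_le e g hg (List.range' 2 k))
      omega
    · rw [← prod_range2]; exact prod_map_dvd g hg _
  have hB : ∀ m, (((List.range' 1 m).map fun i => (2 * i, 0)).map fun s => half (top s)) =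
      List.range' 1 m := by
    intro m
    rw [List.map_map]
    conv_rhs => rw [← List.map_id (List.range' 1 m)]
    refine List.map_congr_left fun i _ => ?_
    simp [top, half_two_mul]
  rcases ht with rfl | rfl | rfl | rfl | rfl <;>
    simp only [hdL, facs, Nat.add_sub_cancel, List.map_cons]
  · rw [List.map_map]
    exact hAU _ fun i => by simpa [top] using half_dvd i
  · rw [List.map_map]
    refine hAU _ fun i => ?_
    simp only [Function.comp, top]
    rcases Nat.mod_two_eq_zero_or_one i with h | h <;> rw [h]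
    · simpa using half_dvd i
    · rw [mul_comm, half_two_mul]
  · rw [hB, prod_range1]
    have := cnt_range e 1 (k + 1) le_rfl
    exact ⟨by omega, dvd_rfl⟩
  · rw [hB]
    exact hDE _ (by simpa [top] using half_dvd _)
  · rw [hB]
    exact hDE _ (by simp only [top]; rw [mul_comm, half_two_mul])

lemma zb_le (p2 : Bool) {e r : ℕ} (he : 1 ≤ e) : zb p2 e r ≤ (2 * (r + 1)) ^ e := by
  have h1 : 2 * (r + 1) ≤ (2 * (r + 1)) ^ e := Nat.le_self_pow (by omega) _
  simp only [zb]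
  split_ifs with h2 h3
  · exact h1
  · subst h3; ring_nf; omega
  · have h4 : r ^ e < (2 * (r + 1)) ^ e := Nat.pow_lt_pow_left (by omega) (by omega)
    omega

lemma dim_ge {t : Ty} {n : ℕ} (ht : Cl t) (hn : 2 ≤ n) : n * n ≤ 2 * tN t n + tr t n + 1 := by
  have := two_tri n
  obtain ⟨k, rfl⟩ : ∃ k, n = k + 1 := ⟨n - 1, by omega⟩
  rcases ht with rfl | rfl | rfl | rfl | rfl <;> simp only [tN, tr, Nat.add_sub_cancel] at * <;>
    nlinarith

lemma dmax_le {t : Ty} {n : ℕ} (ht : Cl t) (hn : 4 ≤ n) : dmax t n ≤ n := by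
  rcases ht with rfl | rfl | rfl | rfl | rfl <;> simp only [dmax] <;> omega

lemma cross_large {t : Ty} {n r p i : ℕ} (hS : vS t n = true) (hn : 17 ≤ n) (hp : p.Prime)
    (hr : 2 ≤ r) (hpr : ¬p ∣ r) (hi : p ^ i ∣ tR t n r) : (p ^ i) ^ 4 ≤ 2 ^ 11 * ord t n r := by
  have ht := cl_of_pos hS (by omega)
  obtain ⟨e, j, he, -, hj, hle⟩ := cross_core hp hr hpr hS hi
  obtain ⟨h1, h2⟩ := hdL_cl ht (show 2 ≤ n by omega) e
  have h3 := pp_fact hp (show 1 ≤ n by omega) (hj.trans ((pr_dvd_prod _ _).trans h2))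
  have h4 : p ^ i ≤ (4 * (r + 1)) ^ n :=
    calc p ^ i ≤ _ := hle
      _ ≤ ((2 * (r + 1)) ^ e) ^ cnt e (hdL t n) * 2 ^ n :=
        Nat.mul_le_mul (Nat.pow_le_pow_left (zb_le _ he) _)
          (h3.trans (Nat.pow_le_pow_right (by norm_num) (by omega)))
      _ ≤ (2 * (r + 1)) ^ n * 2 ^ n := by
        rw [← pow_mul]
        exact Nat.mul_le_mul_right _ (Nat.pow_le_pow_right (by omega) h1)
      _ = _ := by rw [← mul_pow]; congr 1; ring
  have h5 : (4 * (r + 1)) ^ 4 ≤ r ^ 15 := by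
    have h6 : 4 * (r + 1) ≤ 6 * r := by omega
    have h7 : 2 ^ 11 ≤ r ^ 11 := Nat.pow_le_pow_left hr _
    calc (4 * (r + 1)) ^ 4 ≤ (6 * r) ^ 4 := Nat.pow_le_pow_left h6 _
      _ = 1296 * r ^ 4 := by ring
      _ ≤ r ^ 11 * r ^ 4 := Nat.mul_le_mul_right _ (by omega)
      _ = _ := by ring
  have h6 : (p ^ i) ^ 4 ≤ r ^ (15 * n) :=
    calc (p ^ i) ^ 4 ≤ ((4 * (r + 1)) ^ n) ^ 4 := Nat.pow_le_pow_left h4 _
      _ = ((4 * (r + 1)) ^ 4) ^ n := by rw [← pow_mul, ← pow_mul, mul_comm n]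
      _ ≤ (r ^ 15) ^ n := Nat.pow_le_pow_left h5 _
      _ = _ := by rw [← pow_mul]
  have h7 := ord_ge hr hS
  have h8 := dim_ge ht (show 2 ≤ n by omega)
  have h9 := (td_le_dmax hS r).trans (dmax_le ht (by omega))
  have h10 : 2 * n ≤ r ^ n := by
    have : n - 1 < 2 ^ (n - 1) := Nat.lt_two_pow_self
    have h11 : 2 ^ n = 2 * 2 ^ (n - 1) := by rw [← _root_.pow_succ']; congr 1; omega
    have := Nat.pow_le_pow_left hr n
    omega
  have h11 : r ^ (15 * n) * r ^ n ≤ r ^ (2 * tN t n + tr t n) := by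
    rw [← pow_add]
    exact Nat.pow_le_pow_right (by omega) (by nlinarith)
  have h12 : (p ^ i) ^ 4 * (2 * n) ≤ ord t n r * (2 * n) :=
    calc _ ≤ r ^ (15 * n) * r ^ n := Nat.mul_le_mul h6 h10
      _ ≤ 2 * td t n r * ord t n r := h11.trans h7
      _ ≤ 2 * n * ord t n r := by gcongr
      _ = _ := by ring
  have := Nat.le_of_mul_le_mul_right h12 (by omega)
  omega

lemma aurif {p i r s c : ℕ} (hp : p.Prime) (h2 : p ≠ 2) (hs : ¬p ∣ s) (hc : c + s = r + 1)
    (hc0 : 1 ≤ c) (h : p ^ i ∣ (r + s + 1) * c) : p ^ i ≤ r + s + 1 := by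
  rcases pow_dvd_or hp h (fun ⟨a, b⟩ => by
    have h3 : p ∣ r + s + 1 - c := Nat.dvd_sub a b
    rw [show r + s + 1 - c = 2 * s by omega] at h3
    rcases (Nat.Prime.dvd_mul hp).1 h3 with h4 | h4
    · exact h2 ((Nat.prime_dvd_prime_iff_eq hp Nat.prime_two).1 h4)
    · exact hs h4) with h3 | h3 <;> have := Nat.le_of_dvd (by omega) h3 <;> omega

lemma cross_Sz {n s g p i : ℕ} (hv : Val .Sz n s g) (hp : p.Prime) (hps : s ≠ p)
    (hi : p ^ i ∣ tR .Sz n (s ^ g)) : (p ^ i) ^ 4 ≤ 2 ^ 11 * ord .Sz n (s ^ g) := by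
  have h7 := ord_ge hv.two_le hv.hS
  obtain ⟨rfl, h1, h2⟩ := hv.Sz
  obtain ⟨k, rfl⟩ : ∃ k, g = 2 * k + 1 := ⟨g / 2, by omega⟩
  have hk : 2 ≤ 2 ^ k := by
    calc 2 = 2 ^ 1 := by norm_num
      _ ≤ _ := Nat.pow_le_pow_right (by norm_num) (by omega)
  have hpk : ¬p ∣ 2 * 2 ^ k := by
    rw [← pow_succ']
    exact fun h => hps ((Nat.prime_dvd_prime_iff_eq hp Nat.prime_two).1 (hp.dvd_of_dvd_pow h)).symm
  have e : 2 ^ (2 * k + 1) = 2 * (2 ^ k * 2 ^ k) := by ring
  simp only [tR, tN, tr, td] at hi h7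
  rw [e] at hi h7 ⊢
  generalize 2 ^ k = u at *
  have h3 : p ^ i ≤ 2 * (2 * (u * u)) := by
    have h4 : 2 * u ≤ u * u := Nat.mul_le_mul_right _ hk
    rcases pow_dvd_or hp hi (fun ⟨a, b⟩ => by
      obtain ⟨c, hc⟩ : ∃ c, 2 * (u * u) = c + 1 := ⟨2 * (u * u) - 1, by omega⟩
      rw [hc] at a b
      simp only [Nat.add_sub_cancel] at a
      rw [show (c + 1) ^ 2 + 1 = c * (c + 2) + 2 by ring] at b
      exact hps ((Nat.prime_dvd_prime_iff_eq hp Nat.prime_two).1
        ((Nat.dvd_add_right (Dvd.dvd.mul_right a _)).1 b)).symm) with h5 | h5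
    · have := Nat.le_of_dvd (by omega) h5
      omega
    · obtain ⟨c, hc⟩ : ∃ c, c + 2 * u = 2 * (u * u) + 1 := ⟨2 * (u * u) + 1 - 2 * u, by omega⟩
      have e2 : (2 * (u * u)) ^ 2 + 1 = (2 * (u * u) + 2 * u + 1) * c := by
        zify at hc ⊢
        rw [show (c : ℤ) = 2 * (u * u) + 1 - 2 * u by linarith]; ring
      rw [e2] at h5
      have := aurif hp (Ne.symm hps) hpk hc (by omega) h5
      omega
  have h8 := Nat.pow_le_pow_left h3 4
  generalize 2 * (u * u) = r at *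
  have h9 : r ^ 4 ≤ r ^ (2 * 2 + 1) := by
    rcases Nat.eq_zero_or_pos r with rfl | h
    · simp
    · exact Nat.pow_le_pow_right h (by norm_num)
  rw [mul_pow] at h8
  omega

lemma cross_Re {n s g p i : ℕ} (hv : Val .Re n s g) (hp : p.Prime) (hps : s ≠ p)
    (hi : p ^ i ∣ tR .Re n (s ^ g)) : (p ^ i) ^ 4 ≤ 2 ^ 11 * ord .Re n (s ^ g) := by
  have h7 := ord_ge hv.two_le hv.hS
  obtain ⟨rfl, h1, h2⟩ := hv.Re
  obtain ⟨k, rfl⟩ : ∃ k, g = 2 * k + 1 := ⟨g / 2, by omega⟩
  have hk : 3 ≤ 3 ^ k := by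
    calc 3 = 3 ^ 1 := by norm_num
      _ ≤ _ := Nat.pow_le_pow_right (by norm_num) (by omega)
  have hp3 : ¬p ∣ 3 := fun h => hps ((Nat.prime_dvd_prime_iff_eq hp Nat.prime_three).1 h).symm
  have hpk : ¬p ∣ 3 * 3 ^ k := by
    rw [← pow_succ']
    exact fun h => hp3 (hp.dvd_of_dvd_pow h)
  have hodd : 3 ^ k % 2 = 1 := by simp [Nat.pow_mod]
  have e : 3 ^ (2 * k + 1) = 3 * (3 ^ k * 3 ^ k) := by ring
  simp only [tR, tN, tr, td] at hi h7
  rw [e] at hi h7 ⊢
  generalize 3 ^ k = u at *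
  have h4 : 3 * u ≤ u * u := Nat.mul_le_mul_right _ hk
  obtain ⟨c, hc⟩ : ∃ c, c + 3 * u = 3 * (u * u) + 1 := ⟨3 * (u * u) + 1 - 3 * u, by omega⟩
  have hodd2 : (3 * (u * u)) % 2 = 1 := by simp [Nat.mul_mod, hodd]
  have h3 : p ^ i ≤ 3 * (3 * (u * u)) := by
    obtain ⟨a, ha⟩ : ∃ a, 3 * (u * u) = a + 1 := ⟨3 * (u * u) - 1, by omega⟩
    have e2 : a * a + a + 1 = (3 * (u * u) + 3 * u + 1) * c := by
      zify at hc ha ⊢
      rw [show (c : ℤ) = 3 * (u * u) + 1 - 3 * u by linarith,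
        show (a : ℤ) = 3 * (u * u) - 1 by linarith]; ring
    have e3 : (3 * (u * u) - 1) * ((3 * (u * u)) ^ 3 + 1) =
        ((3 * (u * u)) ^ 2 - 1) * (a * a + a + 1) := by
      rw [sq_sub_one, ha]; simp only [Nat.add_sub_cancel]; ring
    rw [e3] at hi
    have hnot : ¬(p ∣ (3 * (u * u)) ^ 2 - 1 ∧ p ∣ a * a + a + 1) := by
      rintro ⟨h5, h6⟩
      rw [sq_sub_one, ha] at h5
      simp only [Nat.add_sub_cancel] at h5
      rcases (Nat.Prime.dvd_mul hp).1 h5 with h8 | h8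
      · have e4 : (a + 1 + 1) * (a + 1 + 1) + 3 = a * a + a + 1 + 3 * (a + 1 + 1) := by ring
        have h9 : p ∣ (a + 1 + 1) * (a + 1 + 1) + 3 := by
          rw [e4]; exact Dvd.dvd.add h6 (Dvd.dvd.mul_left h8 _)
        exact hp3 ((Nat.dvd_add_right (Dvd.dvd.mul_right h8 _)).1 h9)
      · have := (Nat.dvd_add_right (Dvd.dvd.add (Dvd.dvd.mul_right h8 _) h8)).1 h6
        exact hp.one_lt.ne' (Nat.dvd_one.1 this)
    rcases pow_dvd_or hp hi hnot with h5 | h5
    · by_cases hp2 : p = 2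
      · subst hp2
        rcases i with _ | i
        · simp; omega
        · rw [pow_succ]
          rcases two_pow_dvd_sq (by omega) h5 with h6 | h6 <;>
            have := Nat.le_of_dvd (by omega) h6 <;> omega
      · rcases odd_pow_dvd_sq hp hp2 (by omega) h5 with h6 | h6 <;>
          have := Nat.le_of_dvd (by omega) h6 <;> omega
    · by_cases hp2 : p = 2
      · subst hp2
        rcases i with _ | i
        · simp; omega
        · exfalso
          have h6 : 2 ∣ a * a + a + 1 := (dvd_pow_self 2 (by omega)).trans h5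
          have h8 : a % 2 = 0 := by omega
          have : (a * a) % 2 = 0 := by simp [Nat.mul_mod, h8]
          omega
      · rw [e2] at h5
        have := aurif hp hp2 hpk hc (by omega) h5
        omega
  have h8 := Nat.pow_le_pow_left h3 4
  generalize 3 * (u * u) = r at *
  have h9 : r ^ 4 ≤ r ^ (2 * 3 + 1) := by
    rcases Nat.eq_zero_or_pos r with rfl | h
    · simp
    · exact Nat.pow_le_pow_right h (by norm_num)
  rw [mul_pow] at h8
  omega

lemma Val.pow_dvd_tR {t : Ty} {n s g p i : ℕ} (hv : Val t n s g) (hp : p.Prime) (hps : s ≠ p)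
    (hi : p ^ i ∣ ord t n (s ^ g)) : ¬p ∣ s ^ g ∧ p ^ i * td t n (s ^ g) ∣ tR t n (s ^ g) := by
  have h1 : ¬p ∣ s ^ g := fun h =>
    hps ((Nat.prime_dvd_prime_iff_eq hp hv.hp).1 (hp.dvd_of_dvd_pow h)).symm
  refine ⟨h1, ?_⟩
  rw [ord_eq hv.hS] at hi
  have h2 := Nat.Coprime.dvd_of_dvd_mul_left (Nat.Coprime.pow _ _
    ((Nat.Prime.coprime_iff_not_dvd hp).2 h1)) hi
  rw [← Nat.div_mul_cancel (td_dvd (q := s ^ g) hv.hS)]
  exact Nat.mul_dvd_mul_right h2 _

lemma cross_big {t : Ty} {n s g p i : ℕ} (hv : Val t n s g) (h1 : ¬(t = .A ∧ n = 2)) (hp : p.Prime)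
    (hps : s ≠ p) (hi : p ^ i ∣ ord t n (s ^ g)) (hx : 2 ^ 48 < ord t n (s ^ g)) :
    (p ^ i) ^ 4 ≤ 2 ^ 11 * ord t n (s ^ g) := by
  obtain ⟨h2, h3⟩ := hv.pow_dvd_tR hp hps hi
  have h4 := (Dvd.intro _ rfl).trans h3
  by_cases h5 : t = .Sz
  · subst h5; exact cross_Sz hv hp hps h4
  by_cases h6 : t = .Re
  · subst h6; exact cross_Re hv hp hps h4
  by_cases h7 : n ≤ 16
  · exact cross_box hv.hS h7 h1 h5 h6 hp hv.two_le h2 h4 hx
  · exact cross_large hv.hS (by omega) hp hv.two_le h2 h4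

lemma tR_A2 (q : ℕ) : tR .A 2 q = q ^ 2 - 1 := by simp [tR, pA]

lemma td_A2 (q : ℕ) (hq : 1 ≤ q) : td .A 2 q = if q % 2 = 0 then 1 else 2 := by
  simp only [td]
  split_ifs with h
  · exact (Nat.coprime_two_left.2 (by rw [Nat.odd_iff]; omega))
  · exact Nat.gcd_eq_left (by omega)

lemma psl_dvd {s g p i : ℕ} (hv : Val .A 2 s g) (hp : p.Prime) (hps : s ≠ p)
    (hi : p ^ i ∣ ord .A 2 (s ^ g)) : p ^ i ∣ s ^ g + 1 ∨ p ^ i ∣ s ^ g - 1 := by
  obtain ⟨h2, h3⟩ := hv.pow_dvd_tR hp hps hi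
  have hr := hv.two_le
  rw [tR_A2, td_A2 _ (by omega)] at h3
  by_cases hp2 : p = 2
  · subst hp2
    rw [if_neg (by omega), ← pow_succ] at h3
    exact two_pow_dvd_sq (by omega) h3
  · exact odd_pow_dvd_sq hp hp2 (by omega) ((Dvd.intro _ rfl).trans h3)

lemma td_ord_A2 (q : ℕ) : td .A 2 q * ord .A 2 q = q * (q ^ 2 - 1) := by
  rw [td_mul_ord rfl, tR_A2]; simp [tN]

lemma fact_big40 {k : ℕ} (hk : 40 ≤ k) : 16 ^ (k - 1) ≤ k ! / 2 := by
  induction k, hk using Nat.le_induction with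
  | base => decide +kernel
  | succ k hk ih =>
    rw [half_succ (by omega), Nat.add_sub_cancel, show k = k - 1 + 1 by omega, pow_succ,
      show k - 1 + 1 = k by omega]
    exact Nat.mul_le_mul ih (by omega)

lemma cross_alt {k p i : ℕ} (hk : 40 ≤ k) (hp : p.Prime) (hi : p ^ i ∣ k ! / 2) :
    (p ^ i) ^ 4 ≤ k ! / 2 ∧ 2 ^ 48 < k ! / 2 := by
  have h1 := pp_fact hp (show 1 ≤ k by omega) (hi.trans (Nat.div_dvd_of_dvd
    (Nat.dvd_factorial (by norm_num) (by omega))))
  have h2 := fact_big40 hk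
  have h3 : (2 ^ (k - 1)) ^ 4 = 16 ^ (k - 1) := by
    rw [← pow_mul, mul_comm, pow_mul]; norm_num
  have h4 : 16 ^ 13 ≤ 16 ^ (k - 1) := Nat.pow_le_pow_right (by norm_num) (by omega)
  have h5 := Nat.pow_le_pow_left h1 4
  omega

def Good (x a : ℕ) : Prop := 4 * a ^ 3 < x ∧ a ^ 4 ≤ 2 ^ 11 * x

instance (x a : ℕ) : Decidable (Good x a) := inferInstanceAs (Decidable (_ ∧ _))

lemma Good.mono {x a b : ℕ} (h : Good x b) (hab : a ≤ b) : Good x a :=
  ⟨lt_of_le_of_lt (Nat.mul_le_mul_left _ (Nat.pow_le_pow_left hab _)) h.1,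
    (Nat.pow_le_pow_left hab _).trans h.2⟩

lemma good_of_big {x a : ℕ} (hx : 2 ^ 48 < x) (h : a ^ 4 ≤ 2 ^ 11 * x) : Good x a := by
  refine ⟨?_, h⟩
  refine lt_of_pow_lt_pow_left₀ 4 (Nat.zero_le _) ?_
  have h1 := Nat.pow_le_pow_left h 3
  have h2 : 0 < x ^ 3 := pow_pos (by omega) _
  calc (4 * a ^ 3) ^ 4 = 256 * (a ^ 4) ^ 3 := by ring
    _ ≤ 256 * (2 ^ 11 * x) ^ 3 := Nat.mul_le_mul_left _ h1
    _ = 2 ^ 41 * x ^ 3 := by ring
    _ < x * x ^ 3 := Nat.mul_lt_mul_of_pos_right (by omega) h2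
    _ = _ := by ring

def CL : List (ℕ × ℕ × ℕ) :=
  [(2, 60, 2), (2, 168, 3), (2, 360, 3), (2, 2448, 4), (2, 5616, 4), (2, 6048, 5), (2, 7920, 4),
   (2, 20160, 6), (2, 25920, 6), (2, 95040, 6), (2, 181440, 6), (2, 443520, 7), (2, 604800, 7),
   (2, 1814400, 7), (2, 3265920, 7), (2, 5663616, 7), (2, 6065280, 7), (2, 17971200, 11),
   (2, 44352000, 9), (2, 239500800, 9), (2, 244823040, 10), (2, 4030387200, 10),
   (2, 145926144000, 14), (2, 448345497600, 13), (2, 10461394944000, 14), (2, 42305421312000, 18),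
   (2, 64561751654400, 17), (2, 4157776806543360000, 21), (2, 86775571046077562880, 21),
   (2, 4154781481226426191177580544000000, 41), (3, 60, 1), (3, 360, 2), (3, 504, 2),
   (3, 2448, 2), (3, 2520, 2), (3, 25920, 4), (3, 181440, 4), (3, 1451520, 4), (3, 1814400, 4),
   (3, 13685760, 5), (3, 50232960, 5), (3, 898128000, 6), (3, 64561751654400, 9),
   (3, 4089470473293004800, 13), (3, 1255205709190661721292800, 16), (5, 60, 1), (5, 360, 1),
   (5, 62400, 2), (7, 168, 1), (7, 504, 1), (7, 1092, 1), (13, 5616, 1), (13, 7800, 1),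
   (17, 4080, 1)]

def stripAux (l : ℕ) : ℕ → ℕ → ℕ
  | 0, y => y
  | k + 1, y => if y % l = 0 then force (y / l) (stripAux l k) else y

def strip : List ℕ → ℕ → ℕ
  | [], y => y
  | l :: L, y => force (stripAux l 200 y) (strip L)

lemma stripAux_sound {l a : ℕ} (h : Nat.Coprime a l) (k y : ℕ) (hy : 0 < y) (ha : a ∣ y) :
    0 < stripAux l k y ∧ a ∣ stripAux l k y := by
  induction k generalizing y with
  | zero => exact ⟨hy, ha⟩
  | succ k ih =>
    simp only [stripAux, force_eq]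
    split_ifs with h1
    · obtain ⟨c, rfl⟩ := Nat.dvd_of_mod_eq_zero h1
      have hl : 0 < l := Nat.pos_of_mul_pos_right hy
      rw [Nat.mul_div_cancel_left _ hl]
      exact ih c (Nat.pos_of_mul_pos_left hy) (h.dvd_of_dvd_mul_left ha)
    · exact ⟨hy, ha⟩

lemma strip_sound {a : ℕ} (L : List ℕ) (h : ∀ l ∈ L, Nat.Coprime a l) (y : ℕ) (hy : 0 < y)
    (ha : a ∣ y) : a ≤ strip L y := by
  induction L generalizing y with
  | nil => exact Nat.le_of_dvd hy ha
  | cons l L ih =>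
    simp only [strip, force_eq]
    obtain ⟨h1, h2⟩ := stripAux_sound (h l (by simp)) 200 y hy ha
    exact ih (fun j hj => h j (by simp [hj])) _ h1 h2

lemma primesL_lt : ∀ l ∈ primesL, 1 ≤ l ∧ l < 530 := by decide +kernel

lemma coprime_primesL {p : ℕ} (hp : p.Prime) (h : 530 ≤ p) (i : ℕ) :
    ∀ l ∈ primesL, Nat.Coprime (p ^ i) l := by
  intro l hl
  have := primesL_lt l hl
  refine Nat.Coprime.pow_left _ ((Nat.Prime.coprime_iff_not_dvd hp).2 fun hd => ?_)
  have := Nat.le_of_dvd (by omega) hd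
  omega

def pchk (s x : ℕ) : Bool :=
  primesL.all (fun p => p == s || x % p != 0 || force (val p x) fun j =>
    decide (Good x (p ^ j)) || CL.contains (p, x, j)) && decide (Good x (strip primesL x))

lemma pchk_sound {s x p i : ℕ} (h : pchk s x = true) (hx : 0 < x) (hp : p.Prime) (hps : s ≠ p)
    (hi : p ^ i ∣ x) (h1 : 1 ≤ i) : Good x (p ^ i) ∨ ∃ j, i ≤ j ∧ (p, x, j) ∈ CL := by
  simp only [pchk, Bool.and_eq_true, List.all_eq_true, force_eq, Bool.or_eq_true, beq_iff_eq,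
    bne_iff_ne, ne_eq, decide_eq_true_eq, List.contains_iff_mem] at h
  by_cases h2 : p < 530
  · have h3 := le_val hp.two_le hx hi
    rcases h.1 p (mem_primesL hp h2) with (h4 | h4) | h4 | h4
    · exact absurd h4.symm hps
    · exact absurd (Nat.mod_eq_zero_of_dvd ((dvd_pow_self p (by omega)).trans hi)) h4
    · exact Or.inl (h4.mono (Nat.pow_le_pow_right hp.pos h3))
    · exact Or.inr ⟨_, h3, h4⟩
  · exact Or.inl (h.2.mono (strip_sound _ (coprime_primesL hp (by omega) i) x hx hi))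

lemma small_alt : (List.range' 5 35).all (fun k => force (k ! / 2) (pchk 0)) = true := by
  decide +kernel

lemma small_spor : sporadicOrders.all (pchk 0) = true := by decide +kernel

def smallLie (s : ℕ) : Bool :=
  force (24 / Nat.log2 s) fun a => shapes.all fun u => (List.range' 1 (a / tN u.1 u.2)).all fun g =>
    !vQ u.1 u.2 s g || (u == (Ty.A, 2) && decide (30 ≤ s ^ g)) ||
      force (ord u.1 u.2 (s ^ g)) fun x => decide (2 ^ 48 < x) || pchk s x

lemma small_lie : (primesTo 256).all smallLie = true := by decide +kernel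

theorem cross {p x i : ℕ} (hx : NonP p x) (hp : p.Prime) (hi : p ^ i ∣ x) (h1 : 1 ≤ i) :
    Good x (p ^ i) ∨ (∃ j, i ≤ j ∧ (p, x, j) ∈ CL) ∨
      ∃ s g, Val .A 2 s g ∧ s ≠ p ∧ 30 ≤ s ^ g ∧ x = ord .A 2 (s ^ g) := by
  have hx0 : 0 < x := by have := hx.ge; omega
  rw [← or_assoc]
  rcases hx with ⟨k, hk, rfl⟩ | h | ⟨t, n, s, g, hv, hs, rfl⟩
  · by_cases h2 : 40 ≤ k
    · obtain ⟨h3, h4⟩ := cross_alt h2 hp hi
      exact Or.inl (Or.inl (good_of_big h4 (by omega)))
    · have := List.all_eq_true.1 small_alt k (by rw [List.mem_range'_1]; omega)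
      rw [force_eq] at this
      exact Or.inl (pchk_sound this hx0 hp hp.ne_zero.symm hi h1)
  · exact Or.inl (pchk_sound (List.all_eq_true.1 small_spor x h) hx0 hp hp.ne_zero.symm hi h1)
  by_cases h2 : (t = .A ∧ n = 2) ∧ 30 ≤ s ^ g
  · obtain ⟨⟨rfl, rfl⟩, h3⟩ := h2
    exact Or.inr ⟨s, g, hv, hs, h3, rfl⟩
  left
  have hg := hv.hf
  have hs2 := hv.hp.two_le
  have hN := tr_le_tN hv.hS
  by_cases h3 : 2 ^ 48 < ord t n (s ^ g)
  · refine Or.inl (good_of_big h3 (cross_big hv ?_ hp hs hi h3))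
    rintro ⟨rfl, rfl⟩
    have h4 := ord_le hv.two_le hv.hS
    have h5 : (s ^ g) ^ (2 * tN .A 2 + tr .A 2) ≤ 30 ^ 3 :=
      Nat.pow_le_pow_left (by simp at h2; omega) 3
    omega
  have h4 : s ^ (g * tN t n) ≤ 2 ^ 24 := by
    have := hv.sq_le
    refine (Nat.pow_le_pow_iff_left (n := 2) (by norm_num)).1 ?_
    rw [← pow_mul, mul_assoc, mul_comm _ 2, pow_mul]
    omega
  have h5 : s ≤ 256 := by
    by_contra hc
    have h6 : s ≤ s ^ g := Nat.le_self_pow (by omega) _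
    have h7 : ¬(t = .A ∧ n = 2) := fun h => h2 ⟨h, by omega⟩
    have h8 : t ≠ .Sz := by rintro rfl; have := hv.Sz.1; omega
    have h9 : 3 ≤ tN t n := by
      have := tr_le_tN' hv.hS h7
      have hS := hv.hS
      by_cases h10 : 2 ≤ tr t n
      · omega
      · cases t <;> simp only [vS, tr, tN, decide_eq_true_eq, true_and] at * <;>
          first | omega | tauto
    have h10 : 257 ^ 3 ≤ s ^ (g * tN t n) :=
      (Nat.pow_le_pow_left (by omega) 3).trans (Nat.pow_le_pow_right (by omega) (by nlinarith))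
    omega
  have h6 : g * tN t n ≤ 24 / Nat.log2 s := by
    have h7 : 2 ^ Nat.log2 s ≤ s := Nat.log2_self_le (by omega)
    have h8 : 1 ≤ Nat.log2 s := (Nat.le_log2 (by omega)).2 (by omega)
    rw [Nat.le_div_iff_mul_le h8, mul_comm]
    have := (Nat.pow_le_pow_left h7 (g * tN t n)).trans h4
    rw [← pow_mul] at this
    exact (Nat.pow_le_pow_iff_right (by norm_num)).1 this
  have h7 := List.all_eq_true.1 small_lie s (mem_primesTo hv.hp h5 (by norm_num))
  simp only [smallLie, force_eq, List.all_eq_true] at h7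
  have h8 : tN t n < 190 := by
    have := Nat.div_le_self 24 (Nat.log2 s)
    nlinarith
  have h9 := h7 (t, n) (mem_shapes hv.hS (lt_of_tN hv.hS h8)) g (by
    rw [List.mem_range'_1]
    have : g ≤ 24 / Nat.log2 s / tN t n := (Nat.le_div_iff_mul_le (by omega)).2 h6
    simp only; omega)
  simp only [hv.hQ, Bool.not_true, Bool.false_or, Bool.or_eq_true, Bool.and_eq_true, beq_iff_eq,
    Prod.mk.injEq, decide_eq_true_eq] at h9
  rcases h9 with h9 | h9 | h9
  · exact absurd h9 h2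
  · exact absurd h9 h3
  · exact pchk_sound h9 hx0 hp hs hi h1

end Pool.Agent.Lib.MP_343319_al
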