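import Mathlib

namespace Pool.Agent.Lib.MP_343319_al

open Finset

/-- Orders of the finite simple classical groups over the field with `q` elements:
PSL_n(q), PSU_n(q), PSp_2n(q) and Omega_2n+1(q) (same order), POmega+_2n(q), POmega-_2n(q). -/
def ClassicalOrder (q x : ℕ) : Prop :=
  (∃ n, 2 ≤ n ∧ ¬(n = 2 ∧ q ≤ 3) ∧
    x = q ^ (n * (n - 1) / 2) * (∏ i ∈ Icc 2 n, (q ^ i - 1)) / Nat.gcd n (q - 1)) ∨
  (∃ n, 3 ≤ n ∧ ¬(n = 3 ∧ q = 2) ∧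
    x = q ^ (n * (n - 1) / 2) * (∏ i ∈ Icc 2 n, (if Even i then q ^ i - 1 else q ^ i + 1)) /
      Nat.gcd n (q + 1)) ∨
  (∃ n, 2 ≤ n ∧ ¬(n = 2 ∧ q = 2) ∧
    x = q ^ (n * n) * (∏ i ∈ Icc 1 n, (q ^ (2 * i) - 1)) / Nat.gcd 2 (q - 1)) ∨
  (∃ n, 4 ≤ n ∧
    x = q ^ (n * (n - 1)) * ((q ^ n - 1) * ∏ i ∈ Icc 1 (n - 1), (q ^ (2 * i) - 1)) /
      Nat.gcd 4 (q ^ n - 1)) ∨
  (∃ n, 4 ≤ n ∧
    x = q ^ (n * (n - 1)) * ((q ^ n + 1) * ∏ i ∈ Icc 1 (n - 1), (q ^ (2 * i) - 1)) /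
      Nat.gcd 4 (q ^ n + 1))

/-- Orders of the finite simple exceptional groups of Lie type with parameter `q`:
G2, F4, E6, 2E6, E7, E8, 3D4, 2B2, 2G2, 2F4. -/
def ExceptionalOrder (q x : ℕ) : Prop :=
  (3 ≤ q ∧ x = q ^ 6 * ((q ^ 2 - 1) * (q ^ 6 - 1))) ∨
  x = q ^ 24 * ((q ^ 2 - 1) * (q ^ 6 - 1) * (q ^ 8 - 1) * (q ^ 12 - 1)) ∨
  x = q ^ 36 * ((q ^ 2 - 1) * (q ^ 5 - 1) * (q ^ 6 - 1) * (q ^ 8 - 1) * (q ^ 9 - 1) *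
    (q ^ 12 - 1)) / Nat.gcd 3 (q - 1) ∨
  x = q ^ 36 * ((q ^ 2 - 1) * (q ^ 5 + 1) * (q ^ 6 - 1) * (q ^ 8 - 1) * (q ^ 9 + 1) *
    (q ^ 12 - 1)) / Nat.gcd 3 (q + 1) ∨
  x = q ^ 63 * ((q ^ 2 - 1) * (q ^ 6 - 1) * (q ^ 8 - 1) * (q ^ 10 - 1) * (q ^ 12 - 1) *
    (q ^ 14 - 1) * (q ^ 18 - 1)) / Nat.gcd 2 (q - 1) ∨
  x = q ^ 120 * ((q ^ 2 - 1) * (q ^ 8 - 1) * (q ^ 12 - 1) * (q ^ 14 - 1) * (q ^ 18 - 1) *
    (q ^ 20 - 1) * (q ^ 24 - 1) * (q ^ 30 - 1)) ∨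
  x = q ^ 12 * ((q ^ 2 - 1) * (q ^ 6 - 1) * (q ^ 8 + q ^ 4 + 1)) ∨
  ((∃ k, 1 ≤ k ∧ q = 2 ^ (2 * k + 1)) ∧ x = q ^ 2 * ((q - 1) * (q ^ 2 + 1))) ∨
  ((∃ k, 1 ≤ k ∧ q = 3 ^ (2 * k + 1)) ∧ x = q ^ 3 * ((q - 1) * (q ^ 3 + 1))) ∨
  ((∃ k, 1 ≤ k ∧ q = 2 ^ (2 * k + 1)) ∧
    x = q ^ 12 * ((q - 1) * (q ^ 3 + 1) * (q ^ 4 - 1) * (q ^ 6 + 1)))

/-- Orders of the 26 sporadic groups M11, M12, M22, M23, M24, J1, J2, J3, J4, Co3, Co2, Co1,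
Fi22, Fi23, Fi24', HS, McL, He, Ru, Suz, ON, HN, Ly, Th, B, M, and of the Tits group. -/
def sporadicOrders : List ℕ :=
  [7920, 95040, 443520, 10200960, 244823040, 175560, 604800, 50232960, 86775571046077562880,
   495766656000, 42305421312000, 4157776806543360000, 64561751654400, 4089470473293004800,
   1255205709190661721292800, 44352000, 898128000, 4030387200, 145926144000, 448345497600,
   460815505920, 273030912000000, 51765179004000000, 90745943887872000,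
   4154781481226426191177580544000000,
   808017424794512875886459904961710757005754368000000000, 17971200]

/-- The orders of the groups in the classification list of nonabelian finite simple groups. -/
def SimpleOrder (x : ℕ) : Prop :=
  (∃ n, 5 ≤ n ∧ x = n.factorial / 2) ∨
  (∃ q, IsPrimePow q ∧ (ClassicalOrder q x ∨ ExceptionalOrder q x)) ∨
  x ∈ sporadicOrders

end Pool.Agent.Lib.MP_343319_al
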