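import Pool.Agent.Lib.MP_343319_al.Zsig

namespace Pool.Agent.Lib.MP_343319_al

def facs : Ty → ℕ → List (ℕ × ℕ)
  | .A, n => (List.range' 2 (n - 1)).map fun i => (i, 0)
  | .U, n => (List.range' 2 (n - 1)).map fun i => (i, i % 2)
  | .B, n => (List.range' 1 n).map fun i => (2 * i, 0)
  | .D, n => (n, 0) :: (List.range' 1 (n - 1)).map fun i => (2 * i, 0)
  | .E, n => (n, 1) :: (List.range' 1 (n - 1)).map fun i => (2 * i, 0)
  | .G2, _ => [(2, 0), (6, 0)]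
  | .F4, _ => [(2, 0), (6, 0), (8, 0), (12, 0)]
  | .E6, _ => [(2, 0), (5, 0), (6, 0), (8, 0), (9, 0), (12, 0)]
  | .U6, _ => [(2, 0), (5, 1), (6, 0), (8, 0), (9, 1), (12, 0)]
  | .E7, _ => [(2, 0), (6, 0), (8, 0), (10, 0), (12, 0), (14, 0), (18, 0)]
  | .E8, _ => [(2, 0), (8, 0), (12, 0), (14, 0), (18, 0), (20, 0), (24, 0), (30, 0)]
  | .T4, _ => [(2, 0), (6, 0), (4, 2)]
  | .Sz, _ => [(1, 0), (2, 1)]
  | .Re, _ => [(1, 0), (3, 1)]
  | .V4, _ => [(1, 0), (3, 1), (4, 0), (6, 1)]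

def ev (q : ℕ) (s : ℕ × ℕ) : ℕ :=
  if s.2 = 0 then q ^ s.1 - 1 else if s.2 = 1 then q ^ s.1 + 1 else q ^ (2 * s.1) + q ^ s.1 + 1

def top (s : ℕ × ℕ) : ℕ := s.1 * (s.2 + 1)

def PP (Q : ℕ) (L : List ℕ) : ℕ := (L.map fun k => Q ^ k - 1).prod

def numL (t : Ty) (n f : ℕ) : List ℕ := (facs t n).map fun s => f * top s

def denL (t : Ty) (n f : ℕ) : List ℕ := ((facs t n).filter fun s => s.2 != 0).map fun s => f * s.1

def tH : Ty → ℕ → ℕ
  | .A, n => n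
  | .U, n => if n % 2 = 1 then 2 * n else 2 * (n - 1)
  | .B, n => 2 * n
  | .D, n => 2 * (n - 1)
  | .E, n => 2 * n
  | .G2, _ => 6
  | .F4, _ => 12
  | .E6, _ => 12
  | .U6, _ => 18
  | .E7, _ => 18
  | .E8, _ => 30
  | .T4, _ => 12
  | .Sz, _ => 4
  | .Re, _ => 6
  | .V4, _ => 12

def dmax : Ty → ℕ → ℕ
  | .A, n => n
  | .U, n => n
  | .B, _ => 2
  | .D, _ => 4
  | .E, _ => 4
  | .E6, _ => 3
  | .U6, _ => 3
  | .E7, _ => 2
  | _, _ => 1

def inOm (e : ℕ) (t : Ty) (n f : ℕ) : Bool :=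
  (facs t n).any fun s => (f * top s) % e == 0 && (s.2 == 0 || (f * s.1) % e != 0)

@[simp] lemma PP_nil (Q : ℕ) : PP Q [] = 1 := rfl
@[simp] lemma PP_cons (Q k : ℕ) (L : List ℕ) : PP Q (k :: L) = (Q ^ k - 1) * PP Q L := by
  simp [PP]
lemma PP_append (Q : ℕ) (L L' : List ℕ) : PP Q (L ++ L') = PP Q L * PP Q L' := by
  simp [PP]

lemma PP_pos {Q : ℕ} (hQ : 2 ≤ Q) {L : List ℕ} (h : ∀ k ∈ L, 1 ≤ k) : 0 < PP Q L := by
  induction L with
  | nil => simp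
  | cons k L ih =>
    rw [PP_cons]
    exact Nat.mul_pos (pow_sub_one_pos hQ (h k (by simp))) (ih fun j hj => h j (by simp [hj]))

lemma pA_facs (q k : ℕ) : pA q k = (((List.range' 2 k).map fun i => (i, 0)).map (ev q)).prod := by
  induction k with
  | zero => rfl
  | succ k ih =>
    rw [pA, List.range'_concat, List.map_append, List.map_append, List.prod_append, ← ih]
    simp [ev, add_comm]

lemma pU_facs (q k : ℕ) :
    pU q k = (((List.range' 2 k).map fun i => (i, i % 2)).map (ev q)).prod := by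
  induction k with
  | zero => rfl
  | succ k ih =>
    rw [pU, List.range'_concat, List.map_append, List.map_append, List.prod_append, ← ih]
    congr 1
    simp only [ev, one_mul, List.map_cons, List.map_nil, List.prod_cons, List.prod_nil, mul_one]
    rw [add_comm 2 k]
    by_cases h : k % 2 = 0
    · rw [if_pos h, if_pos (by omega)]
    · rw [if_neg h, if_neg (by omega), if_pos (by omega)]

lemma pB_facs (q k : ℕ) :
    pB q k = (((List.range' 1 k).map fun i => (2 * i, 0)).map (ev q)).prod := by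
  induction k with
  | zero => rfl
  | succ k ih =>
    rw [pB, List.range'_concat, List.map_append, List.map_append, List.prod_append, ← ih]
    simp [ev, add_comm]

lemma tR_facs (t : Ty) (n q : ℕ) : tR t n q = ((facs t n).map (ev q)).prod := by
  cases t <;> simp only [tR, facs]
  · exact pA_facs _ _
  · exact pU_facs _ _
  · exact pB_facs _ _
  · rw [List.map_cons, List.prod_cons, ← pB_facs]; rfl
  · rw [List.map_cons, List.prod_cons, ← pB_facs]; rfl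
  all_goals simp [ev, mul_assoc]

lemma mem_facs_A {n : ℕ} {s : ℕ × ℕ} : s ∈ facs .A n ↔ ∃ i, 2 ≤ i ∧ i ≤ n ∧ s = (i, 0) := by
  simp only [facs, List.mem_map, List.mem_range'_1]
  constructor
  · rintro ⟨i, h, rfl⟩; exact ⟨i, by omega, by omega, rfl⟩
  · rintro ⟨i, h1, h2, rfl⟩; exact ⟨i, by omega, rfl⟩

lemma mem_facs_U {n : ℕ} {s : ℕ × ℕ} : s ∈ facs .U n ↔ ∃ i, 2 ≤ i ∧ i ≤ n ∧ s = (i, i % 2) := by
  simp only [facs, List.mem_map, List.mem_range'_1]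
  constructor
  · rintro ⟨i, h, rfl⟩; exact ⟨i, by omega, by omega, rfl⟩
  · rintro ⟨i, h1, h2, rfl⟩; exact ⟨i, by omega, rfl⟩

lemma mem_facs_B {n : ℕ} {s : ℕ × ℕ} : s ∈ facs .B n ↔ ∃ i, 1 ≤ i ∧ i ≤ n ∧ s = (2 * i, 0) := by
  simp only [facs, List.mem_map, List.mem_range'_1]
  constructor
  · rintro ⟨i, h, rfl⟩; exact ⟨i, by omega, by omega, rfl⟩
  · rintro ⟨i, h1, h2, rfl⟩; exact ⟨i, by omega, rfl⟩

lemma mem_facs_D {n : ℕ} {s : ℕ × ℕ} :
    s ∈ facs .D n ↔ s = (n, 0) ∨ ∃ i, 1 ≤ i ∧ i + 1 ≤ n ∧ s = (2 * i, 0) := by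
  simp only [facs, List.mem_cons, List.mem_map, List.mem_range'_1]
  refine or_congr Iff.rfl ?_
  constructor
  · rintro ⟨i, h, rfl⟩; exact ⟨i, by omega, by omega, rfl⟩
  · rintro ⟨i, h1, h2, rfl⟩; exact ⟨i, by omega, rfl⟩

lemma mem_facs_E {n : ℕ} {s : ℕ × ℕ} :
    s ∈ facs .E n ↔ s = (n, 1) ∨ ∃ i, 1 ≤ i ∧ i + 1 ≤ n ∧ s = (2 * i, 0) := by
  simp only [facs, List.mem_cons, List.mem_map, List.mem_range'_1]
  refine or_congr Iff.rfl ?_
  constructor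
  · rintro ⟨i, h, rfl⟩; exact ⟨i, by omega, by omega, rfl⟩
  · rintro ⟨i, h1, h2, rfl⟩; exact ⟨i, by omega, rfl⟩

lemma facs_prop {t : Ty} {n : ℕ} (h : vS t n = true) {s : ℕ × ℕ} (hs : s ∈ facs t n) :
    1 ≤ s.1 ∧ s.2 ≤ 2 ∧ top s ≤ tH t n := by
  cases t <;> simp only [vS, decide_eq_true_eq] at h
  · obtain ⟨i, h1, h2, rfl⟩ := mem_facs_A.1 hs; simp [top, tH]; omega
  · obtain ⟨i, h1, h2, rfl⟩ := mem_facs_U.1 hs
    simp only [top, tH]
    rcases Nat.mod_two_eq_zero_or_one i with h3 | h3 <;> rw [h3] <;> split_ifs <;> omega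
  · obtain ⟨i, h1, h2, rfl⟩ := mem_facs_B.1 hs; simp [top, tH]; omega
  · rcases mem_facs_D.1 hs with rfl | ⟨i, h1, h2, rfl⟩ <;> simp [top, tH] <;> omega
  · rcases mem_facs_E.1 hs with rfl | ⟨i, h1, h2, rfl⟩ <;> simp [top, tH] <;> omega
  all_goals
    revert s
    simp only [facs, tH]
    decide

lemma exists_top {t : Ty} {n : ℕ} (h : vS t n = true) : ∃ s ∈ facs t n, top s = tH t n := by
  cases t <;> simp only [vS, decide_eq_true_eq] at h
  · exact ⟨(n, 0), mem_facs_A.2 ⟨n, h, le_rfl, rfl⟩, by simp [top, tH]⟩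
  · by_cases h1 : n % 2 = 1
    · exact ⟨(n, 1), mem_facs_U.2 ⟨n, by omega, le_rfl, by rw [h1]⟩, by simp [top, tH, h1]; omega⟩
    · exact ⟨(n - 1, 1), mem_facs_U.2 ⟨n - 1, by omega, by omega, by
        rw [show (n - 1) % 2 = 1 by omega]⟩, by simp [top, tH, h1]; omega⟩
  · exact ⟨(2 * n, 0), mem_facs_B.2 ⟨n, by omega, le_rfl, rfl⟩, by simp [top, tH]⟩
  · exact ⟨(2 * (n - 1), 0), mem_facs_D.2 (Or.inr ⟨n - 1, by omega, by omega, rfl⟩),
      by simp [top, tH]⟩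
  · exact ⟨(n, 1), mem_facs_E.2 (Or.inl rfl), by simp [top, tH]; omega⟩
  all_goals
    simp only [facs, tH]
    decide

lemma ev_mul {q : ℕ} (hq : 1 ≤ q) {s : ℕ × ℕ} (h : s.2 ≤ 2) (h0 : s.2 ≠ 0) :
    ev q s * (q ^ s.1 - 1) = q ^ top s - 1 := by
  obtain ⟨d, k⟩ := s
  simp only [ev, top] at *
  have h1 : 1 ≤ q ^ d := Nat.one_le_pow _ _ hq
  obtain ⟨c, hc⟩ : ∃ c, q ^ d = c + 1 := ⟨q ^ d - 1, by omega⟩
  rw [if_neg h0, mul_comm 2 d, pow_mul, pow_mul, hc]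
  interval_cases k
  · omega
  · simp only [if_true, Nat.add_sub_cancel]
    have : (c + 1) ^ (1 + 1) = (c + 1 + 1) * c + 1 := by ring
    omega
  · rw [if_neg (by norm_num)]
    simp only [Nat.add_sub_cancel]
    have : (c + 1) ^ (2 + 1) = ((c + 1) ^ 2 + (c + 1) + 1) * c + 1 := by ring
    omega

lemma ev_zero {q : ℕ} {s : ℕ × ℕ} (h0 : s.2 = 0) : ev q s = q ^ top s - 1 := by
  simp [ev, top, h0]

lemma ev_dvd {q : ℕ} (hq : 1 ≤ q) {s : ℕ × ℕ} (h : s.2 ≤ 2) : ev q s ∣ q ^ top s - 1 := by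
  by_cases h0 : s.2 = 0
  · rw [ev_zero h0]
  · exact Dvd.intro _ (ev_mul hq h h0)

lemma prod_ev_mul {Q f : ℕ} (hQ : 1 ≤ Q) (L : List (ℕ × ℕ)) (h : ∀ s ∈ L, s.2 ≤ 2) :
    (L.map (ev (Q ^ f))).prod * PP Q ((L.filter fun s => s.2 != 0).map fun s => f * s.1) =
      PP Q (L.map fun s => f * top s) := by
  induction L with
  | nil => simp
  | cons s L ih =>
    have ih' := ih fun u hu => h u (by simp [hu])
    rw [List.map_cons, List.prod_cons, List.map_cons, PP_cons, ← ih', pow_mul]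
    by_cases h0 : s.2 = 0
    · rw [List.filter_cons_of_neg (by simp [h0]), ev_zero h0, mul_assoc]
    · rw [List.filter_cons_of_pos (by simp [h0]), List.map_cons, PP_cons, pow_mul,
        ← ev_mul (Nat.one_le_pow _ _ hQ) (h s (by simp)) h0]
      ring

lemma tR_mul {Q f : ℕ} (hQ : 1 ≤ Q) {t : Ty} {n : ℕ} (h : vS t n = true) :
    tR t n (Q ^ f) * PP Q (denL t n f) = PP Q (numL t n f) := by
  rw [tR_facs]
  exact prod_ev_mul hQ _ fun s hs => (facs_prop h hs).2.1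

lemma top_pos {s : ℕ × ℕ} (h : 1 ≤ s.1) : 1 ≤ top s := Nat.mul_pos h (by omega)

lemma numL_pos {t : Ty} {n f : ℕ} (h : vS t n = true) (hf : 1 ≤ f) : ∀ k ∈ numL t n f, 1 ≤ k := by
  intro k hk
  obtain ⟨s, hs, rfl⟩ := List.mem_map.1 hk
  exact Nat.mul_pos hf (top_pos (facs_prop h hs).1)

lemma denL_pos {t : Ty} {n f : ℕ} (h : vS t n = true) (hf : 1 ≤ f) : ∀ k ∈ denL t n f, 1 ≤ k := by
  intro k hk
  obtain ⟨s, hs, rfl⟩ := List.mem_map.1 hk
  exact Nat.mul_pos hf (facs_prop h (List.mem_of_mem_filter hs)).1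

lemma inOm_iff {e : ℕ} {t : Ty} {n f : ℕ} :
    inOm e t n f = true ↔ ∃ s ∈ facs t n, e ∣ f * top s ∧ (s.2 = 0 ∨ ¬e ∣ f * s.1) := by
  simp only [inOm, List.any_eq_true, Bool.and_eq_true, beq_iff_eq, Bool.or_eq_true, bne_iff_ne,
    ne_eq, Nat.dvd_iff_mod_eq_zero]

lemma IsPP.five_le {Q e l : ℕ} (h : IsPP Q e l) (hQ : 1 ≤ Q) (he : 3 ≤ e) : 5 ≤ l := by
  have h1 := h.lt hQ (by omega)
  rcases h.1.eq_two_or_odd with h2 | h2 <;> omega

lemma IsPP.dvd_tR_iff {Q e l : ℕ} (h : IsPP Q e l) (hQ : 1 ≤ Q) (he : 3 ≤ e) {t : Ty} {n f : ℕ}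
    (hS : vS t n = true) : l ∣ tR t n (Q ^ f) ↔ inOm e t n f = true := by
  have hq : 1 ≤ Q ^ f := Nat.one_le_pow _ _ hQ
  have h5 := h.five_le hQ he
  rw [tR_facs, inOm_iff, Prime.dvd_prod_iff h.1.prime]
  constructor
  · rintro ⟨a, ha, hd⟩
    obtain ⟨s, hs, rfl⟩ := List.mem_map.1 ha
    have hk := (facs_prop hS hs).2.1
    refine ⟨s, hs, ?_, ?_⟩
    · rw [← h.2, pow_mul]; exact hd.trans (ev_dvd hq hk)
    · by_contra hc
      push Not at hc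
      have h1 : l ∣ (Q ^ f) ^ s.1 - 1 := by rw [← pow_mul, h.2]; exact hc.2
      have h2 : 1 ≤ (Q ^ f) ^ s.1 := Nat.one_le_pow _ _ hq
      simp only [ev, if_neg hc.1] at hd
      rw [mul_comm 2, pow_mul] at hd
      obtain ⟨c, hc'⟩ : ∃ c, (Q ^ f) ^ s.1 = c + 1 := ⟨_, (Nat.sub_add_cancel h2).symm⟩
      rw [hc'] at hd h1
      simp only [Nat.add_sub_cancel] at h1
      split_ifs at hd
      · have : l ∣ 2 := (Nat.dvd_add_right h1).1 hd
        have := Nat.le_of_dvd (by norm_num) this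
        omega
      · have e : (c + 1) ^ 2 + (c + 1) + 1 = c * (c + 3) + 3 := by ring
        rw [e] at hd
        have : l ∣ 3 := (Nat.dvd_add_right (Dvd.dvd.mul_right h1 _)).1 hd
        have := Nat.le_of_dvd (by norm_num) this
        omega
  · rintro ⟨s, hs, h1, h2⟩
    refine ⟨_, List.mem_map.2 ⟨s, hs, rfl⟩, ?_⟩
    have hk := (facs_prop hS hs).2.1
    rw [← h.2, pow_mul] at h1
    rcases h2 with h2 | h2
    · rwa [ev_zero h2]
    · by_cases h0 : s.2 = 0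
      · rwa [ev_zero h0]
      · rw [← ev_mul hq hk h0] at h1
        rw [← h.2, pow_mul] at h2
        exact ((Nat.Prime.dvd_mul h.1).1 h1).resolve_right h2

lemma td_le_dmax {t : Ty} {n : ℕ} (h : vS t n = true) (q : ℕ) : td t n q ≤ dmax t n := by
  cases t <;> simp only [vS, decide_eq_true_eq, td, dmax] at h ⊢ <;>
    first | exact Nat.gcd_le_left _ (by omega) | exact le_rfl

lemma IsPP.not_dvd_td {Q e l : ℕ} (h : IsPP Q e l) (hQ : 1 ≤ Q) (he : 3 ≤ e) {t : Ty} {n f : ℕ}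
    (hS : vS t n = true) (hc : dmax t n ≤ 4 ∨ ¬e ∣ 2 * f) : ¬l ∣ td t n (Q ^ f) := by
  intro hd
  have h5 := h.five_le hQ he
  have h1 := Nat.le_of_dvd (td_pos hS) hd
  have h2 := td_le_dmax hS (Q ^ f)
  rcases hc with hc | hc
  · omega
  apply hc
  rw [← h.2, mul_comm, pow_mul]
  cases t <;> simp only [dmax, td] at h1 h2 hd <;> try omega
  · exact (hd.trans (Nat.gcd_dvd_right _ _)).trans (sub_dvd_sq _)
  · exact (hd.trans (Nat.gcd_dvd_right _ _)).trans (add_dvd_sq _)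

lemma IsPP.inOm_of_dvd {Q e l : ℕ} (h : IsPP Q e l) (hQ : 1 ≤ Q) (he : 3 ≤ e) {t : Ty} {n f : ℕ}
    (hS : vS t n = true) (hd : l ∣ ord t n (Q ^ f)) : inOm e t n f = true := by
  rw [← h.dvd_tR_iff hQ he hS]
  have h1 : l ∣ (Q ^ f) ^ tN t n * tR t n (Q ^ f) := by
    rw [← td_mul_ord hS]; exact Dvd.dvd.mul_left hd _
  refine ((Nat.Prime.dvd_mul h.1).1 h1).resolve_left fun h2 => ?_
  exact h.not_dvd hQ (by omega) (h.1.dvd_of_dvd_pow (h.1.dvd_of_dvd_pow h2))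

lemma IsPP.dvd_of_inOm {Q e l : ℕ} (h : IsPP Q e l) (hQ : 1 ≤ Q) (he : 3 ≤ e) {t : Ty} {n f : ℕ}
    (hS : vS t n = true) (hc : dmax t n ≤ 4 ∨ ¬e ∣ 2 * f) (hd : inOm e t n f = true) :
    l ∣ ord t n (Q ^ f) := by
  rw [← h.dvd_tR_iff hQ he hS] at hd
  have h1 : l ∣ td t n (Q ^ f) * ord t n (Q ^ f) := by
    rw [td_mul_ord hS]; exact Dvd.dvd.mul_left hd _
  exact ((Nat.Prime.dvd_mul h.1).1 h1).resolve_left (h.not_dvd_td hQ he hS hc)

lemma inOm_top {t : Ty} {n f : ℕ} (hS : vS t n = true) (hf : 1 ≤ f) {s : ℕ × ℕ}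
    (hs : s ∈ facs t n) : inOm (f * top s) t n f = true := by
  rw [inOm_iff]
  refine ⟨s, hs, dvd_rfl, ?_⟩
  by_cases h0 : s.2 = 0
  · exact Or.inl h0
  · refine Or.inr fun hd => ?_
    have h1 := (facs_prop hS hs).1
    have h2 := Nat.le_of_dvd (Nat.mul_pos hf h1) hd
    have h3 : s.1 < top s := by
      have : s.1 * 2 ≤ s.1 * (s.2 + 1) := Nat.mul_le_mul_left _ (by omega)
      simp only [top]; omega
    have := Nat.mul_lt_mul_of_pos_left h3 hf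
    omega

lemma inOm_le {e : ℕ} {t : Ty} {n f : ℕ} (hS : vS t n = true) (hf : 1 ≤ f)
    (h : inOm e t n f = true) : e ≤ f * tH t n := by
  obtain ⟨s, hs, h1, -⟩ := inOm_iff.1 h
  have h2 := facs_prop hS hs
  exact (Nat.le_of_dvd (Nat.mul_pos hf (top_pos h2.1)) h1).trans (Nat.mul_le_mul_left _ h2.2.2)

/-- transfer of primitive exponents along divisibility of orders -/
lemma om_incl {Q e : ℕ} (hQ : 2 ≤ Q) (he : 3 ≤ e) (h26 : ¬(Q = 2 ∧ e = 6)) {t t' : Ty}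
    {n f n' f' : ℕ} (hS : vS t n = true) (hS' : vS t' n' = true)
    (hd : ord t n (Q ^ f) ∣ ord t' n' (Q ^ f')) (hc : dmax t n ≤ 4 ∨ ¬e ∣ 2 * f)
    (h : inOm e t n f = true) : inOm e t' n' f' = true := by
  obtain ⟨l, hl⟩ := zsigmondy hQ he h26
  exact hl.inOm_of_dvd (by omega) he hS' ((hl.dvd_of_inOm (by omega) he hS hc h).trans hd)

lemma om_split {Q e : ℕ} (hQ : 2 ≤ Q) (he : 3 ≤ e) (h26 : ¬(Q = 2 ∧ e = 6)) {t t1 t2 : Ty}
    {n f n1 f1 n2 f2 : ℕ} (hS : vS t n = true) (hS1 : vS t1 n1 = true) (hS2 : vS t2 n2 = true)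
    (hd : ord t1 n1 (Q ^ f1) * ord t2 n2 (Q ^ f2) = ord t n (Q ^ f))
    (hc : dmax t n ≤ 4 ∨ ¬e ∣ 2 * f) (h : inOm e t n f = true) :
    inOm e t1 n1 f1 = true ∨ inOm e t2 n2 f2 = true := by
  obtain ⟨l, hl⟩ := zsigmondy hQ he h26
  have := hl.dvd_of_inOm (by omega) he hS hc h
  rw [← hd] at this
  rcases (Nat.Prime.dvd_mul hl.1).1 this with h1 | h1
  · exact Or.inl (hl.inOm_of_dvd (by omega) he hS1 h1)
  · exact Or.inr (hl.inOm_of_dvd (by omega) he hS2 h1)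

end Pool.Agent.Lib.MP_343319_al
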