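import Pool.Agent.Lib.MP_343319_al.NotNP

namespace Pool.Agent.Lib.MP_343319_al

lemma not_dvd_tR {p q : ℕ} (hp : p.Prime) (hq : 1 ≤ q) (h : p ∣ q) {t : Ty} {n : ℕ}
    (hS : vS t n = true) : ¬p ∣ tR t n q := by
  rw [tR_facs, Prime.dvd_prod_iff hp.prime]
  rintro ⟨a, ha, hd⟩
  obtain ⟨s, hs, rfl⟩ := List.mem_map.1 ha
  have h1 := facs_prop hS hs
  exact not_dvd_of_dvd_sub hp (Nat.one_le_pow _ _ hq) (hd.trans (ev_dvd hq h1.2.1))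
    (dvd_pow h (by have := top_pos h1.1; omega))

lemma Val.val_ord {t : Ty} {n p f : ℕ} (hv : Val t n p f) :
    padicValNat p (ord t n (p ^ f)) = f * tN t n := by
  haveI := Fact.mk hv.hp
  have h1 := not_dvd_tR hv.hp (pow_pos hv.hp.pos f) (dvd_pow_self p (by have := hv.hf; omega)) hv.hS
  have h2 : ¬p ∣ tR t n (p ^ f) / td t n (p ^ f) := fun h =>
    h1 (h.trans (Nat.div_dvd_of_dvd (td_dvd hv.hS)))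
  rw [ord_eq hv.hS, padicValNat.mul (pow_pos (pow_pos hv.hp.pos f) _).ne' (by
    rintro h; rw [h] at h2; exact h2 (dvd_zero _)), padicValNat.eq_zero_of_not_dvd h2, ← pow_mul,
    padicValNat.prime_pow, add_zero]

def omOK (t : Ty) (n f : ℕ) (t' : Ty) (n' g : ℕ) : Bool :=
  (facs t' n').all fun s => force (g * top s) fun e => decide (e < 3) || e == 6 ||
    (decide (top s < 3) && decide (4 < dmax t' n')) || inOm e t n f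

lemma top_cond {g k : ℕ} (hg : 1 ≤ g) (hk : 3 ≤ k) : ¬g * k ∣ 2 * g := by
  intro h
  have := Nat.le_of_dvd (by omega) h
  nlinarith

lemma omOK_of_dvd {Q : ℕ} (hQ : 2 ≤ Q) {t t' : Ty} {n f n' g : ℕ} (hS : vS t n = true)
    (hS' : vS t' n' = true) (hg : 1 ≤ g) (hd : ord t' n' (Q ^ g) ∣ ord t n (Q ^ f)) :
    omOK t n f t' n' g = true := by
  simp only [omOK, List.all_eq_true, force_eq, Bool.or_eq_true, decide_eq_true_eq, beq_iff_eq,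
    Bool.and_eq_true]
  intro s hs
  by_contra hc
  push Not at hc
  obtain ⟨⟨⟨h1, h2⟩, h3⟩, h4⟩ := hc
  refine h4 (om_incl hQ h1 (fun h => h2 h.2) hS' hS hd ?_ (inOm_top hS' hg hs))
  by_cases h5 : top s < 3
  · exact Or.inl (h3 h5)
  · exact Or.inr (top_cond hg (by omega))

lemma exists_fac {t : Ty} {m i : ℕ} (ht : Cl t) (h1 : 3 ≤ i) (h2 : i + 1 ≤ m) (ho : i % 2 = 1) :
    ∃ s ∈ facs t m, top s = (if t = .A then 1 else 2) * i := by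
  rcases ht with rfl | rfl | rfl | rfl | rfl
  · exact ⟨_, mem_facs_A.2 ⟨i, by omega, by omega, rfl⟩, by simp [top]⟩
  · exact ⟨_, mem_facs_U.2 ⟨i, by omega, by omega, rfl⟩, by simp [top, ho]; omega⟩
  · exact ⟨_, mem_facs_B.2 ⟨i, by omega, by omega, rfl⟩, by simp [top]⟩
  · exact ⟨_, mem_facs_D.2 (Or.inr ⟨i, by omega, by omega, rfl⟩), by simp [top]⟩
  · exact ⟨_, mem_facs_E.2 (Or.inr ⟨i, by omega, by omega, rfl⟩), by simp [top]⟩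

lemma prime_top {t : Ty} {n l : ℕ} (hS : vS t n = true) (hn : n ≤ 24) (hl : l.Prime) (h29 : 25 ≤ l)
    {s : ℕ × ℕ} (hs : s ∈ facs t n) : ¬l ∣ top s := by
  intro hd
  have h1 := facs_prop hS hs
  have h2 : s.1 ≤ 24 ∨ (s.1 % 2 = 0 ∧ s.1 ≤ 48) := by
    cases t <;> simp only [vS, decide_eq_true_eq] at hS
    · obtain ⟨i, a, b, rfl⟩ := mem_facs_A.1 hs; simp; omega
    · obtain ⟨i, a, b, rfl⟩ := mem_facs_U.1 hs; simp; omega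
    · obtain ⟨i, a, b, rfl⟩ := mem_facs_B.1 hs; simp; omega
    · rcases mem_facs_D.1 hs with rfl | ⟨i, a, b, rfl⟩ <;> simp <;> omega
    · rcases mem_facs_E.1 hs with rfl | ⟨i, a, b, rfl⟩ <;> simp <;> omega
    all_goals
      clear hd h1
      revert s
      simp only [facs]
      decide
  rcases (Nat.Prime.dvd_mul hl).1 hd with h3 | h3
  · rcases h2 with h2 | ⟨h2, h4⟩
    · have := Nat.le_of_dvd h1.1 h3; omega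
    · obtain ⟨c, hc⟩ := Nat.dvd_of_mod_eq_zero h2
      rw [hc] at h3
      rcases (Nat.Prime.dvd_mul hl).1 h3 with h5 | h5 <;>
        have := Nat.le_of_dvd (by omega) h5 <;> omega
  · have := Nat.le_of_dvd (by omega) h3; omega

lemma lam1 {Q : ℕ} (hQ : 2 ≤ Q) {t t' : Ty} {n f m g l : ℕ} (hS : vS t n = true) (hn : n ≤ 24)
    (hS' : vS t' m = true) (hg : 1 ≤ g) (hd : ord t' m (Q ^ g) ∣ ord t n (Q ^ f)) (hl : l.Prime)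
    (h25 : 25 ≤ l) (hm : l + 1 ≤ m) : ∃ j, ¬l ∣ j ∧ g * l ∣ f * j := by
  obtain ⟨s, hs, h1⟩ := exists_fac (cl_of_pos hS' (by omega)) (show 3 ≤ l by omega) hm
    (by rcases hl.eq_two_or_odd with h | h <;> omega)
  have h2 : l ≤ top s := by rw [h1]; split_ifs <;> omega
  have h3 : l ≤ g * top s := h2.trans (Nat.le_mul_of_pos_left _ hg)
  have h4 := om_incl hQ (show 3 ≤ g * top s by omega) (by omega) hS' hS hd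
    (Or.inr (top_cond hg (by omega))) (inOm_top hS' hg hs)
  obtain ⟨s', hs', h5, -⟩ := inOm_iff.1 h4
  refine ⟨top s', prime_top hS hn hl h25 hs', dvd_trans ?_ h5⟩
  rw [h1]
  exact Nat.mul_dvd_mul_left _ (Dvd.intro_left _ rfl)

lemma six_dvd {X : ℕ} (a1 : 29 ∣ X) (a2 : 31 ∣ X) (a3 : 37 ∣ X) (a4 : 41 ∣ X) (a5 : 43 ∣ X)
    (a6 : 47 ∣ X) : 2756205443 ∣ X := by
  have b1 : 899 ∣ X := Nat.Coprime.mul_dvd_of_dvd_of_dvd (by decide +kernel) a1 a2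
  have b2 : 33263 ∣ X := Nat.Coprime.mul_dvd_of_dvd_of_dvd (by decide +kernel) b1 a3
  have b3 : 1363783 ∣ X := Nat.Coprime.mul_dvd_of_dvd_of_dvd (by decide +kernel) b2 a4
  have b4 : 58642669 ∣ X := Nat.Coprime.mul_dvd_of_dvd_of_dvd (by decide +kernel) b3 a5
  exact Nat.Coprime.mul_dvd_of_dvd_of_dvd (by decide +kernel) b4 a6

lemma lam2 {m X : ℕ} (hm : 48 ≤ m) (hX : 0 < X)
    (h : ∀ l, l.Prime → 25 ≤ l → l + 1 ≤ m → l ∣ X) : 100 * (m * m) < X := by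
  by_cases h1 : m ≤ 5000
  · have hm' : ∀ c, c ≤ 47 → c + 1 ≤ m := fun c hc => by omega
    have b5 := Nat.le_of_dvd hX (six_dvd
      (h 29 (by norm_num) (by norm_num) (hm' _ (by norm_num)))
      (h 31 (by norm_num) (by norm_num) (hm' _ (by norm_num)))
      (h 37 (by norm_num) (by norm_num) (hm' _ (by norm_num)))
      (h 41 (by norm_num) (by norm_num) (hm' _ (by norm_num)))
      (h 43 (by norm_num) (by norm_num) (hm' _ (by norm_num)))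
      (h 47 (by norm_num) (by norm_num) (hm' _ (by norm_num))))
    have := Nat.mul_le_mul h1 h1
    omega
  · obtain ⟨k, hk⟩ : ∃ k, k = (m - 1) / 8 := ⟨_, rfl⟩
    obtain ⟨p1, hp1, a1, b1⟩ := Nat.exists_prime_lt_and_le_two_mul k (by omega)
    obtain ⟨p2, hp2, a2, b2⟩ := Nat.exists_prime_lt_and_le_two_mul (2 * k) (by omega)
    obtain ⟨p3, hp3, a3, b3⟩ := Nat.exists_prime_lt_and_le_two_mul (4 * k) (by omega)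
    have r1 : 25 ≤ p1 ∧ p1 + 1 ≤ m := by clear h; omega
    have r2 : 25 ≤ p2 ∧ p2 + 1 ≤ m := by clear h; omega
    have r3 : 25 ≤ p3 ∧ p3 + 1 ≤ m := by clear h; omega
    have r0 : 29 + 1 ≤ m := by clear h; omega
    have c0 := h 29 (by norm_num) (by norm_num) r0
    have c1 := h p1 hp1 r1.1 r1.2
    have c2 := h p2 hp2 r2.1 r2.2
    have c3 := h p3 hp3 r3.1 r3.2
    clear h
    have p29 : Nat.Prime 29 := by norm_num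
    have d1 := Nat.Coprime.mul_dvd_of_dvd_of_dvd ((Nat.coprime_primes p29 hp1).2 (by omega)) c0 c1
    have d2 := Nat.Coprime.mul_dvd_of_dvd_of_dvd (Nat.Coprime.mul_left
      ((Nat.coprime_primes p29 hp2).2 (by omega)) ((Nat.coprime_primes hp1 hp2).2 (by omega))) d1 c2
    have d3 := Nat.Coprime.mul_dvd_of_dvd_of_dvd (Nat.Coprime.mul_left (Nat.Coprime.mul_left
      ((Nat.coprime_primes p29 hp3).2 (by omega)) ((Nat.coprime_primes hp1 hp3).2 (by omega)))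
      ((Nat.coprime_primes hp2 hp3).2 (by omega))) d2 c3
    have e1 := Nat.le_of_dvd hX d3
    have e2 : 29 * k * (2 * k) * (4 * k) ≤ 29 * p1 * p2 * p3 := by gcongr
    have e3 : m * m ≤ (9 * k) * (9 * k) := Nat.mul_le_mul (by omega) (by omega)
    have e4 : 624 * (k * k) ≤ k * (k * k) := Nat.mul_le_mul_right _ (by omega)
    have e5 : 0 < k * k := Nat.mul_pos (by omega) (by omega)
    nlinarith

structure Sh : Type where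
  t : Ty
  n : ℕ
  N : ℕ
  r : ℕ
  H : ℕ
  P : ℕ
  deriving DecidableEq

def PRs : List ℕ := [5, 7, 11, 13, 17, 19, 23, 29, 31, 37, 41, 43]

def piS (t : Ty) (n : ℕ) : ℕ := (PRs.filter fun l => (facs t n).any fun s => top s % l == 0).prod

def mkSh (t : Ty) (n : ℕ) : Sh := ⟨t, n, tN t n, tr t n, tH t n, piS t n⟩

def shapesTo (k : ℕ) : List (Ty × ℕ) :=
  ((List.range' 2 (k - 1)).map fun n => (Ty.A, n)) ++ ((List.range' 3 (k - 2)).map fun n => (Ty.U, n)) ++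
  ((List.range' 2 (k - 1)).map fun n => (Ty.B, n)) ++ ((List.range' 4 (k - 3)).map fun n => (Ty.D, n)) ++
  ((List.range' 4 (k - 3)).map fun n => (Ty.E, n)) ++
  [(Ty.G2, 0), (Ty.F4, 0), (Ty.E6, 0), (Ty.U6, 0), (Ty.E7, 0), (Ty.E8, 0), (Ty.T4, 0), (Ty.Sz, 0),
    (Ty.Re, 0), (Ty.V4, 0)]

lemma mem_shapesTo {t : Ty} {n k : ℕ} (h : vS t n = true) (hn : n ≤ k) : (t, n) ∈ shapesTo k := by
  cases t <;> simp only [vS, decide_eq_true_eq] at h <;>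
    simp [shapesTo, List.mem_range'_1] <;> omega

def shT : List Sh :=
  [⟨.A, 2, 1, 1, 2, 1⟩, ⟨.A, 3, 3, 2, 3, 1⟩, ⟨.A, 4, 6, 3, 4, 1⟩, ⟨.A, 5, 10, 4, 5, 5⟩,
   ⟨.A, 6, 15, 5, 6, 5⟩, ⟨.A, 7, 21, 6, 7, 35⟩, ⟨.A, 8, 28, 7, 8, 35⟩, ⟨.A, 9, 36, 8, 9, 35⟩,
   ⟨.A, 10, 45, 9, 10, 35⟩, ⟨.A, 11, 55, 10, 11, 385⟩, ⟨.A, 12, 66, 11, 12, 385⟩,
   ⟨.A, 13, 78, 12, 13, 5005⟩, ⟨.A, 14, 91, 13, 14, 5005⟩, ⟨.A, 15, 105, 14, 15, 5005⟩,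
   ⟨.A, 16, 120, 15, 16, 5005⟩, ⟨.A, 17, 136, 16, 17, 85085⟩, ⟨.A, 18, 153, 17, 18, 85085⟩,
   ⟨.A, 19, 171, 18, 19, 1616615⟩, ⟨.A, 20, 190, 19, 20, 1616615⟩,
   ⟨.A, 21, 210, 20, 21, 1616615⟩, ⟨.A, 22, 231, 21, 22, 1616615⟩,
   ⟨.A, 23, 253, 22, 23, 37182145⟩, ⟨.A, 24, 276, 23, 24, 37182145⟩,
   ⟨.A, 25, 300, 24, 25, 37182145⟩, ⟨.A, 26, 325, 25, 26, 37182145⟩,
   ⟨.A, 27, 351, 26, 27, 37182145⟩, ⟨.A, 28, 378, 27, 28, 37182145⟩,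
   ⟨.A, 29, 406, 28, 29, 1078282205⟩, ⟨.A, 30, 435, 29, 30, 1078282205⟩,
   ⟨.A, 31, 465, 30, 31, 33426748355⟩, ⟨.A, 32, 496, 31, 32, 33426748355⟩,
   ⟨.A, 33, 528, 32, 33, 33426748355⟩, ⟨.A, 34, 561, 33, 34, 33426748355⟩,
   ⟨.A, 35, 595, 34, 35, 33426748355⟩, ⟨.A, 36, 630, 35, 36, 33426748355⟩,
   ⟨.A, 37, 666, 36, 37, 1236789689135⟩, ⟨.A, 38, 703, 37, 38, 1236789689135⟩,
   ⟨.A, 39, 741, 38, 39, 1236789689135⟩, ⟨.A, 40, 780, 39, 40, 1236789689135⟩,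
   ⟨.A, 41, 820, 40, 41, 50708377254535⟩, ⟨.A, 42, 861, 41, 42, 50708377254535⟩,
   ⟨.A, 43, 903, 42, 43, 2180460221945005⟩, ⟨.A, 44, 946, 43, 44, 2180460221945005⟩,
   ⟨.A, 45, 990, 44, 45, 2180460221945005⟩, ⟨.A, 46, 1035, 45, 46, 2180460221945005⟩,
   ⟨.A, 47, 1081, 46, 47, 2180460221945005⟩, ⟨.U, 3, 3, 2, 6, 1⟩, ⟨.U, 4, 6, 3, 6, 1⟩,
   ⟨.U, 5, 10, 4, 10, 5⟩, ⟨.U, 6, 15, 5, 10, 5⟩, ⟨.U, 7, 21, 6, 14, 35⟩, ⟨.U, 8, 28, 7, 14, 35⟩,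
   ⟨.U, 9, 36, 8, 18, 35⟩, ⟨.U, 10, 45, 9, 18, 35⟩, ⟨.U, 11, 55, 10, 22, 385⟩,
   ⟨.U, 12, 66, 11, 22, 385⟩, ⟨.U, 13, 78, 12, 26, 5005⟩, ⟨.U, 14, 91, 13, 26, 5005⟩,
   ⟨.U, 15, 105, 14, 30, 5005⟩, ⟨.U, 16, 120, 15, 30, 5005⟩, ⟨.U, 17, 136, 16, 34, 85085⟩,
   ⟨.U, 18, 153, 17, 34, 85085⟩, ⟨.U, 19, 171, 18, 38, 1616615⟩, ⟨.U, 20, 190, 19, 38, 1616615⟩,
   ⟨.U, 21, 210, 20, 42, 1616615⟩, ⟨.U, 22, 231, 21, 42, 1616615⟩,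
   ⟨.U, 23, 253, 22, 46, 37182145⟩, ⟨.U, 24, 276, 23, 46, 37182145⟩,
   ⟨.U, 25, 300, 24, 50, 37182145⟩, ⟨.U, 26, 325, 25, 50, 37182145⟩,
   ⟨.U, 27, 351, 26, 54, 37182145⟩, ⟨.U, 28, 378, 27, 54, 37182145⟩,
   ⟨.U, 29, 406, 28, 58, 1078282205⟩, ⟨.U, 30, 435, 29, 58, 1078282205⟩,
   ⟨.U, 31, 465, 30, 62, 33426748355⟩, ⟨.U, 32, 496, 31, 62, 33426748355⟩,
   ⟨.U, 33, 528, 32, 66, 33426748355⟩, ⟨.U, 34, 561, 33, 66, 33426748355⟩,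
   ⟨.U, 35, 595, 34, 70, 33426748355⟩, ⟨.U, 36, 630, 35, 70, 33426748355⟩,
   ⟨.U, 37, 666, 36, 74, 1236789689135⟩, ⟨.U, 38, 703, 37, 74, 1236789689135⟩,
   ⟨.U, 39, 741, 38, 78, 1236789689135⟩, ⟨.U, 40, 780, 39, 78, 1236789689135⟩,
   ⟨.U, 41, 820, 40, 82, 50708377254535⟩, ⟨.U, 42, 861, 41, 82, 50708377254535⟩,
   ⟨.U, 43, 903, 42, 86, 2180460221945005⟩, ⟨.U, 44, 946, 43, 86, 2180460221945005⟩,
   ⟨.U, 45, 990, 44, 90, 2180460221945005⟩, ⟨.U, 46, 1035, 45, 90, 2180460221945005⟩,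
   ⟨.U, 47, 1081, 46, 94, 2180460221945005⟩, ⟨.B, 2, 4, 2, 4, 1⟩, ⟨.B, 3, 9, 3, 6, 1⟩,
   ⟨.B, 4, 16, 4, 8, 1⟩, ⟨.B, 5, 25, 5, 10, 5⟩, ⟨.B, 6, 36, 6, 12, 5⟩, ⟨.B, 7, 49, 7, 14, 35⟩,
   ⟨.B, 8, 64, 8, 16, 35⟩, ⟨.B, 9, 81, 9, 18, 35⟩, ⟨.B, 10, 100, 10, 20, 35⟩,
   ⟨.B, 11, 121, 11, 22, 385⟩, ⟨.B, 12, 144, 12, 24, 385⟩, ⟨.B, 13, 169, 13, 26, 5005⟩,
   ⟨.B, 14, 196, 14, 28, 5005⟩, ⟨.B, 15, 225, 15, 30, 5005⟩, ⟨.B, 16, 256, 16, 32, 5005⟩,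
   ⟨.B, 17, 289, 17, 34, 85085⟩, ⟨.B, 18, 324, 18, 36, 85085⟩, ⟨.B, 19, 361, 19, 38, 1616615⟩,
   ⟨.B, 20, 400, 20, 40, 1616615⟩, ⟨.B, 21, 441, 21, 42, 1616615⟩,
   ⟨.B, 22, 484, 22, 44, 1616615⟩, ⟨.B, 23, 529, 23, 46, 37182145⟩,
   ⟨.B, 24, 576, 24, 48, 37182145⟩, ⟨.B, 25, 625, 25, 50, 37182145⟩,
   ⟨.B, 26, 676, 26, 52, 37182145⟩, ⟨.B, 27, 729, 27, 54, 37182145⟩,
   ⟨.B, 28, 784, 28, 56, 37182145⟩, ⟨.B, 29, 841, 29, 58, 1078282205⟩,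
   ⟨.B, 30, 900, 30, 60, 1078282205⟩, ⟨.B, 31, 961, 31, 62, 33426748355⟩,
   ⟨.B, 32, 1024, 32, 64, 33426748355⟩, ⟨.B, 33, 1089, 33, 66, 33426748355⟩,
   ⟨.B, 34, 1156, 34, 68, 33426748355⟩, ⟨.B, 35, 1225, 35, 70, 33426748355⟩,
   ⟨.B, 36, 1296, 36, 72, 33426748355⟩, ⟨.B, 37, 1369, 37, 74, 1236789689135⟩,
   ⟨.B, 38, 1444, 38, 76, 1236789689135⟩, ⟨.B, 39, 1521, 39, 78, 1236789689135⟩,
   ⟨.B, 40, 1600, 40, 80, 1236789689135⟩, ⟨.B, 41, 1681, 41, 82, 50708377254535⟩,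
   ⟨.B, 42, 1764, 42, 84, 50708377254535⟩, ⟨.B, 43, 1849, 43, 86, 2180460221945005⟩,
   ⟨.B, 44, 1936, 44, 88, 2180460221945005⟩, ⟨.B, 45, 2025, 45, 90, 2180460221945005⟩,
   ⟨.B, 46, 2116, 46, 92, 2180460221945005⟩, ⟨.B, 47, 2209, 47, 94, 2180460221945005⟩,
   ⟨.D, 4, 12, 4, 6, 1⟩, ⟨.D, 5, 20, 5, 8, 5⟩, ⟨.D, 6, 30, 6, 10, 5⟩, ⟨.D, 7, 42, 7, 12, 35⟩,
   ⟨.D, 8, 56, 8, 14, 35⟩, ⟨.D, 9, 72, 9, 16, 35⟩, ⟨.D, 10, 90, 10, 18, 35⟩,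
   ⟨.D, 11, 110, 11, 20, 385⟩, ⟨.D, 12, 132, 12, 22, 385⟩, ⟨.D, 13, 156, 13, 24, 5005⟩,
   ⟨.D, 14, 182, 14, 26, 5005⟩, ⟨.D, 15, 210, 15, 28, 5005⟩, ⟨.D, 16, 240, 16, 30, 5005⟩,
   ⟨.D, 17, 272, 17, 32, 85085⟩, ⟨.D, 18, 306, 18, 34, 85085⟩, ⟨.D, 19, 342, 19, 36, 1616615⟩,
   ⟨.D, 20, 380, 20, 38, 1616615⟩, ⟨.D, 21, 420, 21, 40, 1616615⟩,
   ⟨.D, 22, 462, 22, 42, 1616615⟩, ⟨.D, 23, 506, 23, 44, 37182145⟩,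
   ⟨.D, 24, 552, 24, 46, 37182145⟩, ⟨.D, 25, 600, 25, 48, 37182145⟩,
   ⟨.D, 26, 650, 26, 50, 37182145⟩, ⟨.D, 27, 702, 27, 52, 37182145⟩,
   ⟨.D, 28, 756, 28, 54, 37182145⟩, ⟨.D, 29, 812, 29, 56, 1078282205⟩,
   ⟨.D, 30, 870, 30, 58, 1078282205⟩, ⟨.D, 31, 930, 31, 60, 33426748355⟩,
   ⟨.D, 32, 992, 32, 62, 33426748355⟩, ⟨.D, 33, 1056, 33, 64, 33426748355⟩,
   ⟨.D, 34, 1122, 34, 66, 33426748355⟩, ⟨.D, 35, 1190, 35, 68, 33426748355⟩,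
   ⟨.D, 36, 1260, 36, 70, 33426748355⟩, ⟨.D, 37, 1332, 37, 72, 1236789689135⟩,
   ⟨.D, 38, 1406, 38, 74, 1236789689135⟩, ⟨.D, 39, 1482, 39, 76, 1236789689135⟩,
   ⟨.D, 40, 1560, 40, 78, 1236789689135⟩, ⟨.D, 41, 1640, 41, 80, 50708377254535⟩,
   ⟨.D, 42, 1722, 42, 82, 50708377254535⟩, ⟨.D, 43, 1806, 43, 84, 2180460221945005⟩,
   ⟨.D, 44, 1892, 44, 86, 2180460221945005⟩, ⟨.D, 45, 1980, 45, 88, 2180460221945005⟩,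
   ⟨.D, 46, 2070, 46, 90, 2180460221945005⟩, ⟨.D, 47, 2162, 47, 92, 2180460221945005⟩,
   ⟨.E, 4, 12, 4, 8, 1⟩, ⟨.E, 5, 20, 5, 10, 5⟩, ⟨.E, 6, 30, 6, 12, 5⟩, ⟨.E, 7, 42, 7, 14, 35⟩,
   ⟨.E, 8, 56, 8, 16, 35⟩, ⟨.E, 9, 72, 9, 18, 35⟩, ⟨.E, 10, 90, 10, 20, 35⟩,
   ⟨.E, 11, 110, 11, 22, 385⟩, ⟨.E, 12, 132, 12, 24, 385⟩, ⟨.E, 13, 156, 13, 26, 5005⟩,
   ⟨.E, 14, 182, 14, 28, 5005⟩, ⟨.E, 15, 210, 15, 30, 5005⟩, ⟨.E, 16, 240, 16, 32, 5005⟩,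
   ⟨.E, 17, 272, 17, 34, 85085⟩, ⟨.E, 18, 306, 18, 36, 85085⟩, ⟨.E, 19, 342, 19, 38, 1616615⟩,
   ⟨.E, 20, 380, 20, 40, 1616615⟩, ⟨.E, 21, 420, 21, 42, 1616615⟩,
   ⟨.E, 22, 462, 22, 44, 1616615⟩, ⟨.E, 23, 506, 23, 46, 37182145⟩,
   ⟨.E, 24, 552, 24, 48, 37182145⟩, ⟨.E, 25, 600, 25, 50, 37182145⟩,
   ⟨.E, 26, 650, 26, 52, 37182145⟩, ⟨.E, 27, 702, 27, 54, 37182145⟩,
   ⟨.E, 28, 756, 28, 56, 37182145⟩, ⟨.E, 29, 812, 29, 58, 1078282205⟩,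
   ⟨.E, 30, 870, 30, 60, 1078282205⟩, ⟨.E, 31, 930, 31, 62, 33426748355⟩,
   ⟨.E, 32, 992, 32, 64, 33426748355⟩, ⟨.E, 33, 1056, 33, 66, 33426748355⟩,
   ⟨.E, 34, 1122, 34, 68, 33426748355⟩, ⟨.E, 35, 1190, 35, 70, 33426748355⟩,
   ⟨.E, 36, 1260, 36, 72, 33426748355⟩, ⟨.E, 37, 1332, 37, 74, 1236789689135⟩,
   ⟨.E, 38, 1406, 38, 76, 1236789689135⟩, ⟨.E, 39, 1482, 39, 78, 1236789689135⟩,
   ⟨.E, 40, 1560, 40, 80, 1236789689135⟩, ⟨.E, 41, 1640, 41, 82, 50708377254535⟩,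
   ⟨.E, 42, 1722, 42, 84, 50708377254535⟩, ⟨.E, 43, 1806, 43, 86, 2180460221945005⟩,
   ⟨.E, 44, 1892, 44, 88, 2180460221945005⟩, ⟨.E, 45, 1980, 45, 90, 2180460221945005⟩,
   ⟨.E, 46, 2070, 46, 92, 2180460221945005⟩, ⟨.E, 47, 2162, 47, 94, 2180460221945005⟩,
   ⟨.G2, 0, 6, 2, 6, 1⟩, ⟨.F4, 0, 24, 4, 12, 1⟩, ⟨.E6, 0, 36, 6, 12, 5⟩, ⟨.U6, 0, 36, 6, 18, 5⟩,
   ⟨.E7, 0, 63, 7, 18, 35⟩, ⟨.E8, 0, 120, 8, 30, 35⟩, ⟨.T4, 0, 12, 4, 12, 1⟩,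
   ⟨.Sz, 0, 2, 1, 4, 1⟩, ⟨.Re, 0, 3, 1, 6, 1⟩, ⟨.V4, 0, 12, 2, 12, 1⟩]

lemma shT_eq : shT = (shapesTo 47).map fun u => mkSh u.1 u.2 := by decide +kernel

lemma mem_shT {t : Ty} {n : ℕ} (h : vS t n = true) (hn : n ≤ 47) : mkSh t n ∈ shT := by
  rw [shT_eq]
  exact List.mem_map.2 ⟨(t, n), mem_shapesTo h hn, rfl⟩

def tyCode : Ty → ℕ
  | .A => 0 | .U => 1 | .B => 2 | .D => 3 | .E => 4 | .G2 => 5 | .F4 => 6 | .E6 => 7 | .U6 => 8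
  | .E7 => 9 | .E8 => 10 | .T4 => 11 | .Sz => 12 | .Re => 13 | .V4 => 14

def Sh.code (s : Sh) : ℕ := tyCode s.t * 64 + s.n

lemma tH_ge {t : Ty} {n : ℕ} (h : vS t n = true) : 2 ≤ tH t n ∧ (3 ≤ tH t n ∨ (t = .A ∧ n = 2)) := by
  cases t <;> simp only [vS, decide_eq_true_eq, tH] at h ⊢ <;>
    first | omega | (split_ifs <;> omega) | (simp; omega) | simp

lemma tH_le {t : Ty} {n : ℕ} (h : vS t n = true) : tH t n ≤ max (2 * n) 30 := by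
  cases t <;> simp only [vS, decide_eq_true_eq, tH] at h ⊢ <;>
    first | omega | (split_ifs <;> omega)

lemma tN_le {t : Ty} {n : ℕ} (ht : Cl t) : tN t n ≤ n * n := by
  have h1 : n * (n - 1) ≤ n * n := Nat.mul_le_mul_left _ (by omega)
  rcases ht with rfl | rfl | rfl | rfl | rfl <;> simp only [tN] <;> omega

lemma inOm_tH {t : Ty} {n f : ℕ} (hS : vS t n = true) (hf : 1 ≤ f) :
    inOm (f * tH t n) t n f = true := by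
  obtain ⟨s, hs, h⟩ := exists_top hS
  rw [← h]; exact inOm_top hS hf hs

lemma tH_cond {t : Ty} {n f : ℕ} (hS : vS t n = true) (hf : 1 ≤ f) :
    dmax t n ≤ 4 ∨ ¬f * tH t n ∣ 2 * f := by
  rcases (tH_ge hS).2 with h | ⟨rfl, rfl⟩
  · exact Or.inr (top_cond hf h)
  · exact Or.inl (by simp [dmax])

end Pool.Agent.Lib.MP_343319_al
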