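import Pool.Agent.Lib.MP_343319_al.Size

namespace Pool.Agent.Lib.MP_343319_al

def cnt (e : ℕ) (L : List ℕ) : ℕ := (L.filter fun k => k % e == 0).length

def pr (e : ℕ) (L : List ℕ) : ℕ := ((L.filter fun k => k % e == 0).map fun k => k / e).prod

lemma cnt_cons (e k : ℕ) (L : List ℕ) : cnt e (k :: L) = cnt e L + if e ∣ k then 1 else 0 := by
  simp only [cnt, List.filter_cons, beq_iff_eq, Nat.dvd_iff_mod_eq_zero]
  split_ifs <;> simp

lemma pr_cons (e k : ℕ) (L : List ℕ) : pr e (k :: L) = (if e ∣ k then k / e else 1) * pr e L := by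
  simp only [pr, List.filter_cons, beq_iff_eq, Nat.dvd_iff_mod_eq_zero]
  split_ifs <;> simp

lemma pr_pos {e : ℕ} (he : 1 ≤ e) {L : List ℕ} (h : ∀ k ∈ L, 1 ≤ k) : 0 < pr e L := by
  induction L with
  | nil => simp [pr]
  | cons k L ih =>
    rw [pr_cons]
    refine Nat.mul_pos ?_ (ih fun j hj => h j (by simp [hj]))
    split_ifs with h1
    · exact Nat.div_pos (Nat.le_of_dvd (h k (by simp)) h1) he
    · omega

lemma cnt_le_length (e : ℕ) (L : List ℕ) : cnt e L ≤ L.length := List.length_filter_le _ _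

lemma IsPP.val_PP {Q e l : ℕ} (h : IsPP Q e l) (hQ : 2 ≤ Q) (he : 1 ≤ e)
    (h2 : l ≠ 2 ∨ 4 ∣ Q - 1) {L : List ℕ} (hL : ∀ k ∈ L, 1 ≤ k) :
    padicValNat l (PP Q L) = cnt e L * padicValNat l (Q ^ e - 1) + padicValNat l (pr e L) := by
  haveI := Fact.mk h.1
  induction L with
  | nil => simp [cnt, pr]
  | cons k L ih =>
    have hL' : ∀ j ∈ L, 1 ≤ j := fun j hj => hL j (by simp [hj])
    have hk := hL k (by simp)
    rw [PP_cons, padicValNat.mul (pow_sub_one_pos hQ hk).ne' (PP_pos hQ hL').ne', ih hL',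
      cnt_cons, pr_cons]
    split_ifs with h1
    · rw [h.lte hQ he hk h1 h2, padicValNat.mul
        (Nat.div_pos (Nat.le_of_dvd hk h1) he).ne' (pr_pos he hL').ne']
      ring
    · rw [padicValNat.eq_zero_of_not_dvd (fun hd => h1 ((h.2 k).1 hd))]
      simp

lemma val_PP_two {Q : ℕ} (hQ : 2 ≤ Q) (h4 : 4 ∣ Q + 1) {L : List ℕ} (hL : ∀ k ∈ L, 1 ≤ k) :
    padicValNat 2 (PP Q L) =
      cnt 2 L * padicValNat 2 (Q + 1) + padicValNat 2 (pr 2 L) + L.length := by
  have h1 : padicValNat 2 (Q - 1) = 1 := by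
    obtain ⟨c, hc⟩ := h4
    have e : Q - 1 = 2 * (2 * (c - 1) + 1) := by omega
    rw [e, padicValNat.mul (by norm_num) (by omega), padicValNat.self (by norm_num),
      padicValNat.eq_zero_of_not_dvd (by omega)]
  induction L with
  | nil => simp [cnt, pr]
  | cons k L ih =>
    have hL' : ∀ j ∈ L, 1 ≤ j := fun j hj => hL j (by simp [hj])
    have hk := hL k (by simp)
    rw [PP_cons, padicValNat.mul (pow_sub_one_pos hQ hk).ne' (PP_pos hQ hL').ne', ih hL',
      cnt_cons, pr_cons, List.length_cons]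
    split_ifs with h2
    · have := padicValNat.pow_two_sub_one (x := Q) (n := k) (by omega) (by omega) (by omega)
        (even_iff_two_dvd.2 h2)
      obtain ⟨j, rfl⟩ := h2
      have hj : j ≠ 0 := by omega
      rw [padicValNat.mul (by norm_num) hj, padicValNat.self (by norm_num), h1] at this
      rw [Nat.mul_div_cancel_left _ (by norm_num), padicValNat.mul hj (pr_pos (by norm_num) hL').ne',
        add_mul]
      omega
    · rw [lte Nat.prime_two hQ hk (by omega) (Or.inr (Or.inr h2)), h1,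
        padicValNat.eq_zero_of_not_dvd h2]
      simp; omega

lemma val_le_of_dvd {l a b : ℕ} (hl : l.Prime) (hb : 0 < b) (h : a ∣ b) :
    padicValNat l a ≤ padicValNat l b := by
  have ha : 0 < a := Nat.pos_of_dvd_of_pos h hb
  rw [← Nat.factorization_def _ hl, ← Nat.factorization_def _ hl]
  exact (Nat.factorization_le_iff_dvd ha.ne' hb.ne').2 h l

lemma dvd_of_val_le {a b : ℕ} (ha : 0 < a) (hb : 0 < b)
    (h : ∀ l, l.Prime → l ∣ a → padicValNat l a ≤ padicValNat l b) : a ∣ b := by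
  rw [← Nat.factorization_prime_le_iff_dvd ha.ne' hb.ne']
  intro l hl
  by_cases hd : l ∣ a
  · rw [Nat.factorization_def _ hl, Nat.factorization_def _ hl]
    exact h l hl hd
  · rw [Nat.factorization_eq_zero_of_not_dvd hd]; omega

def red (e : ℕ) (L1 L2 : List ℕ) : ℕ :=
  force (pr e L1) fun a => a / Nat.gcd a (pr e L2)

lemma red_pos {e : ℕ} (he : 1 ≤ e) {L1 L2 : List ℕ} (h1 : ∀ k ∈ L1, 1 ≤ k) : 0 < red e L1 L2 := by
  have := pr_pos he h1
  simp only [red, force_eq]
  exact Nat.div_pos (Nat.gcd_le_left _ this) (Nat.gcd_pos_of_pos_left _ this)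

lemma val_red {e l : ℕ} (hl : l.Prime) (he : 1 ≤ e) {L1 L2 : List ℕ} (h1 : ∀ k ∈ L1, 1 ≤ k)
    (h2 : ∀ k ∈ L2, 1 ≤ k) :
    padicValNat l (pr e L1) ≤ padicValNat l (red e L1 L2) + padicValNat l (pr e L2) := by
  haveI := Fact.mk hl
  rw [← padicValNat.mul (red_pos he h1).ne' (pr_pos he h2).ne']
  refine val_le_of_dvd hl (Nat.mul_pos (red_pos he h1) (pr_pos he h2)) ?_
  simp only [red, force_eq]
  conv_lhs => rw [← Nat.div_mul_cancel (Nat.gcd_dvd_left (pr e L1) (pr e L2))]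
  exact Nat.mul_dvd_mul_left _ (Nat.gcd_dvd_right _ _)

section
variable {Q d c : ℕ} {L1 L2 : List ℕ} (hQ : 2 ≤ Q) (h1 : ∀ k ∈ L1, 1 ≤ k) (h2 : ∀ k ∈ L2, 1 ≤ k)
  (hd : 0 < d) (H : PP Q L2 ∣ PP Q L1 * d)
include hQ h1 h2 hd H

lemma neg_key {e l : ℕ} (h : IsPP Q e l) (he : 1 ≤ e) (hl : l ≠ 2 ∨ 4 ∣ Q - 1)
    (hc : cnt e L2 = cnt e L1 + c) :
    c * padicValNat l (Q ^ e - 1) ≤ padicValNat l (red e L1 L2 * d) := by
  haveI := Fact.mk h.1
  have a := val_le_of_dvd h.1 (Nat.mul_pos (PP_pos hQ h1) hd) H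
  rw [padicValNat.mul (PP_pos hQ h1).ne' hd.ne', h.val_PP hQ he hl h1, h.val_PP hQ he hl h2, hc,
    add_mul] at a
  have b := val_red h.1 he h1 h2
  rw [padicValNat.mul (red_pos he h1).ne' hd.ne']
  omega

lemma neg_big {e : ℕ} (he : 3 ≤ e) (hc : cnt e L2 = cnt e L1 + c) :
    Phi e Q ^ c ∣ e ^ c * (red e L1 L2 * d) := by
  have hA : 0 < red e L1 L2 * d := Nat.mul_pos (red_pos (by omega) h1) hd
  refine dvd_of_val_le (pow_pos (Phi_pos hQ) _) (Nat.mul_pos (pow_pos (by omega) _) hA) ?_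
  intro l hl hdv
  haveI := Fact.mk hl
  rw [padicValNat.mul (pow_pos (by omega) _).ne' hA.ne', padicValNat.pow,
    padicValNat.pow]
  by_cases hle : l ∣ e
  · have a := Phi_val_one hl hQ he hle
    have b := one_le_padicValNat_of_dvd (by omega) hle
    have := Nat.mul_le_mul_left c (a.trans b)
    omega
  · have hP := PP_of_Phi hl hQ (by omega) (hl.dvd_of_dvd_pow hdv) hle
    have a := neg_key hQ h1 h2 hd H hP (by omega)
      (Or.inl (by have := hP.five_le (by omega) he; omega)) hc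
    have b := val_le_of_dvd hl (pow_sub_one_pos hQ (show 1 ≤ e by omega)) (Phi_dvd (e := e) hQ)
    have := Nat.mul_le_mul_left c b
    omega

lemma neg_one (hc : cnt 1 L2 = cnt 1 L1 + c) : (Q - 1) ^ c ∣ 2 ^ c * (red 1 L1 L2 * d) := by
  have hA : 0 < red 1 L1 L2 * d := Nat.mul_pos (red_pos (by omega) h1) hd
  refine dvd_of_val_le (pow_pos (by omega) _) (Nat.mul_pos (pow_pos (by omega) _) hA) ?_
  intro l hl hdv
  haveI := Fact.mk hl
  rw [padicValNat.mul (pow_pos (by omega) _).ne' hA.ne', padicValNat.pow,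
    padicValNat.pow]
  have hP : IsPP Q 1 l := ⟨hl, fun k => by
    simp only [one_dvd, iff_true]
    exact (hl.dvd_of_dvd_pow hdv).trans (sub_dvd_pow _ _)⟩
  by_cases hle : l ≠ 2 ∨ 4 ∣ Q - 1
  · have a := neg_key hQ h1 h2 hd H hP le_rfl hle hc
    rw [pow_one] at a
    omega
  · push Not at hle
    obtain ⟨rfl, h4⟩ := hle
    have a : padicValNat 2 (Q - 1) ≤ 1 := by
      by_contra hcon
      exact h4 ((show 4 ∣ 2 ^ 2 by norm_num).trans
        ((padicValNat_dvd_iff_le (by omega)).2 (by omega)))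
    rw [padicValNat.self (by norm_num)]
    have := Nat.mul_le_mul_left c a
    omega

lemma neg_two (hc : cnt 2 L2 = cnt 2 L1 + c) :
    (Q + 1) ^ c ∣ 2 ^ (c + (L1.length - L2.length)) * (red 2 L1 L2 * d) := by
  have hA : 0 < red 2 L1 L2 * d := Nat.mul_pos (red_pos (by omega) h1) hd
  refine dvd_of_val_le (pow_pos (by omega) _) (Nat.mul_pos (pow_pos (by omega) _) hA) ?_
  intro l hl hdv
  haveI := Fact.mk hl
  rw [padicValNat.mul (pow_pos (by omega) _).ne' hA.ne', padicValNat.pow,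
    padicValNat.pow]
  have hd1 := hl.dvd_of_dvd_pow hdv
  by_cases hl2 : l = 2
  · subst hl2
    rw [padicValNat.self (by norm_num)]
    by_cases h4 : 4 ∣ Q + 1
    · have a := val_le_of_dvd hl (Nat.mul_pos (PP_pos hQ h1) hd) H
      rw [padicValNat.mul (PP_pos hQ h1).ne' hd.ne', val_PP_two hQ h4 h1, val_PP_two hQ h4 h2, hc,
        add_mul] at a
      have b := val_red hl (show 1 ≤ 2 by omega) h1 h2
      rw [padicValNat.mul (red_pos (by omega) h1).ne' hd.ne']
      omega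
    · have a : padicValNat 2 (Q + 1) ≤ 1 := by
        by_contra hcon
        exact h4 ((show 4 ∣ 2 ^ 2 by norm_num).trans
          ((padicValNat_dvd_iff_le (by omega)).2 (by omega)))
      have := Nat.mul_le_mul_left c a
      omega
  · have hQl : ¬l ∣ Q := fun h => by
      have := (Nat.dvd_add_right h).1 hd1
      exact hl.one_lt.ne' (Nat.dvd_one.1 this)
    obtain ⟨e, he, hP⟩ := exists_PP hl (by omega) hQl
    have h3 : e ∣ 2 := (hP.2 2).1 (hd1.trans (add_dvd_sq Q))
    have h4 : e = 2 := by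
      rcases (Nat.dvd_prime Nat.prime_two).1 h3 with rfl | rfl
      · have h5 := hP.dvd
        rw [pow_one] at h5
        have h6 : l ∣ Q + 1 - (Q - 1) := Nat.dvd_sub hd1 h5
        rw [show Q + 1 - (Q - 1) = 2 by omega] at h6
        exact absurd ((Nat.prime_dvd_prime_iff_eq hl Nat.prime_two).1 h6) hl2
      · rfl
    subst h4
    have a := neg_key hQ h1 h2 hd H hP (by omega) (Or.inl hl2) hc
    have b := val_le_of_dvd hl (pow_sub_one_pos hQ (show 1 ≤ 2 by omega)) (add_dvd_sq Q)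
    have := Nat.mul_le_mul_left c b
    omega

end

def phiLB (e : ℕ) : ℕ := ((List.range' 1 (min (e - 1) 30)).filter fun i => Nat.gcd i e == 1).length

lemma phiLB_le (e : ℕ) : phiLB e ≤ e.totient := by
  rw [phiLB, Nat.totient_eq_card_coprime,
    ← List.toFinset_card_of_nodup ((List.nodup_range' (step := 1)).filter _)]
  refine Finset.card_le_card fun i hi => ?_
  simp only [List.mem_toFinset, List.mem_filter, List.mem_range'_1, beq_iff_eq] at hi
  simp only [Finset.mem_filter, Finset.mem_range]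
  exact ⟨by omega, Nat.Coprime.symm hi.2⟩

def negFail (L1 L2 : List ℕ) (dm e T : ℕ) : Bool :=
  force (cnt e L1) fun c1 => force (cnt e L2) fun c2 => force (red e L1 L2 * dm) fun A =>
    decide (c1 < c2) &&
    (if e = 1 then decide (2 ^ (c2 - c1) * A < (T - 1) ^ (c2 - c1))
    else if e = 2 then decide (2 ^ (c2 - c1 + (L1.length - L2.length)) * A < (T + 1) ^ (c2 - c1))
    else decide (3 ≤ e) && decide (e ^ (c2 - c1) * A < ((T - 1) ^ phiLB e + 1) ^ (c2 - c1)))

lemma negFail_sound {L1 L2 : List ℕ} {dm e T Q d : ℕ} (h : negFail L1 L2 dm e T = true)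
    (hQ : 2 ≤ Q) (hT : T ≤ Q) (h1 : ∀ k ∈ L1, 1 ≤ k) (h2 : ∀ k ∈ L2, 1 ≤ k) (hd : 0 < d)
    (hdm : d ≤ dm) : ¬PP Q L2 ∣ PP Q L1 * d := by
  intro H
  simp only [negFail, force_eq, Bool.and_eq_true, decide_eq_true_eq] at h
  obtain ⟨hc, h⟩ := h
  have hc' : cnt e L2 = cnt e L1 + (cnt e L2 - cnt e L1) := by omega
  generalize cnt e L2 - cnt e L1 = c at *
  have hA : red e L1 L2 * d ≤ red e L1 L2 * dm := Nat.mul_le_mul_left _ hdm
  split_ifs at h with e1 e2
  · subst e1
    have a := Nat.le_of_dvd (Nat.mul_pos (pow_pos (by omega) _)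
      (Nat.mul_pos (red_pos (by omega) h1) hd)) (neg_one hQ h1 h2 hd H hc')
    have b : (T - 1) ^ c ≤ (Q - 1) ^ c := Nat.pow_le_pow_left (by omega) _
    have := Nat.mul_le_mul_left (2 ^ c) hA
    simp only [decide_eq_true_eq] at h
    omega
  · subst e2
    have a := Nat.le_of_dvd (Nat.mul_pos (pow_pos (by omega) _)
      (Nat.mul_pos (red_pos (by omega) h1) hd)) (neg_two hQ h1 h2 hd H hc')
    have b : (T + 1) ^ c ≤ (Q + 1) ^ c := Nat.pow_le_pow_left (by omega) _
    have := Nat.mul_le_mul_left (2 ^ (c + (L1.length - L2.length))) hA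
    simp only [decide_eq_true_eq] at h
    omega
  · simp only [Bool.and_eq_true, decide_eq_true_eq] at h
    have a := Nat.le_of_dvd (Nat.mul_pos (pow_pos (by omega) _)
      (Nat.mul_pos (red_pos (by omega) h1) hd)) (neg_big hQ h1 h2 hd H h.1 hc')
    have b : ((T - 1) ^ phiLB e + 1) ^ c ≤ Phi e Q ^ c := by
      refine Nat.pow_le_pow_left ?_ _
      have b1 := Phi_gt (e := e) (Q := Q) (by omega) hQ
      have b2 : (T - 1) ^ phiLB e ≤ (Q - 1) ^ e.totient :=
        (Nat.pow_le_pow_left (by omega) _).trans (Nat.pow_le_pow_right (by omega) (phiLB_le e))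
      omega
    have := Nat.mul_le_mul_left (e ^ c) hA
    omega

end Pool.Agent.Lib.MP_343319_al
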