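import Pool.Agent.Lib.MP_343319_al.Cross2

namespace Pool.Agent.Lib.MP_343319_al

open Nat

def c4 (p : ℕ) : ℕ := if p = 2 then 4096 else 27

def c6 (p : ℕ) : ℕ := if p = 2 then 2 ^ 53 else if p = 3 then 2 ^ 22 else 2 ^ 11

def BigPSL (p x : ℕ) : Prop := ∃ s g, Val .A 2 s g ∧ s ≠ p ∧ 30 ≤ s ^ g ∧ x = ord .A 2 (s ^ g)

lemma CL_c : ∀ u ∈ CL, (u.1 ^ u.2.2) ^ 3 ≤ c4 u.1 * u.2.1 ∧ (u.1 ^ u.2.2) ^ 4 ≤ c6 u.1 * u.2.1 := by
  decide +kernel

lemma BigPSL.cube {p x i : ℕ} (h : BigPSL p x) (hp : p.Prime) (hi : p ^ i ∣ x) :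
    (p ^ i) ^ 3 ≤ 4 * x := by
  obtain ⟨s, g, hv, hs, h30, rfl⟩ := h
  have h1 : p ^ i ≤ s ^ g + 1 := by
    rcases psl_dvd hv hp hs hi with h | h <;> have := Nat.le_of_dvd (by omega) h <;> omega
  have h2 := td_ord_A2 (s ^ g)
  have h3 := td_le_dmax hv.hS (s ^ g)
  simp only [dmax] at h3
  have h4 := Nat.mul_le_mul_right (ord .A 2 (s ^ g)) h3
  have h5 := Nat.pow_le_pow_left h1 3
  rw [sq_sub_one] at h2
  obtain ⟨c, hc⟩ : ∃ c, s ^ g = c + 30 := ⟨s ^ g - 30, by omega⟩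
  rw [hc] at h2 h4 h5 ⊢
  have e : c + 30 - 1 = c + 29 := by omega
  rw [e] at h2
  have : (c + 30 + 1) ^ 3 ≤ 2 * ((c + 30) * ((c + 30 + 1) * (c + 29))) := by
    ring_nf; omega
  omega

theorem NonP.U4 {p x i : ℕ} (hx : NonP p x) (hp : p.Prime) (hi : p ^ i ∣ x) :
    (p ^ i) ^ 3 ≤ c4 p * x := by
  have h0 := hx.ge
  have hc : 4 ≤ c4 p := by simp only [c4]; split_ifs <;> omega
  have hc' := Nat.mul_le_mul_right x hc
  rcases Nat.eq_zero_or_pos i with rfl | h1
  · simp; omega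
  rcases cross hx hp hi h1 with h | ⟨j, hj, h⟩ | h
  · have := h.1; omega
  · exact (Nat.pow_le_pow_left (Nat.pow_le_pow_right hp.pos hj) _).trans (CL_c _ h).1
  · have := BigPSL.cube h hp hi; omega

theorem NonP.U6 {p x i : ℕ} (hx : NonP p x) (hp : p.Prime) (hi : p ^ i ∣ x) :
    (p ^ i) ^ 4 ≤ c6 p * x ∨ BigPSL p x := by
  have h0 := hx.ge
  have hc : 2 ^ 11 ≤ c6 p := by simp only [c6]; split_ifs <;> omega
  have hc' := Nat.mul_le_mul_right x hc
  rcases Nat.eq_zero_or_pos i with rfl | h1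
  · left; simp; omega
  rcases cross hx hp hi h1 with h | ⟨j, hj, h⟩ | h
  · have := h.2; omega
  · exact Or.inl ((Nat.pow_le_pow_left (Nat.pow_le_pow_right hp.pos hj) _).trans (CL_c _ h).2)
  · exact Or.inr h

lemma BigPSL.form {p x i : ℕ} (h : BigPSL p x) (hp : p.Prime) (hi : p ^ i ∣ x) :
    ∃ k e d : ℤ, 1 ≤ k ∧ (e = 1 ∨ e = -1) ∧ 30 ≤ k * p ^ i - e ∧
      ((d = 1 ∧ (k * p ^ i - e) % 2 = 0) ∨ (d = 2 ∧ (k * p ^ i - e) % 2 = 1)) ∧
      d * x = k * p ^ i * ((k * p ^ i - e) * (k * p ^ i - 2 * e)) := by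
  obtain ⟨s, g, hv, hs, h30, rfl⟩ := h
  have h2 := td_ord_A2 (s ^ g)
  have h3 := td_A2 (s ^ g) (by omega)
  have h4 := psl_dvd hv hp hs hi
  generalize s ^ g = r at *
  have h5 : 1 ≤ r ^ 2 := Nat.one_le_pow _ _ (by omega)
  zify [h5] at h2
  have hd : ((td .A 2 r : ℤ) = 1 ∧ (r : ℤ) % 2 = 0) ∨ ((td .A 2 r : ℤ) = 2 ∧ (r : ℤ) % 2 = 1) := by
    split_ifs at h3 <;> omega
  rcases h4 with ⟨k, hk⟩ | ⟨k, hk⟩
  · have hk0 : 1 ≤ k := by
      rcases k with _ | k
      · simp at hk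
      · omega
    have e : (k : ℤ) * p ^ i = r + 1 := by zify at hk; linarith
    refine ⟨k, 1, td .A 2 r, by exact_mod_cast hk0, Or.inl rfl, ?_, ?_, ?_⟩ <;> rw [e]
    · omega
    · simpa using hd
    · rw [h2]; ring
  · have hk0 : 1 ≤ k := by
      rcases k with _ | k
      · simp at hk; omega
      · omega
    have e : (k : ℤ) * p ^ i = r - 1 := by zify [show 1 ≤ r by omega] at hk; linarith
    refine ⟨k, -1, td .A 2 r, by exact_mod_cast hk0, Or.inr rfl, ?_, ?_, ?_⟩ <;> rw [e]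
    · omega
    · simpa using hd
    · rw [h2]; ring

def irootAux (k c : ℕ) : ℕ → ℕ → ℕ
  | 0, x => x
  | m + 1, x => force (((k - 1) * x + c / x ^ (k - 1)) / k) fun y =>
      if y < x then irootAux k c m y else x

def iroot (k c : ℕ) : ℕ :=
  force (c ||| c % 4294967291) fun z => irootAux k z 400 (2 ^ (lg z / k + 1))

def rootT (p y : ℕ) (t : Ty) (n d : ℕ) : Bool :=
  force (d * y) fun c => force (2 * tN t n + tr t n) fun k => force (iroot k c) fun r =>
    decide (r ^ k ≤ c) && decide (c < (r + 1) ^ k) &&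
      (r % p == 0 || ord t n r != y) && ((r + 1) % p == 0 || ord t n (r + 1) != y)

lemma rootT_sound {p r : ℕ} {t : Ty} {n : ℕ} (hS : vS t n = true) (hr : 2 ≤ r) (hpr : ¬p ∣ r)
    (h : rootT p (ord t n r) t n (td t n r) = true) : False := by
  simp only [rootT, force_eq, Bool.and_eq_true, decide_eq_true_eq, Bool.or_eq_true, beq_iff_eq,
    bne_iff_ne, ne_eq, ← Nat.dvd_iff_mod_eq_zero] at h
  have h1 := td_mul_ord_le hr hS
  have h2 : (r - 1) ^ (2 * tN t n + tr t n) ≤ td t n r * ord t n r := by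
    rw [td_mul_ord hS, show 2 * tN t n + tr t n = tN t n + (tN t n + tr t n) by ring, pow_add]
    exact Nat.mul_le_mul (Nat.pow_le_pow_left (by omega) _) (tR_ge_pred (by omega) hS)
  have hk : 2 * tN t n + tr t n ≠ 0 := by have := tr_le_tN hS; omega
  generalize iroot _ _ = u at h
  obtain ⟨⟨⟨a, b⟩, c⟩, d⟩ := h
  have h3 : u ≤ r := (Nat.pow_le_pow_iff_left hk).1 (a.trans h1)
  have h4 : r - 1 < u + 1 := (Nat.pow_lt_pow_iff_left hk).1 (lt_of_le_of_lt h2 b)
  have : r = u ∨ r = u + 1 := by omega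
  rcases this with rfl | rfl
  · tauto
  · tauto

def fullNP (p y : ℕ) : Bool :=
  !sporadicOrders.contains y && loopF 1 y (fun _ F => F != y) 400 5 60 &&
    notLie (primesL.filter fun s => s != p) y && decide (y < 2 ^ 3000) &&
    shapes.all fun u => decide (2 * dmax u.1 u.2 * y < 530 ^ (2 * tN u.1 u.2 + tr u.1 u.2)) ||
      (List.range' 1 (dmax u.1 u.2)).all (rootT p y u.1 u.2)

lemma notLie_sound' {ps : List ℕ} {t : Ty} {n s g : ℕ} (hv : Val t n s g) (hs : s ∈ ps)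
    (h : notLie ps (ord t n (s ^ g)) = true) : False := by
  have hpos := ord_pos hv.two_le hv.hS
  have hd := hv.dvd
  have h1 := List.all_eq_true.1 h s hs
  have h2 := hv.le_val hpos dvd_rfl
  simp only [force_eq, Bool.or_eq_true, bne_iff_ne, ne_eq, decide_eq_true_eq] at h1
  rcases h1 with h1 | h1 | h1
  · exact h1 (Nat.mod_eq_zero_of_dvd hd)
  · have h3 := ord_le_cube hv.two_le hv.hS
    rw [← pow_mul, ← pow_mul] at h3
    have : s ^ (g * tN t n * 3) ≤ s ^ (3 * val s (ord t n (s ^ g))) :=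
      Nat.pow_le_pow_right hv.hp.pos (by omega)
    rw [← mul_assoc] at h3
    omega
  · have := enumL_sound h1 hv h2
    simp at this

lemma Val.not_dvd {t : Ty} {n s g p : ℕ} (hv : Val t n s g) (hp : p.Prime) (hs : s ≠ p) :
    ¬p ∣ s ^ g := fun h =>
  hs ((Nat.prime_dvd_prime_iff_eq hp hv.hp).1 (hp.dvd_of_dvd_pow h)).symm

lemma fullNP_sound {p y : ℕ} (hp : p.Prime) (h : fullNP p y = true) : ¬NonP p y := by
  simp only [fullNP, Bool.and_eq_true, Bool.not_eq_true', List.contains_eq_mem,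
    decide_eq_false_iff_not, decide_eq_true_eq, List.all_eq_true, Bool.or_eq_true] at h
  obtain ⟨⟨⟨⟨h1, h2⟩, h3⟩, h4⟩, h5⟩ := h
  rintro (⟨k, hk, hk2⟩ | h | ⟨t, n, s, g, hv, hs, rfl⟩)
  · have := loopF_sound 400 5 (by norm_num) h2 k hk (one_dvd _) hk2.ge
    simp [hk2] at this
  · exact h1 h
  by_cases h6 : s < 530
  · exact notLie_sound' hv (by
      simp only [List.mem_filter, bne_iff_ne, ne_eq]; exact ⟨mem_primesL hv.hp h6, hs⟩) h3
  have h7 : 530 ≤ s ^ g := le_trans (by omega) (Nat.le_self_pow (by have := hv.hf; omega) _)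
  have h8 : tN t n < 190 := by
    by_contra hc
    have h9 := hv.sq_le
    have h10 : 530 ^ 380 ≤ (s ^ g) ^ (2 * tN t n) :=
      (Nat.pow_le_pow_left h7 _).trans (Nat.pow_le_pow_right (by omega) (by omega))
    have h11 : 2 ^ 3000 ≤ 530 ^ 380 := by decide +kernel
    omega
  rcases h5 (t, n) (mem_shapes hv.hS (lt_of_tN hv.hS h8)) with h9 | h9
  · have h10 := ord_ge hv.two_le hv.hS
    have h11 := Nat.pow_le_pow_left h7 (2 * tN t n + tr t n)
    have h12 := Nat.mul_le_mul_right (ord t n (s ^ g))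
      (Nat.mul_le_mul_left 2 (td_le_dmax hv.hS (s ^ g)))
    simp only at h9
    omega
  · refine rootT_sound hv.hS hv.two_le (hv.not_dvd hp hs) (h9 _ ?_)
    have := td_le_dmax hv.hS (s ^ g)
    have := td_pos (q := s ^ g) hv.hS
    rw [List.mem_range'_1]
    simp only; omega

lemma CL_le : ∀ u ∈ CL, u.2.1 ≤ 2 ^ 112 := by decide +kernel

def valQ (p y : ℕ) : ℕ := if p = 2 then lg (Nat.gcd y (2 ^ lg y)) else val p y

def notNP (p y : ℕ) : Bool :=
  decide (y < 60) || y % 4 != 0 || (y % 3 != 0 && y % 64 != 0) || force (valQ p y) fun j =>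
    force (p ^ j) fun a =>
      if 1 ≤ j ∧ y % a = 0 ∧ ¬Good y a then
        decide (c4 p * y < a ^ 3) ||
          ((decide (2 ^ 112 < y) || CL.all fun u => u.1 != p || u.2.1 != y) &&
            rootT p y .A 2 1 && rootT p y .A 2 2)
      else fullNP p y

theorem notNP_sound {p y : ℕ} (hp : p.Prime) (h : notNP p y = true) : ¬NonP p y := by
  intro hy
  simp only [notNP, force_eq, Bool.or_eq_true, decide_eq_true_eq, bne_iff_ne, ne_eq,
    Bool.and_eq_true, ← Nat.dvd_iff_mod_eq_zero] at h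
  rcases h with ((h | h) | h) | h
  · have := hy.ge; omega
  · exact h hy.four_dvd
  · have := hy.three_dvd; tauto
  split_ifs at h with h1
  · obtain ⟨h1, h2, h3⟩ := h1
    simp only [Bool.or_eq_true, decide_eq_true_eq, Bool.and_eq_true, List.all_eq_true,
      bne_iff_ne, ne_eq] at h
    rcases h with h | ⟨⟨h4, h5⟩, h6⟩
    · have := hy.U4 hp h2; omega
    rcases cross hy hp h2 h1 with h | ⟨j, hj, h⟩ | ⟨s, g, hv, hs, h30, rfl⟩
    · exact h3 h
    · rcases h4 with h4 | h4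
      · exact absurd (CL_le _ h) (not_le.2 h4)
      · have := h4 _ h; simp at this
    · refine rootT_sound hv.hS hv.two_le (hv.not_dvd hp hs) ?_
      rw [td_A2 _ (by omega)]
      split_ifs
      · exact h5
      · exact h6
  · exact fullNP_sound hp h hy

end Pool.Agent.Lib.MP_343319_al
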