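import Pool.Agent.Lib.MP_343319_al.NotNP

namespace Pool.Agent.Lib.MP_343319_al

def p0a (u : ℕ × ℕ × ℕ) : Bool :=
  decide ((u.1 ^ u.2.2) ^ 8 < u.2.1 ^ 3) ||
    enumL u.1 (if u.1 = 2 then 72 else 29 / Nat.log2 u.1) fun z =>
      z % u.2.1 != 0 || force (z / u.2.1) (notNP u.1)

lemma p0a_all : CL.all p0a = true := by decide +kernel

def p0b (u : ℕ × ℕ × ℕ) : Bool :=
  decide (4 * (u.1 ^ u.2.2) ^ 3 < u.2.1) ||
    (List.range' 1 (4 * u.2.2 + 53)).all fun f => force (ord .A 2 (u.1 ^ f)) fun z =>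
      z % u.2.1 != 0 || force (z / u.2.1) (notNP u.1)

lemma p0b_all : CL.all p0b = true := by decide +kernel

lemma BigPSL.not_small {p x i : ℕ} (h : BigPSL p x) (hp : p.Prime) (hi : p ^ i ∣ x) :
    (p ^ i) ^ 8 < x ^ 3 := by
  obtain ⟨s, g, hv, hs, h30, rfl⟩ := h
  have h1 : p ^ i ≤ s ^ g + 1 := by
    rcases psl_dvd hv hp hs hi with h | h <;> have := Nat.le_of_dvd (by omega) h <;> omega
  have h2 := td_ord_A2 (s ^ g)
  have h3 := td_le_dmax hv.hS (s ^ g)
  simp only [dmax] at h3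
  have h4 := Nat.mul_le_mul_right (ord .A 2 (s ^ g)) h3
  have h5 := Nat.pow_le_pow_left h1 8
  rw [sq_sub_one] at h2
  obtain ⟨c, hc⟩ : ∃ c, s ^ g = c + 30 := ⟨s ^ g - 30, by omega⟩
  rw [hc] at h2 h4 h5 ⊢
  have e : c + 30 - 1 = c + 29 := by omega
  rw [e] at h2
  rw [h2] at h4
  have h6 := Nat.pow_le_pow_left h4 3
  have : 8 * (c + 30 + 1) ^ 8 < ((c + 30) * ((c + 30 + 1) * (c + 29))) ^ 3 := by
    ring_nf; omega
  rw [mul_pow 2] at h6
  omega

lemma P0_big {t : Ty} {n p f x y i j : ℕ} (hv : Val t n p f) (h1 : ¬(t = .A ∧ n = 2))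
    (hx : NonP p x) (hy : NonP p y) (h : x * y = ord t n (p ^ f)) (hij : i + j = f * tN t n)
    (hi : p ^ i ∣ x) (hj : p ^ j ∣ y) (hs : x ^ 3 ≤ (p ^ i) ^ 8) : False := by
  have hp := hv.hp
  have hx0 := hx.ge
  have hi1 : 1 ≤ i := by
    rcases i with _ | i
    · have := Nat.pow_le_pow_left hx0 3
      simp at hs; omega
    · omega
  rcases cross hx hp hi hi1 with h2 | ⟨k, hk, h2⟩ | h2
  · have h3 := Nat.pow_lt_pow_left h2.1 (n := 3) (by norm_num)
    have h4 : (p ^ i) ^ 8 ≤ (p ^ i) ^ 9 := Nat.pow_le_pow_right (pow_pos hp.pos _) (by norm_num)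
    rw [mul_pow, ← pow_mul, show 3 * 3 = 9 by rfl] at h3
    omega
  swap
  · have := BigPSL.not_small h2 hp hi; omega
  have h3 := List.all_eq_true.1 p0a_all _ h2
  simp only [p0a, Bool.or_eq_true, decide_eq_true_eq] at h3
  rcases h3 with h3 | h3
  · have := Nat.pow_le_pow_left (Nat.pow_le_pow_right hp.pos hk) 8
    omega
  have h4 : p ^ (f * tN t n) ≤ c4 p ^ 6 := by
    have a := Nat.mul_le_mul (hx.U4 hp hi) (hy.U4 hp hj)
    have b := ord_cube_le hv.two_le hv.hS h1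
    rw [← mul_pow, ← pow_add, hij] at a
    rw [← pow_mul p, ← h] at b
    have hP : 0 < p ^ (f * tN t n) := pow_pos hp.pos _
    generalize p ^ (f * tN t n) = P at *
    have c := Nat.pow_le_pow_left a 3
    refine Nat.le_of_mul_le_mul_right ?_ (pow_pos hP 8)
    calc P * P ^ 8 = (P ^ 3) ^ 3 := by ring
      _ ≤ _ := c
      _ = c4 p ^ 6 * (x * y) ^ 3 := by ring
      _ ≤ _ := Nat.mul_le_mul_left _ b
  have h5 : f * tN t n ≤ if p = 2 then 72 else 29 / Nat.log2 p := by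
    simp only [c4] at h4
    split_ifs at h4 ⊢ with h5
    · subst h5
      exact (Nat.pow_le_pow_iff_right (a := 2) (by norm_num)).1 (h4.trans (by norm_num))
    · have h2 := hp.two_le
      have h7 : 2 ^ Nat.log2 p ≤ p := Nat.log2_self_le (by omega)
      have h8 : 1 ≤ Nat.log2 p := (Nat.le_log2 (by omega)).2 (by omega)
      rw [Nat.le_div_iff_mul_le h8, mul_comm]
      have := (Nat.pow_le_pow_left h7 (f * tN t n)).trans h4
      rw [← pow_mul] at this
      exact (Nat.pow_le_pow_iff_right (a := 2) (by norm_num)).1 (this.trans (by norm_num))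
  have h6 := enumL_sound h3 hv h5
  simp only [← h, Nat.mul_mod_right, bne_self_eq_false, Bool.false_or, force_eq,
    Nat.mul_div_cancel_left _ (show 0 < x by omega)] at h6
  exact notNP_sound hp h6 hy

lemma quad_lo {u e : ℤ} (he : e = 1 ∨ e = -1) (hu : 30 ≤ u - e) :
    9 * u ^ 2 ≤ 10 * ((u - e) * (u - 2 * e)) := by
  rcases he with rfl | rfl <;> nlinarith

lemma quad_hi {u e : ℤ} (he : e = 1 ∨ e = -1) (hu : 30 ≤ u - e) :
    100 * ((u - e) * (u - 2 * e)) ≤ 111 * u ^ 2 := by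
  rcases he with rfl | rfl <;> nlinarith

lemma cl_arith {a b d x m e d' : ℤ} (ha0 : 0 < a) (hb : 0 < b) (h9 : 0 < d) (hx0 : 0 < x)
    (hm : 1 ≤ m) (he : e = 1 ∨ e = -1) (h30 : 30 ≤ m * b - e) (hd2 : 1 ≤ d' ∧ d' ≤ 2)
    (h11 : d' * a * ((a * b) ^ 2 - 1) = d * x * m * ((m * b - e) * (m * b - 2 * e))) :
    a * b ≤ 2 ^ 53 * a ^ 4 := by
  have he2 : e ^ 2 = 1 := by rcases he with rfl | rfl <;> norm_num
  have h12 : b ∣ d' * a + 2 * (d * x * m) :=
    ⟨d' * a * a ^ 2 * b - d * x * m * (m * m * b - 3 * m * e), by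
      linear_combination (-1) * h11 - 2 * d * x * m * he2⟩
  have hdxm : 0 < d * x * m := by positivity
  have hda : d' * a ≤ 2 * a := mul_le_mul_of_nonneg_right hd2.2 ha0.le
  have hda0 : 0 < d' * a := mul_pos (by omega) ha0
  have h13 := Int.le_of_dvd (by omega) h12
  have h14 := quad_lo he h30
  generalize d * x * m = w at *
  have h15 : 9 * (w * m ^ 2) ≤ 20 * a ^ 3 := by
    have hb2 : 0 < b ^ 2 := by positivity
    refine le_of_mul_le_mul_right ?_ hb2
    have h16 : d' * a * ((a * b) ^ 2 - 1) ≤ 2 * a * (a * b) ^ 2 :=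
      mul_le_mul hda (by omega) (by have : 0 < (a * b) ^ 2 := by positivity
                                    omega) (by omega)
    have h17 := mul_le_mul_of_nonneg_left h14 hdxm.le
    calc 9 * (w * m ^ 2) * b ^ 2 = w * (9 * (m * b) ^ 2) := by ring
      _ ≤ _ := h17
      _ = 10 * (d' * a * ((a * b) ^ 2 - 1)) := by rw [h11]; ring
      _ ≤ 10 * (2 * a * (a * b) ^ 2) := by omega
      _ = _ := by ring
  have h16 : w ≤ w * m ^ 2 := le_mul_of_one_le_right hdxm.le (one_le_pow₀ hm)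
  have h17 : a ≤ a ^ 3 := le_self_pow₀ (by omega) (by norm_num)
  have h18 : b ≤ 7 * a ^ 3 := by omega
  have h19 := mul_le_mul_of_nonneg_left h18 ha0.le
  have h20 : a * (7 * a ^ 3) = 7 * a ^ 4 := by ring
  have := pow_pos ha0 4
  omega

lemma psl_arith {a b d k m e e' d1 d2 : ℤ} (ha : 0 < a) (hb : 0 < b) (hk : 1 ≤ k) (hm : 1 ≤ m)
    (he : e = 1 ∨ e = -1) (he' : e' = 1 ∨ e' = -1) (h30 : 30 ≤ k * a - e) (h30' : 30 ≤ m * b - e')
    (hd1 : d1 = 1 ∧ (k * a - e) % 2 = 0 ∨ d1 = 2 ∧ (k * a - e) % 2 = 1)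
    (hd2 : d2 = 1 ∧ (m * b - e') % 2 = 0 ∨ d2 = 2 ∧ (m * b - e') % 2 = 1)
    (hpar : d = 1 ∧ a % 2 = 0 ∧ b % 2 = 0 ∨ d = 2 ∧ a % 2 = 1 ∧ b % 2 = 1)
    (h11 : d1 * d2 * ((a * b) ^ 2 - 1) =
      d * (k * m) * (((k * a - e) * (k * a - 2 * e)) * ((m * b - e') * (m * b - 2 * e')))) :
    False := by
  have l1 := quad_lo he h30
  have l2 := quad_lo he' h30'
  have u1 := quad_hi he h30
  have u2 := quad_hi he' h30'
  generalize (k * a - e) * (k * a - 2 * e) = X at *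
  generalize (m * b - e') * (m * b - 2 * e') = Y at *
  have hka : 0 < (k * a) ^ 2 := by positivity
  have hmb : 0 < (m * b) ^ 2 := by positivity
  have hab : 0 < (a * b) ^ 2 := by positivity
  have l3 : 81 * ((k * m) ^ 2 * (a * b) ^ 2) ≤ 100 * (X * Y) :=
    calc _ = 9 * (k * a) ^ 2 * (9 * (m * b) ^ 2) := by ring
      _ ≤ _ := mul_le_mul l1 l2 (by positivity) (by linarith)
      _ = _ := by ring
  have u3 : 10000 * (X * Y) ≤ 12321 * ((k * m) ^ 2 * (a * b) ^ 2) :=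
    calc _ = 100 * X * (100 * Y) := by ring
      _ ≤ _ := mul_le_mul u1 u2 (by linarith) (by positivity)
      _ = _ := by ring
  have hK : 1 ≤ k * m := one_le_mul_of_one_le_of_one_le hk hm
  have hd : (1 : ℤ) ≤ d := by omega
  have hD : 1 ≤ d1 * d2 ∧ d1 * d2 ≤ 4 := by
    rcases hd1 with ⟨rfl, -⟩ | ⟨rfl, -⟩ <;> rcases hd2 with ⟨rfl, -⟩ | ⟨rfl, -⟩ <;> norm_num
  have h12 : 81 * (d * (k * m) ^ 3) ≤ 100 * (d1 * d2) := by
    refine le_of_mul_le_mul_right ?_ hab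
    calc _ = d * (k * m) * (81 * ((k * m) ^ 2 * (a * b) ^ 2)) := by ring
      _ ≤ _ := mul_le_mul_of_nonneg_left l3 (show (0 : ℤ) ≤ d * (k * m) by positivity)
      _ = 100 * (d1 * d2 * ((a * b) ^ 2 - 1)) := by rw [h11]; ring
      _ = 100 * (d1 * d2) * (a * b) ^ 2 - 100 * (d1 * d2) := by ring
      _ ≤ _ := by omega
  have h13 : k * m = 1 := by
    by_contra hc
    have h14 : 2 ≤ k * m := by omega
    have h15 : 2 ^ 3 ≤ (k * m) ^ 3 := pow_le_pow_left₀ (by norm_num) h14 3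
    have : (k * m) ^ 3 ≤ d * (k * m) ^ 3 := le_mul_of_one_le_left (by positivity) hd
    omega
  have hk1 : k = 1 := Int.eq_one_of_mul_eq_one_right (by omega) h13
  have hm1 : m = 1 := Int.eq_one_of_mul_eq_one_left (by omega) h13
  subst hk1 hm1
  simp only [one_mul, mul_one, one_pow] at *
  rcases hpar with ⟨h14, h15, h16⟩ | ⟨h14, h15, h16⟩
  · have : d1 = 2 := by omega
    have : d2 = 2 := by omega
    subst d1 d2
    rw [h14] at h11
    have h17 : 29 ≤ a := by omega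
    have h18 : a ≤ a * b := le_mul_of_one_le_right ha.le (by omega)
    have h19 : 2 ^ 2 ≤ (a * b) ^ 2 := pow_le_pow_left₀ (by norm_num) (by omega) 2
    omega
  · have : d1 = 1 := by omega
    have : d2 = 1 := by omega
    subst d1 d2
    omega

lemma A2_lt (q : ℕ) (hq : 2 ≤ q) : ord .A 2 q ≤ q ^ 3 := ord_le (t := .A) (n := 2) hq rfl

lemma P0_CL {p f x y i j k : ℕ} (hv : Val .A 2 p f) (hx : NonP p x) (hy : NonP p y)
    (h : x * y = ord .A 2 (p ^ f)) (hij : i + j = f) (hi : p ^ i ∣ x) (hj : p ^ j ∣ y)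
    (hs : x ≤ 4 * (p ^ i) ^ 3) (hk : i ≤ k) (hC : (p, x, k) ∈ CL) : False := by
  have hp := hv.hp
  have hx0 := hx.ge
  have ha := Nat.pow_le_pow_right hp.pos hk
  have h3 := List.all_eq_true.1 p0b_all _ hC
  simp only [p0b, Bool.or_eq_true, decide_eq_true_eq, List.all_eq_true] at h3
  rcases h3 with h3 | h3
  · have := Nat.pow_le_pow_left ha 3
    omega
  have hq : p ^ f = p ^ i * p ^ j := by rw [← pow_add, hij]
  have h4 : p ^ f ≤ 2 ^ 53 * (p ^ i) ^ 4 := by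
    rcases hy.U6 hp hj with h5 | h5
    · have h6 := A2_lt _ hv.two_le
      rw [← h] at h6
      have h7 : c6 p ≤ 2 ^ 53 := by simp only [c6]; split_ifs <;> omega
      have h8 : y ≤ (p ^ f) ^ 3 := le_trans (Nat.le_mul_of_pos_left _ (by omega)) h6
      refine Nat.le_of_mul_le_mul_right ?_ (pow_pos (pow_pos hp.pos f) 3)
      calc p ^ f * (p ^ f) ^ 3 = (p ^ i) ^ 4 * (p ^ j) ^ 4 := by rw [hq]; ring
        _ ≤ (p ^ i) ^ 4 * (2 ^ 53 * (p ^ f) ^ 3) :=
          Nat.mul_le_mul_left _ (h5.trans (Nat.mul_le_mul h7 h8))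
        _ = _ := by ring
    · obtain ⟨m, e, d', hm, he, h30, hd', h6⟩ := h5.form hp hj
      have h7 := td_ord_A2 (p ^ f)
      have h8 := td_le_dmax hv.hS (p ^ f)
      have h9 := td_pos (q := p ^ f) hv.hS
      simp only [dmax] at h8
      rw [← h] at h7
      have h10 : 1 ≤ (p ^ f) ^ 2 := Nat.one_le_pow _ _ (pow_pos hp.pos _)
      generalize td .A 2 (p ^ f) = d at *
      rw [hq] at h7 h10 ⊢
      have hb : 0 < p ^ j := pow_pos hp.pos _
      have ha0 : 0 < p ^ i := pow_pos hp.pos _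
      zify [h10] at h7 h8 h9 hb ha0 hx0 ⊢
      push_cast at h6 h30
      generalize (p : ℤ) ^ i = a at *
      generalize (p : ℤ) ^ j = b at *
      have hd2 : 1 ≤ d' ∧ d' ≤ 2 := by omega
      have h11 : d' * a * ((a * b) ^ 2 - 1) = d * x * m * ((m * b - e) * (m * b - 2 * e)) := by
        apply mul_left_cancel₀ hb.ne'
        linear_combination (-d') * h7 + d * x * h6
      exact cl_arith ha0 hb h9 (by omega) hm he h30 hd2 h11
  have h5 : f ≤ 4 * k + 53 := by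
    refine (Nat.pow_le_pow_iff_right hp.one_lt).1 (h4.trans ?_)
    rw [pow_add, mul_comm, mul_comm 4, pow_mul]
    exact Nat.mul_le_mul (Nat.pow_le_pow_left ha _) (Nat.pow_le_pow_left hp.two_le _)
  have h6 := h3 f (by have := hv.hf; rw [List.mem_range'_1]; omega)
  simp only [← h, Nat.mul_mod_right, bne_self_eq_false, Bool.false_or, force_eq,
    Nat.mul_div_cancel_left _ (show 0 < x by omega)] at h6
  exact notNP_sound hp h6 hy

lemma P0_PSL {p f x y i j : ℕ} (hv : Val .A 2 p f) (hx : BigPSL p x) (hy : BigPSL p y)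
    (h : x * y = ord .A 2 (p ^ f)) (hij : i + j = f) (hi : p ^ i ∣ x) (hj : p ^ j ∣ y)
    (hi1 : 1 ≤ i) (hj1 : 1 ≤ j) : False := by
  have hp := hv.hp
  obtain ⟨k, e, d1, hk, he, h30, hd1, h1⟩ := hx.form hp hi
  obtain ⟨m, e', d2, hm, he', h30', hd2, h2⟩ := hy.form hp hj
  have h7 := td_ord_A2 (p ^ f)
  have h8 := td_A2 (p ^ f) (pow_pos hp.pos _)
  have hq : p ^ f = p ^ i * p ^ j := by rw [← pow_add, hij]
  have hpar : (td .A 2 (p ^ f) = 1 ∧ p ^ i % 2 = 0 ∧ p ^ j % 2 = 0) ∨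
      (td .A 2 (p ^ f) = 2 ∧ p ^ i % 2 = 1 ∧ p ^ j % 2 = 1) := by
    rcases hp.eq_two_or_odd' with rfl | ho
    · have a : 2 ∣ 2 ^ i := dvd_pow_self 2 (by omega)
      have b : 2 ∣ 2 ^ j := dvd_pow_self 2 (by omega)
      have c : 2 ∣ 2 ^ f := dvd_pow_self 2 (by omega)
      rw [if_pos (by omega)] at h8
      omega
    · have a := Nat.odd_iff.1 (ho.pow (n := i))
      have b := Nat.odd_iff.1 (ho.pow (n := j))
      have c := Nat.odd_iff.1 (ho.pow (n := f))
      rw [if_neg (by omega)] at h8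
      omega
  rw [← h] at h7
  have h10 : 1 ≤ (p ^ f) ^ 2 := Nat.one_le_pow _ _ (pow_pos hp.pos _)
  clear h8
  generalize td .A 2 (p ^ f) = d at *
  rw [hq] at h7 h10
  have hb : 0 < p ^ j := pow_pos hp.pos _
  have ha : 0 < p ^ i := pow_pos hp.pos _
  zify [h10] at h7 hb ha hpar
  push_cast at h1 h2 h30 h30' hd1 hd2
  generalize (p : ℤ) ^ i = a at *
  generalize (p : ℤ) ^ j = b at *
  have h11 : d1 * d2 * ((a * b) ^ 2 - 1) =
      d * (k * m) * (((k * a - e) * (k * a - 2 * e)) * ((m * b - e') * (m * b - 2 * e'))) := by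
    apply mul_left_cancel₀ (mul_pos ha hb).ne'
    linear_combination (-d1 * d2) * h7 + d * d2 * y * h1 +
      d * (k * a * ((k * a - e) * (k * a - 2 * e))) * h2
  exact psl_arith ha hb hk hm he he' h30 h30' hd1 hd2 hpar h11

lemma P0_A2 {p f x y i j : ℕ} (hv : Val .A 2 p f) (hx : NonP p x) (hy : NonP p y)
    (h : x * y = ord .A 2 (p ^ f)) (hij : i + j = f) (hi : p ^ i ∣ x) (hj : p ^ j ∣ y)
    (hs : x ≤ (p ^ i) ^ 3) : False := by
  have hp := hv.hp
  have hx0 := hx.ge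
  have hy0 := hy.ge
  have hi1 : 1 ≤ i := by
    rcases i with _ | i
    · simp at hs; omega
    · omega
  rcases cross hx hp hi hi1 with h2 | ⟨k, hk, h2⟩ | h2
  · have := h2.1; omega
  · exact P0_CL hv hx hy h hij hi hj (by omega) hk h2
  have h3 := BigPSL.cube h2 hp hi
  have h4 := A2_lt _ hv.two_le
  rw [← h, ← hij, pow_add, mul_pow] at h4
  have h5 : y ≤ 4 * (p ^ j) ^ 3 := by
    refine Nat.le_of_mul_le_mul_left (h4.trans ?_) (show 0 < x by omega)
    calc _ ≤ 4 * x * (p ^ j) ^ 3 := Nat.mul_le_mul_right _ h3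
      _ = _ := by ring
  have hj1 : 1 ≤ j := by
    rcases j with _ | j
    · simp at h5; omega
    · omega
  rcases cross hy hp hj hj1 with h6 | ⟨k, hk, h6⟩ | h6
  · have := h6.1; omega
  · exact P0_CL hv hy hx (by rw [mul_comm, h]) (by omega) hj hi h5 hk h6
  · exact P0_PSL hv h2 h6 h hij hi hj hi1 hj1

theorem P0 {t : Ty} {n p f x y : ℕ} (hv : Val t n p f) (hx : NonP p x) (hy : NonP p y) :
    x * y ≠ ord t n (p ^ f) := by
  intro h
  have h1 := pow_dvd_ord (q := p ^ f) hv.hS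
  rw [← h, ← pow_mul] at h1
  obtain ⟨i, j, hij, hi, hj⟩ := pp_split hv.hp h1
  by_cases h2 : t = .A ∧ n = 2
  · obtain ⟨rfl, rfl⟩ := h2
    have hij' : i + j = f := by simpa [tN] using hij
    have h4 := A2_lt _ hv.two_le
    rw [← h, ← hij', pow_add, mul_pow] at h4
    by_cases h3 : x ≤ (p ^ i) ^ 3
    · exact P0_A2 hv hx hy h hij' hi hj h3
    · refine P0_A2 hv hy hx (by rw [mul_comm, h]) (by omega) hj hi ?_
      by_contra h5
      have := Nat.mul_lt_mul'' (not_le.1 h3) (not_le.1 h5)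
      omega
  · have b := ord_cube_le hv.two_le hv.hS h2
    rw [← pow_mul p, ← h, ← hij, pow_add, mul_pow, mul_pow] at b
    by_cases h3 : x ^ 3 ≤ (p ^ i) ^ 8
    · exact P0_big hv h2 hx hy h hij hi hj h3
    · refine P0_big hv h2 hy hx (by rw [mul_comm, h]) (by omega) hj hi ?_
      by_contra h5
      have := Nat.mul_lt_mul'' (not_le.1 h3) (not_le.1 h5)
      omega

end Pool.Agent.Lib.MP_343319_al
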