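import Pool.Agent.Lib.MP_343319_al.Win

namespace Pool.Agent.Lib.MP_343319_al

lemma lin_lt_pow {k : ℕ} (h : 7 ≤ k) : 8 * k + 16 < 2 ^ k := by
  induction k, h using Nat.le_induction with
  | base => norm_num
  | succ k hk ih => rw [pow_succ]; omega

section
variable {t t1 t2 : Ty} {n n1 n2 p f g h : ℕ} (hv : Val t n p f) (hv1 : Val t1 n1 p g)
  (hv2 : Val t2 n2 p h) (he : ord t1 n1 (p ^ g) * ord t2 n2 (p ^ h) = ord t n (p ^ f))
include hv hv1 hv2 he

lemma quotJ {k : ℕ} (h7 : 7 ≤ k) (hk : f * tr t n + k ≤ g * tr t1 n1) (hd : dmax t1 n1 ≤ 4 * k + 8) :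
    False := by
  have a := quotI hv hv1 hv2 he
  have b : p ^ (f * tr t n + k) ≤ p ^ (g * tr t1 n1) := Nat.pow_le_pow_right hv.hp.pos hk
  have c : 2 ^ k ≤ p ^ k := Nat.pow_le_pow_left hv.hp.two_le _
  have d := lin_lt_pow h7
  have e : 0 < p ^ (f * tr t n) := pow_pos hv.hp.pos _
  rw [pow_add, mul_comm] at b
  have := Nat.le_of_mul_le_mul_right (b.trans a) e
  omega

lemma case1 (hn : 25 ≤ n) (hn1 : 6 ≤ n1) (hH : g * tH t1 n1 = f * tH t n)
    (hs : st t1 * g = st t * f) : False := by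
  have ht := cl_of_pos hv.hS (by omega)
  have ht1 := cl_of_pos hv1.hS (by omega)
  have hf := hv.hf
  have hp := hv.hp
  have hN := val_add hv hv1 hv2 he
  have hpos : 0 < h * tN t2 n2 := Nat.mul_pos hv2.hf (by have := tr_le_tN hv2.hS; omega)
  have hK : tH t1 n1 * st t = st t1 * tH t n := by
    refine Nat.eq_of_mul_eq_mul_left hf ?_
    zify at hH hs ⊢
    linear_combination (st t1) * hH - (tH t1 n1) * hs
  have hlt : st t * tN t1 n1 < st t1 * tN t n := by
    refine Nat.lt_of_mul_lt_mul_left (a := f) ?_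
    have : st t1 * (g * tN t1 n1) < st t1 * (f * tN t n) :=
      Nat.mul_lt_mul_of_pos_left (by omega) (st_pos t1)
    calc f * (st t * tN t1 n1) = st t * f * tN t1 n1 := by ring
      _ = st t1 * (g * tN t1 n1) := by rw [← hs]; ring
      _ < _ := this
      _ = _ := by ring
  obtain ⟨k, rfl⟩ : ∃ k, n = k + 1 := ⟨n - 1, by omega⟩
  obtain ⟨k1, rfl⟩ : ∃ k, n1 = k + 1 := ⟨n1 - 1, by omega⟩
  have a := two_tri (k + 1)
  have a1 := two_tri (k1 + 1)
  obtain ⟨w, hw⟩ : ∃ w, h * tN t2 n2 = w := ⟨_, rfl⟩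
  rw [hw] at hN
  have hfk : ∀ i, i ≤ f * i := fun i => Nat.le_mul_of_pos_left _ hf
  rcases ht with rfl | rfl | rfl | rfl | rfl <;> rcases ht1 with rfl | rfl | rfl | rfl | rfl <;>
    simp only [st, tH, tN, Nat.add_sub_cancel] at hK hlt hs a a1 hN
  · obtain rfl : k1 = k := by omega
    omega
  · split_ifs at hK <;> omega
  · obtain rfl : k1 = k := by omega
    nlinarith
  · obtain rfl : k1 = k + 1 := by omega
    nlinarith
  · obtain rfl : k1 = k := by omega
    omega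
  · split_ifs at hK <;> omega
  · have h1 : k = k1 + 1 ∧ k % 2 = 1 := by
      by_contra hc
      have h2 : k ≤ k1 := by split_ifs at hK <;> omega
      have : (k + 1) * k ≤ (k1 + 1) * k1 := Nat.mul_le_mul (by omega) h2
      omega
    obtain ⟨rfl, h2⟩ := h1
    obtain rfl : g = f := by omega
    have hc : tR .U (k1 + 1 + 1) (p ^ g) = tR .U (k1 + 1) (p ^ g) * (p ^ (g * (k1 + 2)) - 1) := by
      simp only [tR, Nat.add_sub_cancel, pU]
      rw [if_pos (by omega), pow_mul]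
    have h3 := quotC hv hv1 hv2 he hc dvd_rfl (by have := hfk (k1 + 2); omega)
      (Or.inr (top_cond hf (by omega)))
    have h4 := quotB hv hv1 hv2 he hc (Nat.sub_le _ _) (by have := hfk (k1 + 2); omega) h3
    have h5 := td_le_succ (t := .U) (n := k1 + 1) hv.two_le (Or.inr rfl)
    have h6 : h * tN t2 n2 = g * (k1 + 1) := by
      have : (k1 + 1 + 1) * (k1 + 1) / 2 = (k1 + 1) * k1 / 2 + (k1 + 1) := tri_succ k1
      rw [this, mul_add] at hN
      omega
    have h7 : p ^ g + 1 < (p ^ g) ^ 2 := by have := hv.two_le; nlinarith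
    have h8 := Nat.pow_lt_pow_left (lt_of_le_of_lt h5 h7) (n := 8) (by norm_num)
    have h9 := lt_of_le_of_lt h4 (Nat.mul_lt_mul_of_pos_right h8 (pow_pos hp.pos _))
    rw [← pow_mul, ← pow_mul, ← pow_add, h6] at h9
    have h10 := (Nat.pow_lt_pow_iff_right hp.one_lt).1 h9
    have : g * 23 ≤ g * k1 := Nat.mul_le_mul_left _ (by omega)
    nlinarith
  · split_ifs at hK <;> omega
  · split_ifs at hK <;> omega
  · split_ifs at hK <;> omega
  · obtain rfl : k1 = k := by omega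
    obtain rfl : g = 2 * f := by omega
    refine quotJ hv hv1 hv2 he (k := k1 - 1) (by omega) ?_ (by simp only [dmax]; omega)
    have := hfk (k1 - 1)
    obtain ⟨c, rfl⟩ : ∃ c, k1 = c + 1 := ⟨k1 - 1, by omega⟩
    simp only [tr, Nat.add_sub_cancel] at this ⊢
    nlinarith
  · split_ifs at hK <;> omega
  · obtain rfl : k1 = k := by omega
    omega
  · obtain rfl : k1 = k + 1 := by omega
    nlinarith
  · obtain rfl : k1 = k := by omega
    obtain rfl : g = f := by omega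
    have hc : tR .B (k1 + 1) (p ^ g) = tR .E (k1 + 1) (p ^ g) * (p ^ (g * (k1 + 1)) - 1) := by
      simp only [tR, Nat.add_sub_cancel, pB]
      rw [mul_comm 2, pow_mul, sq_sub_one, pow_mul]; ring
    have h3 := quotC hv hv1 hv2 he hc dvd_rfl (by have := hfk (k1 + 1); omega)
      (Or.inl (by simp [dmax]))
    have h4 := quotD hv hv1 hv2 he hc (Nat.sub_le _ _) (by have := hfk (k1 + 1); omega) h3 le_rfl
    have := hfk (k1 + 1)
    nlinarith
  · obtain rfl : k = k1 + 1 := by omega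
    obtain rfl : g = 2 * f := by omega
    refine quotJ hv hv1 hv2 he (k := k1 - 2) (by omega) ?_ (by simp only [dmax]; omega)
    have := hfk (k1 - 2)
    obtain ⟨c, rfl⟩ : ∃ c, k1 = c + 2 := ⟨k1 - 2, by omega⟩
    simp only [tr, Nat.add_sub_cancel] at this ⊢
    nlinarith
  · split_ifs at hK <;> omega
  · obtain rfl : k = k1 + 1 := by omega
    obtain rfl : g = f := by omega
    have hc : tR .D (k1 + 1 + 1) (p ^ g) = tR .B (k1 + 1) (p ^ g) * (p ^ (g * (k1 + 2)) - 1) := by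
      simp only [tR, Nat.add_sub_cancel]
      rw [pow_mul]; ring
    have h3 := quotC hv hv1 hv2 he hc dvd_rfl (by have := hfk (k1 + 2); omega)
      (Or.inl (by simp [dmax]))
    have h4 := quotD hv hv1 hv2 he hc (Nat.sub_le _ _) (by have := hfk (k1 + 2); omega) h3
      (by simp [dmax])
    have : g * 23 ≤ g * k1 := Nat.mul_le_mul_left _ (by omega)
    nlinarith
  · obtain rfl : k1 = k := by omega
    omega
  · obtain rfl : k = k1 + 1 := by omega
    obtain rfl : g = f := by omega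
    have hc : tR .D (k1 + 1 + 1) (p ^ g) = tR .E (k1 + 1) (p ^ g) *
        ((p ^ (g * (k1 + 2)) - 1) * (p ^ (g * (k1 + 1)) - 1)) := by
      simp only [tR, Nat.add_sub_cancel, pB]
      rw [mul_comm 2, pow_mul, sq_sub_one, pow_mul, pow_mul]; ring
    have h3 := quotC hv hv1 hv2 he hc (Dvd.intro _ rfl) (by have := hfk (k1 + 2); omega)
      (Or.inl (by simp [dmax]))
    have h4 := quotD hv hv1 hv2 he hc (k := g * (k1 + 2) + g * (k1 + 1)) (by
      rw [pow_add]; exact Nat.mul_le_mul (Nat.sub_le _ _) (Nat.sub_le _ _))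
      (by have := hfk (k1 + 2); omega) h3 le_rfl
    have : g * 23 ≤ g * k1 := Nat.mul_le_mul_left _ (by omega)
    nlinarith
  · obtain rfl : k1 = k := by omega
    omega
  · split_ifs at hK <;> omega
  · obtain rfl : k1 = k := by omega
    nlinarith
  · obtain rfl : k1 = k + 1 := by omega
    nlinarith
  · obtain rfl : k1 = k := by omega
    omega

omit hv hv1 hv2 he in
lemma step_down {t : Ty} {n : ℕ} (ht : Cl t) (hn : 6 ≤ n) (h : tH t n + st t ∣ 4 * tN t n) :
    t = .D := by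
  obtain ⟨k, rfl⟩ : ∃ k, n = k + 1 := ⟨n - 1, by omega⟩
  have a := two_tri (k + 1)
  rcases ht with rfl | rfl | rfl | rfl | rfl <;>
    simp only [st, tH, tN, Nat.add_sub_cancel] at h a
  · exfalso
    rw [show 4 * ((k + 1) * k / 2) = (k + 1 + 1) * (2 * (k - 1)) + 4 by
      obtain ⟨c, rfl⟩ : ∃ c, k = c + 1 := ⟨k - 1, by omega⟩
      simp only [Nat.add_sub_cancel]; nlinarith] at h
    have := Nat.le_of_dvd (by norm_num) ((Nat.dvd_add_right (Dvd.intro _ rfl)).1 h)
    omega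
  · exfalso
    split_ifs at h
    · rw [show 4 * ((k + 1) * k / 2) = (2 * (k + 1) + 4) * (k - 2) + 12 by
        obtain ⟨c, rfl⟩ : ∃ c, k = c + 2 := ⟨k - 2, by omega⟩
        simp only [Nat.add_sub_cancel]; nlinarith] at h
      have := Nat.le_of_dvd (by norm_num) ((Nat.dvd_add_right (Dvd.intro _ rfl)).1 h)
      omega
    · rw [show 4 * ((k + 1) * k / 2) = (2 * k + 4) * (k - 1) + 4 by
        obtain ⟨c, rfl⟩ : ∃ c, k = c + 1 := ⟨k - 1, by omega⟩
        simp only [Nat.add_sub_cancel]; nlinarith] at h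
      have := Nat.le_of_dvd (by norm_num) ((Nat.dvd_add_right (Dvd.intro _ rfl)).1 h)
      omega
  · exfalso
    rw [show 4 * ((k + 1) * (k + 1)) = (2 * (k + 1) + 2) * (2 * k) + 4 by ring] at h
    have := Nat.le_of_dvd (by norm_num) ((Nat.dvd_add_right (Dvd.intro _ rfl)).1 h)
    omega
  · rfl
  · exfalso
    rw [show 4 * ((k + 1) * k) = (2 * (k + 1) + 2) * (2 * (k - 1)) + 8 by
      obtain ⟨c, rfl⟩ : ∃ c, k = c + 1 := ⟨k - 1, by omega⟩
      simp only [Nat.add_sub_cancel]; ring] at h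
    have := Nat.le_of_dvd (by norm_num) ((Nat.dvd_add_right (Dvd.intro _ rfl)).1 h)
    omega

lemma case3 (hn : 25 ≤ n) (hn1 : 6 ≤ n1) (hH : g * tH t1 n1 + st t1 * g = f * tH t n)
    (hs : st t1 * g = st t * f) (hH2 : h * tH t2 n2 = f * tH t n) : False := by
  have ht := cl_of_pos hv.hS (by omega)
  have hf := hv.hf
  have hp := hv.hp
  have hN := val_add hv hv1 hv2 he
  have hpos : 0 < h * tN t2 n2 := Nat.mul_pos hv2.hf (by have := tr_le_tN hv2.hS; omega)
  have h1 : t1 = .D := by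
    refine step_down (cl_of_pos hv1.hS (by omega)) hn1 (Nat.dvd_of_mul_dvd_mul_left hv1.hf ?_)
    have b1 := Nat.mul_dvd_mul_left f (tH_dvd hv.hS)
    have b2 := Nat.mul_dvd_mul_left h (tH_dvd hv2.hS)
    rw [hH2] at b2
    rw [mul_add, mul_comm g (st t1), hH]
    have e : f * (4 * tN t n) = h * (4 * tN t2 n2) + g * (4 * tN t1 n1) := by linarith
    rw [e] at b1
    exact (Nat.dvd_add_right b2).1 b1
  subst h1
  have hK : (tH .D n1 + 2) * st t = 2 * tH t n := by
    refine Nat.eq_of_mul_eq_mul_left hf ?_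
    simp only [st] at hH
    change 2 * g = _ at hs
    zify at hH hs ⊢
    linear_combination 2 * hH - (tH .D n1 + 2) * hs
  obtain ⟨k, rfl⟩ : ∃ k, n = k + 1 := ⟨n - 1, by omega⟩
  obtain ⟨k1, rfl⟩ : ∃ k, n1 = k + 1 := ⟨n1 - 1, by omega⟩
  have a := two_tri (k + 1)
  obtain ⟨w, hw⟩ : ∃ w, h * tN t2 n2 = w := ⟨_, rfl⟩
  obtain ⟨w2, hw2⟩ : ∃ w, h * tH t2 n2 = w := ⟨_, rfl⟩
  rw [hw] at hN
  rw [hw2] at hH2
  have hfk : ∀ i, i ≤ f * i := fun i => Nat.le_mul_of_pos_left _ hf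
  have hle : ∀ i, p ^ (f * i) + 1 ≤ p ^ (f * i + 1) := fun i => by
    have : 1 ≤ p ^ (f * i) := Nat.one_le_pow _ _ hp.pos
    have := Nat.mul_le_mul_left (p ^ (f * i)) hp.two_le
    rw [pow_succ]; omega
  rcases ht with rfl | rfl | rfl | rfl | rfl <;>
    simp only [st, tH, tN, Nat.add_sub_cancel] at hK hs a hN hH2
  · obtain rfl : k1 = k := by omega
    obtain rfl : f = 2 * g := by omega
    rw [mul_comm 2, mul_assoc, a] at hN
    omega
  · split_ifs at hK <;> omega
  · obtain rfl : k1 = k := by omega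
    obtain rfl : g = f := by omega
    have hc : tR .B (k1 + 1) (p ^ g) = tR .D (k1 + 1) (p ^ g) * (p ^ (g * (k1 + 1)) + 1) := by
      simp only [tR, Nat.add_sub_cancel, pB]
      rw [mul_comm 2, pow_mul, sq_sub_one, pow_mul]; ring
    have h4 := quotD hv hv1 hv2 he hc (hle _) (by have := hfk (2 * (k1 + 1)); omega) (hw2.trans hH2).ge le_rfl
    have := hfk (k1 + 1)
    nlinarith
  · obtain rfl : k = k1 + 1 := by omega
    obtain rfl : g = f := by omega
    have hc : tR .D (k1 + 1 + 1) (p ^ g) = tR .D (k1 + 1) (p ^ g) *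
        ((p ^ (g * (k1 + 2)) - 1) * (p ^ (g * (k1 + 1)) + 1)) := by
      simp only [tR, Nat.add_sub_cancel, pB]
      rw [mul_comm 2, pow_mul, sq_sub_one, pow_mul, pow_mul]; ring
    have h4 := quotD hv hv1 hv2 he hc (k := g * (k1 + 2) + (g * (k1 + 1) + 1)) (by
      rw [pow_add]; exact Nat.mul_le_mul (Nat.sub_le _ _) (hle _))
      (by have := hfk (2 * (k1 + 1)); omega) (hw2.trans hH2).ge le_rfl
    have : g * 23 ≤ g * k1 := Nat.mul_le_mul_left _ (by omega)
    nlinarith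
  · obtain rfl : k1 = k := by omega
    obtain rfl : g = f := by omega
    omega

end

lemma not_om_U {m u i : ℕ} (hu : 1 ≤ u) (hi : i % 2 = 1) (hm : m < 2 * i) :
    inOm (i * u) .U m u = false := by
  rw [Bool.eq_false_iff, Ne, inOm_iff]
  rintro ⟨s, hs, h1, h2⟩
  obtain ⟨j, a, b, rfl⟩ := mem_facs_U.1 hs
  rw [mul_comm i] at h1 h2
  have h3 := Nat.dvd_of_mul_dvd_mul_left hu h1
  simp only [top] at h3 h2
  have hc : Nat.Coprime i 2 := (Nat.coprime_two_right.2 (Nat.odd_iff.2 hi))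
  rcases Nat.mod_two_eq_zero_or_one j with h4 | h4 <;> rw [h4] at h3 h2
  · have h5 := Nat.Coprime.mul_dvd_of_dvd_of_dvd hc (by simpa using h3) (Nat.dvd_of_mod_eq_zero h4)
    have := Nat.le_of_dvd (by omega) h5
    omega
  · exact (h2.resolve_left (by norm_num)) (Nat.mul_dvd_mul_left _ (hc.dvd_of_dvd_mul_right h3))

lemma not_om_X {t : Ty} {m x u i : ℕ} (ht : Cl t) (htU : t ≠ .U) (hm : 2 ≤ m) (hu : 1 ≤ u)
    (hi : i % 2 = 1) (hx : st t * x = 4 * u) (hH : tH t m + st t < st t * i) :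
    inOm (i * u) t m x = false := by
  rw [Bool.eq_false_iff, Ne, inOm_iff]
  rintro ⟨s, hs, h1, -⟩
  have hc : Nat.Coprime i 4 := (Nat.coprime_two_right.2 (Nat.odd_iff.2 hi)).pow_right 2
  have key : ∀ j, 1 ≤ j → j < i → x * top s ∣ u * (4 * j) → False := by
    intro j a b c
    rw [mul_comm i] at h1
    have := Nat.le_of_dvd a (hc.dvd_of_dvd_mul_left (Nat.dvd_of_mul_dvd_mul_left hu (h1.trans c)))
    omega
  rcases ht with rfl | rfl | rfl | rfl | rfl <;> simp only [st, tH] at hx hH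
  · obtain ⟨j, a, b, rfl⟩ := mem_facs_A.1 hs
    obtain rfl : x = 4 * u := by omega
    exact key j (by omega) (by omega) ⟨1, by simp [top]; ring⟩
  · exact htU rfl
  · obtain ⟨j, a, b, rfl⟩ := mem_facs_B.1 hs
    obtain rfl : x = 2 * u := by omega
    exact key j (by omega) (by omega) ⟨1, by simp [top]; ring⟩
  · obtain rfl : x = 2 * u := by omega
    rcases mem_facs_D.1 hs with rfl | ⟨j, a, b, rfl⟩
    · exact key m (by omega) (by omega) ⟨2, by simp [top]; ring⟩
    · exact key j (by omega) (by omega) ⟨1, by simp [top]; ring⟩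
  · obtain rfl : x = 2 * u := by omega
    rcases mem_facs_E.1 hs with rfl | ⟨j, a, b, rfl⟩
    · exact key m (by omega) (by omega) ⟨1, by simp [top]; ring⟩
    · exact key j (by omega) (by omega) ⟨1, by simp [top]; ring⟩

lemma om_half {t : Ty} {n f u i : ℕ} (ht : Cl t) (htU : t ≠ .U) (hi : 2 ≤ i) (hn : i + 1 ≤ n)
    (hx : st t * f = 2 * u) : inOm (i * u) t n f = true := by
  rw [inOm_iff]
  have key : ∀ s ∈ facs t n, s.2 = 0 → top s = st t * i →
      ∃ s ∈ facs t n, i * u ∣ f * top s ∧ (s.2 = 0 ∨ ¬i * u ∣ f * s.1) := fun s a b c =>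
    ⟨s, a, ⟨2, by rw [c, ← mul_assoc, mul_comm f, hx]; ring⟩, Or.inl b⟩
  rcases ht with rfl | rfl | rfl | rfl | rfl
  · exact key _ (mem_facs_A.2 ⟨i, by omega, by omega, rfl⟩) rfl (by simp [top, st])
  · exact absurd rfl htU
  · exact key _ (mem_facs_B.2 ⟨i, by omega, by omega, rfl⟩) rfl (by simp [top, st])
  · exact key _ (mem_facs_D.2 (Or.inr ⟨i, by omega, by omega, rfl⟩)) rfl (by simp [top, st])
  · exact key _ (mem_facs_E.2 (Or.inr ⟨i, by omega, by omega, rfl⟩)) rfl (by simp [top, st])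

lemma tH_nonU {t : Ty} {n : ℕ} (ht : Cl t) (htU : t ≠ .U) :
    ∃ K, tH t n = st t * K ∧ K ≤ n ∧ n ≤ K + 1 := by
  rcases ht with rfl | rfl | rfl | rfl | rfl
  · exact ⟨n, by simp [tH, st], by omega, by omega⟩
  · exact absurd rfl htU
  · exact ⟨n, by simp [tH, st], by omega, by omega⟩
  · exact ⟨n - 1, by simp [tH, st], by omega, by omega⟩
  · exact ⟨n, by simp [tH, st], by omega, by omega⟩

lemma tH_U {n : ℕ} (hn : 1 ≤ n) : ∃ K, tH .U n = 2 * K ∧ K % 2 = 1 ∧ K ≤ n ∧ n ≤ K + 1 := by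
  simp only [tH]
  split_ifs
  · exact ⟨n, rfl, by omega, by omega, by omega⟩
  · exact ⟨n - 1, rfl, by omega, by omega, by omega⟩

lemma case2a {t t2 : Ty} {n n1 n2 p f g h : ℕ} (hv : Val t n p f) (hv1 : Val .U n1 p g)
    (hv2 : Val t2 n2 p h) (he : ord .U n1 (p ^ g) * ord t2 n2 (p ^ h) = ord t n (p ^ f))
    (hn : 25 ≤ n) (htU : t ≠ .U) (hn2 : 6 ≤ n2) (ht2 : t2 ≠ .U) (h1 : st t * f = 2 * g)
    (h2 : st t2 * h = 4 * g) (h3 : g * tH .U n1 ≤ f * tH t n) (h4 : h * tH t2 n2 ≤ f * tH t n) :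
    False := by
  have ht := cl_of_pos hv.hS (by omega)
  have ht2' := cl_of_pos hv2.hS (by omega)
  have hg := hv1.hf
  obtain ⟨K, a1, a2, a3⟩ := tH_nonU (n := n) ht htU
  obtain ⟨K2, b1, b2, b3⟩ := tH_nonU (n := n2) ht2' ht2
  obtain ⟨K1, c1, c2, c3, c4⟩ := tH_U (n := n1) (by have := hv1.hS; simp [vS] at this; omega)
  have e : f * tH t n = g * (2 * K) := by rw [a1, ← mul_assoc, mul_comm f, h1]; ring
  have e2 : h * tH t2 n2 = g * (4 * K2) := by rw [b1, ← mul_assoc, mul_comm h, h2]; ring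
  rw [e, c1] at h3
  rw [e, e2] at h4
  have h5 := Nat.le_of_mul_le_mul_left h3 hg
  have h6 := Nat.le_of_mul_le_mul_left h4 hg
  obtain ⟨i, i1, i2, i3⟩ : ∃ i, i % 2 = 1 ∧ i + 1 ≤ K ∧ K ≤ i + 2 := by
    by_cases hK : K % 2 = 0
    · exact ⟨K - 1, by omega, by omega, by omega⟩
    · exact ⟨K - 2, by omega, by omega, by omega⟩
  have h7 : i ≤ i * g := Nat.le_mul_of_pos_right _ hg
  rcases om_split hv.hp.two_le (show 3 ≤ i * g by omega) (by omega) hv.hS hv1.hS hv2.hS he (by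
    refine Or.inr fun hd => ?_
    have h8 := Nat.le_of_dvd (by have := hv.hf; omega) hd
    have h9 : f ≤ st t * f := Nat.le_mul_of_pos_left _ (st_pos t)
    have : 5 * g ≤ i * g := Nat.mul_le_mul_right _ (by omega)
    omega) (om_half ht htU (by omega) (by omega) h1) with h8 | h8
  · rw [not_om_U hg i1 (by omega)] at h8; cases h8
  · rw [not_om_X ht2' ht2 (by omega) hg i1 h2 (by
      rw [b1, ← Nat.mul_succ]
      exact Nat.mul_lt_mul_of_pos_left (by omega) (st_pos _))] at h8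
    cases h8

lemma case2 {t t1 t2 : Ty} {n n1 n2 p f g h : ℕ} (hv : Val t n p f) (hv1 : Val t1 n1 p g)
    (hv2 : Val t2 n2 p h) (he : ord t1 n1 (p ^ g) * ord t2 n2 (p ^ h) = ord t n (p ^ f))
    (hn : 25 ≤ n) (htU : t ≠ .U) (hn1 : 6 ≤ n1) (hn2 : 6 ≤ n2) (h1 : st t1 * g = 2 * (st t * f))
    (h2 : st t2 * h = 2 * (st t * f)) (h3 : g * tH t1 n1 = f * tH t n)
    (h4 : h * tH t2 n2 + st t * f = f * tH t n) : False := by
  have hs : 0 < st t * f := Nat.mul_pos (st_pos _) hv.hf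
  by_cases c1 : t1 = .U <;> by_cases c2 : t2 = .U
  · subst c1 c2
    obtain ⟨K1, a1, a2, -⟩ := tH_U (n := n1) (by omega)
    obtain ⟨K2, b1, b2, -⟩ := tH_U (n := n2) (by omega)
    change 4 * g = _ at h1
    change 4 * h = _ at h2
    obtain rfl : g = h := by omega
    rw [← h3, a1, b1] at h4
    have : g * (2 * K2 + 2) = g * (2 * K1) := by rw [mul_add]; omega
    have := Nat.eq_of_mul_eq_mul_left hv1.hf this
    omega
  · subst c1
    change 4 * g = _ at h1
    exact case2a hv hv1 hv2 he hn htU hn2 c2 (by omega) (by omega) h3.le (by omega)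
  · subst c2
    change 4 * h = _ at h2
    exact case2a hv hv2 hv1 (by rw [mul_comm, he]) hn htU hn1 c1 (by omega) (by omega) (by omega)
      h3.le
  · obtain ⟨K1, a1, -⟩ := tH_nonU (n := n1) (cl_of_pos hv1.hS (by omega)) c1
    obtain ⟨K2, b1, -⟩ := tH_nonU (n := n2) (cl_of_pos hv2.hS (by omega)) c2
    rw [← h3, a1, b1, ← mul_assoc, ← mul_assoc, mul_comm h, mul_comm g, h1, h2] at h4
    have : st t * f * (2 * K2 + 1) = st t * f * (2 * K1) := by linarith
    have := Nat.eq_of_mul_eq_mul_left hs this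
    omega

end Pool.Agent.Lib.MP_343319_al
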