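import Pool.Agent.Lib.MP_343319_al.P1b
import Pool.Agent.Lib.MP_343319_al.P2L

namespace Pool.Agent.Lib.MP_343319_al

def gm (t : Ty) : ℕ := if t = .A then 1 else 2

def ta (t : Ty) : ℕ := if t = .U then 2 else 1

lemma gm_pos (t : Ty) : 1 ≤ gm t := by simp only [gm]; split_ifs <;> omega

lemma fac_top_dvd {t : Ty} {n : ℕ} (ht : Cl t) (hn : 1 ≤ n) {s : ℕ × ℕ} (hs : s ∈ facs t n) :
    ∃ j, 1 ≤ j ∧ j ≤ n ∧ top s ∣ gm t * j := by
  rcases ht with rfl | rfl | rfl | rfl | rfl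
  · obtain ⟨j, a, b, rfl⟩ := mem_facs_A.1 hs
    exact ⟨j, by omega, b, by simp [top, gm]⟩
  · obtain ⟨j, a, b, rfl⟩ := mem_facs_U.1 hs
    refine ⟨j, by omega, b, ?_⟩
    rcases Nat.mod_two_eq_zero_or_one j with h | h <;> simp [top, gm, h, mul_comm]
  · obtain ⟨j, a, b, rfl⟩ := mem_facs_B.1 hs
    exact ⟨j, a, b, by simp [top, gm]⟩
  · rcases mem_facs_D.1 hs with rfl | ⟨j, a, b, rfl⟩
    · exact ⟨n, hn, le_rfl, by simp [top, gm]⟩
    · exact ⟨j, a, by omega, by simp [top, gm]⟩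
  · rcases mem_facs_E.1 hs with rfl | ⟨j, a, b, rfl⟩
    · exact ⟨n, hn, le_rfl, by simp [top, gm, mul_comm]⟩
    · exact ⟨j, a, by omega, by simp [top, gm]⟩

lemma exists_fac' {t : Ty} {m i : ℕ} (ht : Cl t) (hU : t ≠ .U) (h1 : 2 ≤ i) (h2 : i + 1 ≤ m) :
    ∃ s ∈ facs t m, top s = gm t * i := by
  rcases ht with rfl | rfl | rfl | rfl | rfl
  · exact ⟨_, mem_facs_A.2 ⟨i, by omega, by omega, rfl⟩, by simp [top, gm]⟩
  · exact absurd rfl hU
  · exact ⟨_, mem_facs_B.2 ⟨i, by omega, by omega, rfl⟩, by simp [top, gm]⟩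
  · exact ⟨_, mem_facs_D.2 (Or.inr ⟨i, by omega, by omega, rfl⟩), by simp [top, gm]⟩
  · exact ⟨_, mem_facs_E.2 (Or.inr ⟨i, by omega, by omega, rfl⟩), by simp [top, gm]⟩

lemma W_bd {t : Ty} {k W : ℕ} (ht : Cl t) (hW : tN t (k + 2) = tr t (k + 2) + W) :
    gm t * ((k + 1) * k) ≤ 2 * ta t * W ∧ 2 * ta t * W ≤ gm t * ((k + 2) * (k + 1)) := by
  have a := two_tri (k + 2)
  rcases ht with rfl | rfl | rfl | rfl | rfl <;>
    simp only [tN, tr, show k + 2 - 1 = k + 1 by omega] at hW a <;>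
    simp only [gm, ta, reduceCtorEq, if_true, if_false] <;> constructor <;> nlinarith

lemma W_small {t : Ty} {n W : ℕ} (hS : vS t n = true) (hn : n ≤ 11)
    (hW : tN t n = tr t n + W) : W ≤ 5 * tH t n := by
  cases t <;> simp only [vS, decide_eq_true_eq] at hS <;> simp only [tN, tr, tH] at hW ⊢ <;>
    first | omega | (interval_cases n <;> omega) | (interval_cases n <;> simp at hW ⊢ <;> omega)

lemma W_big {t : Ty} {k W : ℕ} (ht : Cl t) (hk : 23 ≤ k) (hW : tN t (k + 2) = tr t (k + 2) + W) :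
    5 * tH t (k + 2) + 16 < W := by
  have a := two_tri (k + 2)
  have b : 23 * k ≤ k * k := Nat.mul_le_mul_right _ hk
  rcases ht with rfl | rfl | rfl | rfl | rfl <;>
    simp only [tN, tr, tH, show k + 2 - 1 = k + 1 by omega] at hW a ⊢ <;>
    first | nlinarith | (split_ifs <;> nlinarith)

lemma dvd_bound {a b i j : ℕ} (h : Nat.Coprime a b) (hd : b * i ∣ a * j) (ha : 0 < a) (hj : 0 < j) :
    b * i ≤ Nat.gcd i a * j := by
  refine Nat.le_of_dvd (Nat.mul_pos (Nat.gcd_pos_of_pos_right _ ha) hj) ?_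
  have h1 := Nat.dvd_gcd (Dvd.intro j rfl : b * i ∣ b * i * j) hd
  rwa [Nat.gcd_mul_right, Nat.Coprime.gcd_mul_left_cancel _ h.symm] at h1

lemma three_min {a b c A : ℕ} (P : ℕ → Prop) (ha : P a) (hb : P b) (hc : P c) (h1 : a ≠ b)
    (h2 : b ≠ c) (h3 : a ≠ c) (h : a * b * c ≤ A) : ∃ x, P x ∧ x * ((x + 1) * (x + 1)) ≤ A := by
  have key : ∀ x y z : ℕ, x < y → x < z → x * y * z ≤ A → x * ((x + 1) * (x + 1)) ≤ A :=
    fun x y z h1 h2 h3 => le_trans (by rw [mul_assoc]; gcongr <;> omega) h3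
  by_cases e1 : a < b ∧ a < c
  · exact ⟨a, ha, key a b c e1.1 e1.2 h⟩
  by_cases e2 : b < a ∧ b < c
  · exact ⟨b, hb, key b a c e2.1 e2.2 (by rwa [mul_comm b])⟩
  · exact ⟨c, hc, key c a b (by omega) (by omega) (by rwa [mul_assoc, mul_comm c])⟩

lemma cop_odd {i : ℕ} (hi : i % 2 = 1) (e : ℕ) : Nat.Coprime i (2 ^ e) :=
  (Nat.coprime_two_right.2 (Nat.odd_iff.2 hi)).pow_right e

lemma arith1 {a b k m : ℕ} (hk : 23 ≤ k) (hm : 6 ≤ m) (ha : 0 < a) (hb : 0 < b)
    (hS : 5 * a * ((k + 1) * k) ≤ 13 * (b * ((m + 6) * (m + 5))))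
    (H : ∀ i, i % 2 = 1 → 7 ≤ i → i ≤ m + 5 → b * i ≤ Nat.gcd i a * (k + 2)) :
    a ≤ 4 ∧ b * (m + 2) ≤ k + 2 ∧ (a ≠ 3 → b * (m + 4) ≤ k + 2) := by
  obtain ⟨i, hi, h1, h2⟩ : ∃ i, i % 2 = 1 ∧ m ≤ i ∧ i ≤ m + 1 := by
    by_cases h : m % 2 = 1
    · exact ⟨m, h, by omega, by omega⟩
    · exact ⟨m + 1, by omega, by omega, by omega⟩
  have a0 := H i hi (by omega) (by omega)
  have a1 := H (i + 2) (by omega) (by omega) (by omega)
  have a2 := H (i + 4) (by omega) (by omega) (by omega)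
  have hkk : 23 * k ≤ k * k := Nat.mul_le_mul_right _ hk
  have key : ∀ x, b * m ≤ x * (k + 2) → 5 * a * ((k + 1) * k) ≤
      13 * (x * (k + 2) * (x * (k + 2) + 16)) := by
    intro x hx
    have e1 : (m + 6) * (m + 5) ≤ m * (m + 16) := by nlinarith
    have e2 : m ≤ b * m := Nat.le_mul_of_pos_left _ hb
    refine hS.trans (Nat.mul_le_mul_left _ ((Nat.mul_le_mul_left _ e1).trans ?_))
    rw [← mul_assoc]
    exact Nat.mul_le_mul hx (by omega)
  have mono : ∀ j, m ≤ j → b * m ≤ b * j := fun j h => Nat.mul_le_mul_left _ h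
  have c01 : Nat.Coprime i (i + 2) := Nat.coprime_self_add_right.2 (cop_odd hi 1)
  have c02 : Nat.Coprime i (i + 4) := Nat.coprime_self_add_right.2 (cop_odd hi 2)
  have c12 : Nat.Coprime (i + 2) (i + 2 + 2) :=
    Nat.coprime_self_add_right.2 (cop_odd (by omega) 1)
  have hcop : ∀ u v, Nat.Coprime u v → Nat.Coprime (Nat.gcd u a) (Nat.gcd v a) := fun u v h =>
    (h.gcd_left a).symm.gcd_left a |>.symm |> fun h => by rwa [Nat.gcd_comm a, Nat.gcd_comm a] at h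
  have h3 : b * m ≤ 1 * (k + 2) := by
    by_contra hc
    have hne : ∀ j, m ≤ j → b * j ≤ Nat.gcd j a * (k + 2) → Nat.gcd j a ≠ 1 := fun j h1 h2 h3 =>
      hc (h3 ▸ (mono j h1).trans h2)
    have hd : ∀ u v, Nat.Coprime u v → Nat.gcd u a ≠ 1 → Nat.gcd u a ≠ Nat.gcd v a :=
      fun u v h h1 h2 => h1 (by have := hcop u v h; rwa [← h2, Nat.coprime_self] at this)
    have hp : Nat.gcd i a * Nat.gcd (i + 2) a * Nat.gcd (i + 4) a ∣ a :=
      Nat.Coprime.mul_dvd_of_dvd_of_dvd (Nat.Coprime.mul_left (hcop _ _ c02) (hcop _ _ c12))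
        (Nat.Coprime.mul_dvd_of_dvd_of_dvd (hcop _ _ c01) (Nat.gcd_dvd_right _ _)
          (Nat.gcd_dvd_right _ _)) (Nat.gcd_dvd_right _ _)
    obtain ⟨x, hx, hx2⟩ := three_min (fun x => b * m ≤ x * (k + 2)) ((mono _ h1).trans a0)
      ((mono _ (by omega)).trans a1) ((mono _ (by omega)).trans a2)
      (hd _ _ c01 (hne _ h1 a0)) (hd _ _ c12 (hne _ (by omega) a1)) (hd _ _ c02 (hne _ h1 a0))
      (Nat.le_of_dvd ha hp)
    have hx1 : 2 ≤ x := by
      by_contra h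
      exact hc (hx.trans (Nat.mul_le_mul_right _ (by omega)))
    have e1 := key x hx
    have e2 : x * (5 * ((x + 1) * (x + 1)) * ((k + 1) * k)) ≤
        x * (13 * ((k + 2) * (x * (k + 2) + 16))) :=
      calc _ = 5 * (x * ((x + 1) * (x + 1))) * ((k + 1) * k) := by ring
        _ ≤ 5 * a * ((k + 1) * k) := by gcongr
        _ ≤ _ := e1
        _ = _ := by ring
    have e3 := Nat.le_of_mul_le_mul_left e2 (by omega)
    obtain ⟨u, rfl⟩ := Nat.exists_eq_add_of_le hx1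
    obtain ⟨v, rfl⟩ := Nat.exists_eq_add_of_le hk
    ring_nf at e3
    omega
  have h4 : a ≤ 4 := by
    by_contra hc
    have e1 := key 1 h3
    have e2 : 5 * 5 * ((k + 1) * k) ≤ 5 * a * ((k + 1) * k) := by gcongr; omega
    nlinarith
  have h5 : a ≠ 3 → b * (m + 4) ≤ k + 2 := by
    intro h
    have : Nat.gcd (i + 4) a = 1 := by
      have h6 : a ∣ 2 ^ 2 := by interval_cases a <;> simp at h ⊢
      exact Nat.Coprime.coprime_dvd_right h6 (cop_odd (by omega) 2)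
    rw [this, one_mul] at a2
    exact (Nat.mul_le_mul_left _ (by omega)).trans a2
  refine ⟨h4, ?_, h5⟩
  by_cases h6 : a = 3
  · subst h6
    have h7 : ∀ j, j % 3 ≠ 0 → Nat.gcd j 3 = 1 := fun j h =>
      (Nat.coprime_comm.1 ((Nat.Prime.coprime_iff_not_dvd Nat.prime_three).2 (by omega)))
    by_cases h8 : (i + 2) % 3 = 0
    · rw [h7 _ (by omega), one_mul] at a2
      exact (Nat.mul_le_mul_left _ (by omega)).trans a2
    · rw [h7 _ h8, one_mul] at a1
      exact (Nat.mul_le_mul_left _ (by omega)).trans a1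
  · exact (Nat.mul_le_mul_left _ (by omega)).trans (h5 h6)

lemma arith2 {c b k m E : ℕ} (hk : 23 ≤ k) (hm : 6 ≤ m) (hc : 0 < c) (hb : 0 < b)
    (hE : 8 * E ≤ 134 + m) (hS : c * ((k + 1) * k) ≤ b * ((m + 6) * (m + 5)) + 4 * E)
    (h1 : b * (m + 2) ≤ k + 2) (h2 : 3 ≤ c ∨ b * (m + 4) ≤ k + 2) : c = 1 ∧ b = 1 := by
  have hkk : 23 * k ≤ k * k := Nat.mul_le_mul_right _ hk
  have e0 : m + 2 ≤ b * (m + 2) := Nat.le_mul_of_pos_left _ hb
  rcases h2 with h2 | h2
  · exfalso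
    have e1 : (m + 6) * (m + 5) ≤ (m + 2) * (m + 11) := by nlinarith
    have e2 := Nat.mul_le_mul_left b e1
    have e3 := Nat.mul_le_mul h1 (show m + 11 ≤ k + 11 by omega)
    have e4 := Nat.mul_le_mul_right ((k + 1) * k) h2
    rw [mul_assoc] at e3
    nlinarith
  have e1 : (m + 6) * (m + 5) ≤ (m + 4) * (m + 8) := by nlinarith
  have e2 := Nat.mul_le_mul_left b e1
  have e5 : m + 4 ≤ b * (m + 4) := Nat.le_mul_of_pos_left _ hb
  constructor
  · by_contra h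
    have e3 := Nat.mul_le_mul h2 (show m + 8 ≤ k + 6 by omega)
    have e4 := Nat.mul_le_mul_right ((k + 1) * k) (show 2 ≤ c by omega)
    rw [mul_assoc] at e3
    nlinarith
  · by_contra h
    have e6 := Nat.mul_le_mul_right (m + 4) (show 2 ≤ b by omega)
    have e3 := Nat.mul_le_mul h2 (show 2 * (m + 8) ≤ k + 10 by omega)
    have e4 := Nat.mul_le_mul_right ((k + 1) * k) hc
    nlinarith

lemma n_le_tH {t : Ty} {n : ℕ} (ht : Cl t) (hn : 2 ≤ n) : n ≤ tH t n := by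
  rcases ht with rfl | rfl | rfl | rfl | rfl <;> simp only [tH] <;>
    first | omega | (split_ifs <;> omega)

section
variable {t t1 : Ty} {n f n1 g p a y : ℕ} (C : Ctx t n f t1 n1 g p a y)
include C

lemma Ctx.om_i {i : ℕ} (hi : 7 ≤ i) (h : ∃ s ∈ facs t1 n1, top s = gm t1 * i) :
    inOm (gm t1 * g * i) t n f = true := by
  obtain ⟨s, hs, h1⟩ := h
  have h2 : i ≤ top s := by rw [h1]; exact Nat.le_mul_of_pos_left _ (gm_pos _)
  have h3 : top s ≤ g * top s := Nat.le_mul_of_pos_left _ C.hg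
  rw [mul_comm (gm t1), mul_assoc, ← h1]
  exact om_incl C.hQ (by omega) (by omega) C.hv1.hS C.hv.hS C.dvd
    (Or.inr (top_cond C.hg (by omega))) (inOm_top C.hv1.hS C.hg hs)

lemma Ctx.H_le (hn : 25 ≤ n) : g * tH t1 n1 ≤ f * tH t n := by
  rcases C.top_om with h | h
  · have := n_le_tH (cl_of_pos C.hv.hS (by omega)) (show 2 ≤ n by omega)
    have : tH t n ≤ f * tH t n := Nat.le_mul_of_pos_left _ C.hf
    omega
  · exact inOm_le C.hv.hS C.hf h

lemma Ctx.m_ge (hn : 25 ≤ n) : 12 ≤ n1 := by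
  by_contra hc
  obtain ⟨W, hW⟩ := Nat.exists_eq_add_of_le (tr_le_tN C.hv.hS).1
  obtain ⟨W1, hW1⟩ := Nat.exists_eq_add_of_le (tr_le_tN C.hv1.hS).1
  have hE := C.E1 (E := 16) (by have := dmax_le_max (t := t1) (n := n1); omega)
  have h1 := Nat.mul_le_mul_left g (W_small C.hv1.hS (by omega) hW1)
  have h2 := C.H_le hn
  obtain ⟨k, rfl⟩ : ∃ k, n = k + 2 := ⟨n - 2, by omega⟩
  have h3 := Nat.mul_le_mul_left f (W_big (cl_of_pos C.hv.hS (by omega)) (by omega) hW)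
  have h4 := C.hf
  rw [hW, hW1] at hE
  nlinarith

end

lemma Ctx.E2 {t t1 : Ty} {n f m g p a y : ℕ} (C : Ctx t n f t1 (m + 6) g p a y) :
    ∃ E, 8 * E ≤ 134 + m ∧ f * tN t n + g * tr t1 (m + 6) ≤ g * tN t1 (m + 6) + f * tr t n + E := by
  refine ⟨16 + (m + 6) / 8, by omega, C.E1 ?_⟩
  have h1 := dmax_le (cl_of_pos C.hv1.hS (by omega)) (show 4 ≤ m + 6 by omega)
  have h2 : (m + 6) / 8 < 2 ^ ((m + 6) / 8) := Nat.lt_two_pow_self
  rw [show 16 + (m + 6) / 8 + 1 = (m + 6) / 8 + 17 by ring, pow_add]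
  omega

lemma Ctx.ratio {t t1 : Ty} {k f m g p a y : ℕ} (C : Ctx t (k + 2) f t1 (m + 6) g p a y)
    (hk : 23 ≤ k) (hm : 6 ≤ m) : gm t * f = gm t1 * g ∧ ta t = ta t1 := by
  have ht := cl_of_pos C.hv.hS (by omega)
  have ht1 := cl_of_pos C.hv1.hS (by omega)
  obtain ⟨W, hW⟩ := Nat.exists_eq_add_of_le (tr_le_tN C.hv.hS).1
  obtain ⟨W1, hW1⟩ := Nat.exists_eq_add_of_le (tr_le_tN C.hv1.hS).1
  obtain ⟨E, hE, hE1⟩ := C.E2
  have hE2 : f * W ≤ g * W1 + E := by rw [hW, hW1, mul_add, mul_add] at hE1; omega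
  have b1 := Nat.mul_le_mul_left f (W_bd ht hW).1
  have b2 := Nat.mul_le_mul_left g (W_bd (k := m + 4) ht1 hW1).2
  obtain ⟨u, v, hc, hu, hv⟩ := Nat.exists_coprime (gm t * f) (gm t1 * g)
  have hG : 0 < gm t * f := Nat.mul_pos (gm_pos _) C.hf
  have hM : 0 < gm t1 * g := Nat.mul_pos (gm_pos _) C.hg
  have hw : 0 < Nat.gcd (gm t * f) (gm t1 * g) := Nat.gcd_pos_of_pos_left _ hG
  generalize Nat.gcd (gm t * f) (gm t1 * g) = w at hu hv hw
  have hu0 : 0 < u := Nat.pos_of_mul_pos_right (hu ▸ hG)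
  have hv0 : 0 < v := Nat.pos_of_mul_pos_right (hv ▸ hM)
  have hS : ta t1 * u * ((k + 1) * k) ≤ ta t * (v * ((m + 6) * (m + 5)) + 2 * ta t1 * E) := by
    refine Nat.le_of_mul_le_mul_right ?_ hw
    have e1 : E ≤ E * w := Nat.le_mul_of_pos_right _ hw
    calc _ = ta t1 * (u * w * ((k + 1) * k)) := by ring
      _ = ta t1 * (f * (gm t * ((k + 1) * k))) := by rw [← hu]; ring
      _ ≤ ta t1 * (f * (2 * ta t * W)) := Nat.mul_le_mul_left _ b1
      _ = ta t * (2 * ta t1 * (f * W)) := by ring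
      _ ≤ ta t * (2 * ta t1 * (g * W1 + E * w)) := by gcongr; omega
      _ = ta t * (g * (2 * ta t1 * W1) + 2 * ta t1 * E * w) := by ring
      _ ≤ ta t * (g * (gm t1 * ((m + 4 + 2) * (m + 4 + 1))) + 2 * ta t1 * E * w) := by gcongr
      _ = ta t * (gm t1 * g * ((m + 6) * (m + 5)) + 2 * ta t1 * E * w) := by ring
      _ = _ := by rw [hv]; ring
  have H : ∀ i, i % 2 = 1 → 7 ≤ i → i ≤ m + 5 → v * i ≤ Nat.gcd i u * (k + 2) := by
    intro i h1 h2 h3
    obtain ⟨s, hs, h4, -⟩ := inOm_iff.1 (C.om_i h2 (exists_fac ht1 (by omega) (by omega) h1))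
    obtain ⟨j, a1, a2, a3⟩ := fac_top_dvd ht (by omega) hs
    have h5 := h4.trans (Nat.mul_dvd_mul_left f a3)
    rw [← mul_assoc, mul_comm f, hu, hv, mul_right_comm, mul_right_comm u] at h5
    exact (dvd_bound hc (Nat.dvd_of_mul_dvd_mul_right hw h5) hu0 a1).trans
      (Nat.mul_le_mul_left _ a2)
  have hX : (m + 6) * (m + 5) ≤ v * ((m + 6) * (m + 5)) := Nat.le_mul_of_pos_left _ hv0
  have hX2 : 6 * m ≤ m * m := Nat.mul_le_mul_right _ hm
  have hX3 : (m + 6) * (m + 5) = m * m + 11 * m + 30 := by ring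
  have hta : ∀ t, (ta t = 1 ∧ t ≠ .U) ∨ (ta t = 2 ∧ t = .U) := fun t => by
    simp only [ta]; split_ifs with h <;> simp [h]
  obtain ⟨c1, c2, c3⟩ := arith1 hk hm hu0 hv0 (by
    rw [mul_assoc]
    rcases hta t with h | h <;> rcases hta t1 with h1 | h1 <;> rw [h.1, h1.1, mul_assoc] at hS <;>
      omega) H
  have c4 : 3 ≤ u ∨ v * (m + 4) ≤ k + 2 := by
    by_cases h : u = 3
    · omega
    · exact Or.inr (c3 h)
  have fin : u = 1 ∧ v = 1 → gm t * f = gm t1 * g := fun h => by rw [hu, hv, h.1, h.2]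
  rcases hta t with h | ⟨h, rfl⟩ <;> rcases hta t1 with h1 | h1 <;> rw [h1.1, mul_assoc] at hS
  · rw [h.1] at hS
    exact ⟨fin (arith2 hk hm hu0 hv0 hE (by omega) c2 c4), by omega⟩
  · rw [h.1, ← mul_assoc] at hS
    have := arith2 (c := 2 * u) hk hm (by omega) hv0 hE (by omega) c2 (by omega)
    omega
  · exfalso
    rw [h] at hS
    change 2 * f = _ at hu
    have Hev : u % 2 = 1 → ∀ i, i % 2 = 0 → 7 ≤ i → i ≤ m + 5 → Nat.gcd (2 * i) u = 1 →
        2 * v * i ≤ k + 2 := by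
      intro ho i h2 h3 h4 h5
      obtain ⟨s, hs, h6, h7⟩ := inOm_iff.1 (C.om_i h3 (exists_fac' ht1 h1.2 (by omega) (by omega)))
      obtain ⟨j, a1, a2, rfl⟩ := mem_facs_U.1 hs
      simp only [top] at h6 h7
      rcases Nat.mod_two_eq_zero_or_one j with a3 | a3 <;> rw [a3] at h6 h7
      · have h8 : v * (2 * i) * w ∣ u * j * w := by
          rw [mul_right_comm u, ← hu, show v * (2 * i) * w = 2 * (v * w * i) by ring, ← hv,
            mul_assoc 2 f]
          exact Nat.mul_dvd_mul_left _ (by simpa using h6)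
        have := dvd_bound hc (Nat.dvd_of_mul_dvd_mul_right hw h8) hu0 (by omega)
        rw [h5, mul_left_comm, ← mul_assoc] at this
        omega
      · have h8 : v * i * w ∣ u * j * w := by
          rw [mul_right_comm u, ← hu, mul_right_comm v, ← hv]
          exact h6.trans ⟨1, by ring⟩
        have h9 := (Dvd.dvd.mul_left (Nat.dvd_of_mod_eq_zero h2) v).trans
          (Nat.dvd_of_mul_dvd_mul_right hw h8)
        rcases (Nat.Prime.dvd_mul Nat.prime_two).1 h9 with h | h <;> omega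
    obtain ⟨i, i1, i2, i3⟩ : ∃ i, i % 2 = 0 ∧ m + 2 ≤ i ∧ i ≤ m + 3 := by
      by_cases h : m % 2 = 0
      · exact ⟨m + 2, by omega, by omega, by omega⟩
      · exact ⟨m + 3, by omega, by omega, by omega⟩
    have mono : ∀ b j l : ℕ, j ≤ l → b * l ≤ k + 2 → b * j ≤ k + 2 := fun b j l h1 h2 =>
      (Nat.mul_le_mul_left _ h1).trans h2
    have hS' : u * ((k + 1) * k) ≤ 2 * v * ((m + 6) * (m + 5)) + 4 * E := by rw [mul_assoc]; omega
    interval_cases u
    · have a1 := Hev rfl (i + 2) (by omega) (by omega) (by omega) (by simp)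
      have := arith2 hk hm hu0 (by omega) hE hS' (mono _ _ _ (by omega) a1)
        (Or.inr (mono _ _ _ (by omega) a1))
      omega
    · obtain rfl := (arith2 (c := 1) hk hm (by omega) hv0 hE (by omega) c2 (by omega)).2
      obtain rfl : f = w := by omega
      obtain ⟨l, l1, l2, l3⟩ : ∃ l, l % 2 = 1 ∧ m + 4 ≤ l ∧ l ≤ m + 5 := by
        by_cases h : m % 2 = 0
        · exact ⟨m + 5, by omega, by omega, by omega⟩
        · exact ⟨m + 4, by omega, by omega, by omega⟩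
      have a1 := C.om_i (show 7 ≤ l by omega) (exists_fac ht1 (by omega) (by omega) l1)
      rw [hv, one_mul, mul_comm] at a1
      have a2 : 2 * l ≤ k + 2 := by
        by_contra hcon
        rw [not_om_U hw l1 (by omega)] at a1
        cases a1
      have := arith2 hk hm hu0 (by omega) hE hS' (by omega) (by omega)
      omega
    · have h7 : ∀ j, j % 3 ≠ 0 → Nat.gcd j 3 = 1 := fun j h =>
        (Nat.coprime_comm.1 ((Nat.Prime.coprime_iff_not_dvd Nat.prime_three).2 (by omega)))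
      have a1 : 2 * v * (m + 2) ≤ k + 2 := by
        by_cases h8 : i % 3 = 0
        · exact mono _ _ _ (by omega)
            (Hev rfl (i + 2) (by omega) (by omega) (by omega) (h7 _ (by omega)))
        · exact mono _ _ _ i2 (Hev rfl i i1 (by omega) (by omega) (h7 _ (by omega)))
      have := arith2 hk hm hu0 (by omega) hE hS' a1 (by omega)
      omega
    · have := arith2 (c := 2) hk hm (by omega) hv0 hE (by omega) c2 (Or.inr (c3 (by omega)))
      omega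
  · rw [h] at hS
    exact ⟨fin (arith2 hk hm hu0 hv0 hE (by omega) c2 c4), by omega⟩

lemma spED {n p a y : ℕ} (C : Ctx .E n 1 .D n 1 p a y) : False := by
  have hn : 4 ≤ n := by simpa [vS] using C.hv1.hS
  have h := C.quot (b := (p ^ a) ^ n - 1) (c := (p ^ a) ^ n + 1) (D := 0) (by
    simp only [tR, pow_one]; ring) (by simp [tN])
  have h1 := td_le_dmax C.hv1.hS ((p ^ a) ^ 1)
  have h2 := td_pos (q := (p ^ a) ^ 1) C.hv.hS
  have h3 := C.hy.ge
  have h4 : 2 ≤ (p ^ a) ^ n := C.hQ.trans (Nat.le_self_pow (by omega) _)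
  simp only [dmax] at h1
  have h5 : 1 * 60 * ((p ^ a) ^ n - 1) ≤ td .E n ((p ^ a) ^ 1) * y * ((p ^ a) ^ n - 1) :=
    Nat.mul_le_mul_right _ (Nat.mul_le_mul h2 h3)
  have h6 := Nat.mul_le_mul_right ((p ^ a) ^ n + 1) h1
  rw [pow_zero, mul_one] at h
  omega

lemma Ctx.large {t t1 : Ty} {n f n1 g p a y : ℕ} (C : Ctx t n f t1 n1 g p a y)
    (hc : Nat.gcd f g = 1) (hn : 25 ≤ n) : False := by
  have hm := C.m_ge hn
  have hH := C.H_le hn
  have ht := cl_of_pos C.hv.hS (by omega)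
  have ht1 := cl_of_pos C.hv1.hS (by omega)
  obtain ⟨k, rfl⟩ : ∃ k, n = k + 2 := ⟨n - 2, by omega⟩
  obtain ⟨m, rfl⟩ : ∃ m, n1 = m + 6 := ⟨n1 - 6, by omega⟩
  obtain ⟨h1, h2⟩ := C.ratio (by omega) (by omega)
  obtain ⟨E, hE, hE1⟩ := C.E2
  have hN := C.nu_le
  have e1 : f = g → f = 1 ∧ g = 1 := fun h => by subst h; simpa using hc
  have e2 : f = 2 * g → f = 2 ∧ g = 1 := fun h => by
    subst h; rw [Nat.gcd_mul_left_left] at hc; omega
  have e3 : g = 2 * f → f = 1 ∧ g = 2 := fun h => by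
    subst h; rw [Nat.gcd_mul_left_right] at hc; omega
  have a := two_tri (k + 2)
  have a1 := two_tri (m + 6)
  have hcase : (m + 4 = k ∧ m * m + 8 * m + 16 = k * k) ∨ (m + 5 = k ∧ m * m + 10 * m + 25 = k * k) ∨
      (m + 6 ≤ k ∧ m * m + 6 * m + 6 * k ≤ k * k) ∨ (k + 1 ≤ m + 4 ∧ k * k + 2 * k + 1 ≤
        m * m + 8 * m + 16) := by
    rcases lt_trichotomy (m + 4) k with h | h | h
    · by_cases h3 : m + 5 = k
      · exact Or.inr (Or.inl ⟨h3, by rw [← h3]; ring⟩)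
      · obtain ⟨d, rfl⟩ := Nat.exists_eq_add_of_le (show m + 6 ≤ k by omega)
        exact Or.inr (Or.inr (Or.inl ⟨by omega, by nlinarith⟩))
    · exact Or.inl ⟨h, by rw [← h]; ring⟩
    · exact Or.inr (Or.inr (Or.inr ⟨h, by nlinarith⟩))
  have r1 : (k + 2) * (k + 1) = k * k + 3 * k + 2 := by ring
  have r2 : (m + 6) * (m + 5) = m * m + 11 * m + 30 := by ring
  have r3 : (k + 2) * (k + 2) = k * k + 4 * k + 4 := by ring
  have r4 : (m + 6) * (m + 6) = m * m + 12 * m + 36 := by ring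
  have hg : ∀ t, gm t = 1 ∨ gm t = 2 := fun t => by simp only [gm]; split_ifs <;> simp
  have e4 : (f = 1 ∧ g = 1) ∨ (f = 2 ∧ g = 1) ∨ (f = 1 ∧ g = 2) := by
    rcases hg t with h | h <;> rcases hg t1 with h' | h' <;> rw [h, h'] at h1
    exacts [Or.inl (e1 (by omega)), Or.inr (Or.inl (e2 (by omega))),
      Or.inr (Or.inr (e3 (by omega))), Or.inl (e1 (by omega))]
  clear e1 e2 e3 hg hc
  rcases e4 with ⟨rfl, rfl⟩ | ⟨rfl, rfl⟩ | ⟨rfl, rfl⟩ <;>
  rcases ht with rfl | rfl | rfl | rfl | rfl <;> rcases ht1 with rfl | rfl | rfl | rfl | rfl <;>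
    simp only [gm, ta, reduceCtorEq, if_true, if_false] at h1 h2 <;> try omega
  all_goals
    simp only [tN, tr, tH, show k + 2 - 1 = k + 1 by omega, show m + 6 - 1 = m + 5 by omega,
      r1, r2, r3, r4] at hN hE1 hH a a1
    rcases hcase with ⟨rfl, h⟩ | ⟨rfl, h⟩ | h | h <;>
      first
        | omega
        | exact C.same
        | exact spF2 C
        | exact spF3 C
        | exact spED C
        | exact spF1 (k := m + 5) C (by omega)

end Pool.Agent.Lib.MP_343319_al
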