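import Pool.Agent.Lib.MP_343319_al.P1b

namespace Pool.Agent.Lib.MP_343319_al

lemma p1_A3 : p1L shT ⟨.A, 3, 3, 2, 3, 1⟩
  [⟨12900001, 0, 0, 15, 5, 21, [], []⟩, ⟨12900002, 0, 0, 8, 3, 5, [], []⟩,
   ⟨12900003, 0, 0, 5, 2, 5, [], []⟩, ⟨12900004, 0, 0, 4, 2, 5, [], []⟩,
   ⟨12900005, 0, 0, 3, 1, 5, [], []⟩, ⟨12900006, 0, 0, 3, 1, 5, [], []⟩,
   ⟨12900007, 0, 0, 3, 1, 5, [], []⟩, ⟨12900008, 0, 0, 2, 1, 5, [], []⟩,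
   ⟨12900009, 0, 0, 2, 1, 5, [], []⟩, ⟨12900010, 0, 0, 2, 1, 5, [], []⟩,
   ⟨12900011, 0, 0, 2, 1, 5, [], []⟩, ⟨12900012, 0, 0, 2, 1, 5, [], []⟩,
   ⟨12900013, 0, 0, 2, 1, 5, [], []⟩, ⟨12900014, 0, 0, 2, 1, 5, [], []⟩,
   ⟨12900015, 0, 0, 1, 1, 5, [], []⟩, ⟨12900016, 0, 0, 1, 1, 5, [], []⟩,
   ⟨12900017, 0, 0, 1, 1, 5, [], []⟩, ⟨12900018, 0, 0, 1, 1, 5, [], []⟩,
   ⟨13100001, 6, 5, 0, 2, 5, [], []⟩, ⟨13100002, 0, 0, 8, 3, 7, [], []⟩,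
   ⟨13100004, 0, 0, 4, 2, 5, [], []⟩, ⟨13100005, 6, 5, 3, 1, 5, [], []⟩,
   ⟨13100007, 6, 5, 3, 1, 5, [], []⟩, ⟨13100008, 0, 0, 2, 1, 5, [], []⟩,
   ⟨13100010, 0, 0, 2, 1, 5, [], []⟩, ⟨13100011, 6, 5, 2, 1, 5, [], []⟩,
   ⟨13100013, 6, 5, 2, 1, 5, [], []⟩, ⟨13100014, 0, 0, 2, 1, 5, [], []⟩,
   ⟨13100016, 0, 0, 1, 1, 5, [], []⟩, ⟨13100017, 6, 5, 1, 1, 5, [], []⟩,
   ⟨19300002, 0, 0, 14, 4, 25, [], []⟩, ⟨19300003, 0, 0, 7, 2, 5, [], []⟩,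
   ⟨19300004, 0, 0, 5, 2, 5, [], []⟩, ⟨19300005, 0, 0, 4, 1, 5, [], []⟩,
   ⟨19300006, 0, 0, 3, 1, 5, [], []⟩, ⟨19300007, 0, 0, 3, 1, 5, [], []⟩,
   ⟨19300008, 0, 0, 2, 1, 5, [], []⟩, ⟨19300009, 0, 0, 2, 1, 5, [], []⟩,
   ⟨19300010, 0, 0, 2, 1, 5, [], []⟩, ⟨19300011, 0, 0, 2, 1, 5, [], []⟩,
   ⟨19300012, 0, 0, 2, 1, 5, [], []⟩, ⟨19300013, 0, 0, 2, 1, 5, [], []⟩,
   ⟨19300014, 0, 0, 2, 1, 5, [], []⟩, ⟨19300015, 0, 0, 1, 1, 5, [], []⟩,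
   ⟨19300016, 0, 0, 1, 1, 5, [], []⟩, ⟨19300017, 0, 0, 1, 1, 5, [], []⟩,
   ⟨19300018, 0, 0, 1, 1, 5, [], []⟩, ⟨19300019, 0, 0, 1, 1, 5, [], []⟩,
   ⟨25700002, 1, 10, 0, 3, 10, [], []⟩, ⟨25700004, 1, 34, 6, 4, 33, [], []⟩,
   ⟨25700006, 0, 0, 4, 2, 5, [], []⟩, ⟨25700008, 0, 0, 3, 1, 5, [], []⟩,
   ⟨25700010, 0, 0, 2, 1, 5, [], []⟩, ⟨25700012, 0, 0, 2, 1, 5, [], []⟩,
   ⟨25700014, 0, 0, 2, 1, 5, [], []⟩, ⟨25700016, 0, 0, 2, 1, 5, [], []⟩,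
   ⟨25700018, 0, 0, 1, 1, 5, [], []⟩, ⟨25700020, 0, 0, 1, 1, 5, [], []⟩,
   ⟨32100010, 0, 0, 3, 1, 5, [], []⟩, ⟨32100020, 0, 0, 1, 1, 5, [], []⟩,
   ⟨38500010, 1, 8, 3, 2, 8, [], []⟩, ⟨38500020, 0, 0, 2, 1, 5, [], []⟩,
   ⟨428900001, 6, 6, 0, 2, 6, [], []⟩, ⟨428900002, 0, 0, 14, 4, 25, [], []⟩,
   ⟨428900003, 2, 12, 4, 2, 5, [], []⟩, ⟨428900004, 0, 0, 5, 2, 5, [], []⟩,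
   ⟨428900005, 6, 6, 3, 1, 5, [], []⟩, ⟨428900006, 0, 0, 3, 1, 5, [], []⟩,
   ⟨428900007, 6, 6, 3, 1, 5, [], []⟩, ⟨428900008, 0, 0, 2, 1, 5, [], []⟩,
   ⟨428900009, 0, 0, 2, 1, 5, [], []⟩, ⟨428900010, 0, 0, 2, 1, 5, [], []⟩,
   ⟨428900011, 0, 0, 2, 1, 5, [], []⟩, ⟨428900012, 0, 0, 2, 1, 5, [], []⟩,
   ⟨428900013, 0, 0, 2, 1, 5, [], []⟩, ⟨428900014, 0, 0, 2, 1, 5, [], []⟩,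
   ⟨428900015, 0, 0, 1, 1, 5, [], []⟩, ⟨428900016, 0, 0, 1, 1, 5, [], []⟩,
   ⟨428900017, 0, 0, 1, 1, 5, [], []⟩, ⟨428900018, 0, 0, 1, 1, 5, [], []⟩,
   ⟨428900019, 0, 0, 1, 1, 5, [], []⟩, ⟨435300002, 2, 8, 0, 2, 8, [], []⟩,
   ⟨435300004, 2, 32, 5, 4, 32, [], []⟩, ⟨435300006, 0, 0, 4, 2, 5, [], []⟩,
   ⟨435300008, 0, 0, 3, 1, 5, [], []⟩, ⟨435300010, 0, 0, 2, 1, 5, [], []⟩,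
   ⟨435300012, 0, 0, 2, 1, 5, [], []⟩, ⟨435300014, 0, 0, 2, 1, 5, [], []⟩,
   ⟨435300016, 0, 0, 2, 1, 5, [], []⟩, ⟨435300018, 0, 0, 1, 1, 5, [], []⟩,
   ⟨435300020, 0, 0, 1, 1, 5, [], []⟩, ⟨441700010, 0, 0, 3, 1, 5, [], []⟩,
   ⟨441700020, 0, 0, 1, 1, 5, [], []⟩, ⟨448100010, 2, 6, 3, 2, 6, [], []⟩,
   ⟨448100020, 0, 0, 2, 1, 5, [], []⟩, ⟨832100002, 0, 0, 28, 8, 91, [6], [2]⟩,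
   ⟨832100004, 0, 0, 6, 2, 5, [], []⟩, ⟨832100006, 0, 0, 4, 1, 5, [], []⟩,
   ⟨832100008, 0, 0, 3, 1, 5, [], []⟩, ⟨832100010, 0, 0, 2, 1, 5, [], []⟩,
   ⟨832100012, 0, 0, 2, 1, 5, [], []⟩, ⟨832100014, 0, 0, 2, 1, 5, [], []⟩,
   ⟨832100016, 0, 0, 1, 1, 5, [], []⟩, ⟨832100018, 0, 0, 1, 1, 5, [], []⟩,
   ⟨832100020, 0, 0, 1, 1, 5, [], []⟩, ⟨832300004, 3, 4, 0, 2, 5, [], []⟩,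
   ⟨832300008, 3, 4, 2, 2, 5, [], []⟩, ⟨832300016, 3, 5, 2, 1, 5, [], []⟩,
   ⟨832300020, 0, 0, 1, 1, 5, [], []⟩, ⟨838500004, 1, 10, 4, 3, 10, [], []⟩,
   ⟨838500006, 2, 36, 6, 4, 36, [], []⟩, ⟨838500008, 0, 0, 4, 2, 5, [], []⟩,
   ⟨838500010, 0, 0, 3, 1, 5, [], []⟩, ⟨838500012, 0, 0, 2, 1, 5, [], []⟩,
   ⟨838500014, 0, 0, 2, 1, 5, [], []⟩, ⟨838500016, 0, 0, 2, 1, 5, [], []⟩,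
   ⟨838500018, 0, 0, 1, 1, 5, [], []⟩, ⟨838500020, 0, 0, 1, 1, 5, [], []⟩,
   ⟨838500022, 0, 0, 1, 1, 5, [], []⟩, ⟨838500024, 0, 0, 1, 1, 5, [], []⟩,
   ⟨844900008, 1, 4, 2, 2, 5, [], []⟩, ⟨844900012, 2, 8, 3, 2, 8, [], []⟩,
   ⟨844900016, 0, 0, 2, 1, 5, [], []⟩, ⟨844900020, 0, 0, 2, 1, 5, [], []⟩,
   ⟨844900024, 0, 0, 1, 1, 5, [], []⟩, ⟨844900028, 0, 0, 1, 1, 5, [], []⟩,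
   ⟨851300020, 2, 4, 2, 2, 5, [], []⟩, ⟨857700020, 2, 3, 2, 1, 5, [], []⟩,
   ⟨857700040, 2, 4, 1, 1, 5, [], []⟩, ⟨1254500004, 2, 5, 0, 2, 5, [], []⟩,
   ⟨1254500006, 4, 8, 3, 2, 8, [], []⟩, ⟨1254500008, 1, 7, 3, 2, 7, [], []⟩,
   ⟨1254500010, 0, 0, 3, 2, 6, [], []⟩, ⟨1254500012, 0, 0, 3, 1, 5, [], []⟩,
   ⟨1254500014, 0, 0, 2, 1, 5, [], []⟩, ⟨1254500016, 0, 0, 2, 1, 5, [], []⟩,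
   ⟨1254500018, 0, 0, 2, 1, 5, [], []⟩, ⟨1254500020, 0, 0, 1, 1, 5, [], []⟩,
   ⟨1254500022, 0, 0, 1, 1, 5, [], []⟩, ⟨1254500024, 0, 0, 1, 1, 5, [], []⟩,
   ⟨1254500026, 0, 0, 1, 1, 5, [], []⟩, ⟨1260900020, 0, 0, 2, 1, 5, [], []⟩,
   ⟨1267300020, 2, 4, 2, 2, 5, [], []⟩, ⟨1267300040, 2, 5, 1, 1, 5, [], []⟩,
   ⟨1664100004, 1, 10, 0, 3, 10, [], []⟩, ⟨1664100008, 1, 34, 6, 4, 34, [], []⟩,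
   ⟨1664100012, 0, 0, 3, 1, 5, [], []⟩, ⟨1664100016, 0, 0, 2, 1, 5, [], []⟩,
   ⟨1664100020, 0, 0, 1, 1, 5, [], []⟩, ⟨1664100024, 0, 0, 1, 1, 5, [], []⟩,
   ⟨1670500020, 2, 5, 2, 1, 5, [], []⟩, ⟨1676900020, 2, 5, 3, 2, 5, [], []⟩,
   ⟨1676900040, 0, 0, 1, 1, 5, [], []⟩, ⟨2048100003, 2, 2, 1, 1, 5, [], []⟩,
   ⟨2048100004, 0, 0, 10, 4, 36, [8, 12], [2, 6]⟩, ⟨2048100005, 6, 4, 2, 2, 5, [], []⟩,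
   ⟨2048100006, 0, 0, 4, 2, 5, [], []⟩, ⟨2048100007, 6, 4, 2, 1, 5, [], []⟩,
   ⟨2048100008, 0, 0, 3, 1, 5, [], []⟩, ⟨2048100009, 2, 6, 3, 1, 5, [], []⟩,
   ⟨2048100010, 0, 0, 2, 1, 5, [], []⟩, ⟨2048100011, 6, 4, 2, 1, 5, [], []⟩,
   ⟨2048100012, 0, 0, 2, 1, 5, [], []⟩, ⟨2048100013, 6, 4, 2, 1, 5, [], []⟩,
   ⟨2048100014, 0, 0, 2, 1, 5, [], []⟩, ⟨2048100015, 0, 0, 2, 1, 5, [], []⟩,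
   ⟨2048100016, 0, 0, 2, 1, 5, [], []⟩, ⟨2048100017, 6, 4, 1, 1, 5, [], []⟩,
   ⟨2048100018, 0, 0, 1, 1, 5, [], []⟩, ⟨2048100019, 6, 4, 1, 1, 5, [], []⟩,
   ⟨2048100020, 0, 0, 1, 1, 5, [], []⟩, ⟨2048100021, 0, 0, 1, 1, 5, [], []⟩,
   ⟨2048100022, 0, 0, 1, 1, 5, [], []⟩, ⟨2457700008, 3, 3, 0, 1, 5, [], []⟩,
   ⟨2457700012, 2, 3, 2, 1, 5, [], []⟩, ⟨2457700016, 3, 4, 2, 2, 5, [], []⟩,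
   ⟨2457700020, 3, 5, 3, 2, 5, [], []⟩, ⟨2457700024, 1, 5, 2, 1, 5, [], []⟩,
   ⟨2457700028, 0, 0, 1, 1, 5, [], []⟩, ⟨2457700032, 3, 5, 1, 1, 5, [], []⟩,
   ⟨2457700036, 0, 0, 1, 1, 5, [], []⟩, ⟨4505700004, 3, 3, 0, 1, 5, [], []⟩,
   ⟨4505700006, 0, 0, 14, 6, 256, [18, 4], [2, 6]⟩, ⟨4505700008, 3, 3, 2, 1, 5, [], []⟩,
   ⟨4505700012, 0, 0, 2, 1, 5, [], []⟩, ⟨4505700016, 3, 4, 2, 1, 5, [], []⟩,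
   ⟨4505700018, 0, 0, 2, 1, 5, [], []⟩, ⟨4505700020, 3, 5, 1, 1, 5, [], []⟩,
   ⟨4505700024, 0, 0, 1, 1, 5, [], []⟩, ⟨4915300002, 0, 0, 11, 0, 0, [], []⟩,
   ⟨4915300004, 0, 0, 5, 0, 0, [], []⟩, ⟨4915300006, 0, 0, 3, 0, 0, [], []⟩,
   ⟨4915300008, 0, 0, 2, 0, 0, [], []⟩, ⟨4915300010, 0, 0, 2, 0, 0, [], []⟩,
   ⟨4915300012, 0, 0, 2, 0, 0, [], []⟩, ⟨4915300014, 0, 0, 2, 0, 0, [], []⟩,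
   ⟨4915300016, 0, 0, 1, 0, 0, [], []⟩, ⟨4915300018, 0, 0, 1, 0, 0, [], []⟩,
   ⟨4915500004, 0, 0, 8, 0, 0, [], []⟩, ⟨4915500008, 0, 0, 3, 0, 0, [], []⟩,
   ⟨4915500016, 0, 0, 1, 0, 0, [], []⟩, ⟨4915500020, 0, 0, 1, 0, 0, [], []⟩,
   ⟨5324900001, 6, 4, 0, 2, 0, [], []⟩, ⟨5324900002, 0, 0, 0, 5, 0, [4, 3], [1]⟩,
   ⟨5324900003, 0, 0, 0, 3, 0, [], []⟩, ⟨5324900004, 0, 0, 0, 2, 0, [], []⟩,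
   ⟨5324900005, 0, 0, 0, 1, 0, [], []⟩, ⟨5324900006, 0, 0, 0, 1, 0, [], []⟩,
   ⟨5324900007, 0, 0, 0, 1, 0, [], []⟩, ⟨5324900008, 0, 0, 0, 1, 0, [], []⟩,
   ⟨5324900009, 0, 0, 0, 1, 0, [], []⟩, ⟨5324900010, 0, 0, 0, 1, 0, [], []⟩,
   ⟨5324900011, 0, 0, 0, 1, 0, [], []⟩, ⟨5324900012, 0, 0, 0, 1, 0, [], []⟩,
   ⟨5324900013, 0, 0, 0, 1, 0, [], []⟩, ⟨5324900014, 0, 0, 0, 1, 0, [], []⟩,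
   ⟨5324900015, 0, 0, 0, 1, 0, [], []⟩, ⟨5324900016, 0, 0, 0, 1, 0, [], []⟩,
   ⟨5324900017, 0, 0, 0, 1, 0, [], []⟩, ⟨5324900018, 0, 0, 0, 1, 0, [], []⟩,
   ⟨5324900019, 0, 0, 0, 1, 0, [], []⟩, ⟨5324900020, 0, 0, 0, 1, 0, [], []⟩,
   ⟨5734500004, 0, 0, 0, 0, 0, [], []⟩, ⟨5734500006, 4, 3, 2, 0, 0, [], []⟩,
   ⟨5734500008, 0, 0, 8, 0, 0, [16, 24, 3], [1, 4, 12]⟩, ⟨5734500012, 0, 0, 3, 0, 0, [], []⟩,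
   ⟨5734500016, 0, 0, 2, 0, 0, [], []⟩, ⟨5734500018, 0, 0, 2, 0, 0, [], []⟩,
   ⟨5734500020, 0, 0, 1, 0, 0, [], []⟩, ⟨5734500024, 0, 0, 1, 0, 0, [], []⟩,
   ⟨5734500028, 0, 0, 1, 0, 0, [], []⟩] = true := by
  decide +kernel

lemma p1_U4 : p1L shT ⟨.U, 4, 6, 3, 6, 1⟩
  [⟨12900001, 0, 0, 5, 2, 5, [], []⟩, ⟨12900002, 0, 0, 3, 1, 5, [], []⟩,
   ⟨12900003, 0, 0, 2, 1, 5, [], []⟩, ⟨12900004, 0, 0, 2, 1, 5, [], []⟩,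
   ⟨12900005, 0, 0, 1, 1, 5, [], []⟩, ⟨12900006, 0, 0, 1, 1, 5, [], []⟩,
   ⟨13000001, 0, 0, 5, 2, 5, [], []⟩, ⟨13000003, 0, 0, 2, 1, 5, [], []⟩,
   ⟨13000005, 0, 0, 1, 1, 5, [], []⟩, ⟨13100001, 3, 4, 2, 2, 5, [], []⟩,
   ⟨13100002, 3, 4, 2, 1, 5, [], []⟩, ⟨13100004, 3, 4, 2, 1, 5, [], []⟩,
   ⟨13100005, 3, 4, 1, 1, 5, [], []⟩, ⟨19300003, 0, 0, 2, 1, 5, [], []⟩,
   ⟨19300006, 0, 0, 1, 1, 5, [], []⟩, ⟨19400001, 3, 4, 0, 2, 5, [], []⟩,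
   ⟨19400003, 0, 0, 3, 1, 5, [], []⟩, ⟨19400005, 3, 4, 2, 1, 5, [], []⟩,
   ⟨25700003, 0, 0, 3, 1, 5, [], []⟩, ⟨25700006, 0, 0, 2, 1, 5, [], []⟩,
   ⟨428900001, 0, 0, 8, 3, 7, [], []⟩, ⟨428900002, 6, 7, 3, 1, 5, [], []⟩,
   ⟨428900003, 0, 0, 2, 1, 5, [], []⟩, ⟨428900004, 0, 0, 2, 1, 5, [], []⟩,
   ⟨428900005, 0, 0, 2, 1, 5, [], []⟩, ⟨428900006, 0, 0, 1, 1, 5, [], []⟩,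
   ⟨429000003, 4, 5, 3, 1, 5, [], []⟩, ⟨435300002, 6, 8, 3, 2, 5, [], []⟩,
   ⟨435300003, 0, 0, 3, 1, 5, [], []⟩, ⟨435300004, 0, 0, 2, 1, 5, [], []⟩,
   ⟨435300005, 0, 0, 2, 1, 5, [], []⟩, ⟨435300006, 0, 0, 2, 1, 5, [], []⟩,
   ⟨435300007, 0, 0, 1, 1, 5, [], []⟩, ⟨441700005, 0, 0, 2, 1, 5, [], []⟩,
   ⟨448100005, 3, 6, 3, 1, 5, [], []⟩, ⟨832100001, 0, 0, 15, 5, 21, [], []⟩,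
   ⟨832100002, 0, 0, 4, 2, 5, [], []⟩, ⟨832100003, 0, 0, 3, 1, 5, [], []⟩,
   ⟨832100004, 0, 0, 2, 1, 5, [], []⟩, ⟨832100005, 0, 0, 2, 1, 5, [], []⟩,
   ⟨832100006, 0, 0, 1, 1, 5, [], []⟩, ⟨832300002, 3, 3, 0, 1, 5, [], []⟩,
   ⟨838500002, 3, 4, 2, 2, 5, [], []⟩, ⟨838500003, 1, 14, 4, 2, 5, [], []⟩,
   ⟨838500004, 3, 4, 2, 1, 5, [], []⟩, ⟨838500005, 3, 4, 2, 1, 5, [], []⟩,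
   ⟨838500006, 0, 0, 2, 1, 5, [], []⟩, ⟨838500007, 3, 4, 1, 1, 5, [], []⟩,
   ⟨838500008, 3, 4, 1, 1, 5, [], []⟩, ⟨844900004, 3, 4, 2, 2, 5, [], []⟩,
   ⟨844900006, 1, 6, 3, 1, 5, [], []⟩, ⟨844900008, 3, 4, 2, 1, 5, [], []⟩,
   ⟨844900010, 3, 4, 1, 1, 5, [], []⟩, ⟨851300010, 3, 4, 2, 1, 5, [], []⟩,
   ⟨857700010, 2, 3, 2, 1, 5, [], []⟩, ⟨1254500002, 3, 5, 0, 2, 5, [], []⟩,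
   ⟨1254500003, 1, 8, 3, 2, 8, [], []⟩, ⟨1254500004, 3, 5, 3, 1, 5, [], []⟩,
   ⟨1254500005, 3, 5, 3, 1, 5, [], []⟩, ⟨1254500006, 0, 0, 2, 1, 5, [], []⟩,
   ⟨1254500007, 3, 5, 2, 1, 5, [], []⟩, ⟨1254500008, 3, 5, 1, 1, 5, [], []⟩,
   ⟨1260900010, 3, 5, 2, 1, 5, [], []⟩, ⟨1267300010, 3, 4, 2, 1, 5, [], []⟩,
   ⟨1664100002, 3, 5, 0, 2, 5, [], []⟩, ⟨1664100004, 3, 5, 3, 1, 5, [], []⟩,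
   ⟨1664100006, 0, 0, 2, 1, 5, [], []⟩, ⟨1664100008, 3, 5, 1, 1, 5, [], []⟩,
   ⟨1670500010, 3, 5, 2, 1, 5, [], []⟩, ⟨1676900010, 2, 5, 2, 1, 5, [], []⟩,
   ⟨2048100001, 3, 3, 0, 1, 5, [], []⟩, ⟨2048100002, 3, 3, 2, 1, 5, [], []⟩,
   ⟨2048100003, 0, 0, 3, 1, 5, [], []⟩, ⟨2048100004, 3, 3, 2, 1, 5, [], []⟩,
   ⟨2048100005, 3, 3, 2, 1, 5, [], []⟩, ⟨2048100006, 0, 0, 1, 1, 5, [], []⟩,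
   ⟨2048100007, 3, 3, 1, 1, 5, [], []⟩, ⟨2048200003, 4, 3, 2, 1, 5, [], []⟩,
   ⟨2457700006, 2, 2, 1, 1, 5, [], []⟩, ⟨2457700010, 3, 3, 2, 1, 5, [], []⟩,
   ⟨2457700012, 1, 4, 1, 1, 5, [], []⟩, ⟨4505700002, 3, 3, 0, 1, 5, [], []⟩,
   ⟨4505700003, 0, 0, 8, 3, 9, [], []⟩, ⟨4505700006, 0, 0, 2, 1, 5, [], []⟩,
   ⟨4915300001, 0, 0, 7, 0, 0, [], []⟩, ⟨4915300002, 0, 0, 3, 0, 0, [], []⟩,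
   ⟨4915300003, 0, 0, 2, 0, 0, [], []⟩, ⟨4915300004, 0, 0, 2, 0, 0, [], []⟩,
   ⟨4915300005, 0, 0, 1, 0, 0, [], []⟩, ⟨4915300006, 0, 0, 1, 0, 0, [], []⟩,
   ⟨5324900001, 0, 0, 0, 4, 0, [], []⟩, ⟨5324900002, 0, 0, 0, 1, 0, [], []⟩,
   ⟨5324900003, 0, 0, 0, 1, 0, [], []⟩, ⟨5324900004, 0, 0, 0, 1, 0, [], []⟩,
   ⟨5324900005, 0, 0, 0, 1, 0, [], []⟩, ⟨5324900006, 0, 0, 0, 1, 0, [], []⟩,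
   ⟨5734500002, 0, 0, 0, 0, 0, [], []⟩, ⟨5734500003, 4, 3, 2, 0, 0, [], []⟩,
   ⟨5734500006, 0, 0, 2, 0, 0, [], []⟩, ⟨5734500009, 0, 0, 1, 0, 0, [], []⟩] = true := by
  decide +kernel

lemma p1_U5 : p1L shT ⟨.U, 5, 10, 4, 10, 5⟩
  [⟨12900001, 0, 0, 3, 1, 5, [], []⟩, ⟨12900002, 0, 0, 2, 1, 5, [], []⟩,
   ⟨12900003, 0, 0, 1, 1, 5, [], []⟩, ⟨13000001, 0, 0, 3, 1, 5, [], []⟩,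
   ⟨13000003, 0, 0, 1, 1, 5, [], []⟩, ⟨13100001, 3, 4, 2, 1, 5, [], []⟩,
   ⟨13100002, 3, 4, 2, 1, 5, [], []⟩, ⟨13300001, 5, 3, 2, 1, 5, [], []⟩,
   ⟨13300003, 5, 3, 1, 1, 5, [], []⟩, ⟨19300003, 0, 0, 1, 1, 5, [], []⟩,
   ⟨19400001, 3, 4, 2, 2, 5, [], []⟩, ⟨19400003, 0, 0, 1, 1, 5, [], []⟩,
   ⟨25700003, 0, 0, 2, 1, 5, [], []⟩, ⟨428900001, 0, 0, 3, 1, 5, [], []⟩,
   ⟨428900002, 0, 0, 2, 1, 5, [], []⟩, ⟨428900003, 0, 0, 1, 1, 5, [], []⟩,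
   ⟨429000003, 4, 5, 1, 1, 5, [], []⟩, ⟨429300003, 5, 3, 2, 1, 5, [], []⟩,
   ⟨435300001, 0, 0, 6, 2, 5, [], []⟩, ⟨435300002, 0, 0, 2, 1, 5, [], []⟩,
   ⟨435300003, 0, 0, 2, 1, 5, [], []⟩, ⟨441700003, 0, 0, 2, 1, 5, [], []⟩,
   ⟨448100003, 0, 0, 2, 1, 5, [], []⟩, ⟨832100001, 0, 0, 4, 2, 5, [], []⟩,
   ⟨832100002, 0, 0, 2, 1, 5, [], []⟩, ⟨832100003, 0, 0, 1, 1, 5, [], []⟩,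
   ⟨832300002, 3, 3, 2, 1, 5, [], []⟩, ⟨838500001, 3, 4, 2, 2, 5, [], []⟩,
   ⟨838500002, 3, 4, 2, 1, 5, [], []⟩, ⟨838500003, 0, 0, 2, 1, 5, [], []⟩,
   ⟨838500004, 3, 4, 1, 1, 5, [], []⟩, ⟨844900002, 1, 4, 2, 2, 5, [], []⟩,
   ⟨844900004, 3, 4, 2, 1, 5, [], []⟩, ⟨1254500002, 3, 5, 3, 2, 5, [], []⟩,
   ⟨1254500003, 0, 0, 2, 1, 5, [], []⟩, ⟨1254500004, 3, 5, 1, 1, 5, [], []⟩,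
   ⟨1664100002, 3, 5, 3, 2, 5, [], []⟩, ⟨1664100004, 3, 5, 1, 1, 5, [], []⟩,
   ⟨2048100001, 3, 3, 2, 1, 5, [], []⟩, ⟨2048100002, 3, 3, 2, 1, 5, [], []⟩,
   ⟨2048100003, 0, 0, 1, 1, 5, [], []⟩, ⟨2048200003, 4, 3, 2, 1, 5, [], []⟩,
   ⟨2048500003, 5, 3, 0, 1, 5, [], []⟩, ⟨2457700006, 1, 4, 1, 1, 5, [], []⟩,
   ⟨4505700002, 3, 3, 2, 1, 5, [], []⟩, ⟨4505700003, 0, 0, 2, 1, 5, [], []⟩,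
   ⟨4915300001, 0, 0, 3, 0, 0, [], []⟩, ⟨4915300002, 0, 0, 2, 0, 0, [], []⟩,
   ⟨4915300003, 0, 0, 1, 0, 0, [], []⟩, ⟨5324900001, 0, 0, 0, 1, 0, [], []⟩,
   ⟨5324900002, 0, 0, 0, 1, 0, [], []⟩, ⟨5324900003, 0, 0, 0, 1, 0, [], []⟩,
   ⟨5734500002, 6, 4, 2, 0, 0, [], []⟩, ⟨5734500003, 4, 3, 2, 0, 0, [], []⟩] = true := by
  decide +kernel

lemma p1_A6 : p1L shT ⟨.A, 6, 15, 5, 6, 5⟩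
  [⟨12900001, 0, 0, 2, 1, 5, [], []⟩, ⟨13000001, 0, 0, 2, 1, 5, [], []⟩,
   ⟨13100001, 0, 0, 2, 1, 5, [], []⟩, ⟨19300001, 0, 0, 2, 1, 5, [], []⟩,
   ⟨19400001, 0, 0, 2, 1, 5, [], []⟩, ⟨25700001, 0, 0, 3, 1, 5, [], []⟩,
   ⟨25700002, 0, 0, 1, 1, 5, [], []⟩, ⟨32100001, 0, 0, 4, 2, 5, [], []⟩,
   ⟨32100002, 0, 0, 2, 1, 5, [], []⟩, ⟨38500002, 0, 0, 2, 1, 5, [], []⟩,
   ⟨428900001, 0, 0, 2, 1, 5, [], []⟩, ⟨435300001, 0, 0, 3, 1, 5, [], []⟩,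
   ⟨435300002, 0, 0, 1, 1, 5, [], []⟩, ⟨441700002, 0, 0, 2, 1, 5, [], []⟩,
   ⟨448100002, 0, 0, 2, 1, 5, [], []⟩, ⟨832100001, 0, 0, 2, 1, 5, [], []⟩,
   ⟨832100002, 0, 0, 1, 1, 5, [], []⟩, ⟨832300002, 0, 0, 2, 1, 5, [], []⟩,
   ⟨838500001, 0, 0, 4, 2, 5, [], []⟩, ⟨838500002, 0, 0, 2, 1, 5, [], []⟩,
   ⟨844900002, 0, 0, 2, 1, 5, [], []⟩, ⟨851300002, 0, 0, 12, 4, 36, [12], [2]⟩,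
   ⟨857700004, 0, 0, 2, 1, 5, [], []⟩, ⟨1254500001, 4, 5, 3, 2, 5, [], []⟩,
   ⟨1254500002, 0, 0, 2, 1, 5, [], []⟩, ⟨1260900002, 0, 0, 4, 1, 5, [], []⟩,
   ⟨1267300004, 0, 0, 1, 1, 5, [], []⟩, ⟨1664100002, 0, 0, 2, 1, 5, [], []⟩,
   ⟨1670500002, 0, 0, 4, 1, 5, [], []⟩, ⟨1676900004, 0, 0, 1, 1, 5, [], []⟩,
   ⟨2048100001, 0, 0, 3, 1, 5, [], []⟩, ⟨2048100002, 0, 0, 1, 1, 5, [], []⟩,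
   ⟨2457700002, 0, 0, 10, 4, 36, [4, 10], [2]⟩, ⟨4505700002, 0, 0, 2, 1, 5, [], []⟩,
   ⟨4915300001, 0, 0, 2, 0, 0, [], []⟩, ⟨4915500002, 0, 0, 1, 0, 0, [], []⟩,
   ⟨5324900001, 0, 0, 0, 1, 0, [], []⟩, ⟨5324900002, 0, 0, 0, 1, 0, [], []⟩,
   ⟨5734500002, 0, 0, 2, 0, 0, [], []⟩] = true := by
  decide +kernel

lemma p1_U6 : p1L shT ⟨.U, 6, 15, 5, 10, 5⟩
  [⟨12900001, 0, 0, 2, 1, 5, [], []⟩, ⟨13000001, 0, 0, 2, 1, 5, [], []⟩,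
   ⟨13100001, 0, 0, 2, 1, 5, [], []⟩, ⟨13300001, 5, 3, 2, 1, 5, [], []⟩,
   ⟨19300001, 0, 0, 2, 1, 5, [], []⟩, ⟨19400001, 0, 0, 2, 1, 5, [], []⟩,
   ⟨25700001, 0, 0, 3, 1, 5, [], []⟩, ⟨25700002, 0, 0, 1, 1, 5, [], []⟩,
   ⟨428900001, 0, 0, 2, 1, 5, [], []⟩, ⟨435300001, 0, 0, 3, 1, 5, [], []⟩,
   ⟨435300002, 0, 0, 1, 1, 5, [], []⟩, ⟨441700001, 0, 0, 4, 2, 5, [], []⟩,
   ⟨832100001, 0, 0, 2, 1, 5, [], []⟩, ⟨832100002, 0, 0, 1, 1, 5, [], []⟩,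
   ⟨832300002, 3, 4, 2, 1, 5, [], []⟩, ⟨838500001, 0, 0, 4, 2, 5, [], []⟩,
   ⟨838500002, 0, 0, 2, 1, 5, [], []⟩, ⟨844900002, 0, 0, 2, 1, 5, [], []⟩,
   ⟨1254500001, 4, 5, 3, 2, 5, [], []⟩, ⟨1254500002, 0, 0, 2, 1, 5, [], []⟩,
   ⟨1664100002, 0, 0, 2, 1, 5, [], []⟩, ⟨2048100001, 0, 0, 3, 1, 5, [], []⟩,
   ⟨2048100002, 0, 0, 1, 1, 5, [], []⟩, ⟨2048500003, 5, 3, 2, 1, 5, [], []⟩,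
   ⟨2457700002, 3, 3, 2, 1, 5, [], []⟩, ⟨4505700002, 3, 3, 2, 1, 5, [], []⟩,
   ⟨4915300001, 0, 0, 2, 0, 0, [], []⟩, ⟨4915500002, 0, 0, 1, 0, 0, [], []⟩,
   ⟨5324900001, 0, 0, 0, 1, 0, [], []⟩, ⟨5324900002, 0, 0, 0, 1, 0, [], []⟩,
   ⟨5734500002, 0, 0, 2, 0, 0, [], []⟩] = true := by
  decide +kernel

lemma p1_E5 : p1L shT ⟨.E, 5, 20, 5, 10, 5⟩
  [⟨12900001, 0, 0, 1, 1, 5, [], []⟩, ⟨13000001, 0, 0, 1, 1, 5, [], []⟩,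
   ⟨13100001, 0, 0, 1, 1, 5, [], []⟩, ⟨13200001, 0, 0, 1, 1, 5, [], []⟩,
   ⟨13300001, 5, 3, 1, 1, 5, [], []⟩, ⟨19300001, 0, 0, 2, 1, 5, [], []⟩,
   ⟨19400001, 0, 0, 2, 1, 5, [], []⟩, ⟨25700001, 0, 0, 2, 1, 5, [], []⟩,
   ⟨25800001, 0, 0, 2, 1, 5, [], []⟩, ⟨32200001, 5, 4, 0, 2, 5, [], []⟩,
   ⟨428900001, 0, 0, 2, 1, 5, [], []⟩, ⟨435300001, 0, 0, 2, 1, 5, [], []⟩,
   ⟨441700001, 0, 0, 2, 1, 5, [], []⟩, ⟨448100001, 6, 7, 3, 2, 5, [], []⟩,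
   ⟨832100001, 0, 0, 2, 1, 5, [], []⟩, ⟨832200001, 0, 0, 2, 1, 5, [], []⟩,
   ⟨838500001, 0, 0, 2, 1, 5, [], []⟩, ⟨844900001, 0, 0, 5, 2, 5, [], []⟩,
   ⟨844900002, 0, 0, 1, 1, 5, [], []⟩, ⟨857700003, 5, 3, 1, 1, 5, [], []⟩,
   ⟨1254500001, 0, 0, 3, 1, 5, [], []⟩, ⟨1664100001, 0, 0, 3, 1, 5, [], []⟩,
   ⟨2048100001, 0, 0, 2, 1, 5, [], []⟩, ⟨2457700002, 3, 3, 2, 1, 5, [], []⟩,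
   ⟨3276900003, 0, 0, 1, 1, 5, [], []⟩, ⟨4915300001, 0, 0, 1, 0, 0, [], []⟩,
   ⟨5324900001, 0, 0, 0, 1, 0, [], []⟩] = true := by
  decide +kernel

lemma p1_Re0 : p1L shT ⟨.Re, 0, 3, 1, 6, 1⟩
  [⟨12900001, 0, 0, 0, 3, 0, [], []⟩, ⟨12900003, 0, 0, 0, 1, 0, [], []⟩,
   ⟨12900005, 0, 0, 0, 1, 0, [], []⟩, ⟨12900007, 0, 0, 0, 1, 0, [], []⟩,
   ⟨12900009, 0, 0, 0, 1, 0, [], []⟩, ⟨13100001, 3, 4, 0, 2, 0, [], []⟩,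
   ⟨13100005, 0, 0, 0, 1, 0, [], []⟩, ⟨13100007, 0, 0, 0, 1, 0, [], []⟩,
   ⟨19300003, 0, 0, 0, 1, 0, [], []⟩, ⟨19300009, 0, 0, 0, 1, 0, [], []⟩,
   ⟨428900001, 2, 6, 0, 2, 0, [], []⟩, ⟨428900003, 0, 0, 0, 1, 0, [], []⟩,
   ⟨428900005, 0, 0, 0, 1, 0, [], []⟩, ⟨428900007, 0, 0, 0, 1, 0, [], []⟩,
   ⟨428900009, 0, 0, 0, 1, 0, [], []⟩, ⟨2048100003, 1, 4, 0, 2, 0, [], []⟩,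
   ⟨2048100005, 3, 3, 0, 1, 0, [], []⟩, ⟨2048100007, 3, 3, 0, 1, 0, [], []⟩,
   ⟨2048100009, 0, 0, 0, 1, 0, [], []⟩, ⟨2048100011, 3, 3, 0, 1, 0, [], []⟩,
   ⟨5324900003, 0, 0, 0, 1, 0, [], []⟩, ⟨5324900005, 0, 0, 0, 1, 0, [], []⟩,
   ⟨5324900007, 0, 0, 0, 1, 0, [], []⟩, ⟨5324900009, 0, 0, 0, 1, 0, [], []⟩] = true := by
  decide +kernel

lemma p1_U7 : p1L shT ⟨.U, 7, 21, 6, 14, 35⟩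
  [⟨12900001, 0, 0, 1, 1, 5, [], []⟩, ⟨13000001, 0, 0, 1, 1, 5, [], []⟩,
   ⟨13100001, 0, 0, 1, 1, 5, [], []⟩, ⟨13300001, 5, 3, 1, 1, 5, [], []⟩,
   ⟨13500001, 7, 3, 1, 1, 5, [], []⟩, ⟨19300001, 0, 0, 2, 1, 5, [], []⟩,
   ⟨19400001, 0, 0, 2, 1, 5, [], []⟩, ⟨25700001, 0, 0, 2, 1, 5, [], []⟩,
   ⟨428900001, 0, 0, 2, 1, 5, [], []⟩, ⟨435300001, 0, 0, 2, 1, 5, [], []⟩,
   ⟨441700001, 0, 0, 2, 1, 5, [], []⟩, ⟨448100001, 0, 0, 4, 2, 5, [], []⟩,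
   ⟨832100001, 0, 0, 2, 1, 5, [], []⟩, ⟨838500001, 0, 0, 2, 1, 5, [], []⟩,
   ⟨844900002, 0, 0, 1, 1, 5, [], []⟩, ⟨1254500001, 4, 5, 3, 1, 5, [], []⟩,
   ⟨2048100001, 0, 0, 2, 1, 5, [], []⟩, ⟨2048700003, 7, 3, 1, 1, 5, [], []⟩,
   ⟨2457700002, 3, 3, 2, 1, 5, [], []⟩, ⟨4915300001, 0, 0, 1, 0, 0, [], []⟩,
   ⟨5324900001, 0, 0, 0, 1, 0, [], []⟩] = true := by
  decide +kernel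

lemma p1_V40 : p1L shT ⟨.V4, 0, 12, 2, 12, 1⟩
  [⟨12900001, 0, 0, 2, 0, 0, [], []⟩, ⟨13000001, 0, 0, 2, 0, 0, [], []⟩,
   ⟨13100001, 0, 0, 2, 0, 0, [], []⟩, ⟨13400001, 3, 4, 2, 0, 0, [], []⟩,
   ⟨19400001, 0, 0, 2, 0, 0, [], []⟩, ⟨428900001, 0, 0, 2, 0, 0, [], []⟩,
   ⟨429000001, 0, 0, 2, 0, 0, [], []⟩, ⟨435300001, 0, 0, 3, 0, 0, [], []⟩,
   ⟨832100001, 0, 0, 2, 0, 0, [], []⟩, ⟨832300001, 0, 0, 0, 0, 0, [], []⟩,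
   ⟨838500001, 3, 5, 3, 0, 0, [], []⟩, ⟨1254500001, 0, 0, 0, 0, 0, [], []⟩,
   ⟨2048100001, 3, 4, 2, 0, 0, [], []⟩, ⟨2048200001, 0, 0, 0, 0, 0, [], []⟩,
   ⟨4505700001, 0, 0, 0, 0, 0, [], []⟩, ⟨4915300001, 0, 0, 2, 0, 0, [], []⟩,
   ⟨5324900001, 0, 0, 0, 0, 0, [], []⟩] = true := by
  decide +kernel

lemma p1_B6 : p1L shT ⟨.B, 6, 36, 6, 12, 5⟩
  [⟨32200001, 0, 0, 1, 1, 5, [], []⟩, ⟨38600001, 0, 0, 2, 1, 5, [], []⟩,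
   ⟨838600001, 0, 0, 1, 1, 5, [], []⟩, ⟨844900001, 0, 0, 1, 1, 5, [], []⟩,
   ⟨851300001, 0, 0, 2, 1, 5, [], []⟩, ⟨1254600001, 8, 4, 2, 1, 5, [], []⟩,
   ⟨1260900001, 0, 0, 2, 1, 5, [], []⟩, ⟨1267300001, 0, 0, 3, 1, 5, [], []⟩,
   ⟨1670500001, 0, 0, 2, 1, 5, [], []⟩, ⟨1676900001, 0, 0, 3, 1, 5, [], []⟩,
   ⟨2457700001, 0, 0, 2, 1, 5, [], []⟩] = true := by
  decide +kernel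

lemma p1_U9 : p1L shT ⟨.U, 9, 36, 8, 18, 35⟩
  [⟨32200001, 5, 4, 1, 1, 5, [], []⟩, ⟨448100001, 0, 0, 1, 1, 5, [], []⟩,
   ⟨454500001, 0, 0, 2, 1, 5, [], []⟩, ⟨460900001, 0, 0, 3, 1, 5, [], []⟩,
   ⟨844900001, 0, 0, 1, 1, 5, [], []⟩, ⟨851300001, 5, 3, 2, 1, 5, [], []⟩,
   ⟨1267300001, 5, 4, 2, 2, 5, [], []⟩, ⟨1670500001, 0, 0, 2, 1, 5, [], []⟩,
   ⟨2048300001, 9, 3, 1, 1, 5, [], []⟩] = true := by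
  decide +kernel

lemma p1_E8 : p1L shT ⟨.E, 8, 56, 8, 16, 35⟩
  [⟨45000001, 0, 0, 1, 1, 5, [], []⟩, ⟨51400001, 8, 4, 0, 1, 5, [], []⟩,
   ⟨857700001, 0, 0, 1, 1, 5, [], []⟩, ⟨864100001, 0, 0, 3, 1, 5, [], []⟩,
   ⟨1261000001, 8, 4, 1, 1, 5, [], []⟩, ⟨1273700001, 0, 0, 2, 1, 5, [], []⟩,
   ⟨1280100001, 8, 4, 0, 2, 5, [], []⟩, ⟨1683300001, 0, 0, 2, 1, 5, [], []⟩] = true := by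
  decide +kernel

lemma p1_B9 : p1L shT ⟨.B, 9, 81, 9, 18, 35⟩
  [⟨57800001, 0, 0, 2, 1, 5, [], []⟩, ⟨870500001, 0, 0, 1, 1, 5, [], []⟩,
   ⟨1286500001, 0, 0, 2, 1, 5, [], []⟩, ⟨1696100001, 0, 0, 2, 1, 5, [], []⟩,
   ⟨3686500001, 0, 0, 1, 1, 5, [], []⟩] = true := by
  decide +kernel

lemma p1_E10 : p1L shT ⟨.E, 10, 90, 10, 20, 35⟩
  [⟨64200001, 5, 4, 0, 1, 5, [], []⟩, ⟨876900001, 0, 0, 2, 1, 5, [], []⟩,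
   ⟨1286500001, 0, 0, 1, 1, 5, [], []⟩, ⟨1292900001, 5, 4, 0, 2, 5, [], []⟩,
   ⟨1696100001, 0, 0, 1, 1, 5, [], []⟩] = true := by
  decide +kernel

lemma p1_A13 : p1L shT ⟨.A, 13, 78, 12, 13, 5005⟩
  [⟨76900001, 0, 0, 2, 1, 5, [], []⟩, ⟨896100002, 0, 0, 6, 4, 36, [26], [2]⟩,
   ⟨1305700002, 0, 0, 2, 1, 5, [], []⟩, ⟨1715300002, 0, 0, 2, 1, 5, [], []⟩] = true := by
  decide +kernel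

lemma p1_A16 : p1L shT ⟨.A, 16, 120, 15, 16, 5005⟩
  [⟨96100001, 0, 0, 2, 1, 5, [], []⟩, ⟨915300002, 0, 0, 6, 4, 36, [32], [2]⟩,
   ⟨1324900002, 0, 0, 2, 1, 5, [], []⟩, ⟨1734500002, 0, 0, 2, 1, 5, [], []⟩] = true := by
  decide +kernel

lemma p1_A19 : p1L shT ⟨.A, 19, 171, 18, 19, 1616615⟩
  [⟨115300001, 0, 0, 2, 1, 5, [], []⟩, ⟨934500002, 0, 0, 6, 4, 36, [38], [2]⟩,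
   ⟨1344100002, 0, 0, 1, 1, 5, [], []⟩, ⟨1753700002, 0, 0, 1, 1, 5, [], []⟩] = true := by
  decide +kernel

lemma p1_B8 : p1L shT ⟨.B, 8, 64, 8, 16, 35⟩
  [⟨51400001, 0, 0, 2, 1, 5, [], []⟩, ⟨864100001, 0, 0, 2, 1, 5, [], []⟩,
   ⟨1280100001, 0, 0, 2, 1, 5, [], []⟩, ⟨1689700001, 0, 0, 2, 1, 5, [], []⟩] = true := by
  decide +kernel

lemma p1_D9 : p1L shT ⟨.D, 9, 72, 9, 16, 35⟩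
  [⟨870500001, 0, 0, 3, 1, 5, [], []⟩, ⟨1280100001, 0, 0, 2, 1, 5, [], []⟩,
   ⟨1689700001, 0, 0, 2, 1, 5, [], []⟩] = true := by
  decide +kernel

lemma p1_E14 : p1L shT ⟨.E, 14, 182, 14, 28, 5005⟩
  [⟨89800001, 7, 4, 0, 1, 5, [], []⟩, ⟨902500001, 0, 0, 2, 1, 5, [], []⟩,
   ⟨1318500001, 7, 3, 0, 1, 5, [], []⟩] = true := by
  decide +kernel

lemma p1_E20 : p1L shT ⟨.E, 20, 380, 20, 40, 1616615⟩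
  [⟨128200001, 20, 4, 0, 1, 5, [], []⟩, ⟨940900001, 0, 0, 1, 1, 5, [], []⟩,
   ⟨1356900001, 20, 3, 0, 1, 5, [], []⟩] = true := by
  decide +kernel

lemma p1_B11 : p1L shT ⟨.B, 11, 121, 11, 22, 385⟩
  [⟨1299300001, 0, 0, 2, 1, 5, [], []⟩, ⟨1708900001, 0, 0, 2, 1, 5, [], []⟩] = true := by
  decide +kernel

lemma p1_B14 : p1L shT ⟨.B, 14, 196, 14, 28, 5005⟩
  [⟨1318500001, 0, 0, 2, 1, 5, [], []⟩, ⟨1728100001, 0, 0, 2, 1, 5, [], []⟩] = true := by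
  decide +kernel

lemma p1_B17 : p1L shT ⟨.B, 17, 289, 17, 34, 85085⟩
  [⟨1337700001, 0, 0, 1, 1, 5, [], []⟩, ⟨1747300001, 0, 0, 1, 1, 5, [], []⟩] = true := by
  decide +kernel

lemma p1_E13 : p1L shT ⟨.E, 13, 156, 13, 26, 5005⟩
  [⟨83400001, 13, 3, 0, 1, 5, [], []⟩, ⟨896100001, 0, 0, 2, 1, 5, [], []⟩] = true := by
  decide +kernel

lemma p1_E19 : p1L shT ⟨.E, 19, 342, 19, 38, 1616615⟩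
  [⟨121800001, 19, 3, 0, 1, 5, [], []⟩, ⟨934500001, 0, 0, 1, 1, 5, [], []⟩] = true := by
  decide +kernel

lemma p1_A22 : p1L shT ⟨.A, 22, 231, 21, 22, 1616615⟩
  [⟨953700002, 0, 0, 6, 4, 36, [44], [2]⟩] = true := by
  decide +kernel

lemma p1_U14 : p1L shT ⟨.U, 14, 91, 13, 26, 5005⟩
  [⟨492900001, 0, 0, 2, 1, 5, [], []⟩] = true := by
  decide +kernel

lemma p1_U17 : p1L shT ⟨.U, 17, 136, 16, 34, 85085⟩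
  [⟨512100001, 0, 0, 2, 1, 5, [], []⟩] = true := by
  decide +kernel

lemma p1_U20 : p1L shT ⟨.U, 20, 190, 19, 38, 1616615⟩
  [⟨531300001, 0, 0, 1, 1, 5, [], []⟩] = true := by
  decide +kernel

lemma p1_D13 : p1L shT ⟨.D, 13, 156, 13, 24, 5005⟩
  [⟨896100001, 0, 0, 2, 1, 5, [], []⟩] = true := by
  decide +kernel

lemma p1_D16 : p1L shT ⟨.D, 16, 240, 16, 30, 5005⟩
  [⟨915300001, 0, 0, 2, 1, 5, [], []⟩] = true := by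
  decide +kernel

lemma p1_D19 : p1L shT ⟨.D, 19, 342, 19, 36, 1616615⟩
  [⟨934500001, 0, 0, 1, 1, 5, [], []⟩] = true := by
  decide +kernel

lemma p1_E24 : p1L shT ⟨.E, 24, 552, 24, 48, 37182145⟩
  [⟨1382500001, 24, 3, 0, 1, 5, [], []⟩] = true := by
  decide +kernel

lemma p1_U23 : p1L shT ⟨.U, 23, 253, 22, 46, 37182145⟩
  [] = true := by
  decide +kernel

lemma p1_B20 : p1L shT ⟨.B, 20, 400, 20, 40, 1616615⟩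
  [] = true := by
  decide +kernel

lemma p1_B23 : p1L shT ⟨.B, 23, 529, 23, 46, 37182145⟩
  [] = true := by
  decide +kernel

lemma p1_D22 : p1L shT ⟨.D, 22, 462, 22, 42, 1616615⟩
  [] = true := by
  decide +kernel

lemma p1_E21 : p1L shT ⟨.E, 21, 420, 21, 42, 1616615⟩
  [] = true := by
  decide +kernel

end Pool.Agent.Lib.MP_343319_al
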