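import Pool.Agent.Lib.MP_343319_al.P1b

namespace Pool.Agent.Lib.MP_343319_al

lemma p1_U3 : p1L shT ⟨.U, 3, 3, 2, 6, 1⟩
  [⟨12900001, 0, 0, 15, 5, 21, [], []⟩, ⟨12900002, 0, 0, 8, 3, 5, [], []⟩,
   ⟨12900003, 0, 0, 5, 2, 5, [], []⟩, ⟨12900004, 0, 0, 4, 2, 5, [], []⟩,
   ⟨12900005, 0, 0, 3, 1, 5, [], []⟩, ⟨12900006, 0, 0, 3, 1, 5, [], []⟩,
   ⟨12900007, 0, 0, 3, 1, 5, [], []⟩, ⟨12900008, 0, 0, 2, 1, 5, [], []⟩,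
   ⟨12900009, 0, 0, 2, 1, 5, [], []⟩, ⟨12900010, 0, 0, 2, 1, 5, [], []⟩,
   ⟨12900011, 0, 0, 2, 1, 5, [], []⟩, ⟨12900012, 0, 0, 2, 1, 5, [], []⟩,
   ⟨12900013, 0, 0, 2, 1, 5, [], []⟩, ⟨12900014, 0, 0, 2, 1, 5, [], []⟩,
   ⟨12900015, 0, 0, 1, 1, 5, [], []⟩, ⟨12900016, 0, 0, 1, 1, 5, [], []⟩,
   ⟨12900017, 0, 0, 1, 1, 5, [], []⟩, ⟨12900018, 0, 0, 1, 1, 5, [], []⟩,
   ⟨13100001, 3, 4, 0, 2, 5, [], []⟩, ⟨13100002, 3, 4, 2, 2, 5, [], []⟩,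
   ⟨13100004, 3, 4, 2, 2, 5, [], []⟩, ⟨13100005, 3, 4, 2, 1, 5, [], []⟩,
   ⟨13100007, 3, 4, 2, 1, 5, [], []⟩, ⟨13100008, 3, 4, 2, 1, 5, [], []⟩,
   ⟨13100010, 3, 4, 2, 1, 5, [], []⟩, ⟨13100011, 3, 4, 2, 1, 5, [], []⟩,
   ⟨13100013, 3, 4, 2, 1, 5, [], []⟩, ⟨13100014, 3, 4, 2, 1, 5, [], []⟩,
   ⟨13100016, 3, 4, 1, 1, 5, [], []⟩, ⟨13100017, 3, 4, 1, 1, 5, [], []⟩,
   ⟨19300003, 1, 14, 4, 2, 5, [], []⟩, ⟨19300006, 0, 0, 3, 1, 5, [], []⟩,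
   ⟨19300009, 0, 0, 2, 1, 5, [], []⟩, ⟨19300012, 0, 0, 2, 1, 5, [], []⟩,
   ⟨19300015, 0, 0, 1, 1, 5, [], []⟩, ⟨19300018, 0, 0, 1, 1, 5, [], []⟩,
   ⟨25700006, 1, 6, 3, 2, 5, [], []⟩, ⟨25700012, 0, 0, 2, 1, 5, [], []⟩,
   ⟨25700018, 0, 0, 1, 1, 5, [], []⟩, ⟨428900002, 6, 7, 3, 2, 7, [], []⟩,
   ⟨428900003, 0, 0, 7, 2, 5, [], []⟩, ⟨428900004, 6, 7, 3, 2, 5, [], []⟩,
   ⟨428900005, 0, 0, 4, 1, 5, [], []⟩, ⟨428900006, 0, 0, 3, 1, 5, [], []⟩,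
   ⟨428900007, 0, 0, 3, 1, 5, [], []⟩, ⟨428900008, 0, 0, 2, 1, 5, [], []⟩,
   ⟨428900009, 0, 0, 2, 1, 5, [], []⟩, ⟨428900010, 0, 0, 2, 1, 5, [], []⟩,
   ⟨428900011, 0, 0, 2, 1, 5, [], []⟩, ⟨428900012, 0, 0, 2, 1, 5, [], []⟩,
   ⟨428900013, 0, 0, 2, 1, 5, [], []⟩, ⟨428900014, 0, 0, 2, 1, 5, [], []⟩,
   ⟨428900015, 0, 0, 1, 1, 5, [], []⟩, ⟨428900016, 0, 0, 1, 1, 5, [], []⟩,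
   ⟨428900017, 0, 0, 1, 1, 5, [], []⟩, ⟨428900018, 0, 0, 1, 1, 5, [], []⟩,
   ⟨428900019, 0, 0, 1, 1, 5, [], []⟩, ⟨435300002, 2, 5, 0, 2, 5, [], []⟩,
   ⟨435300004, 2, 8, 3, 2, 8, [], []⟩, ⟨435300006, 2, 5, 3, 2, 5, [], []⟩,
   ⟨435300008, 6, 8, 3, 1, 5, [], []⟩, ⟨435300010, 0, 0, 2, 1, 5, [], []⟩,
   ⟨435300012, 0, 0, 2, 1, 5, [], []⟩, ⟨435300014, 0, 0, 2, 1, 5, [], []⟩,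
   ⟨435300016, 0, 0, 2, 1, 5, [], []⟩, ⟨435300018, 0, 0, 1, 1, 5, [], []⟩,
   ⟨435300020, 0, 0, 1, 1, 5, [], []⟩, ⟨441700010, 2, 4, 2, 1, 5, [], []⟩,
   ⟨441700020, 2, 5, 1, 1, 5, [], []⟩, ⟨448100010, 2, 3, 2, 1, 5, [], []⟩,
   ⟨448100020, 2, 4, 2, 1, 5, [], []⟩, ⟨832100002, 1, 6, 3, 2, 6, [], []⟩,
   ⟨832100004, 1, 10, 4, 2, 5, [], []⟩, ⟨832100006, 1, 14, 4, 1, 5, [], []⟩,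
   ⟨832100008, 0, 0, 3, 1, 5, [], []⟩, ⟨832100010, 0, 0, 2, 1, 5, [], []⟩,
   ⟨832100012, 0, 0, 2, 1, 5, [], []⟩, ⟨832100014, 0, 0, 2, 1, 5, [], []⟩,
   ⟨832100016, 0, 0, 1, 1, 5, [], []⟩, ⟨832100018, 0, 0, 1, 1, 5, [], []⟩,
   ⟨832100020, 0, 0, 1, 1, 5, [], []⟩, ⟨832300010, 3, 3, 2, 1, 5, [], []⟩,
   ⟨832300014, 3, 3, 2, 1, 5, [], []⟩, ⟨832300022, 3, 3, 1, 1, 5, [], []⟩,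
   ⟨838500004, 1, 4, 2, 2, 5, [], []⟩, ⟨838500006, 1, 4, 2, 2, 5, [], []⟩,
   ⟨838500008, 3, 4, 2, 2, 5, [], []⟩, ⟨838500010, 3, 4, 2, 1, 5, [], []⟩,
   ⟨838500012, 1, 4, 2, 1, 5, [], []⟩, ⟨838500014, 3, 4, 2, 1, 5, [], []⟩,
   ⟨838500016, 3, 4, 2, 1, 5, [], []⟩, ⟨838500018, 0, 0, 1, 1, 5, [], []⟩,
   ⟨838500020, 3, 4, 1, 1, 5, [], []⟩, ⟨838500022, 3, 4, 1, 1, 5, [], []⟩,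
   ⟨838500024, 0, 0, 1, 1, 5, [], []⟩, ⟨844900008, 2, 3, 2, 1, 5, [], []⟩,
   ⟨844900012, 2, 2, 1, 1, 5, [], []⟩, ⟨844900016, 1, 4, 2, 1, 5, [], []⟩,
   ⟨844900020, 2, 4, 2, 1, 5, [], []⟩, ⟨844900024, 2, 3, 1, 1, 5, [], []⟩,
   ⟨844900028, 2, 4, 1, 1, 5, [], []⟩, ⟨851300020, 2, 2, 1, 1, 5, [], []⟩,
   ⟨1254500004, 2, 4, 0, 2, 5, [], []⟩, ⟨1254500006, 2, 3, 2, 1, 5, [], []⟩,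
   ⟨1254500008, 1, 5, 3, 2, 5, [], []⟩, ⟨1254500010, 2, 5, 3, 2, 5, [], []⟩,
   ⟨1254500012, 2, 4, 2, 1, 5, [], []⟩, ⟨1254500014, 3, 5, 2, 1, 5, [], []⟩,
   ⟨1254500016, 1, 5, 2, 1, 5, [], []⟩, ⟨1254500018, 2, 4, 2, 1, 5, [], []⟩,
   ⟨1254500020, 3, 5, 1, 1, 5, [], []⟩, ⟨1254500022, 3, 5, 1, 1, 5, [], []⟩,
   ⟨1254500024, 1, 5, 1, 1, 5, [], []⟩, ⟨1254500026, 3, 5, 1, 1, 5, [], []⟩,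
   ⟨1260900020, 1, 4, 2, 1, 5, [], []⟩, ⟨1267300020, 2, 2, 1, 1, 5, [], []⟩,
   ⟨1267300040, 2, 3, 1, 1, 5, [], []⟩, ⟨1664100004, 2, 5, 0, 2, 5, [], []⟩,
   ⟨1664100008, 3, 5, 3, 2, 5, [], []⟩, ⟨1664100012, 2, 5, 3, 1, 5, [], []⟩,
   ⟨1664100016, 3, 5, 2, 1, 5, [], []⟩, ⟨1664100020, 3, 5, 1, 1, 5, [], []⟩,
   ⟨1664100024, 0, 0, 1, 1, 5, [], []⟩, ⟨1670500020, 2, 2, 1, 1, 5, [], []⟩,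
   ⟨2048100002, 3, 3, 0, 1, 5, [], []⟩, ⟨2048100003, 1, 4, 2, 2, 5, [], []⟩,
   ⟨2048100004, 3, 3, 2, 1, 5, [], []⟩, ⟨2048100005, 3, 3, 2, 1, 5, [], []⟩,
   ⟨2048100006, 1, 6, 3, 2, 5, [], []⟩, ⟨2048100007, 3, 3, 2, 1, 5, [], []⟩,
   ⟨2048100008, 3, 3, 2, 1, 5, [], []⟩, ⟨2048100009, 1, 8, 3, 1, 5, [], []⟩,
   ⟨2048100010, 3, 3, 2, 1, 5, [], []⟩, ⟨2048100011, 3, 3, 2, 1, 5, [], []⟩,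
   ⟨2048100012, 0, 0, 2, 1, 5, [], []⟩, ⟨2048100013, 3, 3, 2, 1, 5, [], []⟩,
   ⟨2048100014, 3, 3, 2, 1, 5, [], []⟩, ⟨2048100015, 0, 0, 2, 1, 5, [], []⟩,
   ⟨2048100016, 3, 3, 2, 1, 5, [], []⟩, ⟨2048100017, 3, 3, 1, 1, 5, [], []⟩,
   ⟨2048100018, 0, 0, 1, 1, 5, [], []⟩, ⟨2048100019, 3, 3, 1, 1, 5, [], []⟩,
   ⟨2048100020, 3, 3, 1, 1, 5, [], []⟩, ⟨2048100021, 0, 0, 1, 1, 5, [], []⟩,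
   ⟨2048100022, 3, 3, 1, 1, 5, [], []⟩, ⟨2457700012, 2, 2, 1, 1, 5, [], []⟩,
   ⟨2457700024, 2, 2, 1, 1, 5, [], []⟩, ⟨2457700036, 2, 2, 1, 1, 5, [], []⟩,
   ⟨4505700006, 3, 3, 2, 1, 5, [], []⟩, ⟨4505700010, 3, 3, 2, 1, 5, [], []⟩,
   ⟨4505700012, 3, 4, 2, 1, 5, [], []⟩, ⟨4505700014, 3, 3, 2, 1, 5, [], []⟩,
   ⟨4505700018, 3, 4, 2, 1, 5, [], []⟩, ⟨4505700022, 3, 3, 1, 1, 5, [], []⟩,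
   ⟨4505700024, 3, 5, 1, 1, 5, [], []⟩, ⟨4505700026, 3, 3, 1, 1, 5, [], []⟩,
   ⟨4915300002, 0, 0, 11, 0, 0, [], []⟩, ⟨4915300004, 0, 0, 5, 0, 0, [], []⟩,
   ⟨4915300006, 0, 0, 3, 0, 0, [], []⟩, ⟨4915300008, 0, 0, 2, 0, 0, [], []⟩,
   ⟨4915300010, 0, 0, 2, 0, 0, [], []⟩, ⟨4915300012, 0, 0, 2, 0, 0, [], []⟩,
   ⟨4915300014, 0, 0, 2, 0, 0, [], []⟩, ⟨4915300016, 0, 0, 1, 0, 0, [], []⟩,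
   ⟨4915300018, 0, 0, 1, 0, 0, [], []⟩, ⟨5324900002, 6, 5, 0, 2, 0, [], []⟩,
   ⟨5324900003, 0, 0, 0, 3, 0, [], []⟩, ⟨5324900004, 6, 5, 0, 2, 0, [], []⟩,
   ⟨5324900005, 0, 0, 0, 1, 0, [], []⟩, ⟨5324900006, 0, 0, 0, 1, 0, [], []⟩,
   ⟨5324900007, 0, 0, 0, 1, 0, [], []⟩, ⟨5324900008, 0, 0, 0, 1, 0, [], []⟩,
   ⟨5324900009, 0, 0, 0, 1, 0, [], []⟩, ⟨5324900010, 0, 0, 0, 1, 0, [], []⟩,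
   ⟨5324900011, 0, 0, 0, 1, 0, [], []⟩, ⟨5324900012, 0, 0, 0, 1, 0, [], []⟩,
   ⟨5324900013, 0, 0, 0, 1, 0, [], []⟩, ⟨5324900014, 0, 0, 0, 1, 0, [], []⟩,
   ⟨5324900015, 0, 0, 0, 1, 0, [], []⟩, ⟨5324900016, 0, 0, 0, 1, 0, [], []⟩,
   ⟨5324900017, 0, 0, 0, 1, 0, [], []⟩, ⟨5324900018, 0, 0, 0, 1, 0, [], []⟩,
   ⟨5324900019, 0, 0, 0, 1, 0, [], []⟩, ⟨5324900020, 0, 0, 0, 1, 0, [], []⟩,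
   ⟨5734500006, 2, 2, 1, 0, 0, [], []⟩, ⟨5734500010, 6, 4, 2, 0, 0, [], []⟩,
   ⟨5734500012, 2, 4, 2, 0, 0, [], []⟩, ⟨5734500014, 6, 4, 2, 0, 0, [], []⟩,
   ⟨5734500018, 0, 0, 2, 0, 0, [], []⟩, ⟨5734500022, 0, 0, 1, 0, 0, [], []⟩,
   ⟨5734500024, 0, 0, 1, 0, 0, [], []⟩, ⟨5734500026, 0, 0, 1, 0, 0, [], []⟩] = true := by
  decide +kernel

lemma p1_A4 : p1L shT ⟨.A, 4, 6, 3, 4, 1⟩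
  [⟨12900001, 0, 0, 5, 2, 5, [], []⟩, ⟨12900002, 0, 0, 3, 1, 5, [], []⟩,
   ⟨12900003, 0, 0, 2, 1, 5, [], []⟩, ⟨12900004, 0, 0, 2, 1, 5, [], []⟩,
   ⟨12900005, 0, 0, 1, 1, 5, [], []⟩, ⟨12900006, 0, 0, 1, 1, 5, [], []⟩,
   ⟨13000001, 0, 0, 5, 2, 5, [], []⟩, ⟨13000003, 0, 0, 2, 1, 5, [], []⟩,
   ⟨13000005, 0, 0, 1, 1, 5, [], []⟩, ⟨13100001, 6, 5, 3, 2, 5, [], []⟩,
   ⟨13100002, 0, 0, 3, 1, 5, [], []⟩, ⟨13100004, 0, 0, 2, 1, 5, [], []⟩,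
   ⟨13100005, 6, 5, 1, 1, 5, [], []⟩, ⟨19300001, 0, 0, 8, 3, 7, [], []⟩,
   ⟨19300002, 0, 0, 3, 1, 5, [], []⟩, ⟨19300003, 0, 0, 2, 1, 5, [], []⟩,
   ⟨19300004, 0, 0, 2, 1, 5, [], []⟩, ⟨19300005, 0, 0, 2, 1, 5, [], []⟩,
   ⟨19300006, 0, 0, 1, 1, 5, [], []⟩, ⟨19400001, 6, 6, 0, 2, 6, [], []⟩,
   ⟨19400003, 0, 0, 3, 1, 5, [], []⟩, ⟨19400005, 0, 0, 2, 1, 5, [], []⟩,
   ⟨25700002, 0, 0, 6, 2, 5, [], []⟩, ⟨25700003, 0, 0, 3, 1, 5, [], []⟩,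
   ⟨25700004, 0, 0, 2, 1, 5, [], []⟩, ⟨25700005, 0, 0, 2, 1, 5, [], []⟩,
   ⟨25700006, 0, 0, 2, 1, 5, [], []⟩, ⟨25700007, 0, 0, 1, 1, 5, [], []⟩,
   ⟨32100005, 0, 0, 2, 1, 5, [], []⟩, ⟨38500005, 6, 7, 3, 1, 5, [], []⟩,
   ⟨428900001, 6, 6, 3, 2, 6, [], []⟩, ⟨428900002, 0, 0, 3, 1, 5, [], []⟩,
   ⟨428900003, 0, 0, 2, 1, 5, [], []⟩, ⟨428900004, 0, 0, 2, 1, 5, [], []⟩,
   ⟨428900005, 0, 0, 2, 1, 5, [], []⟩, ⟨428900006, 0, 0, 1, 1, 5, [], []⟩,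
   ⟨429000003, 4, 5, 3, 1, 5, [], []⟩, ⟨435300001, 6, 6, 0, 2, 6, [], []⟩,
   ⟨435300002, 0, 0, 6, 2, 5, [], []⟩, ⟨435300003, 0, 0, 3, 1, 5, [], []⟩,
   ⟨435300004, 0, 0, 2, 1, 5, [], []⟩, ⟨435300005, 0, 0, 2, 1, 5, [], []⟩,
   ⟨435300006, 0, 0, 2, 1, 5, [], []⟩, ⟨435300007, 0, 0, 1, 1, 5, [], []⟩,
   ⟨441700005, 0, 0, 2, 1, 5, [], []⟩, ⟨448100005, 6, 5, 3, 1, 5, [], []⟩,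
   ⟨832100001, 0, 0, 15, 5, 21, [], []⟩, ⟨832100002, 0, 0, 4, 2, 5, [], []⟩,
   ⟨832100003, 0, 0, 3, 1, 5, [], []⟩, ⟨832100004, 0, 0, 2, 1, 5, [], []⟩,
   ⟨832100005, 0, 0, 2, 1, 5, [], []⟩, ⟨832100006, 0, 0, 1, 1, 5, [], []⟩,
   ⟨832300004, 3, 4, 2, 1, 5, [], []⟩, ⟨832300008, 3, 4, 1, 1, 5, [], []⟩,
   ⟨838500002, 0, 0, 19, 6, 36, [8], [2]⟩, ⟨838500003, 2, 12, 4, 2, 5, [], []⟩,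
   ⟨838500004, 0, 0, 3, 1, 5, [], []⟩, ⟨838500005, 6, 5, 2, 1, 5, [], []⟩,
   ⟨838500006, 0, 0, 2, 1, 5, [], []⟩, ⟨838500007, 6, 5, 1, 1, 5, [], []⟩,
   ⟨838500008, 0, 0, 1, 1, 5, [], []⟩, ⟨844900004, 1, 18, 5, 3, 18, [], []⟩,
   ⟨844900006, 0, 0, 3, 1, 5, [], []⟩, ⟨844900008, 0, 0, 2, 1, 5, [], []⟩,
   ⟨844900010, 0, 0, 1, 1, 5, [], []⟩, ⟨851300010, 0, 0, 2, 1, 5, [], []⟩,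
   ⟨1254500003, 2, 6, 3, 2, 6, [], []⟩, ⟨1254500004, 0, 0, 4, 1, 5, [], []⟩,
   ⟨1254500005, 6, 6, 3, 1, 5, [], []⟩, ⟨1254500006, 0, 0, 2, 1, 5, [], []⟩,
   ⟨1254500007, 0, 0, 2, 1, 5, [], []⟩, ⟨1254500008, 0, 0, 1, 1, 5, [], []⟩,
   ⟨1260900010, 0, 0, 2, 1, 5, [], []⟩, ⟨1267300010, 0, 0, 2, 1, 5, [], []⟩,
   ⟨1664100004, 0, 0, 4, 1, 5, [], []⟩, ⟨1664100006, 0, 0, 2, 1, 5, [], []⟩,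
   ⟨1664100008, 0, 0, 1, 1, 5, [], []⟩, ⟨1670500010, 0, 0, 2, 1, 5, [], []⟩,
   ⟨2048100001, 6, 4, 0, 2, 5, [], []⟩, ⟨2048100002, 0, 0, 7, 2, 5, [], []⟩,
   ⟨2048100003, 0, 0, 3, 1, 5, [], []⟩, ⟨2048100004, 0, 0, 2, 1, 5, [], []⟩,
   ⟨2048100005, 6, 4, 2, 1, 5, [], []⟩, ⟨2048100006, 0, 0, 1, 1, 5, [], []⟩,
   ⟨2048100007, 6, 4, 1, 1, 5, [], []⟩, ⟨2048200003, 4, 3, 2, 1, 5, [], []⟩,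
   ⟨2457700004, 3, 3, 0, 1, 5, [], []⟩, ⟨2457700006, 2, 18, 5, 3, 18, [], []⟩,
   ⟨2457700008, 3, 3, 2, 1, 5, [], []⟩, ⟨2457700012, 0, 0, 1, 1, 5, [], []⟩,
   ⟨4505700003, 0, 0, 8, 3, 9, [], []⟩, ⟨4505700004, 3, 3, 2, 1, 5, [], []⟩,
   ⟨4505700006, 0, 0, 2, 1, 5, [], []⟩, ⟨4505700008, 3, 3, 1, 1, 5, [], []⟩,
   ⟨4915300001, 0, 0, 7, 0, 0, [], []⟩, ⟨4915300002, 0, 0, 3, 0, 0, [], []⟩,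
   ⟨4915300003, 0, 0, 2, 0, 0, [], []⟩, ⟨4915300004, 0, 0, 2, 0, 0, [], []⟩,
   ⟨4915300005, 0, 0, 1, 0, 0, [], []⟩, ⟨4915300006, 0, 0, 1, 0, 0, [], []⟩,
   ⟨4915500004, 0, 0, 2, 0, 0, [], []⟩, ⟨5324900001, 6, 4, 0, 2, 0, [], []⟩,
   ⟨5324900002, 0, 0, 0, 1, 0, [], []⟩, ⟨5324900003, 0, 0, 0, 1, 0, [], []⟩,
   ⟨5324900004, 0, 0, 0, 1, 0, [], []⟩, ⟨5324900005, 0, 0, 0, 1, 0, [], []⟩,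
   ⟨5324900006, 0, 0, 0, 1, 0, [], []⟩, ⟨5734500003, 4, 3, 2, 0, 0, [], []⟩,
   ⟨5734500004, 0, 0, 4, 0, 0, [], []⟩, ⟨5734500006, 0, 0, 2, 0, 0, [], []⟩,
   ⟨5734500008, 0, 0, 1, 0, 0, [], []⟩, ⟨5734500009, 0, 0, 1, 0, 0, [], []⟩] = true := by
  decide +kernel

lemma p1_B3 : p1L shT ⟨.B, 3, 9, 3, 6, 1⟩
  [⟨12900001, 0, 0, 3, 1, 5, [], []⟩, ⟨12900002, 0, 0, 2, 1, 5, [], []⟩,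
   ⟨12900003, 0, 0, 1, 1, 5, [], []⟩, ⟨13000001, 0, 0, 3, 1, 5, [], []⟩,
   ⟨13000003, 0, 0, 1, 1, 5, [], []⟩, ⟨13100001, 0, 0, 3, 1, 5, [], []⟩,
   ⟨13100002, 0, 0, 2, 1, 5, [], []⟩, ⟨19300001, 0, 0, 3, 1, 5, [], []⟩,
   ⟨19300002, 0, 0, 2, 1, 5, [], []⟩, ⟨19300003, 0, 0, 1, 1, 5, [], []⟩,
   ⟨19400001, 0, 0, 4, 2, 5, [], []⟩, ⟨19400003, 0, 0, 1, 1, 5, [], []⟩,
   ⟨25700001, 0, 0, 6, 2, 6, [], []⟩, ⟨25700002, 0, 0, 2, 1, 5, [], []⟩,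
   ⟨25700003, 0, 0, 2, 1, 5, [], []⟩, ⟨428900001, 0, 0, 3, 1, 5, [], []⟩,
   ⟨428900002, 0, 0, 2, 1, 5, [], []⟩, ⟨428900003, 0, 0, 1, 1, 5, [], []⟩,
   ⟨429000003, 4, 5, 1, 1, 5, [], []⟩, ⟨435300001, 0, 0, 6, 2, 6, [], []⟩,
   ⟨435300002, 0, 0, 2, 1, 5, [], []⟩, ⟨435300003, 0, 0, 2, 1, 5, [], []⟩,
   ⟨832100001, 0, 0, 4, 2, 5, [], []⟩, ⟨832100002, 0, 0, 2, 1, 5, [], []⟩,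
   ⟨832100003, 0, 0, 1, 1, 5, [], []⟩, ⟨832300002, 3, 4, 2, 1, 5, [], []⟩,
   ⟨832300004, 3, 4, 1, 1, 5, [], []⟩, ⟨838500002, 0, 0, 3, 1, 5, [], []⟩,
   ⟨838500003, 0, 0, 2, 1, 5, [], []⟩, ⟨838500004, 0, 0, 1, 1, 5, [], []⟩,
   ⟨844900002, 1, 6, 3, 2, 6, [], []⟩, ⟨844900004, 0, 0, 2, 1, 5, [], []⟩,
   ⟨1254500002, 0, 0, 4, 2, 5, [], []⟩, ⟨1254500003, 0, 0, 2, 1, 5, [], []⟩,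
   ⟨1254500004, 0, 0, 1, 1, 5, [], []⟩, ⟨1664100002, 0, 0, 4, 2, 5, [], []⟩,
   ⟨1664100004, 0, 0, 1, 1, 5, [], []⟩, ⟨2048100001, 0, 0, 7, 2, 6, [], []⟩,
   ⟨2048100002, 0, 0, 2, 1, 5, [], []⟩, ⟨2048100003, 0, 0, 1, 1, 5, [], []⟩,
   ⟨2048200003, 4, 3, 2, 1, 5, [], []⟩, ⟨2457700004, 3, 3, 2, 1, 5, [], []⟩,
   ⟨2457700006, 0, 0, 1, 1, 5, [], []⟩, ⟨4505700002, 3, 3, 2, 1, 5, [], []⟩,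
   ⟨4505700003, 0, 0, 2, 1, 5, [], []⟩, ⟨4505700004, 3, 3, 1, 1, 5, [], []⟩,
   ⟨4915300001, 0, 0, 3, 0, 0, [], []⟩, ⟨4915300002, 0, 0, 2, 0, 0, [], []⟩,
   ⟨4915300003, 0, 0, 1, 0, 0, [], []⟩, ⟨4915500002, 0, 0, 2, 0, 0, [], []⟩,
   ⟨5324900001, 0, 0, 0, 1, 0, [], []⟩, ⟨5324900002, 0, 0, 0, 1, 0, [], []⟩,
   ⟨5324900003, 0, 0, 0, 1, 0, [], []⟩, ⟨5734500002, 0, 0, 7, 0, 0, [], []⟩,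
   ⟨5734500003, 4, 3, 2, 0, 0, [], []⟩, ⟨5734500004, 0, 0, 1, 0, 0, [], []⟩] = true := by
  decide +kernel

lemma p1_G20 : p1L shT ⟨.G2, 0, 6, 2, 6, 1⟩
  [⟨12900001, 0, 0, 4, 2, 5, [], []⟩, ⟨12900002, 0, 0, 2, 1, 5, [], []⟩,
   ⟨12900003, 0, 0, 2, 1, 5, [], []⟩, ⟨12900004, 0, 0, 1, 1, 5, [], []⟩,
   ⟨13100001, 0, 0, 4, 2, 5, [], []⟩, ⟨13100002, 0, 0, 2, 1, 5, [], []⟩,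
   ⟨13100004, 0, 0, 1, 1, 5, [], []⟩, ⟨19300001, 0, 0, 5, 2, 5, [], []⟩,
   ⟨19300002, 0, 0, 3, 1, 5, [], []⟩, ⟨19300003, 0, 0, 2, 1, 5, [], []⟩,
   ⟨19300004, 0, 0, 1, 1, 5, [], []⟩, ⟨25700002, 0, 0, 4, 1, 5, [], []⟩,
   ⟨25700004, 0, 0, 2, 1, 5, [], []⟩, ⟨428900001, 0, 0, 5, 2, 5, [], []⟩,
   ⟨428900002, 0, 0, 3, 1, 5, [], []⟩, ⟨428900003, 0, 0, 2, 1, 5, [], []⟩,
   ⟨428900004, 0, 0, 1, 1, 5, [], []⟩, ⟨435300002, 2, 16, 4, 1, 5, [], []⟩,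
   ⟨435300004, 0, 0, 2, 1, 5, [], []⟩, ⟨832100002, 0, 0, 3, 1, 5, [], []⟩,
   ⟨832100004, 0, 0, 2, 1, 5, [], []⟩, ⟨832300002, 3, 4, 0, 2, 5, [], []⟩,
   ⟨832300004, 3, 4, 2, 1, 5, [], []⟩, ⟨838500002, 1, 6, 3, 2, 6, [], []⟩,
   ⟨838500004, 0, 0, 2, 1, 5, [], []⟩, ⟨838500006, 0, 0, 1, 1, 5, [], []⟩,
   ⟨844900004, 1, 4, 2, 2, 5, [], []⟩, ⟨1254500002, 2, 4, 0, 2, 5, [], []⟩,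
   ⟨1254500004, 0, 0, 2, 1, 5, [], []⟩, ⟨1254500006, 0, 0, 1, 1, 5, [], []⟩,
   ⟨1664100004, 0, 0, 2, 1, 5, [], []⟩, ⟨2048100002, 0, 0, 4, 1, 5, [], []⟩,
   ⟨2048100003, 0, 0, 2, 1, 5, [], []⟩, ⟨2048100004, 0, 0, 2, 1, 5, [], []⟩,
   ⟨2048100005, 0, 0, 1, 1, 5, [], []⟩, ⟨2457700004, 2, 2, 0, 1, 5, [], []⟩,
   ⟨2457700008, 1, 4, 2, 1, 5, [], []⟩, ⟨4505700002, 3, 3, 0, 1, 5, [], []⟩,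
   ⟨4505700004, 3, 3, 2, 1, 5, [], []⟩, ⟨4505700006, 0, 0, 1, 1, 5, [], []⟩,
   ⟨4915300002, 0, 0, 2, 0, 0, [], []⟩, ⟨4915300004, 0, 0, 1, 0, 0, [], []⟩,
   ⟨4915500002, 0, 0, 3, 0, 0, [], []⟩, ⟨4915500004, 0, 0, 2, 0, 0, [], []⟩,
   ⟨5324900001, 0, 0, 0, 2, 0, [], []⟩, ⟨5324900002, 0, 0, 0, 1, 0, [], []⟩,
   ⟨5324900003, 0, 0, 0, 1, 0, [], []⟩, ⟨5324900004, 0, 0, 0, 1, 0, [], []⟩,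
   ⟨5324900005, 0, 0, 0, 1, 0, [], []⟩, ⟨5734500002, 0, 0, 0, 0, 0, [], []⟩,
   ⟨5734500004, 0, 0, 3, 0, 0, [], []⟩, ⟨5734500006, 0, 0, 1, 0, 0, [], []⟩] = true := by
  decide +kernel

lemma p1_A7 : p1L shT ⟨.A, 7, 21, 6, 7, 35⟩
  [⟨12900001, 0, 0, 1, 1, 5, [], []⟩, ⟨13000001, 0, 0, 1, 1, 5, [], []⟩,
   ⟨13100001, 0, 0, 1, 1, 5, [], []⟩, ⟨19300001, 0, 0, 2, 1, 5, [], []⟩,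
   ⟨19400001, 0, 0, 2, 1, 5, [], []⟩, ⟨25700001, 0, 0, 2, 1, 5, [], []⟩,
   ⟨32100001, 0, 0, 2, 1, 5, [], []⟩, ⟨38500001, 0, 0, 4, 2, 5, [], []⟩,
   ⟨44900002, 0, 0, 2, 1, 5, [], []⟩, ⟨51300002, 0, 0, 2, 1, 5, [], []⟩,
   ⟨428900001, 0, 0, 2, 1, 5, [], []⟩, ⟨435300001, 0, 0, 2, 1, 5, [], []⟩,
   ⟨454500002, 0, 0, 2, 1, 5, [], []⟩, ⟨460900002, 0, 0, 2, 1, 5, [], []⟩,
   ⟨832100001, 0, 0, 2, 1, 5, [], []⟩, ⟨838500001, 0, 0, 2, 1, 5, [], []⟩,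
   ⟨844900002, 0, 0, 1, 1, 5, [], []⟩, ⟨851300002, 0, 0, 2, 1, 5, [], []⟩,
   ⟨857700002, 0, 0, 10, 4, 36, [14], [2]⟩, ⟨864100004, 0, 0, 1, 1, 5, [], []⟩,
   ⟨870500004, 1, 6, 3, 1, 5, [], []⟩, ⟨1254500001, 4, 5, 3, 1, 5, [], []⟩,
   ⟨1260900002, 0, 0, 2, 1, 5, [], []⟩, ⟨1267300002, 0, 0, 3, 1, 5, [], []⟩,
   ⟨1280100004, 0, 0, 2, 1, 5, [], []⟩, ⟨1670500002, 0, 0, 2, 1, 5, [], []⟩,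
   ⟨1676900002, 0, 0, 3, 1, 5, [], []⟩, ⟨1689700004, 0, 0, 2, 1, 5, [], []⟩,
   ⟨2048100001, 0, 0, 2, 1, 5, [], []⟩, ⟨2457700002, 0, 0, 2, 1, 5, [], []⟩,
   ⟨4915300001, 0, 0, 1, 0, 0, [], []⟩, ⟨5324900001, 0, 0, 0, 1, 0, [], []⟩] = true := by
  decide +kernel

lemma p1_B4 : p1L shT ⟨.B, 4, 16, 4, 8, 1⟩
  [⟨12900001, 0, 0, 2, 1, 5, [], []⟩, ⟨13000001, 0, 0, 2, 1, 5, [], []⟩,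
   ⟨13100001, 0, 0, 2, 1, 5, [], []⟩, ⟨13200001, 0, 0, 2, 1, 5, [], []⟩,
   ⟨19300001, 0, 0, 2, 1, 5, [], []⟩, ⟨19400001, 0, 0, 2, 1, 5, [], []⟩,
   ⟨25700001, 0, 0, 2, 1, 5, [], []⟩, ⟨25800001, 0, 0, 3, 1, 5, [], []⟩,
   ⟨428900001, 0, 0, 2, 1, 5, [], []⟩, ⟨435300001, 0, 0, 2, 1, 5, [], []⟩,
   ⟨832100001, 0, 0, 2, 1, 5, [], []⟩, ⟨832200001, 0, 0, 2, 1, 5, [], []⟩,
   ⟨832300002, 3, 4, 1, 1, 5, [], []⟩, ⟨838500001, 0, 0, 3, 1, 5, [], []⟩,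
   ⟨838500002, 0, 0, 1, 1, 5, [], []⟩, ⟨844900002, 0, 0, 2, 1, 5, [], []⟩,
   ⟨1254500001, 0, 0, 4, 2, 5, [], []⟩, ⟨1254500002, 0, 0, 1, 1, 5, [], []⟩,
   ⟨1664100001, 0, 0, 4, 2, 5, [], []⟩, ⟨1664100002, 0, 0, 1, 1, 5, [], []⟩,
   ⟨2048100001, 0, 0, 2, 1, 5, [], []⟩, ⟨2457700002, 3, 3, 2, 1, 5, [], []⟩,
   ⟨2457700003, 0, 0, 1, 1, 5, [], []⟩, ⟨4505700002, 3, 3, 1, 1, 5, [], []⟩,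
   ⟨4915300001, 0, 0, 2, 0, 0, [], []⟩, ⟨5324900001, 0, 0, 0, 1, 0, [], []⟩,
   ⟨5734500002, 0, 0, 1, 0, 0, [], []⟩] = true := by
  decide +kernel

lemma p1_E6 : p1L shT ⟨.E, 6, 30, 6, 12, 5⟩
  [⟨25800001, 0, 0, 1, 1, 5, [], []⟩, ⟨32100001, 0, 0, 1, 1, 5, [], []⟩,
   ⟨32200001, 0, 0, 2, 1, 5, [], []⟩, ⟨38500001, 0, 0, 2, 1, 5, [], []⟩,
   ⟨38600001, 3, 6, 0, 2, 5, [], []⟩, ⟨435400001, 0, 0, 1, 1, 5, [], []⟩,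
   ⟨441700001, 0, 0, 1, 1, 5, [], []⟩, ⟨448100001, 0, 0, 2, 1, 5, [], []⟩,
   ⟨832300001, 3, 4, 1, 1, 5, [], []⟩, ⟨838500001, 0, 0, 1, 1, 5, [], []⟩,
   ⟨838600001, 0, 0, 2, 1, 5, [], []⟩, ⟨844900001, 0, 0, 2, 1, 5, [], []⟩,
   ⟨851300001, 0, 0, 4, 2, 5, [], []⟩, ⟨857700002, 3, 4, 1, 1, 5, [], []⟩,
   ⟨1254500001, 0, 0, 1, 1, 5, [], []⟩, ⟨1254600001, 8, 4, 2, 1, 5, [], []⟩,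
   ⟨1260900001, 0, 0, 2, 1, 5, [], []⟩, ⟨1267300001, 3, 5, 0, 2, 5, [], []⟩,
   ⟨1664100001, 0, 0, 1, 1, 5, [], []⟩, ⟨1670500001, 0, 0, 2, 1, 5, [], []⟩,
   ⟨2048200001, 0, 0, 1, 1, 5, [], []⟩, ⟨2457700001, 3, 3, 2, 1, 5, [], []⟩,
   ⟨4505700001, 3, 3, 1, 1, 5, [], []⟩, ⟨5734500001, 0, 0, 1, 0, 0, [], []⟩] = true := by
  decide +kernel

lemma p1_B5 : p1L shT ⟨.B, 5, 25, 5, 10, 5⟩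
  [⟨19400001, 0, 0, 1, 1, 5, [], []⟩, ⟨25700001, 0, 0, 1, 1, 5, [], []⟩,
   ⟨25800001, 0, 0, 2, 1, 5, [], []⟩, ⟨32100001, 0, 0, 2, 1, 5, [], []⟩,
   ⟨32200001, 0, 0, 2, 1, 5, [], []⟩, ⟨38500001, 0, 0, 2, 1, 5, [], []⟩,
   ⟨435300001, 0, 0, 1, 1, 5, [], []⟩, ⟨441700001, 0, 0, 2, 1, 5, [], []⟩,
   ⟨448100001, 0, 0, 2, 1, 5, [], []⟩, ⟨832100001, 0, 0, 1, 1, 5, [], []⟩,
   ⟨832200001, 0, 0, 1, 1, 5, [], []⟩, ⟨838500001, 0, 0, 2, 1, 5, [], []⟩,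
   ⟨844900001, 0, 0, 2, 1, 5, [], []⟩, ⟨857700002, 3, 4, 2, 1, 5, [], []⟩,
   ⟨1254500001, 0, 0, 2, 1, 5, [], []⟩, ⟨1260900001, 0, 0, 4, 1, 5, [], []⟩,
   ⟨1267300002, 3, 5, 1, 1, 5, [], []⟩, ⟨1664100001, 0, 0, 2, 1, 5, [], []⟩,
   ⟨1670500001, 0, 0, 4, 1, 5, [], []⟩, ⟨1676900002, 0, 0, 1, 1, 5, [], []⟩,
   ⟨2048100001, 0, 0, 1, 1, 5, [], []⟩, ⟨5324900001, 0, 0, 0, 1, 0, [], []⟩] = true := by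
  decide +kernel

lemma p1_A8 : p1L shT ⟨.A, 8, 28, 7, 8, 35⟩
  [⟨25700001, 0, 0, 1, 1, 5, [], []⟩, ⟨25800001, 0, 0, 2, 1, 5, [], []⟩,
   ⟨32100001, 0, 0, 2, 1, 5, [], []⟩, ⟨38500001, 0, 0, 2, 1, 5, [], []⟩,
   ⟨44900001, 0, 0, 3, 1, 5, [], []⟩, ⟨435300001, 0, 0, 1, 1, 5, [], []⟩,
   ⟨832200001, 0, 0, 1, 1, 5, [], []⟩, ⟨838500001, 0, 0, 1, 1, 5, [], []⟩,
   ⟨844900001, 0, 0, 2, 1, 5, [], []⟩, ⟨857700002, 0, 0, 2, 1, 5, [], []⟩,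
   ⟨864100002, 0, 0, 8, 4, 36, [16], [2]⟩, ⟨1254500001, 0, 0, 2, 1, 5, [], []⟩,
   ⟨1260900001, 0, 0, 3, 1, 5, [], []⟩, ⟨1267300002, 0, 0, 1, 1, 5, [], []⟩,
   ⟨1273700002, 0, 0, 3, 1, 5, [], []⟩, ⟨1664100001, 0, 0, 2, 1, 5, [], []⟩,
   ⟨1676900002, 0, 0, 1, 1, 5, [], []⟩, ⟨1683300002, 0, 0, 3, 1, 5, [], []⟩,
   ⟨2048100001, 0, 0, 1, 1, 5, [], []⟩] = true := by
  decide +kernel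

lemma p1_U60 : p1L shT ⟨.U6, 0, 36, 6, 18, 5⟩
  [⟨32200001, 5, 4, 1, 1, 5, [], []⟩, ⟨38600001, 5, 4, 2, 1, 5, [], []⟩,
   ⟨838600001, 4, 4, 1, 1, 5, [], []⟩, ⟨838700001, 9, 3, 2, 1, 5, [], []⟩,
   ⟨844900001, 0, 0, 1, 1, 5, [], []⟩, ⟨851300001, 5, 3, 2, 1, 5, [], []⟩,
   ⟨857700001, 5, 3, 0, 1, 5, [], []⟩, ⟨1254600001, 4, 4, 2, 1, 5, [], []⟩,
   ⟨1254700001, 9, 3, 0, 1, 5, [], []⟩, ⟨1267300001, 5, 4, 2, 1, 5, [], []⟩,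
   ⟨1670500001, 0, 0, 2, 1, 5, [], []⟩, ⟨1676900001, 5, 4, 2, 1, 5, [], []⟩,
   ⟨2048300001, 9, 3, 1, 1, 5, [], []⟩, ⟨2457700001, 0, 0, 2, 1, 5, [], []⟩] = true := by
  decide +kernel

lemma p1_A10 : p1L shT ⟨.A, 10, 45, 9, 10, 35⟩
  [⟨51300001, 0, 0, 2, 1, 5, [], []⟩, ⟨57700001, 0, 0, 3, 1, 5, [], []⟩,
   ⟨851300001, 0, 0, 1, 1, 5, [], []⟩, ⟨870500002, 0, 0, 1, 1, 5, [], []⟩,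
   ⟨876900002, 0, 0, 7, 4, 36, [20], [2]⟩, ⟨1267300001, 0, 0, 2, 1, 5, [], []⟩,
   ⟨1286500002, 0, 0, 2, 1, 5, [], []⟩, ⟨1696100002, 0, 0, 2, 1, 5, [], []⟩,
   ⟨3686500002, 0, 0, 1, 1, 5, [], []⟩] = true := by
  decide +kernel

lemma p1_D7 : p1L shT ⟨.D, 7, 42, 7, 12, 35⟩
  [⟨38600001, 0, 0, 2, 1, 5, [], []⟩, ⟨51300001, 0, 0, 2, 1, 5, [], []⟩,
   ⟨851300001, 0, 0, 1, 1, 5, [], []⟩, ⟨857700001, 0, 0, 3, 1, 5, [], []⟩,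
   ⟨870500002, 0, 0, 2, 1, 5, [], []⟩, ⟨1267300001, 0, 0, 2, 1, 5, [], []⟩,
   ⟨1676900001, 0, 0, 2, 1, 5, [], []⟩, ⟨2457700001, 0, 0, 1, 1, 5, [], []⟩] = true := by
  decide +kernel

lemma p1_A11 : p1L shT ⟨.A, 11, 55, 10, 11, 385⟩
  [⟨57700001, 0, 0, 1, 1, 5, [], []⟩, ⟨64100001, 0, 0, 2, 1, 5, [], []⟩,
   ⟨876900002, 0, 0, 1, 1, 5, [], []⟩, ⟨883300002, 0, 0, 6, 4, 36, [22], [2]⟩,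
   ⟨1292900002, 0, 0, 2, 1, 5, [], []⟩, ⟨1702500002, 0, 0, 2, 1, 5, [], []⟩] = true := by
  decide +kernel

lemma p1_D8 : p1L shT ⟨.D, 8, 56, 8, 14, 35⟩
  [⟨45000001, 0, 0, 1, 1, 5, [], []⟩, ⟨857700001, 0, 0, 1, 1, 5, [], []⟩,
   ⟨864100001, 0, 0, 3, 1, 5, [], []⟩, ⟨1273700001, 0, 0, 2, 1, 5, [], []⟩,
   ⟨1683300001, 0, 0, 2, 1, 5, [], []⟩] = true := by
  decide +kernel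

lemma p1_E60 : p1L shT ⟨.E6, 0, 36, 6, 12, 5⟩
  [⟨838600001, 4, 4, 1, 1, 5, [], []⟩, ⟨844900001, 0, 0, 1, 1, 5, [], []⟩,
   ⟨1254600001, 4, 4, 2, 1, 5, [], []⟩, ⟨1260900001, 0, 0, 2, 1, 5, [], []⟩,
   ⟨2457700001, 0, 0, 2, 1, 5, [], []⟩] = true := by
  decide +kernel

lemma p1_A15 : p1L shT ⟨.A, 15, 105, 14, 15, 5005⟩
  [⟨89700001, 0, 0, 2, 1, 5, [], []⟩, ⟨908900002, 0, 0, 6, 4, 36, [30], [2]⟩,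
   ⟨1318500002, 0, 0, 2, 1, 5, [], []⟩, ⟨1728100002, 0, 0, 2, 1, 5, [], []⟩] = true := by
  decide +kernel

lemma p1_A18 : p1L shT ⟨.A, 18, 153, 17, 18, 85085⟩
  [⟨108900001, 0, 0, 2, 1, 5, [], []⟩, ⟨928100002, 0, 0, 6, 4, 36, [36], [2]⟩,
   ⟨1337700002, 0, 0, 1, 1, 5, [], []⟩, ⟨1747300002, 0, 0, 1, 1, 5, [], []⟩] = true := by
  decide +kernel

lemma p1_U12 : p1L shT ⟨.U, 12, 66, 11, 22, 385⟩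
  [⟨480100001, 0, 0, 2, 1, 5, [], []⟩, ⟨864100001, 7, 3, 2, 1, 5, [], []⟩,
   ⟨1280100001, 7, 3, 2, 1, 5, [], []⟩, ⟨3686500001, 7, 3, 2, 1, 5, [], []⟩] = true := by
  decide +kernel

lemma p1_U13 : p1L shT ⟨.U, 13, 78, 12, 26, 5005⟩
  [⟨486500001, 0, 0, 2, 1, 5, [], []⟩, ⟨1280100001, 7, 3, 1, 1, 5, [], []⟩,
   ⟨3686500001, 7, 3, 2, 1, 5, [], []⟩] = true := by
  decide +kernel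

lemma p1_D10 : p1L shT ⟨.D, 10, 90, 10, 18, 35⟩
  [⟨876900001, 0, 0, 2, 1, 5, [], []⟩, ⟨1286500001, 0, 0, 1, 1, 5, [], []⟩,
   ⟨1696100001, 0, 0, 1, 1, 5, [], []⟩] = true := by
  decide +kernel

lemma p1_E16 : p1L shT ⟨.E, 16, 240, 16, 32, 5005⟩
  [⟨102600001, 16, 3, 0, 1, 5, [], []⟩, ⟨915300001, 0, 0, 2, 1, 5, [], []⟩,
   ⟨1331300001, 16, 3, 0, 1, 5, [], []⟩] = true := by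
  decide +kernel

lemma p1_A20 : p1L shT ⟨.A, 20, 190, 19, 20, 1616615⟩
  [⟨121700001, 0, 0, 1, 1, 5, [], []⟩, ⟨940900002, 0, 0, 6, 4, 36, [40], [2]⟩] = true := by
  decide +kernel

lemma p1_B12 : p1L shT ⟨.B, 12, 144, 12, 24, 385⟩
  [⟨1305700001, 0, 0, 2, 1, 5, [], []⟩, ⟨1715300001, 0, 0, 2, 1, 5, [], []⟩] = true := by
  decide +kernel

lemma p1_B15 : p1L shT ⟨.B, 15, 225, 15, 30, 5005⟩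
  [⟨1324900001, 0, 0, 2, 1, 5, [], []⟩, ⟨1734500001, 0, 0, 2, 1, 5, [], []⟩] = true := by
  decide +kernel

lemma p1_B18 : p1L shT ⟨.B, 18, 324, 18, 36, 85085⟩
  [⟨1344100001, 0, 0, 1, 1, 5, [], []⟩, ⟨1753700001, 0, 0, 1, 1, 5, [], []⟩] = true := by
  decide +kernel

lemma p1_E15 : p1L shT ⟨.E, 15, 210, 15, 30, 5005⟩
  [⟨96200001, 15, 3, 0, 1, 5, [], []⟩, ⟨908900001, 0, 0, 2, 1, 5, [], []⟩] = true := by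
  decide +kernel

lemma p1_E70 : p1L shT ⟨.E7, 0, 63, 7, 18, 35⟩
  [⟨864100001, 4, 4, 2, 1, 5, [], []⟩, ⟨1280100001, 4, 4, 2, 1, 5, [], []⟩] = true := by
  decide +kernel

lemma p1_A24 : p1L shT ⟨.A, 24, 276, 23, 24, 37182145⟩
  [⟨966500002, 0, 0, 6, 4, 36, [48], [2]⟩] = true := by
  decide +kernel

lemma p1_U16 : p1L shT ⟨.U, 16, 120, 15, 30, 5005⟩
  [⟨505700001, 0, 0, 2, 1, 5, [], []⟩] = true := by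
  decide +kernel

lemma p1_U19 : p1L shT ⟨.U, 19, 171, 18, 38, 1616615⟩
  [⟨524900001, 0, 0, 2, 1, 5, [], []⟩] = true := by
  decide +kernel

lemma p1_D12 : p1L shT ⟨.D, 12, 132, 12, 22, 385⟩
  [⟨889700001, 0, 0, 2, 1, 5, [], []⟩] = true := by
  decide +kernel

lemma p1_D15 : p1L shT ⟨.D, 15, 210, 15, 28, 5005⟩
  [⟨908900001, 0, 0, 2, 1, 5, [], []⟩] = true := by
  decide +kernel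

lemma p1_D18 : p1L shT ⟨.D, 18, 306, 18, 34, 85085⟩
  [⟨928100001, 0, 0, 1, 1, 5, [], []⟩] = true := by
  decide +kernel

lemma p1_E22 : p1L shT ⟨.E, 22, 462, 22, 44, 1616615⟩
  [⟨1369700001, 11, 3, 0, 1, 5, [], []⟩] = true := by
  decide +kernel

lemma p1_U22 : p1L shT ⟨.U, 22, 231, 21, 42, 1616615⟩
  [] = true := by
  decide +kernel

lemma p1_B19 : p1L shT ⟨.B, 19, 361, 19, 38, 1616615⟩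
  [] = true := by
  decide +kernel

lemma p1_B22 : p1L shT ⟨.B, 22, 484, 22, 44, 1616615⟩
  [] = true := by
  decide +kernel

lemma p1_D21 : p1L shT ⟨.D, 21, 420, 21, 40, 1616615⟩
  [] = true := by
  decide +kernel

lemma p1_D24 : p1L shT ⟨.D, 24, 552, 24, 46, 37182145⟩
  [] = true := by
  decide +kernel

lemma p1_E80 : p1L shT ⟨.E8, 0, 120, 8, 30, 35⟩
  [] = true := by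
  decide +kernel

end Pool.Agent.Lib.MP_343319_al
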