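import Pool.Agent.Lib.MP_343319_al.P1b

namespace Pool.Agent.Lib.MP_343319_al

lemma p1_B2 : p1L shT ⟨.B, 2, 4, 2, 4, 1⟩
  [⟨12900001, 0, 0, 8, 3, 7, [], []⟩, ⟨12900002, 0, 0, 4, 2, 5, [], []⟩,
   ⟨12900003, 0, 0, 3, 1, 5, [], []⟩, ⟨12900004, 0, 0, 2, 1, 5, [], []⟩,
   ⟨12900005, 0, 0, 2, 1, 5, [], []⟩, ⟨12900006, 0, 0, 2, 1, 5, [], []⟩,
   ⟨12900007, 0, 0, 2, 1, 5, [], []⟩, ⟨12900008, 0, 0, 1, 1, 5, [], []⟩,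
   ⟨12900009, 0, 0, 1, 1, 5, [], []⟩, ⟨13000001, 0, 0, 8, 3, 10, [], []⟩,
   ⟨13000003, 0, 0, 3, 1, 5, [], []⟩, ⟨13000005, 0, 0, 2, 1, 5, [], []⟩,
   ⟨13000007, 0, 0, 2, 1, 5, [], []⟩, ⟨13000009, 0, 0, 1, 1, 5, [], []⟩,
   ⟨13100001, 3, 4, 2, 2, 5, [], []⟩, ⟨13100002, 3, 4, 2, 2, 5, [], []⟩,
   ⟨13100004, 3, 4, 2, 1, 5, [], []⟩, ⟨13100005, 3, 4, 2, 1, 5, [], []⟩,
   ⟨13100007, 3, 4, 2, 1, 5, [], []⟩, ⟨13100008, 3, 4, 1, 1, 5, [], []⟩,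
   ⟨19300003, 0, 0, 3, 1, 5, [], []⟩, ⟨19300006, 0, 0, 2, 1, 5, [], []⟩,
   ⟨19300009, 0, 0, 1, 1, 5, [], []⟩, ⟨19400003, 0, 0, 4, 2, 5, [], []⟩,
   ⟨19400005, 3, 4, 2, 1, 5, [], []⟩, ⟨19400007, 3, 4, 2, 1, 5, [], []⟩,
   ⟨19400009, 0, 0, 1, 1, 5, [], []⟩, ⟨25700003, 1, 26, 5, 2, 5, [], []⟩,
   ⟨25700006, 0, 0, 2, 1, 5, [], []⟩, ⟨25700009, 0, 0, 2, 1, 5, [], []⟩,
   ⟨428900001, 6, 6, 3, 2, 6, [], []⟩, ⟨428900002, 6, 6, 3, 2, 5, [], []⟩,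
   ⟨428900003, 0, 0, 3, 1, 5, [], []⟩, ⟨428900004, 6, 6, 3, 1, 5, [], []⟩,
   ⟨428900005, 0, 0, 2, 1, 5, [], []⟩, ⟨428900006, 0, 0, 2, 1, 5, [], []⟩,
   ⟨428900007, 0, 0, 2, 1, 5, [], []⟩, ⟨428900008, 0, 0, 1, 1, 5, [], []⟩,
   ⟨428900009, 0, 0, 1, 1, 5, [], []⟩, ⟨429000003, 4, 5, 3, 2, 5, [], []⟩,
   ⟨429000009, 0, 0, 1, 1, 5, [], []⟩, ⟨435300002, 6, 6, 3, 2, 6, [], []⟩,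
   ⟨435300003, 2, 24, 5, 2, 5, [], []⟩, ⟨435300004, 6, 6, 3, 1, 5, [], []⟩,
   ⟨435300005, 6, 6, 3, 1, 5, [], []⟩, ⟨435300006, 0, 0, 2, 1, 5, [], []⟩,
   ⟨435300007, 0, 0, 2, 1, 5, [], []⟩, ⟨435300008, 0, 0, 2, 1, 5, [], []⟩,
   ⟨435300009, 0, 0, 2, 1, 5, [], []⟩, ⟨435300010, 0, 0, 1, 1, 5, [], []⟩,
   ⟨441700005, 6, 7, 3, 2, 5, [], []⟩, ⟨441700010, 0, 0, 2, 1, 5, [], []⟩,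
   ⟨448100005, 6, 5, 3, 2, 5, [], []⟩, ⟨448100010, 6, 5, 2, 1, 5, [], []⟩,
   ⟨832100002, 0, 0, 8, 3, 5, [], []⟩, ⟨832100003, 0, 0, 4, 2, 5, [], []⟩,
   ⟨832100004, 0, 0, 3, 1, 5, [], []⟩, ⟨832100005, 0, 0, 2, 1, 5, [], []⟩,
   ⟨832100006, 0, 0, 2, 1, 5, [], []⟩, ⟨832100007, 0, 0, 2, 1, 5, [], []⟩,
   ⟨832100008, 0, 0, 2, 1, 5, [], []⟩, ⟨832100009, 0, 0, 1, 1, 5, [], []⟩,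
   ⟨832100010, 0, 0, 1, 1, 5, [], []⟩, ⟨838500003, 2, 12, 4, 3, 12, [], []⟩,
   ⟨838500004, 3, 4, 2, 2, 5, [], []⟩, ⟨838500005, 3, 4, 2, 2, 5, [], []⟩,
   ⟨838500006, 0, 0, 3, 1, 5, [], []⟩, ⟨838500007, 3, 4, 2, 1, 5, [], []⟩,
   ⟨838500008, 3, 4, 2, 1, 5, [], []⟩, ⟨838500009, 0, 0, 2, 1, 5, [], []⟩,
   ⟨838500010, 3, 4, 2, 1, 5, [], []⟩, ⟨838500011, 3, 4, 1, 1, 5, [], []⟩,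
   ⟨838500012, 0, 0, 1, 1, 5, [], []⟩, ⟨844900004, 1, 4, 0, 2, 5, [], []⟩,
   ⟨844900006, 2, 4, 2, 2, 5, [], []⟩, ⟨844900008, 3, 4, 2, 1, 5, [], []⟩,
   ⟨844900010, 3, 4, 2, 1, 5, [], []⟩, ⟨844900012, 0, 0, 2, 1, 5, [], []⟩,
   ⟨844900014, 3, 4, 1, 1, 5, [], []⟩, ⟨851300010, 2, 4, 2, 2, 5, [], []⟩,
   ⟨1254500003, 2, 6, 0, 2, 6, [], []⟩, ⟨1254500004, 3, 5, 3, 2, 5, [], []⟩,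
   ⟨1254500005, 3, 5, 3, 2, 5, [], []⟩, ⟨1254500006, 1, 8, 3, 1, 5, [], []⟩,
   ⟨1254500007, 3, 5, 3, 1, 5, [], []⟩, ⟨1254500008, 3, 5, 2, 1, 5, [], []⟩,
   ⟨1254500009, 0, 0, 2, 1, 5, [], []⟩, ⟨1254500010, 3, 5, 2, 1, 5, [], []⟩,
   ⟨1254500011, 3, 5, 2, 1, 5, [], []⟩, ⟨1254500012, 0, 0, 1, 1, 5, [], []⟩,
   ⟨1254500013, 3, 5, 1, 1, 5, [], []⟩, ⟨1260900010, 3, 5, 3, 1, 5, [], []⟩,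
   ⟨1267300010, 2, 4, 2, 2, 5, [], []⟩, ⟨1267300020, 3, 4, 1, 1, 5, [], []⟩,
   ⟨1664100004, 3, 5, 3, 2, 5, [], []⟩, ⟨1664100006, 0, 0, 4, 1, 5, [], []⟩,
   ⟨1664100008, 3, 5, 2, 1, 5, [], []⟩, ⟨1664100010, 3, 5, 2, 1, 5, [], []⟩,
   ⟨1664100012, 0, 0, 1, 1, 5, [], []⟩, ⟨1670500010, 2, 5, 3, 1, 5, [], []⟩,
   ⟨2048100002, 3, 3, 2, 1, 5, [], []⟩, ⟨2048100003, 0, 0, 7, 2, 5, [], []⟩,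
   ⟨2048100004, 3, 3, 2, 1, 5, [], []⟩, ⟨2048100005, 3, 3, 2, 1, 5, [], []⟩,
   ⟨2048100006, 0, 0, 2, 1, 5, [], []⟩, ⟨2048100007, 3, 3, 2, 1, 5, [], []⟩,
   ⟨2048100008, 3, 3, 2, 1, 5, [], []⟩, ⟨2048100009, 0, 0, 1, 1, 5, [], []⟩,
   ⟨2048100010, 3, 3, 1, 1, 5, [], []⟩, ⟨2048100011, 3, 3, 1, 1, 5, [], []⟩,
   ⟨2048200003, 4, 3, 0, 1, 5, [], []⟩, ⟨2048200009, 4, 5, 2, 1, 5, [], []⟩,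
   ⟨2457700006, 2, 2, 0, 1, 5, [], []⟩, ⟨2457700012, 1, 4, 2, 1, 5, [], []⟩,
   ⟨2457700018, 0, 0, 1, 1, 5, [], []⟩, ⟨4505700006, 0, 0, 4, 1, 5, [], []⟩,
   ⟨4505700009, 0, 0, 2, 1, 5, [], []⟩, ⟨4505700012, 0, 0, 1, 1, 5, [], []⟩,
   ⟨4915300001, 0, 0, 14, 0, 0, [], []⟩, ⟨4915300002, 0, 0, 5, 0, 0, [], []⟩,
   ⟨4915300003, 0, 0, 3, 0, 0, [], []⟩, ⟨4915300004, 0, 0, 2, 0, 0, [], []⟩,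
   ⟨4915300005, 0, 0, 2, 0, 0, [], []⟩, ⟨4915300006, 0, 0, 2, 0, 0, [], []⟩,
   ⟨4915300007, 0, 0, 2, 0, 0, [], []⟩, ⟨4915300008, 0, 0, 1, 0, 0, [], []⟩,
   ⟨4915300009, 0, 0, 1, 0, 0, [], []⟩, ⟨5324900001, 6, 4, 0, 2, 0, [], []⟩,
   ⟨5324900002, 6, 4, 0, 2, 0, [], []⟩, ⟨5324900003, 0, 0, 0, 1, 0, [], []⟩,
   ⟨5324900004, 0, 0, 0, 1, 0, [], []⟩, ⟨5324900005, 0, 0, 0, 1, 0, [], []⟩,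
   ⟨5324900006, 0, 0, 0, 1, 0, [], []⟩, ⟨5324900007, 0, 0, 0, 1, 0, [], []⟩,
   ⟨5324900008, 0, 0, 0, 1, 0, [], []⟩, ⟨5324900009, 0, 0, 0, 1, 0, [], []⟩,
   ⟨5324900010, 0, 0, 0, 1, 0, [], []⟩, ⟨5734500003, 0, 0, 0, 0, 0, [], []⟩,
   ⟨5734500006, 0, 0, 4, 0, 0, [], []⟩, ⟨5734500009, 0, 0, 2, 0, 0, [], []⟩,
   ⟨5734500012, 0, 0, 1, 0, 0, [], []⟩] = true := by
  decide +kernel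

lemma p1_Sz0 : p1L shT ⟨.Sz, 0, 2, 1, 4, 1⟩
  [⟨12900001, 2, 8, 3, 0, 0, [], []⟩, ⟨12900003, 2, 8, 3, 0, 0, [], []⟩,
   ⟨12900005, 2, 8, 3, 0, 0, [], []⟩, ⟨12900007, 2, 8, 3, 0, 0, [], []⟩,
   ⟨12900009, 0, 0, 2, 0, 0, [], []⟩, ⟨12900011, 0, 0, 2, 0, 0, [], []⟩,
   ⟨12900013, 0, 0, 2, 0, 0, [], []⟩, ⟨12900015, 0, 0, 1, 0, 0, [], []⟩,
   ⟨12900017, 0, 0, 1, 0, 0, [], []⟩, ⟨13000001, 0, 0, 0, 0, 0, [], []⟩,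
   ⟨13000003, 2, 4, 2, 0, 0, [], []⟩, ⟨13000005, 2, 4, 2, 0, 0, [], []⟩,
   ⟨13000007, 2, 4, 2, 0, 0, [], []⟩, ⟨13000009, 2, 4, 2, 0, 0, [], []⟩,
   ⟨13000011, 2, 4, 2, 0, 0, [], []⟩, ⟨13000013, 2, 4, 2, 0, 0, [], []⟩,
   ⟨13000015, 0, 0, 1, 0, 0, [], []⟩, ⟨13000017, 0, 0, 1, 0, 0, [], []⟩,
   ⟨13100005, 3, 4, 2, 0, 0, [], []⟩, ⟨13100007, 3, 4, 2, 0, 0, [], []⟩,
   ⟨13100011, 3, 4, 2, 0, 0, [], []⟩, ⟨13100013, 3, 4, 2, 0, 0, [], []⟩,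
   ⟨13100017, 0, 0, 1, 0, 0, [], []⟩, ⟨19300003, 1, 8, 3, 0, 0, [], []⟩,
   ⟨19300009, 0, 0, 2, 0, 0, [], []⟩, ⟨19300015, 0, 0, 2, 0, 0, [], []⟩,
   ⟨19400003, 0, 0, 0, 0, 0, [], []⟩, ⟨19400005, 2, 3, 2, 0, 0, [], []⟩,
   ⟨19400007, 2, 3, 2, 0, 0, [], []⟩, ⟨19400009, 2, 3, 2, 0, 0, [], []⟩,
   ⟨19400011, 2, 3, 2, 0, 0, [], []⟩, ⟨19400013, 2, 3, 2, 0, 0, [], []⟩,
   ⟨19400015, 2, 3, 2, 0, 0, [], []⟩, ⟨19400017, 0, 0, 1, 0, 0, [], []⟩,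
   ⟨19400019, 0, 0, 1, 0, 0, [], []⟩, ⟨25700003, 0, 0, 0, 0, 0, [], []⟩,
   ⟨25700009, 2, 4, 2, 0, 0, [], []⟩, ⟨25700015, 2, 4, 2, 0, 0, [], []⟩,
   ⟨25700021, 0, 0, 1, 0, 0, [], []⟩, ⟨32100015, 2, 4, 2, 0, 0, [], []⟩,
   ⟨38500015, 2, 3, 2, 0, 0, [], []⟩, ⟨428900003, 2, 4, 2, 0, 0, [], []⟩,
   ⟨428900005, 2, 4, 2, 0, 0, [], []⟩, ⟨428900007, 2, 4, 2, 0, 0, [], []⟩,
   ⟨428900009, 2, 4, 2, 0, 0, [], []⟩, ⟨428900011, 2, 4, 2, 0, 0, [], []⟩,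
   ⟨428900013, 2, 4, 2, 0, 0, [], []⟩, ⟨428900015, 2, 4, 2, 0, 0, [], []⟩,
   ⟨428900017, 0, 0, 1, 0, 0, [], []⟩, ⟨428900019, 0, 0, 1, 0, 0, [], []⟩,
   ⟨429000003, 0, 0, 0, 0, 0, [], []⟩, ⟨429000009, 2, 6, 3, 0, 0, [], []⟩,
   ⟨429000015, 0, 0, 2, 0, 0, [], []⟩, ⟨435300003, 0, 0, 0, 0, 0, [], []⟩,
   ⟨435300005, 2, 3, 2, 0, 0, [], []⟩, ⟨435300007, 2, 3, 2, 0, 0, [], []⟩,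
   ⟨435300009, 2, 3, 2, 0, 0, [], []⟩, ⟨435300011, 2, 3, 2, 0, 0, [], []⟩,
   ⟨435300013, 2, 3, 2, 0, 0, [], []⟩, ⟨435300015, 2, 3, 2, 0, 0, [], []⟩,
   ⟨435300017, 2, 3, 2, 0, 0, [], []⟩, ⟨435300019, 0, 0, 1, 0, 0, [], []⟩,
   ⟨435300021, 0, 0, 1, 0, 0, [], []⟩, ⟨832100003, 2, 2, 1, 0, 0, [], []⟩,
   ⟨832100005, 2, 2, 1, 0, 0, [], []⟩, ⟨832100007, 2, 2, 1, 0, 0, [], []⟩,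
   ⟨832100009, 2, 2, 1, 0, 0, [], []⟩, ⟨832100011, 2, 2, 1, 0, 0, [], []⟩,
   ⟨832100013, 2, 2, 1, 0, 0, [], []⟩, ⟨832100015, 2, 2, 1, 0, 0, [], []⟩,
   ⟨832100017, 2, 2, 1, 0, 0, [], []⟩, ⟨832100019, 2, 2, 1, 0, 0, [], []⟩,
   ⟨838500005, 2, 2, 1, 0, 0, [], []⟩, ⟨838500007, 2, 2, 1, 0, 0, [], []⟩,
   ⟨838500009, 2, 2, 1, 0, 0, [], []⟩, ⟨838500011, 2, 2, 1, 0, 0, [], []⟩,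
   ⟨838500013, 2, 2, 1, 0, 0, [], []⟩, ⟨838500015, 2, 2, 1, 0, 0, [], []⟩,
   ⟨838500017, 2, 2, 1, 0, 0, [], []⟩, ⟨838500019, 2, 2, 1, 0, 0, [], []⟩,
   ⟨838500021, 2, 2, 1, 0, 0, [], []⟩, ⟨838500023, 2, 2, 1, 0, 0, [], []⟩,
   ⟨1254500007, 2, 2, 1, 0, 0, [], []⟩, ⟨1254500009, 2, 2, 1, 0, 0, [], []⟩,
   ⟨1254500011, 2, 2, 1, 0, 0, [], []⟩, ⟨1254500013, 2, 2, 1, 0, 0, [], []⟩,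
   ⟨1254500015, 2, 2, 1, 0, 0, [], []⟩, ⟨1254500017, 2, 2, 1, 0, 0, [], []⟩,
   ⟨1254500019, 2, 2, 1, 0, 0, [], []⟩, ⟨1254500021, 2, 2, 1, 0, 0, [], []⟩,
   ⟨1254500023, 2, 2, 1, 0, 0, [], []⟩, ⟨1254500025, 2, 2, 1, 0, 0, [], []⟩,
   ⟨2048100003, 0, 0, 0, 0, 0, [], []⟩, ⟨2048100005, 2, 2, 1, 0, 0, [], []⟩,
   ⟨2048100007, 2, 2, 1, 0, 0, [], []⟩, ⟨2048100009, 2, 2, 1, 0, 0, [], []⟩,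
   ⟨2048100011, 2, 2, 1, 0, 0, [], []⟩, ⟨2048100013, 2, 2, 1, 0, 0, [], []⟩,
   ⟨2048100015, 2, 2, 1, 0, 0, [], []⟩, ⟨2048100017, 2, 2, 1, 0, 0, [], []⟩,
   ⟨2048100019, 2, 2, 1, 0, 0, [], []⟩, ⟨2048100021, 2, 2, 1, 0, 0, [], []⟩,
   ⟨2048200009, 2, 2, 1, 0, 0, [], []⟩, ⟨2048200015, 2, 2, 1, 0, 0, [], []⟩,
   ⟨2048200021, 2, 2, 1, 0, 0, [], []⟩, ⟨4505700009, 2, 2, 1, 0, 0, [], []⟩,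
   ⟨4505700015, 2, 2, 1, 0, 0, [], []⟩, ⟨4505700021, 2, 2, 1, 0, 0, [], []⟩,
   ⟨4915300003, 0, 0, 7, 0, 0, [], []⟩, ⟨4915300005, 0, 0, 4, 0, 0, [], []⟩,
   ⟨4915300007, 0, 0, 3, 0, 0, [], []⟩, ⟨4915300009, 0, 0, 2, 0, 0, [], []⟩,
   ⟨4915300011, 0, 0, 2, 0, 0, [], []⟩, ⟨4915300013, 0, 0, 2, 0, 0, [], []⟩,
   ⟨4915300015, 0, 0, 1, 0, 0, [], []⟩, ⟨4915300017, 0, 0, 1, 0, 0, [], []⟩,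
   ⟨4915300019, 0, 0, 1, 0, 0, [], []⟩, ⟨5324900003, 0, 0, 0, 0, 0, [], []⟩,
   ⟨5324900005, 0, 0, 0, 0, 0, [], []⟩, ⟨5324900007, 0, 0, 0, 0, 0, [], []⟩,
   ⟨5324900009, 0, 0, 0, 0, 0, [], []⟩, ⟨5324900011, 0, 0, 0, 0, 0, [], []⟩,
   ⟨5324900013, 0, 0, 0, 0, 0, [], []⟩, ⟨5324900015, 0, 0, 0, 0, 0, [], []⟩,
   ⟨5324900017, 0, 0, 0, 0, 0, [], []⟩, ⟨5324900019, 0, 0, 0, 0, 0, [], []⟩,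
   ⟨5734500009, 2, 2, 1, 0, 0, [], []⟩, ⟨5734500015, 2, 2, 1, 0, 0, [], []⟩,
   ⟨5734500021, 2, 2, 1, 0, 0, [], []⟩, ⟨5734500027, 2, 2, 1, 0, 0, [], []⟩] = true := by
  decide +kernel

lemma p1_A5 : p1L shT ⟨.A, 5, 10, 4, 5, 5⟩
  [⟨12900001, 0, 0, 3, 1, 5, [], []⟩, ⟨12900002, 0, 0, 2, 1, 5, [], []⟩,
   ⟨12900003, 0, 0, 1, 1, 5, [], []⟩, ⟨13000001, 0, 0, 3, 1, 5, [], []⟩,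
   ⟨13000003, 0, 0, 1, 1, 5, [], []⟩, ⟨13100001, 6, 5, 3, 1, 5, [], []⟩,
   ⟨13100002, 0, 0, 2, 1, 5, [], []⟩, ⟨13300002, 0, 0, 2, 1, 5, [], []⟩,
   ⟨19300001, 0, 0, 3, 1, 5, [], []⟩, ⟨19300002, 0, 0, 2, 1, 5, [], []⟩,
   ⟨19300003, 0, 0, 1, 1, 5, [], []⟩, ⟨19400001, 6, 6, 3, 2, 5, [], []⟩,
   ⟨19400003, 0, 0, 1, 1, 5, [], []⟩, ⟨25700001, 0, 0, 6, 2, 5, [], []⟩,
   ⟨25700002, 0, 0, 2, 1, 5, [], []⟩, ⟨25700003, 0, 0, 2, 1, 5, [], []⟩,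
   ⟨32100002, 0, 0, 3, 1, 5, [], []⟩, ⟨32100003, 0, 0, 2, 1, 5, [], []⟩,
   ⟨32100004, 0, 0, 1, 1, 5, [], []⟩, ⟨38500002, 3, 6, 3, 2, 6, [], []⟩,
   ⟨38500003, 0, 0, 2, 1, 5, [], []⟩, ⟨38500004, 0, 0, 2, 1, 5, [], []⟩,
   ⟨428900001, 6, 6, 3, 1, 5, [], []⟩, ⟨428900002, 0, 0, 2, 1, 5, [], []⟩,
   ⟨428900003, 0, 0, 1, 1, 5, [], []⟩, ⟨429000003, 4, 5, 1, 1, 5, [], []⟩,
   ⟨435300001, 6, 6, 3, 2, 5, [], []⟩, ⟨435300002, 0, 0, 2, 1, 5, [], []⟩,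
   ⟨435300003, 0, 0, 2, 1, 5, [], []⟩, ⟨441700002, 0, 0, 3, 1, 5, [], []⟩,
   ⟨441700004, 0, 0, 1, 1, 5, [], []⟩, ⟨448100002, 6, 7, 3, 2, 7, [], []⟩,
   ⟨448100004, 0, 0, 2, 1, 5, [], []⟩, ⟨832100001, 0, 0, 4, 2, 5, [], []⟩,
   ⟨832100002, 0, 0, 2, 1, 5, [], []⟩, ⟨832100003, 0, 0, 1, 1, 5, [], []⟩,
   ⟨832300004, 3, 4, 1, 1, 5, [], []⟩, ⟨832500004, 5, 3, 2, 1, 5, [], []⟩,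
   ⟨838500001, 6, 5, 3, 2, 5, [], []⟩, ⟨838500002, 0, 0, 3, 1, 5, [], []⟩,
   ⟨838500003, 0, 0, 2, 1, 5, [], []⟩, ⟨838500004, 0, 0, 1, 1, 5, [], []⟩,
   ⟨844900002, 0, 0, 14, 4, 36, [10], [2]⟩, ⟨844900004, 0, 0, 2, 1, 5, [], []⟩,
   ⟨851300004, 0, 0, 3, 1, 5, [], []⟩, ⟨851300006, 0, 0, 1, 1, 5, [], []⟩,
   ⟨857700004, 3, 4, 2, 2, 5, [], []⟩, ⟨857700006, 0, 0, 2, 1, 5, [], []⟩,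
   ⟨857700008, 3, 4, 1, 1, 5, [], []⟩, ⟨1254500002, 0, 0, 4, 2, 5, [], []⟩,
   ⟨1254500003, 0, 0, 2, 1, 5, [], []⟩, ⟨1254500004, 0, 0, 1, 1, 5, [], []⟩,
   ⟨1260900004, 0, 0, 2, 1, 5, [], []⟩, ⟨1267300004, 3, 5, 3, 2, 5, [], []⟩,
   ⟨1267300006, 0, 0, 2, 1, 5, [], []⟩, ⟨1664100002, 0, 0, 4, 2, 5, [], []⟩,
   ⟨1664100004, 0, 0, 1, 1, 5, [], []⟩, ⟨1670500004, 0, 0, 2, 1, 5, [], []⟩,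
   ⟨1676900004, 1, 34, 6, 4, 34, [], []⟩, ⟨1676900006, 0, 0, 2, 1, 5, [], []⟩,
   ⟨2048100001, 6, 4, 2, 2, 5, [], []⟩, ⟨2048100002, 0, 0, 2, 1, 5, [], []⟩,
   ⟨2048100003, 0, 0, 1, 1, 5, [], []⟩, ⟨2048200003, 4, 3, 2, 1, 5, [], []⟩,
   ⟨2048500006, 5, 3, 1, 1, 5, [], []⟩, ⟨2457700004, 3, 3, 2, 1, 5, [], []⟩,
   ⟨2457700006, 0, 0, 1, 1, 5, [], []⟩, ⟨2867300006, 0, 0, 2, 1, 5, [], []⟩,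
   ⟨3276900006, 0, 0, 2, 1, 5, [], []⟩, ⟨4505700003, 0, 0, 2, 1, 5, [], []⟩,
   ⟨4505700004, 3, 3, 1, 1, 5, [], []⟩, ⟨4915300001, 0, 0, 3, 0, 0, [], []⟩,
   ⟨4915300002, 0, 0, 2, 0, 0, [], []⟩, ⟨4915300003, 0, 0, 1, 0, 0, [], []⟩,
   ⟨5324900001, 0, 0, 0, 1, 0, [], []⟩, ⟨5324900002, 0, 0, 0, 1, 0, [], []⟩,
   ⟨5324900003, 0, 0, 0, 1, 0, [], []⟩, ⟨5734500003, 4, 3, 2, 0, 0, [], []⟩,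
   ⟨5734500004, 0, 0, 1, 0, 0, [], []⟩] = true := by
  decide +kernel

lemma p1_E4 : p1L shT ⟨.E, 4, 12, 4, 8, 1⟩
  [⟨12900001, 0, 0, 2, 1, 5, [], []⟩, ⟨12900002, 0, 0, 1, 1, 5, [], []⟩,
   ⟨13000001, 0, 0, 2, 1, 5, [], []⟩, ⟨13100001, 0, 0, 2, 1, 5, [], []⟩,
   ⟨13100002, 0, 0, 1, 1, 5, [], []⟩, ⟨13200001, 0, 0, 2, 1, 5, [], []⟩,
   ⟨19300001, 0, 0, 3, 1, 5, [], []⟩, ⟨19300002, 0, 0, 1, 1, 5, [], []⟩,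
   ⟨19400001, 0, 0, 3, 1, 5, [], []⟩, ⟨25700001, 0, 0, 4, 1, 5, [], []⟩,
   ⟨25700002, 0, 0, 2, 1, 5, [], []⟩, ⟨25800001, 4, 5, 0, 2, 5, [], []⟩,
   ⟨25800003, 0, 0, 1, 1, 5, [], []⟩, ⟨428900001, 0, 0, 3, 1, 5, [], []⟩,
   ⟨428900002, 0, 0, 1, 1, 5, [], []⟩, ⟨435300001, 0, 0, 4, 1, 5, [], []⟩,
   ⟨435300002, 0, 0, 2, 1, 5, [], []⟩, ⟨435400003, 4, 4, 1, 1, 5, [], []⟩,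
   ⟨832100001, 0, 0, 3, 1, 5, [], []⟩, ⟨832100002, 0, 0, 2, 1, 5, [], []⟩,
   ⟨832200001, 4, 4, 2, 2, 5, [], []⟩, ⟨832300002, 3, 4, 2, 1, 5, [], []⟩,
   ⟨838500001, 0, 0, 8, 3, 7, [], []⟩, ⟨838500002, 0, 0, 2, 1, 5, [], []⟩,
   ⟨838500003, 0, 0, 1, 1, 5, [], []⟩, ⟨838600003, 4, 4, 2, 1, 5, [], []⟩,
   ⟨844900002, 1, 10, 4, 2, 5, [], []⟩, ⟨844900003, 0, 0, 2, 1, 5, [], []⟩,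
   ⟨1254500001, 4, 7, 0, 2, 7, [], []⟩, ⟨1254500002, 0, 0, 2, 1, 5, [], []⟩,
   ⟨1254500003, 0, 0, 1, 1, 5, [], []⟩, ⟨1254600003, 4, 4, 2, 1, 5, [], []⟩,
   ⟨1267300005, 0, 0, 1, 1, 5, [], []⟩, ⟨1664100002, 0, 0, 2, 1, 5, [], []⟩,
   ⟨1664100003, 0, 0, 1, 1, 5, [], []⟩, ⟨2048100001, 0, 0, 4, 1, 5, [], []⟩,
   ⟨2048100002, 0, 0, 2, 1, 5, [], []⟩, ⟨2048200003, 4, 4, 1, 1, 5, [], []⟩,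
   ⟨2048400003, 4, 3, 2, 1, 5, [], []⟩, ⟨2457700002, 3, 3, 0, 1, 5, [], []⟩,
   ⟨2457700003, 4, 3, 2, 1, 5, [], []⟩, ⟨2457700004, 3, 3, 2, 1, 5, [], []⟩,
   ⟨4505700002, 3, 3, 2, 1, 5, [], []⟩, ⟨4505700003, 0, 0, 1, 1, 5, [], []⟩,
   ⟨4505800003, 12, 3, 2, 1, 5, [], []⟩, ⟨4915300001, 0, 0, 2, 0, 0, [], []⟩,
   ⟨4915300002, 0, 0, 1, 0, 0, [], []⟩, ⟨4915500002, 0, 0, 2, 0, 0, [], []⟩,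
   ⟨5324900001, 0, 0, 0, 1, 0, [], []⟩, ⟨5324900002, 0, 0, 0, 1, 0, [], []⟩,
   ⟨5734500002, 0, 0, 3, 0, 0, [], []⟩, ⟨5734500003, 0, 0, 1, 0, 0, [], []⟩] = true := by
  decide +kernel

lemma p1_D4 : p1L shT ⟨.D, 4, 12, 4, 6, 1⟩
  [⟨12900001, 0, 0, 2, 1, 5, [], []⟩, ⟨12900002, 0, 0, 1, 1, 5, [], []⟩,
   ⟨13000001, 0, 0, 2, 1, 5, [], []⟩, ⟨13100001, 0, 0, 2, 1, 5, [], []⟩,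
   ⟨13100002, 0, 0, 1, 1, 5, [], []⟩, ⟨19300001, 0, 0, 3, 1, 5, [], []⟩,
   ⟨19300002, 0, 0, 1, 1, 5, [], []⟩, ⟨19400001, 0, 0, 3, 1, 5, [], []⟩,
   ⟨25700001, 0, 0, 4, 1, 5, [], []⟩, ⟨25700002, 0, 0, 2, 1, 5, [], []⟩,
   ⟨428900001, 0, 0, 3, 1, 5, [], []⟩, ⟨428900002, 0, 0, 1, 1, 5, [], []⟩,
   ⟨435300001, 0, 0, 4, 1, 5, [], []⟩, ⟨435300002, 0, 0, 2, 1, 5, [], []⟩,
   ⟨832100001, 0, 0, 3, 1, 5, [], []⟩, ⟨832100002, 0, 0, 2, 1, 5, [], []⟩,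
   ⟨832300002, 3, 4, 2, 1, 5, [], []⟩, ⟨838500001, 0, 0, 8, 3, 7, [], []⟩,
   ⟨838500002, 0, 0, 2, 1, 5, [], []⟩, ⟨838500003, 0, 0, 1, 1, 5, [], []⟩,
   ⟨844900002, 0, 0, 4, 2, 5, [], []⟩, ⟨1254500002, 0, 0, 2, 1, 5, [], []⟩,
   ⟨1254500003, 0, 0, 1, 1, 5, [], []⟩, ⟨1664100002, 0, 0, 2, 1, 5, [], []⟩,
   ⟨2048100001, 0, 0, 4, 1, 5, [], []⟩, ⟨2048100002, 0, 0, 2, 1, 5, [], []⟩,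
   ⟨2048200003, 0, 0, 1, 1, 5, [], []⟩, ⟨2457700002, 3, 3, 0, 1, 5, [], []⟩,
   ⟨2457700004, 3, 3, 2, 1, 5, [], []⟩, ⟨4505700002, 3, 3, 2, 1, 5, [], []⟩,
   ⟨4505700003, 0, 0, 1, 1, 5, [], []⟩, ⟨4915300001, 0, 0, 2, 0, 0, [], []⟩,
   ⟨4915300002, 0, 0, 1, 0, 0, [], []⟩, ⟨4915500002, 0, 0, 2, 0, 0, [], []⟩,
   ⟨5324900001, 0, 0, 0, 1, 0, [], []⟩, ⟨5324900002, 0, 0, 0, 1, 0, [], []⟩,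
   ⟨5734500002, 0, 0, 3, 0, 0, [], []⟩, ⟨5734500003, 0, 0, 1, 0, 0, [], []⟩] = true := by
  decide +kernel

lemma p1_D5 : p1L shT ⟨.D, 5, 20, 5, 8, 5⟩
  [⟨12900001, 0, 0, 1, 1, 5, [], []⟩, ⟨13000001, 0, 0, 1, 1, 5, [], []⟩,
   ⟨13100001, 0, 0, 1, 1, 5, [], []⟩, ⟨13200001, 0, 0, 1, 1, 5, [], []⟩,
   ⟨19300001, 0, 0, 2, 1, 5, [], []⟩, ⟨19400001, 0, 0, 2, 1, 5, [], []⟩,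
   ⟨25700001, 0, 0, 2, 1, 5, [], []⟩, ⟨25800001, 0, 0, 2, 1, 5, [], []⟩,
   ⟨32100001, 0, 0, 2, 1, 5, [], []⟩, ⟨38500001, 3, 6, 3, 2, 5, [], []⟩,
   ⟨428900001, 0, 0, 2, 1, 5, [], []⟩, ⟨435300001, 0, 0, 2, 1, 5, [], []⟩,
   ⟨832100001, 0, 0, 2, 1, 5, [], []⟩, ⟨832200001, 0, 0, 2, 1, 5, [], []⟩,
   ⟨838500001, 0, 0, 2, 1, 5, [], []⟩, ⟨844900001, 0, 0, 5, 2, 5, [], []⟩,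
   ⟨844900002, 0, 0, 1, 1, 5, [], []⟩, ⟨851300002, 0, 0, 2, 1, 5, [], []⟩,
   ⟨857700002, 3, 4, 2, 2, 5, [], []⟩, ⟨1254500001, 0, 0, 3, 1, 5, [], []⟩,
   ⟨1260900002, 0, 0, 2, 1, 5, [], []⟩, ⟨1267300002, 3, 5, 3, 1, 5, [], []⟩,
   ⟨1664100001, 0, 0, 3, 1, 5, [], []⟩, ⟨1670500002, 0, 0, 2, 1, 5, [], []⟩,
   ⟨1676900002, 0, 0, 3, 1, 5, [], []⟩, ⟨2048100001, 0, 0, 2, 1, 5, [], []⟩,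
   ⟨2457700002, 3, 3, 2, 1, 5, [], []⟩, ⟨2867300003, 0, 0, 1, 1, 5, [], []⟩,
   ⟨4915300001, 0, 0, 1, 0, 0, [], []⟩, ⟨5324900001, 0, 0, 0, 1, 0, [], []⟩] = true := by
  decide +kernel

lemma p1_T40 : p1L shT ⟨.T4, 0, 12, 4, 12, 1⟩
  [⟨12900001, 0, 0, 2, 1, 5, [], []⟩, ⟨12900002, 0, 0, 1, 1, 5, [], []⟩,
   ⟨13100001, 0, 0, 2, 1, 5, [], []⟩, ⟨13100002, 0, 0, 1, 1, 5, [], []⟩,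
   ⟨13400001, 4, 4, 2, 1, 5, [], []⟩, ⟨19300001, 0, 0, 3, 1, 5, [], []⟩,
   ⟨19300002, 0, 0, 1, 1, 5, [], []⟩, ⟨25700002, 0, 0, 2, 1, 5, [], []⟩,
   ⟨428900001, 0, 0, 3, 1, 5, [], []⟩, ⟨428900002, 0, 0, 1, 1, 5, [], []⟩,
   ⟨435300002, 0, 0, 2, 1, 5, [], []⟩, ⟨832100002, 0, 0, 2, 1, 5, [], []⟩,
   ⟨832300001, 4, 4, 0, 2, 5, [], []⟩, ⟨832300002, 0, 0, 2, 1, 5, [], []⟩,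
   ⟨838500002, 0, 0, 2, 1, 5, [], []⟩, ⟨1254500002, 0, 0, 2, 1, 5, [], []⟩,
   ⟨2048100001, 0, 0, 4, 1, 5, [], []⟩, ⟨2048100002, 0, 0, 2, 1, 5, [], []⟩,
   ⟨2457700004, 2, 2, 1, 1, 5, [], []⟩, ⟨4505700002, 0, 0, 2, 1, 5, [], []⟩,
   ⟨4915300002, 0, 0, 1, 0, 0, [], []⟩, ⟨4915500001, 4, 3, 2, 0, 0, [], []⟩,
   ⟨4915500002, 0, 0, 2, 0, 0, [], []⟩, ⟨5324900001, 0, 0, 0, 1, 0, [], []⟩,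
   ⟨5324900002, 0, 0, 0, 1, 0, [], []⟩, ⟨5734500002, 0, 0, 3, 0, 0, [], []⟩] = true := by
  decide +kernel

lemma p1_F40 : p1L shT ⟨.F4, 0, 24, 4, 12, 1⟩
  [⟨19400001, 0, 0, 1, 1, 5, [], []⟩, ⟨19600001, 0, 0, 1, 1, 5, [], []⟩,
   ⟨25700001, 0, 0, 1, 1, 5, [], []⟩, ⟨25800001, 0, 0, 2, 1, 5, [], []⟩,
   ⟨429000001, 0, 0, 1, 1, 5, [], []⟩, ⟨435300001, 0, 0, 1, 1, 5, [], []⟩,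
   ⟨435400001, 4, 5, 2, 1, 5, [], []⟩, ⟨832100001, 0, 0, 1, 1, 5, [], []⟩,
   ⟨832200001, 0, 0, 1, 1, 5, [], []⟩, ⟨832300001, 0, 0, 2, 1, 5, [], []⟩,
   ⟨838500001, 0, 0, 2, 1, 5, [], []⟩, ⟨838600001, 4, 4, 2, 1, 5, [], []⟩,
   ⟨844900001, 0, 0, 2, 1, 5, [], []⟩, ⟨1254500001, 0, 0, 2, 1, 5, [], []⟩,
   ⟨1254600001, 4, 4, 0, 2, 5, [], []⟩, ⟨1664100001, 0, 0, 2, 1, 5, [], []⟩,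
   ⟨2048100001, 0, 0, 1, 1, 5, [], []⟩, ⟨2048200001, 0, 0, 2, 1, 5, [], []⟩,
   ⟨4505700001, 0, 0, 2, 1, 5, [], []⟩, ⟨4915500001, 0, 0, 1, 0, 0, [], []⟩,
   ⟨5324900001, 0, 0, 0, 1, 0, [], []⟩, ⟨5734500001, 0, 0, 2, 0, 0, [], []⟩] = true := by
  decide +kernel

lemma p1_U8 : p1L shT ⟨.U, 8, 28, 7, 14, 35⟩
  [⟨25700001, 0, 0, 1, 1, 5, [], []⟩, ⟨25800001, 0, 0, 2, 1, 5, [], []⟩,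
   ⟨32200001, 5, 4, 2, 1, 5, [], []⟩, ⟨435300001, 0, 0, 1, 1, 5, [], []⟩,
   ⟨441700001, 0, 0, 2, 1, 5, [], []⟩, ⟨448100001, 0, 0, 2, 1, 5, [], []⟩,
   ⟨454500001, 0, 0, 3, 1, 5, [], []⟩, ⟨832200001, 0, 0, 1, 1, 5, [], []⟩,
   ⟨838500001, 0, 0, 1, 1, 5, [], []⟩, ⟨844900001, 0, 0, 2, 1, 5, [], []⟩,
   ⟨851300001, 5, 3, 2, 1, 5, [], []⟩, ⟨1254500001, 0, 0, 2, 1, 5, [], []⟩,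
   ⟨1280100003, 7, 3, 2, 1, 5, [], []⟩, ⟨1664100001, 0, 0, 2, 1, 5, [], []⟩,
   ⟨1670500001, 0, 0, 3, 1, 5, [], []⟩, ⟨2048100001, 0, 0, 1, 1, 5, [], []⟩,
   ⟨3686500003, 5, 3, 2, 1, 5, [], []⟩] = true := by
  decide +kernel

lemma p1_D6 : p1L shT ⟨.D, 6, 30, 6, 10, 5⟩
  [⟨25800001, 0, 0, 1, 1, 5, [], []⟩, ⟨32100001, 0, 0, 1, 1, 5, [], []⟩,
   ⟨32200001, 0, 0, 2, 1, 5, [], []⟩, ⟨38500001, 0, 0, 2, 1, 5, [], []⟩,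
   ⟨441700001, 0, 0, 1, 1, 5, [], []⟩, ⟨448100001, 0, 0, 2, 1, 5, [], []⟩,
   ⟨838500001, 0, 0, 1, 1, 5, [], []⟩, ⟨844900001, 0, 0, 2, 1, 5, [], []⟩,
   ⟨851300001, 0, 0, 4, 2, 5, [], []⟩, ⟨857700002, 0, 0, 1, 1, 5, [], []⟩,
   ⟨1254500001, 0, 0, 1, 1, 5, [], []⟩, ⟨1260900001, 0, 0, 2, 1, 5, [], []⟩,
   ⟨1664100001, 0, 0, 1, 1, 5, [], []⟩, ⟨1670500001, 0, 0, 2, 1, 5, [], []⟩] = true := by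
  decide +kernel

lemma p1_A9 : p1L shT ⟨.A, 9, 36, 8, 9, 35⟩
  [⟨38500001, 0, 0, 1, 1, 5, [], []⟩, ⟨44900001, 0, 0, 2, 1, 5, [], []⟩,
   ⟨51300001, 0, 0, 3, 1, 5, [], []⟩, ⟨844900001, 0, 0, 1, 1, 5, [], []⟩,
   ⟨864100002, 0, 0, 2, 1, 5, [], []⟩, ⟨870500002, 0, 0, 7, 4, 36, [18], [2]⟩,
   ⟨1260900001, 0, 0, 2, 1, 5, [], []⟩, ⟨1280100002, 0, 0, 2, 1, 5, [], []⟩,
   ⟨1689700002, 0, 0, 2, 1, 5, [], []⟩, ⟨3686500002, 0, 0, 7, 4, 36, [4, 16], [2]⟩] = true := by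
  decide +kernel

lemma p1_E7 : p1L shT ⟨.E, 7, 42, 7, 14, 35⟩
  [⟨38600001, 0, 0, 2, 1, 5, [], []⟩, ⟨45000001, 7, 3, 0, 1, 5, [], []⟩,
   ⟨460900001, 0, 0, 2, 1, 5, [], []⟩, ⟨851300001, 0, 0, 1, 1, 5, [], []⟩,
   ⟨857700001, 0, 0, 3, 1, 5, [], []⟩, ⟨1267300001, 0, 0, 2, 1, 5, [], []⟩,
   ⟨1676900001, 0, 0, 2, 1, 5, [], []⟩, ⟨2457700001, 0, 0, 1, 1, 5, [], []⟩] = true := by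
  decide +kernel

lemma p1_B7 : p1L shT ⟨.B, 7, 49, 7, 14, 35⟩
  [⟨45000001, 0, 0, 2, 1, 5, [], []⟩, ⟨857700001, 0, 0, 2, 1, 5, [], []⟩,
   ⟨1267300001, 0, 0, 1, 1, 5, [], []⟩, ⟨1273700001, 0, 0, 3, 1, 5, [], []⟩,
   ⟨1676900001, 0, 0, 1, 1, 5, [], []⟩, ⟨1683300001, 0, 0, 3, 1, 5, [], []⟩] = true := by
  decide +kernel

lemma p1_E9 : p1L shT ⟨.E, 9, 72, 9, 18, 35⟩
  [⟨57800001, 9, 4, 0, 1, 5, [], []⟩, ⟨870500001, 0, 0, 3, 1, 5, [], []⟩,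
   ⟨1280100001, 0, 0, 2, 1, 5, [], []⟩, ⟨1689700001, 0, 0, 2, 1, 5, [], []⟩,
   ⟨3686500001, 9, 3, 2, 1, 5, [], []⟩] = true := by
  decide +kernel

lemma p1_A12 : p1L shT ⟨.A, 12, 66, 11, 12, 385⟩
  [⟨70500001, 0, 0, 2, 1, 5, [], []⟩, ⟨889700002, 0, 0, 6, 4, 36, [24], [2]⟩,
   ⟨1299300002, 0, 0, 2, 1, 5, [], []⟩, ⟨1708900002, 0, 0, 2, 1, 5, [], []⟩] = true := by
  decide +kernel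

lemma p1_A14 : p1L shT ⟨.A, 14, 91, 13, 14, 5005⟩
  [⟨83300001, 0, 0, 2, 1, 5, [], []⟩, ⟨902500002, 0, 0, 6, 4, 36, [28], [2]⟩,
   ⟨1312100002, 0, 0, 2, 1, 5, [], []⟩, ⟨1721700002, 0, 0, 2, 1, 5, [], []⟩] = true := by
  decide +kernel

lemma p1_A17 : p1L shT ⟨.A, 17, 136, 16, 17, 85085⟩
  [⟨102500001, 0, 0, 2, 1, 5, [], []⟩, ⟨921700002, 0, 0, 6, 4, 36, [34], [2]⟩,
   ⟨1331300002, 0, 0, 1, 1, 5, [], []⟩, ⟨1740900002, 0, 0, 1, 1, 5, [], []⟩] = true := by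
  decide +kernel

lemma p1_U10 : p1L shT ⟨.U, 10, 45, 9, 18, 35⟩
  [⟨460900001, 0, 0, 2, 1, 5, [], []⟩, ⟨467300001, 0, 0, 3, 1, 5, [], []⟩,
   ⟨851300001, 0, 0, 1, 1, 5, [], []⟩, ⟨1267300001, 0, 0, 2, 1, 5, [], []⟩] = true := by
  decide +kernel

lemma p1_B10 : p1L shT ⟨.B, 10, 100, 10, 20, 35⟩
  [⟨64200001, 0, 0, 1, 1, 5, [], []⟩, ⟨876900001, 0, 0, 1, 1, 5, [], []⟩,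
   ⟨1292900001, 0, 0, 2, 1, 5, [], []⟩, ⟨1702500001, 0, 0, 2, 1, 5, [], []⟩] = true := by
  decide +kernel

lemma p1_E12 : p1L shT ⟨.E, 12, 132, 12, 24, 385⟩
  [⟨77000001, 12, 5, 0, 1, 5, [], []⟩, ⟨889700001, 0, 0, 2, 1, 5, [], []⟩,
   ⟨1305700001, 3, 5, 0, 2, 5, [], []⟩] = true := by
  decide +kernel

lemma p1_E18 : p1L shT ⟨.E, 18, 306, 18, 36, 85085⟩
  [⟨115400001, 9, 4, 0, 1, 5, [], []⟩, ⟨928100001, 0, 0, 1, 1, 5, [], []⟩,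
   ⟨1344100001, 9, 3, 0, 1, 5, [], []⟩] = true := by
  decide +kernel

lemma p1_U11 : p1L shT ⟨.U, 11, 55, 10, 22, 385⟩
  [⟨467300001, 0, 0, 1, 1, 5, [], []⟩, ⟨473700001, 0, 0, 2, 1, 5, [], []⟩] = true := by
  decide +kernel

lemma p1_B13 : p1L shT ⟨.B, 13, 169, 13, 26, 5005⟩
  [⟨1312100001, 0, 0, 2, 1, 5, [], []⟩, ⟨1721700001, 0, 0, 2, 1, 5, [], []⟩] = true := by
  decide +kernel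

lemma p1_B16 : p1L shT ⟨.B, 16, 256, 16, 32, 5005⟩
  [⟨1331300001, 0, 0, 1, 1, 5, [], []⟩, ⟨1740900001, 0, 0, 1, 1, 5, [], []⟩] = true := by
  decide +kernel

lemma p1_E11 : p1L shT ⟨.E, 11, 110, 11, 22, 385⟩
  [⟨70600001, 11, 3, 0, 1, 5, [], []⟩, ⟨883300001, 0, 0, 2, 1, 5, [], []⟩] = true := by
  decide +kernel

lemma p1_E17 : p1L shT ⟨.E, 17, 272, 17, 34, 85085⟩
  [⟨109000001, 17, 3, 0, 1, 5, [], []⟩, ⟨921700001, 0, 0, 1, 1, 5, [], []⟩] = true := by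
  decide +kernel

lemma p1_A21 : p1L shT ⟨.A, 21, 210, 20, 21, 1616615⟩
  [⟨947300002, 0, 0, 6, 4, 36, [42], [2]⟩] = true := by
  decide +kernel

lemma p1_A23 : p1L shT ⟨.A, 23, 253, 22, 23, 37182145⟩
  [⟨960100002, 0, 0, 6, 4, 36, [46], [2]⟩] = true := by
  decide +kernel

lemma p1_U15 : p1L shT ⟨.U, 15, 105, 14, 30, 5005⟩
  [⟨499300001, 0, 0, 2, 1, 5, [], []⟩] = true := by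
  decide +kernel

lemma p1_U18 : p1L shT ⟨.U, 18, 153, 17, 34, 85085⟩
  [⟨518500001, 0, 0, 2, 1, 5, [], []⟩] = true := by
  decide +kernel

lemma p1_D11 : p1L shT ⟨.D, 11, 110, 11, 20, 385⟩
  [⟨883300001, 0, 0, 2, 1, 5, [], []⟩] = true := by
  decide +kernel

lemma p1_D14 : p1L shT ⟨.D, 14, 182, 14, 26, 5005⟩
  [⟨902500001, 0, 0, 2, 1, 5, [], []⟩] = true := by
  decide +kernel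

lemma p1_D17 : p1L shT ⟨.D, 17, 272, 17, 32, 85085⟩
  [⟨921700001, 0, 0, 1, 1, 5, [], []⟩] = true := by
  decide +kernel

lemma p1_D20 : p1L shT ⟨.D, 20, 380, 20, 38, 1616615⟩
  [⟨940900001, 0, 0, 1, 1, 5, [], []⟩] = true := by
  decide +kernel

lemma p1_U21 : p1L shT ⟨.U, 21, 210, 20, 42, 1616615⟩
  [] = true := by
  decide +kernel

lemma p1_U24 : p1L shT ⟨.U, 24, 276, 23, 46, 37182145⟩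
  [] = true := by
  decide +kernel

lemma p1_B21 : p1L shT ⟨.B, 21, 441, 21, 42, 1616615⟩
  [] = true := by
  decide +kernel

lemma p1_B24 : p1L shT ⟨.B, 24, 576, 24, 48, 37182145⟩
  [] = true := by
  decide +kernel

lemma p1_D23 : p1L shT ⟨.D, 23, 506, 23, 44, 37182145⟩
  [] = true := by
  decide +kernel

lemma p1_E23 : p1L shT ⟨.E, 23, 506, 23, 46, 37182145⟩
  [] = true := by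
  decide +kernel

end Pool.Agent.Lib.MP_343319_al
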