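import Pool.Agent.Lib.MP_343319_al.P2L
import Pool.Agent.Lib.MP_343319_al.P2t0
import Pool.Agent.Lib.MP_343319_al.P2t1
import Pool.Agent.Lib.MP_343319_al.P2t2

namespace Pool.Agent.Lib.MP_343319_al

lemma p2_all {t : Ty} {n : ℕ} (h : vS t n = true) (hn : n ≤ 24) :
    ∃ hints, p2G (mkSh t n) hints = true := by
  cases t <;> simp only [vS, decide_eq_true_eq] at h
  · interval_cases n
    exacts [⟨_, p2_A2⟩, ⟨_, p2_A3⟩, ⟨_, p2_A4⟩, ⟨_, p2_A5⟩, ⟨_, p2_A6⟩, ⟨_, p2_A7⟩, ⟨_, p2_A8⟩,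
      ⟨_, p2_A9⟩, ⟨_, p2_A10⟩, ⟨_, p2_A11⟩, ⟨_, p2_A12⟩, ⟨_, p2_A13⟩, ⟨_, p2_A14⟩,
      ⟨_, p2_A15⟩, ⟨_, p2_A16⟩, ⟨_, p2_A17⟩, ⟨_, p2_A18⟩, ⟨_, p2_A19⟩, ⟨_, p2_A20⟩,
      ⟨_, p2_A21⟩, ⟨_, p2_A22⟩, ⟨_, p2_A23⟩, ⟨_, p2_A24⟩]
  · interval_cases n
    exacts [⟨_, p2_U3⟩, ⟨_, p2_U4⟩, ⟨_, p2_U5⟩, ⟨_, p2_U6⟩, ⟨_, p2_U7⟩, ⟨_, p2_U8⟩, ⟨_, p2_U9⟩,
      ⟨_, p2_U10⟩, ⟨_, p2_U11⟩, ⟨_, p2_U12⟩, ⟨_, p2_U13⟩, ⟨_, p2_U14⟩, ⟨_, p2_U15⟩,
      ⟨_, p2_U16⟩, ⟨_, p2_U17⟩, ⟨_, p2_U18⟩, ⟨_, p2_U19⟩, ⟨_, p2_U20⟩, ⟨_, p2_U21⟩,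
      ⟨_, p2_U22⟩, ⟨_, p2_U23⟩, ⟨_, p2_U24⟩]
  · interval_cases n
    exacts [⟨_, p2_B2⟩, ⟨_, p2_B3⟩, ⟨_, p2_B4⟩, ⟨_, p2_B5⟩, ⟨_, p2_B6⟩, ⟨_, p2_B7⟩, ⟨_, p2_B8⟩,
      ⟨_, p2_B9⟩, ⟨_, p2_B10⟩, ⟨_, p2_B11⟩, ⟨_, p2_B12⟩, ⟨_, p2_B13⟩, ⟨_, p2_B14⟩,
      ⟨_, p2_B15⟩, ⟨_, p2_B16⟩, ⟨_, p2_B17⟩, ⟨_, p2_B18⟩, ⟨_, p2_B19⟩, ⟨_, p2_B20⟩,
      ⟨_, p2_B21⟩, ⟨_, p2_B22⟩, ⟨_, p2_B23⟩, ⟨_, p2_B24⟩]
  · interval_cases n
    exacts [⟨_, p2_D4⟩, ⟨_, p2_D5⟩, ⟨_, p2_D6⟩, ⟨_, p2_D7⟩, ⟨_, p2_D8⟩, ⟨_, p2_D9⟩, ⟨_, p2_D10⟩,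
      ⟨_, p2_D11⟩, ⟨_, p2_D12⟩, ⟨_, p2_D13⟩, ⟨_, p2_D14⟩, ⟨_, p2_D15⟩, ⟨_, p2_D16⟩,
      ⟨_, p2_D17⟩, ⟨_, p2_D18⟩, ⟨_, p2_D19⟩, ⟨_, p2_D20⟩, ⟨_, p2_D21⟩, ⟨_, p2_D22⟩,
      ⟨_, p2_D23⟩, ⟨_, p2_D24⟩]
  · interval_cases n
    exacts [⟨_, p2_E4⟩, ⟨_, p2_E5⟩, ⟨_, p2_E6⟩, ⟨_, p2_E7⟩, ⟨_, p2_E8⟩, ⟨_, p2_E9⟩, ⟨_, p2_E10⟩,
      ⟨_, p2_E11⟩, ⟨_, p2_E12⟩, ⟨_, p2_E13⟩, ⟨_, p2_E14⟩, ⟨_, p2_E15⟩, ⟨_, p2_E16⟩,
      ⟨_, p2_E17⟩, ⟨_, p2_E18⟩, ⟨_, p2_E19⟩, ⟨_, p2_E20⟩, ⟨_, p2_E21⟩, ⟨_, p2_E22⟩,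
      ⟨_, p2_E23⟩, ⟨_, p2_E24⟩]
  · subst h; exact ⟨_, p2_G20⟩
  · subst h; exact ⟨_, p2_F40⟩
  · subst h; exact ⟨_, p2_E60⟩
  · subst h; exact ⟨_, p2_U60⟩
  · subst h; exact ⟨_, p2_E70⟩
  · subst h; exact ⟨_, p2_E80⟩
  · subst h; exact ⟨_, p2_T40⟩
  · subst h; exact ⟨_, p2_Sz0⟩
  · subst h; exact ⟨_, p2_Re0⟩
  · subst h; exact ⟨_, p2_V40⟩

lemma win_cond {t : Ty} {n g e : ℕ} (hS : vS t n = true) (hg : 1 ≤ g) (h : 2 * (g * tH t n) < 3 * e) :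
    dmax t n ≤ 4 ∨ ¬e ∣ 2 * g := by
  rcases (tH_ge hS).2 with h1 | ⟨rfl, rfl⟩
  · refine Or.inr fun hd => ?_
    have := Nat.le_of_dvd (by omega) hd
    have := Nat.mul_le_mul_left g h1
    omega
  · exact Or.inl (by simp [dmax])

lemma tH_large {t : Ty} {n : ℕ} (hS : vS t n = true) (hn : 25 ≤ n) :
    25 * st t ≤ 2 * tH t n ∧ (t ≠ .U → 24 * st t ≤ tH t n) := by
  rcases cl_of_pos hS (by omega) with rfl | rfl | rfl | rfl | rfl <;> simp only [st, tH] <;>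
    first | omega | (split_ifs <;> simp <;> omega)

lemma step_lem {t t1 : Ty} {n n1 p f g e : ℕ} (hv : Val t n p f) (hv1 : Val t1 n1 p g)
    (hd : ord t1 n1 (p ^ g) ∣ ord t n (p ^ f)) (h9 : 9 ≤ f * tH t n) (he : inOm e t1 n1 g = true)
    (h1 : 4 * (f * tH t n) < 5 * e) (h2 : e < g * tH t1 n1) (h3 : g * tH t1 n1 ≤ f * tH t n) :
    6 ≤ n1 ∧ (∃ j, 1 ≤ j ∧ e + st t1 * g * j = g * tH t1 n1) ∧
      ∃ j, 1 ≤ j ∧ g * tH t1 n1 + st t * f * j = f * tH t n + st t1 * g := by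
  obtain ⟨a, j, b, c⟩ := win hv1.hS hv1.hf he (by omega) h2
  refine ⟨a, ⟨j, b, c⟩, ?_⟩
  have hs : 0 < st t1 * g := Nat.mul_pos (st_pos _) hv1.hf
  have h4 : st t1 * g ≤ st t1 * g * j := Nat.le_mul_of_pos_right _ b
  have h5 := step_om (j := 1) (e := g * tH t1 n1 - st t1 * g) hv1.hS hv1.hf a (by omega)
  have h6 := om_incl hv.hp.two_le (by omega) (by omega) hv1.hS hv.hS hd
    (win_cond hv1.hS hv1.hf (by omega)) h5
  obtain ⟨-, j', b', c'⟩ := win hv.hS hv.hf h6 (by omega) (by omega)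
  exact ⟨j', b', by omega⟩

lemma mul_cases {s a j j' c : ℕ} (hs : 0 < s) (h1 : a * j = s * c) (h2 : s * j' = a) :
    j' * j = c := by
  refine Nat.eq_of_mul_eq_mul_left hs ?_
  rw [← mul_assoc, h2, h1]

section
variable {t t1 t2 : Ty} {n n1 n2 p f g h : ℕ} (hv : Val t n p f) (hv1 : Val t1 n1 p g)
  (hv2 : Val t2 n2 p h) (he : ord t1 n1 (p ^ g) * ord t2 n2 (p ^ h) = ord t n (p ^ f))
include hv hv1 hv2 he

lemma P2_same (hn : 25 ≤ n) (hH : g * tH t1 n1 = f * tH t n) {e : ℕ} (h9 : 9 ≤ f * tH t n)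
    (h1 : e + st t * f = f * tH t n) (h2 : 4 * (f * tH t n) < 5 * e)
    (h3 : inOm e t1 n1 g = true) : False := by
  have hs : 0 < st t * f := Nat.mul_pos (st_pos _) hv.hf
  obtain ⟨a, ⟨j, b, c⟩, j', b', c'⟩ := step_lem hv hv1 (Dvd.intro _ he) h9 h3 h2 (by omega) hH.le
  have h4 := mul_cases (a := st t1 * g) (j := j) (j' := j') (c := 1) hs (by omega) (by omega)
  obtain rfl : j' = 1 := Nat.eq_one_of_mul_eq_one_right h4
  exact case1 hv hv1 hv2 he hn a hH (by omega)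

lemma P2_large (hn : 25 ≤ n) (hH : g * tH t1 n1 = f * tH t n) : False := by
  have hs : 0 < st t * f := Nat.mul_pos (st_pos _) hv.hf
  have hf := hv.hf
  have he' : ord t2 n2 (p ^ h) * ord t1 n1 (p ^ g) = ord t n (p ^ f) := by rw [mul_comm, he]
  obtain ⟨l1, l2⟩ := tH_large hv.hS hn
  have l3 : 25 * (st t * f) ≤ 2 * (f * tH t n) := by nlinarith
  have split : ∀ j e, j ≤ 3 → e + st t * f * j = f * tH t n →
      inOm e t1 n1 g = true ∨ inOm e t2 n2 h = true := by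
    intro j e hj h1
    have : st t * f * j ≤ st t * f * 3 := Nat.mul_le_mul_left _ hj
    exact om_split hv.hp.two_le (by omega) (by omega) hv.hS hv1.hS hv2.hS he
      (win_cond hv.hS hf (by omega)) (step_om hv.hS hf (by omega) h1)
  obtain ⟨e1, he1⟩ : ∃ e, e + st t * f = f * tH t n := ⟨f * tH t n - st t * f, by omega⟩
  obtain ⟨e2, he2⟩ : ∃ e, e + st t * f * 2 = f * tH t n := ⟨f * tH t n - st t * f * 2, by omega⟩
  obtain ⟨e3, he3⟩ : ∃ e, e + st t * f * 3 = f * tH t n := ⟨f * tH t n - st t * f * 3, by omega⟩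
  rcases split 1 e1 (by omega) (by omega) with a1 | a1
  · exact P2_same hv hv1 hv2 he hn hH (by omega) he1 (by omega) a1
  have b1 := inOm_le hv2.hS hv2.hf a1
  have b2 := om_incl hv.hp.two_le (by omega) (by omega) hv2.hS hv.hS (Dvd.intro _ he')
    (tH_cond hv2.hS hv2.hf) (inOm_tH hv2.hS hv2.hf)
  rcases (inOm_le hv.hS hf b2).eq_or_lt with b3 | b3
  · exact P2_same hv hv2 hv1 he' hn b3 (by omega) he1 (by omega) a1
  have b4 : h * tH t2 n2 = e1 := by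
    obtain ⟨-, j, c1, c2⟩ := win hv.hS hf b2 (by omega) b3
    have : st t * f ≤ st t * f * j := Nat.le_mul_of_pos_right _ c1
    omega
  have hN : ∀ e c, inOm e t2 n2 h = true → e + st t * f * (c + 1) = f * tH t n → 1 ≤ c →
      4 * (f * tH t n) < 5 * e → 6 ≤ n2 ∧ ∃ j j', j' * j = c ∧ st t * f * j' = st t2 * h := by
    intro e c a2 a3 a4 a5
    have : st t * f ≤ st t * f * c := Nat.le_mul_of_pos_right _ a4
    rw [mul_add] at a3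
    obtain ⟨a, ⟨j, b, c⟩, j', b', c'⟩ := step_lem hv hv2 (Dvd.intro _ he') (by omega) a2 a5
      (by omega) b3.le
    obtain ⟨i, rfl⟩ : ∃ i, j' = i + 1 := ⟨j' - 1, by omega⟩
    rw [mul_add] at c'
    exact ⟨a, j, i, mul_cases (a := st t2 * h) hs (by omega) (by omega), by omega⟩
  rcases split 2 e2 (by omega) he2 with a2 | a2
  swap
  · obtain ⟨a, j, j', c1, c2⟩ := hN e2 1 a2 he2 le_rfl (by omega)
    obtain rfl : j' = 1 := Nat.eq_one_of_mul_eq_one_right c1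
    exact case3 hv hv2 hv1 he' hn a (by omega) (by omega) hH
  obtain ⟨a, ⟨j, b, c⟩, j', b', c'⟩ := step_lem hv hv1 (Dvd.intro _ he) (by omega) a2 (by omega)
    (by omega) hH.le
  have h4 := mul_cases (a := st t1 * g) (j := j) (j' := j') (c := 2) hs (by omega) (by omega)
  rcases (Nat.dvd_prime Nat.prime_two).1 (Dvd.intro _ h4) with rfl | rfl
  · exact case1 hv hv1 hv2 he hn a hH (by omega)
  have h5 : st t1 * g = 2 * (st t * f) := by omega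
  by_cases hU : t = .U
  · subst hU
    obtain ⟨K, k1, k2, -⟩ := tH_U (n := n) (by omega)
    change _ = 2 * (4 * f) at h5
    by_cases c1 : t1 = .U
    · subst c1
      obtain ⟨K1, a1, a2, -⟩ := tH_U (n := n1) (by omega)
      change 4 * g = _ at h5
      obtain rfl : g = 2 * f := by omega
      rw [k1, a1, mul_comm 2 f, mul_assoc] at hH
      have := Nat.eq_of_mul_eq_mul_left hf hH
      omega
    · obtain ⟨K1, a1, -⟩ := tH_nonU (n := n1) (cl_of_pos hv1.hS (by omega)) c1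
      rw [k1, a1, ← mul_assoc, mul_comm g, h5] at hH
      have : f * (8 * K1) = f * (2 * K) := by linarith
      have := Nat.eq_of_mul_eq_mul_left hf this
      omega
  have l4 : 24 * (st t * f) ≤ f * tH t n := by have := l2 hU; nlinarith
  rcases split 3 e3 (by omega) he3 with a3 | a3
  · obtain ⟨-, j3, -, c3⟩ := win hv1.hS hv1.hf a3 (by omega) (by omega)
    have := mul_cases (a := st t1 * g) (j := j3) (j' := 2) (c := 3) hs (by omega) (by omega)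
    omega
  obtain ⟨a', j4, j5, c1, c2⟩ := hN e3 2 a3 he3 (by omega) (by omega)
  rcases (Nat.dvd_prime Nat.prime_two).1 (Dvd.intro _ c1) with rfl | rfl
  · exact case3 hv hv2 hv1 he' hn a' (by omega) (by omega) hH
  · exact case2 hv hv1 hv2 he hn hU a a' h5 (by omega) hH (by omega)

lemma P2_top (hH : g * tH t1 n1 = f * tH t n) : False := by
  by_cases hn : 25 ≤ n
  · exact P2_large hv hv1 hv2 he hn hH
  have hH1 := (tH_ge hv1.hS).1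
  have hH2 := tH_le hv1.hS
  have hn1 : n1 ≤ 47 := by
    by_contra hc
    have := lam2 (m := n1) (X := tH t1 n1) (by omega) (by omega) fun l hl h25 hm => by
      obtain ⟨j, a, b⟩ := lam1 hv.hp.two_le hv.hS (by omega) hv1.hS hv1.hf (Dvd.intro _ he) hl h25 hm
      have c : g * l ∣ g * (tH t1 n1 * j) := by
        rw [← mul_assoc, hH, mul_right_comm]; exact Dvd.dvd.mul_right b _
      exact ((Nat.Prime.dvd_mul hl).1 (Nat.dvd_of_mul_dvd_mul_left hv1.hf c)).resolve_right a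
    have : n1 ≤ n1 * n1 := Nat.le_mul_self _
    omega
  have hn2 : n2 ≤ 47 := by
    by_contra hc
    have hN := val_add hv hv1 hv2 he
    have hN2 : 1 ≤ tN t2 n2 := by have := tr_le_tN hv2.hS; omega
    have := lam2 (m := n2) (X := tN t2 n2 * tH t1 n1) (by omega) (Nat.mul_pos hN2 (by omega))
      fun l hl h25 hm => by
      obtain ⟨j, a, b⟩ := lam1 hv.hp.two_le hv.hS (by omega) hv2.hS hv2.hf (Dvd.intro_left _ he) hl
        h25 hm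
      have c : h * l ∣ h * (tN t2 n2 * tH t1 n1 * j) := by
        have c1 : f * j * (tN t n * tH t1 n1) =
            f * j * (tH t n * tN t1 n1) + h * (tN t2 n2 * tH t1 n1 * j) := by
          zify at hN hH ⊢
          linear_combination (-(j * tH t1 n1)) * hN + j * tN t1 n1 * hH
        have c2 := Dvd.dvd.mul_right b (tN t n * tH t1 n1)
        rw [c1] at c2
        exact (Nat.dvd_add_right (Dvd.dvd.mul_right b _)).1 c2
      exact ((Nat.Prime.dvd_mul hl).1 (Nat.dvd_of_mul_dvd_mul_left hv2.hf c)).resolve_right a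
    have h1 := Nat.mul_le_mul (tN_le (n := n2) (cl_of_pos hv2.hS (by omega)))
      (show tH t1 n1 ≤ 94 by omega)
    omega
  obtain ⟨hints, H⟩ := p2_all hv.hS (show n ≤ 24 by omega)
  exact p2G_sound hv hv1 hv2 he hH (by omega) hn1 hn2 H

end

lemma p2_small : enumL 2 15 (fun z => enumL 2 15 fun x => z % x != 0 ||
    enumL 2 15 fun y => x * y != z) = true := by decide +kernel

lemma tN_small {t : Ty} {n : ℕ} (hS : vS t n = true) (h : tH t n ≤ 6) : 2 * tN t n ≤ 5 * tH t n := by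
  cases t <;> simp only [vS, decide_eq_true_eq, tH, tN] at * <;> try omega
  · interval_cases n <;> omega
  · have : n ≤ 4 := by split_ifs at h <;> omega
    interval_cases n <;> simp
  · have : n ≤ 3 := by omega
    interval_cases n <;> omega
  · have : n ≤ 4 := by omega
    interval_cases n; omega

theorem P2 {t t1 t2 : Ty} {n n1 n2 p f g h : ℕ} (hv : Val t n p f) (hv1 : Val t1 n1 p g)
    (hv2 : Val t2 n2 p h) : ord t1 n1 (p ^ g) * ord t2 n2 (p ^ h) ≠ ord t n (p ^ f) := by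
  intro he
  have hN := val_add hv hv1 hv2 he
  have hf := hv.hf
  have hp := hv.hp.two_le
  by_cases hs : p = 2 ∧ f * tH t n ≤ 6
  · obtain ⟨rfl, hs⟩ := hs
    have h1 : tH t n ≤ f * tH t n := Nat.le_mul_of_pos_left _ hf
    have h2 := Nat.mul_le_mul_left f (tN_small hv.hS (by omega))
    have h3 : f * tN t n ≤ 15 := by nlinarith
    have h4 := enumL_sound (enumL_sound p2_small hv h3) hv1 (by omega)
    simp only [← he, Nat.mul_mod_right, bne_self_eq_false, Bool.false_or] at h4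
    have h5 := enumL_sound h4 hv2 (by omega)
    simp at h5
  have h3 : 3 ≤ f * tH t n := by
    rcases (tH_ge hv.hS).2 with h1 | ⟨rfl, rfl⟩
    · exact h1.trans (Nat.le_mul_of_pos_left _ hf)
    · have a : 0 < g * tN t1 n1 := Nat.mul_pos hv1.hf (by have := tr_le_tN hv1.hS; omega)
      have b : 0 < h * tN t2 n2 := Nat.mul_pos hv2.hf (by have := tr_le_tN hv2.hS; omega)
      change _ = f * 1 at hN
      change 3 ≤ f * 2
      omega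
  have key : ∀ {t' : Ty} {n' k : ℕ}, Val t' n' p k → ord t' n' (p ^ k) ∣ ord t n (p ^ f) →
      inOm (f * tH t n) t' n' k = true → k * tH t' n' = f * tH t n := by
    intro t' n' k hv' hd h1
    have a := inOm_le hv'.hS hv'.hf h1
    have b := inOm_le hv.hS hf (om_incl hp (by omega) (by omega) hv'.hS hv.hS hd
      (tH_cond hv'.hS hv'.hf) (inOm_tH hv'.hS hv'.hf))
    omega
  rcases om_split hp h3 (by omega) hv.hS hv1.hS hv2.hS he (tH_cond hv.hS hf) (inOm_tH hv.hS hf)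
    with h1 | h1
  · exact P2_top hv hv1 hv2 he (key hv1 (Dvd.intro _ he) h1)
  · exact P2_top hv hv2 hv1 (by rw [mul_comm, he]) (key hv2 (Dvd.intro_left _ he) h1)

end Pool.Agent.Lib.MP_343319_al
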