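import Pool.Agent.Lib.MP_343319_al.P1t0
import Pool.Agent.Lib.MP_343319_al.P1t1
import Pool.Agent.Lib.MP_343319_al.P1t2
import Pool.Agent.Lib.MP_343319_al.P1t3
import Pool.Agent.Lib.MP_343319_al.P1L
import Pool.Agent.Lib.MP_343319_al.P2

namespace Pool.Agent.Lib.MP_343319_al

lemma p1_A2 {M : Sh} (hM : M ∈ shT) : ∃ L hints, M ∈ L ∧ p1L L (mkSh .A 2) hints = true := by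
  rw [← List.take_append_drop 1 shT, ← List.take_append_drop 231 (shT.drop 1), List.mem_append,
    List.mem_append] at hM
  rcases hM with h | h | h
  exacts [⟨_, _, h, p1_A2a⟩, ⟨_, _, h, p1_A2b⟩, ⟨_, _, h, p1_A2c⟩]

lemma p1_all {t : Ty} {n : ℕ} (h : vS t n = true) (hn : n ≤ 24) {M : Sh} (hM : M ∈ shT) :
    ∃ L hints, M ∈ L ∧ p1L L (mkSh t n) hints = true := by
  cases t <;> simp only [vS, decide_eq_true_eq] at h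
  · interval_cases n
    exacts [p1_A2 hM, ⟨_, _, hM, p1_A3⟩, ⟨_, _, hM, p1_A4⟩, ⟨_, _, hM, p1_A5⟩, ⟨_, _, hM, p1_A6⟩,
      ⟨_, _, hM, p1_A7⟩, ⟨_, _, hM, p1_A8⟩, ⟨_, _, hM, p1_A9⟩, ⟨_, _, hM, p1_A10⟩,
      ⟨_, _, hM, p1_A11⟩, ⟨_, _, hM, p1_A12⟩, ⟨_, _, hM, p1_A13⟩, ⟨_, _, hM, p1_A14⟩,
      ⟨_, _, hM, p1_A15⟩, ⟨_, _, hM, p1_A16⟩, ⟨_, _, hM, p1_A17⟩, ⟨_, _, hM, p1_A18⟩,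
      ⟨_, _, hM, p1_A19⟩, ⟨_, _, hM, p1_A20⟩, ⟨_, _, hM, p1_A21⟩, ⟨_, _, hM, p1_A22⟩,
      ⟨_, _, hM, p1_A23⟩, ⟨_, _, hM, p1_A24⟩]
  · interval_cases n
    exacts [⟨_, _, hM, p1_U3⟩, ⟨_, _, hM, p1_U4⟩, ⟨_, _, hM, p1_U5⟩, ⟨_, _, hM, p1_U6⟩,
      ⟨_, _, hM, p1_U7⟩, ⟨_, _, hM, p1_U8⟩, ⟨_, _, hM, p1_U9⟩, ⟨_, _, hM, p1_U10⟩,
      ⟨_, _, hM, p1_U11⟩, ⟨_, _, hM, p1_U12⟩, ⟨_, _, hM, p1_U13⟩, ⟨_, _, hM, p1_U14⟩,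
      ⟨_, _, hM, p1_U15⟩, ⟨_, _, hM, p1_U16⟩, ⟨_, _, hM, p1_U17⟩, ⟨_, _, hM, p1_U18⟩,
      ⟨_, _, hM, p1_U19⟩, ⟨_, _, hM, p1_U20⟩, ⟨_, _, hM, p1_U21⟩, ⟨_, _, hM, p1_U22⟩,
      ⟨_, _, hM, p1_U23⟩, ⟨_, _, hM, p1_U24⟩]
  · interval_cases n
    exacts [⟨_, _, hM, p1_B2⟩, ⟨_, _, hM, p1_B3⟩, ⟨_, _, hM, p1_B4⟩, ⟨_, _, hM, p1_B5⟩,
      ⟨_, _, hM, p1_B6⟩, ⟨_, _, hM, p1_B7⟩, ⟨_, _, hM, p1_B8⟩, ⟨_, _, hM, p1_B9⟩,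
      ⟨_, _, hM, p1_B10⟩, ⟨_, _, hM, p1_B11⟩, ⟨_, _, hM, p1_B12⟩, ⟨_, _, hM, p1_B13⟩,
      ⟨_, _, hM, p1_B14⟩, ⟨_, _, hM, p1_B15⟩, ⟨_, _, hM, p1_B16⟩, ⟨_, _, hM, p1_B17⟩,
      ⟨_, _, hM, p1_B18⟩, ⟨_, _, hM, p1_B19⟩, ⟨_, _, hM, p1_B20⟩, ⟨_, _, hM, p1_B21⟩,
      ⟨_, _, hM, p1_B22⟩, ⟨_, _, hM, p1_B23⟩, ⟨_, _, hM, p1_B24⟩]
  · interval_cases n
    exacts [⟨_, _, hM, p1_D4⟩, ⟨_, _, hM, p1_D5⟩, ⟨_, _, hM, p1_D6⟩, ⟨_, _, hM, p1_D7⟩,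
      ⟨_, _, hM, p1_D8⟩, ⟨_, _, hM, p1_D9⟩, ⟨_, _, hM, p1_D10⟩, ⟨_, _, hM, p1_D11⟩,
      ⟨_, _, hM, p1_D12⟩, ⟨_, _, hM, p1_D13⟩, ⟨_, _, hM, p1_D14⟩, ⟨_, _, hM, p1_D15⟩,
      ⟨_, _, hM, p1_D16⟩, ⟨_, _, hM, p1_D17⟩, ⟨_, _, hM, p1_D18⟩, ⟨_, _, hM, p1_D19⟩,
      ⟨_, _, hM, p1_D20⟩, ⟨_, _, hM, p1_D21⟩, ⟨_, _, hM, p1_D22⟩, ⟨_, _, hM, p1_D23⟩,
      ⟨_, _, hM, p1_D24⟩]
  · interval_cases n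
    exacts [⟨_, _, hM, p1_E4⟩, ⟨_, _, hM, p1_E5⟩, ⟨_, _, hM, p1_E6⟩, ⟨_, _, hM, p1_E7⟩,
      ⟨_, _, hM, p1_E8⟩, ⟨_, _, hM, p1_E9⟩, ⟨_, _, hM, p1_E10⟩, ⟨_, _, hM, p1_E11⟩,
      ⟨_, _, hM, p1_E12⟩, ⟨_, _, hM, p1_E13⟩, ⟨_, _, hM, p1_E14⟩, ⟨_, _, hM, p1_E15⟩,
      ⟨_, _, hM, p1_E16⟩, ⟨_, _, hM, p1_E17⟩, ⟨_, _, hM, p1_E18⟩, ⟨_, _, hM, p1_E19⟩,
      ⟨_, _, hM, p1_E20⟩, ⟨_, _, hM, p1_E21⟩, ⟨_, _, hM, p1_E22⟩, ⟨_, _, hM, p1_E23⟩,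
      ⟨_, _, hM, p1_E24⟩]
  · subst h; exact ⟨_, _, hM, p1_G20⟩
  · subst h; exact ⟨_, _, hM, p1_F40⟩
  · subst h; exact ⟨_, _, hM, p1_E60⟩
  · subst h; exact ⟨_, _, hM, p1_U60⟩
  · subst h; exact ⟨_, _, hM, p1_E70⟩
  · subst h; exact ⟨_, _, hM, p1_E80⟩
  · subst h; exact ⟨_, _, hM, p1_T40⟩
  · subst h; exact ⟨_, _, hM, p1_Sz0⟩
  · subst h; exact ⟨_, _, hM, p1_Re0⟩
  · subst h; exact ⟨_, _, hM, p1_V40⟩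

theorem P1 {t t1 : Ty} {n n1 p f g y : ℕ} (hv : Val t n p f) (hv1 : Val t1 n1 p g)
    (hy : NonP p y) : ord t1 n1 (p ^ g) * y ≠ ord t n (p ^ f) := by
  intro he
  obtain ⟨u, v, hc, hu, hw⟩ := Nat.exists_coprime f g
  generalize Nat.gcd f g = a at hu hw
  rw [mul_comm] at hu hw
  subst hu hw
  have C : Ctx t n u t1 n1 v p a y := ⟨hv, hv1, hy, by rw [← pow_mul, ← pow_mul]; exact he⟩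
  by_cases hn : 25 ≤ n
  · exact C.large hc hn
  · have h1 := C.rank_le hc (by omega)
    obtain ⟨L, hints, h2, h3⟩ := p1_all hv.hS (by omega) (mem_shT hv1.hS h1)
    exact C.p1L_sound hc h1 h2 h3

theorem lie_no {x y z : ℕ} (hx : SimpleOrder x) (hy : SimpleOrder y) (hz : Lie z) : x * y ≠ z := by
  obtain ⟨t, n, p, f, hv, rfl⟩ := hz
  rcases hx.nonP_or p with hx | ⟨t1, n1, g, hv1, rfl⟩ <;>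
    rcases hy.nonP_or p with hy | ⟨t2, n2, h, hv2, rfl⟩
  · exact P0 hv hx hy
  · rw [mul_comm]; exact P1 hv hv2 hx
  · exact P1 hv hv1 hy
  · exact P2 hv hv1 hv2

end Pool.Agent.Lib.MP_343319_al
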