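import Pool.Agent.Lib.MP_343319_al.Win
import Pool.Agent.Lib.MP_343319_al.P0

namespace Pool.Agent.Lib.MP_343319_al

structure Ctx (t : Ty) (n f : ℕ) (t1 : Ty) (n1 g p a y : ℕ) : Prop where
  hv : Val t n p (a * f)
  hv1 : Val t1 n1 p (a * g)
  hy : NonP p y
  he : ord t1 n1 ((p ^ a) ^ g) * y = ord t n ((p ^ a) ^ f)

section
variable {t t1 : Ty} {n f n1 g p a y : ℕ} (C : Ctx t n f t1 n1 g p a y)
include C

lemma Ctx.ha : 1 ≤ a := Nat.pos_of_mul_pos_right C.hv.hf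
lemma Ctx.hf : 1 ≤ f := Nat.pos_of_mul_pos_left C.hv.hf
lemma Ctx.hg : 1 ≤ g := Nat.pos_of_mul_pos_left C.hv1.hf
lemma Ctx.hQ : 2 ≤ p ^ a := Nat.one_lt_pow (by have := C.ha; omega) C.hv.hp.one_lt
lemma Ctx.hq : 2 ≤ (p ^ a) ^ f := by rw [← pow_mul]; exact C.hv.two_le
lemma Ctx.hq1 : 2 ≤ (p ^ a) ^ g := by rw [← pow_mul]; exact C.hv1.two_le

lemma Ctx.val_y : a * (g * tN t1 n1) + padicValNat p y = a * (f * tN t n) := by
  haveI := Fact.mk C.hv.hp
  have h1 := C.hv.val_ord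
  have h2 := C.hv1.val_ord
  have h3 := C.hy.ge
  rw [pow_mul] at h1 h2
  rw [← C.he, padicValNat.mul (ord_pos C.hq1 C.hv1.hS).ne' (by omega), h2] at h1
  linarith

lemma Ctx.nu_le : g * tN t1 n1 ≤ f * tN t n :=
  Nat.le_of_mul_le_mul_left (by have := C.val_y; omega) C.ha

lemma Ctx.pow_dvd : p ^ (a * (f * tN t n - g * tN t1 n1)) ∣ y := by
  have := C.val_y
  rw [Nat.mul_sub, show a * (f * tN t n) - a * (g * tN t1 n1) = padicValNat p y by omega]
  exact pow_padicValNat_dvd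

lemma Ctx.odd_of_zero (h : f * tN t n - g * tN t1 n1 = 0) : p ≠ 2 := by
  rintro rfl
  have h1 := C.val_y
  have h2 := C.nu_le
  have h3 := C.hy.ge
  rw [show f * tN t n = g * tN t1 n1 by omega] at h1
  exact not_dvd_of_val Nat.prime_two (by omega) (by omega)
    ((show 2 ∣ 4 by norm_num).trans C.hy.four_dvd)

lemma Ctx.size {k c : ℕ} (h : (p ^ (a * (f * tN t n - g * tN t1 n1))) ^ k ≤ c * y) :
    (p ^ a) ^ (k * (f * tN t n - g * tN t1 n1) + g * (2 * tN t1 n1 + tr t1 n1)) ≤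
      2 * dmax t1 n1 * c * (p ^ a) ^ (f * (2 * tN t n + tr t n)) := by
  have h1 := ord_ge C.hq1 C.hv1.hS
  have h2 := ord_le C.hq C.hv.hS
  have h3 := td_le_dmax C.hv1.hS ((p ^ a) ^ g)
  rw [← C.he] at h2
  calc _ = (p ^ (a * (f * tN t n - g * tN t1 n1))) ^ k * ((p ^ a) ^ g) ^ (2 * tN t1 n1 + tr t1 n1) := by
        rw [pow_add, pow_mul p a, ← pow_mul (p ^ a) _ k, mul_comm k, pow_mul _ g]
    _ ≤ _ := Nat.mul_le_mul h h1
    _ = 2 * td t1 n1 ((p ^ a) ^ g) * c * (ord t1 n1 ((p ^ a) ^ g) * y) := by ring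
    _ ≤ _ := by rw [pow_mul _ f]; gcongr

lemma Ctx.eqPP : ∃ w, y = (p ^ a) ^ (f * tN t n - g * tN t1 n1) * w ∧
    td t n ((p ^ a) ^ f) * w * PP (p ^ a) (numL t1 n1 g ++ denL t n f) =
      PP (p ^ a) (numL t n f ++ denL t1 n1 g) * td t1 n1 ((p ^ a) ^ g) := by
  obtain ⟨w, hw⟩ := C.pow_dvd
  rw [pow_mul] at hw
  refine ⟨w, hw, ?_⟩
  have a0 := td_mul_ord (q := (p ^ a) ^ f) C.hv.hS
  have a1 := td_mul_ord (q := (p ^ a) ^ g) C.hv1.hS
  have hQ := C.hQ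
  obtain ⟨D, hD⟩ := Nat.exists_eq_add_of_le C.nu_le
  rw [← C.he, hw, ← pow_mul _ f (tN t n), hD, Nat.add_sub_cancel_left, pow_add] at a0
  rw [← pow_mul _ g (tN t1 n1)] at a1
  rw [PP_append, PP_append, ← tR_mul (by omega) C.hv.hS, ← tR_mul (by omega) C.hv1.hS]
  generalize p ^ a = Q at *
  have hp : 0 < Q ^ (g * tN t1 n1) * Q ^ D := by positivity
  refine Nat.eq_of_mul_eq_mul_left hp ?_
  zify at a0 a1 ⊢
  generalize (PP Q (denL t n f) : ℤ) = x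
  generalize (PP Q (denL t1 n1 g) : ℤ) = x1
  linear_combination x * x1 * td t1 n1 (Q ^ g) * a0 - x * x1 * td t n (Q ^ f) * Q ^ D * w * a1

end

def expFail (A B c T : ℕ) : Bool := decide (B < A) && decide (c < T ^ (A - B))

lemma expFail_sound {A B c T Q : ℕ} (h : expFail A B c T = true) (hT : T ≤ Q) (hQ : 1 ≤ Q) :
    ¬Q ^ A ≤ c * Q ^ B := by
  simp only [expFail, Bool.and_eq_true, decide_eq_true_eq] at h
  intro h1
  obtain ⟨D, rfl⟩ := Nat.exists_eq_add_of_le h.1.le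
  rw [Nat.add_sub_cancel_left] at h
  rw [pow_add, mul_comm] at h1
  have := Nat.le_of_mul_le_mul_right h1 (pow_pos hQ _)
  have := Nat.pow_le_pow_left hT D
  omega

lemma PP_le (Q : ℕ) (L : List ℕ) : PP Q L ≤ Q ^ L.sum := by
  induction L with
  | nil => simp
  | cons k L ih => rw [PP_cons, List.sum_cons, pow_add]; exact Nat.mul_le_mul (Nat.sub_le _ _) ih

lemma PP_ge {Q : ℕ} (hQ : 36 ≤ Q) {L : List ℕ} (h : ∀ k ∈ L, 1 ≤ k) :
    35 ^ L.length * Q ^ L.sum ≤ 36 ^ L.length * PP Q L := by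
  induction L with
  | nil => simp
  | cons k L ih =>
    have h1 : Q ≤ Q ^ k := Nat.le_self_pow (by have := h k (by simp); omega) _
    have h2 : 35 * Q ^ k ≤ 36 * (Q ^ k - 1) := by omega
    rw [PP_cons, List.sum_cons, List.length_cons]
    calc _ = 35 * Q ^ k * (35 ^ L.length * Q ^ L.sum) := by ring
      _ ≤ _ := Nat.mul_le_mul h2 (ih fun j hj => h j (by simp [hj]))
      _ = _ := by ring

lemma PP_ge' {Q : ℕ} (hQ : 36 ≤ Q) {L : List ℕ} (h : ∀ k ∈ L, 1 ≤ k) (h3 : L.length ≤ 3) :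
    9 * Q ^ L.sum ≤ 10 * PP Q L := by
  have := PP_ge hQ h
  generalize L.length = l at *
  interval_cases l <;> omega

lemma PP_mod {Q : ℕ} (hQ : 1 ≤ Q) {L : List ℕ} (h : ∀ k ∈ L, 1 ≤ k) :
    ∃ s : ℤ, (s = 1 ∨ s = -1) ∧ (Q : ℤ) ∣ PP Q L - s := by
  induction L with
  | nil => exact ⟨1, Or.inl rfl, by simp⟩
  | cons k L ih =>
    obtain ⟨s, h1, h2⟩ := ih fun j hj => h j (by simp [hj])
    refine ⟨-s, by omega, ?_⟩
    rw [PP_cons, Nat.cast_mul, cast_pow_sub hQ]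
    have h3 : (Q : ℤ) ∣ Q ^ k := dvd_pow_self _ (by have := h k (by simp); omega)
    exact dvd_of_eq' (Dvd.dvd.sub (Dvd.dvd.mul_right h3 (PP Q L)) h2) (by ring)

lemma PP_perm (Q : ℕ) {L L' : List ℕ} (h : L.Perm L') : PP Q L = PP Q L' := (h.map _).prod_eq

lemma ps_arith {Q A B J P1 P2 s1 s2 d dM dG k e : ℤ} (hQ : 36 ≤ Q) (hA : Q ∣ A) (hA0 : 0 < A)
    (hB : 0 < B) (hJ : 1 ≤ J) (l1 : 9 * (B * A ^ 2 * J) ≤ 10 * P1) (u1 : P1 ≤ B * A ^ 2 * J)
    (l2 : 9 * B ≤ 10 * P2) (u2 : P2 ≤ B) (hs1 : s1 = 1 ∨ s1 = -1) (hs2 : s2 = 1 ∨ s2 = -1)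
    (m1 : Q ∣ P1 - s1) (m2 : Q ∣ P2 - s2) (hd : 1 ≤ d ∧ d ≤ 2) (hM : 1 ≤ dM) (hG : 1 ≤ dG)
    (hk : 1 ≤ k) (he : e = 1 ∨ e = -1) (h30 : 30 ≤ k * A - e)
    (hc : (J = 1 ∧ dM ≤ 2) ∨ (J ≤ Q ^ 2 ∧ dM = 1 ∧ dG ≤ 3 ∧ 256 ≤ Q))
    (h : d * dM * P1 = dG * k * (P2 * ((k * A - e) * (k * A - 2 * e)))) : False := by
  have l3 := quad_lo he h30
  have u3 := quad_hi he h30
  have he2 : e ^ 2 = 1 := by rcases he with rfl | rfl <;> norm_num
  have m3 : Q ∣ (k * A - e) * (k * A - 2 * e) - 2 :=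
    dvd_of_eq' (Dvd.dvd.mul_left hA (k * k * A - 3 * k * e)) (by linear_combination (-2) * he2)
  generalize (k * A - e) * (k * A - 2 * e) = X at *
  have hBA : 0 < B * A ^ 2 := by positivity
  have hkA : 0 < (k * A) ^ 2 := by positivity
  have hw : 0 < dG * k := by positivity
  have hdd : 1 ≤ d * dM := one_le_mul_of_one_le_of_one_le hd.1 hM
  have h1 : 81 * (dG * k * k ^ 2) ≤ 100 * (d * dM * J) := by
    refine le_of_mul_le_mul_right ?_ hBA
    calc _ = dG * k * (9 * B * (9 * (k * A) ^ 2)) := by ring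
      _ ≤ dG * k * (10 * P2 * (10 * X)) :=
        mul_le_mul_of_nonneg_left (mul_le_mul l2 l3 (by positivity) (by omega)) hw.le
      _ = 100 * (d * dM * P1) := by rw [h]; ring
      _ ≤ 100 * (d * dM * (B * A ^ 2 * J)) := by gcongr
      _ = _ := by ring
  have m4 : Q ∣ d * dM * s1 - 2 * (dG * k) * s2 :=
    dvd_of_eq' (Dvd.dvd.sub (Dvd.dvd.add (Dvd.dvd.mul_left m3 (dG * k * P2))
      (Dvd.dvd.mul_left m2 (2 * (dG * k)))) (Dvd.dvd.mul_left m1 (d * dM))) (by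
        linear_combination (-1) * h)
  have hk2 : dG * k ≤ dG * k * k ^ 2 := le_mul_of_one_le_right hw.le (one_le_pow₀ hk)
  have h2 : d * dM + 2 * (dG * k) < Q ∧ (d * dM = 2 * (dG * k) → k = 1) := by
    rcases hc with ⟨rfl, h2⟩ | ⟨h2, rfl, h3, h4⟩
    · have h3 : d * dM ≤ 2 * 2 := mul_le_mul hd.2 h2 (by omega) (by omega)
      refine ⟨by omega, fun _ => ?_⟩
      by_contra hc
      have h4 : 2 ^ 3 ≤ k ^ 3 := pow_le_pow_left₀ (by norm_num) (by omega) 3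
      have h5 : k ^ 3 ≤ dG * k ^ 3 := le_mul_of_one_le_left (by positivity) hG
      have : dG * k * k ^ 2 = dG * k ^ 3 := by ring
      omega
    · refine ⟨?_, fun h5 => Int.eq_one_of_mul_eq_one_left (by omega) (show dG * k = 1 by omega)⟩
      by_contra hc
      have h5 : d * 1 * J ≤ 2 * Q ^ 2 := by rw [mul_one]; exact mul_le_mul hd.2 h2 (by omega) (by omega)
      have h6 : dG ^ 2 ≤ 3 ^ 2 := pow_le_pow_left₀ (by omega) h3 2
      have h7 : (dG * k) ^ 3 ≤ 3 ^ 2 * (dG * k * k ^ 2) :=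
        calc _ = dG ^ 2 * (dG * k * k ^ 2) := by ring
          _ ≤ _ := mul_le_mul_of_nonneg_right h6 (by omega)
      have h8 : (Q - 2) ^ 3 ≤ (2 * (dG * k)) ^ 3 := pow_le_pow_left₀ (by omega) (by omega) 3
      rw [mul_pow] at h8
      have h9 : 81 * (Q - 2) ^ 3 ≤ 14400 * Q ^ 2 := by omega
      obtain ⟨c, rfl⟩ : ∃ c, Q = c + 256 := ⟨Q - 256, by ring⟩
      have hc0 : 0 ≤ c := by omega
      nlinarith [pow_nonneg hc0 2, pow_nonneg hc0 3]
  have h3 : d * dM = 2 * (dG * k) := by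
    have := Int.eq_zero_of_abs_lt_dvd m4 (by
      rw [abs_lt]; rcases hs1 with rfl | rfl <;> rcases hs2 with rfl | rfl <;> omega)
    rcases hs1 with rfl | rfl <;> rcases hs2 with rfl | rfl <;> omega
  obtain rfl := h2.2 h3
  rw [h3, mul_comm 2, mul_assoc] at h
  have h4 := mul_left_cancel₀ hw.ne' h
  rw [one_mul] at u3
  have h5 : P2 * (100 * X) ≤ B * (111 * A ^ 2) := mul_le_mul u2 u3 (by omega) hB.le
  have h6 : B * A ^ 2 ≤ B * A ^ 2 * J := le_mul_of_one_le_right hBA.le hJ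
  have e1 : P2 * (100 * X) = 100 * (P2 * X) := by ring
  have e2 : B * (111 * A ^ 2) = 111 * (B * A ^ 2) := by ring
  omega

structure Hint : Type where
  key : ℕ
  e : ℕ
  T : ℕ
  a2 : ℕ
  a3 : ℕ
  T5 : ℕ
  R1 : List ℕ
  R2 : List ℕ

def psOK (G : Sh) (f : ℕ) (M : Sh) (g D : ℕ) (R1 R2 : List ℕ) (T : ℕ) : Bool :=
  decide (1 ≤ D) && decide (R1.length ≤ 3) && decide (R2.length ≤ 3) &&
    ((R1.sum == R2.sum + 2 * D && decide (dmax M.t M.n ≤ 2) && decide (36 ≤ T)) ||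
      ((R1.sum == R2.sum + 2 * D + 1 || R1.sum == R2.sum + 2 * D + 2) && dmax M.t M.n == 1 &&
        decide (dmax G.t G.n ≤ 3) && decide (256 ≤ T))) &&
    (numL G.t G.n f ++ denL M.t M.n g ++ R2).isPerm (numL M.t M.n g ++ denL G.t G.n f ++ R1) &&
    R1.all (fun k => decide (1 ≤ k)) && R2.all (fun k => decide (1 ≤ k))

lemma mem_app2 {P : ℕ → Prop} {a b : List ℕ} (ha : ∀ k ∈ a, P k) (hb : ∀ k ∈ b, P k) :
    ∀ k ∈ a ++ b, P k := by
  intro k hk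
  rcases List.mem_append.1 hk with h | h
  exacts [ha k h, hb k h]

lemma Ctx.psOK_sound {t t1 : Ty} {n f n1 g p a y T : ℕ} (C : Ctx t n f t1 n1 g p a y)
    {R1 R2 : List ℕ} (hT : T ≤ p ^ a) (hP : BigPSL p y)
    (h : psOK (mkSh t n) f (mkSh t1 n1) g (f * tN t n - g * tN t1 n1) R1 R2 T = true) : False := by
  simp only [psOK, mkSh, Bool.and_eq_true, decide_eq_true_eq, Bool.or_eq_true, beq_iff_eq,
    List.isPerm_iff, List.all_eq_true] at h
  obtain ⟨⟨⟨⟨⟨⟨h1, h2⟩, h3⟩, h4⟩, h5⟩, h6⟩, h7⟩ := h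
  obtain ⟨w, hw, e1⟩ := C.eqPP
  obtain ⟨k, e, d, hk, he, h30, hd, e2⟩ := hP.form C.hv.hp C.pow_dvd
  have hQ := C.hQ
  have e3 := PP_perm (p ^ a) h5
  rw [PP_append, PP_append _ _ R1] at e3
  have hpos := PP_pos hQ (mem_app2 (numL_pos C.hv1.hS C.hg) (denL_pos C.hv.hS C.hf))
  have hM := td_le_dmax C.hv1.hS ((p ^ a) ^ g)
  have hG := td_le_dmax C.hv.hS ((p ^ a) ^ f)
  have hM0 := td_pos (q := (p ^ a) ^ g) C.hv1.hS
  have hG0 := td_pos (q := (p ^ a) ^ f) C.hv.hS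
  rw [pow_mul, ← Nat.cast_pow] at h30 e2
  generalize td t1 n1 ((p ^ a) ^ g) = dM at *
  generalize td t n ((p ^ a) ^ f) = dG at *
  generalize f * tN t n - g * tN t1 n1 = D at *
  generalize p ^ a = Q at *
  have e4 : dG * w * PP Q R2 = dM * PP Q R1 := by
    refine Nat.eq_of_mul_eq_mul_left hpos ?_
    zify at e1 e3 ⊢
    linear_combination (PP Q R2) * e1 + dM * e3
  have hQ36 : 36 ≤ Q := by omega
  obtain ⟨s1, a1, b1⟩ := PP_mod (show 1 ≤ Q by omega) h6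
  obtain ⟨s2, a2, b2⟩ := PP_mod (show 1 ≤ Q by omega) h7
  have l1 := PP_ge' hQ36 h6 h2
  have l2 := PP_ge' hQ36 h7 h3
  have u1 := PP_le Q R1
  have u2 := PP_le Q R2
  obtain ⟨j, hj, hc⟩ : ∃ j, R1.sum = R2.sum + D * 2 + j ∧ ((j = 0 ∧ dM ≤ 2) ∨
      (j ≤ 2 ∧ dM = 1 ∧ dG ≤ 3 ∧ 256 ≤ Q)) := ⟨R1.sum - (R2.sum + D * 2), by omega, by omega⟩
  rw [hj, pow_add, pow_add, pow_mul] at l1 u1
  have hA : (0 : ℤ) < (Q : ℤ) ^ D := by positivity
  refine ps_arith (Q := Q) (A := (Q : ℤ) ^ D) (B := (Q : ℤ) ^ R2.sum) (J := (Q : ℤ) ^ j)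
    (d := d) (dM := dM) (dG := dG) (by omega) (dvd_pow_self _ (by omega)) hA (by positivity)
    (one_le_pow₀ (by omega)) (by exact_mod_cast l1) (by exact_mod_cast u1) (by exact_mod_cast l2)
    (by exact_mod_cast u2) a1 a2 b1 b2 (by omega) (by omega) (by omega) hk he h30 ?_ ?_
  · rcases hc with ⟨rfl, hc⟩ | ⟨c1, c2, c3, c4⟩
    · exact Or.inl ⟨by simp, by omega⟩
    · exact Or.inr ⟨pow_le_pow_right₀ (by omega) c1, by omega, by omega, by omega⟩
  · apply mul_left_cancel₀ hA.ne'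
    zify at e4 hw
    rw [hw] at e2
    linear_combination (-(d * (Q : ℤ) ^ D)) * e4 + dG * (PP Q R2) * e2

def numChk (G : Sh) (f : ℕ) (M : Sh) (g p a : ℕ) : Bool :=
  force (p ^ a) fun Q => !vq G.t G.n (Q ^ f) || !vq M.t M.n (Q ^ g) ||
    force (ord G.t G.n (Q ^ f)) fun z => force (ord M.t M.n (Q ^ g)) fun x =>
      z % x != 0 || force (z / x) (notNP p)

lemma Ctx.numChk_sound {t t1 : Ty} {n f n1 g p a y : ℕ} (C : Ctx t n f t1 n1 g p a y)
    (h : numChk (mkSh t n) f (mkSh t1 n1) g p a = true) : False := by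
  have v := C.hv.vq
  have v1 := C.hv1.vq
  rw [pow_mul] at v v1
  simp only [numChk, mkSh, force_eq, v, v1, ← C.he, Bool.not_true, Bool.false_or,
    Nat.mul_mod_right, bne_self_eq_false,
    Nat.mul_div_cancel_left _ (ord_pos C.hq1 C.hv1.hS)] at h
  exact notNP_sound C.hv.hp h C.hy

def stopC (G : Sh) (f : ℕ) (M : Sh) (g D : ℕ) (H : Hint) (c T : ℕ) : Bool :=
  (H.T != 0 && decide (H.T ≤ T)) ||
  force (g * (2 * M.N + M.r)) fun u => force (f * (2 * G.N + G.r)) fun v =>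
    expFail (3 * D + u) v (2 * dmax M.t M.n * c4 c) T ||
    (expFail (4 * D + u) v (2 * dmax M.t M.n * c6 c) T &&
      (expFail (3 * D + u) v (2 * dmax M.t M.n * 4) T || psOK G f M g D H.R1 H.R2 T))

def isSV (t : Ty) : Bool := t == .Sz || t == .V4

def p1cand (G : Sh) (f : ℕ) (M : Sh) (g : ℕ) (H : Hint) : Bool :=
  force (f * G.N - g * M.N) fun D =>
    (H.T == 0 || negFail (numL G.t G.n f ++ denL M.t M.n g) (numL M.t M.n g ++ denL G.t G.n f)
      (dmax M.t M.n) H.e H.T) &&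
    (G.t == .Re || M.t == .Re || D == 0 || (stopC G f M g D H 2 (2 ^ H.a2) &&
      (List.range' 1 (H.a2 - 1)).all (numChk G f M g 2))) &&
    (isSV G.t || isSV M.t || (stopC G f M g D H 3 (3 ^ H.a3) &&
      (List.range' 1 (H.a3 - 1)).all (numChk G f M g 3))) &&
    (isSV G.t || isSV M.t || G.t == .Re || M.t == .Re || (stopC G f M g D H 5 H.T5 &&
      decide (H.T5 ≤ 530) && (decide (H.T5 ≤ 5) || primesL.all fun p => decide (p < 5) ||
        decide (H.T5 ≤ p) || [1, 2, 3].all fun a => decide (H.T5 ≤ p ^ a) || numChk G f M g p a)))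

lemma Ctx.stopC_sound {t t1 : Ty} {n f n1 g p a y T c : ℕ} (C : Ctx t n f t1 n1 g p a y)
    {H : Hint} (hT : T ≤ p ^ a) (h4 : c4 c = c4 p) (h6 : c6 c = c6 p)
    (hn : H.T = 0 ∨ negFail (numL t n f ++ denL t1 n1 g) (numL t1 n1 g ++ denL t n f)
      (dmax t1 n1) H.e H.T = true)
    (h : stopC (mkSh t n) f (mkSh t1 n1) g (f * tN t n - g * tN t1 n1) H c T = true) : False := by
  have hQ := C.hQ
  simp only [stopC, force_eq, Bool.or_eq_true, Bool.and_eq_true, bne_iff_ne, ne_eq,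
    decide_eq_true_eq, h4, h6] at h
  rcases h with ⟨h1, h2⟩ | h | ⟨h1, h2⟩
  · obtain ⟨w, -, e1⟩ := C.eqPP
    exact negFail_sound (hn.resolve_left h1) hQ (by omega)
      (mem_app2 (numL_pos C.hv.hS C.hf) (denL_pos C.hv1.hS C.hg))
      (mem_app2 (numL_pos C.hv1.hS C.hg) (denL_pos C.hv.hS C.hf)) (td_pos C.hv1.hS)
      (td_le_dmax C.hv1.hS _) (Dvd.intro_left _ e1)
  · exact expFail_sound h hT (by omega) (C.size (C.hy.U4 C.hv.hp C.pow_dvd))
  · rcases C.hy.U6 C.hv.hp C.pow_dvd with h3 | h3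
    · exact expFail_sound h1 hT (by omega) (C.size h3)
    · rcases h2 with h2 | h2
      · exact expFail_sound h2 hT (by omega) (C.size (h3.cube C.hv.hp C.pow_dvd))
      · exact C.psOK_sound hT h3 h2

lemma Val.of_isSV {t : Ty} {n p f : ℕ} (hv : Val t n p f) (h : isSV t = true) : p = 2 := by
  simp only [isSV, Bool.or_eq_true, beq_iff_eq] at h
  rcases h with rfl | rfl
  exacts [hv.Sz.1, hv.V4.1]

lemma Val.of_Re {t : Ty} {n p f : ℕ} (hv : Val t n p f) (h : t = .Re) : p = 3 := by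
  subst h; exact hv.Re.1

lemma Ctx.p1cand_sound {t t1 : Ty} {n f n1 g p a y : ℕ} (C : Ctx t n f t1 n1 g p a y)
    {H : Hint} (h : p1cand (mkSh t n) f (mkSh t1 n1) g H = true) : False := by
  have E : ∀ t n, (mkSh t n).t = t ∧ (mkSh t n).n = n ∧ (mkSh t n).N = tN t n :=
    fun _ _ => ⟨rfl, rfl, rfl⟩
  simp only [p1cand, force_eq, Bool.or_eq_true, Bool.and_eq_true, beq_iff_eq, E,
    decide_eq_true_eq, List.all_eq_true] at h
  obtain ⟨⟨⟨hn, h2⟩, h3⟩, h5⟩ := h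
  have hp := C.hv.hp
  have ha := C.ha
  by_cases c2 : p = 2
  · rcases h2 with ((h | h) | h) | ⟨h, h'⟩
    · have := C.hv.of_Re h; omega
    · have := C.hv1.of_Re h; omega
    · exact C.odd_of_zero h c2
    · subst c2
      by_cases c : H.a2 ≤ a
      · exact C.stopC_sound (Nat.pow_le_pow_right (by norm_num) c) rfl rfl hn h
      · exact C.numChk_sound (h' a (by rw [List.mem_range'_1]; omega))
  by_cases c3 : p = 3
  · rcases h3 with (h | h) | ⟨h, h'⟩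
    · exact c2 (C.hv.of_isSV h)
    · exact c2 (C.hv1.of_isSV h)
    · subst c3
      by_cases c : H.a3 ≤ a
      · exact C.stopC_sound (Nat.pow_le_pow_right (by norm_num) c) rfl rfl hn h
      · exact C.numChk_sound (h' a (by rw [List.mem_range'_1]; omega))
  rcases h5 with (((h | h) | h) | h) | ⟨⟨h, h'⟩, h''⟩
  · exact c2 (C.hv.of_isSV h)
  · exact c2 (C.hv1.of_isSV h)
  · exact c3 (C.hv.of_Re h)
  · exact c3 (C.hv1.of_Re h)
  by_cases c : H.T5 ≤ p ^ a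
  · exact C.stopC_sound c (by simp [c4, c2]) (by simp [c6, c2, c3]) hn h
  have h5 : 5 ≤ p := by
    have := hp.two_le
    rcases hp.eq_two_or_odd with h | h <;> omega
  have h6 : p ≤ p ^ a := Nat.le_self_pow (by omega) _
  have h7 : a ≤ 3 := by
    by_contra hc
    have : 5 ^ 4 ≤ p ^ a := (Nat.pow_le_pow_left h5 4).trans (Nat.pow_le_pow_right hp.pos (by omega))
    omega
  rcases h'' with h'' | h''
  · omega
  rcases h'' p (mem_primesL hp (by omega)) with (h8 | h8) | h8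
  · omega
  · omega
  · rcases h8 a (by simp only [List.mem_cons, List.not_mem_nil, or_false]; omega) with h9 | h9
    · exact c h9
    · exact C.numChk_sound h9

end Pool.Agent.Lib.MP_343319_al
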