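import Pool.Agent.Lib.MP_343319_al.P1s

namespace Pool.Agent.Lib.MP_343319_al

def isTw (t : Ty) : Bool := t == .Sz || t == .Re || t == .V4

def spec (t : Ty) (n f : ℕ) (t1 : Ty) (n1 g : ℕ) : Bool :=
  (t == t1 && n == n1 && f == g) || (isTw t && f % 2 == 0) || (isTw t1 && g % 2 == 0) ||
  (g == 1 && ((t == .A && f == 2 && n1 == n && (t1 == .D || t1 == .E)) ||
    (t == .A && n == 2 && f == 2 && t1 == .A && n1 == 2) ||
    (t == .A && n == 2 && f == 3 && t1 == .Re) || (t == .A && n == 3 && f == 2 && t1 == .G2) ||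
    (t == .B && n == 2 && f == 3 && t1 == .T4) || (t == .U && n == 3 && f == 1 && t1 == .Re)))

lemma Val.odd_of_isTw {t : Ty} {n p a f : ℕ} (hv : Val t n p (a * f)) (h : isTw t = true) :
    f % 2 ≠ 0 := by
  have h1 : (a * f) % 2 = 1 := by
    simp only [isTw, Bool.or_eq_true, beq_iff_eq] at h
    rcases h with (rfl | rfl) | rfl
    exacts [hv.Sz.2.1, hv.Re.2.1, hv.V4.2.1]
  intro h2
  simp [Nat.mul_mod, h2] at h1

lemma Ctx.same {t : Ty} {n f p a y : ℕ} (C : Ctx t n f t n f p a y) : False := by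
  have h1 := C.he
  have h2 := ord_pos C.hq C.hv.hS
  have h3 := Nat.mul_le_mul_left (ord t n ((p ^ a) ^ f)) C.hy.ge
  omega

lemma Ctx.spec_sound {t t1 : Ty} {n f n1 g p a y : ℕ} (C : Ctx t n f t1 n1 g p a y)
    (h : spec t n f t1 n1 g = true) : False := by
  simp only [spec, Bool.or_eq_true, Bool.and_eq_true, beq_iff_eq] at h
  have hS := C.hv1.hS
  rcases h with ((⟨⟨rfl, rfl⟩, rfl⟩ | ⟨h1, h2⟩) | ⟨h1, h2⟩) | ⟨rfl, h⟩
  · exact C.same
  · exact C.hv.odd_of_isTw h1 h2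
  · exact C.hv1.odd_of_isTw h1 h2
  rcases h with ((((⟨⟨⟨rfl, rfl⟩, rfl⟩, rfl | rfl⟩ | ⟨⟨⟨⟨rfl, rfl⟩, rfl⟩, rfl⟩, rfl⟩) |
    ⟨⟨⟨rfl, rfl⟩, rfl⟩, rfl⟩) | ⟨⟨⟨rfl, rfl⟩, rfl⟩, rfl⟩) | ⟨⟨⟨rfl, rfl⟩, rfl⟩, rfl⟩) |
    ⟨⟨⟨rfl, rfl⟩, rfl⟩, rfl⟩
  · exact spF2 C
  · exact spF3 C
  · exact spA C
  all_goals obtain rfl : n1 = 0 := by simpa [vS] using hS
  exacts [spB C, spC C, spD C, spE C]

def hiF (W W1 N1 g : ℕ) : ℕ := if W = 0 then 3 * (g * N1) + 53 else (g * W1 + 18) / W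

def p1L (L : List Sh) (G : Sh) (hints : List Hint) : Bool :=
  force (G.N - G.r) fun W => L.all fun M => force (M.N - M.r) fun W1 =>
    force (M.P / Nat.gcd M.P G.P) fun P => force (M.H * W - G.H * W1) fun Y =>
      force (if Y = 0 then max 3 G.H else max 3 (min G.H (18 * G.H / Y))) fun gm =>
        decide (hiF W W1 M.N gm < P) || (List.range' 1 gm).all fun g => force (g * M.N) fun v =>
          force (v / (G.N * P)) fun u0 => (List.range' u0 (hiF W W1 M.N g / P + 1 - u0)).all fun u =>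
            force (u * P) fun f => decide (f * G.N < v) || Nat.gcd f g != 1 ||
              !omOK G.t G.n f M.t M.n g || spec G.t G.n f M.t M.n g ||
              force ((M.code * 64 + g) * 100000 + f) fun key =>
                match hints.find? fun H => H.key == key with
                | none => false
                | some H => p1cand G f M g H

lemma hiF_mono (W W1 N1 : ℕ) {g g' : ℕ} (h : g ≤ g') : hiF W W1 N1 g ≤ hiF W W1 N1 g' := by
  simp only [hiF]
  split_ifs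
  · have := Nat.mul_le_mul_right N1 h; omega
  · exact Nat.div_le_div_right (by have := Nat.mul_le_mul_right W1 h; omega)

lemma a1_arith {a m w k e d : ℤ} (ha : 0 < a) (hm : 0 < m) (hw : 0 < w) (hk : 1 ≤ k)
    (he : e = 1 ∨ e = -1) (h30 : 30 ≤ k * a - e) (hd : 1 ≤ d ∧ d ≤ 2)
    (h : d * ((a * m) ^ 2 - 1) = w * k * ((k * a - e) * (k * a - 2 * e))) : a ≤ 8 * m ^ 2 := by
  have he2 : e ^ 2 = 1 := by rcases he with rfl | rfl <;> norm_num
  have h12 : a ∣ d + 2 * (w * k) :=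
    ⟨d * a * m ^ 2 - w * k * (k * k * a - 3 * k * e), by
      linear_combination (-1) * h - 2 * w * k * he2⟩
  have hw2 : 0 < w * k := by positivity
  have h13 := Int.le_of_dvd (by omega) h12
  have h14 := quad_lo he h30
  have h15 : (k * a) ^ 2 ≥ a ^ 2 := pow_le_pow_left₀ ha.le (le_mul_of_one_le_left ha.le hk) 2
  have h16 : 9 * (w * k) ≤ 20 * m ^ 2 := by
    refine le_of_mul_le_mul_right ?_ (pow_pos ha 2)
    calc _ = w * k * (9 * a ^ 2) := by ring
      _ ≤ w * k * (10 * ((k * a - e) * (k * a - 2 * e))) :=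
        mul_le_mul_of_nonneg_left (by omega) hw2.le
      _ = 10 * (d * ((a * m) ^ 2 - 1)) := by rw [h]; ring
      _ ≤ 10 * (2 * (a * m) ^ 2) := by
        have : 0 < (a * m) ^ 2 := by positivity
        have := mul_le_mul hd.2 (show (a * m) ^ 2 - 1 ≤ (a * m) ^ 2 by omega) (by omega) (by omega)
        omega
      _ = _ := by ring
  have := pow_pos hm 2
  omega

lemma Ctx.A1 {t1 : Ty} {f n1 g p a y : ℕ} (C : Ctx .A 2 f t1 n1 g p a y) :
    f ≤ 3 * (g * tN t1 n1) + 53 := by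
  have hQ := C.hQ
  have hd := C.pow_dvd
  obtain ⟨D, hD⟩ := Nat.exists_eq_add_of_le C.nu_le
  rw [hD, Nat.add_sub_cancel_left] at hd
  change f * 1 = _ at hD
  rw [mul_one] at hD
  rcases C.hy.U6 C.hv.hp hd with h1 | h1
  · have h2 := C.hv1.sq_le
    have h3 := A2_lt _ C.hq
    have h4 : c6 p < 2 ^ (53 + 1) := by simp only [c6]; split_ifs <;> omega
    rw [pow_mul p a] at h1 h2
    rw [← C.he] at h3
    have h5 : (p ^ a) ^ (D * 4 + g * (2 * tN t1 n1)) ≤ c6 p * (p ^ a) ^ (f * 3) :=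
      calc _ = ((p ^ a) ^ D) ^ 4 * ((p ^ a) ^ g) ^ (2 * tN t1 n1) := by
            rw [pow_add, pow_mul _ D, pow_mul _ g]
        _ ≤ _ := Nat.mul_le_mul h1 h2
        _ = c6 p * (ord t1 n1 ((p ^ a) ^ g) * y) := by ring
        _ ≤ _ := by rw [pow_mul _ f]; exact Nat.mul_le_mul_left _ h3
    have := pow_le_bound hQ h5 h4
    have e : g * (2 * tN t1 n1) = 2 * (g * tN t1 n1) := by ring
    omega
  · obtain ⟨k, e, d, hk, he, h30, hd', e2⟩ := h1.form C.hv.hp hd
    obtain ⟨w, hw⟩ := pow_dvd_ord (q := (p ^ a) ^ g) C.hv1.hS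
    have h2 := td_ord_A2 ((p ^ a) ^ f)
    have h3 := td_pos (q := (p ^ a) ^ f) C.hv.hS
    have h4 := ord_pos C.hq1 C.hv1.hS
    rw [← C.he, hw] at h2
    rw [hw] at h4
    have hw0 := Nat.pos_of_mul_pos_left h4
    rw [pow_mul, ← Nat.cast_pow] at h30 e2
    rw [← pow_mul _ g] at h2
    generalize td .A 2 ((p ^ a) ^ f) = dG at *
    generalize g * tN t1 n1 = v at *
    generalize p ^ a = Q at *
    rw [hD, pow_add] at h2
    have hA : 0 < Q ^ D := by positivity
    have hm : 0 < Q ^ v := by positivity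
    have h7 : 1 ≤ (Q ^ v * Q ^ D) ^ 2 := Nat.one_le_pow _ _ (Nat.mul_pos hm hA)
    have h8 : (Q : ℤ) ^ D ≤ 8 * ((Q : ℤ) ^ v) ^ 2 := by
      zify [h7] at h2 hA hm h3 hw0
      refine a1_arith (w := dG * w) (d := d) hA hm (by positivity) hk he h30 (by omega) ?_
      apply mul_left_cancel₀ (mul_pos hA hm).ne'
      linear_combination (-d) * h2 + dG * w * (Q : ℤ) ^ v * e2
    have h9 : Q ^ D ≤ 8 * Q ^ (v * 2) := by rw [pow_mul]; exact_mod_cast h8
    have := pow_le_bound (k := 3) hQ h9 (by norm_num)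
    omega

lemma prod_dvd_of_coprime {X : ℕ} {L : List ℕ} (h : L.Pairwise Nat.Coprime) (hd : ∀ l ∈ L, l ∣ X) :
    L.prod ∣ X := by
  induction L with
  | nil => simp
  | cons l L ih =>
    rw [List.pairwise_cons] at h
    rw [List.prod_cons]
    exact Nat.Coprime.mul_dvd_of_dvd_of_dvd (Nat.coprime_list_prod_right_iff.2 h.1) (hd l (by simp))
      (ih h.2 fun j hj => hd j (by simp [hj]))

lemma PRs_prime : ∀ l ∈ PRs, l.Prime ∧ 5 ≤ l := by
  simp only [PRs, List.mem_cons, List.not_mem_nil, or_false]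
  rintro l (rfl | rfl | rfl | rfl | rfl | rfl | rfl | rfl | rfl | rfl | rfl | rfl) <;> norm_num

lemma piS_pos (t : Ty) (n : ℕ) : 0 < piS t n :=
  List.prod_pos fun l hl => by have := (PRs_prime l (List.mem_of_mem_filter hl)).2; omega

lemma tH_le_W {t : Ty} {n : ℕ} (h : vS t n = true) (h2 : ¬(t = .A ∧ n = 2)) :
    tH t n + 6 * tr t n ≤ 6 * tN t n := by
  have := two_tri n
  cases t <;> simp only [tN, tr, tH, vS, decide_eq_true_eq, true_and] at h h2 ⊢ <;> try omega
  · have : 3 * (n - 1) ≤ n * (n - 1) := Nat.mul_le_mul_right _ (by omega)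
    omega
  · by_cases h3 : n = 3
    · subst h3; norm_num
    · have : 4 * (n - 1) ≤ n * (n - 1) := Nat.mul_le_mul_right _ (by omega)
      split_ifs <;> omega
  · have : 2 * n ≤ n * n := Nat.mul_le_mul_right _ (by omega)
    omega
  · have : n * 3 ≤ n * (n - 1) := Nat.mul_le_mul_left _ (by omega)
    omega
  · have : n * 3 ≤ n * (n - 1) := Nat.mul_le_mul_left _ (by omega)
    omega

section
variable {t t1 : Ty} {n f n1 g p a y : ℕ} (C : Ctx t n f t1 n1 g p a y)
include C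

lemma Ctx.dvd : ord t1 n1 ((p ^ a) ^ g) ∣ ord t n ((p ^ a) ^ f) := Dvd.intro _ C.he

lemma Ctx.E1 {E : ℕ} (hE : 8192 * dmax t1 n1 < 2 ^ (E + 1)) :
    f * tN t n + g * tr t1 n1 ≤ g * tN t1 n1 + f * tr t n + E := by
  have h1 := C.size (C.hy.U4 C.hv.hp C.pow_dvd)
  have h2 : c4 p ≤ 4096 := by simp only [c4]; split_ifs <;> omega
  have h3 := pow_le_bound (k := E) C.hQ h1 (by
    have := Nat.mul_le_mul_left (2 * dmax t1 n1) h2
    omega)
  have h4 := C.nu_le
  rw [mul_add, mul_add, mul_left_comm g, mul_left_comm f] at h3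
  omega

lemma Ctx.top_om : (g * tH t1 n1 ≤ 6 ∧ g ≤ 3) ∨ inOm (g * tH t1 n1) t n f = true := by
  by_cases h : g * tH t1 n1 < 3 ∨ g * tH t1 n1 = 6
  · have := Nat.mul_le_mul_left g (tH_ge C.hv1.hS).1
    omega
  · exact Or.inr (om_incl C.hQ (by omega) (by omega) C.hv1.hS C.hv.hS C.dvd
      (tH_cond C.hv1.hS C.hg) (inOm_tH C.hv1.hS C.hg))

lemma Ctx.g_le (hc : Nat.gcd f g = 1) (h : inOm (g * tH t1 n1) t n f = true) : g ≤ tH t n := by
  obtain ⟨s, hs, h1, -⟩ := inOm_iff.1 h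
  have h2 := facs_prop C.hv.hS hs
  exact (Nat.le_of_dvd (top_pos h2.1) (Nat.Coprime.dvd_of_dvd_mul_left (Nat.Coprime.symm hc)
    ((Dvd.intro _ rfl).trans h1))).trans h2.2.2

lemma Ctx.pi_dvd : piS t1 n1 / Nat.gcd (piS t1 n1) (piS t n) ∣ f := by
  have h1 : piS t1 n1 ∣ f * piS t n := by
    refine prod_dvd_of_coprime (List.Pairwise.filter _ (by decide +kernel)) fun l hl => ?_
    simp only [List.mem_filter, List.any_eq_true, beq_iff_eq, ← Nat.dvd_iff_mod_eq_zero] at hl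
    obtain ⟨hl, s, hs, h1⟩ := hl
    obtain ⟨hp, h5⟩ := PRs_prime l hl
    have h2 := Nat.le_of_dvd (top_pos (facs_prop C.hv1.hS hs).1) h1
    have h3 : top s ≤ g * top s := Nat.le_mul_of_pos_left _ C.hg
    have h4 : l ∣ g * top s := Dvd.dvd.mul_left h1 _
    obtain ⟨s', hs', h6, -⟩ := inOm_iff.1 (om_incl C.hQ (by omega) (by
      rintro ⟨-, h⟩
      rw [h] at h4
      have := Nat.le_of_dvd (by norm_num) h4
      interval_cases l
      · omega
      · norm_num at hp) C.hv1.hS C.hv.hS C.dvd (Or.inr (top_cond C.hg (by omega)))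
      (inOm_top C.hv1.hS C.hg hs))
    rcases (Nat.Prime.dvd_mul hp).1 (h4.trans h6) with h7 | h7
    · exact Dvd.dvd.mul_right h7 _
    · refine Dvd.dvd.mul_left (List.dvd_prod ?_) _
      simp only [List.mem_filter, List.any_eq_true, beq_iff_eq, ← Nat.dvd_iff_mod_eq_zero]
      exact ⟨hl, s', hs', h7⟩
  obtain ⟨c, hc⟩ := h1
  obtain ⟨s, h2, -⟩ := ratio (x := c) (y := f) (b := piS t n) (piS_pos t1 n1) (by rw [hc, mul_comm])
  exact Dvd.intro_left _ h2.symm

lemma Ctx.rank_le (hc : Nat.gcd f g = 1) (hn : n ≤ 24) : n1 ≤ 47 := by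
  by_contra hcon
  have hcl := cl_of_pos C.hv1.hS (by omega)
  have h1 := lam2 (m := n1) (X := f) (by omega) C.hf fun l hl h25 hm => by
    obtain ⟨j, a, b⟩ := lam1 C.hQ C.hv.hS hn C.hv1.hS C.hg C.dvd hl h25 hm
    exact ((Nat.Prime.dvd_mul hl).1 ((Dvd.intro_left _ rfl).trans b)).resolve_right a
  have h2 : g ≤ tH t n := by
    refine C.g_le hc (C.top_om.resolve_left fun h => ?_)
    have h3 : tH t1 n1 ≤ g * tH t1 n1 := Nat.le_mul_of_pos_left _ C.hg
    have : 25 * st t1 ≤ 2 * tH t1 n1 := by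
      rcases hcl with rfl | rfl | rfl | rfl | rfl <;> simp only [st, tH] <;>
        first | omega | (split_ifs <;> omega)
    have := st_pos t1
    omega
  have h3 := tN_le (n := n1) hcl
  have h4 : n1 ≤ n1 * n1 := Nat.le_mul_self _
  by_cases h5 : t = .A ∧ n = 2
  · obtain ⟨rfl, rfl⟩ := h5
    have := C.A1
    have := Nat.mul_le_mul h2 h3
    simp only [tH] at this
    omega
  · have h6 := C.E1 (E := n1) (by
      have h6 := dmax_le hcl (show 4 ≤ n1 by omega)
      have h7 : n1 - 20 < 2 ^ (n1 - 20) := Nat.lt_two_pow_self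
      have : 2 ^ (n1 + 1) = 2 ^ (n1 - 20) * 2 ^ 21 := by rw [← pow_add]; congr 1; omega
      omega)
    have h7 := tH_le_W C.hv.hS h5
    have h8 := (tH_ge C.hv.hS).1
    obtain ⟨W, hW⟩ := Nat.exists_eq_add_of_le (tr_le_tN C.hv.hS).1
    rw [hW] at h6 h7
    rw [mul_add] at h6
    have h9 : g * tN t1 n1 ≤ 6 * W * (n1 * n1) := Nat.mul_le_mul (by omega) h3
    have h10 : n1 ≤ W * (n1 * n1) := h4.trans (Nat.le_mul_of_pos_left _ (by omega))
    have h11 : W * f ≤ W * (7 * (n1 * n1)) := by nlinarith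
    have := Nat.le_of_mul_le_mul_left h11 (by omega)
    omega

lemma Ctx.p1L_sound (hc : Nat.gcd f g = 1) (hn1 : n1 ≤ 47) {hints : List Hint} {L : List Sh}
    (hL : mkSh t1 n1 ∈ L) (H : p1L L (mkSh t n) hints = true) : False := by
  have E : ∀ t n, (mkSh t n).t = t ∧ (mkSh t n).n = n ∧ (mkSh t n).N = tN t n ∧
      (mkSh t n).r = tr t n ∧ (mkSh t n).H = tH t n ∧ (mkSh t n).P = piS t n :=
    fun _ _ => ⟨rfl, rfl, rfl, rfl, rfl, rfl⟩
  simp only [p1L, force_eq] at H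
  have H1 := List.all_eq_true.1 H _ hL
  simp only [Bool.or_eq_true, decide_eq_true_eq, Bool.not_eq_true', List.all_eq_true, E,
    bne_iff_ne, ne_eq] at H1
  clear H E
  obtain ⟨u, hu⟩ := C.pi_dvd
  have hE := C.E1 (E := 18) (by have := dmax_le_max (t := t1) (n := n1); omega)
  obtain ⟨W, hW⟩ := Nat.exists_eq_add_of_le (tr_le_tN C.hv.hS).1
  obtain ⟨W1, hW1⟩ := Nat.exists_eq_add_of_le (tr_le_tN C.hv1.hS).1
  have e1 : tN t n - tr t n = W := by omega
  have e2 : tN t1 n1 - tr t1 n1 = W1 := by omega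
  rw [e1, e2] at H1
  have hE' : f * W ≤ g * W1 + 18 := by
    rw [hW, hW1, mul_add, mul_add] at hE; omega
  have h1 : f ≤ hiF W W1 (tN t1 n1) g := by
    simp only [hiF]
    split_ifs with h
    · have : t = .A ∧ n = 2 := by
        by_contra hcon
        have := tH_le_W C.hv.hS hcon
        have := (tH_ge C.hv.hS).1
        omega
      obtain ⟨rfl, rfl⟩ := this
      exact C.A1
    · exact (Nat.le_div_iff_mul_le (by omega)).2 hE'
  have h2 : g ≤ if tH t1 n1 * W - tH t n * W1 = 0 then max 3 (tH t n) else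
      max 3 (min (tH t n) (18 * tH t n / (tH t1 n1 * W - tH t n * W1))) := by
    rcases C.top_om with h | h
    · split_ifs <;> omega
    · have a1 := C.g_le hc h
      have a2 := inOm_le C.hv.hS C.hf h
      split_ifs with h3
      · omega
      · have : g ≤ 18 * tH t n / (tH t1 n1 * W - tH t n * W1) := by
          rw [Nat.le_div_iff_mul_le (by omega), Nat.mul_sub]
          have b1 := Nat.mul_le_mul_right W a2
          have b2 := Nat.mul_le_mul_right (tH t n) hE'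
          have : g * (tH t1 n1 * W) ≤ 18 * tH t n + g * (tH t n * W1) := by linarith
          omega
        omega
  generalize piS t1 n1 / Nat.gcd (piS t1 n1) (piS t n) = P at *
  have hf := C.hf
  have hP : 0 < P := Nat.pos_of_mul_pos_right (hu ▸ hf)
  have hu0 : 0 < u := Nat.pos_of_mul_pos_left (hu ▸ hf)
  rcases H1 with H1 | H1
  · have := hiF_mono W W1 (tN t1 n1) h2
    have : P ≤ P * u := Nat.le_mul_of_pos_right _ hu0
    omega
  have H2 := H1 g (by have := C.hg; rw [List.mem_range'_1]; omega) u (by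
    have a1 : g * tN t1 n1 / (tN t n * P) ≤ u := by
      refine Nat.div_le_of_le_mul ?_
      have := C.nu_le
      rw [hu] at this
      linarith
    have a2 : u ≤ hiF W W1 (tN t1 n1) g / P := (Nat.le_div_iff_mul_le hP).2 (by linarith)
    rw [List.mem_range'_1]; omega)
  rw [mul_comm u P, ← hu] at H2
  rcases H2 with (((H2 | H2) | H2) | H2) | H2
  · have := C.nu_le; omega
  · exact H2 hc
  · rw [omOK_of_dvd C.hQ C.hv.hS C.hv1.hS C.hg C.dvd] at H2; cases H2
  · exact C.spec_sound H2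
  · split at H2
    · cases H2
    · exact C.p1cand_sound H2

end

end Pool.Agent.Lib.MP_343319_al
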