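import Pool.Agent.Lib.MP_343319_al.P1a

namespace Pool.Agent.Lib.MP_343319_al

open Nat

lemma Ctx.quot {t t1 : Ty} {n f n1 g p a y b c D : ℕ} (C : Ctx t n f t1 n1 g p a y)
    (hc : tR t n ((p ^ a) ^ f) * b = tR t1 n1 ((p ^ a) ^ g) * c)
    (hD : f * tN t n = g * tN t1 n1 + D) :
    td t n ((p ^ a) ^ f) * y * b = td t1 n1 ((p ^ a) ^ g) * (p ^ a) ^ D * c := by
  have a0 := td_mul_ord (q := (p ^ a) ^ f) C.hv.hS
  have a1 := td_mul_ord (q := (p ^ a) ^ g) C.hv1.hS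
  have hR := tR_pos C.hq1 C.hv1.hS
  have hQ := C.hQ
  rw [← C.he, ← pow_mul _ f (tN t n), hD, pow_add] at a0
  rw [← pow_mul _ g (tN t1 n1)] at a1
  generalize p ^ a = Q at *
  have hp : 0 < Q ^ (g * tN t1 n1) * tR t1 n1 (Q ^ g) := by positivity
  refine Nat.eq_of_mul_eq_mul_left hp ?_
  zify at a0 a1 hc ⊢
  linear_combination b * td t1 n1 (Q ^ g) * a0 - td t n (Q ^ f) * y * b * a1 +
    td t1 n1 (Q ^ g) * Q ^ (g * tN t1 n1) * Q ^ D * hc

lemma not_four_dvd (Q : ℕ) : ¬4 ∣ Q ^ 2 + 1 := by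
  have : Q % 4 = 0 ∨ Q % 4 = 1 ∨ Q % 4 = 2 ∨ Q % 4 = 3 := by omega
  rcases this with h | h | h | h <;> simp [Nat.dvd_iff_mod_eq_zero, Nat.add_mod, Nat.pow_mod, h]

lemma spA {p a y : ℕ} (C : Ctx .A 2 2 .A 2 1 p a y) : False := by
  have hQ := C.hQ
  have h := C.quot (b := 1) (c := (p ^ a) ^ 2 + 1) (D := 1) (by
    rw [tR_A2, tR_A2, sq_sub_one ((p ^ a) ^ 2), pow_one]; ring) (by simp [tN])
  have h4 := C.hy.four_dvd
  have h3 := C.hy.three_dvd
  have h2 : p ^ a % 2 = 0 → p = 2 := fun h => ((Nat.prime_dvd_prime_iff_eq Nat.prime_two C.hv.hp).1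
    (Nat.prime_two.dvd_of_dvd_pow (Nat.dvd_of_mod_eq_zero h))).symm
  have h5 : p = 2 → ¬3 ∣ p ^ a := by
    rintro rfl h
    have := Nat.prime_three.dvd_of_dvd_pow h
    omega
  rw [td_A2 _ (le_trans (by norm_num) C.hq), td_A2 _ (le_trans (by norm_num) C.hq1)] at h
  simp only [pow_one, mul_one] at h
  generalize p ^ a = Q at *
  rcases Nat.mod_two_eq_zero_or_one Q with h6 | h6
  · rw [if_pos h6, if_pos (by simp [Nat.pow_mod, h6]), one_mul, one_mul] at h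
    obtain rfl : y = Q * (Q ^ 2 + 1) := by omega
    have h7 := h5 (h2 h6)
    have h8 := h3.resolve_right fun h => h.1 (h2 h6)
    have : Q % 3 = 1 ∨ Q % 3 = 2 := by omega
    rcases this with h | h <;>
      simp [Nat.dvd_iff_mod_eq_zero, Nat.add_mod, Nat.mul_mod, Nat.pow_mod, h] at h8
  · rw [if_neg (show ¬Q % 2 = 0 by omega), if_neg (by simp [Nat.pow_mod, h6]), mul_assoc] at h
    obtain rfl : y = Q * (Q ^ 2 + 1) := by omega
    have : Q % 4 = 1 ∨ Q % 4 = 3 := by omega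
    rcases this with h | h <;>
      simp [Nat.dvd_iff_mod_eq_zero, Nat.add_mod, Nat.mul_mod, Nat.pow_mod, h] at h4

lemma spB {p a y : ℕ} (C : Ctx .A 2 3 .Re 0 1 p a y) : False := by
  have hQ := C.hQ
  have h := C.quot (b := 1) (c := (p ^ a) ^ 2 + p ^ a + 1) (D := 0) (by
    have e := ev_mul (q := p ^ a) (s := (1, 2)) (by omega) le_rfl (by norm_num)
    simp only [ev, top] at e
    norm_num at e
    rw [tR_A2, sq_sub_one, ← e]
    simp only [tR, pow_one]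
    rw [e, ← e]; ring) (by simp [tN])
  have h4 := C.hy.four_dvd
  change _ = 1 * _ * _ at h
  simp only [pow_zero, mul_one, one_mul] at h
  have h5 : 2 ∣ (p ^ a) ^ 2 + p ^ a + 1 := by
    rw [← h]; exact Dvd.dvd.mul_left ((show 2 ∣ 4 by norm_num).trans h4) _
  generalize p ^ a = Q at *
  rcases Nat.mod_two_eq_zero_or_one Q with h6 | h6 <;>
    simp [Nat.dvd_iff_mod_eq_zero, Nat.add_mod, Nat.pow_mod, h6] at h5

lemma spC {p a y : ℕ} (C : Ctx .A 3 2 .G2 0 1 p a y) : False := by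
  have h := C.quot (b := 1) (c := (p ^ a) ^ 2 + 1) (D := 0) (by
    simp only [tR, pA, pow_one]
    rw [sq_sub_one ((p ^ a) ^ 2), ← pow_mul (p ^ a) 2]; simp; ring) (by simp [tN])
  change _ = 1 * _ * _ at h
  simp only [pow_zero, mul_one, one_mul] at h
  exact not_four_dvd (p ^ a) (by rw [← h]; exact Dvd.dvd.mul_left C.hy.four_dvd _)

lemma spD {p a y : ℕ} (C : Ctx .B 2 3 .T4 0 1 p a y) : False := by
  have hQ := C.hQ
  have h := C.quot (b := 1) (c := (p ^ a) ^ 2 + 1) (D := 0) (by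
    simp only [tR, pB, pow_one]
    have e := ev_mul (q := p ^ a) (s := (4, 2)) (by omega) le_rfl (by norm_num)
    have e2 := sq_sub_one ((p ^ a) ^ 2)
    simp only [ev, top] at e
    rw [← pow_mul (p ^ a) 3, ← pow_mul (p ^ a) 3]
    rw [← pow_mul (p ^ a) 2] at e2
    norm_num at e e2 ⊢
    rw [← e, e2]; ring) (by simp [tN])
  change _ = 1 * _ * _ at h
  simp only [pow_zero, mul_one, one_mul] at h
  exact not_four_dvd (p ^ a) (by rw [← h]; exact Dvd.dvd.mul_left C.hy.four_dvd _)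

lemma spE {p a y : ℕ} (C : Ctx .U 3 1 .Re 0 1 p a y) : False := by
  have h := C.quot (b := 1) (c := p ^ a + 1) (D := 0) (by
    simp only [tR, pU, pow_one]
    simp [sq_sub_one]; ring) (by simp [tN])
  change _ = 1 * _ * _ at h
  simp only [pow_zero, mul_one, one_mul] at h
  obtain ⟨rfl, h1, h2⟩ := C.hv1.Re
  have hd : y ∣ 3 ^ a + 1 := Dvd.intro_left _ h
  obtain ⟨k, rfl⟩ : ∃ k, a = 2 * k + 1 := ⟨a / 2, by omega⟩
  rcases C.hy.three_dvd with h3 | ⟨-, h3⟩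
  · have := h3.trans hd
    rw [pow_succ] at this
    omega
  · have := h3.trans hd
    have h4 : (3 ^ 2) ^ k % 8 = 1 := by simp [Nat.pow_mod]
    rw [pow_succ, pow_mul] at this
    omega

lemma pA_sq (Q k : ℕ) : pA (Q ^ 2) k * (Q ^ 2 - 1) = pB Q (k + 1) := by
  induction k with
  | zero => simp [pA, pB]
  | succ k ih => rw [pA, pB, ← ih, ← pow_mul]; ring

lemma pow_mod_sq {Q : ℕ} (hQ : 1 ≤ Q) (n : ℕ) :
    (n % 2 = 0 ∧ Q ^ 2 - 1 ∣ Q ^ n - 1) ∨ (n % 2 = 1 ∧ Q ≤ Q ^ n ∧ Q ^ 2 - 1 ∣ Q ^ n - Q) := by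
  rcases Nat.even_or_odd' n with ⟨k, rfl | rfl⟩
  · exact Or.inl ⟨by omega, pow_sub_dvd _ (Dvd.intro _ rfl)⟩
  · refine Or.inr ⟨by omega, Nat.le_self_pow (by omega) _, ?_⟩
    rw [pow_succ Q (2 * k), ← Nat.sub_one_mul]
    exact Dvd.dvd.mul_right (pow_sub_dvd _ (Dvd.intro _ rfl)) _

lemma Ctx.three_le {t t1 : Ty} {n f n1 g p a y : ℕ} (C : Ctx t n f t1 n1 g p a y) (h : p ≠ 2) :
    3 ≤ p ^ a ∧ p ^ a % 2 = 1 := by
  have := Nat.odd_iff.1 ((C.hv.hp.odd_of_ne_two h).pow (n := a))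
  have := C.hQ
  omega

lemma tN_AD (n : ℕ) : 2 * tN .A n = 1 * (n * (n - 1)) + 0 := by simp [tN, two_tri]

lemma dvd_of_four {x y d d' b c : ℕ} (h : d * y * b = d' * 1 * c) (h4 : 4 ∣ y) (hd : d' ∣ 4) : b ∣ c := by
  have h1 : 4 * b ∣ d' * c := by
    rw [mul_one] at h
    rw [← h]; exact Nat.mul_dvd_mul_right (Dvd.dvd.mul_left h4 _) _
  exact Nat.dvd_of_mul_dvd_mul_left (by norm_num) (h1.trans (Nat.mul_dvd_mul_right hd _))

lemma spF2 {n p a y : ℕ} (C : Ctx .A n 2 .D n 1 p a y) : False := by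
  have hn : 4 ≤ n := by simpa [vS] using C.hv1.hS
  obtain ⟨h3, -⟩ := C.three_le (C.odd_of_zero (by rw [tN_AD]; simp [tN]))
  have h := C.quot (b := (p ^ a) ^ 2 - 1) (c := (p ^ a) ^ n + 1) (D := 0) (by
    obtain ⟨k, rfl⟩ : ∃ k, n = k + 1 := ⟨n - 1, by omega⟩
    simp only [tR, Nat.add_sub_cancel, pow_one]
    rw [pA_sq, pB, mul_comm 2, pow_mul, sq_sub_one]; ring) (tN_AD n)
  have h1 := dvd_of_four (x := 0) h C.hy.four_dvd (Nat.gcd_dvd_left _ _)
  generalize p ^ a = Q at *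
  have h5 : 3 * Q ≤ Q ^ 2 := by nlinarith
  have h6 : 1 ≤ Q ^ n := Nat.one_le_pow _ _ (by omega)
  rcases pow_mod_sq (Q := Q) (by omega) n with ⟨-, h2⟩ | ⟨-, h7, h2⟩
  · have := Nat.dvd_sub h1 h2
    rw [show Q ^ n + 1 - (Q ^ n - 1) = 2 by omega] at this
    have := Nat.le_of_dvd (by omega) this
    omega
  · have := Nat.dvd_sub h1 h2
    rw [show Q ^ n + 1 - (Q ^ n - Q) = Q + 1 by omega] at this
    have := Nat.le_of_dvd (by omega) this
    omega

lemma two_pow_dvd_fact (m : ℕ) : 2 ^ m ∣ (2 * m)! := by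
  induction m with
  | zero => simp
  | succ m ih =>
    rw [show 2 * (m + 1) = 2 * m + 1 + 1 by ring, Nat.factorial_succ, Nat.factorial_succ, pow_succ,
      mul_comm]
    exact Nat.mul_dvd_mul (by omega) (Dvd.dvd.mul_left ih _)

def twoP (c : ℕ) : Bool := (List.range 7).any fun i => c % 2 ^ i == 0 && decide (c < 1296 ^ 2 ^ i)

lemma twoP_spor : sporadicOrders.all twoP = true := by decide +kernel

lemma twoP_alt : (List.range' 5 7).all (fun k => twoP (k ! / 2)) = true := by decide +kernel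

lemma twoP_sound {c : ℕ} (h : twoP c = true) : ∃ i, 2 ^ i ∣ c ∧ c < 1296 ^ 2 ^ i := by
  simp only [twoP, List.any_eq_true, Bool.and_eq_true, beq_iff_eq, decide_eq_true_eq] at h
  obtain ⟨i, -, h1, h2⟩ := h
  exact ⟨i, Nat.dvd_of_mod_eq_zero h1, h2⟩

lemma sq_le_pow {m : ℕ} (h : 5 ≤ m) : (2 * m + 3) * (2 * m + 3) ≤ 10 * 2 ^ m := by
  induction m, h using Nat.le_induction with
  | base => norm_num
  | succ m hm ih => rw [pow_succ]; nlinarith

lemma NonP.two_part {p y : ℕ} (h : NonP p y) : (∃ i, 2 ^ i ∣ y ∧ y < 1296 ^ 2 ^ i) ∨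
    ∃ t n s g, Val t n s g ∧ s ≠ 2 ∧ y = ord t n (s ^ g) := by
  rcases h with ⟨k, hk, rfl⟩ | h | ⟨t, n, s, g, hv, -, rfl⟩
  · left
    by_cases h1 : k < 12
    · exact twoP_sound (List.all_eq_true.1 twoP_alt k (by rw [List.mem_range'_1]; omega))
    obtain ⟨m, hm⟩ : ∃ m, m + 1 = k / 2 := ⟨k / 2 - 1, by omega⟩
    refine ⟨m, ?_, ?_⟩
    · have h2 := (two_pow_dvd_fact (m + 1)).trans (Nat.factorial_dvd_factorial
        (show 2 * (m + 1) ≤ k by omega))
      rw [← two_mul_half (show 2 ≤ k by omega), pow_succ, mul_comm] at h2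
      exact Nat.dvd_of_mul_dvd_mul_left (by norm_num) h2
    · have h2 := sq_le_pow (show 5 ≤ m by omega)
      have h3 : k * k ≤ (2 * m + 3) * (2 * m + 3) := Nat.mul_le_mul (by omega) (by omega)
      calc k ! / 2 ≤ k ! := Nat.div_le_self _ _
        _ ≤ k ^ k := Nat.factorial_le_pow k
        _ ≤ (2 ^ k) ^ k := Nat.pow_le_pow_left Nat.lt_two_pow_self.le _
        _ ≤ (2 ^ 10) ^ 2 ^ m := by
          rw [← pow_mul, ← pow_mul]; exact Nat.pow_le_pow_right (by norm_num) (by omega)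
        _ < _ := Nat.pow_lt_pow_left (by norm_num) (by positivity)
  · exact Or.inl (twoP_sound (List.all_eq_true.1 twoP_spor y h))
  by_cases hs : s = 2
  · subst hs
    refine Or.inl ⟨g * tN t n, by rw [pow_mul]; exact pow_dvd_ord hv.hS, ?_⟩
    have h1 := ord_le_cube hv.two_le hv.hS
    rw [← pow_mul 2 g] at h1
    generalize 2 ^ (g * tN t n) = P at *
    calc _ ≤ P ^ 3 := h1
      _ < (2 ^ P) ^ 3 := Nat.pow_lt_pow_left Nat.lt_two_pow_self (by norm_num)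
      _ = 8 ^ P := by rw [← pow_mul, mul_comm, pow_mul]; norm_num
      _ ≤ _ := Nat.pow_le_pow_left (by norm_num) _
  · exact Or.inr ⟨t, n, s, g, hv, hs, rfl⟩

lemma six_pow {j : ℕ} (h : 16 ≤ j) : j * 6 ^ j ≤ 9 ^ (j - 1) := by
  induction j, h using Nat.le_induction with
  | base => norm_num
  | succ j hj ih =>
    rw [Nat.add_sub_cancel, show j = j - 1 + 1 by omega, pow_succ 9, show j - 1 + 1 = j by omega,
      pow_succ]
    nlinarith [pow_pos (show 0 < 6 by norm_num) j]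

lemma three_pow {c : ℕ} (h : 6 ≤ c) : 16 * (c + 2) < 3 ^ c := by
  induction c, h using Nat.le_induction with
  | base => norm_num
  | succ j hj ih => rw [pow_succ]; omega

lemma f3_core {Q j y p : ℕ} (hQ : 3 ≤ Q) (ho : Q % 2 = 1) (hj : 1 ≤ j) (hy : NonP p y)
    (h : Nat.gcd (2 * j) (Q ^ 2 - 1) * y * (Q ^ 2 - 1) = 2 * (Q ^ (2 * j) - 1)) : False := by
  have h8 : 8 ∣ Q ^ 2 - 1 := Nat.eight_dvd_sq_sub_one_of_odd (Nat.odd_iff.2 ho)
  have hy0 := hy.ge
  have hQ2 : 9 ≤ Q ^ 2 := by nlinarith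
  have hd0 : 0 < Nat.gcd (2 * j) (Q ^ 2 - 1) := Nat.gcd_pos_of_pos_left _ (by omega)
  have hR : 0 < Q ^ (2 * j) - 1 := pow_sub_one_pos (by omega) (by omega)
  have v1 : padicValNat 2 (Nat.gcd (2 * j) (Q ^ 2 - 1)) + padicValNat 2 y = 1 + padicValNat 2 j := by
    have a := congrArg (padicValNat 2) h
    rw [padicValNat.mul (Nat.mul_pos hd0 (by omega)).ne' (by omega),
      padicValNat.mul hd0.ne' (by omega), padicValNat.mul (by norm_num) hR.ne', pow_mul,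
      lte Nat.prime_two (by omega) hj (by omega) (Or.inr (Or.inl (by omega))),
      padicValNat.self (by norm_num)] at a
    omega
  have v2 : 2 ≤ padicValNat 2 y := (padicValNat_dvd_iff_le (by omega)).1 hy.four_dvd
  have hw : 2 ^ padicValNat 2 j ∣ j := pow_padicValNat_dvd
  have v3 : 3 ≤ padicValNat 2 (Nat.gcd (2 * j) (Q ^ 2 - 1)) := by
    have a : 2 ^ min 3 (padicValNat 2 j + 1) ∣ Nat.gcd (2 * j) (Q ^ 2 - 1) := by
      refine Nat.dvd_gcd ((pow_dvd_pow 2 (min_le_right _ _)).trans ?_)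
        ((pow_dvd_pow 2 (min_le_left _ _)).trans h8)
      rw [pow_succ, mul_comm]; exact Nat.mul_dvd_mul_left _ hw
    have := (padicValNat_dvd_iff_le hd0.ne').1 a
    omega
  have h16 : 16 ∣ j := (pow_dvd_pow 2 (show 4 ≤ padicValNat 2 j by omega)).trans hw
  have hj16 := Nat.le_of_dvd hj h16
  have hsize : Q ^ (2 * (j - 1)) ≤ j * y := by
    have a : Nat.gcd (2 * j) (Q ^ 2 - 1) ≤ 2 * j := Nat.gcd_le_left _ (by omega)
    have b : Q ^ (2 * j) = Q ^ (2 * (j - 1)) * Q ^ 2 := by rw [← pow_add]; congr 1; omega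
    have c : 1 ≤ Q ^ (2 * (j - 1)) := Nat.one_le_pow _ _ (by omega)
    refine Nat.le_of_mul_le_mul_right ?_ (show 0 < 2 * (Q ^ 2 - 1) by omega)
    calc _ = 2 * (Q ^ (2 * (j - 1)) * (Q ^ 2 - 1)) := by ring
      _ ≤ 2 * (Q ^ (2 * j) - 1) := by rw [Nat.mul_sub, ← b]; omega
      _ = _ := h.symm
      _ ≤ 2 * j * y * (Q ^ 2 - 1) := by gcongr
      _ = _ := by ring
  rcases hy.two_part with ⟨i, h1, h2⟩ | ⟨t, n, s, g, hv, hs, rfl⟩
  · have a := (padicValNat_dvd_iff_le (by omega)).1 h1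
    have b := Nat.le_of_dvd hj ((pow_dvd_pow 2 (show i + 2 ≤ padicValNat 2 j by omega)).trans hw)
    have c := six_pow hj16
    have d : 9 ^ (j - 1) ≤ Q ^ (2 * (j - 1)) := by rw [pow_mul]; exact Nat.pow_le_pow_left hQ2 _
    have e : 6 ^ j ≤ y := Nat.le_of_mul_le_mul_left (c.trans (d.trans hsize)) hj
    have f : 1296 ^ 2 ^ i ≤ 6 ^ j := by
      rw [show 1296 = 6 ^ 4 by norm_num, ← pow_mul]
      exact Nat.pow_le_pow_right (by norm_num) (by rw [pow_add] at b; omega)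
    omega
  have hs2 : ¬s ∣ 2 := fun h => hs ((Nat.prime_dvd_prime_iff_eq hv.hp Nat.prime_two).1 h)
  have h1 : s ^ (g * tN t n) ∣ (Q ^ j) ^ 2 - 1 := by
    rw [← pow_mul Q, mul_comm j]
    refine Nat.Coprime.dvd_of_dvd_mul_left
      (Nat.Coprime.pow_left _ ((Nat.Prime.coprime_iff_not_dvd hv.hp).2 hs2)) ?_
    rw [← h, pow_mul]
    exact Dvd.dvd.mul_right (Dvd.dvd.mul_left (pow_dvd_ord hv.hS) _) _
  have hQj : 1 ≤ Q ^ j := Nat.one_le_pow _ _ (by omega)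
  rcases odd_pow_dvd_sq hv.hp hs hQj h1 with h2 | h2
  · have hN : 0 < g * tN t n := Nat.mul_pos hv.hf (by have := tr_le_tN hv.hS; omega)
    have h3 : s ∣ Q ^ j + 1 := (dvd_pow_self s (by omega)).trans h2
    have h4 : ¬s ∣ Q := fun hd => hv.hp.one_lt.ne' (Nat.dvd_one.1
      ((Nat.dvd_add_right (dvd_pow hd (by omega))).1 h3))
    obtain ⟨e, he, hP⟩ := exists_PP hv.hp (by omega) h4
    have h5 : e ∣ 2 * j := by
      rw [← hP.2, mul_comm, pow_mul]
      exact h3.trans (add_dvd_sq _)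
    have h6 : ¬e ∣ j := fun hd => by
      have := Nat.dvd_sub h3 ((hP.2 j).2 hd)
      rw [show Q ^ j + 1 - (Q ^ j - 1) = 2 by omega] at this
      exact hs2 this
    have h7 : 2 ^ (padicValNat 2 j + 1) ∣ e := by
      by_contra hc
      refine h6 (dvd_of_val_le he hj fun l hl _ => ?_)
      by_cases hl2 : l = 2
      · subst hl2
        rw [padicValNat_dvd_iff_le (by omega)] at hc
        omega
      · haveI := Fact.mk hl
        have := val_le_of_dvd hl (by omega) h5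
        rwa [padicValNat.mul (by norm_num) (by omega), padicValNat.eq_zero_of_not_dvd (fun h =>
          hl2 ((Nat.prime_dvd_prime_iff_eq hl Nat.prime_two).1 h)), zero_add] at this
    have h8 := (h7.trans (hP.dvd_pred (by omega) he)).trans (sub_dvd_pow s g)
    have h9 := sq_dvd_two_ord (q := s ^ g) hv.hS (by rintro rfl; exact hs hv.Sz.1)
    have h10 : 2 ∣ s ^ g + 1 := by
      have := Nat.odd_iff.1 ((hv.hp.odd_of_ne_two hs).pow (n := g))
      omega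
    rw [sq_sub_one] at h9
    have h11 := Nat.dvd_of_mul_dvd_mul_left (by norm_num) ((Nat.mul_dvd_mul h10 h8).trans h9)
    have := (padicValNat_dvd_iff_le (by omega)).1 h11
    omega
  · obtain ⟨c, rfl⟩ : ∃ c, j = (c + 2) * 2 := ⟨j / 2 - 2, by omega⟩
    rw [pow_mul Q] at h2
    have hQc : 1 < Q ^ (c + 2) := Nat.one_lt_pow (by omega) (by omega)
    have h3 : s ^ (g * tN t n) ≤ 2 * Q ^ (c + 2) := by
      rcases odd_pow_dvd_sq hv.hp hs hQc.le h2 with h3 | h3 <;>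
        have := Nat.le_of_dvd (by omega) h3 <;> omega
    have h4 := ord_le_cube hv.two_le hv.hS
    rw [← pow_mul s g] at h4
    have h5 := Nat.mul_le_mul_left ((c + 2) * 2) (h4.trans (Nat.pow_le_pow_left h3 3))
    have h6 := three_pow (show 6 ≤ c by omega)
    have h7 : 3 ^ c ≤ Q ^ c := Nat.pow_le_pow_left hQ _
    have e1 : Q ^ (2 * ((c + 2) * 2 - 1)) = Q ^ c * (Q ^ (c + 2)) ^ 3 := by
      rw [← pow_mul, ← pow_add]; congr 1; omega
    have e2 : (c + 2) * 2 * (2 * Q ^ (c + 2)) ^ 3 = 16 * (c + 2) * (Q ^ (c + 2)) ^ 3 := by ring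
    have := Nat.le_of_mul_le_mul_right (e1 ▸ e2 ▸ hsize.trans h5) (pow_pos (by omega) _)
    omega

lemma spF3 {n p a y : ℕ} (C : Ctx .A n 2 .E n 1 p a y) : False := by
  have hn : 4 ≤ n := by simpa [vS] using C.hv1.hS
  obtain ⟨h3, ho⟩ := C.three_le (C.odd_of_zero (by rw [tN_AD]; simp [tN]))
  have h := C.quot (b := (p ^ a) ^ 2 - 1) (c := (p ^ a) ^ n - 1) (D := 0) (by
    obtain ⟨k, rfl⟩ : ∃ k, n = k + 1 := ⟨n - 1, by omega⟩
    simp only [tR, Nat.add_sub_cancel, pow_one]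
    rw [pA_sq, pB, mul_comm 2, pow_mul, sq_sub_one]; ring) (tN_AD n)
  have h1 := dvd_of_four (x := 0) h C.hy.four_dvd (Nat.gcd_dvd_left _ _)
  have hy := C.hy
  simp only [td, pow_one, pow_zero, mul_one] at h
  generalize p ^ a = Q at *
  have h5 : 3 * Q ≤ Q ^ 2 := by nlinarith
  rcases pow_mod_sq (Q := Q) (by omega) n with ⟨h6, h2⟩ | ⟨-, h7, h2⟩
  · obtain ⟨j, rfl⟩ : ∃ j, n = 2 * j := ⟨n / 2, by omega⟩
    have h8 : 8 ∣ Q ^ 2 - 1 := Nat.eight_dvd_sq_sub_one_of_odd (Nat.odd_iff.2 ho)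
    have h9 := h8.trans h2
    have h10 : 1 ≤ Q ^ (2 * j) := Nat.one_le_pow _ _ (by omega)
    have h11 : Nat.gcd 4 (Q ^ (2 * j) + 1) = 2 := by
      rw [Nat.gcd_rec, show (Q ^ (2 * j) + 1) % 4 = 2 by omega]; norm_num
    rw [h11] at h
    exact f3_core h3 ho (by omega) hy h
  · have := Nat.dvd_sub h1 h2
    rw [show Q ^ n - 1 - (Q ^ n - Q) = Q - 1 by omega] at this
    have := Nat.le_of_dvd (by omega) this
    omega

lemma f1_num : (List.range' 1 2).all (fun a => (List.range' 23 (54 / a - 23)).all fun k =>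
    numChk (mkSh .A (k + 2)) 2 (mkSh .B (k + 1)) 1 2 a) = true := by decide +kernel

lemma f1_arith {Q A d dM dG k e : ℤ} (hQ : 2 ≤ Q) (hA : Q ^ 6 ≤ A) (hd : 1 ≤ d ∧ d ≤ 2)
    (hM : 1 ≤ dM ∧ dM ≤ 2) (hG : 1 ≤ dG) (hk : 1 ≤ k) (he : e = 1 ∨ e = -1) (h30 : 30 ≤ k * A - e)
    (h : d * dM * ((A * Q) ^ 2 - 1) = dG * k * (Q ^ 2 - 1) * ((k * A - e) * (k * A - 2 * e))) :
    False := by
  have he2 : e ^ 2 = 1 := by rcases he with rfl | rfl <;> norm_num
  have hQ2 : 2 ^ 2 ≤ Q ^ 2 := pow_le_pow_left₀ (by norm_num) hQ 2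
  have hQ4 : 2 ^ 4 ≤ Q ^ 4 := pow_le_pow_left₀ (by norm_num) hQ 4
  have hA0 : 0 < A := lt_of_lt_of_le (by positivity) hA
  have h12 : A ∣ d * dM + 2 * (dG * k * (Q ^ 2 - 1)) :=
    ⟨d * dM * A * Q ^ 2 - dG * k * (Q ^ 2 - 1) * (k * k * A - 3 * k * e), by
      linear_combination (-1) * h - 2 * dG * k * (Q ^ 2 - 1) * he2⟩
  have hw : 0 < dG * k := by positivity
  have hdd : d * dM ≤ 2 * 2 := mul_le_mul hd.2 hM.2 (by omega) (by omega)
  have hdd0 : 0 < d * dM := mul_pos (by omega) (by omega)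
  have hw2 : 0 < dG * k * (Q ^ 2 - 1) := mul_pos hw (by omega)
  have h13 := Int.le_of_dvd (by omega) h12
  have h14 := quad_lo he h30
  have h15 : (k * A) ^ 2 ≥ A ^ 2 := pow_le_pow_left₀ hA0.le (le_mul_of_one_le_left hA0.le hk) 2
  have h16 : 9 * (dG * k * (Q ^ 2 - 1)) ≤ 40 * Q ^ 2 := by
    refine le_of_mul_le_mul_right ?_ (pow_pos hA0 2)
    calc _ = dG * k * (Q ^ 2 - 1) * (9 * A ^ 2) := by ring
      _ ≤ dG * k * (Q ^ 2 - 1) * (10 * ((k * A - e) * (k * A - 2 * e))) :=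
        mul_le_mul_of_nonneg_left (by omega) hw2.le
      _ = 10 * (d * dM * ((A * Q) ^ 2 - 1)) := by rw [h]; ring
      _ ≤ 10 * (2 * 2 * (A * Q) ^ 2) := by
        have : 0 < (A * Q) ^ 2 := by positivity
        have := mul_le_mul hdd (show (A * Q) ^ 2 - 1 ≤ (A * Q) ^ 2 by omega) (by omega) (by omega)
        omega
      _ = _ := by ring
  have h17 : 2 ^ 4 * Q ^ 2 ≤ Q ^ 4 * Q ^ 2 := mul_le_mul_of_nonneg_right hQ4 (by positivity)
  have : Q ^ 4 * Q ^ 2 = Q ^ 6 := by ring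
  omega

lemma spF1 {k p a y : ℕ} (C : Ctx .A (k + 2) 2 .B (k + 1) 1 p a y) (hk : 23 ≤ k) : False := by
  have hD : 2 * tN .A (k + 2) = 1 * tN .B (k + 1) + (k + 1) := by
    rw [tN_AD]; simp only [tN]; rw [show k + 2 - 1 = k + 1 by omega]; ring
  have h := C.quot (b := (p ^ a) ^ 2 - 1) (c := (p ^ a) ^ (2 * (k + 2)) - 1) (D := k + 1) (by
    simp only [tR, pow_one]
    rw [show k + 2 - 1 = k + 1 by omega, pA_sq, pB]) hD
  have hd := C.pow_dvd
  rw [hD, Nat.add_sub_cancel_left] at hd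
  have hM := td_le_dmax C.hv1.hS ((p ^ a) ^ 1)
  have hM0 := td_pos (q := (p ^ a) ^ 1) C.hv1.hS
  have hG0 := td_pos (q := (p ^ a) ^ 2) C.hv.hS
  have hQ := C.hQ
  have hp := C.hv.hp
  simp only [dmax] at hM
  have e1 : (p ^ a) ^ (2 * (k + 2)) = ((p ^ a) ^ (k + 1) * p ^ a) ^ 2 := by ring
  rw [e1] at h
  have hA : 0 < (p ^ a) ^ (k + 1) := pow_pos (by omega) _
  have hQ2 : 4 ≤ (p ^ a) ^ 2 := by nlinarith
  rcases C.hy.U6 hp hd with h1 | h1
  · have h2 : p ^ (a * (k + 1)) ≤ 3 * c6 p := by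
      rw [pow_mul] at h1 ⊢
      generalize (p ^ a) ^ (k + 1) = A at *
      generalize p ^ a = Q at *
      have h3 : y * (Q ^ 2 - 1) ≤ 2 * A * (A * Q) ^ 2 :=
        calc _ ≤ td .A (k + 2) (Q ^ 2) * y * (Q ^ 2 - 1) :=
              Nat.mul_le_mul_right _ (Nat.le_mul_of_pos_left _ hG0)
          _ = _ := h
          _ ≤ _ := Nat.mul_le_mul (Nat.mul_le_mul_right _ hM) (Nat.sub_le _ _)
      have h4 : y ≤ 3 * A ^ 3 := by
        refine Nat.le_of_mul_le_mul_right (h3.trans ?_) (show 0 < Q ^ 2 - 1 by omega)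
        calc _ = A ^ 3 * (2 * Q ^ 2) := by ring
          _ ≤ A ^ 3 * (3 * (Q ^ 2 - 1)) := Nat.mul_le_mul_left _ (by omega)
          _ = _ := by ring
      refine Nat.le_of_mul_le_mul_right ?_ (pow_pos hA 3)
      calc _ = A ^ 4 := by ring
        _ ≤ _ := h1
        _ ≤ c6 p * (3 * A ^ 3) := Nat.mul_le_mul_left _ h4
        _ = _ := by ring
    have ha := C.ha
    have h3 : 24 ≤ a * (k + 1) := by nlinarith
    by_cases h4 : p = 2
    · subst h4
      have h5 : a * (k + 1) < 55 :=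
        (Nat.pow_lt_pow_iff_right (a := 2) (by norm_num)).1 (lt_of_le_of_lt h2 (by simp [c6]))
      have h6 : a ≤ 2 := by nlinarith
      refine C.numChk_sound (List.all_eq_true.1 (List.all_eq_true.1 f1_num a (by
        rw [List.mem_range'_1]; omega)) k ?_)
      rw [List.mem_range'_1]
      interval_cases a <;> omega
    · have h5 : 3 ^ 24 ≤ p ^ (a * (k + 1)) :=
        (Nat.pow_le_pow_left (by have := hp.two_le; omega) _).trans (Nat.pow_le_pow_right hp.pos h3)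
      simp only [c6, if_neg h4] at h2
      split_ifs at h2 <;> omega
  · obtain ⟨m, e, d, hm, he, h30, hd', e2⟩ := h1.form hp hd
    rw [pow_mul, ← Nat.cast_pow] at h30 e2
    have h6 : (p ^ a) ^ 6 ≤ (p ^ a) ^ (k + 1) := Nat.pow_le_pow_right (by omega) (by omega)
    generalize td .B (k + 1) ((p ^ a) ^ 1) = dM at *
    generalize td .A (k + 2) ((p ^ a) ^ 2) = dG at *
    generalize p ^ a = Q at *
    have h7 : 1 ≤ (Q ^ (k + 1) * Q) ^ 2 := Nat.one_le_pow _ _ (Nat.mul_pos hA (by omega))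
    zify [h7, show 1 ≤ Q ^ 2 by omega] at h h6 hA
    refine f1_arith (Q := Q) (A := (Q : ℤ) ^ (k + 1)) (d := d) (dM := dM) (dG := dG) (by omega) h6
      (by omega) (by omega) (by omega) hm he h30 ?_
    apply mul_left_cancel₀ hA.ne'
    linear_combination (-d) * h + dG * ((Q : ℤ) ^ 2 - 1) * e2

end Pool.Agent.Lib.MP_343319_al
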