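import Pool.Agent.Lib.MP_343319_al.Lam

namespace Pool.Agent.Lib.MP_343319_al

def vq : Ty → ℕ → ℕ → Bool
  | .A, n, q => !(decide (n = 2) && decide (q ≤ 3))
  | .U, n, q => !(decide (n = 3) && decide (q = 2))
  | .B, n, q => !(decide (n = 2) && decide (q = 2))
  | .G2, _, q => decide (3 ≤ q)
  | .Sz, _, q => decide (8 ≤ q)
  | .Re, _, q => decide (27 ≤ q)
  | .V4, _, q => decide (8 ≤ q)
  | _, _, _ => true

lemma Val.vq {t : Ty} {n p f : ℕ} (hv : Val t n p f) : vq t n (p ^ f) = true := by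
  have h := hv.hQ
  cases t <;> try exact h
  · obtain ⟨rfl, -, h3⟩ := hv.Sz
    exact decide_eq_true (Nat.pow_le_pow_right (n := 2) (by norm_num) h3)
  · obtain ⟨rfl, -, h3⟩ := hv.Re
    exact decide_eq_true (Nat.pow_le_pow_right (n := 3) (by norm_num) h3)
  · obtain ⟨rfl, -, h3⟩ := hv.V4
    exact decide_eq_true (Nat.pow_le_pow_right (n := 2) (by norm_num) h3)

def p2cand (G : Sh) (f : ℕ) (M : Sh) (g : ℕ) (S : Sh) (h : ℕ) (u : ℕ × ℕ × ℕ) : Bool :=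
  (if u.2.2 = 0 then
    negFail (numL G.t G.n f ++ denL M.t M.n g ++ denL S.t S.n h)
      (numL M.t M.n g ++ numL S.t S.n h ++ denL G.t G.n f) (dmax M.t M.n * dmax S.t S.n) u.1 u.2.1
  else
    negFail (numL M.t M.n g ++ numL S.t S.n h ++ denL G.t G.n f)
      (numL G.t G.n f ++ denL M.t M.n g ++ denL S.t S.n h) (dmax G.t G.n) u.1 u.2.1) &&
  (List.range' 2 (u.2.1 - 2)).all fun Q =>
    !vq G.t G.n (Q ^ f) || !vq M.t M.n (Q ^ g) || !vq S.t S.n (Q ^ h) ||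
      ord M.t M.n (Q ^ g) * ord S.t S.n (Q ^ h) != ord G.t G.n (Q ^ f)

def p2G (G : Sh) (hints : List (ℕ × ℕ × ℕ × ℕ)) : Bool :=
  shT.all fun M => force (Nat.gcd M.H G.H) fun d => force (M.H / d) fun f1 =>
    force (G.H / d) fun g1 => decide (f1 * G.N ≤ g1 * M.N) || !omOK G.t G.n f1 M.t M.n g1 ||
      force (f1 * G.N - g1 * M.N) fun dn => force (g1 * M.r) fun a => force (f1 * G.r) fun b =>
        shT.all fun S => force (Nat.gcd S.N dn) fun e => force (S.N / e) fun s =>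
          force (dn / e) fun h => force (a * s + h * S.r) fun c => decide (c + 5 < b * s) ||
            decide (b * s + 13 < c) || !omOK G.t G.n (f1 * s) S.t S.n h ||
            match hints.lookup (M.code * 1024 + S.code) with
            | none => false
            | some u => force (f1 * s) fun f => force (g1 * s) fun g => p2cand G f M g S h u

lemma pow_le_bound {Q a b c k : ℕ} (hQ : 2 ≤ Q) (h : Q ^ a ≤ c * Q ^ b) (hc : c < 2 ^ (k + 1)) :
    a ≤ b + k := by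
  by_contra hcon
  have h1 : Q ^ (b + (k + 1)) ≤ Q ^ a := Nat.pow_le_pow_right (by omega) (by omega)
  have h2 : 2 ^ (k + 1) ≤ Q ^ (k + 1) := Nat.pow_le_pow_left hQ _
  have h3 : 0 < Q ^ b := pow_pos (by omega) _
  rw [pow_add] at h1
  nlinarith

lemma dmax_le_max {t : Ty} {n : ℕ} : dmax t n ≤ max n 4 := by
  cases t <;> simp only [dmax] <;> omega

lemma eq_tR3 {Q : ℕ} (hQ : 2 ≤ Q) {t t1 t2 : Ty} {n f n1 g n2 h : ℕ} (hS : vS t n = true)
    (hS1 : vS t1 n1 = true) (hS2 : vS t2 n2 = true)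
    (hN : g * tN t1 n1 + h * tN t2 n2 = f * tN t n)
    (he : ord t1 n1 (Q ^ g) * ord t2 n2 (Q ^ h) = ord t n (Q ^ f)) :
    PP Q (numL t n f ++ denL t1 n1 g ++ denL t2 n2 h) * (td t1 n1 (Q ^ g) * td t2 n2 (Q ^ h)) =
      PP Q (numL t1 n1 g ++ numL t2 n2 h ++ denL t n f) * td t n (Q ^ f) := by
  have a := td_mul_ord (q := Q ^ f) hS
  have a1 := td_mul_ord (q := Q ^ g) hS1
  have a2 := td_mul_ord (q := Q ^ h) hS2
  rw [← pow_mul] at a a1 a2
  rw [← he, ← hN, pow_add] at a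
  have hp : 0 < Q ^ (g * tN t1 n1) * Q ^ (h * tN t2 n2) := by positivity
  rw [PP_append, PP_append, PP_append, PP_append, ← tR_mul (by omega) hS, ← tR_mul (by omega) hS1,
    ← tR_mul (by omega) hS2]
  refine Nat.eq_of_mul_eq_mul_left hp ?_
  zify at a a1 a2 ⊢
  generalize (PP Q (denL t n f) : ℤ) = x
  generalize (PP Q (denL t1 n1 g) : ℤ) = x1
  generalize (PP Q (denL t2 n2 h) : ℤ) = x2
  linear_combination (-(x * x1 * x2 * td t1 n1 (Q ^ g) * td t2 n2 (Q ^ h))) * a +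
    x * x1 * x2 * td t n (Q ^ f) * td t2 n2 (Q ^ h) * ord t2 n2 (Q ^ h) * a1 +
    x * x1 * x2 * td t n (Q ^ f) * Q ^ (g * tN t1 n1) * tR t1 n1 (Q ^ g) * a2

lemma mem_app3 {P : ℕ → Prop} {a b c : List ℕ} (ha : ∀ k ∈ a, P k) (hb : ∀ k ∈ b, P k)
    (hc : ∀ k ∈ c, P k) : ∀ k ∈ a ++ b ++ c, P k := by
  intro k hk
  simp only [List.mem_append] at hk
  rcases hk with (h | h) | h
  exacts [ha k h, hb k h, hc k h]

lemma p2cand_sound {Q : ℕ} (hQ : 2 ≤ Q) {t t1 t2 : Ty} {n f n1 g n2 h : ℕ} (hS : vS t n = true)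
    (hS1 : vS t1 n1 = true) (hS2 : vS t2 n2 = true) (hf : 1 ≤ f) (hg : 1 ≤ g) (hh : 1 ≤ h)
    (hN : g * tN t1 n1 + h * tN t2 n2 = f * tN t n)
    (v : vq t n (Q ^ f) = true) (v1 : vq t1 n1 (Q ^ g) = true) (v2 : vq t2 n2 (Q ^ h) = true)
    (he : ord t1 n1 (Q ^ g) * ord t2 n2 (Q ^ h) = ord t n (Q ^ f)) {u : ℕ × ℕ × ℕ}
    (H : p2cand (mkSh t n) f (mkSh t1 n1) g (mkSh t2 n2) h u = true) : False := by
  simp only [p2cand, mkSh, Bool.and_eq_true, List.all_eq_true, bne_iff_ne, ne_eq] at H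
  obtain ⟨H1, H2⟩ := H
  by_cases hT : u.2.1 ≤ Q
  swap
  · have := H2 Q (by rw [List.mem_range'_1]; omega)
    simp [v, v1, v2, he] at this
  have e := eq_tR3 hQ hS hS1 hS2 hN he
  have l1 := mem_app3 (numL_pos hS hf) (denL_pos hS1 hg) (denL_pos hS2 hh)
  have l2 := mem_app3 (numL_pos hS1 hg) (numL_pos hS2 hh) (denL_pos hS hf)
  split_ifs at H1
  · exact negFail_sound H1 hQ hT l1 l2 (Nat.mul_pos (td_pos hS1) (td_pos hS2))
      (Nat.mul_le_mul (td_le_dmax hS1 _) (td_le_dmax hS2 _)) (Dvd.intro _ e.symm)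
  · exact negFail_sound H1 hQ hT l2 l1 (td_pos hS) (td_le_dmax hS _) (Dvd.intro _ e)

lemma ratio {a b x y : ℕ} (ha : 0 < a) (h : x * a = y * b) :
    ∃ s, y = s * (a / Nat.gcd a b) ∧ x = s * (b / Nat.gcd a b) := by
  have hd : 0 < Nat.gcd a b := Nat.gcd_pos_of_pos_left _ ha
  have hc := Nat.coprime_div_gcd_div_gcd hd
  have ea := Nat.div_mul_cancel (Nat.gcd_dvd_left a b)
  have eb := Nat.div_mul_cancel (Nat.gcd_dvd_right a b)
  generalize Nat.gcd a b = d at *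
  generalize a / d = a1 at *
  generalize b / d = b1 at *
  subst ea eb
  have h1 : x * a1 = y * b1 := Nat.eq_of_mul_eq_mul_right hd (by linarith)
  obtain ⟨s, hs⟩ : a1 ∣ y := hc.dvd_of_dvd_mul_right (Dvd.intro_left _ h1)
  refine ⟨s, by rw [hs, mul_comm], ?_⟩
  have ha1 : 0 < a1 := Nat.pos_of_mul_pos_right ha
  refine Nat.eq_of_mul_eq_mul_right ha1 ?_
  rw [h1, hs]; ring

lemma val_add {t t1 t2 : Ty} {n n1 n2 p f g h : ℕ} (hv : Val t n p f) (hv1 : Val t1 n1 p g)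
    (hv2 : Val t2 n2 p h) (he : ord t1 n1 (p ^ g) * ord t2 n2 (p ^ h) = ord t n (p ^ f)) :
    g * tN t1 n1 + h * tN t2 n2 = f * tN t n := by
  haveI := Fact.mk hv.hp
  rw [← hv.val_ord, ← he, padicValNat.mul (ord_pos hv1.two_le hv1.hS).ne'
    (ord_pos hv2.two_le hv2.hS).ne', hv1.val_ord, hv2.val_ord]

lemma p2G_sound {t t1 t2 : Ty} {n n1 n2 p f g h : ℕ} (hv : Val t n p f) (hv1 : Val t1 n1 p g)
    (hv2 : Val t2 n2 p h) (he : ord t1 n1 (p ^ g) * ord t2 n2 (p ^ h) = ord t n (p ^ f))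
    (hH : g * tH t1 n1 = f * tH t n) (hn : n ≤ 24) (hn1 : n1 ≤ 47) (hn2 : n2 ≤ 47)
    {hints : List (ℕ × ℕ × ℕ × ℕ)} (H : p2G (mkSh t n) hints = true) : False := by
  have hN := val_add hv hv1 hv2 he
  have hp := hv.hp
  have hN2 : 1 ≤ tN t2 n2 := by have := tr_le_tN hv2.hS; omega
  have hpos : 0 < h * tN t2 n2 := Nat.mul_pos hv2.hf hN2
  obtain ⟨s0, e1, e2⟩ := ratio (show 0 < tH t1 n1 by have := tH_ge hv1.hS; omega) hH
  have H1 := List.all_eq_true.1 H _ (mem_shT hv1.hS hn1)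
  simp only [force_eq, Bool.or_eq_true, decide_eq_true_eq, Bool.not_eq_true',
    List.all_eq_true] at H1
  have E : ∀ t n, (mkSh t n).t = t ∧ (mkSh t n).n = n ∧ (mkSh t n).N = tN t n ∧
      (mkSh t n).r = tr t n ∧ (mkSh t n).H = tH t n := fun _ _ => ⟨rfl, rfl, rfl, rfl, rfl⟩
  simp only [E] at H1
  generalize tH t1 n1 / Nat.gcd (tH t1 n1) (tH t n) = f1 at *
  generalize tH t n / Nat.gcd (tH t1 n1) (tH t n) = g1 at *
  have hs0 : 1 ≤ s0 := by
    have := hv.hf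
    rcases s0 with _ | s0
    · simp at e1; omega
    · omega
  have hf1 : 1 ≤ f1 := Nat.pos_of_mul_pos_left (e1 ▸ hv.hf)
  have hg1 : 1 ≤ g1 := Nat.pos_of_mul_pos_left (e2 ▸ hv1.hf)
  have hlt : g1 * tN t1 n1 < f1 * tN t n := by
    refine Nat.lt_of_mul_lt_mul_left (a := s0) ?_
    rw [← mul_assoc, ← mul_assoc, ← e1, ← e2]; omega
  rcases H1 with (H1 | H1) | H1
  · omega
  · have := omOK_of_dvd (Q := p ^ s0) (f := f1) (Nat.one_lt_pow (by omega) hp.one_lt) hv.hS hv1.hS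
      hg1 (by rw [← pow_mul, ← pow_mul, ← e1, ← e2]; exact Dvd.intro _ he)
    rw [this] at H1; cases H1
  have H2 := H1 _ (mem_shT hv2.hS hn2)
  simp only [E] at H2
  have e3 : h * tN t2 n2 = s0 * (f1 * tN t n - g1 * tN t1 n1) := by
    rw [Nat.mul_sub, ← mul_assoc, ← mul_assoc, ← e1, ← e2]; omega
  obtain ⟨u, e4, e5⟩ := ratio hN2 e3
  generalize f1 * tN t n - g1 * tN t1 n1 = dn at *
  generalize tN t2 n2 / Nat.gcd (tN t2 n2) dn = s at *
  generalize dn / Nat.gcd (tN t2 n2) dn = h1 at *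
  have hu : 1 ≤ u := Nat.pos_of_mul_pos_right (e4 ▸ hs0)
  have hs : 1 ≤ s := Nat.pos_of_mul_pos_left (e4 ▸ hs0)
  have hh1 : 1 ≤ h1 := Nat.pos_of_mul_pos_left (e5 ▸ hv2.hf)
  have hQ : 2 ≤ p ^ u := Nat.one_lt_pow (by omega) hp.one_lt
  have e6 : f = u * (f1 * s) := by rw [e1, e4]; ring
  have e7 : g = u * (g1 * s) := by rw [e2, e4]; ring
  have hN' : g1 * s * tN t1 n1 + h1 * tN t2 n2 = f1 * s * tN t n := by
    refine Nat.eq_of_mul_eq_mul_left hu ?_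
    rw [e5, e6, e7] at hN
    linarith
  have v := hv.vq
  have v1 := hv1.vq
  have v2 := hv2.vq
  rw [e5, e6, e7, pow_mul p u, pow_mul p u, pow_mul p u] at he
  rw [e6, pow_mul p u] at v
  rw [e7, pow_mul p u] at v1
  rw [e5, pow_mul p u] at v2
  clear H1 E H
  generalize p ^ u = Q at *
  have q0 : ∀ k, 1 ≤ k → 2 ≤ Q ^ k := fun k hk => Nat.one_lt_pow (by omega) hQ
  have q1 := q0 _ (Nat.mul_pos hf1 hs)
  have q2 := q0 _ (Nat.mul_pos hg1 hs)
  have q3 := q0 _ hh1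
  rcases H2 with ((H2 | H2) | H2) | H2
  · have a := ord_ge q1 hv.hS
    have b := Nat.mul_le_mul (ord_le q2 hv1.hS) (ord_le q3 hv2.hS)
    have c := (td_le_dmax hv.hS (Q ^ (f1 * s))).trans dmax_le_max
    rw [he, ← pow_mul, ← pow_mul, ← pow_add] at b
    rw [← pow_mul] at a
    have := pow_le_bound (k := 5) hQ (a.trans (Nat.mul_le_mul_left _ b)) (by omega)
    linarith
  · have a := Nat.mul_le_mul (ord_ge q2 hv1.hS) (ord_ge q3 hv2.hS)
    have b := ord_le q1 hv.hS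
    have c1 := (td_le_dmax hv1.hS (Q ^ (g1 * s))).trans dmax_le_max
    have c2 := (td_le_dmax hv2.hS (Q ^ h1)).trans dmax_le_max
    have c3 : td t1 n1 (Q ^ (g1 * s)) * td t2 n2 (Q ^ h1) ≤ 47 * 47 :=
      Nat.mul_le_mul (by omega) (by omega)
    rw [← pow_mul, ← pow_mul, ← pow_add, mul_mul_mul_comm, he] at a
    rw [← pow_mul] at b
    have := pow_le_bound (k := 13) hQ (a.trans (Nat.mul_le_mul_left _ b)) (by
      rw [mul_mul_mul_comm]; omega)
    linarith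
  · have := omOK_of_dvd (f := f1 * s) hQ hv.hS hv2.hS hh1 (Dvd.intro_left _ he)
    rw [this] at H2; cases H2
  · split at H2
    · cases H2
    · exact p2cand_sound hQ hv.hS hv1.hS hv2.hS (Nat.mul_pos hf1 hs) (Nat.mul_pos hg1 hs) hh1 hN'
        v v1 v2 he H2

end Pool.Agent.Lib.MP_343319_al
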