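import Mathlib

namespace Pool.Agent.Lib.MP_343319_al

open Finset

def EP (y : ℤ) (k : ℕ) : ℤ := ∏ i ∈ range k, (1 - y ^ (i + 1))

noncomputable def pc (n : ℕ) : ℤ := (PowerSeries.pentagonalSeries ℤ).coeff n

lemma ps_stable (n k j : ℕ) (h : n ≤ k) :
    (∏ i ∈ range (k + j), (1 - PowerSeries.X ^ (i + 1) : PowerSeries ℤ)).coeff n =
    (∏ i ∈ range k, (1 - PowerSeries.X ^ (i + 1) : PowerSeries ℤ)).coeff n := by
  induction j with
  | zero => rfl
  | succ j ih =>
    rw [← add_assoc, prod_range_succ, mul_sub, mul_one, map_sub, ih,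
      PowerSeries.coeff_mul_X_pow', if_neg (by omega), sub_zero]

lemma ps_coeff (n k : ℕ) (h : n ≤ k) :
    (∏ i ∈ range k, (1 - PowerSeries.X ^ (i + 1) : PowerSeries ℤ)).coeff n = pc n := by
  have := PowerSeries.coeff_prod_one_sub_X_pow_eventually_eq ℤ n
  rw [Filter.eventually_atTop] at this
  obtain ⟨s, hs⟩ := this
  obtain ⟨K, hK⟩ : ∃ K, s ⊆ range K := Finset.exists_nat_subset_range s
  rw [← ps_stable n k K h]
  exact hs _ (hK.trans (range_subset_range.2 (by omega)))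

lemma poly_coeff (n k : ℕ) (h : n ≤ k) :
    (∏ i ∈ range k, (1 - Polynomial.X ^ (i + 1) : Polynomial ℤ)).coeff n = pc n := by
  rw [← ps_coeff n k h, ← Polynomial.coeff_coe]
  congr 1
  rw [← Polynomial.coeToPowerSeries.ringHom_apply, map_prod]
  refine prod_congr rfl fun i _ => ?_
  simp

lemma EP_dvd (y : ℤ) (k c : ℕ) (h : c ≤ k) :
    y ^ (c + 1) ∣ EP y k - ∑ i ∈ range (c + 1), pc i * y ^ i := by
  have h1 : (Polynomial.X : Polynomial ℤ) ^ (c + 1) ∣
      (∏ i ∈ range k, (1 - Polynomial.X ^ (i + 1) : Polynomial ℤ)) -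
        ∑ i ∈ range (c + 1), Polynomial.C (pc i) * Polynomial.X ^ i := by
    rw [Polynomial.X_pow_dvd_iff]
    intro d hd
    rw [Polynomial.coeff_sub, poly_coeff d k (by omega), Polynomial.finsetSum_coeff]
    simp only [Polynomial.coeff_C_mul, Polynomial.coeff_X_pow, mul_ite, mul_one, mul_zero]
    rw [Finset.sum_ite_eq, if_pos (by simpa using hd), sub_self]
  have h2 := Polynomial.eval_dvd (x := y) h1
  simpa [Polynomial.eval_prod, Polynomial.eval_finsetSum, EP] using h2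

lemma pc_abs (n : ℕ) : |pc n| ≤ 1 := by
  unfold pc PowerSeries.pentagonalSeries
  rw [PowerSeries.coeff_mk]
  split_ifs with h
  · rcases Int.units_eq_one_or (Int.negOnePow h.choose) with h | h <;> simp [h]
  · simp

lemma pc_pent (j : ℤ) : |pc (pentagonal j)| = 1 := by
  unfold pc
  rw [PowerSeries.coeff_pentagonalSeries_pentagonal]
  rcases Int.units_eq_one_or (Int.negOnePow j) with h | h <;> simp [h]

lemma pc_pred (j : ℤ) (c : ℕ) (hc : pentagonal j = c + 1) (h5 : 4 ≤ c) : pc c = 0 := by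
  unfold pc
  apply PowerSeries.coeff_pentagonalSeries_eq_zero
  rintro ⟨k, hk⟩
  have h1 := two_mul_natCast_pentagonal j
  have h2 := two_mul_natCast_pentagonal k
  rw [hc] at h1; rw [hk] at h2
  push_cast at h1
  have hc' : (4 : ℤ) ≤ c := by exact_mod_cast h5
  have e : (6 * j - 1) ^ 2 = (6 * k - 1) ^ 2 + 24 := by nlinarith
  have e2 : 121 ≤ (6 * j - 1) ^ 2 := by nlinarith
  obtain ⟨A, hA⟩ : ∃ A, A = |6 * j - 1| := ⟨_, rfl⟩
  obtain ⟨B, hB⟩ : ∃ B, B = |6 * k - 1| := ⟨_, rfl⟩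
  have a2 : A ^ 2 = (6 * j - 1) ^ 2 := by rw [hA, sq_abs]
  have b2 : B ^ 2 = (6 * k - 1) ^ 2 := by rw [hB, sq_abs]
  have a0 : 0 ≤ A := hA ▸ abs_nonneg _
  have b0 : 0 ≤ B := hB ▸ abs_nonneg _
  have a11 : 11 ≤ A := by nlinarith
  have ab : B < A := by nlinarith
  have ao : A % 2 = 1 := by rw [hA]; rcases abs_cases (6 * j - 1) with h | h <;> omega
  have bo : B % 2 = 1 := by rw [hB]; rcases abs_cases (6 * k - 1) with h | h <;> omega
  have : B ≤ A - 2 := by omega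
  nlinarith

lemma geom_le (a : ℤ) (ha : 2 ≤ a) (c : ℕ) : ∑ i ∈ range (c + 1), a ^ i ≤ 2 * a ^ c := by
  induction c with
  | zero => simp
  | succ c ih =>
    rw [sum_range_succ, pow_succ]
    have : 0 < a ^ c := by positivity
    nlinarith

/-- the key consequence of the pentagonal number theorem -/
lemma pent_key (y : ℤ) (hy : 2 ≤ |y|) (k : ℕ) (j : ℤ) (c : ℕ) (hc : pentagonal j = c + 2)
    (h5 : 3 ≤ c) (hk : c + 2 ≤ k) :
    ∃ g : ℤ, y ^ (c + 3) ∣ EP y k - g ∧ |y| ^ (c + 2) - 2 * |y| ^ c ≤ |g| ∧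
      |g| ≤ |y| ^ (c + 2) + 2 * |y| ^ c := by
  refine ⟨_, EP_dvd y k (c + 2) hk, ?_⟩
  rw [sum_range_succ, sum_range_succ, pc_pred j (c + 1) hc (by omega), zero_mul, add_zero]
  have h1 : |∑ i ∈ range (c + 1), pc i * y ^ i| ≤ 2 * |y| ^ c := by
    refine (abs_sum_le_sum_abs _ _).trans (le_trans ?_ (geom_le _ hy c))
    refine sum_le_sum fun i _ => ?_
    rw [abs_mul, abs_pow]
    have := pc_abs i
    have h0 : 0 ≤ |y| ^ i := by positivity
    nlinarith
  have h2 : |pc (c + 2) * y ^ (c + 2)| = |y| ^ (c + 2) := by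
    rw [abs_mul, abs_pow, ← hc, pc_pent, one_mul]
  constructor
  · have := abs_sub_abs_le_abs_add (pc (c + 2) * y ^ (c + 2)) (∑ i ∈ range (c + 1), pc i * y ^ i)
    rw [add_comm (pc (c + 2) * y ^ (c + 2))] at this
    linarith
  · have := abs_add_le (∑ i ∈ range (c + 1), pc i * y ^ i) (pc (c + 2) * y ^ (c + 2))
    linarith

lemma pent_nat (j : ℕ) : 2 * pentagonal (j : ℤ) + j = 3 * j * j := by
  have := two_mul_natCast_pentagonal (j : ℤ)
  have : (2 * (pentagonal (j : ℤ) : ℤ) + j) = 3 * j * j := by linarith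
  exact_mod_cast this

lemma exists_pent (m : ℕ) (hm : 12 ≤ m) :
    ∃ (j : ℤ) (c : ℕ), pentagonal j = c + 2 ∧ 10 ≤ c ∧ c + 2 ≤ m ∧ m + 3 ≤ 2 * c := by
  by_cases h1 : m ≤ 17
  · exact ⟨3, 10, by decide, by omega, by omega, by omega⟩
  by_cases h2 : m ≤ 23
  · exact ⟨-3, 13, by decide, by omega, by omega, by omega⟩
  have key : ∀ m : ℕ, 22 ≤ m → ∃ j : ℕ, 4 ≤ j ∧ pentagonal (j : ℤ) ≤ m ∧
      m < pentagonal ((j + 1 : ℕ) : ℤ) := by
    intro m hm
    induction m, hm using Nat.le_induction with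
    | base => exact ⟨4, le_rfl, by decide, by decide⟩
    | succ m hm ih =>
      obtain ⟨j, h4, ha, hb⟩ := ih
      by_cases h : m + 1 < pentagonal ((j + 1 : ℕ) : ℤ)
      · exact ⟨j, h4, by omega, h⟩
      · refine ⟨j + 1, by omega, by omega, ?_⟩
        have e1 := pent_nat (j + 1)
        have e2 := pent_nat (j + 1 + 1)
        nlinarith
  obtain ⟨j, h4, ha, hb⟩ := key m (by omega)
  have e1 := pent_nat j
  have e2 := pent_nat (j + 1)
  have h22 : 22 ≤ pentagonal (j : ℤ) := by nlinarith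
  refine ⟨j, pentagonal (j : ℤ) - 2, by omega, by omega, by omega, ?_⟩
  have : m + 7 ≤ 2 * pentagonal (j : ℤ) := by nlinarith
  omega

lemma fin_lemma {Q g z : ℤ} (h : Q ∣ g - z) (h1 : |z| < |g|) (h2 : |g| + |z| < Q) : False := by
  have h3 : |g - z| < Q := lt_of_le_of_lt (abs_sub _ _) h2
  have h4 : g - z = 0 := Int.eq_zero_of_abs_lt_dvd h h3
  have : g = z := by linarith
  rw [this] at h1; exact lt_irrefl _ h1

end Pool.Agent.Lib.MP_343319_al
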