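import Pool.Agent.Lib.MP_343319_al.Alt

namespace Pool.Agent.Lib.MP_343319_al

open Nat

def notS (ps : List ℕ) (y : ℕ) : Bool :=
  decide (y < 60) || (!sporadicOrders.contains y && notLie ps y &&
    loopF 1 y (fun _ F => F != y) 300 5 60)

lemma lie_small_check : (List.range' 1 59).all (notLie (primesTo 60)) = true := by
  decide +kernel

lemma spor_ge60 : ∀ c ∈ sporadicOrders, 60 ≤ c := by decide

lemma SimpleOrder.ge {x : ℕ} (h : SimpleOrder x) : 60 ≤ x := by
  rcases simpleOrder_cases h with ⟨k, hk, rfl⟩ | h | h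
  · exact half_ge hk
  · by_contra hc
    have h2 := h.two_le
    refine notLie_sound (List.all_eq_true.1 lie_small_check x
      (by rw [List.mem_range'_1]; omega)) (fun p hp hd => mem_primesTo hp ?_ (by norm_num)) h
    have := Nat.le_of_dvd (by omega) hd
    omega
  · exact spor_ge60 x h

lemma notS_sound {ps : List ℕ} {y : ℕ} (h : notS ps y = true)
    (hps : ∀ p, p.Prime → p ∣ y → p ∈ ps) : ¬SimpleOrder y := by
  intro hy
  simp only [notS, Bool.or_eq_true, decide_eq_true_eq, Bool.and_eq_true, Bool.not_eq_true',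
    List.contains_eq_mem, decide_eq_false_iff_not] at h
  rcases h with h | ⟨⟨h1, h2⟩, h3⟩
  · have := hy.ge; omega
  rcases simpleOrder_cases hy with ⟨k, hk, hk2⟩ | h | h
  · have := loopF_sound 300 5 (by norm_num) h3 k hk (one_dvd _) hk2.ge
    simp [hk2] at this
  · exact notLie_sound h2 hps h
  · exact h1 h

def noFact (ps : List ℕ) (c : ℕ) : Bool :=
  allLieDvd ps c (fun x => force (c / x) (notS ps)) &&
  sporadicOrders.all (fun x => c % x != 0 || force (c / x) (notS ps)) &&
  loopF 1 c (fun _ x => c % x != 0 || force (c / x) (notS ps)) 300 5 60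

lemma noFact_sound {ps : List ℕ} {c : ℕ} (h : noFact ps c = true)
    (hps : ∀ p, p.Prime → p ∣ c → p ∈ ps) {x y : ℕ} (hx : SimpleOrder x) (hy : SimpleOrder y) :
    x * y ≠ c := by
  intro hc
  have hx0 : 0 < x := by have := hx.ge; omega
  have hy0 : 0 < y := by have := hy.ge; omega
  have e : c / x = y := by rw [← hc, Nat.mul_div_cancel_left _ hx0]
  have hd : x ∣ c := Dvd.intro _ hc
  have hm : c % x = 0 := Nat.mod_eq_zero_of_dvd hd
  have key : notS ps y = true := by
    simp only [noFact, Bool.and_eq_true, force_eq] at h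
    obtain ⟨⟨h1, h2⟩, h3⟩ := h
    rcases simpleOrder_cases hx with ⟨k, hk, hk2⟩ | h | h
    · have := loopF_sound 300 5 (by norm_num) h3 k hk (one_dvd _)
        (by rw [← hk2]; exact Nat.le_of_dvd (by rw [← hc]; positivity) hd)
      simpa [← hk2, hm, e] using this
    · have := allLieDvd_sound h1 (by rw [← hc]; positivity) hps h hd
      simpa [e] using this
    · have := List.all_eq_true.1 h2 x h
      simpa [hm, e] using this
  exact notS_sound key (fun p hp hd => hps p hp (hd.trans (Dvd.intro_left _ hc))) hy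

def ps71 : List ℕ := [2, 3, 5, 7, 11, 13, 17, 19, 23, 29, 31, 37, 41, 43, 47, 53, 59, 61, 67, 71]

lemma spor_noFact_a : (sporadicOrders.take 14).all (noFact ps71) = true := by decide +kernel
lemma spor_noFact_b : (sporadicOrders.drop 14).all (noFact ps71) = true := by decide +kernel

lemma spor_dvd : ∀ c ∈ sporadicOrders, c ∣ (71 !) ^ 2 := by decide +kernel

lemma spor_prime {c p : ℕ} (hc : c ∈ sporadicOrders) (hp : p.Prime) (h : p ∣ c) : p ∈ ps71 := by
  have h1 : p ≤ 71 := (hp.dvd_factorial).1 (hp.dvd_of_dvd_pow (h.trans (spor_dvd c hc)))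
  have e : ps71 = primesTo 71 := by decide +kernel
  rw [e]
  exact mem_primesTo hp h1 (by norm_num)

theorem spor_no {x y c : ℕ} (hx : SimpleOrder x) (hy : SimpleOrder y) (hc : c ∈ sporadicOrders) :
    x * y ≠ c := by
  refine noFact_sound (ps := ps71) ?_ (fun p hp h => spor_prime hc hp h) hx hy
  rw [← List.take_append_drop 14 sporadicOrders, List.mem_append] at hc
  rcases hc with hc | hc
  · exact List.all_eq_true.1 spor_noFact_a c hc
  · exact List.all_eq_true.1 spor_noFact_b c hc

end Pool.Agent.Lib.MP_343319_al
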