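import Pool.Agent.Lib.MP_343319_al.Facs
import Pool.Agent.Lib.MP_343319_al.Spor

namespace Pool.Agent.Lib.MP_343319_al

def deg (s : ℕ × ℕ) : ℕ := if s.2 = 2 then 2 * s.1 else s.1

lemma sumA (k : ℕ) (g : ℕ → ℕ) (hg : ∀ i, g i ≠ 2) :
    (((List.range' 2 k).map fun i => (i, g i)).map deg).sum = (k + 1) * k / 2 + k := by
  induction k with
  | zero => rfl
  | succ k ih =>
    rw [List.range'_concat, List.map_append, List.map_append, List.sum_append, ih, tri_succ]
    simp [deg, hg]; omega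

lemma sumB (k : ℕ) :
    (((List.range' 1 k).map fun i => (2 * i, 0)).map deg).sum = k * k + k := by
  induction k with
  | zero => rfl
  | succ k ih =>
    rw [List.range'_concat, List.map_append, List.map_append, List.sum_append, ih]
    simp [deg]; ring

lemma sum_deg {t : Ty} {n : ℕ} (h : vS t n = true) :
    ((facs t n).map deg).sum = tN t n + tr t n := by
  cases t <;> simp only [vS, decide_eq_true_eq, facs, tN, tr] at h ⊢
  · obtain ⟨k, rfl⟩ : ∃ k, n = k + 1 := ⟨n - 1, by omega⟩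
    exact sumA k (fun _ => 0) (by simp)
  · obtain ⟨k, rfl⟩ : ∃ k, n = k + 1 := ⟨n - 1, by omega⟩
    exact sumA k (fun i => i % 2) (by intro i; omega)
  · exact sumB n
  · obtain ⟨k, rfl⟩ : ∃ k, n = k + 1 := ⟨n - 1, by omega⟩
    rw [List.map_cons, List.sum_cons, sumB]; simp [deg]; ring
  · obtain ⟨k, rfl⟩ : ∃ k, n = k + 1 := ⟨n - 1, by omega⟩
    rw [List.map_cons, List.sum_cons, sumB]; simp [deg]; ring
  all_goals decide

lemma sub_pow_le (q d : ℕ) (hq : 1 ≤ q) (hd : 1 ≤ d) : (q - 1) ^ d ≤ q ^ d - 1 := by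
  have : (q - 1) ^ d < q ^ d := Nat.pow_lt_pow_left (by omega) (by omega)
  omega

lemma ev_ge_pred {q : ℕ} (hq : 1 ≤ q) {s : ℕ × ℕ} (h1 : 1 ≤ s.1) (h2 : s.2 ≤ 2) :
    (q - 1) ^ deg s ≤ ev q s := by
  have a := sub_pow_le q s.1 hq h1
  have b := sub_pow_le q (2 * s.1) hq (by omega)
  simp only [deg, ev]
  split_ifs <;> omega

lemma tR_ge_pred {q : ℕ} (hq : 1 ≤ q) {t : Ty} {n : ℕ} (h : vS t n = true) :
    (q - 1) ^ (tN t n + tr t n) ≤ tR t n q := by
  rw [← sum_deg h, tR_facs]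
  have : ∀ L : List (ℕ × ℕ), (∀ s ∈ L, 1 ≤ s.1 ∧ s.2 ≤ 2) →
      (q - 1) ^ (L.map deg).sum ≤ (L.map (ev q)).prod := by
    intro L hL
    induction L with
    | nil => simp
    | cons s L ih =>
      rw [List.map_cons, List.sum_cons, List.map_cons, List.prod_cons, pow_add]
      exact Nat.mul_le_mul (ev_ge_pred hq (hL s (by simp)).1 (hL s (by simp)).2)
        (ih fun u hu => hL u (by simp [hu]))
  exact this _ fun s hs => ⟨(facs_prop h hs).1, (facs_prop h hs).2.1⟩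

def wt (s : ℕ × ℕ) : ℚ := if s.2 = 0 then (1 / 2) ^ s.1 else 0

lemma wt_nonneg (s : ℕ × ℕ) : 0 ≤ wt s := by
  simp only [wt]; split_ifs <;> positivity

lemma ev_ge_wt {q : ℕ} (hq : 2 ≤ q) {s : ℕ × ℕ} (h2 : s.2 ≤ 2) :
    (q : ℚ) ^ deg s * (1 - wt s) ≤ ev q s := by
  simp only [deg, ev, wt]
  have h1 : 1 ≤ q ^ s.1 := Nat.one_le_pow _ _ (by omega)
  by_cases h0 : s.2 = 0
  · rw [if_neg (by omega), if_pos h0, if_pos h0, Nat.cast_sub h1]
    push_cast
    have : (1 : ℚ) ≤ (q : ℚ) ^ s.1 * (1 / 2) ^ s.1 := by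
      rw [← mul_pow]
      refine one_le_pow₀ ?_
      have : (2 : ℚ) ≤ q := by exact_mod_cast hq
      linarith
    linarith
  · rw [if_neg h0, if_neg h0]
    split_ifs with a b b
    · omega
    · push_cast
      have : (0 : ℚ) ≤ (q : ℚ) ^ s.1 := by positivity
      linarith
    · push_cast; linarith
    · omega

lemma prod_ge_wt {q : ℕ} (hq : 2 ≤ q) (L : List (ℕ × ℕ)) (hL : ∀ s ∈ L, s.2 ≤ 2) :
    (q : ℚ) ^ (L.map deg).sum * (1 - (L.map wt).sum) ≤ ((L.map (ev q)).prod : ℕ) := by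
  induction L with
  | nil => simp
  | cons s L ih =>
    have ih' := ih fun u hu => hL u (by simp [hu])
    have h1 := ev_ge_wt hq (hL s (by simp))
    simp only [List.map_cons, List.sum_cons, List.prod_cons, pow_add, Nat.cast_mul]
    have hW : 0 ≤ (L.map wt).sum := List.sum_nonneg (by
      intro x hx
      obtain ⟨u, -, rfl⟩ := List.mem_map.1 hx
      exact wt_nonneg u)
    have hw := wt_nonneg s
    generalize (L.map wt).sum = W at *
    generalize wt s = w at *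
    have ha : (0 : ℚ) < (q : ℚ) ^ deg s := by positivity
    have hb : (0 : ℚ) < (q : ℚ) ^ (L.map deg).sum := by positivity
    generalize (q : ℚ) ^ deg s = a at *
    generalize (q : ℚ) ^ (L.map deg).sum = b at *
    have hx : (0 : ℚ) ≤ (ev q s : ℚ) := by positivity
    have hy : (0 : ℚ) ≤ (((L.map (ev q)).prod : ℕ) : ℚ) := by positivity
    generalize (ev q s : ℚ) = x at *
    generalize (((L.map (ev q)).prod : ℕ) : ℚ) = y at *
    by_cases hc : 1 - (w + W) ≤ 0
    · have : a * b * (1 - (w + W)) ≤ 0 := mul_nonpos_of_nonneg_of_nonpos (by positivity) hc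
      have : 0 ≤ x * y := by positivity
      linarith
    · have h3 : a * (1 - w) * (b * (1 - W)) ≤ x * y :=
        mul_le_mul h1 ih' (mul_nonneg hb.le (by linarith)) hx
      have h4 : 0 ≤ a * b * (w * W) := by positivity
      nlinarith

lemma wtA (k : ℕ) (g : ℕ → ℕ) :
    (((List.range' 2 k).map fun i => (i, g i)).map wt).sum ≤ 1 / 2 - (1 / 2) ^ (k + 1) := by
  induction k with
  | zero => simp
  | succ k ih =>
    rw [List.range'_concat, List.map_append, List.map_append, List.sum_append]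
    have : wt (2 + 1 * k, g (2 + 1 * k)) ≤ (1 / 2) ^ (k + 2) := by
      simp only [wt]
      split_ifs
      · rw [show 2 + 1 * k = k + 2 by ring]
      · positivity
    simp only [List.map_cons, List.map_nil, List.sum_cons, List.sum_nil, add_zero]
    have e : ((1 : ℚ) / 2) ^ (k + 1) = 2 * (1 / 2) ^ (k + 2) := by ring
    have e2 : ((1 : ℚ) / 2) ^ (k + 1 + 1) = (1 / 2) ^ (k + 2) := by ring
    linarith

lemma wtB (k : ℕ) :
    (((List.range' 1 k).map fun i => (2 * i, 0)).map wt).sum ≤ 1 / 3 - (1 / 3) * (1 / 4) ^ k := by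
  induction k with
  | zero => simp
  | succ k ih =>
    rw [List.range'_concat, List.map_append, List.map_append, List.sum_append]
    have : wt (2 * (1 + 1 * k), 0) = (1 / 4) ^ (k + 1) := by
      simp only [wt, if_true]
      rw [pow_mul, show 1 + 1 * k = k + 1 by ring]; norm_num
    simp only [List.map_cons, List.map_nil, List.sum_cons, List.sum_nil, add_zero, this]
    have e : ((1 : ℚ) / 4) ^ k = 4 * (1 / 4) ^ (k + 1) := by ring
    linarith

lemma two_tR {q : ℕ} (hq : 2 ≤ q) {t : Ty} {n : ℕ} (h : vS t n = true) :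
    q ^ (tN t n + tr t n) ≤ 2 * tR t n q := by
  by_cases hV : t = .V4
  · subst hV
    simp only [tN, tr, tR]
    obtain ⟨c, rfl⟩ : ∃ c, q = c + 2 := ⟨q - 2, by omega⟩
    have e : (c + 2) ^ 4 - 1 = c ^ 4 + 8 * c ^ 3 + 24 * c ^ 2 + 32 * c + 15 := by
      have : (c + 2) ^ 4 = c ^ 4 + 8 * c ^ 3 + 24 * c ^ 2 + 32 * c + 15 + 1 := by ring
      omega
    rw [e, show c + 2 - 1 = c + 1 by omega]
    have h1 : (c + 2) ^ 8 ≤ 2 * ((c + 1) * ((c + 2) ^ 3 + 1) *
        (c ^ 4 + 8 * c ^ 3 + 24 * c ^ 2 + 32 * c + 15)) := by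
      ring_nf
      omega
    calc (c + 2) ^ (12 + 2) = (c + 2) ^ 8 * (c + 2) ^ 6 := by ring
      _ ≤ _ := by
        rw [← mul_assoc]
        exact Nat.mul_le_mul h1 (Nat.le_succ _)
  have h1 := prod_ge_wt hq (facs t n) fun s hs => (facs_prop h hs).2.1
  rw [sum_deg h, ← tR_facs] at h1
  have h2 : ((facs t n).map wt).sum ≤ 1 / 2 := by
    cases t <;> simp only [vS, decide_eq_true_eq, facs] at h ⊢
    · have := wtA (n - 1) (fun _ => 0)
      have : (0 : ℚ) ≤ (1 / 2) ^ (n - 1 + 1) := by positivity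
      linarith
    · have := wtA (n - 1) (fun i => i % 2)
      have : (0 : ℚ) ≤ (1 / 2) ^ (n - 1 + 1) := by positivity
      linarith
    · have := wtB n
      have : (0 : ℚ) ≤ (1 / 4) ^ n := by positivity
      linarith
    · have := wtB (n - 1)
      have : (0 : ℚ) ≤ (1 / 4) ^ (n - 1) := by positivity
      have : wt (n, 0) ≤ (1 / 2) ^ 4 := by
        simp only [wt, if_true]
        exact pow_le_pow_of_le_one (by norm_num) (by norm_num) h
      rw [List.map_cons, List.sum_cons]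
      linarith
    · have := wtB (n - 1)
      have : (0 : ℚ) ≤ (1 / 4) ^ (n - 1) := by positivity
      have : wt (n, 1) = 0 := by simp [wt]
      rw [List.map_cons, List.sum_cons]
      linarith
    all_goals first | exact absurd rfl hV | (simp [wt]; done) | (simp [wt]; norm_num)
  have h3 : (0 : ℚ) < (q : ℚ) ^ (tN t n + tr t n) := by positivity
  have h4 : (q : ℚ) ^ (tN t n + tr t n) ≤ 2 * (tR t n q : ℚ) := by nlinarith
  exact_mod_cast h4

lemma ord_ge {q : ℕ} (hq : 2 ≤ q) {t : Ty} {n : ℕ} (h : vS t n = true) :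
    q ^ (2 * tN t n + tr t n) ≤ 2 * td t n q * ord t n q := by
  rw [mul_assoc, td_mul_ord h, show 2 * tN t n + tr t n = tN t n + (tN t n + tr t n) by ring,
    pow_add, mul_left_comm]
  exact Nat.mul_le_mul_left _ (two_tR hq h)

lemma td_mul_ord_le {q : ℕ} (hq : 2 ≤ q) {t : Ty} {n : ℕ} (h : vS t n = true) :
    td t n q * ord t n q ≤ q ^ (2 * tN t n + tr t n) := by
  rw [td_mul_ord h, show 2 * tN t n + tr t n = tN t n + (tN t n + tr t n) by ring, pow_add]
  exact Nat.mul_le_mul_left _ (tR_le hq h)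

lemma td_le_succ {q : ℕ} (hq : 2 ≤ q) {t : Ty} {n : ℕ} (h : t = .A ∨ t = .U) :
    td t n q ≤ q + 1 := by
  rcases h with rfl | rfl
  · exact (Nat.gcd_le_right _ (by omega)).trans (by omega)
  · exact Nat.gcd_le_right _ (by omega)

lemma Val.two_td_le {t : Ty} {n p f : ℕ} (h : Val t n p f) :
    2 * td t n (p ^ f) ≤ (p ^ f) ^ tr t n := by
  have hq := h.two_le
  have hS := h.hS
  have hQ := h.hQ
  have hd := td_le_dmax hS (p ^ f)
  have hr := (tr_le_tN hS).2
  have key : ∀ a, a ≤ tr t n → 2 ^ a ≤ (p ^ f) ^ tr t n := fun a ha =>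
    (Nat.pow_le_pow_right (by norm_num) ha).trans (Nat.pow_le_pow_left hq _)
  have key2 : ∀ a, a ≤ tr t n → (p ^ f) ^ a ≤ (p ^ f) ^ tr t n := fun a ha =>
    Nat.pow_le_pow_right (by omega) ha
  cases t <;> simp only [vS, vQ, dmax, decide_eq_true_eq] at hS hQ hd
  · by_cases h2 : n = 2
    · subst h2
      have := key2 1 (by simp [tr])
      simp only [pow_one] at this
      have h4 : ¬p ^ f ≤ 3 := by simpa using hQ
      omega
    · have h3 : td .A n (p ^ f) ≤ p ^ f - 1 := Nat.gcd_le_right _ (by omega)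
      have := key2 2 (by simp [tr]; omega)
      have : 2 * p ^ f ≤ (p ^ f) ^ 2 := by nlinarith
      omega
  · have h3 := td_le_succ (t := .U) (n := n) hq (Or.inr rfl)
    by_cases h2 : n = 3
    · subst h2
      have := key2 2 (by simp [tr])
      simp at hQ
      have : 3 ≤ p ^ f := by omega
      nlinarith
    · have := key2 3 (by simp [tr]; omega)
      have : 2 * (p ^ f + 1) ≤ (p ^ f) ^ 3 := by
        obtain ⟨c, hc⟩ : ∃ c, p ^ f = c + 2 := ⟨p ^ f - 2, by omega⟩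
        rw [hc]; ring_nf; omega
      omega
  · have := key 2 (by simpa [tr]); omega
  · have := key 3 (by simp [tr]; omega); omega
  · have := key 3 (by simp [tr]; omega); omega
  all_goals first
    | (have := key 1 (by simp [tr]); omega)
    | (have := key 3 (by simp [tr]); omega)

lemma Val.sq_le {t : Ty} {n p f : ℕ} (h : Val t n p f) :
    (p ^ f) ^ (2 * tN t n) ≤ ord t n (p ^ f) := by
  have h1 := ord_ge h.two_le h.hS
  have h2 := h.two_td_le
  have h3 : 0 < (p ^ f) ^ tr t n := pow_pos (by have := h.two_le; omega) _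
  rw [pow_add] at h1
  refine Nat.le_of_mul_le_mul_right ?_ h3
  calc _ ≤ _ := h1
    _ ≤ _ := by rw [mul_comm]; exact Nat.mul_le_mul_left _ h2

lemma tH_dvd {t : Ty} {n : ℕ} (h : vS t n = true) : tH t n ∣ 4 * tN t n := by
  have := two_tri n
  cases t <;> simp only [tH, tN]
  · exact ⟨2 * (n - 1), by rw [show 4 = 2 * 2 by rfl, mul_assoc, this]; ring⟩
  · split_ifs
    · exact ⟨n - 1, by rw [show 4 = 2 * 2 by rfl, mul_assoc, this]; ring⟩
    · exact ⟨n, by rw [show 4 = 2 * 2 by rfl, mul_assoc, this]; ring⟩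
  · exact ⟨2 * n, by ring⟩
  · exact ⟨2 * n, by ring⟩
  · exact ⟨2 * (n - 1), by ring⟩
  all_goals norm_num

lemma cube_dvd_pA (q k : ℕ) : (q ^ 2 - 1) * (q ^ 3 - 1) ∣ pA q (k + 2) := by
  induction k with
  | zero => simp [pA]
  | succ k ih => exact Dvd.dvd.mul_right ih _

lemma cube_dvd_pU (q k : ℕ) : (q ^ 2 - 1) * (q ^ 3 + 1) ∣ pU q (k + 2) := by
  induction k with
  | zero => simp [pU]
  | succ k ih => exact Dvd.dvd.mul_right ih _

lemma four_dvd_pB (q k : ℕ) : (q ^ 2 - 1) * (q ^ 4 - 1) ∣ pB q (k + 2) := by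
  induction k with
  | zero => simp [pB]
  | succ k ih => exact Dvd.dvd.mul_right ih _

lemma sub_dvd_pow (q k : ℕ) : q - 1 ∣ q ^ k - 1 := by
  simpa using Nat.sub_dvd_pow_sub_pow q 1 k

lemma add_dvd_pow (q : ℕ) {k : ℕ} (hk : Odd k) : q + 1 ∣ q ^ k + 1 := by
  simpa using Odd.nat_add_dvd_pow_add_pow q 1 hk

lemma sq_td_dvd {q : ℕ} {t : Ty} {n : ℕ} (h : vS t n = true) (h1 : t ≠ .Sz) :
    (q ^ 2 - 1) * td t n q ∣ 2 * tR t n q := by
  have e := Nat.sq_sub_sq q 1
  rw [one_pow] at e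
  cases t <;> simp only [vS, decide_eq_true_eq, td, tR, mul_one] at h ⊢
  · by_cases h2 : n = 2
    · subst h2
      simp only [pA, Nat.add_one_sub_one, one_mul, zero_add]
      rw [mul_comm 2]
      exact Nat.mul_dvd_mul_left _ (Nat.gcd_dvd_left _ _)
    · obtain ⟨k, rfl⟩ : ∃ k, n = k + 3 := ⟨n - 3, by omega⟩
      refine Dvd.dvd.mul_left (dvd_trans ?_ (cube_dvd_pA q k)) _
      exact Nat.mul_dvd_mul_left _ ((Nat.gcd_dvd_right _ _).trans (sub_dvd_pow _ _))
  · obtain ⟨k, rfl⟩ : ∃ k, n = k + 3 := ⟨n - 3, by omega⟩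
    refine Dvd.dvd.mul_left (dvd_trans ?_ (cube_dvd_pU q k)) _
    exact Nat.mul_dvd_mul_left _ ((Nat.gcd_dvd_right _ _).trans (add_dvd_pow _ (by decide)))
  · obtain ⟨k, rfl⟩ : ∃ k, n = k + 2 := ⟨n - 2, by omega⟩
    refine Dvd.dvd.mul_left (dvd_trans ?_ (four_dvd_pB q k)) _
    exact Nat.mul_dvd_mul_left _ ((Nat.gcd_dvd_right _ _).trans (sub_dvd_pow _ _))
  · obtain ⟨k, rfl⟩ : ∃ k, n = k + 2 := ⟨n - 2, by omega⟩
    refine Dvd.dvd.mul_left ?_ _
    rw [mul_comm]
    exact Nat.mul_dvd_mul (Nat.gcd_dvd_right _ _) (sq_dvd_pB q k)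
  · obtain ⟨k, rfl⟩ : ∃ k, n = k + 2 := ⟨n - 2, by omega⟩
    refine Dvd.dvd.mul_left ?_ _
    rw [mul_comm]
    exact Nat.mul_dvd_mul (Nat.gcd_dvd_right _ _) (sq_dvd_pB q k)
  · exact Dvd.dvd.mul_left (Dvd.intro _ rfl) _
  · refine Dvd.dvd.mul_left ?_ _
    simp only [mul_assoc]; exact Dvd.intro _ rfl
  · refine Dvd.dvd.mul_left ?_ _
    iterate 4 refine Dvd.dvd.mul_right ?_ _
    exact Nat.mul_dvd_mul_left _ ((Nat.gcd_dvd_right _ _).trans (sub_dvd_pow _ _))
  · refine Dvd.dvd.mul_left ?_ _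
    iterate 4 refine Dvd.dvd.mul_right ?_ _
    exact Nat.mul_dvd_mul_left _ ((Nat.gcd_dvd_right _ _).trans (add_dvd_pow _ (by decide)))
  · refine Dvd.dvd.mul_left ?_ _
    iterate 5 refine Dvd.dvd.mul_right ?_ _
    exact Nat.mul_dvd_mul_left _ ((Nat.gcd_dvd_right _ _).trans (sub_dvd_pow _ _))
  · refine Dvd.dvd.mul_left ?_ _
    simp only [mul_assoc]; exact Dvd.intro _ rfl
  · refine Dvd.dvd.mul_left ?_ _
    simp only [mul_assoc]; exact Dvd.intro _ rfl
  · exact absurd rfl h1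
  · refine Dvd.dvd.mul_left ?_ _
    rw [e, mul_comm]
    exact Nat.mul_dvd_mul_left _ (add_dvd_pow _ (by decide))
  · refine Dvd.dvd.mul_left ?_ _
    iterate 2 refine Dvd.dvd.mul_right ?_ _
    rw [e, mul_comm]
    exact Nat.mul_dvd_mul_left _ (add_dvd_pow _ (by decide))

lemma sq_dvd_two_ord {q : ℕ} {t : Ty} {n : ℕ} (h : vS t n = true) (h1 : t ≠ .Sz) :
    q ^ 2 - 1 ∣ 2 * ord t n q := by
  have h2 := sq_td_dvd (q := q) h h1
  have h3 : (q ^ 2 - 1) * td t n q ∣ (2 * ord t n q) * td t n q := by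
    rw [mul_assoc, mul_comm (ord t n q), td_mul_ord h, mul_left_comm]
    exact Dvd.dvd.mul_left h2 _
  exact Nat.dvd_of_mul_dvd_mul_right (td_pos h) h3

lemma Val.Sz {n p f : ℕ} (h : Val .Sz n p f) : p = 2 ∧ f % 2 = 1 ∧ 3 ≤ f := by
  have := h.hQ; simpa [vQ, and_assoc] using this

lemma Val.Re {n p f : ℕ} (h : Val .Re n p f) : p = 3 ∧ f % 2 = 1 ∧ 3 ≤ f := by
  have := h.hQ; simpa [vQ, and_assoc] using this

lemma Val.V4 {n p f : ℕ} (h : Val .V4 n p f) : p = 2 ∧ f % 2 = 1 ∧ 3 ≤ f := by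
  have := h.hQ; simpa [vQ, and_assoc] using this

lemma Val.four_dvd {t : Ty} {n p f : ℕ} (h : Val t n p f) : 4 ∣ ord t n (p ^ f) := by
  by_cases hp : p = 2
  · subst hp
    refine dvd_trans ?_ (pow_dvd_ord h.hS)
    rw [← pow_mul]
    refine (show 4 ∣ 2 ^ 2 by norm_num).trans (pow_dvd_pow _ ?_)
    have h1 := tr_le_tN h.hS
    have hf := h.hf
    by_cases h2 : t = .A ∧ n = 2
    · obtain ⟨rfl, rfl⟩ := h2
      have := h.hQ
      simp only [vQ, decide_true, Bool.true_and, Bool.not_eq_eq_eq_not, Bool.not_true,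
        decide_eq_false_iff_not] at this
      have : f ≠ 1 := by rintro rfl; omega
      simp [tN]; omega
    · have := tr_le_tN' h.hS h2
      nlinarith
  · have h1 : t ≠ .Sz := by rintro rfl; exact hp h.Sz.1
    have h2 := sq_dvd_two_ord (q := p ^ f) h.hS h1
    have h3 := Nat.eight_dvd_sq_sub_one_of_odd ((h.hp.odd_of_ne_two hp).pow (n := f))
    exact Nat.dvd_of_mul_dvd_mul_left (by norm_num : 0 < 2) (h3.trans h2)

lemma Val.three_dvd {t : Ty} {n p f : ℕ} (h : Val t n p f) (h1 : t ≠ .Sz) :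
    3 ∣ ord t n (p ^ f) := by
  by_cases hp : p = 3
  · subst hp; exact h.dvd
  · have h2 := sq_dvd_two_ord (q := p ^ f) h.hS h1
    have h3 : ¬3 ∣ p ^ f := fun hd =>
      hp ((Nat.prime_dvd_prime_iff_eq Nat.prime_three h.hp).1
        (Nat.prime_three.dvd_of_dvd_pow hd)).symm
    have h4 : 3 ∣ (p ^ f) ^ 2 - 1 := by
      generalize p ^ f = q at *
      have : q % 3 = 1 ∨ q % 3 = 2 := by omega
      have : q ^ 2 % 3 = 1 := by
        rcases this with h | h <;> simp [Nat.pow_mod, h]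
      omega
    exact (Nat.Coprime.dvd_mul_left (by norm_num)).1 (h4.trans h2)

lemma Val.Sz_dvd {n p f : ℕ} (h : Val .Sz n p f) : 64 ∣ ord .Sz n (p ^ f) := by
  obtain ⟨rfl, -, h3⟩ := h.Sz
  refine dvd_trans ?_ (pow_dvd_ord h.hS)
  rw [← pow_mul]
  exact (show 64 ∣ 2 ^ 6 by norm_num).trans (pow_dvd_pow _ (by simp [tN]; omega))

lemma twelve_dvd_half {k : ℕ} (hk : 5 ≤ k) : 12 ∣ k.factorial / 2 := by
  have h1 : (4 : ℕ).factorial ∣ k.factorial := Nat.factorial_dvd_factorial (by omega)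
  rw [← two_mul_half (show 2 ≤ k by omega)] at h1
  exact Nat.dvd_of_mul_dvd_mul_left (by norm_num : 0 < 2) h1

lemma spor_twelve : ∀ c ∈ sporadicOrders, 12 ∣ c := by decide +kernel

/-- `x` is a simple order that is not given as an order of Lie type in characteristic `p` -/
def NonP (p x : ℕ) : Prop :=
  (∃ k, 5 ≤ k ∧ x = k.factorial / 2) ∨ x ∈ sporadicOrders ∨
    ∃ t n s g, Val t n s g ∧ s ≠ p ∧ x = ord t n (s ^ g)

lemma NonP.four_dvd {p x : ℕ} (h : NonP p x) : 4 ∣ x := by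
  rcases h with ⟨k, hk, rfl⟩ | h | ⟨t, n, s, g, hv, -, rfl⟩
  · exact (show 4 ∣ 12 by norm_num).trans (twelve_dvd_half hk)
  · exact (show 4 ∣ 12 by norm_num).trans (spor_twelve x h)
  · exact hv.four_dvd

lemma NonP.three_dvd {p x : ℕ} (h : NonP p x) : 3 ∣ x ∨ (p ≠ 2 ∧ 64 ∣ x) := by
  rcases h with ⟨k, hk, rfl⟩ | h | ⟨t, n, s, g, hv, hs, rfl⟩
  · exact Or.inl ((show 3 ∣ 12 by norm_num).trans (twelve_dvd_half hk))
  · exact Or.inl ((show 3 ∣ 12 by norm_num).trans (spor_twelve x h))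
  · by_cases h1 : t = .Sz
    · subst h1
      exact Or.inr ⟨by rw [← hv.Sz.1]; exact hs.symm, hv.Sz_dvd⟩
    · exact Or.inl (hv.three_dvd h1)

lemma Val.ge60 {t : Ty} {n p f : ℕ} (h : Val t n p f) : 60 ≤ ord t n (p ^ f) := by
  by_contra hc
  have h1 : Lie (ord t n (p ^ f)) := ⟨t, n, p, f, h, rfl⟩
  have h2 := h1.two_le
  refine notLie_sound (List.all_eq_true.1 lie_small_check _
    (by rw [List.mem_range'_1]; omega)) (fun p hp hd => mem_primesTo hp ?_ (by norm_num)) h1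
  have := Nat.le_of_dvd (by omega) hd
  omega

lemma NonP.ge {p x : ℕ} (h : NonP p x) : 60 ≤ x := by
  rcases h with ⟨k, hk, rfl⟩ | h | ⟨t, n, s, g, hv, hs, rfl⟩
  · exact half_ge hk
  · exact spor_ge60 x h
  · exact hv.ge60

lemma SimpleOrder.nonP_or {x : ℕ} (h : SimpleOrder x) (p : ℕ) :
    NonP p x ∨ ∃ t n g, Val t n p g ∧ x = ord t n (p ^ g) := by
  rcases simpleOrder_cases h with h | ⟨t, n, s, g, hv, rfl⟩ | h
  · exact Or.inl (Or.inl h)
  · by_cases hs : s = p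
    · subst hs; exact Or.inr ⟨t, n, g, hv, rfl⟩
    · exact Or.inl (Or.inr (Or.inr ⟨t, n, s, g, hv, hs, rfl⟩))
  · exact Or.inl (Or.inr (Or.inl h))

end Pool.Agent.Lib.MP_343319_al
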