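import Pool.Agent.Lib.MP_343319_al.Basic
import Pool.Agent.Lib.MP_343319_al.Pent

namespace Pool.Agent.Lib.MP_343319_al

open Finset

lemma cast_pow_sub {q : ℕ} (hq : 1 ≤ q) (i : ℕ) : ((q ^ i - 1 : ℕ) : ℤ) = (q : ℤ) ^ i - 1 := by
  have : 1 ≤ q ^ i := Nat.one_le_pow _ _ hq
  push_cast [this]; ring

lemma dvd_of_eq' {a b c : ℤ} (h : a ∣ b) (e : b = c) : a ∣ c := e ▸ h

lemma t2_core {p a m d R : ℕ} (hp : p.Prime) (hP : p ^ a ∣ (m + 1) * m)
    (hd : d * ((m + 1) * m) = p ^ a * R) (hm : 1 ≤ m) :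
    ∃ b, 1 ≤ b ∧ (R + d * b = d * b * (p ^ a * b) ∨ R = d * b * (p ^ a * b + 1)) := by
  have hc : Nat.Coprime (m + 1) m := by simp
  have hpos : 0 < p ^ a := pow_pos hp.pos _
  have : p ^ a ∣ m + 1 ∨ p ^ a ∣ m := by
    rcases Nat.eq_zero_or_pos a with rfl | ha
    · simp
    · exact (Nat.Coprime.isPrimePow_dvd_mul hc (hp.isPrimePow.pow (by omega))).1 hP
  rcases this with ⟨b, hb⟩ | ⟨b, hb⟩
  · refine ⟨b, ?_, Or.inl ?_⟩
    · rcases b with _ | b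
      · simp at hb
      · omega
    · apply Nat.eq_of_mul_eq_mul_left hpos
      rw [mul_add, ← hd, ← hb]
      have : p ^ a * (d * b) = d * (m + 1) := by rw [hb]; ring
      rw [this]
      have : p ^ a * (d * b * (m + 1)) = d * (m + 1) * (m + 1) := by rw [← this]; ring
      rw [this]; ring
  · refine ⟨b, ?_, Or.inr ?_⟩
    · rcases b with _ | b
      · simp at hb; omega
      · omega
    · apply Nat.eq_of_mul_eq_mul_left hpos
      rw [← hd, ← hb]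
      have : p ^ a * (d * b * (m + 1)) = d * (p ^ a * b) * (m + 1) := by ring
      rw [this, ← hb]; ring

def T2data (t : Ty) (n q : ℕ) : Prop :=
  ∃ z : ℤ, z ^ 2 ≤ 2 * td t n q * (q : ℤ) ^ tr t n ∧ (q : ℤ) ^ tN t n ∣ (tR t n q : ℤ) - z

lemma t2_val {t : Ty} {n p f m : ℕ} (h : Val t n p f) (hm : ord t n (p ^ f) = (m + 1) * m) :
    ∃ b, 1 ≤ b ∧ (tR t n (p ^ f) + td t n (p ^ f) * b =
        td t n (p ^ f) * b * ((p ^ f) ^ tN t n * b) ∨
      tR t n (p ^ f) = td t n (p ^ f) * b * ((p ^ f) ^ tN t n * b + 1)) := by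
  have h1 := td_mul_ord (q := p ^ f) h.hS
  have h2 := pow_dvd_ord (q := p ^ f) h.hS
  have h3 := ord_pos h.two_le h.hS
  rw [hm] at h1 h2 h3
  rw [← pow_mul] at h1 h2 ⊢
  refine t2_core h.hp h2 h1 ?_
  rcases m with _ | m
  · simp at h3
  · omega

lemma t2data_of {t : Ty} {n p f m : ℕ} (h : Val t n p f) (hm : ord t n (p ^ f) = (m + 1) * m) :
    T2data t n (p ^ f) := by
  obtain ⟨b, hb, hb2⟩ := t2_val h hm
  have hq := h.two_le
  have hR := tR_le hq h.hS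
  have hN := tr_le_tN h.hS
  generalize p ^ f = q at *
  have hP : 2 ≤ q ^ tN t n := Nat.one_lt_pow (by omega) (by omega)
  rw [pow_add] at hR
  unfold T2data
  rw [← Nat.cast_pow, ← Nat.cast_pow]
  generalize q ^ tN t n = P at *
  generalize q ^ tr t n = Q at *
  generalize tR t n q = R at *
  generalize td t n q = d at *
  have key : (d * b) ^ 2 ≤ 2 * d * Q := by
    apply Nat.le_of_mul_le_mul_left _ (show 0 < P by omega)
    have e : P * (d * b) ^ 2 = d * (d * b * (P * b)) := by ring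
    have e2 : P * (2 * d * Q) = d * (2 * (P * Q)) := by ring
    rw [e, e2]
    apply Nat.mul_le_mul_left
    rcases hb2 with hb2 | hb2
    · have : 2 ≤ P * b := by nlinarith
      have : d * b * 2 ≤ d * b * (P * b) := Nat.mul_le_mul_left _ this
      omega
    · have : d * b * (P * b) ≤ R := by rw [hb2]; exact Nat.mul_le_mul_left _ (by omega)
      omega
  rcases hb2 with hb2 | hb2
  · refine ⟨-(d * b : ℕ), by rw [neg_sq]; exact_mod_cast key, ⟨d * b * b, ?_⟩⟩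
    have : ((R + d * b : ℕ) : ℤ) = (d * b * (P * b) : ℕ) := by rw [hb2]
    push_cast at this ⊢
    linarith
  · refine ⟨(d * b : ℕ), by exact_mod_cast key, ⟨d * b * b, ?_⟩⟩
    rw [hb2]; push_cast; ring

lemma expl {q : ℕ} (hq : 16 ≤ q) {t : Ty} {n : ℕ} (h : T2data t n q) (K : ℕ) (s g : ℤ) (dm : ℕ)
    (hs : s = 1 ∨ s = -1) (hK : K + 1 ≤ tN t n) (hd : td t n q ≤ dm)
    (hr : (dm ≤ 1 ∧ tr t n + 1 ≤ 2 * K) ∨ (dm ≤ 4 ∧ tr t n + 2 ≤ 2 * K))
    (hg : (q : ℤ) ^ (K + 1) ∣ (tR t n q : ℤ) - g)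
    (h1 : (q : ℤ) ^ K ≤ 2 * (s * g)) (h2 : s * g ≤ 3 * (q : ℤ) ^ K) : False := by
  obtain ⟨z, hz, hz2⟩ := h
  have hq' : (16 : ℤ) ≤ q := by exact_mod_cast hq
  have hQ : (0 : ℤ) < (q : ℤ) ^ K := by positivity
  have hr0 : (0 : ℤ) < (q : ℤ) ^ tr t n := by positivity
  have hd' : (td t n q : ℤ) ≤ dm := by exact_mod_cast hd
  have hsg : |g| = s * g := by
    rcases hs with rfl | rfl
    · rw [one_mul] at h1 ⊢; exact abs_of_nonneg (by linarith)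
    · rw [neg_one_mul] at h1 ⊢; exact abs_of_nonpos (by linarith)
  have h3 : (2 * |z|) ^ 2 < ((q : ℤ) ^ K) ^ 2 := by
    rw [mul_pow, sq_abs, ← pow_mul, mul_comm K]
    rcases hr with ⟨ha, hb⟩ | ⟨ha, hb⟩
    · have : (q : ℤ) ^ (tr t n + 1) ≤ (q : ℤ) ^ (2 * K) := pow_le_pow_right₀ (by linarith) hb
      have ha' : (dm : ℤ) ≤ 1 := by exact_mod_cast ha
      rw [pow_succ] at this
      nlinarith
    · have : (q : ℤ) ^ (tr t n + 2) ≤ (q : ℤ) ^ (2 * K) := pow_le_pow_right₀ (by linarith) hb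
      have ha' : (dm : ℤ) ≤ 4 := by exact_mod_cast ha
      rw [pow_add] at this
      have h256 : (256 : ℤ) ≤ (q : ℤ) ^ 2 := by nlinarith
      nlinarith
  have h4 : 2 * |z| < (q : ℤ) ^ K := lt_of_pow_lt_pow_left₀ 2 hQ.le h3
  have h5 : (q : ℤ) ^ (K + 1) ∣ g - z := by
    have := dvd_sub ((pow_dvd_pow _ hK).trans hz2) hg
    exact dvd_of_eq' this (by ring)
  refine fin_lemma h5 (by linarith) ?_
  rw [pow_succ]
  nlinarith

lemma EP_A (q k : ℕ) (hq : 1 ≤ q) :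
    ∃ s : ℤ, (s = 1 ∨ s = -1) ∧ EP q (k + 1) = s * (1 - q) * pA q k := by
  induction k with
  | zero => exact ⟨1, Or.inl rfl, by simp [EP, pA]⟩
  | succ k ih =>
    obtain ⟨s, hs, h⟩ := ih
    refine ⟨-s, by omega, ?_⟩
    unfold EP at h ⊢
    rw [prod_range_succ, h, pA]; push_cast [cast_pow_sub hq]; ring

lemma EP_U (q k : ℕ) (hq : 1 ≤ q) :
    ∃ s : ℤ, (s = 1 ∨ s = -1) ∧ EP (-q) (k + 1) = s * (1 + q) * pU q k := by
  induction k with
  | zero => exact ⟨1, Or.inl rfl, by simp [EP, pU]⟩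
  | succ k ih =>
    obtain ⟨s, hs, h⟩ := ih
    unfold EP at h ⊢
    by_cases hk : k % 2 = 0
    · refine ⟨-s, by omega, ?_⟩
      rw [prod_range_succ, h, pU, if_pos hk, Even.neg_pow (by rw [Nat.even_iff]; omega)]
      push_cast [cast_pow_sub hq]; ring
    · refine ⟨s, by omega, ?_⟩
      rw [prod_range_succ, h, pU, if_neg hk, Odd.neg_pow (by rw [Nat.odd_iff]; omega)]
      push_cast; ring

lemma EP_B (q k : ℕ) (hq : 1 ≤ q) :
    ∃ s : ℤ, (s = 1 ∨ s = -1) ∧ EP ((q : ℤ) ^ 2) k = s * pB q k := by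
  induction k with
  | zero => exact ⟨1, Or.inl rfl, by simp [EP, pB]⟩
  | succ k ih =>
    obtain ⟨s, hs, h⟩ := ih
    refine ⟨-s, by omega, ?_⟩
    unfold EP at h ⊢
    rw [prod_range_succ, h, pB]; push_cast [cast_pow_sub hq]; ring

lemma pentA {y : ℤ} (hy : 2 ≤ |y|) {k : ℕ} {j : ℤ} {c : ℕ} (hc : pentagonal j = c + 2)
    (h5 : 3 ≤ c) (hk : c + 2 ≤ k) {z : ℤ} (hz : y ^ (c + 3) ∣ EP y k - z)
    (h2 : (2 * z) ^ 2 < |y| ^ (2 * c + 4)) : False := by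
  obtain ⟨g, hg, hg1, hg2⟩ := pent_key y hy k j c hc h5 hk
  have hQ : 0 < |y| ^ c := by positivity
  have h3 : 2 * |z| < |y| ^ (c + 2) := by
    refine lt_of_pow_lt_pow_left₀ 2 (by positivity) ?_
    rw [mul_pow, sq_abs, ← mul_pow, ← pow_mul]
    have e : (c + 2) * 2 = 2 * c + 4 := by ring
    rw [e]; exact h2
  have h4 : |y| ^ (c + 3) ∣ g - z := by
    rw [← abs_pow, abs_dvd]
    have := dvd_sub hz hg
    exact dvd_of_eq' this (by ring)
  have e2 : |y| ^ (c + 2) = |y| ^ c * |y| ^ 2 := by ring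
  have e3 : |y| ^ (c + 3) = |y| ^ (c + 2) * |y| := by ring
  have h4' : 4 ≤ |y| ^ 2 := by nlinarith
  have h6 : 4 * |y| ^ c ≤ |y| ^ (c + 2) := by rw [e2]; nlinarith
  refine fin_lemma h4 (by linarith) ?_
  rw [e3]; nlinarith

lemma t2_AU {q n : ℕ} (hq : 2 ≤ q) {t : Ty} (ht : t = .A ∨ t = .U) (h : T2data t n q)
    {j : ℤ} {c : ℕ} (hc : pentagonal j = c + 2) (h5 : 3 ≤ c) (hk : c + 2 ≤ n)
    (hb : 8 * (q + 1) ^ 2 * td t n q * q ^ (n - 1) < q ^ (2 * c + 4)) : False := by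
  obtain ⟨z, hz, hz2⟩ := h
  obtain ⟨k, rfl⟩ : ∃ k, n = k + 1 := ⟨n - 1, by omega⟩
  have hq' : (2 : ℤ) ≤ q := by exact_mod_cast hq
  have hb' : 8 * ((q : ℤ) + 1) ^ 2 * td t (k + 1) q * (q : ℤ) ^ k < (q : ℤ) ^ (2 * c + 4) := by
    exact_mod_cast hb
  have hN : c + 3 ≤ (k + 1) * k / 2 := by
    rw [Nat.le_div_iff_mul_le (by norm_num)]; nlinarith
  have hz0 : 0 ≤ z ^ 2 := sq_nonneg z
  rcases ht with rfl | rfl
  · obtain ⟨s, hs, he⟩ := EP_A q k (by omega)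
    simp only [tN, tr, tR, Nat.add_sub_cancel] at hz hz2
    refine pentA (y := q) (by rw [abs_of_nonneg] <;> linarith) hc h5 hk (z := s * (1 - q) * z) ?_ ?_
    · rw [he, ← mul_sub]
      exact Dvd.dvd.mul_left ((pow_dvd_pow _ hN).trans hz2) _
    · rw [abs_of_nonneg (by linarith)]
      have hs2 : s ^ 2 = 1 := by rcases hs with rfl | rfl <;> norm_num
      have : (2 * (s * (1 - q) * z)) ^ 2 = 4 * (1 - q) ^ 2 * z ^ 2 := by
        rw [mul_pow, mul_pow, mul_pow, hs2]; ring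
      rw [this]
      have h7 : (1 - (q : ℤ)) ^ 2 ≤ (q + 1) ^ 2 := by nlinarith
      calc 4 * (1 - (q : ℤ)) ^ 2 * z ^ 2 ≤ 4 * (q + 1) ^ 2 * (2 * td .A (k + 1) q * (q : ℤ) ^ k) := by
            gcongr
        _ < _ := by linarith
  · obtain ⟨s, hs, he⟩ := EP_U q k (by omega)
    simp only [tN, tr, tR, Nat.add_sub_cancel] at hz hz2
    refine pentA (y := -q) (by rw [abs_neg, abs_of_nonneg] <;> linarith) hc h5 hk
      (z := s * (1 + q) * z) ?_ ?_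
    · rw [he, ← mul_sub]
      refine Dvd.dvd.mul_left (dvd_trans ?_ ((pow_dvd_pow _ hN).trans hz2)) _
      exact pow_dvd_pow_of_dvd (neg_dvd.2 dvd_rfl) _
    · rw [abs_neg, abs_of_nonneg (by linarith)]
      have hs2 : s ^ 2 = 1 := by rcases hs with rfl | rfl <;> norm_num
      have : (2 * (s * (1 + q) * z)) ^ 2 = 4 * (q + 1) ^ 2 * z ^ 2 := by
        rw [mul_pow, mul_pow, mul_pow, hs2]; ring
      rw [this]
      calc 4 * ((q : ℤ) + 1) ^ 2 * z ^ 2 ≤ 4 * (q + 1) ^ 2 * (2 * td .U (k + 1) q * (q : ℤ) ^ k) := by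
            gcongr
        _ < _ := by linarith

lemma td_AU_le {q n : ℕ} (hq : 2 ≤ q) (hn : 1 ≤ n) {t : Ty} (ht : t = .A ∨ t = .U) :
    td t n q ≤ q + 1 ∧ td t n q ≤ n := by
  rcases ht with rfl | rfl
  · exact ⟨(Nat.gcd_le_right _ (by omega)).trans (by omega), Nat.gcd_le_left _ hn⟩
  · exact ⟨Nat.gcd_le_right _ (by omega), Nat.gcd_le_left _ hn⟩

lemma t2_AU_big {q n : ℕ} (hq : 2 ≤ q) (hn : 12 ≤ n) {t : Ty} (ht : t = .A ∨ t = .U)
    (h : T2data t n q) : False := by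
  obtain ⟨j, c, hc, h1, h2, h3⟩ := exists_pent n hn
  refine t2_AU hq ht h hc (by omega) h2 ?_
  have hd := (td_AU_le hq (show 1 ≤ n by omega) ht).1
  have e : q ^ (n - 1) * q ^ 8 ≤ q ^ (2 * c + 4) := by
    rw [← pow_add]; exact Nat.pow_le_pow_right (by omega) (by omega)
  have h0 : 0 < q ^ (n - 1) := by positivity
  have h4 : 8 * (q + 1) ^ 3 < q ^ 8 := by
    have : (2 * (q + 1)) ^ 3 ≤ (3 * q) ^ 3 := Nat.pow_le_pow_left (by omega) 3
    have h32 : 2 ^ 5 ≤ q ^ 5 := Nat.pow_le_pow_left hq 5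
    have h3 : 0 < q ^ 3 := by positivity
    have : q ^ 8 = q ^ 5 * q ^ 3 := by ring
    nlinarith
  calc 8 * (q + 1) ^ 2 * td t n q * q ^ (n - 1) ≤ 8 * (q + 1) ^ 2 * (q + 1) * q ^ (n - 1) := by
        gcongr
    _ = q ^ (n - 1) * (8 * (q + 1) ^ 3) := by ring
    _ < q ^ (n - 1) * q ^ 8 := by gcongr
    _ ≤ _ := e

lemma t2_AU_mid {q n : ℕ} (hq : 16 ≤ q) (hn : 5 ≤ n) (hn2 : n ≤ 11) {t : Ty}
    (ht : t = .A ∨ t = .U) (h : T2data t n q) : False := by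
  obtain ⟨j, c, hc, h1, h2, h3⟩ : ∃ (j : ℤ) (c : ℕ), pentagonal j = c + 2 ∧ 3 ≤ c ∧ c + 2 ≤ n ∧
      n ≤ 2 * c + 1 := by
    by_cases h : n ≤ 6
    · exact ⟨2, 3, by decide, by omega, by omega, by omega⟩
    · exact ⟨-2, 5, by decide, by omega, by omega, by omega⟩
  refine t2_AU (by omega) ht h hc h1 h2 ?_
  have hd := (td_AU_le (show 2 ≤ q by omega) (show 1 ≤ n by omega) ht).2
  have e : q ^ (n - 1) * q ^ 4 ≤ q ^ (2 * c + 4) := by
    rw [← pow_add]; exact Nat.pow_le_pow_right (by omega) (by omega)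
  have h0 : 0 < q ^ (n - 1) := by positivity
  have h4 : 8 * (q + 1) ^ 2 * 11 < q ^ 4 := by
    have : (16 * (q + 1)) ^ 2 ≤ (17 * q) ^ 2 := Nat.pow_le_pow_left (by omega) 2
    have h32 : 16 ^ 2 ≤ q ^ 2 := Nat.pow_le_pow_left hq 2
    have : q ^ 4 = q ^ 2 * q ^ 2 := by ring
    nlinarith
  calc 8 * (q + 1) ^ 2 * td t n q * q ^ (n - 1) ≤ 8 * (q + 1) ^ 2 * 11 * q ^ (n - 1) := by
        gcongr; omega
    _ = q ^ (n - 1) * (8 * (q + 1) ^ 2 * 11) := by ring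
    _ < q ^ (n - 1) * q ^ 4 := by gcongr
    _ ≤ _ := e

lemma t2_B {q n : ℕ} (hq : 2 ≤ q) (hn : 5 ≤ n) (h : T2data .B n q) : False := by
  obtain ⟨j, c, hc, h1, h2, h3⟩ : ∃ (j : ℤ) (c : ℕ), pentagonal j = c + 2 ∧ 3 ≤ c ∧ c + 2 ≤ n ∧
      n ≤ 4 * c := by
    by_cases h : n ≤ 11
    · exact ⟨2, 3, by decide, by omega, by omega, by omega⟩
    · obtain ⟨j, c, hc, h1, h2, h3⟩ := exists_pent n (by omega)
      exact ⟨j, c, hc, by omega, h2, by omega⟩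
  obtain ⟨z, hz, hz2⟩ := h
  have hq' : (2 : ℤ) ≤ q := by exact_mod_cast hq
  obtain ⟨s, hs, he⟩ := EP_B q n (by omega)
  simp only [tN, tr, tR, td] at hz hz2
  have hd : ((Nat.gcd 2 (q - 1) : ℕ) : ℤ) ≤ 2 := by
    exact_mod_cast Nat.gcd_le_left _ (by norm_num)
  refine pentA (y := (q : ℤ) ^ 2) (by rw [abs_of_nonneg] <;> nlinarith) hc h1 h2 (z := s * z) ?_ ?_
  · rw [he, ← mul_sub, ← pow_mul]
    exact Dvd.dvd.mul_left ((pow_dvd_pow _ (by nlinarith)).trans hz2) _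
  · rw [abs_of_nonneg (by positivity), ← pow_mul]
    have hs2 : s ^ 2 = 1 := by rcases hs with rfl | rfl <;> norm_num
    have : (2 * (s * z)) ^ 2 = 4 * z ^ 2 := by rw [mul_pow, mul_pow, hs2]; ring
    rw [this]
    have e : (q : ℤ) ^ n * (q : ℤ) ^ 5 ≤ (q : ℤ) ^ (2 * (2 * c + 4)) := by
      rw [← pow_add]; exact pow_le_pow_right₀ (by linarith) (by omega)
    have h32 : (2 : ℤ) ^ 5 ≤ (q : ℤ) ^ 5 := pow_le_pow_left₀ (by norm_num) hq' 5
    have h0 : 0 < (q : ℤ) ^ n := by positivity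
    nlinarith

lemma t2_DE {q n : ℕ} (hq : 2 ≤ q) (hn : 11 ≤ n) {t : Ty} (ht : t = .D ∨ t = .E)
    (h : T2data t n q) : False := by
  obtain ⟨j, c, hc, h1, h2, h3⟩ : ∃ (j : ℤ) (c : ℕ), pentagonal j = c + 2 ∧ 3 ≤ c ∧
      2 * c + 5 ≤ n ∧ n ≤ 4 * c + 4 := by
    by_cases h : n ≤ 14
    · exact ⟨2, 3, by decide, by omega, by omega, by omega⟩
    by_cases h' : n ≤ 24
    · exact ⟨-2, 5, by decide, by omega, by omega, by omega⟩
    · obtain ⟨j, c, hc, h1, h2, h3⟩ := exists_pent ((n - 1) / 2) (by omega)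
      exact ⟨j, c, hc, by omega, by omega, by omega⟩
  obtain ⟨z, hz, hz2⟩ := h
  have hq' : (2 : ℤ) ≤ q := by exact_mod_cast hq
  obtain ⟨s, hs, he⟩ := EP_B q (n - 1) (by omega)
  obtain ⟨g, hg, hg1, hg2⟩ := pent_key ((q : ℤ) ^ 2) (by rw [abs_of_nonneg] <;> nlinarith) (n - 1)
    j c hc h1 (by omega)
  rw [abs_of_nonneg (show (0 : ℤ) ≤ (q : ℤ) ^ 2 by positivity)] at hg1 hg2
  have hNn : n ≤ n * (n - 1) := by
    obtain ⟨k, rfl⟩ : ∃ k, n = k + 1 := ⟨n - 1, by omega⟩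
    simp only [Nat.add_sub_cancel]; nlinarith
  have hd : (td t n q : ℤ) ≤ 4 := by
    rcases ht with rfl | rfl <;> exact_mod_cast Nat.gcd_le_left _ (by norm_num)
  have hr : tr t n = n := by rcases ht with rfl | rfl <;> rfl
  have hN : tN t n = n * (n - 1) := by rcases ht with rfl | rfl <;> rfl
  obtain ⟨s', hs', hR⟩ : ∃ s' : ℤ, (s' = 1 ∨ s' = -1) ∧
      (tR t n q : ℤ) = ((q : ℤ) ^ n + s') * pB q (n - 1) := by
    rcases ht with rfl | rfl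
    · exact ⟨-1, Or.inr rfl, by simp only [tR]; push_cast [cast_pow_sub (show 1 ≤ q by omega)]; ring⟩
    · exact ⟨1, Or.inl rfl, by simp only [tR]; push_cast; ring⟩
  rw [hr] at hz; rw [hN, hR] at hz2
  have hss : s' * s' = 1 := by rcases hs' with rfl | rfl <;> norm_num
  have d1 : (q : ℤ) ^ (2 * c + 5) ∣ g - s * s' * z := by
    have a1 : (q : ℤ) ^ (2 * c + 5) ∣ ((q : ℤ) ^ n + s') * pB q (n - 1) - z :=
      (pow_dvd_pow _ (by omega)).trans hz2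
    have a2 : (q : ℤ) ^ (2 * c + 5) ∣ (q : ℤ) ^ n := pow_dvd_pow _ h2
    have a3 : (q : ℤ) ^ (2 * c + 5) ∣ EP ((q : ℤ) ^ 2) (n - 1) - g := by
      refine dvd_trans ?_ hg
      rw [← pow_mul]; exact pow_dvd_pow _ (by omega)
    have := dvd_sub (dvd_sub (a1.mul_left (s * s')) (a2.mul_left (s * s' * pB q (n - 1)))) a3
    refine dvd_of_eq' this ?_
    rw [he]
    linear_combination (s * pB q (n - 1)) * hss
  have habs : |s * s' * z| = |z| := by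
    rcases hs with rfl | rfl <;> rcases hs' with rfl | rfl <;> simp
  have hQ : 0 < ((q : ℤ) ^ 2) ^ c := by positivity
  have e2 : ((q : ℤ) ^ 2) ^ (c + 2) = ((q : ℤ) ^ 2) ^ c * (q : ℤ) ^ 4 := by ring
  have e3 : (q : ℤ) ^ (2 * c + 5) = ((q : ℤ) ^ 2) ^ (c + 2) * q := by ring
  have h16 : (2 : ℤ) ^ 4 ≤ (q : ℤ) ^ 4 := pow_le_pow_left₀ (by norm_num) hq' 4
  have h6 : 16 * ((q : ℤ) ^ 2) ^ c ≤ ((q : ℤ) ^ 2) ^ (c + 2) := by rw [e2]; nlinarith
  have h7 : 8 * |z| < 7 * ((q : ℤ) ^ 2) ^ (c + 2) := by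
    refine lt_of_pow_lt_pow_left₀ 2 (by positivity) ?_
    rw [mul_pow, sq_abs, mul_pow, ← pow_mul, ← pow_mul]
    have e : (q : ℤ) ^ n * (q : ℤ) ^ 4 ≤ (q : ℤ) ^ (2 * ((c + 2) * 2)) := by
      rw [← pow_add]; exact pow_le_pow_right₀ (by linarith) (by omega)
    have h0 : 0 < (q : ℤ) ^ n := by positivity
    nlinarith
  refine fin_lemma d1 (by rw [habs]; linarith) ?_
  rw [habs, e3]
  nlinarith

end Pool.Agent.Lib.MP_343319_al
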