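import Pool.Agent.Lib.MP_343319_al.T2a

namespace Pool.Agent.Lib.MP_343319_al

lemma ex_A3 (q : ℕ) (hq : 16 ≤ q) (h : T2data .A 3 q) : False := by
  have c : ∀ i, ((q ^ i - 1 : ℕ) : ℤ) = (q : ℤ) ^ i - 1 := cast_pow_sub (by omega)
  have c1 : ((q - 1 : ℕ) : ℤ) = (q : ℤ) - 1 := by simpa using c 1
  refine expl hq h 2 (-1) ((1) * (q : ℤ) ^ 0 + (-1) * (q : ℤ) ^ 2) 4 (by norm_num) (by decide) ?_ (by decide) ?_ ?_ ?_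
  · simp only [td]; first | exact le_rfl | exact Nat.gcd_le_left _ (by norm_num) | exact (Nat.gcd_le_left _ (by norm_num)).trans (by norm_num) | norm_num
  · refine ⟨(-1) * (q : ℤ) ^ 0 + (1) * (q : ℤ) ^ 2, ?_⟩
    simp only [tR, pA, pU, pB, Nat.reduceSub, Nat.reduceMod, Nat.reduceAdd, Nat.reduceMul, ↓reduceIte, reduceCtorEq, OfNat.one_ne_ofNat, one_ne_zero]
    push_cast [c, c1]
    ring
  · obtain ⟨w, rfl⟩ : ∃ w, q = w + 16 := ⟨q - 16, by omega⟩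
    rw [← sub_nonneg]
    have : (0 : ℤ) ≤ (254) * (w : ℤ) ^ 0 + (32) * (w : ℤ) ^ 1 + (1) * (w : ℤ) ^ 2 := by positivity
    refine this.trans_eq ?_
    push_cast
    ring
  · obtain ⟨w, rfl⟩ : ∃ w, q = w + 16 := ⟨q - 16, by omega⟩
    rw [← sub_nonneg]
    have : (0 : ℤ) ≤ (513) * (w : ℤ) ^ 0 + (64) * (w : ℤ) ^ 1 + (2) * (w : ℤ) ^ 2 := by positivity
    refine this.trans_eq ?_
    push_cast
    ring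

lemma ex_A4 (q : ℕ) (hq : 16 ≤ q) (h : T2data .A 4 q) : False := by
  have c : ∀ i, ((q ^ i - 1 : ℕ) : ℤ) = (q : ℤ) ^ i - 1 := cast_pow_sub (by omega)
  have c1 : ((q - 1 : ℕ) : ℤ) = (q : ℤ) - 1 := by simpa using c 1
  refine expl hq h 3 (1) ((-1) * (q : ℤ) ^ 0 + (1) * (q : ℤ) ^ 2 + (1) * (q : ℤ) ^ 3) 4 (by norm_num) (by decide) ?_ (by decide) ?_ ?_ ?_
  · simp only [td]; first | exact le_rfl | exact Nat.gcd_le_left _ (by norm_num) | exact (Nat.gcd_le_left _ (by norm_num)).trans (by norm_num) | norm_num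
  · refine ⟨(1) * (q : ℤ) ^ 0 + (-1) * (q : ℤ) ^ 1 + (-1) * (q : ℤ) ^ 2 + (-1) * (q : ℤ) ^ 3 + (1) * (q : ℤ) ^ 5, ?_⟩
    simp only [tR, pA, pU, pB, Nat.reduceSub, Nat.reduceMod, Nat.reduceAdd, Nat.reduceMul, ↓reduceIte, reduceCtorEq, OfNat.one_ne_ofNat, one_ne_zero]
    push_cast [c, c1]
    ring
  · obtain ⟨w, rfl⟩ : ∃ w, q = w + 16 := ⟨q - 16, by omega⟩
    rw [← sub_nonneg]
    have : (0 : ℤ) ≤ (4606) * (w : ℤ) ^ 0 + (832) * (w : ℤ) ^ 1 + (50) * (w : ℤ) ^ 2 + (1) * (w : ℤ) ^ 3 := by positivity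
    refine this.trans_eq ?_
    push_cast
    ring
  · obtain ⟨w, rfl⟩ : ∃ w, q = w + 16 := ⟨q - 16, by omega⟩
    rw [← sub_nonneg]
    have : (0 : ℤ) ≤ (7937) * (w : ℤ) ^ 0 + (1504) * (w : ℤ) ^ 1 + (95) * (w : ℤ) ^ 2 + (2) * (w : ℤ) ^ 3 := by positivity
    refine this.trans_eq ?_
    push_cast
    ring

lemma ex_U3 (q : ℕ) (hq : 16 ≤ q) (h : T2data .U 3 q) : False := by
  have c : ∀ i, ((q ^ i - 1 : ℕ) : ℤ) = (q : ℤ) ^ i - 1 := cast_pow_sub (by omega)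
  have c1 : ((q - 1 : ℕ) : ℤ) = (q : ℤ) - 1 := by simpa using c 1
  refine expl hq h 2 (1) ((-1) * (q : ℤ) ^ 0 + (1) * (q : ℤ) ^ 2) 4 (by norm_num) (by decide) ?_ (by decide) ?_ ?_ ?_
  · simp only [td]; first | exact le_rfl | exact Nat.gcd_le_left _ (by norm_num) | exact (Nat.gcd_le_left _ (by norm_num)).trans (by norm_num) | norm_num
  · refine ⟨(-1) * (q : ℤ) ^ 0 + (1) * (q : ℤ) ^ 2, ?_⟩
    simp only [tR, pA, pU, pB, Nat.reduceSub, Nat.reduceMod, Nat.reduceAdd, Nat.reduceMul, ↓reduceIte, reduceCtorEq, OfNat.one_ne_ofNat, one_ne_zero]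
    push_cast [c, c1]
    ring
  · obtain ⟨w, rfl⟩ : ∃ w, q = w + 16 := ⟨q - 16, by omega⟩
    rw [← sub_nonneg]
    have : (0 : ℤ) ≤ (254) * (w : ℤ) ^ 0 + (32) * (w : ℤ) ^ 1 + (1) * (w : ℤ) ^ 2 := by positivity
    refine this.trans_eq ?_
    push_cast
    ring
  · obtain ⟨w, rfl⟩ : ∃ w, q = w + 16 := ⟨q - 16, by omega⟩
    rw [← sub_nonneg]
    have : (0 : ℤ) ≤ (513) * (w : ℤ) ^ 0 + (64) * (w : ℤ) ^ 1 + (2) * (w : ℤ) ^ 2 := by positivity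
    refine this.trans_eq ?_
    push_cast
    ring

lemma ex_U4 (q : ℕ) (hq : 16 ≤ q) (h : T2data .U 4 q) : False := by
  have c : ∀ i, ((q ^ i - 1 : ℕ) : ℤ) = (q : ℤ) ^ i - 1 := cast_pow_sub (by omega)
  have c1 : ((q - 1 : ℕ) : ℤ) = (q : ℤ) - 1 := by simpa using c 1
  refine expl hq h 3 (1) ((1) * (q : ℤ) ^ 0 + (-1) * (q : ℤ) ^ 2 + (1) * (q : ℤ) ^ 3) 4 (by norm_num) (by decide) ?_ (by decide) ?_ ?_ ?_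
  · simp only [td]; first | exact le_rfl | exact Nat.gcd_le_left _ (by norm_num) | exact (Nat.gcd_le_left _ (by norm_num)).trans (by norm_num) | norm_num
  · refine ⟨(-1) * (q : ℤ) ^ 0 + (-1) * (q : ℤ) ^ 1 + (1) * (q : ℤ) ^ 2 + (-1) * (q : ℤ) ^ 3 + (1) * (q : ℤ) ^ 5, ?_⟩
    simp only [tR, pA, pU, pB, Nat.reduceSub, Nat.reduceMod, Nat.reduceAdd, Nat.reduceMul, ↓reduceIte, reduceCtorEq, OfNat.one_ne_ofNat, one_ne_zero]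
    push_cast [c, c1]
    ring
  · obtain ⟨w, rfl⟩ : ∃ w, q = w + 16 := ⟨q - 16, by omega⟩
    rw [← sub_nonneg]
    have : (0 : ℤ) ≤ (3586) * (w : ℤ) ^ 0 + (704) * (w : ℤ) ^ 1 + (46) * (w : ℤ) ^ 2 + (1) * (w : ℤ) ^ 3 := by positivity
    refine this.trans_eq ?_
    push_cast
    ring
  · obtain ⟨w, rfl⟩ : ∃ w, q = w + 16 := ⟨q - 16, by omega⟩
    rw [← sub_nonneg]
    have : (0 : ℤ) ≤ (8447) * (w : ℤ) ^ 0 + (1568) * (w : ℤ) ^ 1 + (97) * (w : ℤ) ^ 2 + (2) * (w : ℤ) ^ 3 := by positivity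
    refine this.trans_eq ?_
    push_cast
    ring

lemma ex_B2 (q : ℕ) (hq : 16 ≤ q) (h : T2data .B 2 q) : False := by
  have c : ∀ i, ((q ^ i - 1 : ℕ) : ℤ) = (q : ℤ) ^ i - 1 := cast_pow_sub (by omega)
  have c1 : ((q - 1 : ℕ) : ℤ) = (q : ℤ) - 1 := by simpa using c 1
  refine expl hq h 2 (-1) ((1) * (q : ℤ) ^ 0 + (-1) * (q : ℤ) ^ 2) 4 (by norm_num) (by decide) ?_ (by decide) ?_ ?_ ?_
  · simp only [td]; first | exact le_rfl | exact Nat.gcd_le_left _ (by norm_num) | exact (Nat.gcd_le_left _ (by norm_num)).trans (by norm_num) | norm_num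
  · refine ⟨(-1) * (q : ℤ) ^ 1 + (1) * (q : ℤ) ^ 3, ?_⟩
    simp only [tR, pA, pU, pB, Nat.reduceSub, Nat.reduceMod, Nat.reduceAdd, Nat.reduceMul, ↓reduceIte, reduceCtorEq, OfNat.one_ne_ofNat, one_ne_zero]
    push_cast [c, c1]
    ring
  · obtain ⟨w, rfl⟩ : ∃ w, q = w + 16 := ⟨q - 16, by omega⟩
    rw [← sub_nonneg]
    have : (0 : ℤ) ≤ (254) * (w : ℤ) ^ 0 + (32) * (w : ℤ) ^ 1 + (1) * (w : ℤ) ^ 2 := by positivity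
    refine this.trans_eq ?_
    push_cast
    ring
  · obtain ⟨w, rfl⟩ : ∃ w, q = w + 16 := ⟨q - 16, by omega⟩
    rw [← sub_nonneg]
    have : (0 : ℤ) ≤ (513) * (w : ℤ) ^ 0 + (64) * (w : ℤ) ^ 1 + (2) * (w : ℤ) ^ 2 := by positivity
    refine this.trans_eq ?_
    push_cast
    ring

lemma ex_B3 (q : ℕ) (hq : 16 ≤ q) (h : T2data .B 3 q) : False := by
  have c : ∀ i, ((q ^ i - 1 : ℕ) : ℤ) = (q : ℤ) ^ i - 1 := cast_pow_sub (by omega)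
  have c1 : ((q - 1 : ℕ) : ℤ) = (q : ℤ) - 1 := by simpa using c 1
  refine expl hq h 4 (1) ((-1) * (q : ℤ) ^ 0 + (1) * (q : ℤ) ^ 2 + (1) * (q : ℤ) ^ 4) 4 (by norm_num) (by decide) ?_ (by decide) ?_ ?_ ?_
  · simp only [td]; first | exact le_rfl | exact Nat.gcd_le_left _ (by norm_num) | exact (Nat.gcd_le_left _ (by norm_num)).trans (by norm_num) | norm_num
  · refine ⟨(-1) * (q : ℤ) ^ 3 + (-1) * (q : ℤ) ^ 5 + (1) * (q : ℤ) ^ 7, ?_⟩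
    simp only [tR, pA, pU, pB, Nat.reduceSub, Nat.reduceMod, Nat.reduceAdd, Nat.reduceMul, ↓reduceIte, reduceCtorEq, OfNat.one_ne_ofNat, one_ne_zero]
    push_cast [c, c1]
    ring
  · obtain ⟨w, rfl⟩ : ∃ w, q = w + 16 := ⟨q - 16, by omega⟩
    rw [← sub_nonneg]
    have : (0 : ℤ) ≤ (66046) * (w : ℤ) ^ 0 + (16448) * (w : ℤ) ^ 1 + (1538) * (w : ℤ) ^ 2 + (64) * (w : ℤ) ^ 3 + (1) * (w : ℤ) ^ 4 := by positivity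
    refine this.trans_eq ?_
    push_cast
    ring
  · obtain ⟨w, rfl⟩ : ∃ w, q = w + 16 := ⟨q - 16, by omega⟩
    rw [← sub_nonneg]
    have : (0 : ℤ) ≤ (130817) * (w : ℤ) ^ 0 + (32736) * (w : ℤ) ^ 1 + (3071) * (w : ℤ) ^ 2 + (128) * (w : ℤ) ^ 3 + (2) * (w : ℤ) ^ 4 := by positivity
    refine this.trans_eq ?_
    push_cast
    ring

lemma ex_B4 (q : ℕ) (hq : 16 ≤ q) (h : T2data .B 4 q) : False := by
  have c : ∀ i, ((q ^ i - 1 : ℕ) : ℤ) = (q : ℤ) ^ i - 1 := cast_pow_sub (by omega)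
  have c1 : ((q - 1 : ℕ) : ℤ) = (q : ℤ) - 1 := by simpa using c 1
  refine expl hq h 4 (-1) ((1) * (q : ℤ) ^ 0 + (-1) * (q : ℤ) ^ 2 + (-1) * (q : ℤ) ^ 4) 4 (by norm_num) (by decide) ?_ (by decide) ?_ ?_ ?_
  · simp only [td]; first | exact le_rfl | exact Nat.gcd_le_left _ (by norm_num) | exact (Nat.gcd_le_left _ (by norm_num)).trans (by norm_num) | norm_num
  · refine ⟨(2) * (q : ℤ) ^ 5 + (-1) * (q : ℤ) ^ 11 + (-1) * (q : ℤ) ^ 13 + (1) * (q : ℤ) ^ 15, ?_⟩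
    simp only [tR, pA, pU, pB, Nat.reduceSub, Nat.reduceMod, Nat.reduceAdd, Nat.reduceMul, ↓reduceIte, reduceCtorEq, OfNat.one_ne_ofNat, one_ne_zero]
    push_cast [c, c1]
    ring
  · obtain ⟨w, rfl⟩ : ∃ w, q = w + 16 := ⟨q - 16, by omega⟩
    rw [← sub_nonneg]
    have : (0 : ℤ) ≤ (66046) * (w : ℤ) ^ 0 + (16448) * (w : ℤ) ^ 1 + (1538) * (w : ℤ) ^ 2 + (64) * (w : ℤ) ^ 3 + (1) * (w : ℤ) ^ 4 := by positivity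
    refine this.trans_eq ?_
    push_cast
    ring
  · obtain ⟨w, rfl⟩ : ∃ w, q = w + 16 := ⟨q - 16, by omega⟩
    rw [← sub_nonneg]
    have : (0 : ℤ) ≤ (130817) * (w : ℤ) ^ 0 + (32736) * (w : ℤ) ^ 1 + (3071) * (w : ℤ) ^ 2 + (128) * (w : ℤ) ^ 3 + (2) * (w : ℤ) ^ 4 := by positivity
    refine this.trans_eq ?_
    push_cast
    ring

lemma ex_D4 (q : ℕ) (hq : 16 ≤ q) (h : T2data .D 4 q) : False := by
  have c : ∀ i, ((q ^ i - 1 : ℕ) : ℤ) = (q : ℤ) ^ i - 1 := cast_pow_sub (by omega)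
  have c1 : ((q - 1 : ℕ) : ℤ) = (q : ℤ) - 1 := by simpa using c 1
  refine expl hq h 4 (-1) ((1) * (q : ℤ) ^ 0 + (-1) * (q : ℤ) ^ 2 + (-2) * (q : ℤ) ^ 4) 4 (by norm_num) (by decide) ?_ (by decide) ?_ ?_ ?_
  · simp only [td]; first | exact le_rfl | exact Nat.gcd_le_left _ (by norm_num) | exact (Nat.gcd_le_left _ (by norm_num)).trans (by norm_num) | norm_num
  · refine ⟨(1) * (q : ℤ) ^ 1 + (2) * (q : ℤ) ^ 3 + (1) * (q : ℤ) ^ 5 + (-2) * (q : ℤ) ^ 7 + (-1) * (q : ℤ) ^ 9 + (1) * (q : ℤ) ^ 11, ?_⟩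
    simp only [tR, pA, pU, pB, Nat.reduceSub, Nat.reduceMod, Nat.reduceAdd, Nat.reduceMul, ↓reduceIte, reduceCtorEq, OfNat.one_ne_ofNat, one_ne_zero]
    push_cast [c, c1]
    ring
  · obtain ⟨w, rfl⟩ : ∃ w, q = w + 16 := ⟨q - 16, by omega⟩
    rw [← sub_nonneg]
    have : (0 : ℤ) ≤ (197118) * (w : ℤ) ^ 0 + (49216) * (w : ℤ) ^ 1 + (4610) * (w : ℤ) ^ 2 + (192) * (w : ℤ) ^ 3 + (3) * (w : ℤ) ^ 4 := by positivity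
    refine this.trans_eq ?_
    push_cast
    ring
  · obtain ⟨w, rfl⟩ : ∃ w, q = w + 16 := ⟨q - 16, by omega⟩
    rw [← sub_nonneg]
    have : (0 : ℤ) ≤ (65281) * (w : ℤ) ^ 0 + (16352) * (w : ℤ) ^ 1 + (1535) * (w : ℤ) ^ 2 + (64) * (w : ℤ) ^ 3 + (1) * (w : ℤ) ^ 4 := by positivity
    refine this.trans_eq ?_
    push_cast
    ring

lemma ex_D5 (q : ℕ) (hq : 16 ≤ q) (h : T2data .D 5 q) : False := by
  have c : ∀ i, ((q ^ i - 1 : ℕ) : ℤ) = (q : ℤ) ^ i - 1 := cast_pow_sub (by omega)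
  have c1 : ((q - 1 : ℕ) : ℤ) = (q : ℤ) - 1 := by simpa using c 1
  refine expl hq h 4 (1) ((-1) * (q : ℤ) ^ 0 + (1) * (q : ℤ) ^ 2 + (1) * (q : ℤ) ^ 4) 4 (by norm_num) (by decide) ?_ (by decide) ?_ ?_ ?_
  · simp only [td]; first | exact le_rfl | exact Nat.gcd_le_left _ (by norm_num) | exact (Nat.gcd_le_left _ (by norm_num)).trans (by norm_num) | norm_num
  · refine ⟨(1) * (q : ℤ) ^ 0 + (-1) * (q : ℤ) ^ 2 + (-1) * (q : ℤ) ^ 4 + (-2) * (q : ℤ) ^ 5 + (2) * (q : ℤ) ^ 10 + (1) * (q : ℤ) ^ 11 + (1) * (q : ℤ) ^ 13 + (-1) * (q : ℤ) ^ 15 + (-1) * (q : ℤ) ^ 16 + (-1) * (q : ℤ) ^ 18 + (1) * (q : ℤ) ^ 20, ?_⟩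
    simp only [tR, pA, pU, pB, Nat.reduceSub, Nat.reduceMod, Nat.reduceAdd, Nat.reduceMul, ↓reduceIte, reduceCtorEq, OfNat.one_ne_ofNat, one_ne_zero]
    push_cast [c, c1]
    ring
  · obtain ⟨w, rfl⟩ : ∃ w, q = w + 16 := ⟨q - 16, by omega⟩
    rw [← sub_nonneg]
    have : (0 : ℤ) ≤ (66046) * (w : ℤ) ^ 0 + (16448) * (w : ℤ) ^ 1 + (1538) * (w : ℤ) ^ 2 + (64) * (w : ℤ) ^ 3 + (1) * (w : ℤ) ^ 4 := by positivity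
    refine this.trans_eq ?_
    push_cast
    ring
  · obtain ⟨w, rfl⟩ : ∃ w, q = w + 16 := ⟨q - 16, by omega⟩
    rw [← sub_nonneg]
    have : (0 : ℤ) ≤ (130817) * (w : ℤ) ^ 0 + (32736) * (w : ℤ) ^ 1 + (3071) * (w : ℤ) ^ 2 + (128) * (w : ℤ) ^ 3 + (2) * (w : ℤ) ^ 4 := by positivity
    refine this.trans_eq ?_
    push_cast
    ring

lemma ex_D6 (q : ℕ) (hq : 16 ≤ q) (h : T2data .D 6 q) : False := by
  have c : ∀ i, ((q ^ i - 1 : ℕ) : ℤ) = (q : ℤ) ^ i - 1 := cast_pow_sub (by omega)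
  have c1 : ((q - 1 : ℕ) : ℤ) = (q : ℤ) - 1 := by simpa using c 1
  refine expl hq h 4 (-1) ((1) * (q : ℤ) ^ 0 + (-1) * (q : ℤ) ^ 2 + (-1) * (q : ℤ) ^ 4) 4 (by norm_num) (by decide) ?_ (by decide) ?_ ?_ ?_
  · simp only [td]; first | exact le_rfl | exact Nat.gcd_le_left _ (by norm_num) | exact (Nat.gcd_le_left _ (by norm_num)).trans (by norm_num) | norm_num
  · refine ⟨(-1) * (q : ℤ) ^ 1 + (1) * (q : ℤ) ^ 3 + (2) * (q : ℤ) ^ 5 + (1) * (q : ℤ) ^ 7 + (1) * (q : ℤ) ^ 9 + (-2) * (q : ℤ) ^ 11 + (-2) * (q : ℤ) ^ 13 + (-2) * (q : ℤ) ^ 15 + (1) * (q : ℤ) ^ 17 + (1) * (q : ℤ) ^ 19 + (2) * (q : ℤ) ^ 21 + (1) * (q : ℤ) ^ 23 + (-1) * (q : ℤ) ^ 25 + (-1) * (q : ℤ) ^ 27 + (-1) * (q : ℤ) ^ 29 + (1) * (q : ℤ) ^ 31, ?_⟩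
    simp only [tR, pA, pU, pB, Nat.reduceSub, Nat.reduceMod, Nat.reduceAdd, Nat.reduceMul, ↓reduceIte, reduceCtorEq, OfNat.one_ne_ofNat, one_ne_zero]
    push_cast [c, c1]
    ring
  · obtain ⟨w, rfl⟩ : ∃ w, q = w + 16 := ⟨q - 16, by omega⟩
    rw [← sub_nonneg]
    have : (0 : ℤ) ≤ (66046) * (w : ℤ) ^ 0 + (16448) * (w : ℤ) ^ 1 + (1538) * (w : ℤ) ^ 2 + (64) * (w : ℤ) ^ 3 + (1) * (w : ℤ) ^ 4 := by positivity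
    refine this.trans_eq ?_
    push_cast
    ring
  · obtain ⟨w, rfl⟩ : ∃ w, q = w + 16 := ⟨q - 16, by omega⟩
    rw [← sub_nonneg]
    have : (0 : ℤ) ≤ (130817) * (w : ℤ) ^ 0 + (32736) * (w : ℤ) ^ 1 + (3071) * (w : ℤ) ^ 2 + (128) * (w : ℤ) ^ 3 + (2) * (w : ℤ) ^ 4 := by positivity
    refine this.trans_eq ?_
    push_cast
    ring

lemma ex_D7 (q : ℕ) (hq : 16 ≤ q) (h : T2data .D 7 q) : False := by
  have c : ∀ i, ((q ^ i - 1 : ℕ) : ℤ) = (q : ℤ) ^ i - 1 := cast_pow_sub (by omega)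
  have c1 : ((q - 1 : ℕ) : ℤ) = (q : ℤ) - 1 := by simpa using c 1
  refine expl hq h 7 (1) ((-1) * (q : ℤ) ^ 0 + (1) * (q : ℤ) ^ 2 + (1) * (q : ℤ) ^ 4 + (1) * (q : ℤ) ^ 7) 4 (by norm_num) (by decide) ?_ (by decide) ?_ ?_ ?_
  · simp only [td]; first | exact le_rfl | exact Nat.gcd_le_left _ (by norm_num) | exact (Nat.gcd_le_left _ (by norm_num)).trans (by norm_num) | norm_num
  · refine ⟨(-1) * (q : ℤ) ^ 1 + (-1) * (q : ℤ) ^ 2 + (-1) * (q : ℤ) ^ 3 + (-2) * (q : ℤ) ^ 6 + (1) * (q : ℤ) ^ 9 + (1) * (q : ℤ) ^ 10 + (1) * (q : ℤ) ^ 12 + (2) * (q : ℤ) ^ 13 + (1) * (q : ℤ) ^ 14 + (1) * (q : ℤ) ^ 16 + (-1) * (q : ℤ) ^ 17 + (-1) * (q : ℤ) ^ 19 + (-2) * (q : ℤ) ^ 20 + (-1) * (q : ℤ) ^ 21 + (-1) * (q : ℤ) ^ 23 + (-1) * (q : ℤ) ^ 24 + (2) * (q : ℤ) ^ 27 + (1) * (q : ℤ) ^ 30 + (1) * (q : ℤ) ^ 31 + (1) * (q : ℤ)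 ^ 32 + (-1) * (q : ℤ) ^ 34 + (-1) * (q : ℤ) ^ 37 + (-1) * (q : ℤ) ^ 39 + (1) * (q : ℤ) ^ 41, ?_⟩
    simp only [tR, pA, pU, pB, Nat.reduceSub, Nat.reduceMod, Nat.reduceAdd, Nat.reduceMul, ↓reduceIte, reduceCtorEq, OfNat.one_ne_ofNat, one_ne_zero]
    push_cast [c, c1]
    ring
  · obtain ⟨w, rfl⟩ : ∃ w, q = w + 16 := ⟨q - 16, by omega⟩
    rw [← sub_nonneg]
    have : (0 : ℤ) ≤ (268567038) * (w : ℤ) ^ 0 + (117473344) * (w : ℤ) ^ 1 + (22023170) * (w : ℤ) ^ 2 + (2293888) * (w : ℤ) ^ 3 + (143362) * (w : ℤ) ^ 4 + (5376) * (w : ℤ) ^ 5 + (112) * (w : ℤ) ^ 6 + (1) * (w : ℤ) ^ 7 := by positivity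
    refine this.trans_eq ?_
    push_cast
    ring
  · obtain ⟨w, rfl⟩ : ∃ w, q = w + 16 := ⟨q - 16, by omega⟩
    rw [← sub_nonneg]
    have : (0 : ℤ) ≤ (536805121) * (w : ℤ) ^ 0 + (234864608) * (w : ℤ) ^ 1 + (44038655) * (w : ℤ) ^ 2 + (4587456) * (w : ℤ) ^ 3 + (286719) * (w : ℤ) ^ 4 + (10752) * (w : ℤ) ^ 5 + (224) * (w : ℤ) ^ 6 + (2) * (w : ℤ) ^ 7 := by positivity
    refine this.trans_eq ?_
    push_cast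
    ring

lemma ex_D8 (q : ℕ) (hq : 16 ≤ q) (h : T2data .D 8 q) : False := by
  have c : ∀ i, ((q ^ i - 1 : ℕ) : ℤ) = (q : ℤ) ^ i - 1 := cast_pow_sub (by omega)
  have c1 : ((q - 1 : ℕ) : ℤ) = (q : ℤ) - 1 := by simpa using c 1
  refine expl hq h 8 (-1) ((1) * (q : ℤ) ^ 0 + (-1) * (q : ℤ) ^ 2 + (-1) * (q : ℤ) ^ 4 + (-1) * (q : ℤ) ^ 8) 4 (by norm_num) (by decide) ?_ (by decide) ?_ ?_ ?_
  · simp only [td]; first | exact le_rfl | exact Nat.gcd_le_left _ (by norm_num) | exact (Nat.gcd_le_left _ (by norm_num)).trans (by norm_num) | norm_num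
  · refine ⟨(2) * (q : ℤ) ^ 1 + (1) * (q : ℤ) ^ 3 + (1) * (q : ℤ) ^ 5 + (1) * (q : ℤ) ^ 7 + (-1) * (q : ℤ) ^ 9 + (-1) * (q : ℤ) ^ 11 + (-2) * (q : ℤ) ^ 13 + (-3) * (q : ℤ) ^ 15 + (1) * (q : ℤ) ^ 19 + (1) * (q : ℤ) ^ 21 + (4) * (q : ℤ) ^ 23 + (1) * (q : ℤ) ^ 25 + (1) * (q : ℤ) ^ 27 + (-3) * (q : ℤ) ^ 31 + (-2) * (q : ℤ) ^ 33 + (-1) * (q : ℤ) ^ 35 + (-1) * (q : ℤ) ^ 37 + (1) * (q : ℤ) ^ 39 + (1) * (q : ℤ) ^ 41 + (1) * (q : ℤ) ^ 43 + (2) * (q : ℤ) ^ 45 + (-1) * (q : ℤ) ^ 47 + (-1) * (q : ℤ) ^ 51 + (-1) * (q : ℤ) ^ 53 + (1) * (q : ℤ) ^ 55, ?_⟩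
    simp only [tR, pA, pU, pB, Nat.reduceSub, Nat.reduceMod, Nat.reduceAdd, Nat.reduceMul, ↓reduceIte, reduceCtorEq, OfNat.one_ne_ofNat, one_ne_zero]
    push_cast [c, c1]
    ring
  · obtain ⟨w, rfl⟩ : ∃ w, q = w + 16 := ⟨q - 16, by omega⟩
    rw [← sub_nonneg]
    have : (0 : ℤ) ≤ (4295098878) * (w : ℤ) ^ 0 + (2147516480) * (w : ℤ) ^ 1 + (469765122) * (w : ℤ) ^ 2 + (58720384) * (w : ℤ) ^ 3 + (4587522) * (w : ℤ) ^ 4 + (229376) * (w : ℤ) ^ 5 + (7168) * (w : ℤ) ^ 6 + (128) * (w : ℤ) ^ 7 + (1) * (w : ℤ) ^ 8 := by positivity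
    refine this.trans_eq ?_
    push_cast
    ring
  · obtain ⟨w, rfl⟩ : ∃ w, q = w + 16 := ⟨q - 16, by omega⟩
    rw [← sub_nonneg]
    have : (0 : ℤ) ≤ (8589868801) * (w : ℤ) ^ 0 + (4294950880) * (w : ℤ) ^ 1 + (939522559) * (w : ℤ) ^ 2 + (117440448) * (w : ℤ) ^ 3 + (9175039) * (w : ℤ) ^ 4 + (458752) * (w : ℤ) ^ 5 + (14336) * (w : ℤ) ^ 6 + (256) * (w : ℤ) ^ 7 + (2) * (w : ℤ) ^ 8 := by positivity
    refine this.trans_eq ?_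
    push_cast
    ring

lemma ex_D9 (q : ℕ) (hq : 16 ≤ q) (h : T2data .D 9 q) : False := by
  have c : ∀ i, ((q ^ i - 1 : ℕ) : ℤ) = (q : ℤ) ^ i - 1 := cast_pow_sub (by omega)
  have c1 : ((q - 1 : ℕ) : ℤ) = (q : ℤ) - 1 := by simpa using c 1
  refine expl hq h 9 (1) ((-1) * (q : ℤ) ^ 0 + (1) * (q : ℤ) ^ 2 + (1) * (q : ℤ) ^ 4 + (1) * (q : ℤ) ^ 9) 4 (by norm_num) (by decide) ?_ (by decide) ?_ ?_ ?_
  · simp only [td]; first | exact le_rfl | exact Nat.gcd_le_left _ (by norm_num) | exact (Nat.gcd_le_left _ (by norm_num)).trans (by norm_num) | norm_num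
  · refine ⟨(-1) * (q : ℤ) ^ 0 + (-1) * (q : ℤ) ^ 1 + (-1) * (q : ℤ) ^ 3 + (-1) * (q : ℤ) ^ 4 + (-1) * (q : ℤ) ^ 8 + (1) * (q : ℤ) ^ 9 + (1) * (q : ℤ) ^ 12 + (1) * (q : ℤ) ^ 13 + (2) * (q : ℤ) ^ 14 + (1) * (q : ℤ) ^ 16 + (1) * (q : ℤ) ^ 17 + (1) * (q : ℤ) ^ 20 + (-1) * (q : ℤ) ^ 21 + (-1) * (q : ℤ) ^ 22 + (-2) * (q : ℤ) ^ 23 + (-1) * (q : ℤ) ^ 24 + (-1) * (q : ℤ) ^ 25 + (-2) * (q : ℤ) ^ 26 + (-1) * (q : ℤ) ^ 28 + (-1) * (q : ℤ) ^ 29 + (-1) * (q : ℤ) ^ 30 + (1) * (q : ℤ) ^ 31 + (1) * (q : ℤ) ^ 32 + (1) * (q : ℤ) ^ 33 + (2) * (q : ℤ) ^ 35 + (1) * (q : ℤ) ^ 36 + (1) * (q : ℤ) ^ 37 + (2) * (q : ℤ) ^ 38 + (1) * (q : ℤ) ^ 39 + (1) * (q : ℤ) ^ 40 + (-1) * (q : ℤ) ^ 41 + (-1) * (q : ℤ) ^ 44 + (-1) * (q : ℤ) ^ 45 + (-2) * (q : ℤ) ^ 47 + (-1) * (q : ℤ) ^ 48 + (-1) * (q : ℤ) ^ 49 + (-1) * (q : ℤ) ^ 52 + (1)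 * (q : ℤ) ^ 53 + (1) * (q : ℤ) ^ 57 + (1) * (q : ℤ) ^ 58 + (1) * (q : ℤ) ^ 60 + (1) * (q : ℤ) ^ 61 + (-1) * (q : ℤ) ^ 62 + (-1) * (q : ℤ) ^ 67 + (-1) * (q : ℤ) ^ 69 + (1) * (q : ℤ) ^ 71, ?_⟩
    simp only [tR, pA, pU, pB, Nat.reduceSub, Nat.reduceMod, Nat.reduceAdd, Nat.reduceMul, ↓reduceIte, reduceCtorEq, OfNat.one_ne_ofNat, one_ne_zero]
    push_cast [c, c1]
    ring
  · obtain ⟨w, rfl⟩ : ∃ w, q = w + 16 := ⟨q - 16, by omega⟩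
    rw [← sub_nonneg]
    have : (0 : ℤ) ≤ (68719608318) * (w : ℤ) ^ 0 + (38654738496) * (w : ℤ) ^ 1 + (9663679490) * (w : ℤ) ^ 2 + (1409286272) * (w : ℤ) ^ 3 + (132120578) * (w : ℤ) ^ 4 + (8257536) * (w : ℤ) ^ 5 + (344064) * (w : ℤ) ^ 6 + (9216) * (w : ℤ) ^ 7 + (144) * (w : ℤ) ^ 8 + (1) * (w : ℤ) ^ 9 := by positivity
    refine this.trans_eq ?_
    push_cast
    ring
  · obtain ⟨w, rfl⟩ : ∃ w, q = w + 16 := ⟨q - 16, by omega⟩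
    rw [← sub_nonneg]
    have : (0 : ℤ) ≤ (137438887681) * (w : ℤ) ^ 0 + (77309394912) * (w : ℤ) ^ 1 + (19327351295) * (w : ℤ) ^ 2 + (2818572224) * (w : ℤ) ^ 3 + (264241151) * (w : ℤ) ^ 4 + (16515072) * (w : ℤ) ^ 5 + (688128) * (w : ℤ) ^ 6 + (18432) * (w : ℤ) ^ 7 + (288) * (w : ℤ) ^ 8 + (2) * (w : ℤ) ^ 9 := by positivity
    refine this.trans_eq ?_
    push_cast
    ring

lemma ex_D10 (q : ℕ) (hq : 16 ≤ q) (h : T2data .D 10 q) : False := by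
  have c : ∀ i, ((q ^ i - 1 : ℕ) : ℤ) = (q : ℤ) ^ i - 1 := cast_pow_sub (by omega)
  have c1 : ((q - 1 : ℕ) : ℤ) = (q : ℤ) - 1 := by simpa using c 1
  refine expl hq h 12 (1) ((1) * (q : ℤ) ^ 0 + (-1) * (q : ℤ) ^ 2 + (-1) * (q : ℤ) ^ 4 + (1) * (q : ℤ) ^ 12) 4 (by norm_num) (by decide) ?_ (by decide) ?_ ?_ ?_
  · simp only [td]; first | exact le_rfl | exact Nat.gcd_le_left _ (by norm_num) | exact (Nat.gcd_le_left _ (by norm_num)).trans (by norm_num) | norm_num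
  · refine ⟨(2) * (q : ℤ) ^ 1 + (-3) * (q : ℤ) ^ 11 + (-1) * (q : ℤ) ^ 13 + (-1) * (q : ℤ) ^ 15 + (-2) * (q : ℤ) ^ 17 + (3) * (q : ℤ) ^ 21 + (2) * (q : ℤ) ^ 23 + (2) * (q : ℤ) ^ 25 + (3) * (q : ℤ) ^ 27 + (1) * (q : ℤ) ^ 29 + (-2) * (q : ℤ) ^ 33 + (-2) * (q : ℤ) ^ 35 + (-4) * (q : ℤ) ^ 37 + (-2) * (q : ℤ) ^ 39 + (-2) * (q : ℤ) ^ 41 + (1) * (q : ℤ) ^ 45 + (3) * (q : ℤ) ^ 47 + (2) * (q : ℤ) ^ 49 + (2) * (q : ℤ) ^ 51 + (3) * (q : ℤ) ^ 53 + (-2) * (q : ℤ) ^ 57 + (-1) * (q : ℤ) ^ 59 + (-1) * (q : ℤ) ^ 61 + (-3) * (q : ℤ) ^ 63 + (2) * (q : ℤ) ^ 73 + (1) * (q : ℤ) ^ 75 + (-1) * (q : ℤ) ^ 83 + (-1) * (q : ℤ) ^ 85 + (1) * (q : ℤ) ^ 87, ?_⟩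
    simp only [tR, pA, pU, pB, Nat.reduceSub, Nat.reduceMod, Nat.reduceAdd, Nat.reduceMul, ↓reduceIte, reduceCtorEq, OfNat.one_ne_ofNat, one_ne_zero]
    push_cast [c, c1]
    ring
  · obtain ⟨w, rfl⟩ : ∃ w, q = w + 16 := ⟨q - 16, by omega⟩
    rw [← sub_nonneg]
    have : (0 : ℤ) ≤ (281474976579074) * (w : ℤ) ^ 0 + (211106232500160) * (w : ℤ) ^ 1 + (72567767430142) * (w : ℤ) ^ 2 + (15118284881792) * (w : ℤ) ^ 3 + (2126008811518) * (w : ℤ) ^ 4 + (212600881152) * (w : ℤ) ^ 5 + (15502147584) * (w : ℤ) ^ 6 + (830472192) * (w : ℤ) ^ 7 + (32440320) * (w : ℤ) ^ 8 + (901120) * (w : ℤ) ^ 9 + (16896) * (w : ℤ) ^ 10 + (192) * (w : ℤ) ^ 11 + (1) * (w : ℤ) ^ 12 := by positivity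
    refine this.trans_eq ?_
    push_cast
    ring
  · obtain ⟨w, rfl⟩ : ∃ w, q = w + 16 := ⟨q - 16, by omega⟩
    rw [← sub_nonneg]
    have : (0 : ℤ) ≤ (562949953487103) * (w : ℤ) ^ 0 + (422212465082400) * (w : ℤ) ^ 1 + (145135534867969) * (w : ℤ) ^ 2 + (30236569763904) * (w : ℤ) ^ 3 + (4252017623041) * (w : ℤ) ^ 4 + (425201762304) * (w : ℤ) ^ 5 + (31004295168) * (w : ℤ) ^ 6 + (1660944384) * (w : ℤ) ^ 7 + (64880640) * (w : ℤ) ^ 8 + (1802240) * (w : ℤ) ^ 9 + (33792) * (w : ℤ) ^ 10 + (384) * (w : ℤ) ^ 11 + (2) * (w : ℤ) ^ 12 := by positivity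
    refine this.trans_eq ?_
    push_cast
    ring

lemma ex_E4 (q : ℕ) (hq : 16 ≤ q) (h : T2data .E 4 q) : False := by
  have c : ∀ i, ((q ^ i - 1 : ℕ) : ℤ) = (q : ℤ) ^ i - 1 := cast_pow_sub (by omega)
  have c1 : ((q - 1 : ℕ) : ℤ) = (q : ℤ) - 1 := by simpa using c 1
  refine expl hq h 6 (1) ((-1) * (q : ℤ) ^ 0 + (1) * (q : ℤ) ^ 2 + (1) * (q : ℤ) ^ 6) 4 (by norm_num) (by decide) ?_ (by decide) ?_ ?_ ?_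
  · simp only [td]; first | exact le_rfl | exact Nat.gcd_le_left _ (by norm_num) | exact (Nat.gcd_le_left _ (by norm_num)).trans (by norm_num) | norm_num
  · refine ⟨(-1) * (q : ℤ) ^ 3 + (-1) * (q : ℤ) ^ 7 + (1) * (q : ℤ) ^ 9, ?_⟩
    simp only [tR, pA, pU, pB, Nat.reduceSub, Nat.reduceMod, Nat.reduceAdd, Nat.reduceMul, ↓reduceIte, reduceCtorEq, OfNat.one_ne_ofNat, one_ne_zero]
    push_cast [c, c1]
    ring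
  · obtain ⟨w, rfl⟩ : ∃ w, q = w + 16 := ⟨q - 16, by omega⟩
    rw [← sub_nonneg]
    have : (0 : ℤ) ≤ (16777726) * (w : ℤ) ^ 0 + (6291520) * (w : ℤ) ^ 1 + (983042) * (w : ℤ) ^ 2 + (81920) * (w : ℤ) ^ 3 + (3840) * (w : ℤ) ^ 4 + (96) * (w : ℤ) ^ 5 + (1) * (w : ℤ) ^ 6 := by positivity
    refine this.trans_eq ?_
    push_cast
    ring
  · obtain ⟨w, rfl⟩ : ∃ w, q = w + 16 := ⟨q - 16, by omega⟩
    rw [← sub_nonneg]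
    have : (0 : ℤ) ≤ (33554177) * (w : ℤ) ^ 0 + (12582880) * (w : ℤ) ^ 1 + (1966079) * (w : ℤ) ^ 2 + (163840) * (w : ℤ) ^ 3 + (7680) * (w : ℤ) ^ 4 + (192) * (w : ℤ) ^ 5 + (2) * (w : ℤ) ^ 6 := by positivity
    refine this.trans_eq ?_
    push_cast
    ring

lemma ex_E5 (q : ℕ) (hq : 16 ≤ q) (h : T2data .E 5 q) : False := by
  have c : ∀ i, ((q ^ i - 1 : ℕ) : ℤ) = (q : ℤ) ^ i - 1 := cast_pow_sub (by omega)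
  have c1 : ((q - 1 : ℕ) : ℤ) = (q : ℤ) - 1 := by simpa using c 1
  refine expl hq h 4 (-1) ((1) * (q : ℤ) ^ 0 + (-1) * (q : ℤ) ^ 2 + (-1) * (q : ℤ) ^ 4) 4 (by norm_num) (by decide) ?_ (by decide) ?_ ?_ ?_
  · simp only [td]; first | exact le_rfl | exact Nat.gcd_le_left _ (by norm_num) | exact (Nat.gcd_le_left _ (by norm_num)).trans (by norm_num) | norm_num
  · refine ⟨(1) * (q : ℤ) ^ 0 + (-1) * (q : ℤ) ^ 2 + (-1) * (q : ℤ) ^ 4 + (2) * (q : ℤ) ^ 5 + (2) * (q : ℤ) ^ 10 + (-1) * (q : ℤ) ^ 11 + (-1) * (q : ℤ) ^ 13 + (1) * (q : ℤ) ^ 15 + (-1) * (q : ℤ) ^ 16 + (-1) * (q : ℤ) ^ 18 + (1) * (q : ℤ) ^ 20, ?_⟩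
    simp only [tR, pA, pU, pB, Nat.reduceSub, Nat.reduceMod, Nat.reduceAdd, Nat.reduceMul, ↓reduceIte, reduceCtorEq, OfNat.one_ne_ofNat, one_ne_zero]
    push_cast [c, c1]
    ring
  · obtain ⟨w, rfl⟩ : ∃ w, q = w + 16 := ⟨q - 16, by omega⟩
    rw [← sub_nonneg]
    have : (0 : ℤ) ≤ (66046) * (w : ℤ) ^ 0 + (16448) * (w : ℤ) ^ 1 + (1538) * (w : ℤ) ^ 2 + (64) * (w : ℤ) ^ 3 + (1) * (w : ℤ) ^ 4 := by positivity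
    refine this.trans_eq ?_
    push_cast
    ring
  · obtain ⟨w, rfl⟩ : ∃ w, q = w + 16 := ⟨q - 16, by omega⟩
    rw [← sub_nonneg]
    have : (0 : ℤ) ≤ (130817) * (w : ℤ) ^ 0 + (32736) * (w : ℤ) ^ 1 + (3071) * (w : ℤ) ^ 2 + (128) * (w : ℤ) ^ 3 + (2) * (w : ℤ) ^ 4 := by positivity
    refine this.trans_eq ?_
    push_cast
    ring

lemma ex_E6 (q : ℕ) (hq : 16 ≤ q) (h : T2data .E 6 q) : False := by
  have c : ∀ i, ((q ^ i - 1 : ℕ) : ℤ) = (q : ℤ) ^ i - 1 := cast_pow_sub (by omega)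
  have c1 : ((q - 1 : ℕ) : ℤ) = (q : ℤ) - 1 := by simpa using c 1
  refine expl hq h 4 (1) ((-1) * (q : ℤ) ^ 0 + (1) * (q : ℤ) ^ 2 + (1) * (q : ℤ) ^ 4) 4 (by norm_num) (by decide) ?_ (by decide) ?_ ?_ ?_
  · simp only [td]; first | exact le_rfl | exact Nat.gcd_le_left _ (by norm_num) | exact (Nat.gcd_le_left _ (by norm_num)).trans (by norm_num) | norm_num
  · refine ⟨(-1) * (q : ℤ) ^ 1 + (1) * (q : ℤ) ^ 3 + (-1) * (q : ℤ) ^ 7 + (-1) * (q : ℤ) ^ 9 + (1) * (q : ℤ) ^ 17 + (1) * (q : ℤ) ^ 19 + (-1) * (q : ℤ) ^ 23 + (1) * (q : ℤ) ^ 25 + (-1) * (q : ℤ) ^ 27 + (-1) * (q : ℤ) ^ 29 + (1) * (q : ℤ) ^ 31, ?_⟩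
    simp only [tR, pA, pU, pB, Nat.reduceSub, Nat.reduceMod, Nat.reduceAdd, Nat.reduceMul, ↓reduceIte, reduceCtorEq, OfNat.one_ne_ofNat, one_ne_zero]
    push_cast [c, c1]
    ring
  · obtain ⟨w, rfl⟩ : ∃ w, q = w + 16 := ⟨q - 16, by omega⟩
    rw [← sub_nonneg]
    have : (0 : ℤ) ≤ (66046) * (w : ℤ) ^ 0 + (16448) * (w : ℤ) ^ 1 + (1538) * (w : ℤ) ^ 2 + (64) * (w : ℤ) ^ 3 + (1) * (w : ℤ) ^ 4 := by positivity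
    refine this.trans_eq ?_
    push_cast
    ring
  · obtain ⟨w, rfl⟩ : ∃ w, q = w + 16 := ⟨q - 16, by omega⟩
    rw [← sub_nonneg]
    have : (0 : ℤ) ≤ (130817) * (w : ℤ) ^ 0 + (32736) * (w : ℤ) ^ 1 + (3071) * (w : ℤ) ^ 2 + (128) * (w : ℤ) ^ 3 + (2) * (w : ℤ) ^ 4 := by positivity
    refine this.trans_eq ?_
    push_cast
    ring

lemma ex_E7 (q : ℕ) (hq : 16 ≤ q) (h : T2data .E 7 q) : False := by
  have c : ∀ i, ((q ^ i - 1 : ℕ) : ℤ) = (q : ℤ) ^ i - 1 := cast_pow_sub (by omega)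
  have c1 : ((q - 1 : ℕ) : ℤ) = (q : ℤ) - 1 := by simpa using c 1
  refine expl hq h 7 (1) ((1) * (q : ℤ) ^ 0 + (-1) * (q : ℤ) ^ 2 + (-1) * (q : ℤ) ^ 4 + (1) * (q : ℤ) ^ 7) 4 (by norm_num) (by decide) ?_ (by decide) ?_ ?_ ?_
  · simp only [td]; first | exact le_rfl | exact Nat.gcd_le_left _ (by norm_num) | exact (Nat.gcd_le_left _ (by norm_num)).trans (by norm_num) | norm_num
  · refine ⟨(-1) * (q : ℤ) ^ 1 + (1) * (q : ℤ) ^ 2 + (-1) * (q : ℤ) ^ 3 + (2) * (q : ℤ) ^ 6 + (1) * (q : ℤ) ^ 9 + (-1) * (q : ℤ) ^ 10 + (-1) * (q : ℤ) ^ 12 + (2) * (q : ℤ) ^ 13 + (-1) * (q : ℤ) ^ 14 + (-1) * (q : ℤ) ^ 16 + (-1) * (q : ℤ) ^ 17 + (-1) * (q : ℤ) ^ 19 + (2) * (q : ℤ) ^ 20 + (-1) * (q : ℤ) ^ 21 + (-1) * (q : ℤ) ^ 23 + (1) * (q : ℤ) ^ 24 + (2) * (q : ℤ) ^ 27 + (-1) * (q : ℤ) ^ 30 + (1) * (q : ℤ) ^ 31 + (-1) * (q :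 ℤ) ^ 32 + (1) * (q : ℤ) ^ 34 + (-1) * (q : ℤ) ^ 37 + (-1) * (q : ℤ) ^ 39 + (1) * (q : ℤ) ^ 41, ?_⟩
    simp only [tR, pA, pU, pB, Nat.reduceSub, Nat.reduceMod, Nat.reduceAdd, Nat.reduceMul, ↓reduceIte, reduceCtorEq, OfNat.one_ne_ofNat, one_ne_zero]
    push_cast [c, c1]
    ring
  · obtain ⟨w, rfl⟩ : ∃ w, q = w + 16 := ⟨q - 16, by omega⟩
    rw [← sub_nonneg]
    have : (0 : ℤ) ≤ (268303874) * (w : ℤ) ^ 0 + (117407680) * (w : ℤ) ^ 1 + (22017022) * (w : ℤ) ^ 2 + (2293632) * (w : ℤ) ^ 3 + (143358) * (w : ℤ) ^ 4 + (5376) * (w : ℤ) ^ 5 + (112) * (w : ℤ) ^ 6 + (1) * (w : ℤ) ^ 7 := by positivity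
    refine this.trans_eq ?_
    push_cast
    ring
  · obtain ⟨w, rfl⟩ : ∃ w, q = w + 16 := ⟨q - 16, by omega⟩
    rw [← sub_nonneg]
    have : (0 : ℤ) ≤ (536936703) * (w : ℤ) ^ 0 + (234897440) * (w : ℤ) ^ 1 + (44041729) * (w : ℤ) ^ 2 + (4587584) * (w : ℤ) ^ 3 + (286721) * (w : ℤ) ^ 4 + (10752) * (w : ℤ) ^ 5 + (224) * (w : ℤ) ^ 6 + (2) * (w : ℤ) ^ 7 := by positivity
    refine this.trans_eq ?_
    push_cast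
    ring

lemma ex_E8 (q : ℕ) (hq : 16 ≤ q) (h : T2data .E 8 q) : False := by
  have c : ∀ i, ((q ^ i - 1 : ℕ) : ℤ) = (q : ℤ) ^ i - 1 := cast_pow_sub (by omega)
  have c1 : ((q - 1 : ℕ) : ℤ) = (q : ℤ) - 1 := by simpa using c 1
  refine expl hq h 8 (-1) ((-1) * (q : ℤ) ^ 0 + (1) * (q : ℤ) ^ 2 + (1) * (q : ℤ) ^ 4 + (-1) * (q : ℤ) ^ 8) 4 (by norm_num) (by decide) ?_ (by decide) ?_ ?_ ?_
  · simp only [td]; first | exact le_rfl | exact Nat.gcd_le_left _ (by norm_num) | exact (Nat.gcd_le_left _ (by norm_num)).trans (by norm_num) | norm_num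
  · refine ⟨(1) * (q : ℤ) ^ 3 + (-1) * (q : ℤ) ^ 5 + (-1) * (q : ℤ) ^ 7 + (-1) * (q : ℤ) ^ 9 + (1) * (q : ℤ) ^ 11 + (1) * (q : ℤ) ^ 15 + (1) * (q : ℤ) ^ 19 + (1) * (q : ℤ) ^ 21 + (-1) * (q : ℤ) ^ 25 + (-1) * (q : ℤ) ^ 27 + (-1) * (q : ℤ) ^ 31 + (-1) * (q : ℤ) ^ 35 + (1) * (q : ℤ) ^ 37 + (1) * (q : ℤ) ^ 39 + (1) * (q : ℤ) ^ 41 + (-1) * (q : ℤ) ^ 43 + (1) * (q : ℤ) ^ 47 + (-1) * (q : ℤ) ^ 51 + (-1) * (q : ℤ) ^ 53 + (1) * (q : ℤ) ^ 55, ?_⟩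
    simp only [tR, pA, pU, pB, Nat.reduceSub, Nat.reduceMod, Nat.reduceAdd, Nat.reduceMul, ↓reduceIte, reduceCtorEq, OfNat.one_ne_ofNat, one_ne_zero]
    push_cast [c, c1]
    ring
  · obtain ⟨w, rfl⟩ : ∃ w, q = w + 16 := ⟨q - 16, by omega⟩
    rw [← sub_nonneg]
    have : (0 : ℤ) ≤ (4294835714) * (w : ℤ) ^ 0 + (2147450816) * (w : ℤ) ^ 1 + (469758974) * (w : ℤ) ^ 2 + (58720128) * (w : ℤ) ^ 3 + (4587518) * (w : ℤ) ^ 4 + (229376) * (w : ℤ) ^ 5 + (7168) * (w : ℤ) ^ 6 + (128) * (w : ℤ) ^ 7 + (1) * (w : ℤ) ^ 8 := by positivity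
    refine this.trans_eq ?_
    push_cast
    ring
  · obtain ⟨w, rfl⟩ : ∃ w, q = w + 16 := ⟨q - 16, by omega⟩
    rw [← sub_nonneg]
    have : (0 : ℤ) ≤ (8590000383) * (w : ℤ) ^ 0 + (4294983712) * (w : ℤ) ^ 1 + (939525633) * (w : ℤ) ^ 2 + (117440576) * (w : ℤ) ^ 3 + (9175041) * (w : ℤ) ^ 4 + (458752) * (w : ℤ) ^ 5 + (14336) * (w : ℤ) ^ 6 + (256) * (w : ℤ) ^ 7 + (2) * (w : ℤ) ^ 8 := by positivity
    refine this.trans_eq ?_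
    push_cast
    ring

lemma ex_E9 (q : ℕ) (hq : 16 ≤ q) (h : T2data .E 9 q) : False := by
  have c : ∀ i, ((q ^ i - 1 : ℕ) : ℤ) = (q : ℤ) ^ i - 1 := cast_pow_sub (by omega)
  have c1 : ((q - 1 : ℕ) : ℤ) = (q : ℤ) - 1 := by simpa using c 1
  refine expl hq h 9 (1) ((1) * (q : ℤ) ^ 0 + (-1) * (q : ℤ) ^ 2 + (-1) * (q : ℤ) ^ 4 + (1) * (q : ℤ) ^ 9) 4 (by norm_num) (by decide) ?_ (by decide) ?_ ?_ ?_
  · simp only [td]; first | exact le_rfl | exact Nat.gcd_le_left _ (by norm_num) | exact (Nat.gcd_le_left _ (by norm_num)).trans (by norm_num) | norm_num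
  · refine ⟨(1) * (q : ℤ) ^ 0 + (-1) * (q : ℤ) ^ 1 + (-1) * (q : ℤ) ^ 3 + (1) * (q : ℤ) ^ 4 + (1) * (q : ℤ) ^ 8 + (1) * (q : ℤ) ^ 9 + (-1) * (q : ℤ) ^ 12 + (1) * (q : ℤ) ^ 13 + (-2) * (q : ℤ) ^ 14 + (-1) * (q : ℤ) ^ 16 + (1) * (q : ℤ) ^ 17 + (-1) * (q : ℤ) ^ 20 + (-1) * (q : ℤ) ^ 21 + (1) * (q : ℤ) ^ 22 + (-2) * (q : ℤ) ^ 23 + (1) * (q : ℤ) ^ 24 + (-1) * (q : ℤ) ^ 25 + (2) * (q : ℤ) ^ 26 + (1) * (q : ℤ) ^ 28 + (-1) * (q : ℤ) ^ 29 + (1) * (q : ℤ) ^ 30 + (1) * (q : ℤ) ^ 31 + (-1) * (q : ℤ) ^ 32 + (1) * (q : ℤ) ^ 33 + (2) * (q : ℤ) ^ 35 + (-1) * (q : ℤ) ^ 36 + (1) * (q : ℤ) ^ 37 + (-2) * (q : ℤ) ^ 38 + (1) * (q : ℤ) ^ 39 + (-1) * (q : ℤ) ^ 40 + (-1) * (q : ℤ) ^ 41 + (1) * (q : ℤ) ^ 44 + (-1) * (q : ℤ) ^ 45 + (-2) * (q : ℤ) ^ 47 + (1) * (q : ℤ) ^ 48 + (-1) * (q : ℤ) ^ 49 + (1) * (q : ℤ) ^ 52 + (1) *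 (q : ℤ) ^ 53 + (1) * (q : ℤ) ^ 57 + (-1) * (q : ℤ) ^ 58 + (-1) * (q : ℤ) ^ 60 + (1) * (q : ℤ) ^ 61 + (1) * (q : ℤ) ^ 62 + (-1) * (q : ℤ) ^ 67 + (-1) * (q : ℤ) ^ 69 + (1) * (q : ℤ) ^ 71, ?_⟩
    simp only [tR, pA, pU, pB, Nat.reduceSub, Nat.reduceMod, Nat.reduceAdd, Nat.reduceMul, ↓reduceIte, reduceCtorEq, OfNat.one_ne_ofNat, one_ne_zero]
    push_cast [c, c1]
    ring
  · obtain ⟨w, rfl⟩ : ∃ w, q = w + 16 := ⟨q - 16, by omega⟩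
    rw [← sub_nonneg]
    have : (0 : ℤ) ≤ (68719345154) * (w : ℤ) ^ 0 + (38654672832) * (w : ℤ) ^ 1 + (9663673342) * (w : ℤ) ^ 2 + (1409286016) * (w : ℤ) ^ 3 + (132120574) * (w : ℤ) ^ 4 + (8257536) * (w : ℤ) ^ 5 + (344064) * (w : ℤ) ^ 6 + (9216) * (w : ℤ) ^ 7 + (144) * (w : ℤ) ^ 8 + (1) * (w : ℤ) ^ 9 := by positivity
    refine this.trans_eq ?_
    push_cast
    ring
  · obtain ⟨w, rfl⟩ : ∃ w, q = w + 16 := ⟨q - 16, by omega⟩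
    rw [← sub_nonneg]
    have : (0 : ℤ) ≤ (137439019263) * (w : ℤ) ^ 0 + (77309427744) * (w : ℤ) ^ 1 + (19327354369) * (w : ℤ) ^ 2 + (2818572352) * (w : ℤ) ^ 3 + (264241153) * (w : ℤ) ^ 4 + (16515072) * (w : ℤ) ^ 5 + (688128) * (w : ℤ) ^ 6 + (18432) * (w : ℤ) ^ 7 + (288) * (w : ℤ) ^ 8 + (2) * (w : ℤ) ^ 9 := by positivity
    refine this.trans_eq ?_
    push_cast
    ring

lemma ex_E10 (q : ℕ) (hq : 16 ≤ q) (h : T2data .E 10 q) : False := by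
  have c : ∀ i, ((q ^ i - 1 : ℕ) : ℤ) = (q : ℤ) ^ i - 1 := cast_pow_sub (by omega)
  have c1 : ((q - 1 : ℕ) : ℤ) = (q : ℤ) - 1 := by simpa using c 1
  refine expl hq h 10 (-1) ((-1) * (q : ℤ) ^ 0 + (1) * (q : ℤ) ^ 2 + (1) * (q : ℤ) ^ 4 + (-2) * (q : ℤ) ^ 10) 4 (by norm_num) (by decide) ?_ (by decide) ?_ ?_ ?_
  · simp only [td]; first | exact le_rfl | exact Nat.gcd_le_left _ (by norm_num) | exact (Nat.gcd_le_left _ (by norm_num)).trans (by norm_num) | norm_num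
  · refine ⟨(1) * (q : ℤ) ^ 1 + (-2) * (q : ℤ) ^ 9 + (1) * (q : ℤ) ^ 13 + (1) * (q : ℤ) ^ 15 + (1) * (q : ℤ) ^ 17 + (1) * (q : ℤ) ^ 23 + (-1) * (q : ℤ) ^ 29 + (-1) * (q : ℤ) ^ 31 + (-2) * (q : ℤ) ^ 33 + (2) * (q : ℤ) ^ 45 + (1) * (q : ℤ) ^ 47 + (1) * (q : ℤ) ^ 49 + (-1) * (q : ℤ) ^ 55 + (-1) * (q : ℤ) ^ 61 + (-1) * (q : ℤ) ^ 63 + (-1) * (q : ℤ) ^ 65 + (2) * (q : ℤ) ^ 69 + (-1) * (q : ℤ) ^ 77 + (2) * (q : ℤ) ^ 79 + (-1) * (q : ℤ) ^ 85 + (-1) * (q : ℤ) ^ 87 + (1) * (q : ℤ) ^ 89, ?_⟩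
    simp only [tR, pA, pU, pB, Nat.reduceSub, Nat.reduceMod, Nat.reduceAdd, Nat.reduceMul, ↓reduceIte, reduceCtorEq, OfNat.one_ne_ofNat, one_ne_zero]
    push_cast [c, c1]
    ring
  · obtain ⟨w, rfl⟩ : ∃ w, q = w + 16 := ⟨q - 16, by omega⟩
    rw [← sub_nonneg]
    have : (0 : ℤ) ≤ (3298534751746) * (w : ℤ) ^ 0 + (2061584269248) * (w : ℤ) ^ 1 + (579820581886) * (w : ℤ) ^ 2 + (96636764032) * (w : ℤ) ^ 3 + (10569646078) * (w : ℤ) ^ 4 + (792723456) * (w : ℤ) ^ 5 + (41287680) * (w : ℤ) ^ 6 + (1474560) * (w : ℤ) ^ 7 + (34560) * (w : ℤ) ^ 8 + (480) * (w : ℤ) ^ 9 + (3) * (w : ℤ) ^ 10 := by positivity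
    refine this.trans_eq ?_
    push_cast
    ring
  · obtain ⟨w, rfl⟩ : ∃ w, q = w + 16 := ⟨q - 16, by omega⟩
    rw [← sub_nonneg]
    have : (0 : ℤ) ≤ (1099511693567) * (w : ℤ) ^ 0 + (687194783776) * (w : ℤ) ^ 1 + (193273529857) * (w : ℤ) ^ 2 + (32212254784) * (w : ℤ) ^ 3 + (3523215361) * (w : ℤ) ^ 4 + (264241152) * (w : ℤ) ^ 5 + (13762560) * (w : ℤ) ^ 6 + (491520) * (w : ℤ) ^ 7 + (11520) * (w : ℤ) ^ 8 + (160) * (w : ℤ) ^ 9 + (1) * (w : ℤ) ^ 10 := by positivity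
    refine this.trans_eq ?_
    push_cast
    ring

lemma ex_G20 (q : ℕ) (hq : 16 ≤ q) (h : T2data .G2 0 q) : False := by
  have c : ∀ i, ((q ^ i - 1 : ℕ) : ℤ) = (q : ℤ) ^ i - 1 := cast_pow_sub (by omega)
  have c1 : ((q - 1 : ℕ) : ℤ) = (q : ℤ) - 1 := by simpa using c 1
  refine expl hq h 2 (-1) ((1) * (q : ℤ) ^ 0 + (-1) * (q : ℤ) ^ 2) 4 (by norm_num) (by decide) ?_ (by decide) ?_ ?_ ?_
  · simp only [td]; first | exact le_rfl | exact Nat.gcd_le_left _ (by norm_num) | exact (Nat.gcd_le_left _ (by norm_num)).trans (by norm_num) | norm_num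
  · refine ⟨(-1) * (q : ℤ) ^ 3 + (1) * (q : ℤ) ^ 5, ?_⟩
    simp only [tR, pA, pU, pB, Nat.reduceSub, Nat.reduceMod, Nat.reduceAdd, Nat.reduceMul, ↓reduceIte, reduceCtorEq, OfNat.one_ne_ofNat, one_ne_zero]
    push_cast [c, c1]
    ring
  · obtain ⟨w, rfl⟩ : ∃ w, q = w + 16 := ⟨q - 16, by omega⟩
    rw [← sub_nonneg]
    have : (0 : ℤ) ≤ (254) * (w : ℤ) ^ 0 + (32) * (w : ℤ) ^ 1 + (1) * (w : ℤ) ^ 2 := by positivity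
    refine this.trans_eq ?_
    push_cast
    ring
  · obtain ⟨w, rfl⟩ : ∃ w, q = w + 16 := ⟨q - 16, by omega⟩
    rw [← sub_nonneg]
    have : (0 : ℤ) ≤ (513) * (w : ℤ) ^ 0 + (64) * (w : ℤ) ^ 1 + (2) * (w : ℤ) ^ 2 := by positivity
    refine this.trans_eq ?_
    push_cast
    ring

lemma ex_F40 (q : ℕ) (hq : 16 ≤ q) (h : T2data .F4 0 q) : False := by
  have c : ∀ i, ((q ^ i - 1 : ℕ) : ℤ) = (q : ℤ) ^ i - 1 := cast_pow_sub (by omega)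
  have c1 : ((q - 1 : ℕ) : ℤ) = (q : ℤ) - 1 := by simpa using c 1
  refine expl hq h 6 (-1) ((1) * (q : ℤ) ^ 0 + (-1) * (q : ℤ) ^ 2 + (-1) * (q : ℤ) ^ 6) 4 (by norm_num) (by decide) ?_ (by decide) ?_ ?_ ?_
  · simp only [td]; first | exact le_rfl | exact Nat.gcd_le_left _ (by norm_num) | exact (Nat.gcd_le_left _ (by norm_num)).trans (by norm_num) | norm_num
  · refine ⟨(1) * (q : ℤ) ^ 3 + (-1) * (q : ℤ) ^ 5 + (2) * (q : ℤ) ^ 7 + (-1) * (q : ℤ) ^ 9 + (1) * (q : ℤ) ^ 11 + (-1) * (q : ℤ) ^ 15 + (-1) * (q : ℤ) ^ 19 + (1) * (q : ℤ) ^ 21, ?_⟩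
    simp only [tR, pA, pU, pB, Nat.reduceSub, Nat.reduceMod, Nat.reduceAdd, Nat.reduceMul, ↓reduceIte, reduceCtorEq, OfNat.one_ne_ofNat, one_ne_zero]
    push_cast [c, c1]
    ring
  · obtain ⟨w, rfl⟩ : ∃ w, q = w + 16 := ⟨q - 16, by omega⟩
    rw [← sub_nonneg]
    have : (0 : ℤ) ≤ (16777726) * (w : ℤ) ^ 0 + (6291520) * (w : ℤ) ^ 1 + (983042) * (w : ℤ) ^ 2 + (81920) * (w : ℤ) ^ 3 + (3840) * (w : ℤ) ^ 4 + (96) * (w : ℤ) ^ 5 + (1) * (w : ℤ) ^ 6 := by positivity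
    refine this.trans_eq ?_
    push_cast
    ring
  · obtain ⟨w, rfl⟩ : ∃ w, q = w + 16 := ⟨q - 16, by omega⟩
    rw [← sub_nonneg]
    have : (0 : ℤ) ≤ (33554177) * (w : ℤ) ^ 0 + (12582880) * (w : ℤ) ^ 1 + (1966079) * (w : ℤ) ^ 2 + (163840) * (w : ℤ) ^ 3 + (7680) * (w : ℤ) ^ 4 + (192) * (w : ℤ) ^ 5 + (2) * (w : ℤ) ^ 6 := by positivity
    refine this.trans_eq ?_
    push_cast
    ring

lemma ex_E60 (q : ℕ) (hq : 16 ≤ q) (h : T2data .E6 0 q) : False := by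
  have c : ∀ i, ((q ^ i - 1 : ℕ) : ℤ) = (q : ℤ) ^ i - 1 := cast_pow_sub (by omega)
  have c1 : ((q - 1 : ℕ) : ℤ) = (q : ℤ) - 1 := by simpa using c 1
  refine expl hq h 5 (-1) ((1) * (q : ℤ) ^ 0 + (-1) * (q : ℤ) ^ 2 + (-1) * (q : ℤ) ^ 5) 4 (by norm_num) (by decide) ?_ (by decide) ?_ ?_ ?_
  · simp only [td]; first | exact le_rfl | exact Nat.gcd_le_left _ (by norm_num) | exact (Nat.gcd_le_left _ (by norm_num)).trans (by norm_num) | norm_num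
  · refine ⟨(-1) * (q : ℤ) ^ 0 + (1) * (q : ℤ) ^ 1 + (-1) * (q : ℤ) ^ 3 + (1) * (q : ℤ) ^ 4 + (2) * (q : ℤ) ^ 5 + (-1) * (q : ℤ) ^ 6 + (3) * (q : ℤ) ^ 8 + (-2) * (q : ℤ) ^ 10 + (1) * (q : ℤ) ^ 11 + (1) * (q : ℤ) ^ 12 + (-3) * (q : ℤ) ^ 13 + (-1) * (q : ℤ) ^ 14 + (2) * (q : ℤ) ^ 15 + (-1) * (q : ℤ) ^ 16 + (-3) * (q : ℤ) ^ 17 + (1) * (q : ℤ) ^ 18 + (1) * (q : ℤ) ^ 19 + (-2) * (q : ℤ) ^ 20 + (3) * (q : ℤ) ^ 22 + (-1) * (q : ℤ) ^ 24 + (2) * (q : ℤ) ^ 25 + (1) * (q : ℤ) ^ 26 + (-1) * (q : ℤ) ^ 27 + (1) * (q : ℤ) ^ 29 + (-1) * (q : ℤ) ^ 30 + (-1) * (q : ℤ) ^ 31 + (-1) * (q : ℤ) ^ 34 + (1) * (q : ℤ) ^ 36, ?_⟩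
    simp only [tR, pA, pU, pB, Nat.reduceSub, Nat.reduceMod, Nat.reduceAdd, Nat.reduceMul, ↓reduceIte, reduceCtorEq, OfNat.one_ne_ofNat, one_ne_zero]
    push_cast [c, c1]
    ring
  · obtain ⟨w, rfl⟩ : ∃ w, q = w + 16 := ⟨q - 16, by omega⟩
    rw [← sub_nonneg]
    have : (0 : ℤ) ≤ (1049086) * (w : ℤ) ^ 0 + (327744) * (w : ℤ) ^ 1 + (40962) * (w : ℤ) ^ 2 + (2560) * (w : ℤ) ^ 3 + (80) * (w : ℤ) ^ 4 + (1) * (w : ℤ) ^ 5 := by positivity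
    refine this.trans_eq ?_
    push_cast
    ring
  · obtain ⟨w, rfl⟩ : ∃ w, q = w + 16 := ⟨q - 16, by omega⟩
    rw [← sub_nonneg]
    have : (0 : ℤ) ≤ (2096897) * (w : ℤ) ^ 0 + (655328) * (w : ℤ) ^ 1 + (81919) * (w : ℤ) ^ 2 + (5120) * (w : ℤ) ^ 3 + (160) * (w : ℤ) ^ 4 + (2) * (w : ℤ) ^ 5 := by positivity
    refine this.trans_eq ?_
    push_cast
    ring

lemma ex_U60 (q : ℕ) (hq : 16 ≤ q) (h : T2data .U6 0 q) : False := by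
  have c : ∀ i, ((q ^ i - 1 : ℕ) : ℤ) = (q : ℤ) ^ i - 1 := cast_pow_sub (by omega)
  have c1 : ((q - 1 : ℕ) : ℤ) = (q : ℤ) - 1 := by simpa using c 1
  refine expl hq h 5 (1) ((1) * (q : ℤ) ^ 0 + (-1) * (q : ℤ) ^ 2 + (1) * (q : ℤ) ^ 5) 4 (by norm_num) (by decide) ?_ (by decide) ?_ ?_ ?_
  · simp only [td]; first | exact le_rfl | exact Nat.gcd_le_left _ (by norm_num) | exact (Nat.gcd_le_left _ (by norm_num)).trans (by norm_num) | norm_num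
  · refine ⟨(-1) * (q : ℤ) ^ 0 + (-1) * (q : ℤ) ^ 1 + (1) * (q : ℤ) ^ 3 + (1) * (q : ℤ) ^ 4 + (-2) * (q : ℤ) ^ 5 + (-1) * (q : ℤ) ^ 6 + (3) * (q : ℤ) ^ 8 + (-2) * (q : ℤ) ^ 10 + (-1) * (q : ℤ) ^ 11 + (1) * (q : ℤ) ^ 12 + (3) * (q : ℤ) ^ 13 + (-1) * (q : ℤ) ^ 14 + (-2) * (q : ℤ) ^ 15 + (-1) * (q : ℤ) ^ 16 + (3) * (q : ℤ) ^ 17 + (1) * (q : ℤ) ^ 18 + (-1) * (q : ℤ) ^ 19 + (-2) * (q : ℤ) ^ 20 + (3) * (q : ℤ) ^ 22 + (-1) * (q : ℤ) ^ 24 + (-2) * (q : ℤ) ^ 25 + (1) * (q : ℤ) ^ 26 + (1) * (q : ℤ) ^ 27 + (-1) * (q : ℤ) ^ 29 + (-1) * (q : ℤ) ^ 30 + (1) * (q : ℤ) ^ 31 + (-1) * (q : ℤ) ^ 34 + (1) * (q : ℤ) ^ 36, ?_⟩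
    simp only [tR, pA, pU, pB, Nat.reduceSub, Nat.reduceMod, Nat.reduceAdd, Nat.reduceMul, ↓reduceIte, reduceCtorEq, OfNat.one_ne_ofNat, one_ne_zero]
    push_cast [c, c1]
    ring
  · obtain ⟨w, rfl⟩ : ∃ w, q = w + 16 := ⟨q - 16, by omega⟩
    rw [← sub_nonneg]
    have : (0 : ℤ) ≤ (1048066) * (w : ℤ) ^ 0 + (327616) * (w : ℤ) ^ 1 + (40958) * (w : ℤ) ^ 2 + (2560) * (w : ℤ) ^ 3 + (80) * (w : ℤ) ^ 4 + (1) * (w : ℤ) ^ 5 := by positivity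
    refine this.trans_eq ?_
    push_cast
    ring
  · obtain ⟨w, rfl⟩ : ∃ w, q = w + 16 := ⟨q - 16, by omega⟩
    rw [← sub_nonneg]
    have : (0 : ℤ) ≤ (2097407) * (w : ℤ) ^ 0 + (655392) * (w : ℤ) ^ 1 + (81921) * (w : ℤ) ^ 2 + (5120) * (w : ℤ) ^ 3 + (160) * (w : ℤ) ^ 4 + (2) * (w : ℤ) ^ 5 := by positivity
    refine this.trans_eq ?_
    push_cast
    ring

lemma ex_E70 (q : ℕ) (hq : 16 ≤ q) (h : T2data .E7 0 q) : False := by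
  have c : ∀ i, ((q ^ i - 1 : ℕ) : ℤ) = (q : ℤ) ^ i - 1 := cast_pow_sub (by omega)
  have c1 : ((q - 1 : ℕ) : ℤ) = (q : ℤ) - 1 := by simpa using c 1
  refine expl hq h 6 (1) ((-1) * (q : ℤ) ^ 0 + (1) * (q : ℤ) ^ 2 + (1) * (q : ℤ) ^ 6) 4 (by norm_num) (by decide) ?_ (by decide) ?_ ?_ ?_
  · simp only [td]; first | exact le_rfl | exact Nat.gcd_le_left _ (by norm_num) | exact (Nat.gcd_le_left _ (by norm_num)).trans (by norm_num) | norm_num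
  · refine ⟨(-1) * (q : ℤ) ^ 7 + (-1) * (q : ℤ) ^ 9 + (-1) * (q : ℤ) ^ 13 + (1) * (q : ℤ) ^ 17 + (2) * (q : ℤ) ^ 21 + (1) * (q : ℤ) ^ 25 + (-1) * (q : ℤ) ^ 31 + (-2) * (q : ℤ) ^ 35 + (-1) * (q : ℤ) ^ 39 + (1) * (q : ℤ) ^ 43 + (1) * (q : ℤ) ^ 47 + (1) * (q : ℤ) ^ 49 + (-1) * (q : ℤ) ^ 57 + (-1) * (q : ℤ) ^ 61 + (1) * (q : ℤ) ^ 63, ?_⟩
    simp only [tR, pA, pU, pB, Nat.reduceSub, Nat.reduceMod, Nat.reduceAdd, Nat.reduceMul, ↓reduceIte, reduceCtorEq, OfNat.one_ne_ofNat, one_ne_zero]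
    push_cast [c, c1]
    ring
  · obtain ⟨w, rfl⟩ : ∃ w, q = w + 16 := ⟨q - 16, by omega⟩
    rw [← sub_nonneg]
    have : (0 : ℤ) ≤ (16777726) * (w : ℤ) ^ 0 + (6291520) * (w : ℤ) ^ 1 + (983042) * (w : ℤ) ^ 2 + (81920) * (w : ℤ) ^ 3 + (3840) * (w : ℤ) ^ 4 + (96) * (w : ℤ) ^ 5 + (1) * (w : ℤ) ^ 6 := by positivity
    refine this.trans_eq ?_
    push_cast
    ring
  · obtain ⟨w, rfl⟩ : ∃ w, q = w + 16 := ⟨q - 16, by omega⟩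
    rw [← sub_nonneg]
    have : (0 : ℤ) ≤ (33554177) * (w : ℤ) ^ 0 + (12582880) * (w : ℤ) ^ 1 + (1966079) * (w : ℤ) ^ 2 + (163840) * (w : ℤ) ^ 3 + (7680) * (w : ℤ) ^ 4 + (192) * (w : ℤ) ^ 5 + (2) * (w : ℤ) ^ 6 := by positivity
    refine this.trans_eq ?_
    push_cast
    ring

lemma ex_E80 (q : ℕ) (hq : 16 ≤ q) (h : T2data .E8 0 q) : False := by
  have c : ∀ i, ((q ^ i - 1 : ℕ) : ℤ) = (q : ℤ) ^ i - 1 := cast_pow_sub (by omega)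
  have c1 : ((q - 1 : ℕ) : ℤ) = (q : ℤ) - 1 := by simpa using c 1
  refine expl hq h 8 (-1) ((1) * (q : ℤ) ^ 0 + (-1) * (q : ℤ) ^ 2 + (-1) * (q : ℤ) ^ 8) 4 (by norm_num) (by decide) ?_ (by decide) ?_ ?_ ?_
  · simp only [td]; first | exact le_rfl | exact Nat.gcd_le_left _ (by norm_num) | exact (Nat.gcd_le_left _ (by norm_num)).trans (by norm_num) | norm_num
  · refine ⟨(1) * (q : ℤ) ^ 1 + (-1) * (q : ℤ) ^ 3 + (1) * (q : ℤ) ^ 7 + (-1) * (q : ℤ) ^ 9 + (1) * (q : ℤ) ^ 11 + (1) * (q : ℤ) ^ 13 + (-2) * (q : ℤ) ^ 15 + (3) * (q : ℤ) ^ 17 + (-1) * (q : ℤ) ^ 19 + (-1) * (q : ℤ) ^ 21 + (3) * (q : ℤ) ^ 23 + (-3) * (q : ℤ) ^ 25 + (1) * (q : ℤ) ^ 27 + (1) * (q : ℤ) ^ 29 + (-4) * (q : ℤ) ^ 31 + (3) * (q : ℤ) ^ 33 + (-1) * (q : ℤ) ^ 35 + (-3) * (q : ℤ) ^ 37 + (4) * (q : ℤ) ^ 39 + (-4) * (q : ℤ) ^ 41 + (1) * (q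 : ℤ) ^ 43 + (3) * (q : ℤ) ^ 45 + (-5) * (q : ℤ) ^ 47 + (4) * (q : ℤ) ^ 49 + (-3) * (q : ℤ) ^ 53 + (6) * (q : ℤ) ^ 55 + (-3) * (q : ℤ) ^ 57 + (4) * (q : ℤ) ^ 61 + (-5) * (q : ℤ) ^ 63 + (3) * (q : ℤ) ^ 65 + (1) * (q : ℤ) ^ 67 + (-4) * (q : ℤ) ^ 69 + (4) * (q : ℤ) ^ 71 + (-3) * (q : ℤ) ^ 73 + (-1) * (q : ℤ) ^ 75 + (3) * (q : ℤ) ^ 77 + (-4) * (q : ℤ) ^ 79 + (1) * (q : ℤ) ^ 81 + (1) * (q : ℤ) ^ 83 + (-3) * (q : ℤ) ^ 85 + (3) * (q : ℤ) ^ 87 + (-1) * (q : ℤ) ^ 89 + (-1) * (q : ℤ) ^ 91 + (3) * (q : ℤ) ^ 93 + (-2) * (q : ℤ) ^ 95 + (1) * (q : ℤ) ^ 97 + (1) * (q : ℤ) ^ 99 + (-1) * (q : ℤ) ^ 101 + (1) * (q : ℤ) ^ 103 + (-1) * (q : ℤ) ^ 107 + (1) * (q : ℤ) ^ 109 + (-1) * (q : ℤ) ^ 111 + (-1) * (q : ℤ) ^ 117 + (1) * (q : ℤ) ^ 119, ?_⟩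
    simp only [tR, pA, pU, pB, Nat.reduceSub, Nat.reduceMod, Nat.reduceAdd, Nat.reduceMul, ↓reduceIte, reduceCtorEq, OfNat.one_ne_ofNat, one_ne_zero]
    push_cast [c, c1]
    ring
  · obtain ⟨w, rfl⟩ : ∃ w, q = w + 16 := ⟨q - 16, by omega⟩
    rw [← sub_nonneg]
    have : (0 : ℤ) ≤ (4294967806) * (w : ℤ) ^ 0 + (2147483712) * (w : ℤ) ^ 1 + (469762050) * (w : ℤ) ^ 2 + (58720256) * (w : ℤ) ^ 3 + (4587520) * (w : ℤ) ^ 4 + (229376) * (w : ℤ) ^ 5 + (7168) * (w : ℤ) ^ 6 + (128) * (w : ℤ) ^ 7 + (1) * (w : ℤ) ^ 8 := by positivity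
    refine this.trans_eq ?_
    push_cast
    ring
  · obtain ⟨w, rfl⟩ : ∃ w, q = w + 16 := ⟨q - 16, by omega⟩
    rw [← sub_nonneg]
    have : (0 : ℤ) ≤ (8589934337) * (w : ℤ) ^ 0 + (4294967264) * (w : ℤ) ^ 1 + (939524095) * (w : ℤ) ^ 2 + (117440512) * (w : ℤ) ^ 3 + (9175040) * (w : ℤ) ^ 4 + (458752) * (w : ℤ) ^ 5 + (14336) * (w : ℤ) ^ 6 + (256) * (w : ℤ) ^ 7 + (2) * (w : ℤ) ^ 8 := by positivity
    refine this.trans_eq ?_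
    push_cast
    ring

lemma ex_T40 (q : ℕ) (hq : 16 ≤ q) (h : T2data .T4 0 q) : False := by
  have c : ∀ i, ((q ^ i - 1 : ℕ) : ℤ) = (q : ℤ) ^ i - 1 := cast_pow_sub (by omega)
  have c1 : ((q - 1 : ℕ) : ℤ) = (q : ℤ) - 1 := by simpa using c 1
  refine expl hq h 4 (1) ((1) * (q : ℤ) ^ 0 + (-1) * (q : ℤ) ^ 2 + (1) * (q : ℤ) ^ 4) 4 (by norm_num) (by decide) ?_ (by decide) ?_ ?_ ?_
  · simp only [td]; first | exact le_rfl | exact Nat.gcd_le_left _ (by norm_num) | exact (Nat.gcd_le_left _ (by norm_num)).trans (by norm_num) | norm_num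
  · refine ⟨(-2) * (q : ℤ) ^ 1 + (2) * (q : ℤ) ^ 3 + (-2) * (q : ℤ) ^ 5 + (1) * (q : ℤ) ^ 7 + (-1) * (q : ℤ) ^ 9 + (1) * (q : ℤ) ^ 11, ?_⟩
    simp only [tR, pA, pU, pB, Nat.reduceSub, Nat.reduceMod, Nat.reduceAdd, Nat.reduceMul, ↓reduceIte, reduceCtorEq, OfNat.one_ne_ofNat, one_ne_zero]
    push_cast [c, c1]
    ring
  · obtain ⟨w, rfl⟩ : ∃ w, q = w + 16 := ⟨q - 16, by omega⟩
    rw [← sub_nonneg]
    have : (0 : ℤ) ≤ (65026) * (w : ℤ) ^ 0 + (16320) * (w : ℤ) ^ 1 + (1534) * (w : ℤ) ^ 2 + (64) * (w : ℤ) ^ 3 + (1) * (w : ℤ) ^ 4 := by positivity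
    refine this.trans_eq ?_
    push_cast
    ring
  · obtain ⟨w, rfl⟩ : ∃ w, q = w + 16 := ⟨q - 16, by omega⟩
    rw [← sub_nonneg]
    have : (0 : ℤ) ≤ (131327) * (w : ℤ) ^ 0 + (32800) * (w : ℤ) ^ 1 + (3073) * (w : ℤ) ^ 2 + (128) * (w : ℤ) ^ 3 + (2) * (w : ℤ) ^ 4 := by positivity
    refine this.trans_eq ?_
    push_cast
    ring

lemma ex_Sz0 (q : ℕ) (hq : 16 ≤ q) (h : T2data .Sz 0 q) : False := by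
  have c : ∀ i, ((q ^ i - 1 : ℕ) : ℤ) = (q : ℤ) ^ i - 1 := cast_pow_sub (by omega)
  have c1 : ((q - 1 : ℕ) : ℤ) = (q : ℤ) - 1 := by simpa using c 1
  refine expl hq h 1 (1) ((-1) * (q : ℤ) ^ 0 + (1) * (q : ℤ) ^ 1) 1 (by norm_num) (by decide) ?_ (by decide) ?_ ?_ ?_
  · simp only [td]; first | exact le_rfl | exact Nat.gcd_le_left _ (by norm_num) | exact (Nat.gcd_le_left _ (by norm_num)).trans (by norm_num) | norm_num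
  · refine ⟨(-1) * (q : ℤ) ^ 0 + (1) * (q : ℤ) ^ 1, ?_⟩
    simp only [tR, pA, pU, pB, Nat.reduceSub, Nat.reduceMod, Nat.reduceAdd, Nat.reduceMul, ↓reduceIte, reduceCtorEq, OfNat.one_ne_ofNat, one_ne_zero]
    push_cast [c, c1]
    ring
  · obtain ⟨w, rfl⟩ : ∃ w, q = w + 16 := ⟨q - 16, by omega⟩
    rw [← sub_nonneg]
    have : (0 : ℤ) ≤ (14) * (w : ℤ) ^ 0 + (1) * (w : ℤ) ^ 1 := by positivity
    refine this.trans_eq ?_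
    push_cast
    ring
  · obtain ⟨w, rfl⟩ : ∃ w, q = w + 16 := ⟨q - 16, by omega⟩
    rw [← sub_nonneg]
    have : (0 : ℤ) ≤ (33) * (w : ℤ) ^ 0 + (2) * (w : ℤ) ^ 1 := by positivity
    refine this.trans_eq ?_
    push_cast
    ring

lemma ex_Re0 (q : ℕ) (hq : 16 ≤ q) (h : T2data .Re 0 q) : False := by
  have c : ∀ i, ((q ^ i - 1 : ℕ) : ℤ) = (q : ℤ) ^ i - 1 := cast_pow_sub (by omega)
  have c1 : ((q - 1 : ℕ) : ℤ) = (q : ℤ) - 1 := by simpa using c 1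
  refine expl hq h 1 (1) ((-1) * (q : ℤ) ^ 0 + (1) * (q : ℤ) ^ 1) 1 (by norm_num) (by decide) ?_ (by decide) ?_ ?_ ?_
  · simp only [td]; first | exact le_rfl | exact Nat.gcd_le_left _ (by norm_num) | exact (Nat.gcd_le_left _ (by norm_num)).trans (by norm_num) | norm_num
  · refine ⟨(-1) * (q : ℤ) ^ 1 + (1) * (q : ℤ) ^ 2, ?_⟩
    simp only [tR, pA, pU, pB, Nat.reduceSub, Nat.reduceMod, Nat.reduceAdd, Nat.reduceMul, ↓reduceIte, reduceCtorEq, OfNat.one_ne_ofNat, one_ne_zero]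
    push_cast [c, c1]
    ring
  · obtain ⟨w, rfl⟩ : ∃ w, q = w + 16 := ⟨q - 16, by omega⟩
    rw [← sub_nonneg]
    have : (0 : ℤ) ≤ (14) * (w : ℤ) ^ 0 + (1) * (w : ℤ) ^ 1 := by positivity
    refine this.trans_eq ?_
    push_cast
    ring
  · obtain ⟨w, rfl⟩ : ∃ w, q = w + 16 := ⟨q - 16, by omega⟩
    rw [← sub_nonneg]
    have : (0 : ℤ) ≤ (33) * (w : ℤ) ^ 0 + (2) * (w : ℤ) ^ 1 := by positivity
    refine this.trans_eq ?_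
    push_cast
    ring

lemma ex_V40 (q : ℕ) (hq : 16 ≤ q) (h : T2data .V4 0 q) : False := by
  have c : ∀ i, ((q ^ i - 1 : ℕ) : ℤ) = (q : ℤ) ^ i - 1 := cast_pow_sub (by omega)
  have c1 : ((q - 1 : ℕ) : ℤ) = (q : ℤ) - 1 := by simpa using c 1
  refine expl hq h 3 (1) ((1) * (q : ℤ) ^ 0 + (-1) * (q : ℤ) ^ 1 + (1) * (q : ℤ) ^ 3) 4 (by norm_num) (by decide) ?_ (by decide) ?_ ?_ ?_
  · simp only [td]; first | exact le_rfl | exact Nat.gcd_le_left _ (by norm_num) | exact (Nat.gcd_le_left _ (by norm_num)).trans (by norm_num) | norm_num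
  · refine ⟨(-2) * (q : ℤ) ^ 0 + (1) * (q : ℤ) ^ 1 + (1) * (q : ℤ) ^ 2 + (-2) * (q : ℤ) ^ 3 + (1) * (q : ℤ) ^ 4 + (1) * (q : ℤ) ^ 5 + (-2) * (q : ℤ) ^ 6 + (1) * (q : ℤ) ^ 7 + (-1) * (q : ℤ) ^ 9 + (1) * (q : ℤ) ^ 10, ?_⟩
    simp only [tR, pA, pU, pB, Nat.reduceSub, Nat.reduceMod, Nat.reduceAdd, Nat.reduceMul, ↓reduceIte, reduceCtorEq, OfNat.one_ne_ofNat, one_ne_zero]
    push_cast [c, c1]
    ring
  · obtain ⟨w, rfl⟩ : ∃ w, q = w + 16 := ⟨q - 16, by omega⟩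
    rw [← sub_nonneg]
    have : (0 : ℤ) ≤ (4066) * (w : ℤ) ^ 0 + (766) * (w : ℤ) ^ 1 + (48) * (w : ℤ) ^ 2 + (1) * (w : ℤ) ^ 3 := by positivity
    refine this.trans_eq ?_
    push_cast
    ring
  · obtain ⟨w, rfl⟩ : ∃ w, q = w + 16 := ⟨q - 16, by omega⟩
    rw [← sub_nonneg]
    have : (0 : ℤ) ≤ (8207) * (w : ℤ) ^ 0 + (1537) * (w : ℤ) ^ 1 + (96) * (w : ℤ) ^ 2 + (2) * (w : ℤ) ^ 3 := by positivity
    refine this.trans_eq ?_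
    push_cast
    ring

end Pool.Agent.Lib.MP_343319_al
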