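import Pool.Agent.Lib.MP_343319_al.P2a

namespace Pool.Agent.Lib.MP_343319_al

def st : Ty → ℕ
  | .A => 1
  | .U => 4
  | _ => 2

lemma st_pos (t : Ty) : 1 ≤ st t := by cases t <;> simp [st]

lemma step_fac {t : Ty} {n j : ℕ} (ht : Cl t) (hn : 2 * j + 4 ≤ n) :
    ∃ s ∈ facs t n, top s + st t * j = tH t n := by
  rcases ht with rfl | rfl | rfl | rfl | rfl
  · exact ⟨_, mem_facs_A.2 ⟨n - j, by omega, by omega, rfl⟩, by simp [top, st, tH]; omega⟩
  · by_cases h : n % 2 = 1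
    · refine ⟨_, mem_facs_U.2 ⟨n - 2 * j, by omega, by omega, rfl⟩, ?_⟩
      simp only [top, st, tH, if_pos h]
      rw [show (n - 2 * j) % 2 = 1 by omega]; omega
    · refine ⟨_, mem_facs_U.2 ⟨n - 1 - 2 * j, by omega, by omega, rfl⟩, ?_⟩
      simp only [top, st, tH, if_neg h]
      rw [show (n - 1 - 2 * j) % 2 = 1 by omega]; omega
  · exact ⟨_, mem_facs_B.2 ⟨n - j, by omega, by omega, rfl⟩, by simp [top, st, tH]; omega⟩
  · exact ⟨_, mem_facs_D.2 (Or.inr ⟨n - 1 - j, by omega, by omega, rfl⟩), by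
      simp [top, st, tH]; omega⟩
  · rcases Nat.eq_zero_or_pos j with rfl | hj
    · exact ⟨_, mem_facs_E.2 (Or.inl rfl), by simp [top, st, tH]; omega⟩
    · exact ⟨_, mem_facs_E.2 (Or.inr ⟨n - j, by omega, by omega, rfl⟩), by
        simp [top, st, tH]; omega⟩

lemma step_om {t : Ty} {n j f e : ℕ} (hS : vS t n = true) (hf : 1 ≤ f) (hn : 2 * j + 4 ≤ n)
    (he : e + st t * f * j = f * tH t n) : inOm e t n f = true := by
  obtain ⟨s, hs, h⟩ := step_fac (cl_of_pos hS (by omega)) hn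
  have : e = f * top s := by
    rw [← h, mul_add] at he
    have : st t * f * j = f * (st t * j) := by ring
    omega
  rw [this]; exact inOm_top hS hf hs

lemma win_fac {t : Ty} {n : ℕ} (hS : vS t n = true) {s : ℕ × ℕ} (hs : s ∈ facs t n)
    (h1 : 4 * tH t n < 5 * top s) (h2 : top s < tH t n) :
    6 ≤ n ∧ ∃ j, 1 ≤ j ∧ top s + st t * j = tH t n := by
  cases t <;> simp only [vS, decide_eq_true_eq] at hS
  · obtain ⟨i, a, b, rfl⟩ := mem_facs_A.1 hs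
    simp only [top, tH, st] at *
    exact ⟨by omega, n - i, by omega, by omega⟩
  · obtain ⟨i, a, b, rfl⟩ := mem_facs_U.1 hs
    simp only [top, tH, st] at *
    rcases Nat.mod_two_eq_zero_or_one i with h | h <;> rw [h] at h1 h2 ⊢ <;> split_ifs at *
    · omega
    · omega
    · exact ⟨by omega, (n - i) / 2, by omega, by omega⟩
    · exact ⟨by omega, (n - 1 - i) / 2, by omega, by omega⟩
  · obtain ⟨i, a, b, rfl⟩ := mem_facs_B.1 hs
    simp only [top, tH, st] at *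
    exact ⟨by omega, n - i, by omega, by omega⟩
  · rcases mem_facs_D.1 hs with rfl | ⟨i, a, b, rfl⟩ <;> simp only [top, tH, st] at *
    · omega
    · exact ⟨by omega, n - 1 - i, by omega, by omega⟩
  · rcases mem_facs_E.1 hs with rfl | ⟨i, a, b, rfl⟩ <;> simp only [top, tH, st] at *
    · omega
    · exact ⟨by omega, n - i, by omega, by omega⟩
  all_goals
    exfalso
    revert s
    simp only [facs, tH]
    decide

lemma win {t : Ty} {n g e : ℕ} (hS : vS t n = true) (hg : 1 ≤ g) (h : inOm e t n g = true)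
    (h1 : 4 * (g * tH t n) < 5 * e) (h2 : e < g * tH t n) :
    6 ≤ n ∧ ∃ j, 1 ≤ j ∧ e + st t * g * j = g * tH t n := by
  obtain ⟨s, hs, ⟨c, hc⟩, -⟩ := inOm_iff.1 h
  have h3 := facs_prop hS hs
  have h4 := Nat.mul_le_mul_left g h3.2.2
  have h5 := Nat.mul_pos hg (top_pos h3.1)
  have h6 : c = 1 := by
    rcases c with _ | _ | c
    · omega
    · rfl
    · have : e * 2 ≤ e * (c + 1 + 1) := Nat.mul_le_mul_left _ (by omega)
      omega
  rw [h6, mul_one] at hc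
  subst hc
  obtain ⟨h7, j, h8, h9⟩ := win_fac hS hs
    (Nat.lt_of_mul_lt_mul_left (a := g) (by linarith)) (Nat.lt_of_mul_lt_mul_left h2)
  exact ⟨h7, j, h8, by rw [← h9]; ring⟩

lemma Val.L8 {t : Ty} {n p f : ℕ} (hv : Val t n p f) (h : 24 ≤ f * tH t n) :
    p ^ (16 * (f * tN t n) + f * tH t n) ≤ ord t n (p ^ f) ^ 8 := by
  have hq := hv.two_le
  have h1 : 2 ^ 24 ≤ (p ^ f) ^ tH t n := by
    rw [← pow_mul]
    exact (Nat.pow_le_pow_right (by norm_num) h).trans (Nat.pow_le_pow_left hv.hp.two_le _)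
  have h2 := td_le_dmax hv.hS (p ^ f)
  have key : (2 * td t n (p ^ f)) ^ 8 * (p ^ f) ^ tH t n ≤ (p ^ f) ^ (8 * tr t n) := by
    have k1 : ∀ a, (2 * td t n (p ^ f)) ^ 8 ≤ (p ^ f) ^ a → a + tH t n ≤ 8 * tr t n →
        (2 * td t n (p ^ f)) ^ 8 * (p ^ f) ^ tH t n ≤ (p ^ f) ^ (8 * tr t n) := fun a h3 h4 =>
      (Nat.mul_le_mul_right _ h3).trans (by
        rw [← pow_add]; exact Nat.pow_le_pow_right (by omega) h4)
    by_cases h3 : dmax t n ≤ 4 ∧ 2 * tH t n ≤ 8 * tr t n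
    · refine k1 _ (le_trans ?_ h1) (by omega)
      exact (Nat.pow_le_pow_left (show _ ≤ 8 by omega) 8).trans (by norm_num)
    by_cases h4 : t = .Re
    · subst h4
      obtain ⟨rfl, -, h5⟩ := hv.Re
      have : 3 ^ 3 ≤ 3 ^ f := Nat.pow_le_pow_right (by norm_num) h5
      refine k1 2 ?_ (by simp [tH, tr])
      have := Nat.pow_le_pow_left this 2
      simp only [td]; omega
    by_cases h5 : t = .V4
    · subst h5
      obtain ⟨rfl, -, h5⟩ := hv.V4
      have : 2 ^ 3 ≤ 2 ^ f := Nat.pow_le_pow_right (by norm_num) h5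
      refine k1 4 ?_ (by simp [tH, tr])
      have := Nat.pow_le_pow_left this 4
      simp only [td]; omega
    have hS := hv.hS
    have h6 : (t = .A ∨ t = .U) ∧ 22 + tH t n ≤ 8 * tr t n := by
      cases t <;> simp only [vS, decide_eq_true_eq, dmax, tH, tr] at hS h3 ⊢ <;>
        first | (simp; omega) | (split_ifs at * <;> simp <;> omega) | omega | tauto
    refine k1 22 ?_ h6.2
    have h7 := td_le_succ (n := n) hq h6.1
    have h8 : 2 ^ 14 ≤ (p ^ f) ^ 14 := Nat.pow_le_pow_left hq _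
    calc (2 * td t n (p ^ f)) ^ 8 ≤ (3 * p ^ f) ^ 8 := Nat.pow_le_pow_left (by omega) _
      _ = 6561 * (p ^ f) ^ 8 := by ring
      _ ≤ (p ^ f) ^ 14 * (p ^ f) ^ 8 := Nat.mul_le_mul_right _ (by omega)
      _ = _ := by ring
  have h3 := Nat.pow_le_pow_left (ord_ge hq hv.hS) 8
  have h4 : 0 < (2 * td t n (p ^ f)) ^ 8 := pow_pos (by have := td_pos (q := p ^ f) hv.hS; omega) _
  refine Nat.le_of_mul_le_mul_left ?_ h4
  calc _ = (p ^ f) ^ (16 * tN t n) * ((2 * td t n (p ^ f)) ^ 8 * (p ^ f) ^ tH t n) := by ring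
    _ ≤ (p ^ f) ^ (16 * tN t n) * (p ^ f) ^ (8 * tr t n) := Nat.mul_le_mul_left _ key
    _ = ((p ^ f) ^ (2 * tN t n + tr t n)) ^ 8 := by ring
    _ ≤ _ := h3
    _ = _ := by ring

lemma quotA {t t1 : Ty} {n n1 q q1 y c : ℕ} (hq1 : 2 ≤ q1) (hS : vS t n = true)
    (hS1 : vS t1 n1 = true) (he : ord t1 n1 q1 * y = ord t n q) (hc : tR t n q = tR t1 n1 q1 * c) :
    td t n q * y * q1 ^ tN t1 n1 = td t1 n1 q1 * q ^ tN t n * c := by
  have a := td_mul_ord (q := q) hS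
  have a1 := td_mul_ord (q := q1) hS1
  rw [← he, hc] at a
  refine Nat.eq_of_mul_eq_mul_right (tR_pos hq1 hS1) ?_
  zify at a a1 ⊢
  linear_combination (td t1 n1 q1) * a - td t n q * y * a1

section
variable {t t1 t2 : Ty} {n n1 n2 p f g h : ℕ} (hv : Val t n p f) (hv1 : Val t1 n1 p g)
  (hv2 : Val t2 n2 p h) (he : ord t1 n1 (p ^ g) * ord t2 n2 (p ^ h) = ord t n (p ^ f))
include hv hv1 hv2 he

lemma quotB {c e k : ℕ} (hc : tR t n (p ^ f) = tR t1 n1 (p ^ g) * c) (hk : c ≤ p ^ k)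
    (h24 : 24 ≤ e) (hH : e ≤ h * tH t2 n2) :
    p ^ (8 * (h * tN t2 n2) + e) ≤ td t1 n1 (p ^ g) ^ 8 * p ^ (8 * k) := by
  have a := quotA hv1.two_le hv.hS hv1.hS he hc
  have b := hv2.L8 (by omega)
  have hN := val_add hv hv1 hv2 he
  have hp := hv.hp.pos
  rw [← pow_mul, ← pow_mul, ← hN, pow_add] at a
  have a2 : td t n (p ^ f) * ord t2 n2 (p ^ h) = td t1 n1 (p ^ g) * p ^ (h * tN t2 n2) * c :=
    Nat.eq_of_mul_eq_mul_right (pow_pos hp (g * tN t1 n1)) (by linarith)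
  have a3 : ord t2 n2 (p ^ h) ≤ td t1 n1 (p ^ g) * p ^ (h * tN t2 n2) * p ^ k :=
    (Nat.le_mul_of_pos_left _ (td_pos hv.hS)).trans (a2.le.trans (Nat.mul_le_mul_left _ hk))
  refine Nat.le_of_mul_le_mul_left ?_ (pow_pos hp (8 * (h * tN t2 n2)))
  calc _ = p ^ (16 * (h * tN t2 n2) + e) := by ring
    _ ≤ p ^ (16 * (h * tN t2 n2) + h * tH t2 n2) := Nat.pow_le_pow_right hp (by omega)
    _ ≤ _ := b
    _ ≤ _ := Nat.pow_le_pow_left a3 8
    _ = _ := by ring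

lemma quotC {c e : ℕ} (hc : tR t n (p ^ f) = tR t1 n1 (p ^ g) * c) (hd : p ^ e - 1 ∣ c)
    (h24 : 24 ≤ e) (hcond : dmax t n ≤ 4 ∨ ¬e ∣ 2 * f) : e ≤ h * tH t2 n2 := by
  have a := quotA hv1.two_le hv.hS hv1.hS he hc
  obtain ⟨l, hl⟩ := zsigmondy hv.hp.two_le (show 3 ≤ e by omega) (by omega)
  have b : l ∣ td t n (p ^ f) * ord t2 n2 (p ^ h) * (p ^ g) ^ tN t1 n1 := by
    rw [a]; exact Dvd.dvd.mul_left (hl.dvd.trans hd) _
  rcases (Nat.Prime.dvd_mul hl.1).1 b with b | b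
  · rcases (Nat.Prime.dvd_mul hl.1).1 b with b | b
    · exact absurd b (hl.not_dvd_td hv.hp.pos (by omega) hv.hS hcond)
    · exact inOm_le hv2.hS hv2.hf (hl.inOm_of_dvd hv.hp.pos (by omega) hv2.hS b)
  · exact absurd (hl.1.dvd_of_dvd_pow (hl.1.dvd_of_dvd_pow b)) (hl.not_dvd hv.hp.pos (by omega))

lemma quotD {c e k : ℕ} (hc : tR t n (p ^ f) = tR t1 n1 (p ^ g) * c) (hk : c ≤ p ^ k)
    (h24 : 24 ≤ e) (hH : e ≤ h * tH t2 n2) (hd : dmax t1 n1 ≤ 4) :
    8 * (h * tN t2 n2) + e ≤ 8 * k + 16 := by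
  refine pow_le_bound hv.hp.two_le (quotB hv hv1 hv2 he hc hk h24 hH) ?_
  have := Nat.pow_le_pow_left ((td_le_dmax hv1.hS (p ^ g)).trans hd) 8
  omega

lemma quotI : p ^ (g * tr t1 n1) ≤ 2 * dmax t1 n1 * p ^ (f * tr t n) := by
  have hN := val_add hv hv1 hv2 he
  have a := Nat.mul_le_mul (ord_ge hv1.two_le hv1.hS) hv2.sq_le
  have b := ord_le hv.two_le hv.hS
  have c := td_le_dmax hv1.hS (p ^ g)
  rw [mul_assoc _ (ord _ _ _), he] at a
  have hp := hv.hp.pos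
  refine Nat.le_of_mul_le_mul_left ?_ (pow_pos hp (2 * (f * tN t n)))
  calc _ = (p ^ g) ^ (2 * tN t1 n1 + tr t1 n1) * (p ^ h) ^ (2 * tN t2 n2) := by
        rw [← hN]; ring
    _ ≤ _ := a
    _ ≤ 2 * dmax t1 n1 * (p ^ f) ^ (2 * tN t n + tr t n) := by gcongr
    _ = _ := by ring

end

end Pool.Agent.Lib.MP_343319_al
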