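import Pool.Agent.Lib.MP_343319_al.Basic

namespace Pool.Agent.Lib.MP_343319_al

open Polynomial

/-- `l` is a prime and `e` is the multiplicative order of `Q` modulo `l` -/
def IsPP (Q e l : ℕ) : Prop := l.Prime ∧ ∀ k, l ∣ Q ^ k - 1 ↔ e ∣ k

lemma dvd_pow_sub_one_iff {Q l k : ℕ} (hQ : 1 ≤ Q) :
    l ∣ Q ^ k - 1 ↔ ((Q : ZMod l)) ^ k = 1 := by
  have h1 : 1 ≤ Q ^ k := Nat.one_le_pow _ _ hQ
  rw [← ZMod.natCast_eq_zero_iff, Nat.cast_sub h1, Nat.cast_pow, Nat.cast_one, sub_eq_zero]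

lemma exists_PP {Q l : ℕ} (hl : l.Prime) (hQ : 1 ≤ Q) (h : ¬l ∣ Q) :
    ∃ e, 1 ≤ e ∧ IsPP Q e l := by
  haveI := Fact.mk hl
  refine ⟨orderOf (Q : ZMod l), ?_, hl, fun k => ?_⟩
  · have h0 : (Q : ZMod l) ≠ 0 := by rwa [Ne, ZMod.natCast_eq_zero_iff]
    have := ZMod.pow_card_sub_one_eq_one h0
    exact orderOf_pos_iff.2 (isOfFinOrder_iff_pow_eq_one.2 ⟨l - 1, by have := hl.two_le; omega, this⟩)
  · rw [dvd_pow_sub_one_iff hQ, orderOf_dvd_iff_pow_eq_one]

lemma not_dvd_of_dvd_sub {X l : ℕ} (hl : l.Prime) (hX : 1 ≤ X) (h : l ∣ X - 1) : ¬l ∣ X := by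
  intro h2
  have : l ∣ X - (X - 1) := Nat.dvd_sub h2 h
  rw [show X - (X - 1) = 1 by omega] at this
  exact hl.one_lt.ne' (Nat.dvd_one.1 this)

lemma IsPP.dvd {Q e l : ℕ} (h : IsPP Q e l) : l ∣ Q ^ e - 1 := (h.2 e).2 dvd_rfl

lemma IsPP.not_dvd {Q e l : ℕ} (h : IsPP Q e l) (hQ : 1 ≤ Q) (he : 1 ≤ e) : ¬l ∣ Q := by
  intro h2
  exact not_dvd_of_dvd_sub h.1 (Nat.one_le_pow _ _ hQ) h.dvd (dvd_pow h2 (by omega))

lemma IsPP.dvd_pred {Q e l : ℕ} (h : IsPP Q e l) (hQ : 1 ≤ Q) (he : 1 ≤ e) : e ∣ l - 1 := by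
  haveI := Fact.mk h.1
  have h0 : (Q : ZMod l) ≠ 0 := by
    rw [Ne, ZMod.natCast_eq_zero_iff]; exact h.not_dvd hQ he
  rw [← h.2, dvd_pow_sub_one_iff hQ]
  exact ZMod.pow_card_sub_one_eq_one h0

lemma IsPP.lt {Q e l : ℕ} (h : IsPP Q e l) (hQ : 1 ≤ Q) (he : 1 ≤ e) : e < l := by
  have := Nat.le_of_dvd (by have := h.1.two_le; omega) (h.dvd_pred hQ he)
  have := h.1.two_le
  omega

lemma IsPP.not_dvd_e {Q e l : ℕ} (h : IsPP Q e l) (hQ : 1 ≤ Q) (he : 1 ≤ e) : ¬l ∣ e := by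
  intro h2
  have := Nat.le_of_dvd he h2
  have := h.lt hQ he
  omega

lemma lte {X j l : ℕ} (hl : l.Prime) (hX : 2 ≤ X) (hj : 1 ≤ j) (h : l ∣ X - 1)
    (h2 : l ≠ 2 ∨ 4 ∣ X - 1 ∨ ¬2 ∣ j) :
    padicValNat l (X ^ j - 1) = padicValNat l (X - 1) + padicValNat l j := by
  haveI := Fact.mk hl
  have hn := not_dvd_of_dvd_sub hl (by omega) h
  by_cases h3 : l = 2
  · subst h3
    by_cases h4 : 2 ∣ j
    · have h5 : 4 ∣ X - 1 := by tauto
      have := padicValNat.pow_two_sub_one (x := X) (n := j) (by omega) hn (by omega)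
        (even_iff_two_dvd.2 h4)
      have h6 : padicValNat 2 (X + 1) = 1 := by
        obtain ⟨c, hc⟩ := h5
        have e : X + 1 = 2 * (2 * c + 1) := by omega
        rw [e, padicValNat.mul (by norm_num) (by omega), padicValNat.self (by norm_num),
          padicValNat.eq_zero_of_not_dvd (by omega)]
      omega
    · rw [padicValNat.eq_zero_of_not_dvd h4, add_zero]
      have h1 : 1 ≤ X ^ j := Nat.one_le_pow _ _ (by omega)
      have h1' : 1 < X ^ j := Nat.one_lt_pow (by omega) (by omega)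
      have key := emultiplicity_pow_sub_pow_of_prime (R := ℤ) (p := 2) Int.prime_two
        (x := (X : ℤ)) (y := 1) (by
          have : ((X - 1 : ℕ) : ℤ) = X - 1 := by push_cast [Nat.cast_sub (show 1 ≤ X by omega)]; rfl
          rw [← this]; exact_mod_cast h) (by exact_mod_cast hn) (n := j) (by exact_mod_cast h4)
      rw [← Nat.cast_inj (R := ℕ∞), padicValNat_eq_emultiplicity (by omega),
        padicValNat_eq_emultiplicity (by omega), ← Int.natCast_emultiplicity,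
        ← Int.natCast_emultiplicity, Nat.cast_sub h1, Nat.cast_sub (show 1 ≤ X by omega)]
      simpa using key
  · have := padicValNat.pow_sub_pow (p := l) (x := X) (y := 1) (hl.odd_of_ne_two h3)
      (by omega) h hn (n := j) (by omega)
    simpa using this

lemma IsPP.lte {Q e l k : ℕ} (h : IsPP Q e l) (hQ : 2 ≤ Q) (he : 1 ≤ e) (hk : 1 ≤ k)
    (hek : e ∣ k) (h2 : l ≠ 2 ∨ 4 ∣ Q - 1) :
    padicValNat l (Q ^ k - 1) = padicValNat l (Q ^ e - 1) + padicValNat l (k / e) := by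
  obtain ⟨j, rfl⟩ := hek
  have hj : 1 ≤ j := by
    rcases j with _ | j
    · simp at hk
    · omega
  rw [Nat.mul_div_cancel_left _ he, pow_mul]
  refine Pool.Agent.Lib.MP_343319_al.lte h.1 (Nat.one_lt_pow (by omega) (by omega)) hj h.dvd ?_
  rcases h2 with h2 | h2
  · exact Or.inl h2
  · refine Or.inr (Or.inl (h2.trans ?_))
    simpa using Nat.sub_dvd_pow_sub_pow Q 1 e

/-- value of the cyclotomic polynomial -/
noncomputable def Phi (e Q : ℕ) : ℕ := ((cyclotomic e ℤ).eval (Q : ℤ)).natAbs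

lemma Phi_cast {e Q : ℕ} (hQ : 2 ≤ Q) : (Phi e Q : ℤ) = (cyclotomic e ℤ).eval (Q : ℤ) := by
  rw [Phi, Int.natAbs_of_nonneg]
  exact (cyclotomic_pos' e (by exact_mod_cast hQ)).le

lemma Phi_pos {e Q : ℕ} (hQ : 2 ≤ Q) : 0 < Phi e Q := by
  have := cyclotomic_pos' e (R := ℤ) (x := (Q : ℤ)) (by exact_mod_cast hQ)
  rw [← Phi_cast hQ] at this
  exact_mod_cast this

lemma Phi_mul_dvd {e m Q : ℕ} (hQ : 2 ≤ Q) (hm : m ∣ e) (hme : m < e) :
    (Q ^ m - 1) * Phi e Q ∣ Q ^ e - 1 := by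
  have h := X_pow_sub_one_mul_cyclotomic_dvd_X_pow_sub_one_of_dvd ℤ
    (Nat.mem_properDivisors.2 ⟨hm, hme⟩)
  have h2 := Polynomial.eval_dvd (x := (Q : ℤ)) h
  simp only [eval_mul, eval_sub, eval_pow, eval_X, eval_one] at h2
  rw [← Phi_cast hQ] at h2
  have h1 : ∀ i, 1 ≤ Q ^ i := fun i => Nat.one_le_pow _ _ (by omega)
  rw [← Int.natCast_dvd_natCast]
  push_cast [Nat.cast_sub (h1 _)]
  exact h2

lemma Phi_dvd {e Q : ℕ} (hQ : 2 ≤ Q) : Phi e Q ∣ Q ^ e - 1 := by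
  have h2 := Polynomial.eval_dvd (x := (Q : ℤ)) (cyclotomic.dvd_X_pow_sub_one e ℤ)
  simp only [eval_sub, eval_pow, eval_X, eval_one] at h2
  rw [← Phi_cast hQ] at h2
  have h1 : ∀ i, 1 ≤ Q ^ i := fun i => Nat.one_le_pow _ _ (by omega)
  rw [← Int.natCast_dvd_natCast]
  push_cast [Nat.cast_sub (h1 _)]
  exact h2

lemma Phi_val_le {e m Q l : ℕ} (hl : l.Prime) (hQ : 2 ≤ Q) (hm : m ∣ e) (hme : m < e)
    (hd : l ∣ Q ^ m - 1) (h2 : l ≠ 2 ∨ 4 ∣ Q ^ m - 1 ∨ ¬2 ∣ e / m) :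
    padicValNat l (Phi e Q) ≤ padicValNat l (e / m) := by
  haveI := Fact.mk hl
  have hm0 : 1 ≤ m := Nat.pos_of_dvd_of_pos hm (by omega)
  have h1 := Phi_mul_dvd hQ hm hme
  have hp1 : 0 < Q ^ m - 1 := pow_sub_one_pos hQ hm0
  have hp2 : 0 < Q ^ e - 1 := pow_sub_one_pos hQ (by omega)
  have h3 : padicValNat l ((Q ^ m - 1) * Phi e Q) ≤ padicValNat l (Q ^ e - 1) := by
    rw [← Nat.factorization_def _ hl, ← Nat.factorization_def _ hl]
    exact (Nat.factorization_le_iff_dvd (Nat.mul_pos hp1 (Phi_pos hQ)).ne' hp2.ne').2 h1 l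
  rw [padicValNat.mul hp1.ne' (Phi_pos hQ).ne'] at h3
  obtain ⟨j, rfl⟩ := hm
  have hj : 1 ≤ j := by
    rcases j with _ | j
    · simp at hme
    · omega
  rw [Nat.mul_div_cancel_left _ hm0] at h2 ⊢
  have := lte (X := Q ^ m) hl (Nat.one_lt_pow (by omega) (by omega)) hj hd h2
  rw [← pow_mul] at this
  omega

lemma not_dvd_of_val {l x : ℕ} (hl : l.Prime) (hx : 0 < x) (h : padicValNat l x = 0) : ¬l ∣ x := by
  haveI := Fact.mk hl
  intro hd
  have := one_le_padicValNat_of_dvd hx.ne' hd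
  omega

lemma PP_of_Phi {e Q l : ℕ} (hl : l.Prime) (hQ : 2 ≤ Q) (he : 1 ≤ e) (hd : l ∣ Phi e Q)
    (hle : ¬l ∣ e) : IsPP Q e l := by
  have h1 : l ∣ Q ^ e - 1 := hd.trans (Phi_dvd hQ)
  have h2 : ¬l ∣ Q := fun h =>
    not_dvd_of_dvd_sub hl (Nat.one_le_pow _ _ (by omega)) h1 (dvd_pow h (by omega))
  obtain ⟨e0, he0, h0⟩ := exists_PP hl (by omega) h2
  have h3 : e0 ∣ e := (h0.2 e).1 h1
  rcases (Nat.le_of_dvd he h3).eq_or_lt with rfl | hlt
  · exact h0
  · have h4 : ¬l ∣ e / e0 := fun h => hle (h.trans (Nat.div_dvd_of_dvd h3))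
    have := Phi_val_le hl hQ h3 hlt h0.dvd (by
      by_cases h : l = 2
      · subst h; exact Or.inr (Or.inr h4)
      · exact Or.inl h)
    rw [padicValNat.eq_zero_of_not_dvd h4] at this
    exact absurd hd (not_dvd_of_val hl (Phi_pos hQ) (by omega))

lemma Phi_val_one {e Q l : ℕ} (hl : l.Prime) (hQ : 2 ≤ Q) (he : 3 ≤ e) (hle : l ∣ e) :
    padicValNat l (Phi e Q) ≤ 1 := by
  haveI := Fact.mk hl
  by_cases hd : l ∣ Phi e Q
  swap
  · rw [padicValNat.eq_zero_of_not_dvd hd]; omega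
  have h1 : l ∣ Q ^ e - 1 := hd.trans (Phi_dvd hQ)
  have h2 : ¬l ∣ Q := fun h =>
    not_dvd_of_dvd_sub hl (Nat.one_le_pow _ _ (by omega)) h1 (dvd_pow h (by omega))
  obtain ⟨e0, he0, h0⟩ := exists_PP hl (by omega) h2
  have h3 : e0 ∣ e := (h0.2 e).1 h1
  obtain ⟨m, rfl⟩ := hle
  have hm : 1 ≤ m := by
    rcases m with _ | m
    · simp at he
    · omega
  have h4 : e0 ∣ m := by
    refine Nat.Coprime.dvd_of_dvd_mul_left ?_ h3
    exact ((Nat.Prime.coprime_iff_not_dvd hl).2 (h0.not_dvd_e (by omega) he0)).symm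
  have hlt : m < l * m := by have := hl.two_le; nlinarith
  by_cases h5 : l = 2 ∧ ¬2 ∣ m
  · obtain ⟨rfl, h6⟩ := h5
    have h7 : 4 ∣ Q ^ 2 - 1 :=
      (show 4 ∣ 8 by norm_num).trans (Nat.eight_dvd_sq_sub_one_of_odd (by
        rwa [← Nat.not_even_iff_odd, even_iff_two_dvd]))
    have := Phi_val_le hl hQ (e := 2 * m) (m := 2) (Dvd.intro _ rfl) (by omega)
      ((show 2 ∣ 4 by norm_num).trans h7) (Or.inr (Or.inl h7))
    rw [Nat.mul_div_cancel_left _ (by norm_num), padicValNat.eq_zero_of_not_dvd h6] at this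
    omega
  · have := Phi_val_le hl hQ (e := l * m) (m := m) (Dvd.intro_left _ rfl) hlt ((h0.2 m).2 h4) (by
      by_cases h : l = 2
      · subst h
        obtain ⟨c, rfl⟩ : 2 ∣ m := by tauto
        refine Or.inr (Or.inl ?_)
        rw [pow_mul']
        refine (show 4 ∣ 8 by norm_num).trans (Nat.eight_dvd_sq_sub_one_of_odd (Odd.pow ?_))
        rwa [← Nat.not_even_iff_odd, even_iff_two_dvd]
      · exact Or.inl h)
    rwa [Nat.mul_div_cancel _ hm, padicValNat.self hl.one_lt] at this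

lemma Phi_lt_of_two {e Q l l' : ℕ} (hl : l.Prime) (hl' : l'.Prime) (hQ : 2 ≤ Q) (he : 1 ≤ e)
    (hne : l ≠ l') (hd : l ∣ Phi e Q) (hle : l' ∣ e) : l' < l := by
  have h1 : l ∣ Q ^ e - 1 := hd.trans (Phi_dvd hQ)
  have h2 : ¬l ∣ Q := fun h =>
    not_dvd_of_dvd_sub hl (Nat.one_le_pow _ _ (by omega)) h1 (dvd_pow h (by omega))
  obtain ⟨e0, he0, h0⟩ := exists_PP hl (by omega) h2
  have h3 : e0 ∣ e := (h0.2 e).1 h1
  by_cases h4 : l' ∣ e0
  · have := Nat.le_of_dvd he0 h4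
    have := h0.lt (by omega) he0
    omega
  exfalso
  obtain ⟨m, rfl⟩ := hle
  have hm : 1 ≤ m := by
    rcases m with _ | m
    · simp at he
    · omega
  have h5 : e0 ∣ m := by
    refine Nat.Coprime.dvd_of_dvd_mul_left ?_ h3
    exact ((Nat.Prime.coprime_iff_not_dvd hl').2 h4).symm
  have hlt : m < l' * m := by have := hl'.two_le; nlinarith
  have h6 : ¬l ∣ l' := fun h => hne ((Nat.prime_dvd_prime_iff_eq hl hl').1 h)
  have := Phi_val_le hl hQ (e := l' * m) (m := m) (Dvd.intro_left _ rfl) hlt ((h0.2 m).2 h5) (by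
    rw [Nat.mul_div_cancel _ hm]
    by_cases h : l = 2
    · subst h; exact Or.inr (Or.inr h6)
    · exact Or.inl h)
  rw [Nat.mul_div_cancel _ hm, padicValNat.eq_zero_of_not_dvd h6] at this
  exact absurd hd (not_dvd_of_val hl (Phi_pos hQ) (by omega))

lemma Phi_gt {e Q : ℕ} (he : 2 ≤ e) (hQ : 2 ≤ Q) : (Q - 1) ^ e.totient < Phi e Q :=
  sub_one_pow_totient_lt_natAbs_cyclotomic_eval (by omega) (by omega)

lemma Phi_le {e Q : ℕ} (hQ : 2 ≤ Q) : Phi e Q ≤ (Q + 1) ^ e.totient := by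
  have h := cyclotomic_eval_le_add_one_pow_totient (q := (Q : ℝ)) (by exact_mod_cast hQ) e
  have h2 : ((Phi e Q : ℤ) : ℝ) = (cyclotomic e ℝ).eval (Q : ℝ) := by
    rw [Phi_cast hQ, ← map_cyclotomic_int e ℝ]
    have := Polynomial.eval_intCast_map (Int.castRingHom ℝ) (cyclotomic e ℤ) (Q : ℤ)
    simpa using this.symm
  rw [← h2] at h
  exact_mod_cast h

lemma Phi_expand {m l Q : ℕ} (hl : l.Prime) (hQ : 2 ≤ Q) (h : l ∣ m) :
    Phi (m * l) Q = Phi m (Q ^ l) := by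
  rw [Phi, Phi, ← cyclotomic_expand_eq_cyclotomic hl h, expand_eval]
  push_cast; rfl

lemma Phi_expand_mul {m l Q : ℕ} (hl : l.Prime) (hQ : 2 ≤ Q) (h : ¬l ∣ m) :
    Phi (m * l) Q * Phi m Q = Phi m (Q ^ l) := by
  rw [Phi, Phi, Phi, ← Int.natAbs_mul, ← eval_mul, ← cyclotomic_expand_eq_cyclotomic_mul hl h,
    expand_eval]
  push_cast; rfl

lemma Phi_gt_prime {e Q l : ℕ} (hl : l.Prime) (hQ : 2 ≤ Q) (he : 3 ≤ e) (hle : l ∣ e)
    (h26 : ¬(Q = 2 ∧ e = 6)) (hd : l ∣ Phi e Q) : l < Phi e Q := by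
  have hl2 := hl.two_le
  by_cases hQ2 : 3 ≤ Q
  · have h1 := Phi_gt (e := e) (Q := Q) (by omega) hQ
    have h2 : l - 1 ≤ e.totient := by
      rw [← Nat.totient_prime hl]
      exact Nat.le_of_dvd (Nat.totient_pos.2 (by omega)) (Nat.totient_dvd_of_dvd hle)
    have h3 : 2 ^ (l - 1) ≤ (Q - 1) ^ e.totient :=
      (Nat.pow_le_pow_right (by norm_num) h2).trans (Nat.pow_le_pow_left (by omega) _)
    have h4 : l - 1 < 2 ^ (l - 1) := Nat.lt_two_pow_self
    omega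
  obtain rfl : Q = 2 := by omega
  have h1 : l ∣ 2 ^ e - 1 := hd.trans (Phi_dvd hQ)
  have hne : l ≠ 2 := by
    rintro rfl
    exact not_dvd_of_dvd_sub hl (Nat.one_le_pow _ _ (by omega)) h1 (dvd_pow dvd_rfl (by omega))
  obtain ⟨m, rfl⟩ := hle
  rw [mul_comm] at *
  have h4 : l < 2 ^ l := Nat.lt_two_pow_self
  have hQl : 2 ≤ 2 ^ l := by omega
  by_cases hm : l ∣ m
  · have hm2 : 2 ≤ m := by
      rcases m with _ | m
      · simp at he
      · have := Nat.le_of_dvd (by omega) hm; omega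
    rw [Phi_expand hl hQ hm]
    have h5 := Phi_gt hm2 hQl
    have h6 : 2 ^ l - 1 ≤ (2 ^ l - 1) ^ m.totient :=
      Nat.le_self_pow (Nat.totient_pos.2 (by omega)).ne' _
    omega
  · have h5 := Phi_expand_mul hl hQ hm
    rcases m with _ | _ | m
    · simp at he
    · exfalso
      have h7 : Phi 1 2 = 1 := by simp [Phi]
      have h8 : Phi 1 (2 ^ l) = 2 ^ l - 1 := by
        simp only [Phi, cyclotomic_one, eval_sub, eval_X, eval_one]
        omega
      simp only [zero_add, one_mul] at *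
      obtain ⟨e0, he0, h0⟩ := exists_PP (Q := 2) hl (by norm_num) (fun h =>
        hne ((Nat.prime_dvd_prime_iff_eq hl Nat.prime_two).1 h))
      have h9 := (h0.2 l).1 h1
      rcases (Nat.dvd_prime hl).1 h9 with rfl | rfl
      · have := h0.dvd
        simp at this
        omega
      · exact h0.not_dvd_e (by norm_num) he0 dvd_rfl
    · have h6 := Phi_gt (e := m + 1 + 1) (by omega) hQl
      have h7 := Phi_le (e := m + 1 + 1) (Q := 2) le_rfl
      have hphi : 1 ≤ (m + 1 + 1).totient := Nat.totient_pos.2 (by omega)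
      by_contra hc
      have h8 : Phi ((m + 1 + 1) * l) 2 * Phi (m + 1 + 1) 2 ≤ l * 3 ^ (m + 1 + 1).totient :=
        Nat.mul_le_mul (by omega) h7
      by_cases h3 : l = 3
      · subst h3
        have hm3 : m ≠ 0 := by rintro rfl; simp at h26
        have h9 : 2 ≤ (m + 1 + 1).totient := by
          have := Nat.totient_even (n := m + 1 + 1) (by omega)
          obtain ⟨c, hc⟩ := this
          omega
        obtain ⟨c, hc⟩ : ∃ c, (m + 1 + 1).totient = c + 2 := ⟨_, (Nat.sub_add_cancel h9).symm⟩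
        rw [hc] at h6 h8
        have : 3 ^ c ≤ 7 ^ c := Nat.pow_le_pow_left (by norm_num) _
        norm_num [pow_add] at h6 h8
        norm_num at h5
        omega
      · have hl5 : 5 ≤ l := by
          rcases hl.eq_two_or_odd with h | h
          · omega
          · omega
        have h9 : 3 * l ≤ 2 ^ l - 1 := by
          obtain ⟨c, rfl⟩ : ∃ c, l = c + 5 := ⟨l - 5, by omega⟩
          have : c < 2 ^ c := Nat.lt_two_pow_self
          rw [pow_add]; omega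
        have h10 : (3 * l) ^ (m + 1 + 1).totient ≤ (2 ^ l - 1) ^ (m + 1 + 1).totient :=
          Nat.pow_le_pow_left h9 _
        have h11 : l ≤ l ^ (m + 1 + 1).totient := Nat.le_self_pow (by omega) _
        rw [mul_pow] at h10
        have h12 : 3 ^ (m + 1 + 1).totient * l ≤ 3 ^ (m + 1 + 1).totient * l ^ (m + 1 + 1).totient :=
          Nat.mul_le_mul_left _ h11
        rw [mul_comm l] at h8
        omega

theorem zsigmondy {e Q : ℕ} (hQ : 2 ≤ Q) (he : 3 ≤ e) (h26 : ¬(Q = 2 ∧ e = 6)) :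
    ∃ l, IsPP Q e l := by
  by_contra hc
  push Not at hc
  have h1 : ∀ l, l.Prime → l ∣ Phi e Q → l ∣ e := fun l hl hd => by
    by_contra h
    exact hc l (PP_of_Phi hl hQ (by omega) hd h)
  have h2 : 1 < Phi e Q := by
    have := Phi_gt (e := e) (Q := Q) (by omega) hQ
    have : 0 < (Q - 1) ^ e.totient := pow_pos (by omega) _
    omega
  obtain ⟨l, hl, hd⟩ := Nat.exists_prime_and_dvd h2.ne'
  have h3 := Phi_gt_prime hl hQ he (h1 l hl hd) h26 hd
  have h4 : Phi e Q ∣ l := by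
    rw [← Nat.factorization_prime_le_iff_dvd (by omega) hl.ne_zero]
    intro l' hl'
    by_cases h : l' ∣ Phi e Q
    · have h5 : l = l' := by
        by_contra hne
        have a := Phi_lt_of_two hl hl' hQ (by omega) hne hd (h1 l' hl' h)
        have b := Phi_lt_of_two hl' hl hQ (by omega) (Ne.symm hne) h (h1 l hl hd)
        omega
      subst h5
      rw [Nat.factorization_def _ hl, hl.factorization_self]
      exact Phi_val_one hl hQ he (h1 l hl hd)
    · rw [Nat.factorization_eq_zero_of_not_dvd h]; omega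
  have := Nat.le_of_dvd hl.pos h4
  omega

end Pool.Agent.Lib.MP_343319_al
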